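import Pool.Agent.H285.Base2

/-!
# AW01 (MP_0e9fac_pr)
-/



open MeasureTheory ProbabilityTheory Filter Topology

namespace Pool.Agent.H285


/- ======== TARGETS ======== -/

theorem card_rank {α β : Type*} [LinearOrder β] (f : α → β) (hf : Function.Injective f) (b : ℕ)
    (s : Finset α) :
    open Classical in
    (s.filter fun i => b ≤ (s.filter fun j => f j < f i).card).card = s.card - b := by
  classical
  induction s using Finset.induction_on_max_value f with
  | empty => simp
  | insert a s ha hmax ih =>
    have hlt : ∀ x ∈ s, f x < f a := fun x hx =>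
      lt_of_le_of_ne (hmax x hx) (fun h => ha (hf h ▸ hx))
    have h1 : ∀ i ∈ s, ((insert a s).filter fun j => f j < f i) = s.filter fun j => f j < f i := by
      intro i hi
      rw [Finset.filter_insert, if_neg (not_lt.mpr (hlt i hi).le)]
    have h2 : ((insert a s).filter fun j => f j < f a) = s := by
      rw [Finset.filter_insert, if_neg (lt_irrefl _), Finset.filter_true_of_mem hlt]
    have h3 : (s.filter fun i => b ≤ ((insert a s).filter fun j => f j < f i).card) =
        s.filter fun i => b ≤ (s.filter fun j => f j < f i).card := by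
      apply Finset.filter_congr
      intro i hi
      rw [h1 i hi]
    rw [Finset.filter_insert, h2, h3]
    split_ifs with hb
    · rw [Finset.card_insert_of_notMem (fun h => ha (Finset.mem_filter.mp h).1), ih,
        Finset.card_insert_of_notMem ha]
      omega
    · rw [ih, Finset.card_insert_of_notMem ha]
      omega

theorem ann_subset {d : ℕ} (c : Site d → Bool) (q : Site d → Site d) (A : Finset (Site d)) :
    annihilate c q A ⊆ A := by
  exact Finset.filter_subset _ _

theorem mem_ann {d : ℕ} {c : Site d → Bool} {q : Site d → Site d} {A : Finset (Site d)}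
    {i : Site d} : i ∈ annihilate c q A ↔ i ∈ A ∧
      open Classical in
      (A.filter fun j => q j = q i ∧ c j ≠ c i).card ≤
        (A.filter fun j => q j = q i ∧ c j = c i ∧ toLex j < toLex i).card := by
  unfold annihilate
  rw [Finset.mem_filter]

theorem ann_count {d : ℕ} (c : Site d → Bool) (q : Site d → Site d) (A : Finset (Site d))
    (x : Site d) (b : Bool) :
    open Classical in
    ((annihilate c q A).filter fun i => q i = x ∧ c i = b).card =
      (A.filter fun i => q i = x ∧ c i = b).card - (A.filter fun i => q i = x ∧ c i ≠ b).card := by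
  classical
  rw [← card_rank (fun i : Site d => toLex i) (fun _ _ h => h)
    (A.filter fun i => q i = x ∧ c i ≠ b).card (A.filter fun i => q i = x ∧ c i = b)]
  congr 1
  ext i
  simp only [Finset.mem_filter, mem_ann]
  constructor
  · rintro ⟨⟨hA, hr⟩, hx, hb⟩
    refine ⟨⟨hA, hx, hb⟩, ?_⟩
    subst hx hb
    convert hr using 2
    ext j
    simp only [Finset.mem_filter]
    tauto
  · rintro ⟨⟨hA, hx, hb⟩, hr⟩
    refine ⟨⟨hA, ?_⟩, hx, hb⟩
    subst hx hb
    convert hr using 2
    ext j
    simp only [Finset.mem_filter]
    tauto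

theorem sum_sgn {d : ℕ} (c : Site d → Bool) (q : Site d → Site d) (B : Finset (Site d))
    (x : Site d) :
    open Classical in
    ∑ i ∈ B.filter (fun i => q i = x), sgn (c i) =
      ((B.filter fun i => q i = x ∧ c i = true).card : ℝ) -
        ((B.filter fun i => q i = x ∧ c i = false).card : ℝ) := by
  classical
  have h : ∀ i : Site d, sgn (c i) = (if c i = true then (1 : ℝ) else 0) -
      (if c i = false then (1 : ℝ) else 0) := by
    intro i
    cases hc : c i <;> simp [sgn]
  rw [Finset.sum_congr rfl (fun i _ => h i), Finset.sum_sub_distrib, ← Finset.sum_filter,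
    ← Finset.sum_filter, Finset.filter_filter, Finset.filter_filter]
  simp

theorem ann_charge {d : ℕ} (c : Site d → Bool) (q : Site d → Site d) (A : Finset (Site d))
    (φ : Site d → ℝ) :
    ∑ i ∈ annihilate c q A, sgn (c i) * φ (q i) = ∑ i ∈ A, sgn (c i) * φ (q i) := by
  classical
  have key : ∀ B : Finset (Site d), B ⊆ A → ∑ i ∈ B, sgn (c i) * φ (q i) =
      ∑ x ∈ A.image q, (((B.filter fun i => q i = x ∧ c i = true).card : ℝ) -
        ((B.filter fun i => q i = x ∧ c i = false).card : ℝ)) * φ x := by
    intro B hB
    rw [← Finset.sum_fiberwise_of_maps_to (t := A.image q) (g := q)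
      (fun i hi => Finset.mem_image_of_mem q (hB hi))]
    refine Finset.sum_congr rfl (fun x _ => ?_)
    rw [← sum_sgn, Finset.sum_mul]
    refine Finset.sum_congr rfl (fun i hi => ?_)
    rw [(Finset.mem_filter.mp hi).2]
  rw [key _ (ann_subset c q A), key A (Finset.Subset.refl A)]
  refine Finset.sum_congr rfl (fun x _ => ?_)
  congr 1
  have h1 := ann_count c q A x true
  have h2 := ann_count c q A x false
  have e1 : (A.filter fun i => q i = x ∧ c i ≠ true) = A.filter fun i => q i = x ∧ c i = false := by
    apply Finset.filter_congr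
    intro i _
    simp
  have e2 : (A.filter fun i => q i = x ∧ c i ≠ false) = A.filter fun i => q i = x ∧ c i = true := by
    apply Finset.filter_congr
    intro i _
    simp
  rw [e1] at h1
  rw [e2] at h2
  rw [h1, h2]
  rcases le_total (A.filter fun i => q i = x ∧ c i = true).card
    (A.filter fun i => q i = x ∧ c i = false).card with h | h
  · rw [Nat.sub_eq_zero_of_le h, Nat.cast_sub h]
    push_cast
    ring
  · rw [Nat.sub_eq_zero_of_le h, Nat.cast_sub h]
    push_cast
    ring

theorem rank_lt {d : ℕ} (c : Site d → Bool) (q : Site d → Site d) (A : Finset (Site d))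
    {i : Site d} (hi : i ∈ A) :
    open Classical in
    (A.filter fun j => q j = q i ∧ c j = c i ∧ toLex j < toLex i).card <
      (A.filter fun j => q j = q i ∧ c j = c i).card := by
  classical
  apply Finset.card_lt_card
  rw [Finset.ssubset_iff_of_subset]
  · refine ⟨i, by simp [hi], ?_⟩
    rw [Finset.mem_filter]
    exact fun h => lt_irrefl _ h.2.2.2
  · intro j hj
    simp only [Finset.mem_filter] at hj ⊢
    exact ⟨hj.1, hj.2.1, hj.2.2.1⟩

theorem ann_reduced {d : ℕ} (c : Site d → Bool) (q : Site d → Site d) (A : Finset (Site d))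
    {i j : Site d} (hi : i ∈ annihilate c q A) (hj : j ∈ annihilate c q A) (h : q i = q j) :
    c i = c j := by
  classical
  by_contra hne
  have hi' := mem_ann.mp hi
  have hj' := mem_ann.mp hj
  have h1 := rank_lt c q A hi'.1
  have h2 := rank_lt c q A hj'.1
  have e1 : (A.filter fun k => q k = q i ∧ c k ≠ c i) = A.filter fun k => q k = q j ∧ c k = c j := by
    apply Finset.filter_congr
    intro k _
    rw [h]
    cases hk : c k <;> cases hci : c i <;> cases hcj : c j <;> simp_all
  have e2 : (A.filter fun k => q k = q j ∧ c k ≠ c j) = A.filter fun k => q k = q i ∧ c k = c i := by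
    apply Finset.filter_congr
    intro k _
    rw [h]
    cases hk : c k <;> cases hci : c i <;> cases hcj : c j <;> simp_all
  have h3 := hi'.2
  have h4 := hj'.2
  rw [e1] at h3
  rw [e2] at h4
  omega

theorem ann_of_reduced {d : ℕ} (c : Site d → Bool) (q : Site d → Site d) (A : Finset (Site d))
    (h : ∀ i ∈ A, ∀ j ∈ A, q i = q j → c i = c j) : annihilate c q A = A := by
  classical
  apply Finset.Subset.antisymm (ann_subset c q A)
  intro i hi
  rw [mem_ann]
  refine ⟨hi, ?_⟩
  have : (A.filter fun j => q j = q i ∧ c j ≠ c i) = ∅ := by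
    rw [Finset.filter_eq_empty_iff]
    rintro j hj ⟨h1, h2⟩
    exact h2 (h j hj i hi h1)
  rw [this]
  simp

theorem ann_congr {d : ℕ} {c c' : Site d → Bool} {q q' : Site d → Site d} {A : Finset (Site d)}
    (hc : ∀ i ∈ A, c i = c' i) (hq : ∀ i ∈ A, q i = q' i) :
    annihilate c q A = annihilate c' q' A := by
  classical
  unfold annihilate
  apply Finset.filter_congr
  intro i hi
  have e1 : (A.filter fun j => q j = q i ∧ c j ≠ c i) =
      A.filter fun j => q' j = q' i ∧ c' j ≠ c' i := by
    apply Finset.filter_congr
    intro j hj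
    rw [hq j hj, hq i hi, hc j hj, hc i hi]
  have e2 : (A.filter fun j => q j = q i ∧ c j = c i ∧ toLex j < toLex i) =
      A.filter fun j => q' j = q' i ∧ c' j = c' i ∧ toLex j < toLex i := by
    apply Finset.filter_congr
    intro j hj
    rw [hq j hj, hq i hi, hc j hj, hc i hi]
  rw [e1, e2]

end Pool.Agent.H285
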