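import Pool.Agent.H285.Base2
import Pool.Agent.H285.AW01

/-!
# AW02 (MP_0e9fac_pr)
-/



open MeasureTheory ProbabilityTheory Filter Topology

namespace Pool.Agent.H285


/- ======== TARGETS ======== -/

/-- The number of particles of the opposite colour at the site of `i`. -/
noncomputable def oppC {d : ℕ} (c : Site d → Bool) (q : Site d → Site d)
    (A : Finset (Site d)) (i : Site d) : Finset (Site d) :=
  open Classical in
  A.filter fun j => q j = q i ∧ c j ≠ c i

/-- The particles of the same colour, the same site and a smaller label. -/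
noncomputable def rankC {d : ℕ} (c : Site d → Bool) (q : Site d → Site d)
    (A : Finset (Site d)) (i : Site d) : Finset (Site d) :=
  open Classical in
  A.filter fun j => q j = q i ∧ c j = c i ∧ toLex j < toLex i

theorem mem_oppC {d : ℕ} {c : Site d → Bool} {q : Site d → Site d} {A : Finset (Site d)}
    {i j : Site d} : j ∈ oppC c q A i ↔ j ∈ A ∧ q j = q i ∧ c j ≠ c i := by
  classical
  simp only [oppC, Finset.mem_filter]

theorem mem_rankC {d : ℕ} {c : Site d → Bool} {q : Site d → Site d} {A : Finset (Site d)}
    {i j : Site d} : j ∈ rankC c q A i ↔ j ∈ A ∧ q j = q i ∧ c j = c i ∧ toLex j < toLex i := by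
  classical
  simp only [rankC, Finset.mem_filter]

theorem aw02_mem_ann {d : ℕ} {c : Site d → Bool} {q : Site d → Site d} {A : Finset (Site d)}
    {i : Site d} :
    i ∈ annihilate c q A ↔ i ∈ A ∧ (oppC c q A i).card ≤ (rankC c q A i).card := by
  classical
  unfold annihilate
  rw [Finset.mem_filter]
  rfl

theorem ann_mono {d : ℕ} {c : Site d → Bool} {q : Site d → Site d} {A A' : Finset (Site d)}
    (h : Dom c A A') : Dom c (annihilate c q A) (annihilate c q A') := by
  constructor
  · intro i hi hc
    rw [aw02_mem_ann] at hi ⊢
    refine ⟨h.1 i hi.1 hc, ?_⟩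
    calc (oppC c q A' i).card ≤ (oppC c q A i).card := by
          apply Finset.card_le_card
          intro j hj
          rw [mem_oppC] at hj ⊢
          refine ⟨h.2 j hj.1 ?_, hj.2⟩
          have := hj.2.2
          rw [hc] at this
          simpa using this
      _ ≤ (rankC c q A i).card := hi.2
      _ ≤ (rankC c q A' i).card := by
          apply Finset.card_le_card
          intro j hj
          rw [mem_rankC] at hj ⊢
          exact ⟨h.1 j hj.1 (hj.2.2.1.trans hc), hj.2⟩
  · intro i hi hc
    rw [aw02_mem_ann] at hi ⊢
    refine ⟨h.2 i hi.1 hc, ?_⟩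
    calc (oppC c q A i).card ≤ (oppC c q A' i).card := by
          apply Finset.card_le_card
          intro j hj
          rw [mem_oppC] at hj ⊢
          refine ⟨h.1 j hj.1 ?_, hj.2⟩
          have := hj.2.2
          rw [hc] at this
          simpa using this
      _ ≤ (rankC c q A' i).card := hi.2
      _ ≤ (rankC c q A i).card := by
          apply Finset.card_le_card
          intro j hj
          rw [mem_rankC] at hj ⊢
          exact ⟨h.2 j hj.1 (hj.2.2.1.trans hc), hj.2⟩

theorem ann_erase {d : ℕ} {c : Site d → Bool} {q : Site d → Site d} {A : Finset (Site d)}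
    {i : Site d} (hi : i ∈ annihilate c q A) :
    annihilate c q (A.erase i) = (annihilate c q A).erase i := by
  classical
  rw [aw02_mem_ann] at hi
  obtain ⟨hiA, hile⟩ := hi
  ext j
  rw [Finset.mem_erase, aw02_mem_ann, aw02_mem_ann, Finset.mem_erase]
  by_cases hji : j = i
  · simp [hji]
  by_cases hjA : j ∈ A
  swap
  · simp [hjA]
  simp only [ne_eq, hji, not_false_eq_true, hjA, and_self, true_and]
  have hopp : oppC c q (A.erase i) j = (oppC c q A j).erase i := by
    ext l
    simp only [mem_oppC, Finset.mem_erase]
    tauto
  have hrank : rankC c q (A.erase i) j = (rankC c q A j).erase i := by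
    ext l
    simp only [mem_rankC, Finset.mem_erase]
    tauto
  rw [hopp, hrank]
  by_cases hq : q i = q j
  swap
  · have h1 : i ∉ oppC c q A j := by
      rw [mem_oppC]; tauto
    have h2 : i ∉ rankC c q A j := by
      rw [mem_rankC]; tauto
    rw [Finset.erase_eq_of_notMem h1, Finset.erase_eq_of_notMem h2]
  by_cases hcc : c i = c j
  · have h1 : i ∉ oppC c q A j := by
      rw [mem_oppC]; tauto
    rw [Finset.erase_eq_of_notMem h1]
    by_cases hlt : toLex i < toLex j
    · have h2 : i ∈ rankC c q A j := by
        rw [mem_rankC]; exact ⟨hiA, hq, hcc, hlt⟩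
      have hsub : insert i (rankC c q A i) ⊆ rankC c q A j := by
        intro l hl
        rw [Finset.mem_insert] at hl
        rcases hl with rfl | hl
        · exact h2
        · rw [mem_rankC] at hl ⊢
          exact ⟨hl.1, hl.2.1.trans hq, hl.2.2.1.trans hcc, hl.2.2.2.trans hlt⟩
      have hni : i ∉ rankC c q A i := by
        rw [mem_rankC]; exact fun h => lt_irrefl _ h.2.2.2
      have hcard := Finset.card_le_card hsub
      rw [Finset.card_insert_of_notMem hni] at hcard
      have hoe : oppC c q A j = oppC c q A i := by
        ext l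
        simp only [mem_oppC, hq, hcc]
      rw [Finset.card_erase_of_mem h2, hoe]
      constructor
      · intro _; omega
      · intro _; omega
    · have h2 : i ∉ rankC c q A j := by
        rw [mem_rankC]; tauto
      rw [Finset.erase_eq_of_notMem h2]
  · have h1 : i ∈ oppC c q A j := by
      rw [mem_oppC]; exact ⟨hiA, hq, hcc⟩
    have h2 : i ∉ rankC c q A j := by
      rw [mem_rankC]; tauto
    rw [Finset.erase_eq_of_notMem h2, Finset.card_erase_of_mem h1]
    have hsub : insert i (rankC c q A i) ⊆ oppC c q A j := by
      intro l hl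
      rw [Finset.mem_insert] at hl
      rcases hl with rfl | hl
      · exact h1
      · rw [mem_rankC] at hl
        rw [mem_oppC]
        refine ⟨hl.1, hl.2.1.trans hq, ?_⟩
        rw [hl.2.2.1]
        exact hcc
    have hni : i ∉ rankC c q A i := by
      rw [mem_rankC]; exact fun h => lt_irrefl _ h.2.2.2
    have hcard := Finset.card_le_card hsub
    rw [Finset.card_insert_of_notMem hni] at hcard
    have hsub2 : insert j (rankC c q A j) ⊆ oppC c q A i := by
      intro l hl
      rw [Finset.mem_insert] at hl
      rcases hl with rfl | hl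
      · rw [mem_oppC]
        exact ⟨hjA, hq.symm, fun h => hcc h.symm⟩
      · rw [mem_rankC] at hl
        rw [mem_oppC]
        refine ⟨hl.1, hl.2.1.trans hq.symm, ?_⟩
        rw [hl.2.2.1]
        exact fun h => hcc h.symm
    have hnj : j ∉ rankC c q A j := by
      rw [mem_rankC]; exact fun h => lt_irrefl _ h.2.2.2
    have hcard2 := Finset.card_le_card hsub2
    rw [Finset.card_insert_of_notMem hnj] at hcard2
    constructor
    · intro _; omega
    · intro _; omega

/-- The signed sum over the removed particles at a site vanishes. -/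
theorem ann_removed_charge {d : ℕ} (c : Site d → Bool) (q : Site d → Site d)
    (A : Finset (Site d)) (φ : Site d → ℝ) :
    ∑ i ∈ A \ annihilate c q A, sgn (c i) * φ (q i) = 0 := by
  classical
  have h := ann_charge c q A φ
  have h2 := Finset.sum_sdiff (f := fun i => sgn (c i) * φ (q i)) (ann_subset c q A)
  linarith

theorem ann_removed {d : ℕ} {c : Site d → Bool} {q : Site d → Site d} {A : Finset (Site d)}
    {i : Site d} (hi : i ∈ A) (hi' : i ∉ annihilate c q A) :
    ∃ j ∈ A, j ∉ annihilate c q A ∧ c j ≠ c i ∧ q j = q i := by
  classical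
  by_contra hcon
  push Not at hcon
  have h0 := ann_removed_charge c q A (fun x => if x = q i then sgn (c i) else 0)
  have hnn : ∀ j ∈ A \ annihilate c q A,
      0 ≤ sgn (c j) * (fun x => if x = q i then sgn (c i) else 0) (q j) := by
    intro j hj
    rw [Finset.mem_sdiff] at hj
    by_cases hq : q j = q i
    · have hc : c j = c i := by
        by_contra hne
        exact hcon j hj.1 hj.2 hne hq
      simp only [hq, if_true, hc]
      exact mul_self_nonneg _
    · simp [hq]
  rw [Finset.sum_eq_zero_iff_of_nonneg hnn] at h0
  have := h0 i (Finset.mem_sdiff.2 ⟨hi, hi'⟩)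
  simp only [if_true] at this
  rcases hb : c i with _ | _ <;> rw [hb] at this <;> simp [sgn] at this

theorem ann_prod {d : ℕ} (c : Site d → Bool) (q : Site d → Site d) (A : Finset (Site d))
    (F : Bool → Site d → ℝ) (hF : ∀ b x, 0 ≤ F b x) (hF1 : ∀ x, 1 ≤ F true x * F false x) :
    ∏ i ∈ annihilate c q A, F (c i) (q i) ≤ ∏ i ∈ A, F (c i) (q i) := by
  classical
  rw [← Finset.prod_sdiff (ann_subset c q A)]
  have h1 : 1 ≤ ∏ i ∈ A \ annihilate c q A, F (c i) (q i) := by
    rw [← Finset.prod_fiberwise_of_maps_to (s := A \ annihilate c q A)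
      (t := (A \ annihilate c q A).image q) (g := q)
      (fun i hi => Finset.mem_image_of_mem q hi)]
    refine Finset.prod_induction _ (fun r : ℝ => 1 ≤ r)
      (fun a b ha hb => one_le_mul_of_one_le_of_one_le ha hb) le_rfl ?_
    intro x _
    have hcharge := ann_removed_charge c q A (fun y => if y = x then 1 else 0)
    simp only [mul_ite, mul_one, mul_zero] at hcharge
    rw [← Finset.sum_filter] at hcharge
    set R := (A \ annihilate c q A).filter (fun i => q i = x) with hR
    rw [← Finset.sum_filter_add_sum_filter_not R (fun i => c i = true)] at hcharge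
    rw [← Finset.prod_filter_mul_prod_filter_not R (fun i => c i = true)]
    have e1 : ∏ i ∈ R.filter (fun i => c i = true), F (c i) (q i) =
        F true x ^ (R.filter (fun i => c i = true)).card := by
      rw [← Finset.prod_const]
      apply Finset.prod_congr rfl
      intro i hi
      rw [Finset.mem_filter, hR, Finset.mem_filter] at hi
      rw [hi.2, hi.1.2]
    have e2 : ∏ i ∈ R.filter (fun i => ¬ c i = true), F (c i) (q i) =
        F false x ^ (R.filter (fun i => ¬ c i = true)).card := by
      rw [← Finset.prod_const]
      apply Finset.prod_congr rfl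
      intro i hi
      rw [Finset.mem_filter, hR, Finset.mem_filter] at hi
      have : c i = false := by simpa using hi.2
      rw [this, hi.1.2]
    have e3 : ∑ i ∈ R.filter (fun i => c i = true), sgn (c i) =
        ((R.filter (fun i => c i = true)).card : ℝ) := by
      rw [Finset.card_eq_sum_ones, Nat.cast_sum]
      apply Finset.sum_congr rfl
      intro i hi
      rw [Finset.mem_filter] at hi
      rw [hi.2]; simp [sgn]
    have e4 : ∑ i ∈ R.filter (fun i => ¬ c i = true), sgn (c i) =
        -((R.filter (fun i => ¬ c i = true)).card : ℝ) := by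
      rw [Finset.card_eq_sum_ones, Nat.cast_sum, ← Finset.sum_neg_distrib]
      apply Finset.sum_congr rfl
      intro i hi
      rw [Finset.mem_filter] at hi
      have : c i = false := by simpa using hi.2
      rw [this]; simp [sgn]
    rw [e3, e4] at hcharge
    have hcard : (R.filter (fun i => c i = true)).card =
        (R.filter (fun i => ¬ c i = true)).card := by
      have : ((R.filter (fun i => c i = true)).card : ℝ) =
        ((R.filter (fun i => ¬ c i = true)).card : ℝ) := by linarith
      exact_mod_cast this
    rw [e1, e2, ← hcard, ← mul_pow]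
    exact one_le_pow₀ (hF1 x)
  have h2 : 0 ≤ ∏ i ∈ annihilate c q A, F (c i) (q i) :=
    Finset.prod_nonneg fun i _ => hF _ _
  nlinarith

theorem ann_flip {d : ℕ} (c : Site d → Bool) (q : Site d → Site d) (A : Finset (Site d)) :
    annihilate (fun i => !(c i)) q A = annihilate c q A := by
  classical
  ext i
  rw [aw02_mem_ann, aw02_mem_ann]
  have h1 : oppC (fun i => !(c i)) q A i = oppC c q A i := by
    ext j
    simp [mem_oppC]
  have h2 : rankC (fun i => !(c i)) q A i = rankC c q A i := by
    ext j
    simp [mem_rankC]
  rw [h1, h2]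

theorem ann_translate {d : ℕ} (c : Site d → Bool) (q : Site d → Site d) (A : Finset (Site d))
    (z : Site d) :
    annihilate (fun i => c (i - z)) (fun i => q (i - z) + z) (A.map (addRightEmbedding z)) =
      (annihilate c q A).map (addRightEmbedding z) := by
  classical
  have hlt : ∀ a b : Site d, toLex (a + z) < toLex (b + z) ↔ toLex a < toLex b := by
    intro a b
    constructor
    · intro h
      exact lt_of_add_lt_add_right (a := toLex z) h
    · intro h
      exact add_lt_add_left h (toLex z)
  ext i
  obtain ⟨a, rfl⟩ : ∃ a, i = a + z := ⟨i - z, by simp⟩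
  have hmem : ∀ (B : Finset (Site d)) (b : Site d),
      b + z ∈ B.map (addRightEmbedding z) ↔ b ∈ B := by
    intro B b
    simp [Finset.mem_map]
  rw [aw02_mem_ann, hmem, hmem, aw02_mem_ann]
  have h1 : oppC (fun i => c (i - z)) (fun i => q (i - z) + z)
      (A.map (addRightEmbedding z)) (a + z) = (oppC c q A a).map (addRightEmbedding z) := by
    ext j
    obtain ⟨b, rfl⟩ : ∃ b, j = b + z := ⟨j - z, by simp⟩
    rw [mem_oppC, hmem, hmem, mem_oppC]
    simp
  have h2 : rankC (fun i => c (i - z)) (fun i => q (i - z) + z)
      (A.map (addRightEmbedding z)) (a + z) = (rankC c q A a).map (addRightEmbedding z) := by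
    ext j
    obtain ⟨b, rfl⟩ : ∃ b, j = b + z := ⟨j - z, by simp⟩
    rw [mem_rankC, hmem, hmem, mem_rankC, hlt]
    simp
  rw [h1, h2, Finset.card_map, Finset.card_map]

end Pool.Agent.H285
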