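import Pool.Agent.H285.Base2

/-!
# AW03 (MP_0e9fac_pr)
-/



open MeasureTheory ProbabilityTheory Filter Topology

namespace Pool.Agent.H285


/- ======== TARGETS ======== -/

/-- Partial sums of the holding times increase strictly. -/
theorem sum_strictMono {d : ℕ} {w : Noise d} (hw : Good w) :
    StrictMono fun n => ∑ k ∈ Finset.range n, w.1 k := by
  apply strictMono_nat_of_lt_succ
  intro n
  rw [Finset.sum_range_succ]
  linarith [hw.1 n]

theorem le_jumps_iff {d : ℕ} {w : Noise d} (hw : Good w) {t : ℝ} (ht : 0 ≤ t) (n : ℕ) :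
    n ≤ jumps w t ↔ ∑ k ∈ Finset.range n, w.1 k ≤ t := by
  have hmono := sum_strictMono hw
  constructor
  · intro h
    rcases n with _ | m
    · simpa using ht
    · have h1 : m ∉ {n : ℕ | t < ∑ k ∈ Finset.range (n + 1), w.1 k} :=
        Nat.notMem_of_lt_sInf (lt_of_lt_of_le (Nat.lt_succ_self m) h)
      exact not_lt.1 h1
  · intro h
    by_contra hcon
    push Not at hcon
    have hne : {n : ℕ | t < ∑ k ∈ Finset.range (n + 1), w.1 k}.Nonempty := by
      obtain ⟨N, hN⟩ := (hw.2.eventually_gt_atTop t).exists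
      refine ⟨N, ?_⟩
      exact lt_trans hN (hmono (Nat.lt_succ_self N))
    have h1 : t < ∑ k ∈ Finset.range (jumps w t + 1), w.1 k := Nat.sInf_mem hne
    have h2 : ∑ k ∈ Finset.range (jumps w t + 1), w.1 k ≤ ∑ k ∈ Finset.range n, w.1 k :=
      hmono.monotone hcon
    linarith

theorem jumps_mono {d : ℕ} {w : Noise d} (hw : Good w) {s t : ℝ} (hs : 0 ≤ s) (h : s ≤ t) :
    jumps w s ≤ jumps w t := by
  rw [le_jumps_iff hw (hs.trans h)]
  exact ((le_jumps_iff hw hs _).1 le_rfl).trans h

theorem jumps_zero {d : ℕ} {w : Noise d} (hw : Good w) : jumps w 0 = 0 := by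
  by_contra hcon
  have h1 : 1 ≤ jumps w 0 := Nat.one_le_iff_ne_zero.2 hcon
  rw [le_jumps_iff hw le_rfl] at h1
  simp only [Finset.range_one, Finset.sum_singleton] at h1
  linarith [hw.1 0]

theorem lt_sum_jumps_succ {d : ℕ} {w : Noise d} (hw : Good w) {t : ℝ} (ht : 0 ≤ t) {m : ℕ}
    (hm : jumps w t < m) : t < ∑ k ∈ Finset.range m, w.1 k := by
  by_contra hcon
  push Not at hcon
  have := (le_jumps_iff hw ht m).2 hcon
  omega

theorem jumps_right {d : ℕ} {w : Noise d} (hw : Good w) {t : ℝ} (ht : 0 ≤ t) :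
    ∃ ε : ℝ, 0 < ε ∧ ∀ s, t ≤ s → s < t + ε → jumps w s = jumps w t := by
  have h1 := lt_sum_jumps_succ hw ht (Nat.lt_succ_self (jumps w t))
  refine ⟨∑ k ∈ Finset.range (jumps w t).succ, w.1 k - t, by linarith, ?_⟩
  intro s hs hs'
  apply le_antisymm
  · by_contra hcon
    push Not at hcon
    have h2 : (jumps w t).succ ≤ jumps w s := hcon
    rw [le_jumps_iff hw (ht.trans hs)] at h2
    linarith
  · exact jumps_mono hw ht hs

theorem cat_sum_le {d : ℕ} (w w' : Noise d) (s : ℝ) {k : ℕ} (hk : k ≤ jumps w s) :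
    ∑ l ∈ Finset.range k, (cat s w w').1 l = ∑ l ∈ Finset.range k, w.1 l := by
  refine Finset.sum_congr rfl (fun l hl => ?_)
  rw [Finset.mem_range] at hl
  have h1 : l < jumps w s := by omega
  simp only [cat, h1, if_true]

theorem cat_sum_add {d : ℕ} (w w' : Noise d) (s : ℝ) (j : ℕ) :
    ∑ l ∈ Finset.range (jumps w s + (j + 1)), (cat s w w').1 l =
      s + ∑ l ∈ Finset.range (j + 1), w'.1 l := by
  induction j with
  | zero =>
    rw [zero_add, Finset.sum_range_succ, cat_sum_le w w' s le_rfl]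
    simp [cat]
    ring
  | succ j ih =>
    rw [← add_assoc, Finset.sum_range_succ, ih, Finset.sum_range_succ _ (j + 1)]
    have h1 : ¬ (jumps w s + (j + 1) < jumps w s) := by omega
    have h2 : ¬ (jumps w s + (j + 1) = jumps w s) := by omega
    have h3 : jumps w s + (j + 1) - jumps w s = j + 1 := by omega
    simp only [cat, h1, h2, if_false, h3]
    ring

theorem cat_good {d : ℕ} {w w' : Noise d} (hw : Good w) (hw' : Good w') {s : ℝ} (hs : 0 ≤ s) :
    Good (cat s w w') := by
  constructor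
  · intro k
    simp only [cat]
    split_ifs with h1 h2
    · exact hw.1 k
    · have h3 := (le_jumps_iff hw hs _).1 (le_refl (jumps w s))
      have h4 := hw'.1 0
      linarith
    · exact hw'.1 _
  · rw [← Filter.tendsto_add_atTop_iff_nat (jumps w s + 1)]
    have h1 : (fun n => ∑ k ∈ Finset.range (n + (jumps w s + 1)), (cat s w w').1 k) =
        fun n => s + ∑ k ∈ Finset.range (n + 1), w'.1 k := by
      funext n
      rw [← cat_sum_add w w' s n]
      congr 2
      omega
    rw [h1]
    apply Filter.tendsto_atTop_add_const_left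
    exact (Filter.tendsto_add_atTop_iff_nat 1).2 hw'.2

theorem jumps_cat_le {d : ℕ} {w w' : Noise d} (hw : Good w) (hw' : Good w') {s t : ℝ}
    (ht : 0 ≤ t) (h : t ≤ s) : jumps (cat s w w') t = jumps w t := by
  have hs : 0 ≤ s := ht.trans h
  apply eq_of_forall_le_iff
  intro m
  rw [le_jumps_iff (cat_good hw hw' hs) ht, le_jumps_iff hw ht]
  rcases Nat.lt_or_ge (jumps w s) m with hm | hm
  · obtain ⟨j, rfl⟩ : ∃ j, m = jumps w s + (j + 1) := ⟨m - jumps w s - 1, by omega⟩
    rw [cat_sum_add]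
    have h1 := lt_sum_jumps_succ hw hs hm
    have h2 : 0 < ∑ l ∈ Finset.range (j + 1), w'.1 l := by
      have := sum_strictMono hw' (Nat.succ_pos j)
      simpa using this
    constructor <;> intro h3 <;> linarith
  · rw [cat_sum_le w w' s hm]

theorem walk_cat_le {d : ℕ} {w w' : Noise d} (hw : Good w) (hw' : Good w') {s t : ℝ}
    (ht : 0 ≤ t) (h : t ≤ s) : walk (cat s w w') t = walk w t := by
  unfold walk
  rw [jumps_cat_le hw hw' ht h]
  refine Finset.sum_congr rfl (fun l hl => ?_)
  rw [Finset.mem_range] at hl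
  have h1 : l < jumps w s := lt_of_lt_of_le hl (jumps_mono hw ht h)
  simp only [cat, h1, if_true]

theorem jumps_cat_add {d : ℕ} {w w' : Noise d} (hw : Good w) (hw' : Good w') {s t : ℝ}
    (hs : 0 ≤ s) (ht : 0 ≤ t) : jumps (cat s w w') (s + t) = jumps w s + jumps w' t := by
  apply eq_of_forall_le_iff
  intro m
  rw [le_jumps_iff (cat_good hw hw' hs) (add_nonneg hs ht)]
  rcases Nat.lt_or_ge (jumps w s) m with hm | hm
  · obtain ⟨j, rfl⟩ : ∃ j, m = jumps w s + (j + 1) := ⟨m - jumps w s - 1, by omega⟩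
    rw [cat_sum_add, add_le_add_iff_left, ← le_jumps_iff hw' ht]
    omega
  · rw [cat_sum_le w w' s hm]
    have h1 := (le_jumps_iff hw hs m).1 hm
    constructor
    · intro _; omega
    · intro _; linarith

theorem walk_cat_add {d : ℕ} {w w' : Noise d} (hw : Good w) (hw' : Good w') {s t : ℝ}
    (hs : 0 ≤ s) (ht : 0 ≤ t) : walk (cat s w w') (s + t) = walk w s + walk w' t := by
  unfold walk
  rw [jumps_cat_add hw hw' hs ht, Finset.sum_range_add]
  congr 1
  · refine Finset.sum_congr rfl (fun l hl => ?_)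
    rw [Finset.mem_range] at hl
    simp only [cat, hl, if_true]
  · refine Finset.sum_congr rfl (fun l _ => ?_)
    have h1 : ¬ (jumps w s + l < jumps w s) := by omega
    have h3 : jumps w s + l - jumps w s = l := by omega
    simp only [cat, h1, if_false, h3]

end Pool.Agent.H285
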