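import Pool.Agent.H285.Base2

/-!
# AW04 (MP_0e9fac_pr)
-/



open MeasureTheory ProbabilityTheory Filter Topology

namespace Pool.Agent.H285


/- ======== TARGETS ======== -/

lemma aux_exp_Iic_zero : (expMeasure 1) (Set.Iic 0) = 0 := by
  have hP : IsProbabilityMeasure (expMeasure 1) := isProbabilityMeasure_expMeasure one_pos
  have h := cdf_expMeasure_eq (r := 1) one_pos 0
  rw [cdf_eq_real] at h
  simp only [le_refl, if_true, mul_zero, neg_zero, Real.exp_zero, sub_self] at h
  exact (measureReal_eq_zero_iff (by simp)).1 h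

lemma aux_exp_Iic_one : (expMeasure 1) (Set.Iic 1) < 1 := by
  have hP : IsProbabilityMeasure (expMeasure 1) := isProbabilityMeasure_expMeasure one_pos
  have h := cdf_expMeasure_eq (r := 1) one_pos 1
  rw [cdf_eq_real] at h
  rw [if_pos zero_le_one] at h
  have h2 : (expMeasure 1).real (Set.Iic 1) < 1 := by
    rw [h]
    have := Real.exp_pos (-(1 * 1))
    linarith
  have h3 : (expMeasure 1) (Set.Iic 1) = ENNReal.ofReal ((expMeasure 1).real (Set.Iic 1)) := by
    rw [ofReal_measureReal]
  rw [h3, ← ENNReal.ofReal_one]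
  exact (ENNReal.ofReal_lt_ofReal_iff one_pos).2 h2

lemma aux_ae_pos : ∀ᵐ w ∂(Measure.infinitePi fun _ : ℕ => expMeasure 1), ∀ k, 0 < w k := by
  have hP : IsProbabilityMeasure (expMeasure 1) := isProbabilityMeasure_expMeasure one_pos
  rw [ae_all_iff]
  intro k
  have h1 : ∀ᵐ x ∂(expMeasure 1), 0 < x := by
    rw [ae_iff]
    have : {a : ℝ | ¬ 0 < a} = Set.Iic 0 := by
      ext a; simp
    rw [this]
    exact aux_exp_Iic_zero
  exact (measurePreserving_eval_infinitePi (fun _ : ℕ => expMeasure 1) k).quasiMeasurePreserving.ae h1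

lemma aux_ae_freq : ∀ᵐ w ∂(Measure.infinitePi fun _ : ℕ => expMeasure 1),
    ∀ n : ℕ, ∃ k, n ≤ k ∧ 1 < w k := by
  have hP : IsProbabilityMeasure (expMeasure 1) := isProbabilityMeasure_expMeasure one_pos
  rw [ae_all_iff]
  intro n
  rw [ae_iff]
  set μ := Measure.infinitePi fun _ : ℕ => expMeasure 1 with hμ
  have hle : ∀ m : ℕ, μ {w : ℕ → ℝ | ¬ ∃ k, n ≤ k ∧ 1 < w k} ≤ ((expMeasure 1) (Set.Iic 1)) ^ m := by
    intro m
    calc μ {w : ℕ → ℝ | ¬ ∃ k, n ≤ k ∧ 1 < w k}
        ≤ μ (Set.pi (Finset.Ico n (n + m) : Finset ℕ) fun _ => Set.Iic (1 : ℝ)) := by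
          apply measure_mono
          intro w hw k hk
          rw [Finset.mem_coe, Finset.mem_Ico] at hk
          by_contra hcon
          apply hw
          exact ⟨k, hk.1, not_le.1 hcon⟩
      _ = ((expMeasure 1) (Set.Iic 1)) ^ m := by
          rw [hμ, Measure.infinitePi_pi _ (fun _ _ => measurableSet_Iic)]
          simp
  have ht : Tendsto (fun m : ℕ => ((expMeasure 1) (Set.Iic 1)) ^ m) atTop (𝓝 0) :=
    ENNReal.tendsto_pow_atTop_nhds_zero_of_lt_one aux_exp_Iic_one
  exact le_antisymm (ge_of_tendsto' ht hle) zero_le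

theorem ae_good (d : ℕ) [NeZero d] : ∀ᵐ w ∂(noiseLaw d), Good w := by
  have hP : IsProbabilityMeasure (expMeasure 1) := isProbabilityMeasure_expMeasure one_pos
  have hU : IsProbabilityMeasure (uniformOn (Set.univ : Set (Dir d))) :=
    isProbabilityMeasure_uniformOn Set.finite_univ Set.univ_nonempty
  have h1 : ∀ᵐ w ∂(Measure.infinitePi fun _ : ℕ => expMeasure 1),
      (∀ k, 0 < w k) ∧ Tendsto (fun n => ∑ k ∈ Finset.range n, w k) atTop atTop := by
    filter_upwards [aux_ae_pos, aux_ae_freq] with w hw hw2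
    refine ⟨hw, ?_⟩
    rw [← not_summable_iff_tendsto_nat_atTop_of_nonneg (fun n => (hw n).le)]
    intro hs
    have h0 := hs.tendsto_atTop_zero
    have h2 := h0.eventually_lt_const (show (0 : ℝ) < 1 from one_pos)
    obtain ⟨N, hN⟩ := eventually_atTop.1 h2
    obtain ⟨k, hk, hk2⟩ := hw2 N
    exact absurd (hN k hk) (not_lt.2 hk2.le)
  have h2 := (Measure.quasiMeasurePreserving_fst (μ := Measure.infinitePi fun _ : ℕ => expMeasure 1)
    (ν := Measure.infinitePi fun _ : ℕ => uniformOn (Set.univ : Set (Dir d)))).ae h1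
  exact h2

lemma aux_meas_sum {d : ℕ} (n : ℕ) :
    Measurable (fun w : Noise d => ∑ k ∈ Finset.range n, w.1 k) := by
  fun_prop

theorem measurable_jumps {d : ℕ} (t : ℝ) : Measurable (fun w : Noise d => jumps w t) := by
  have hP : ∀ n : ℕ, MeasurableSet {w : Noise d | t < ∑ k ∈ Finset.range (n + 1), w.1 k} :=
    fun n => measurableSet_lt measurable_const (aux_meas_sum (n + 1))
  refine measurable_to_countable' fun n => ?_
  have : (fun w : Noise d => jumps w t) ⁻¹' {n} =
      ({w : Noise d | t < ∑ k ∈ Finset.range (n + 1), w.1 k} ∩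
        ⋂ m ∈ Set.Iio n, {w : Noise d | t < ∑ k ∈ Finset.range (m + 1), w.1 k}ᶜ) ∪
      ({_w : Noise d | n = 0} ∩
        ⋂ m : ℕ, {w : Noise d | t < ∑ k ∈ Finset.range (m + 1), w.1 k}ᶜ) := by
    ext w
    simp only [Set.mem_preimage, Set.mem_singleton_iff, Set.mem_union, Set.mem_inter_iff,
      Set.mem_ofPred_eq, Set.mem_iInter, Set.mem_compl_iff, Set.mem_Iio]
    unfold jumps
    constructor
    · intro h
      by_cases hne : {n : ℕ | t < ∑ k ∈ Finset.range (n + 1), w.1 k}.Nonempty
      · left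
        have h1 := Nat.sInf_mem hne
        rw [h] at h1
        refine ⟨h1, fun m hm => ?_⟩
        rw [← h] at hm
        exact Nat.notMem_of_lt_sInf hm
      · right
        rw [Set.not_nonempty_iff_eq_empty] at hne
        rw [hne, Nat.sInf_empty] at h
        refine ⟨h.symm, fun m hm => ?_⟩
        have : m ∈ {n : ℕ | t < ∑ k ∈ Finset.range (n + 1), w.1 k} := hm
        rw [hne] at this
        exact this
    · rintro (⟨h1, h2⟩ | ⟨h1, h2⟩)
      · have hne : {n : ℕ | t < ∑ k ∈ Finset.range (n + 1), w.1 k}.Nonempty := ⟨n, h1⟩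
        apply le_antisymm
        · exact Nat.sInf_le h1
        · by_contra hlt
          push Not at hlt
          exact h2 _ hlt (Nat.sInf_mem hne)
      · have : {n : ℕ | t < ∑ k ∈ Finset.range (n + 1), w.1 k} = ∅ := by
          ext m
          simp only [Set.mem_ofPred_eq, Set.mem_empty_iff_false, iff_false]
          exact h2 m
        rw [this, Nat.sInf_empty, h1]
  rw [this]
  refine MeasurableSet.union ((hP n).inter ?_) (MeasurableSet.inter ?_ ?_)
  · exact MeasurableSet.biInter (Set.to_countable _) fun m _ => (hP m).compl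
  · exact MeasurableSet.const _
  · exact MeasurableSet.iInter fun m => (hP m).compl

theorem measurable_walk {d : ℕ} (t : ℝ) : Measurable (fun w : Noise d => walk w t) := by
  have hF : Measurable (fun x : ℕ × Noise d => ∑ k ∈ Finset.range x.1, unitVec (x.2.2 k)) := by
    refine measurable_from_prod_countable_right fun n => ?_
    have h1 : Measurable (unitVec : Dir d → Site d) := measurable_of_countable _
    have h2 : ∀ k : ℕ, Measurable (fun w : Noise d => unitVec (w.2 k)) := fun k =>
      h1.comp (by fun_prop)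
    exact Finset.measurable_sum (f := fun k (w : Noise d) => unitVec (w.2 k)) (Finset.range n)
      (fun k _ => h2 k)
  exact hF.comp ((measurable_jumps t).prodMk measurable_id)

end Pool.Agent.H285
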