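import Pool.Agent.H285.Base2
import Pool.Agent.H285.AW03
import Pool.Agent.H285.AW04

/-!
# AW05 (MP_0e9fac_pr)
-/



open MeasureTheory ProbabilityTheory Filter Topology

namespace Pool.Agent.H285


/- ======== AUXILIARY ======== -/

theorem jexp_prob : IsProbabilityMeasure (expMeasure 1) := isProbabilityMeasure_expMeasure one_pos

theorem jexp_shift {s : ℝ} (hs : 0 ≤ s) {B : Set ℝ} (hB : MeasurableSet B) :
    expMeasure 1 (B ∩ Set.Ioi s) =
      ENNReal.ofReal (Real.exp (-s)) * expMeasure 1 ((fun x => s + x) ⁻¹' B) := by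
  have hpdf : Measurable (exponentialPDF 1) :=
    (measurable_exponentialPDFReal 1).ennreal_ofReal
  have hm : MeasurableSet ((fun x : ℝ => s + x) ⁻¹' B) := hB.preimage (measurable_const_add s)
  have e0 : ∀ S : Set ℝ, MeasurableSet S → expMeasure 1 S =
      ∫⁻ x, S.indicator (exponentialPDF 1) x := by
    intro S hS
    change (volume.withDensity (exponentialPDF 1)) S = _
    rw [withDensity_apply _ hS, lintegral_indicator hS]
  rw [e0 _ (hB.inter measurableSet_Ioi), e0 _ hm, ← lintegral_const_mul _ (hpdf.indicator hm),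
    ← lintegral_add_left_eq_self _ s]
  have hne : ∀ᵐ x : ℝ, x ≠ 0 := by
    rw [ae_iff]
    simp
  apply lintegral_congr_ae
  filter_upwards [hne] with x hx0
  by_cases hx : s + x ∈ B
  · have h1 : x ∈ (fun x => s + x) ⁻¹' B := hx
    rw [Set.indicator_of_mem h1]
    by_cases hp : 0 < x
    · have h2 : s + x ∈ B ∩ Set.Ioi s := ⟨hx, by simp only [Set.mem_Ioi]; linarith⟩
      rw [Set.indicator_of_mem h2, exponentialPDF_of_nonneg (by linarith),
        exponentialPDF_of_nonneg hp.le, ← ENNReal.ofReal_mul (Real.exp_nonneg _)]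
      congr 1
      rw [one_mul, one_mul, one_mul, one_mul, ← Real.exp_add]
      congr 1
      ring
    · have h2 : s + x ∉ B ∩ Set.Ioi s := by
        rintro ⟨_, h⟩
        simp only [Set.mem_Ioi] at h
        exact hp (by linarith)
      rw [Set.indicator_of_notMem h2, exponentialPDF_of_neg
        (lt_of_le_of_ne (not_lt.mp hp) hx0), mul_zero]
  · have h1 : x ∉ (fun x => s + x) ⁻¹' B := hx
    have h2 : s + x ∉ B ∩ Set.Ioi s := fun h => hx h.1
    rw [Set.indicator_of_notMem h1, Set.indicator_of_notMem h2, mul_zero]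

theorem jexp_memoryless {s : ℝ} (hs : 0 ≤ s) {B : Set ℝ} (hB : MeasurableSet B) :
    expMeasure 1 ((fun x => s + x) ⁻¹' B) * expMeasure 1 (Set.Ioi s) =
      expMeasure 1 (B ∩ Set.Ioi s) := by
  have h1 := jexp_shift hs MeasurableSet.univ
  rw [Set.univ_inter, Set.preimage_univ, jexp_prob.measure_univ, mul_one] at h1
  rw [h1, jexp_shift hs hB, mul_comm]

/-- put an entry in front of a sequence -/
def jcons {X : Type*} (x : X) (f : ℕ → X) : ℕ → X
  | 0 => x
  | k + 1 => f k

theorem measurable_jcons {X : Type*} [MeasurableSpace X] :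
    Measurable (fun z : X × (ℕ → X) => jcons z.1 z.2) := by
  rw [measurable_pi_iff]
  intro k
  cases k with
  | zero => exact measurable_fst
  | succ k => exact (measurable_pi_apply k).comp measurable_snd

theorem mp_jcons {X : Type*} [MeasurableSpace X] (μ : Measure X) [IsProbabilityMeasure μ] :
    MeasurePreserving (fun z : X × (ℕ → X) => jcons z.1 z.2)
      (μ.prod (Measure.infinitePi fun _ : ℕ => μ)) (Measure.infinitePi fun _ : ℕ => μ) := by
  refine ⟨measurable_jcons, ?_⟩
  apply Measure.eq_infinitePi
  intro s t ht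
  classical
  obtain ⟨m, hm⟩ : ∃ m : ℕ, s ⊆ Finset.range (m + 1) := by
    refine ⟨s.sup id, fun k hk => ?_⟩
    rw [Finset.mem_range]
    exact Nat.lt_succ_of_le (Finset.le_sup (f := id) hk)
  set t' : ℕ → Set X := fun k => if k ∈ s then t k else Set.univ with ht'
  have ht'm : ∀ k, MeasurableSet (t' k) := by
    intro k
    rw [ht']
    by_cases hk : k ∈ s
    · simp only [if_pos hk]; exact ht k
    · simp only [if_neg hk]; exact MeasurableSet.univ
  have e1 : ∏ i ∈ s, μ (t i) = ∏ i ∈ Finset.range (m + 1), μ (t' i) := by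
    rw [← Finset.prod_subset hm]
    · apply Finset.prod_congr rfl
      intro k hk
      simp only [ht', if_pos hk]
    · intro k _ hk
      simp only [ht', if_neg hk, measure_univ]
  have e2 : (fun z : X × (ℕ → X) => jcons z.1 z.2) ⁻¹' (Set.pi (s : Set ℕ) t) =
      (t' 0) ×ˢ (Set.pi ((Finset.range m : Finset ℕ) : Set ℕ) (fun k => t' (k + 1))) := by
    ext ⟨x, f⟩
    simp only [Set.mem_preimage, Set.mem_pi, Set.mem_prod, Finset.mem_coe]
    constructor
    · intro h
      refine ⟨?_, ?_⟩
      · by_cases h0 : 0 ∈ s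
        · simp only [ht', if_pos h0]; exact h 0 h0
        · simp only [ht', if_neg h0]; exact Set.mem_univ _
      · intro k _
        by_cases hk : k + 1 ∈ s
        · simp only [ht', if_pos hk]; exact h (k + 1) hk
        · simp only [ht', if_neg hk]; exact Set.mem_univ _
    · rintro ⟨h0, h1⟩ k hk
      cases k with
      | zero =>
        simp only [ht', if_pos hk] at h0
        exact h0
      | succ k =>
        have h2 := h1 k (Finset.mem_range.mpr (by
          have := Finset.mem_range.mp (hm hk); omega))
        simp only [ht', if_pos hk] at h2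
        exact h2
  rw [Measure.map_apply measurable_jcons (MeasurableSet.pi s.countable_toSet fun k _ => ht k),
    e2, Measure.prod_prod, Measure.infinitePi_pi _ (fun k _ => ht'm (k + 1)), e1,
    Finset.prod_range_succ', mul_comm]

section

variable {d : ℕ}

instance jL_prob (d : ℕ) [NeZero d] : IsProbabilityMeasure (noiseLaw d) := by
  have := jexp_prob
  unfold noiseLaw
  infer_instance

/-- put an entry in front of a noise -/
def nc (x : ℝ × Dir d) (w : Noise d) : Noise d := (jcons x.1 w.1, jcons x.2 w.2)

theorem measurable_nc : Measurable (fun z : (ℝ × Dir d) × Noise d => nc z.1 z.2) := by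
  unfold nc
  refine Measurable.prodMk ?_ ?_
  · exact measurable_jcons.comp
      ((measurable_fst.comp measurable_fst).prodMk (measurable_fst.comp measurable_snd))
  · exact measurable_jcons.comp
      ((measurable_snd.comp measurable_fst).prodMk (measurable_snd.comp measurable_snd))

/-- the law of one step -/
noncomputable def stepLaw (d : ℕ) : Measure (ℝ × Dir d) :=
  (expMeasure 1).prod (uniformOn (Set.univ : Set (Dir d)))

instance stepLaw_prob (d : ℕ) [NeZero d] : IsProbabilityMeasure (stepLaw d) := by
  have := jexp_prob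
  unfold stepLaw
  infer_instance

theorem mp_nc (d : ℕ) [NeZero d] :
    MeasurePreserving (fun z : (ℝ × Dir d) × Noise d => nc z.1 z.2)
      ((stepLaw d).prod (noiseLaw d)) (noiseLaw d) := by
  have := jexp_prob
  unfold stepLaw noiseLaw
  set a := expMeasure 1
  set b := uniformOn (Set.univ : Set (Dir d))
  set E := Measure.infinitePi fun _ : ℕ => a
  set U := Measure.infinitePi fun _ : ℕ => b
  have h1 := mp_jcons a
  have h2 := mp_jcons b
  have h3 := h1.prod h2
  have h4 : MeasurePreserving
      (fun z : (ℝ × Dir d) × ((ℕ → ℝ) × (ℕ → Dir d)) => ((z.1.1, z.2.1), (z.1.2, z.2.2)))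
      ((a.prod b).prod (E.prod U)) ((a.prod E).prod (b.prod U)) := by
    have k1 : MeasurePreserving (MeasurableEquiv.prodAssoc)
        ((a.prod b).prod (E.prod U)) (a.prod (b.prod (E.prod U))) :=
      measurePreserving_prodAssoc a b (E.prod U)
    have k2 : MeasurePreserving (MeasurableEquiv.prodAssoc).symm
        (b.prod (E.prod U)) ((b.prod E).prod U) :=
      (measurePreserving_prodAssoc b E U).symm
    have k3 : MeasurePreserving (Prod.map (Prod.swap : Dir d × (ℕ → ℝ) → (ℕ → ℝ) × Dir d) id)
        ((b.prod E).prod U) ((E.prod b).prod U) :=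
      (Measure.measurePreserving_swap).prod (MeasurePreserving.id U)
    have k4 : MeasurePreserving (MeasurableEquiv.prodAssoc)
        ((E.prod b).prod U) (E.prod (b.prod U)) := measurePreserving_prodAssoc E b U
    have k5 : MeasurePreserving (MeasurableEquiv.prodAssoc).symm
        (a.prod (E.prod (b.prod U))) ((a.prod E).prod (b.prod U)) :=
      (measurePreserving_prodAssoc a E (b.prod U)).symm
    have k6 := k5.comp (((MeasurePreserving.id a).prod (k4.comp (k3.comp k2))).comp k1)
    exact k6
  exact h3.comp h4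

/-- the cylinders -/
def cyl (m : ℕ) (B : ℕ → Set ℝ) (C : ℕ → Set (Dir d)) : Set (Noise d) :=
  {w | ∀ k < m, w.1 k ∈ B k ∧ w.2 k ∈ C k}

theorem measurable_cyl (m : ℕ) {B : ℕ → Set ℝ} (C : ℕ → Set (Dir d))
    (hB : ∀ k, MeasurableSet (B k)) : MeasurableSet (cyl m B C) := by
  have : cyl m B C = ⋂ k : ℕ, ⋂ _ : k < m,
      ((fun w : Noise d => w.1 k) ⁻¹' (B k) ∩ (fun w : Noise d => w.2 k) ⁻¹' (C k)) := by
    ext w
    simp only [cyl, Set.mem_iInter, Set.mem_inter_iff, Set.mem_preimage]
    rfl
  rw [this]
  refine MeasurableSet.iInter fun k => MeasurableSet.iInter fun _ => ?_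
  refine MeasurableSet.inter ?_ ?_
  · exact ((measurable_pi_apply k).comp measurable_fst) (hB k)
  · exact ((measurable_pi_apply k).comp measurable_snd) (MeasurableSet.of_discrete)

theorem nc_mem_cyl (m : ℕ) (B : ℕ → Set ℝ) (C : ℕ → Set (Dir d)) (x : ℝ × Dir d)
    (w : Noise d) : nc x w ∈ cyl (m + 1) B C ↔ (x.1 ∈ B 0 ∧ x.2 ∈ C 0) ∧
      w ∈ cyl m (fun k => B (k + 1)) (fun k => C (k + 1)) := by
  constructor
  · intro h
    refine ⟨h 0 (Nat.succ_pos m), ?_⟩
    intro k hk
    exact h (k + 1) (by omega)
  · rintro ⟨h0, h1⟩ k hk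
    cases k with
    | zero => exact h0
    | succ k => exact h1 k (by omega)

theorem law_cyl_succ [NeZero d] (m : ℕ) (B : ℕ → Set ℝ) (C : ℕ → Set (Dir d))
    (hB : ∀ k, MeasurableSet (B k)) : noiseLaw d (cyl (m + 1) B C) =
      (expMeasure 1 (B 0) * uniformOn Set.univ (C 0)) *
        noiseLaw d (cyl m (fun k => B (k + 1)) (fun k => C (k + 1))) := by
  have := jexp_prob
  rw [← (mp_nc d).map_eq, Measure.map_apply measurable_nc (measurable_cyl _ _ hB)]
  rw [(mp_nc d).map_eq]
  have e : (fun z : (ℝ × Dir d) × Noise d => nc z.1 z.2) ⁻¹' (cyl (m + 1) B C) =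
      ((B 0) ×ˢ (C 0)) ×ˢ (cyl m (fun k => B (k + 1)) (fun k => C (k + 1))) := by
    ext z
    rw [Set.mem_preimage, nc_mem_cyl]
    rfl
  rw [e, Measure.prod_prod]
  congr 1
  unfold stepLaw
  rw [Measure.prod_prod]

theorem jumps_nc {x : ℝ × Dir d} {w : Noise d} (hw : Good w) (t : ℝ) :
    jumps (nc x w) t = if t < x.1 then 0 else jumps w (t - x.1) + 1 := by
  have hs : ∀ n, ∑ k ∈ Finset.range (n + 1), (nc x w).1 k =
      x.1 + ∑ k ∈ Finset.range n, w.1 k := by
    intro n
    rw [Finset.sum_range_succ', add_comm]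
    rfl
  unfold jumps
  simp only [hs]
  split_ifs with h
  · apply Nat.sInf_eq_zero.mpr
    left
    simpa using h
  · have hset : {n : ℕ | t < x.1 + ∑ k ∈ Finset.range n, w.1 k} =
        {n : ℕ | t - x.1 < ∑ k ∈ Finset.range n, w.1 k} := by
      ext n
      simp only [Set.mem_ofPred_eq]
      constructor <;> intro h <;> linarith
    rw [hset]
    have hne : {n : ℕ | t - x.1 < ∑ k ∈ Finset.range n, w.1 k}.Nonempty := by
      obtain ⟨n, hn⟩ := (hw.2.eventually (eventually_gt_atTop (t - x.1))).exists
      exact ⟨n, hn⟩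
    have h1 : 1 ≤ sInf {n : ℕ | t - x.1 < ∑ k ∈ Finset.range n, w.1 k} := by
      rw [Nat.one_le_iff_ne_zero]
      intro h0
      have := Nat.sInf_mem hne
      rw [h0] at this
      simp only [Set.mem_ofPred_eq, Finset.range_zero, Finset.sum_empty] at this
      apply h
      linarith
    have := Nat.sInf_add (p := fun n => t - x.1 < ∑ k ∈ Finset.range n, w.1 k) h1
    exact this.symm

/-- the noise after a waiting time -/
def wait (s : ℝ) (w : Noise d) : Noise d :=
  (fun k => if k = 0 then s + w.1 0 else w.1 k, w.2)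

theorem cat_nc_lt {s : ℝ} {x : ℝ × Dir d} {w w' : Noise d} (hw : Good w) (h : s < x.1) :
    cat s (nc x w) w' = wait s w' := by
  have hj : jumps (nc x w) s = 0 := by rw [jumps_nc hw, if_pos h]
  unfold cat wait
  rw [hj]
  apply Prod.ext
  · funext k
    simp only [Nat.not_lt_zero, if_false, Finset.range_zero, Finset.sum_empty, sub_zero,
      Nat.sub_zero]
  · funext k
    simp only [Nat.not_lt_zero, if_false, Nat.sub_zero]

theorem cat_nc_le {s : ℝ} {x : ℝ × Dir d} {w w' : Noise d} (hw : Good w) (h : x.1 ≤ s) :
    cat s (nc x w) w' = nc x (cat (s - x.1) w w') := by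
  have hj : jumps (nc x w) s = jumps w (s - x.1) + 1 := by
    rw [jumps_nc hw, if_neg (not_lt.mpr h)]
  have hs : ∀ n, ∑ k ∈ Finset.range (n + 1), (nc x w).1 k =
      x.1 + ∑ k ∈ Finset.range n, w.1 k := by
    intro n
    rw [Finset.sum_range_succ', add_comm]
    rfl
  unfold cat
  rw [hj]
  apply Prod.ext
  · funext k
    simp only [hs]
    cases k with
    | zero =>
      rw [if_pos (Nat.succ_pos _)]
      rfl
    | succ k =>
      change _ = (if k < jumps w (s - x.1) then w.1 k
        else if k = jumps w (s - x.1) then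
          (s - x.1 - ∑ l ∈ Finset.range (jumps w (s - x.1)), w.1 l) + w'.1 0
        else w'.1 (k - jumps w (s - x.1)))
      by_cases h1 : k < jumps w (s - x.1)
      · rw [if_pos (by omega), if_pos h1]
        rfl
      · rw [if_neg (by omega), if_neg h1]
        by_cases h2 : k = jumps w (s - x.1)
        · rw [if_pos (by omega), if_pos h2, sub_sub]
        · rw [if_neg (by omega), if_neg h2, Nat.add_sub_add_right]
  · funext k
    cases k with
    | zero =>
      simp only
      rw [if_pos (Nat.succ_pos _)]
      rfl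
    | succ k =>
      change _ = (if k < jumps w (s - x.1) then w.2 k else w'.2 (k - jumps w (s - x.1)))
      simp only
      by_cases h1 : k < jumps w (s - x.1)
      · rw [if_pos (by omega), if_pos h1]
        rfl
      · rw [if_neg (by omega), if_neg h1, Nat.add_sub_add_right]

theorem measurable_cat (s : ℝ) : Measurable (fun z : Noise d × Noise d => cat s z.1 z.2) := by
  have hj : Measurable (fun z : Noise d × Noise d => jumps z.1 s) :=
    (measurable_jumps s).comp measurable_fst
  have hw : ∀ k, Measurable (fun z : Noise d × Noise d => z.1.1 k) := fun k =>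
    (measurable_pi_apply k).comp (measurable_fst.comp measurable_fst)
  have hw' : ∀ k, Measurable (fun z : Noise d × Noise d => z.2.1 k) := fun k =>
    (measurable_pi_apply k).comp (measurable_fst.comp measurable_snd)
  have hu : ∀ k, Measurable (fun z : Noise d × Noise d => z.1.2 k) := fun k =>
    (measurable_pi_apply k).comp (measurable_snd.comp measurable_fst)
  have hu' : ∀ k, Measurable (fun z : Noise d × Noise d => z.2.2 k) := fun k =>
    (measurable_pi_apply k).comp (measurable_snd.comp measurable_snd)
  have hcomp : ∀ {Y : Type} [MeasurableSpace Y] (F : ℕ → Noise d × Noise d → Y),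
      (∀ n, Measurable (F n)) → Measurable (fun z : Noise d × Noise d => F (jumps z.1 s) z) := by
    intro Y _ F hF
    have h1 : Measurable (fun p : ℕ × (Noise d × Noise d) => F p.1 p.2) :=
      measurable_from_prod_countable_right (fun n => hF n)
    exact h1.comp (hj.prodMk measurable_id)
  refine Measurable.prodMk ?_ ?_
  · rw [measurable_pi_iff]
    intro k
    refine hcomp (fun n z => if k < n then z.1.1 k
      else if k = n then (s - ∑ l ∈ Finset.range n, z.1.1 l) + z.2.1 0
      else z.2.1 (k - n)) ?_
    intro n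
    by_cases h1 : k < n
    · simp only [if_pos h1]; exact hw k
    · simp only [if_neg h1]
      by_cases h2 : k = n
      · simp only [if_pos h2]
        exact (measurable_const.sub (Finset.measurable_sum _ (fun l _ => hw l))).add (hw' 0)
      · simp only [if_neg h2]; exact hw' _
  · rw [measurable_pi_iff]
    intro k
    refine hcomp (fun n z => if k < n then z.1.2 k else z.2.2 (k - n)) ?_
    intro n
    by_cases h1 : k < n
    · simp only [if_pos h1]; exact hu k
    · simp only [if_neg h1]; exact hu' _

theorem wait_mem_cyl (m : ℕ) (s : ℝ) (B : ℕ → Set ℝ) (C : ℕ → Set (Dir d)) :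
    {w : Noise d | wait s w ∈ cyl (m + 1) B C} =
      cyl (m + 1) (fun k => if k = 0 then (fun x => s + x) ⁻¹' (B 0) else B k) C := by
  ext w
  simp only [cyl, Set.mem_ofPred_eq, wait]
  constructor
  · intro h k hk
    have := h k hk
    by_cases h0 : k = 0
    · subst h0
      simpa using this
    · simpa [h0] using this
  · intro h k hk
    have := h k hk
    by_cases h0 : k = 0
    · subst h0
      simpa using this
    · simpa [h0] using this

theorem cat_cyl [NeZero d] (m : ℕ) : ∀ (s : ℝ), 0 ≤ s → ∀ (B : ℕ → Set ℝ)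
    (C : ℕ → Set (Dir d)), (∀ k, MeasurableSet (B k)) →
    ((noiseLaw d).prod (noiseLaw d)) {z | cat s z.1 z.2 ∈ cyl m B C} =
      noiseLaw d (cyl m B C) := by
  have := jexp_prob
  induction m with
  | zero =>
    intro s _ B C _
    have h1 : ∀ w : Noise d, w ∈ cyl 0 B C := fun w k hk => absurd hk (Nat.not_lt_zero k)
    have h2 : {z : Noise d × Noise d | cat s z.1 z.2 ∈ cyl 0 B C} = Set.univ :=
      Set.eq_univ_of_forall fun z => h1 _
    have h3 : (cyl 0 B C : Set (Noise d)) = Set.univ := Set.eq_univ_of_forall h1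
    rw [h2, h3, measure_univ, measure_univ]
  | succ m ih =>
    intro s hs B C hB
    set L := noiseLaw d with hL
    set Q := L (cyl m (fun k => B (k + 1)) (fun k => C (k + 1))) with hQ
    set c := uniformOn (Set.univ : Set (Dir d)) (C 0) with hc
    have hmS : MeasurableSet {z : Noise d × Noise d | cat s z.1 z.2 ∈ cyl (m + 1) B C} :=
      measurable_cat s (measurable_cyl _ _ hB)
    -- decompose the first noise
    have hmp : MeasurePreserving
        (fun z : (ℝ × Dir d) × (Noise d × Noise d) => (nc z.1 z.2.1, z.2.2))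
        ((stepLaw d).prod (L.prod L)) (L.prod L) := by
      have k1 : MeasurePreserving (MeasurableEquiv.prodAssoc).symm
          ((stepLaw d).prod (L.prod L)) (((stepLaw d).prod L).prod L) :=
        (measurePreserving_prodAssoc (stepLaw d) L L).symm
      have k2 := (mp_nc d).prod (MeasurePreserving.id L)
      exact k2.comp k1
    rw [← hmp.measure_preimage hmS.nullMeasurableSet,
      Measure.prod_apply (hmp.measurable hmS)]
    have hinner : ∀ x : ℝ × Dir d,
        (L.prod L) (Prod.mk x ⁻¹' ((fun z : (ℝ × Dir d) × (Noise d × Noise d) =>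
          (nc z.1 z.2.1, z.2.2)) ⁻¹' {z | cat s z.1 z.2 ∈ cyl (m + 1) B C})) =
        (Set.Ioi s ×ˢ (Set.univ : Set (Dir d))).indicator
          (fun _ => expMeasure 1 ((fun y => s + y) ⁻¹' (B 0)) * c * Q) x +
        ((B 0 ∩ Set.Iic s) ×ˢ (C 0)).indicator (fun _ => Q) x := by
      intro x
      have hgood : ∀ᵐ z ∂(L.prod L), Good z.1 := by
        have := ae_good d
        exact (Measure.quasiMeasurePreserving_fst (μ := L) (ν := L)).ae this
      by_cases hx : s < x.1
      · have e1 : (L.prod L) (Prod.mk x ⁻¹' ((fun z : (ℝ × Dir d) × (Noise d × Noise d) =>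
            (nc z.1 z.2.1, z.2.2)) ⁻¹' {z | cat s z.1 z.2 ∈ cyl (m + 1) B C})) =
            (L.prod L) (Set.univ ×ˢ {w : Noise d | wait s w ∈ cyl (m + 1) B C}) := by
          apply measure_congr
          filter_upwards [hgood] with z hz
          apply propext
          change (cat s (nc x z.1) z.2 ∈ cyl (m + 1) B C) ↔
            (z ∈ Set.univ ×ˢ {w : Noise d | wait s w ∈ cyl (m + 1) B C})
          rw [cat_nc_lt hz hx]
          simp
        rw [e1, Measure.prod_prod, measure_univ, one_mul, wait_mem_cyl, hL, law_cyl_succ]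
        · have h1 : x ∈ Set.Ioi s ×ˢ (Set.univ : Set (Dir d)) := ⟨hx, Set.mem_univ _⟩
          have h2 : x ∉ (B 0 ∩ Set.Iic s) ×ˢ (C 0) := by
            rintro ⟨⟨_, h⟩, _⟩
            exact absurd hx (not_lt.mpr h)
          rw [Set.indicator_of_mem h1, Set.indicator_of_notMem h2, add_zero]
          simp only [if_true, Nat.succ_ne_zero, if_false]
          rfl
        · intro k
          by_cases h0 : k = 0
          · simp only [if_pos h0]
            exact (hB 0).preimage (measurable_const_add s)
          · simp only [if_neg h0]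
            exact hB k
      · have hx' : x.1 ≤ s := not_lt.mp hx
        have e1 : (L.prod L) (Prod.mk x ⁻¹' ((fun z : (ℝ × Dir d) × (Noise d × Noise d) =>
            (nc z.1 z.2.1, z.2.2)) ⁻¹' {z | cat s z.1 z.2 ∈ cyl (m + 1) B C})) =
            (L.prod L) {z | (x.1 ∈ B 0 ∧ x.2 ∈ C 0) ∧ cat (s - x.1) z.1 z.2 ∈
              cyl m (fun k => B (k + 1)) (fun k => C (k + 1))} := by
          apply measure_congr
          filter_upwards [hgood] with z hz
          apply propext
          change (cat s (nc x z.1) z.2 ∈ cyl (m + 1) B C) ↔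
            (x.1 ∈ B 0 ∧ x.2 ∈ C 0) ∧ cat (s - x.1) z.1 z.2 ∈
              cyl m (fun k => B (k + 1)) (fun k => C (k + 1))
          rw [cat_nc_le hz hx', nc_mem_cyl]
        rw [e1]
        have h1 : x ∉ Set.Ioi s ×ˢ (Set.univ : Set (Dir d)) := fun h => hx h.1
        rw [Set.indicator_of_notMem h1, zero_add]
        by_cases hb : x.1 ∈ B 0 ∧ x.2 ∈ C 0
        · have h2 : x ∈ (B 0 ∩ Set.Iic s) ×ˢ (C 0) := ⟨⟨hb.1, hx'⟩, hb.2⟩
          rw [Set.indicator_of_mem h2]
          simp only [hb, and_self, true_and]
          exact ih (s - x.1) (by linarith) _ _ (fun k => hB (k + 1))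
        · have h2 : x ∉ (B 0 ∩ Set.Iic s) ×ˢ (C 0) := fun h => hb ⟨h.1.1, h.2⟩
          rw [Set.indicator_of_notMem h2]
          simp only [hb, false_and]
          exact measure_empty
    rw [lintegral_congr hinner]
    have hm1 : MeasurableSet (Set.Ioi s ×ˢ (Set.univ : Set (Dir d))) :=
      measurableSet_Ioi.prod MeasurableSet.univ
    have hm2 : MeasurableSet ((B 0 ∩ Set.Iic s) ×ˢ (C 0)) :=
      ((hB 0).inter measurableSet_Iic).prod MeasurableSet.of_discrete
    rw [lintegral_add_left (measurable_const.indicator hm1), lintegral_indicator_const hm1,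
      lintegral_indicator_const hm2]
    unfold stepLaw
    rw [Measure.prod_prod, Measure.prod_prod, measure_univ, mul_one, law_cyl_succ m B C hB]
    rw [← hc, ← hQ]
    have e3 : expMeasure 1 (B 0) = expMeasure 1 (B 0 ∩ Set.Ioi s) +
        expMeasure 1 (B 0 ∩ Set.Iic s) := by
      rw [← measure_inter_add_sdiff (B 0) measurableSet_Ioi (t := Set.Ioi s)]
      congr 2
      ext x
      simp
    rw [e3, ← jexp_memoryless hs (hB 0)]
    ring

theorem cyl_generate : (inferInstance : MeasurableSpace (Noise d)) =
    MeasurableSpace.generateFrom {S | ∃ (m : ℕ) (B : ℕ → Set ℝ) (C : ℕ → Set (Dir d)),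
      (∀ k, MeasurableSet (B k)) ∧ S = cyl m B C} := by
  apply le_antisymm
  · have h1 : ∀ k, @Measurable _ _ (MeasurableSpace.generateFrom
        {S | ∃ (m : ℕ) (B : ℕ → Set ℝ) (C : ℕ → Set (Dir d)),
          (∀ k, MeasurableSet (B k)) ∧ S = cyl m B C}) _ (fun w : Noise d => w.1 k) := by
      intro k S hS
      apply MeasurableSpace.measurableSet_generateFrom
      refine ⟨k + 1, fun j => if j = k then S else Set.univ, fun _ => Set.univ, ?_, ?_⟩
      · intro j
        by_cases h : j = k
        · simp only [if_pos h]; exact hS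
        · simp only [if_neg h]; exact MeasurableSet.univ
      · ext w
        simp only [Set.mem_preimage, cyl, Set.mem_ofPred_eq, Set.mem_univ, and_true]
        constructor
        · intro h j _
          by_cases hj : j = k
          · subst hj; simpa using h
          · simp [hj]
        · intro h
          simpa using h k (Nat.lt_succ_self k)
    have h2 : ∀ k, @Measurable _ _ (MeasurableSpace.generateFrom
        {S | ∃ (m : ℕ) (B : ℕ → Set ℝ) (C : ℕ → Set (Dir d)),
          (∀ k, MeasurableSet (B k)) ∧ S = cyl m B C}) _ (fun w : Noise d => w.2 k) := by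
      intro k S hS
      apply MeasurableSpace.measurableSet_generateFrom
      refine ⟨k + 1, fun _ => Set.univ, fun j => if j = k then S else Set.univ, ?_, ?_⟩
      · intro j
        exact MeasurableSet.univ
      · ext w
        simp only [Set.mem_preimage, cyl, Set.mem_ofPred_eq, Set.mem_univ, true_and]
        constructor
        · intro h j _
          by_cases hj : j = k
          · subst hj; simpa using h
          · simp [hj]
        · intro h
          simpa using h k (Nat.lt_succ_self k)
    set MS := MeasurableSpace.generateFrom {S | ∃ (m : ℕ) (B : ℕ → Set ℝ)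
      (C : ℕ → Set (Dir d)), (∀ k, MeasurableSet (B k)) ∧ S = cyl m B C} with hMS
    have h3 : @Measurable _ _ MS _ (fun w : Noise d => w.1) :=
      (@measurable_pi_iff (Noise d) ℕ (fun _ => ℝ) MS _ (fun w => w.1)).mpr h1
    have h4 : @Measurable _ _ MS _ (fun w : Noise d => w.2) :=
      (@measurable_pi_iff (Noise d) ℕ (fun _ => Dir d) MS _ (fun w => w.2)).mpr h2
    have h5 := @Measurable.prodMk (Noise d) MS (ℕ → ℝ) (ℕ → Dir d) _ _ _ _ h3 h4
    intro S hS
    exact h5 hS
  · apply MeasurableSpace.generateFrom_le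
    rintro _ ⟨m, B, C, hB, rfl⟩
    exact measurable_cyl m C hB

theorem cyl_pi : IsPiSystem {S : Set (Noise d) | ∃ (m : ℕ) (B : ℕ → Set ℝ)
    (C : ℕ → Set (Dir d)), (∀ k, MeasurableSet (B k)) ∧ S = cyl m B C} := by
  rintro _ ⟨m, B, C, hB, rfl⟩ _ ⟨m', B', C', hB', rfl⟩ _
  refine ⟨max m m', fun k => (if k < m then B k else Set.univ) ∩
    (if k < m' then B' k else Set.univ), fun k => (if k < m then C k else Set.univ) ∩
    (if k < m' then C' k else Set.univ), ?_, ?_⟩
  · intro k
    apply MeasurableSet.inter
    · split_ifs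
      · exact hB k
      · exact MeasurableSet.univ
    · split_ifs
      · exact hB' k
      · exact MeasurableSet.univ
  · ext w
    simp only [cyl, Set.mem_inter_iff, Set.mem_ofPred_eq]
    constructor
    · rintro ⟨h1, h2⟩ k _
      refine ⟨⟨?_, ?_⟩, ?_, ?_⟩
      · by_cases h : k < m
        · simp only [if_pos h]; exact (h1 k h).1
        · simp only [if_neg h]; exact Set.mem_univ _
      · by_cases h : k < m'
        · simp only [if_pos h]; exact (h2 k h).1
        · simp only [if_neg h]; exact Set.mem_univ _
      · by_cases h : k < m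
        · simp only [if_pos h]; exact (h1 k h).2
        · simp only [if_neg h]; exact Set.mem_univ _
      · by_cases h : k < m'
        · simp only [if_pos h]; exact (h2 k h).2
        · simp only [if_neg h]; exact Set.mem_univ _
    · intro h
      constructor
      · intro k hk
        have := h k (lt_max_of_lt_left hk)
        simp only [if_pos hk] at this
        exact ⟨this.1.1, this.2.1⟩
      · intro k hk
        have := h k (lt_max_of_lt_right hk)
        simp only [if_pos hk] at this
        exact ⟨this.1.2, this.2.2⟩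

end

/- ======== TARGETS ======== -/

theorem measurePreserving_cat (d : ℕ) [NeZero d] {s : ℝ} (hs : 0 ≤ s) :
    MeasurePreserving (fun z : Noise d × Noise d => cat s z.1 z.2)
      ((noiseLaw d).prod (noiseLaw d)) (noiseLaw d) := by
  refine ⟨measurable_cat s, ?_⟩
  have hp : IsProbabilityMeasure (((noiseLaw d).prod (noiseLaw d)).map
      (fun z : Noise d × Noise d => cat s z.1 z.2)) :=
    Measure.isProbabilityMeasure_map (measurable_cat s).aemeasurable
  refine ext_of_generate_finite _ cyl_generate cyl_pi ?_ ?_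
  · rintro _ ⟨m, B, C, hB, rfl⟩
    rw [Measure.map_apply (measurable_cat s) (measurable_cyl m C hB)]
    exact cat_cyl m s hs B C hB
  · rw [measure_univ, measure_univ]

end Pool.Agent.H285
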