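import Pool.Agent.H285.Base2
import Pool.Agent.H285.AW03
import Pool.Agent.H285.AW04

/-!
# AW06 (MP_0e9fac_pr)
-/



open MeasureTheory ProbabilityTheory Filter Topology

namespace Pool.Agent.H285


/- ======== TARGETS ======== -/

instance expM_prob : IsProbabilityMeasure (expMeasure 1) := isProbabilityMeasure_expMeasure one_pos

/-- the law of the holding times -/
noncomputable def holdLaw : Measure (ℕ → ℝ) := Measure.infinitePi fun _ : ℕ => expMeasure 1

instance : IsProbabilityMeasure holdLaw := by unfold holdLaw; infer_instance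

lemma exp_lintegral {θ : ℝ} (hθ : 0 ≤ θ) :
    ∫⁻ x, ENNReal.ofReal (Real.exp (-θ * x)) ∂(expMeasure 1) = ENNReal.ofReal (1 / (1 + θ)) := by
  have hm : Measurable (gammaPDF 1 1) := by
    unfold gammaPDF
    exact (measurable_gammaPDFReal 1 1).ennreal_ofReal
  rw [expMeasure, gammaMeasure, lintegral_withDensity_eq_lintegral_mul _ hm (by fun_prop)]
  have h1 : ∀ x, (gammaPDF 1 1 * fun x => ENNReal.ofReal (Real.exp (-θ * x))) x =
      ENNReal.ofReal (1 / (1 + θ)) * exponentialPDF (1 + θ) x := by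
    intro x
    have h2 : gammaPDF 1 1 x = exponentialPDF 1 x := rfl
    rw [Pi.mul_apply, h2, exponentialPDF_eq, exponentialPDF_eq]
    split_ifs with h
    · rw [← ENNReal.ofReal_mul (by positivity), ← ENNReal.ofReal_mul (by positivity)]
      congr 1
      have h3 : (1 + θ) ≠ 0 := by positivity
      have h4 : Real.exp (-((1 + θ) * x)) = Real.exp (-(1 * x)) * Real.exp (-θ * x) := by
        rw [← Real.exp_add]; congr 1; ring
      rw [h4]
      field_simp
    · simp
  simp_rw [h1]
  have hm2 : Measurable (exponentialPDF (1 + θ)) := by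
    unfold exponentialPDF
    exact (measurable_exponentialPDFReal _).ennreal_ofReal
  rw [lintegral_const_mul _ hm2, lintegral_exponentialPDF_eq_one (by positivity), mul_one]

lemma exp_mgf {θ : ℝ} (hθ : 0 ≤ θ) (k : ℕ) :
    mgf (fun e : ℕ → ℝ => e k) holdLaw (-θ) = 1 / (1 + θ) := by
  have h0 : ∫ x, Real.exp (-θ * x) ∂(expMeasure 1) = 1 / (1 + θ) := by
    rw [integral_eq_lintegral_of_nonneg_ae (ae_of_all _ fun x => (Real.exp_pos _).le)
      (by fun_prop), exp_lintegral hθ, ENNReal.toReal_ofReal (by positivity)]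
  have h1 : holdLaw.map (fun e : ℕ → ℝ => e k) = expMeasure 1 :=
    Measure.infinitePi_map_eval (fun _ : ℕ => expMeasure 1) k
  rw [mgf, ← h0, ← h1, integral_map (measurable_pi_apply k).aemeasurable (by fun_prop)]

lemma hold_pos (d : ℕ) [NeZero d] : ∀ᵐ e ∂holdLaw, ∀ k, 0 < e k := by
  have h1 : ∀ᵐ w ∂(noiseLaw d), ∀ k, 0 < w.1 k := by
    filter_upwards [ae_good d] with w hw using hw.1
  have h2 : MeasurePreserving Prod.fst (noiseLaw d) holdLaw := by
    unfold noiseLaw holdLaw
    exact measurePreserving_fst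
  have h3 : MeasurableSet {e : ℕ → ℝ | ∀ k, 0 < e k} := by
    rw [Set.ofPred_forall]
    exact MeasurableSet.iInter fun k => measurableSet_lt measurable_const (measurable_pi_apply k)
  rw [← h2.map_eq, ae_map_iff h2.measurable.aemeasurable h3]
  exact h1

lemma hold_tail (d : ℕ) [NeZero d] {t θ : ℝ} (hθ : 0 ≤ θ) (n : ℕ) :
    holdLaw.real {e | ∑ k ∈ Finset.range n, e k ≤ t} ≤ Real.exp (θ * t) / (1 + θ) ^ n := by
  have hi : iIndepFun (fun (k : ℕ) (e : ℕ → ℝ) => e k) holdLaw :=
    iIndepFun_infinitePi (P := fun _ : ℕ => expMeasure 1) (X := fun _ x => x)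
      (fun _ => measurable_id)
  have h1 := hi.mgf_sum (t := -θ) (fun i => measurable_pi_apply i) (Finset.range n)
  have h2 : (∑ i ∈ Finset.range n, fun e : ℕ → ℝ => e i) =
      fun e : ℕ → ℝ => ∑ i ∈ Finset.range n, e i := by
    ext e; simp
  rw [h2] at h1
  simp_rw [exp_mgf hθ] at h1
  have h3 : Integrable (fun e : ℕ → ℝ => Real.exp (-θ * ∑ i ∈ Finset.range n, e i)) holdLaw := by
    refine Integrable.of_bound (by fun_prop) 1 ?_
    filter_upwards [hold_pos d] with e he
    rw [Real.norm_eq_abs, abs_of_pos (Real.exp_pos _), Real.exp_le_one_iff]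
    have : 0 ≤ ∑ i ∈ Finset.range n, e i := Finset.sum_nonneg fun i _ => (he i).le
    nlinarith
  have h4 := measure_le_le_exp_mul_mgf (μ := holdLaw)
    (X := fun e : ℕ → ℝ => ∑ i ∈ Finset.range n, e i) t (neg_nonpos.mpr hθ) h3
  rw [h1, neg_neg, Finset.prod_const, Finset.card_range] at h4
  refine h4.trans (le_of_eq ?_)
  rw [div_pow, one_pow]
  ring

lemma noise_eq (d : ℕ) [NeZero d] {t : ℝ} (ht : 0 ≤ t) (n : ℕ) :
    (noiseLaw d).real {w | n ≤ jumps w t} =
      holdLaw.real {e | ∑ k ∈ Finset.range n, e k ≤ t} := by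
  have h2 : MeasurePreserving Prod.fst (noiseLaw d) holdLaw := by
    unfold noiseLaw holdLaw
    exact measurePreserving_fst
  have h3 : MeasurableSet {e : ℕ → ℝ | ∑ k ∈ Finset.range n, e k ≤ t} :=
    measurableSet_le (by fun_prop) measurable_const
  have h4 : (noiseLaw d).real {w | n ≤ jumps w t} =
      (noiseLaw d).real (Prod.fst ⁻¹' {e : ℕ → ℝ | ∑ k ∈ Finset.range n, e k ≤ t}) := by
    refine measureReal_congr ?_
    filter_upwards [ae_good d] with w hw
    exact propext (le_jumps_iff hw ht n)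
  rw [h4, measureReal_def, measureReal_def, h2.measure_preimage h3.nullMeasurableSet]

lemma exp_real_le {h : ℝ} (hh : 0 ≤ h) : (expMeasure 1).real (Set.Iic h) ≤ h := by
  rw [← cdf_eq_real, cdf_expMeasure_eq one_pos, if_pos hh, one_mul]
  linarith [Real.add_one_le_exp (-h)]

theorem jumps_tail (d : ℕ) [NeZero d] {t θ : ℝ} (ht : 0 ≤ t) (hθ : 0 ≤ θ) (n : ℕ) :
    (noiseLaw d).real {w | n ≤ jumps w t} ≤ Real.exp (θ * t) / (1 + θ) ^ n := by
  rw [noise_eq d ht n]
  exact hold_tail d hθ n

theorem one_le_jumps (d : ℕ) [NeZero d] {h : ℝ} (hh : 0 ≤ h) :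
    (noiseLaw d).real {w | 1 ≤ jumps w h} ≤ h := by
  rw [noise_eq d hh 1]
  have h1 : {e : ℕ → ℝ | ∑ k ∈ Finset.range 1, e k ≤ h} = (fun e : ℕ → ℝ => e 0) ⁻¹' Set.Iic h := by
    ext e; simp
  have h2 : MeasurePreserving (fun e : ℕ → ℝ => e 0) holdLaw (expMeasure 1) :=
    measurePreserving_eval_infinitePi (fun _ : ℕ => expMeasure 1) 0
  rw [h1, measureReal_def, h2.measure_preimage measurableSet_Iic.nullMeasurableSet]
  exact exp_real_le hh

theorem two_le_jumps (d : ℕ) [NeZero d] {h : ℝ} (hh : 0 ≤ h) :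
    (noiseLaw d).real {w | 2 ≤ jumps w h} ≤ h ^ 2 := by
  rw [noise_eq d hh 2]
  have h1 : holdLaw.real {e : ℕ → ℝ | ∑ k ∈ Finset.range 2, e k ≤ h} ≤
      holdLaw.real (Set.pi (({0, 1} : Finset ℕ) : Set ℕ) (fun _ => Set.Iic h)) := by
    rw [measureReal_def, measureReal_def]
    refine ENNReal.toReal_mono (measure_ne_top _ _) (measure_mono_ae ?_)
    filter_upwards [hold_pos d] with e he
    intro (h5 : ∑ k ∈ Finset.range 2, e k ≤ h)
    rw [Finset.sum_range_succ, Finset.sum_range_one] at h5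
    have := he 0
    have := he 1
    change e ∈ Set.pi _ _
    intro k hk
    simp only [Finset.coe_insert, Finset.coe_singleton, Set.mem_insert_iff,
      Set.mem_singleton_iff] at hk
    rcases hk with rfl | rfl
    · change e 0 ≤ h; linarith
    · change e 1 ≤ h; linarith
  refine h1.trans ?_
  rw [measureReal_def, holdLaw, Measure.infinitePi_pi (fun _ : ℕ => expMeasure 1)
    (fun i _ => measurableSet_Iic)]
  rw [Finset.prod_const, ENNReal.toReal_pow]
  have h6 : ({0, 1} : Finset ℕ).card = 2 := rfl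
  rw [h6]
  exact pow_le_pow_left₀ ENNReal.toReal_nonneg (exp_real_le hh) 2

end Pool.Agent.H285
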