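import Pool.Agent.H285.Base2
import Pool.Agent.H285.AW05
import Pool.Agent.H285.AW06

/-!
# AW07 (MP_0e9fac_pr)
-/



open MeasureTheory ProbabilityTheory Filter Topology

namespace Pool.Agent.H285


/- ======== TARGETS ======== -/

namespace AW07

/-- the character of `ℤ^d` -/
noncomputable def chr {d : ℕ} (θ : Fin d → ℝ) (x : Site d) : ℂ :=
  Complex.exp (Complex.I * ((∑ k, θ k * (x k : ℝ) : ℝ) : ℂ))

theorem chr_zero {d : ℕ} (θ : Fin d → ℝ) : chr θ 0 = 1 := by simp [chr]

theorem chr_add {d : ℕ} (θ : Fin d → ℝ) (x y : Site d) : chr θ (x + y) = chr θ x * chr θ y := by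
  rw [chr, chr, chr, ← Complex.exp_add, ← mul_add, ← Complex.ofReal_add, ← Finset.sum_add_distrib]
  congr 4
  funext k
  rw [Pi.add_apply]
  push_cast
  ring

theorem norm_chr {d : ℕ} (θ : Fin d → ℝ) (x : Site d) : ‖chr θ x‖ = 1 := by
  rw [chr, mul_comm, Complex.norm_exp_ofReal_mul_I]

theorem measurable_chr {d : ℕ} (θ : Fin d → ℝ) : Measurable (chr (d := d) θ) :=
  measurable_of_countable _

instance instProbExp : IsProbabilityMeasure (expMeasure 1) :=
  isProbabilityMeasure_expMeasure one_pos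

instance instProbNoise (d : ℕ) [NeZero d] : IsProbabilityMeasure (noiseLaw d) := by
  unfold noiseLaw
  infer_instance

theorem integrable_chr_walk (d : ℕ) [NeZero d] (θ : Fin d → ℝ) (t : ℝ) :
    Integrable (fun w => chr θ (walk w t)) (noiseLaw d) := by
  refine (integrable_const (1 : ℝ)).mono'
    ((measurable_chr θ).comp (measurable_walk t)).aestronglyMeasurable ?_
  exact Filter.Eventually.of_forall fun w => (norm_chr θ _).le

/-- the characteristic function -/
noncomputable def cf (d : ℕ) (θ : Fin d → ℝ) (t : ℝ) : ℂ := ∫ w, chr θ (walk w t) ∂(noiseLaw d)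

theorem cf_add (d : ℕ) [NeZero d] (θ : Fin d → ℝ) {s t : ℝ} (hs : 0 ≤ s) (ht : 0 ≤ t) :
    cf d θ (s + t) = cf d θ s * cf d θ t := by
  have h1 : cf d θ (s + t) = ∫ z, chr θ (walk (cat s z.1 z.2) (s + t))
      ∂((noiseLaw d).prod (noiseLaw d)) := by
    have h := integral_map (μ := (noiseLaw d).prod (noiseLaw d))
      (φ := fun z : Noise d × Noise d => cat s z.1 z.2)
      (f := fun w => chr θ (walk w (s + t)))
      (measurePreserving_cat d hs).measurable.aemeasurable
      ((measurable_chr θ).comp (measurable_walk _)).aestronglyMeasurable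
    rw [(measurePreserving_cat d hs).map_eq] at h
    exact h
  have h2 : ∀ᵐ z ∂((noiseLaw d).prod (noiseLaw d)),
      chr θ (walk (cat s z.1 z.2) (s + t)) = chr θ (walk z.1 s) * chr θ (walk z.2 t) := by
    have g1 : ∀ᵐ z ∂((noiseLaw d).prod (noiseLaw d)), Good z.1 :=
      Measure.quasiMeasurePreserving_fst.ae (ae_good d)
    have g2 : ∀ᵐ z ∂((noiseLaw d).prod (noiseLaw d)), Good z.2 :=
      Measure.quasiMeasurePreserving_snd.ae (ae_good d)
    filter_upwards [g1, g2] with z h1 h2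
    rw [walk_cat_add h1 h2 hs ht, chr_add]
  rw [h1, integral_congr_ae h2, cf, cf]
  exact integral_prod_mul (fun w => chr θ (walk w s)) fun w => chr θ (walk w t)

theorem cf_zero (d : ℕ) [NeZero d] (θ : Fin d → ℝ) : cf d θ 0 = 1 := by
  have h : ∀ᵐ w ∂(noiseLaw d), chr θ (walk w 0) = 1 := by
    filter_upwards [ae_good d] with w hw
    rw [walk, jumps_zero hw, Finset.range_zero, Finset.sum_empty, chr_zero]
  rw [cf, integral_congr_ae h]
  simp

theorem cf_nsmul (d : ℕ) [NeZero d] (θ : Fin d → ℝ) {s : ℝ} (hs : 0 ≤ s) (n : ℕ) :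
    cf d θ (n * s) = cf d θ s ^ n := by
  induction n with
  | zero => simp [cf_zero]
  | succ n ih =>
    rw [Nat.cast_succ, add_mul, one_mul, cf_add d θ (by positivity) hs, ih, pow_succ]

theorem integral_dir (d : ℕ) [NeZero d] (θ : Fin d → ℝ) :
    ∫ u, chr θ (unitVec u) ∂(uniformOn (Set.univ : Set (Dir d))) =
      (((∑ k, Real.cos (θ k)) / d : ℝ) : ℂ) := by
  have hd : (d : ℝ) ≠ 0 := Nat.cast_ne_zero.2 (NeZero.ne d)
  have hreal : ∀ u : Dir d, (uniformOn (Set.univ : Set (Dir d))).real {u} = 1 / (2 * d) := by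
    intro u
    rw [Measure.real, uniformOn_univ, Measure.count_singleton, ENNReal.toReal_div]
    simp [Fintype.card_prod, mul_comm]
  have hchr : ∀ k : Fin d, ∀ c : ℤ, chr θ (Pi.single k c) = Complex.exp (Complex.I * ((θ k * c : ℝ) : ℂ)) := by
    intro k c
    rw [chr]
    congr 3
    rw [Finset.sum_eq_single k]
    · simp
    · intro j _ hj
      simp [hj]
    · simp
  rw [integral_fintype]
  swap
  · exact Integrable.of_finite
  simp only [hreal]
  rw [Fintype.sum_prod_type]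
  have hk : ∀ k : Fin d, ∑ b : Bool, ((1 / (2 * d) : ℝ) • chr θ (unitVec ((k, b) : Dir d))) =
      ((Real.cos (θ k) / d : ℝ) : ℂ) := by
    intro k
    rw [Fintype.sum_bool]
    simp only [unitVec, if_true, Bool.false_eq_true, if_false, hchr]
    have h1 : Complex.exp (Complex.I * ((θ k * ((1 : ℤ) : ℝ) : ℝ) : ℂ)) +
        Complex.exp (Complex.I * ((θ k * ((-1 : ℤ) : ℝ) : ℝ) : ℂ)) = 2 * Complex.cos (θ k) := by
      rw [Complex.cos]
      push_cast
      rw [show Complex.I * (θ k * 1) = θ k * Complex.I by ring,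
        show Complex.I * ((θ k : ℂ) * -1) = -θ k * Complex.I by ring]
      ring
    rw [← smul_add, h1, Complex.real_smul]
    push_cast
    have hd' : (d : ℂ) ≠ 0 := Nat.cast_ne_zero.2 (NeZero.ne d)
    field_simp
  rw [Finset.sum_congr rfl fun k _ => hk k, ← Complex.ofReal_sum, Finset.sum_div]

theorem cf_small (d : ℕ) [NeZero d] (θ : Fin d → ℝ) {h : ℝ} (hh : 0 ≤ h) :
    ‖cf d θ h - (1 - ((1 - Real.exp (-h) : ℝ) : ℂ) *
      (1 - (((∑ k, Real.cos (θ k)) / d : ℝ) : ℂ)))‖ ≤ 2 * h ^ 2 := by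
  classical
  let μ1 : Measure (ℕ → ℝ) := Measure.infinitePi fun _ : ℕ => expMeasure 1
  let μ2 : Measure (ℕ → Dir d) := Measure.infinitePi fun _ : ℕ => uniformOn (Set.univ : Set (Dir d))
  have hν : noiseLaw d = μ1.prod μ2 := rfl
  let F : (ℕ → ℝ) → ℂ := Set.indicator {x | x 0 ≤ h} fun _ => 1
  let G : (ℕ → Dir d) → ℂ := fun v => 1 - chr θ (unitVec (v 0))
  have hmF : MeasurableSet {x : ℕ → ℝ | x 0 ≤ h} :=
    measurableSet_le (measurable_pi_apply 0) measurable_const
  have hFm : Measurable F := measurable_const.indicator hmF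
  have hGm : Measurable G := by
    refine measurable_const.sub ((measurable_chr θ).comp ?_)
    exact (measurable_of_countable (fun u : Dir d => unitVec u)).comp (measurable_pi_apply 0)
  have hFs : ∀ x, x 0 ≤ h → F x = 1 := fun x hx => Set.indicator_of_mem (s := {x : ℕ → ℝ | x 0 ≤ h}) hx _
  have hFn : ∀ x, ¬ x 0 ≤ h → F x = 0 := fun x hx =>
    Set.indicator_of_notMem (s := {x : ℕ → ℝ | x 0 ≤ h}) hx _
  have hF1 : ∀ x, ‖F x‖ ≤ 1 := by
    intro x
    by_cases hx : x 0 ≤ h
    · rw [hFs x hx]; simp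
    · rw [hFn x hx]; simp
  have hG2 : ∀ v, ‖G v‖ ≤ 2 := by
    intro v
    calc ‖G v‖ ≤ ‖(1 : ℂ)‖ + ‖chr θ (unitVec (v 0))‖ := norm_sub_le _ _
      _ = 2 := by rw [norm_chr]; norm_num
  have hFint : ∫ x, F x ∂μ1 = ((1 - Real.exp (-h) : ℝ) : ℂ) := by
    have h1 : μ1.real {x | x 0 ≤ h} = 1 - Real.exp (-h) := by
      have h2 : μ1 {x | x 0 ≤ h} = expMeasure 1 (Set.Iic h) := by
        rw [← (measurePreserving_eval_infinitePi (fun _ : ℕ => expMeasure 1) 0).measure_preimage
          measurableSet_Iic.nullMeasurableSet]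
        rfl
      rw [Measure.real, h2, ← Measure.real, ← cdf_eq_real, cdf_expMeasure_eq one_pos, if_pos hh,
        one_mul]
    rw [integral_indicator hmF, setIntegral_const, h1]
    simp
  have hGint : ∫ v, G v ∂μ2 = 1 - (((∑ k, Real.cos (θ k)) / d : ℝ) : ℂ) := by
    have h1 : ∫ v, chr θ (unitVec (v 0)) ∂μ2 =
        ∫ u, chr θ (unitVec u) ∂(uniformOn (Set.univ : Set (Dir d))) := by
      rw [← (measurePreserving_eval_infinitePi
        (fun _ : ℕ => uniformOn (Set.univ : Set (Dir d))) 0).map_eq, integral_map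
        (measurable_pi_apply 0).aemeasurable
        (measurable_of_countable (fun u : Dir d => chr θ (unitVec u))).aestronglyMeasurable]
    have h2 : Integrable (fun v : ℕ → Dir d => chr θ (unitVec (v 0))) μ2 := by
      refine (integrable_const (1 : ℝ)).mono' ?_ (Filter.Eventually.of_forall fun v =>
        (norm_chr θ _).le)
      exact ((measurable_of_countable (fun u : Dir d => chr θ (unitVec u))).comp
        (measurable_pi_apply 0)).aestronglyMeasurable
    rw [integral_sub (integrable_const _) h2, h1, integral_dir]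
    simp
  have hFG : Integrable (fun w : Noise d => F w.1 * G w.2) (noiseLaw d) := by
    refine (integrable_const (2 : ℝ)).mono' ?_ (Filter.Eventually.of_forall fun w => ?_)
    · exact ((hFm.comp measurable_fst).mul (hGm.comp measurable_snd)).aestronglyMeasurable
    · rw [norm_mul]
      calc ‖F w.1‖ * ‖G w.2‖ ≤ 1 * 2 := mul_le_mul (hF1 _) (hG2 _) (norm_nonneg _) zero_le_one
        _ = 2 := one_mul _
  have hmain : ∫ w, (1 - F w.1 * G w.2) ∂(noiseLaw d) = 1 - ((1 - Real.exp (-h) : ℝ) : ℂ) *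
      (1 - (((∑ k, Real.cos (θ k)) / d : ℝ) : ℂ)) := by
    rw [integral_sub (integrable_const _) hFG]
    have h3 : ∫ w, F w.1 * G w.2 ∂(noiseLaw d) = (∫ x, F x ∂μ1) * ∫ v, G v ∂μ2 := by
      rw [hν]
      exact integral_prod_mul F G
    rw [h3, hFint, hGint]
    simp
  have hFG' : Integrable (fun w : Noise d => 1 - F w.1 * G w.2) (noiseLaw d) :=
    (integrable_const _).sub hFG
  rw [← hmain, cf, ← integral_sub (integrable_chr_walk d θ h) hFG']
  have hb : ∀ᵐ w ∂(noiseLaw d), ‖chr θ (walk w h) - (1 - F w.1 * G w.2)‖ ≤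
      Set.indicator {w : Noise d | 2 ≤ jumps w h} (fun _ => (2 : ℝ)) w := by
    filter_upwards [ae_good d] with w hw
    have h1 := le_jumps_iff hw hh 1
    rw [Finset.sum_range_one] at h1
    by_cases h2 : 2 ≤ jumps w h
    · rw [Set.indicator_of_mem (s := {w : Noise d | 2 ≤ jumps w h}) h2]
      rw [hFs w.1 (h1.1 (by omega))]
      have e : chr θ (walk w h) - (1 - 1 * G w.2) = chr θ (walk w h) - chr θ (unitVec (w.2 0)) := by
        simp only [G]
        ring
      rw [e]
      calc _ ≤ ‖chr θ (walk w h)‖ + ‖chr θ (unitVec (w.2 0))‖ := norm_sub_le _ _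
        _ = 2 := by rw [norm_chr, norm_chr]; norm_num
    · rw [Set.indicator_of_notMem (s := {w : Noise d | 2 ≤ jumps w h}) h2]
      have h3 : jumps w h = 0 ∨ jumps w h = 1 := by omega
      rcases h3 with h3 | h3
      · have h4 : ¬ w.1 0 ≤ h := fun h' => by
          have := h1.2 h'
          omega
        rw [hFn w.1 h4, walk, h3, Finset.range_zero, Finset.sum_empty, chr_zero]
        simp
      · rw [hFs w.1 (h1.1 (by omega)), walk, h3, Finset.sum_range_one]
        simp [G]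
  have hms : MeasurableSet {w : Noise d | 2 ≤ jumps w h} :=
    measurableSet_le measurable_const (measurable_jumps h)
  calc _ ≤ ∫ w, ‖chr θ (walk w h) - (1 - F w.1 * G w.2)‖ ∂(noiseLaw d) :=
        norm_integral_le_integral_norm _
    _ ≤ ∫ w, Set.indicator {w : Noise d | 2 ≤ jumps w h} (fun _ => (2 : ℝ)) w ∂(noiseLaw d) := by
        refine integral_mono_ae ?_ ?_ hb
        · exact ((integrable_chr_walk d θ h).sub hFG').norm
        · exact (integrable_const _).indicator hms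
    _ = 2 * (noiseLaw d).real {w | 2 ≤ jumps w h} := by
        rw [integral_indicator hms, setIntegral_const, smul_eq_mul, mul_comm]
    _ ≤ 2 * h ^ 2 := by
        have := two_le_jumps d hh
        linarith

theorem cf_eq (d : ℕ) [NeZero d] {t : ℝ} (ht : 0 ≤ t) (θ : Fin d → ℝ) :
    cf d θ t = Complex.exp (((-t * (1 - (∑ k, Real.cos (θ k)) / d) : ℝ)) : ℂ) := by
  set φ : ℝ := (∑ k, Real.cos (θ k)) / d with hφ
  have hφ1 : |1 - φ| ≤ 2 := by
    have hd : (0 : ℝ) < d := Nat.cast_pos.2 (Nat.pos_of_ne_zero (NeZero.ne d))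
    have h1 : |φ| ≤ 1 := by
      rw [hφ, abs_div, abs_of_pos hd, div_le_one hd]
      calc |∑ k, Real.cos (θ k)| ≤ ∑ k, |Real.cos (θ k)| := Finset.abs_sum_le_sum_abs _ _
        _ ≤ ∑ _k : Fin d, (1 : ℝ) := Finset.sum_le_sum fun k _ => Real.abs_cos_le_one _
        _ = d := by simp
    calc |1 - φ| ≤ |(1 : ℝ)| + |φ| := abs_sub _ _
      _ ≤ 2 := by rw [abs_one]; linarith
  have hlim : Tendsto (fun n : ℕ => (n : ℂ) * (cf d θ (t / n) - 1)) atTop
      (𝓝 (((-t * (1 - φ) : ℝ)) : ℂ)) := by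
    rw [tendsto_iff_norm_sub_tendsto_zero]
    have hz : Tendsto (fun n : ℕ => 4 * t ^ 2 / (n : ℝ)) atTop (𝓝 0) :=
      tendsto_const_div_atTop_nhds_zero_nat _
    refine squeeze_zero' (Filter.Eventually.of_forall fun n => norm_nonneg _) ?_ hz
    filter_upwards [Filter.eventually_ge_atTop (⌈t⌉₊ + 1)] with n hn
    have hn0 : (0 : ℝ) < n := Nat.cast_pos.2 (by omega)
    have hnt : t ≤ n := (Nat.le_ceil t).trans (by exact_mod_cast (by omega : ⌈t⌉₊ ≤ n))
    set h : ℝ := t / n with hh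
    have h0 : 0 ≤ h := by positivity
    have h1 : h ≤ 1 := by rw [hh, div_le_one hn0]; exact hnt
    have h2 := cf_small d θ h0
    rw [← hφ] at h2
    have h3 : |1 - Real.exp (-h) - h| ≤ h ^ 2 := by
      have h4 := Real.abs_exp_sub_one_sub_id_le (x := -h) (by rw [abs_neg, abs_of_nonneg h0]; exact h1)
      rw [neg_sq] at h4
      rwa [← abs_neg, show -(1 - Real.exp (-h) - h) = Real.exp (-h) - 1 - -h by ring]
    have hn' : (n : ℂ) ≠ 0 := by exact_mod_cast hn0.ne'
    have hnh : (n : ℂ) * (h : ℂ) = t := by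
      rw [hh]
      push_cast
      field_simp
    have e : (n : ℂ) * (cf d θ h - 1) - ((-t * (1 - φ) : ℝ) : ℂ) =
        n * ((cf d θ h - (1 - ((1 - Real.exp (-h) : ℝ) : ℂ) * (1 - (φ : ℂ)))) -
          ((1 - Real.exp (-h) - h : ℝ) : ℂ) * ((1 - φ : ℝ) : ℂ)) := by
      push_cast
      rw [← hnh]
      ring
    rw [e, norm_mul, Complex.norm_natCast]
    have h5 : ‖(cf d θ h - (1 - ((1 - Real.exp (-h) : ℝ) : ℂ) * (1 - (φ : ℂ)))) -
          ((1 - Real.exp (-h) - h : ℝ) : ℂ) * ((1 - φ : ℝ) : ℂ)‖ ≤ 4 * h ^ 2 := by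
      refine (norm_sub_le _ _).trans ?_
      rw [norm_mul, Complex.norm_real, Complex.norm_real, Real.norm_eq_abs, Real.norm_eq_abs]
      have h6 : |1 - Real.exp (-h) - h| * |1 - φ| ≤ h ^ 2 * 2 :=
        mul_le_mul h3 hφ1 (abs_nonneg _) (by positivity)
      linarith
    calc (n : ℝ) * _ ≤ n * (4 * h ^ 2) := mul_le_mul_of_nonneg_left h5 hn0.le
      _ = 4 * t ^ 2 / n := by
        rw [hh]
        field_simp
  have h1 := Complex.tendsto_one_add_pow_exp_of_tendsto hlim
  have h2 : ∀ᶠ n : ℕ in atTop, (1 + (cf d θ (t / n) - 1)) ^ n = cf d θ t := by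
    filter_upwards [Filter.eventually_ge_atTop 1] with n hn
    have hn0 : (n : ℝ) ≠ 0 := Nat.cast_ne_zero.2 (by omega)
    rw [add_sub_cancel, ← cf_nsmul d θ (by positivity) n, mul_div_cancel₀ _ hn0]
  exact tendsto_nhds_unique ((tendsto_congr' h2).2 tendsto_const_nhds |>.congr' (h2.mono fun n hn => by
    rw [hn])) (h1.congr' h2 |>.congr fun _ => rfl)

end AW07

/-- characteristic function -/
theorem charFun_walk (d : ℕ) [NeZero d] {t : ℝ} (ht : 0 ≤ t) (θ : Fin d → ℝ) :
    ∫ w, Complex.exp (Complex.I * ((∑ k, θ k * (walk w t k : ℝ) : ℝ) : ℂ)) ∂(noiseLaw d) =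
      Complex.exp (((-t * (1 - (∑ k, Real.cos (θ k)) / d) : ℝ)) : ℂ) :=
  AW07.cf_eq d ht θ

end Pool.Agent.H285
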