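import Pool.Agent.H285.Base2
import Pool.Agent.H285.AW07

/-!
# AW08 (MP_0e9fac_pr)
-/



open MeasureTheory ProbabilityTheory Filter Topology

namespace Pool.Agent.H285


/- ======== AUXILIARY ======== -/

/-- Lebesgue measure on the circle -/
noncomputable def nuT : Measure ℝ := volume.restrict (Set.Ioc (-Real.pi) Real.pi)

/-- Lebesgue measure on the torus -/
noncomputable def PiT (d : ℕ) : Measure (Fin d → ℝ) := Measure.pi fun _ => nuT

instance instFiniteNuT : IsFiniteMeasure nuT := by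
  unfold nuT; infer_instance

instance instFinitePiT (d : ℕ) : IsFiniteMeasure (PiT d) := by
  unfold PiT; infer_instance

/-- the characteristic function -/
noncomputable def FF (d : ℕ) (t : ℝ) (θ : Fin d → ℝ) : ℝ :=
  Real.exp (-t * (1 - (∑ k, Real.cos (θ k)) / d))

lemma FF_pos (d : ℕ) (t : ℝ) (θ : Fin d → ℝ) : 0 < FF d t θ := Real.exp_pos _

lemma FF_cont (d : ℕ) (t : ℝ) : Continuous (FF d t) := by
  unfold FF; fun_prop

lemma one_sub_phi (d : ℕ) [NeZero d] (θ : Fin d → ℝ) :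
    0 ≤ 1 - (∑ k, Real.cos (θ k)) / d := by
  have hd : (0 : ℝ) < d := by exact_mod_cast Nat.pos_of_ne_zero (NeZero.ne d)
  have h : ∑ k : Fin d, Real.cos (θ k) ≤ ∑ _k : Fin d, (1 : ℝ) :=
    Finset.sum_le_sum fun k _ => Real.cos_le_one _
  rw [Finset.sum_const, Finset.card_univ, Fintype.card_fin, nsmul_eq_mul, mul_one] at h
  rw [sub_nonneg, div_le_one hd]
  exact h

lemma FF_le_one (d : ℕ) [NeZero d] {t : ℝ} (ht : 0 ≤ t) (θ : Fin d → ℝ) : FF d t θ ≤ 1 := by
  unfold FF
  rw [Real.exp_le_one_iff]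
  have := mul_nonneg ht (one_sub_phi d θ)
  linarith

lemma FF_integrable (d : ℕ) [NeZero d] {t : ℝ} (ht : 0 ≤ t) : Integrable (FF d t) (PiT d) := by
  refine Integrable.of_bound (FF_cont d t).aestronglyMeasurable 1 ?_
  filter_upwards with θ
  rw [Real.norm_of_nonneg (FF_pos d t θ).le]
  exact FF_le_one d ht θ

lemma orth1 (n : ℤ) : ∫ x, Complex.exp (Complex.I * ((x * (n : ℝ) : ℝ) : ℂ)) ∂nuT =
    if n = 0 then (2 * Real.pi : ℂ) else 0 := by
  unfold nuT
  rw [← intervalIntegral.integral_of_le (by linarith [Real.pi_pos])]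
  by_cases hn : n = 0
  · subst hn
    simp only [Int.cast_zero, mul_zero, Complex.ofReal_zero, Complex.exp_zero, if_true,
      intervalIntegral.integral_const]
    rw [sub_neg_eq_add]
    simp only [Complex.real_smul, Complex.ofReal_add, mul_one]
    ring
  · rw [if_neg hn]
    have hc : Complex.I * (n : ℂ) ≠ 0 := mul_ne_zero Complex.I_ne_zero (by exact_mod_cast hn)
    have h1 : ∀ x : ℝ, Complex.exp (Complex.I * ((x * (n : ℝ) : ℝ) : ℂ)) =
        Complex.exp (Complex.I * (n : ℂ) * x) := by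
      intro x; congr 1; push_cast; ring
    simp_rw [h1]
    rw [integral_exp_mul_complex hc]
    have h2 : Complex.exp (Complex.I * (n : ℂ) * ((Real.pi : ℝ) : ℂ)) =
        Complex.exp (Complex.I * (n : ℂ) * ((-Real.pi : ℝ) : ℂ)) := by
      rw [Complex.exp_eq_exp_iff_exists_int]
      exact ⟨n, by push_cast; ring⟩
    rw [h2, sub_self, zero_div]

lemma orthD (d : ℕ) (n : Site d) :
    ∫ θ, Complex.exp (Complex.I * ((∑ k, θ k * (n k : ℝ) : ℝ) : ℂ)) ∂(PiT d) =
      if n = 0 then (2 * Real.pi : ℂ) ^ d else 0 := by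
  have h1 : ∀ θ : Fin d → ℝ, Complex.exp (Complex.I * ((∑ k, θ k * (n k : ℝ) : ℝ) : ℂ)) =
      ∏ k, Complex.exp (Complex.I * ((θ k * (n k : ℝ) : ℝ) : ℂ)) := by
    intro θ
    rw [← Complex.exp_sum]
    congr 1
    rw [Complex.ofReal_sum, Finset.mul_sum]
  simp_rw [h1]
  unfold PiT
  rw [integral_fintype_prod_eq_prod
    (f := fun k (x : ℝ) => Complex.exp (Complex.I * ((x * (n k : ℝ) : ℝ) : ℂ)))]
  simp_rw [orth1]
  by_cases hn : n = 0
  · subst hn
    simp
  · rw [if_neg hn]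
    obtain ⟨k, hk⟩ := Function.ne_iff.mp hn
    exact Finset.prod_eq_zero (Finset.mem_univ k) (by rw [if_neg (by simpa using hk)])

lemma noise_prob (d : ℕ) [NeZero d] : IsProbabilityMeasure (noiseLaw d) := by
  have h := charFun_walk d (le_refl (0 : ℝ)) (fun _ => 0)
  simp only [zero_mul, Finset.sum_const_zero, Complex.ofReal_zero, mul_zero, Complex.exp_zero,
    neg_zero, integral_const, Complex.real_smul, mul_one] at h
  have h1 : (noiseLaw d).real Set.univ = 1 := by exact_mod_cast h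
  refine ⟨?_⟩
  rw [Measure.real] at h1
  exact (ENNReal.toReal_eq_one_iff _).1 h1

lemma inversion (d : ℕ) [NeZero d] {t : ℝ} (ht : 0 ≤ t) (x : Site d) :
    ((((2 * Real.pi) ^ d * ker d t x : ℝ)) : ℂ) =
      ∫ θ, Complex.exp (-(Complex.I * ((∑ k, θ k * (x k : ℝ) : ℝ) : ℂ))) * (FF d t θ : ℂ)
        ∂(PiT d) := by
  have := noise_prob d
  set g : Noise d → (Fin d → ℝ) → ℂ := fun w θ =>
    Complex.exp (Complex.I * ((∑ k, θ k * (((walk w t - x) k : ℤ) : ℝ) : ℝ) : ℂ)) with hg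
  have hw : ∀ k, Measurable (fun w : Noise d => (((walk w t - x) k : ℤ) : ℝ)) := fun k =>
    (Measurable.of_discrete (f := fun y : Site d => (((y - x) k : ℤ) : ℝ))).comp
      (measurable_walk t)
  have hm : Measurable (Function.uncurry g) := by
    refine Complex.continuous_exp.measurable.comp (Measurable.const_mul ?_ _)
    refine Complex.measurable_ofReal.comp ?_
    refine Finset.measurable_sum _ fun k _ => ?_
    exact ((measurable_pi_apply k).comp measurable_snd).mul ((hw k).comp measurable_fst)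
  have hi : Integrable (Function.uncurry g) ((noiseLaw d).prod (PiT d)) := by
    refine Integrable.of_bound hm.aestronglyMeasurable 1 ?_
    filter_upwards with p
    simp only [Function.uncurry, hg]
    rw [mul_comm, Complex.norm_exp_ofReal_mul_I]
  have hsw := integral_integral_swap hi
  have hL : ∫ w, ∫ θ, g w θ ∂(PiT d) ∂(noiseLaw d) =
      ((((2 * Real.pi) ^ d * ker d t x : ℝ)) : ℂ) := by
    have h1 : ∀ w, ∫ θ, g w θ ∂(PiT d) =
        Set.indicator {w : Noise d | walk w t = x} (fun _ => (2 * Real.pi : ℂ) ^ d) w := by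
      intro w
      simp only [hg]
      rw [orthD d (walk w t - x)]
      by_cases h : walk w t = x
      · rw [if_pos (sub_eq_zero.mpr h), Set.indicator_of_mem (by exact h)]
      · rw [if_neg (fun h' => h (sub_eq_zero.mp h')), Set.indicator_of_notMem (by exact h)]
    simp_rw [h1]
    have hms : MeasurableSet {w : Noise d | walk w t = x} :=
      measurable_walk t (MeasurableSet.singleton x)
    rw [integral_indicator_const _ hms]
    unfold ker
    rw [Complex.real_smul]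
    push_cast
    ring
  have hR : ∫ θ, ∫ w, g w θ ∂(noiseLaw d) ∂(PiT d) =
      ∫ θ, Complex.exp (-(Complex.I * ((∑ k, θ k * (x k : ℝ) : ℝ) : ℂ))) * (FF d t θ : ℂ)
        ∂(PiT d) := by
    congr 1
    funext θ
    have h2 : ∀ w, g w θ = Complex.exp (-(Complex.I * ((∑ k, θ k * (x k : ℝ) : ℝ) : ℂ))) *
        Complex.exp (Complex.I * ((∑ k, θ k * (walk w t k : ℝ) : ℝ) : ℂ)) := by
      intro w
      simp only [hg]
      rw [← Complex.exp_add]
      congr 1
      have : (∑ k, θ k * (((walk w t - x) k : ℤ) : ℝ)) =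
          ∑ k, θ k * (walk w t k : ℝ) - ∑ k, θ k * (x k : ℝ) := by
        rw [← Finset.sum_sub_distrib]
        refine Finset.sum_congr rfl fun k _ => ?_
        rw [Pi.sub_apply]; push_cast; ring
      rw [this, Complex.ofReal_sub]
      ring
    simp_rw [h2]
    rw [integral_const_mul, charFun_walk d ht θ]
    unfold FF
    rw [Complex.ofReal_exp]
  rw [← hL, hsw, hR]

lemma ker_zero_eq (d : ℕ) [NeZero d] {t : ℝ} (ht : 0 ≤ t) :
    (2 * Real.pi) ^ d * ker d t 0 = ∫ θ, FF d t θ ∂(PiT d) := by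
  have h := inversion d ht 0
  have h1 : ∀ θ : Fin d → ℝ,
      Complex.exp (-(Complex.I * ((∑ k, θ k * (((0 : Site d) k : ℤ) : ℝ) : ℝ) : ℂ))) *
        (FF d t θ : ℂ) = (FF d t θ : ℂ) := by
    intro θ; simp
  simp_rw [h1] at h
  rw [integral_complex_ofReal] at h
  exact_mod_cast h

lemma twopi_pow_pos (d : ℕ) : (0 : ℝ) < (2 * Real.pi) ^ d := by
  have := Real.pi_pos
  positivity

/-- the one dimensional integral -/
noncomputable def qq (s : ℝ) : ℝ := ∫ x, Real.exp (-s * (1 - Real.cos x)) ∂nuT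

lemma ker_zero_pow (d : ℕ) [NeZero d] {t : ℝ} (ht : 0 ≤ t) :
    (2 * Real.pi) ^ d * ker d t 0 = (qq (t / d)) ^ d := by
  have hd : (d : ℝ) ≠ 0 := by exact_mod_cast NeZero.ne d
  rw [ker_zero_eq d ht]
  have h1 : ∀ θ : Fin d → ℝ, FF d t θ = ∏ k, Real.exp (-(t / d) * (1 - Real.cos (θ k))) := by
    intro θ
    unfold FF
    rw [← Real.exp_sum]
    congr 1
    rw [← Finset.mul_sum, Finset.sum_sub_distrib, Finset.sum_const, Finset.card_univ,
      Fintype.card_fin, nsmul_eq_mul]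
    field_simp
  simp_rw [h1]
  unfold PiT qq
  rw [integral_fintype_prod_eq_pow (f := fun x : ℝ => Real.exp (-(t / d) * (1 - Real.cos x))),
    Fintype.card_fin]

lemma qq_integrable (s : ℝ) :
    IntegrableOn (fun x => Real.exp (-s * (1 - Real.cos x))) (Set.Ioc (-Real.pi) Real.pi) := by
  have : Continuous (fun x => Real.exp (-s * (1 - Real.cos x))) := by fun_prop
  exact (this.integrableOn_Icc).mono_set Set.Ioc_subset_Icc_self

lemma qq_nonneg (s : ℝ) : 0 ≤ qq s := integral_nonneg fun _ => (Real.exp_pos _).le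

lemma qq_upper {s : ℝ} (hs : 0 < s) : qq s ≤ √(Real.pi / (s * (2 / Real.pi ^ 2))) := by
  have hpi := Real.pi_pos
  have hb : 0 < s * (2 / Real.pi ^ 2) := by positivity
  rw [← integral_gaussian]
  unfold qq nuT
  refine (setIntegral_mono_on (g := fun x => Real.exp (-(s * (2 / Real.pi ^ 2)) * x ^ 2))
    (qq_integrable s) (integrable_exp_neg_mul_sq hb).integrableOn measurableSet_Ioc
    fun x hx => ?_).trans
    (setIntegral_le_integral (integrable_exp_neg_mul_sq hb)
      (Filter.Eventually.of_forall fun x => (Real.exp_pos _).le))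
  rw [Real.exp_le_exp]
  have h1 : |x| ≤ Real.pi := abs_le.mpr ⟨hx.1.le, hx.2⟩
  have h2 := Real.cos_le_one_sub_mul_cos_sq h1
  have h3 : 2 / Real.pi ^ 2 * x ^ 2 ≤ 1 - Real.cos x := by linarith
  have h4 := mul_le_mul_of_nonneg_left h3 hs.le
  linarith

lemma qq_lower (d : ℕ) [NeZero d] {t : ℝ} (ht : 1 ≤ t) :
    Real.exp (-(1 / 2)) * t ^ (-(1 / 2) : ℝ) ≤ qq (t / d) := by
  have hpi : (3 : ℝ) < Real.pi := Real.pi_gt_three
  have hd : (1 : ℝ) ≤ d := by exact_mod_cast Nat.one_le_iff_ne_zero.mpr (NeZero.ne d)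
  have ht0 : 0 < t := by linarith
  set r : ℝ := t ^ (-(1 / 2) : ℝ) with hr
  have hr0 : 0 < r := Real.rpow_pos_of_pos ht0 _
  have hr1 : r ≤ 1 := Real.rpow_le_one_of_one_le_of_nonpos ht (by norm_num)
  have hrt : t * r ^ 2 = 1 := by
    rw [hr, ← Real.rpow_natCast, ← Real.rpow_mul ht0.le]
    norm_num
    rw [Real.rpow_neg_one, mul_inv_cancel₀ ht0.ne']
  have hsub : Set.Ioc 0 r ⊆ Set.Ioc (-Real.pi) Real.pi := fun x hx =>
    ⟨by linarith [hx.1], by linarith [hx.2]⟩
  unfold qq nuT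
  have h1 : ∫ x in Set.Ioc 0 r, Real.exp (-(t / d) * (1 - Real.cos x)) ≤
      ∫ x in Set.Ioc (-Real.pi) Real.pi, Real.exp (-(t / d) * (1 - Real.cos x)) :=
    setIntegral_mono_set (qq_integrable _)
      (Filter.Eventually.of_forall fun x => (Real.exp_pos _).le)
      (Filter.Eventually.of_forall hsub)
  refine le_trans ?_ h1
  have h2 : ∫ _x in Set.Ioc 0 r, Real.exp (-(1 / 2)) = Real.exp (-(1 / 2)) * r := by
    rw [setIntegral_const, Measure.real, Real.volume_Ioc, sub_zero,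
      ENNReal.toReal_ofReal hr0.le, smul_eq_mul, mul_comm]
  rw [← h2]
  refine setIntegral_mono_on (integrableOn_const (by simp))
    ((qq_integrable _).mono_set hsub) measurableSet_Ioc fun x hx => ?_
  rw [Real.exp_le_exp]
  have h3 : 1 - Real.cos x ≤ x ^ 2 / 2 := by linarith [Real.one_sub_sq_div_two_le_cos (x := x)]
  have h4 : x ^ 2 ≤ r ^ 2 := pow_le_pow_left₀ hx.1.le hx.2 2
  have h5 : t / d ≤ t := div_le_self ht0.le hd
  have h6 : 0 ≤ 1 - Real.cos x := by linarith [Real.cos_le_one x]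
  have h7 : (t / d) * (1 - Real.cos x) ≤ t * (r ^ 2 / 2) :=
    mul_le_mul h5 (by linarith) h6 ht0.le
  have h8 : t * (r ^ 2 / 2) = 1 / 2 := by
    rw [← mul_div_assoc, hrt]
  linarith

/- ======== TARGETS ======== -/

theorem ker_le_ker_zero (d : ℕ) [NeZero d] {t : ℝ} (ht : 0 ≤ t) (x : Site d) :
    ker d t x ≤ ker d t 0 := by
  have h := inversion d ht x
  have h0 := ker_zero_eq d ht
  have hp := twopi_pow_pos d
  refine le_of_mul_le_mul_left ?_ hp
  have h1 : (2 * Real.pi) ^ d * ker d t x ≤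
      ‖((((2 * Real.pi) ^ d * ker d t x : ℝ)) : ℂ)‖ := by
    rw [Complex.norm_real]
    exact le_abs_self _
  refine h1.trans ?_
  rw [h, h0]
  refine (norm_integral_le_integral_norm _).trans (le_of_eq ?_)
  congr 1
  funext θ
  rw [norm_mul, Complex.norm_real, Real.norm_of_nonneg (FF_pos d t θ).le, ← mul_neg,
    ← Complex.ofReal_neg, mul_comm Complex.I, Complex.norm_exp_ofReal_mul_I, one_mul]

theorem ker_zero_anti (d : ℕ) [NeZero d] {s t : ℝ} (hs : 0 ≤ s) (h : s ≤ t) :
    ker d t 0 ≤ ker d s 0 := by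
  have hp := twopi_pow_pos d
  refine le_of_mul_le_mul_left ?_ hp
  rw [ker_zero_eq d (hs.trans h), ker_zero_eq d hs]
  refine integral_mono (FF_integrable d (hs.trans h)) (FF_integrable d hs) fun θ => ?_
  unfold FF
  rw [Real.exp_le_exp]
  have := mul_le_mul_of_nonneg_right h (one_sub_phi d θ)
  linarith

theorem ker_upper (d : ℕ) [NeZero d] :
    ∃ C : ℝ, 0 < C ∧ ∀ t : ℝ, 1 ≤ t → ker d t 0 ≤ C * t ^ (-(d : ℝ) / 2) := by
  have hp := twopi_pow_pos d
  have hpi := Real.pi_pos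
  have hd : (0 : ℝ) < d := by exact_mod_cast Nat.pos_of_ne_zero (NeZero.ne d)
  set A : ℝ := Real.pi ^ 3 * d / 2 with hA
  have hA0 : 0 < A := by positivity
  refine ⟨(√A) ^ d / (2 * Real.pi) ^ d, by positivity, fun t ht => ?_⟩
  have ht0 : 0 < t := by linarith
  have h1 := ker_zero_pow d ht0.le
  have h2 : qq (t / d) ≤ √A * t ^ (-(1 / 2) : ℝ) := by
    refine (qq_upper (div_pos ht0 hd)).trans (le_of_eq ?_)
    have e1 : Real.pi / (t / d * (2 / Real.pi ^ 2)) = A * t⁻¹ := by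
      rw [hA]; field_simp
    rw [e1, Real.sqrt_mul hA0.le, Real.sqrt_eq_rpow t⁻¹, ← Real.rpow_neg_one,
      ← Real.rpow_mul ht0.le]
    norm_num
  have h3 : (qq (t / d)) ^ d ≤ (√A) ^ d * t ^ (-(d : ℝ) / 2) := by
    refine (pow_le_pow_left₀ (qq_nonneg _) h2 d).trans (le_of_eq ?_)
    rw [mul_pow, ← Real.rpow_natCast (t ^ (-(1 / 2) : ℝ)), ← Real.rpow_mul ht0.le]
    congr 2
    ring
  rw [← h1] at h3
  rw [div_mul_eq_mul_div, le_div_iff₀ hp]
  linarith

theorem ker_lower (d : ℕ) [NeZero d] :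
    ∃ c : ℝ, 0 < c ∧ ∀ t : ℝ, 1 ≤ t → c * t ^ (-(d : ℝ) / 2) ≤ ker d t 0 := by
  have hp := twopi_pow_pos d
  refine ⟨(Real.exp (-(1 / 2))) ^ d / (2 * Real.pi) ^ d, by positivity, fun t ht => ?_⟩
  have ht0 : 0 < t := by linarith
  have h1 := ker_zero_pow d ht0.le
  have h3 : (Real.exp (-(1 / 2))) ^ d * t ^ (-(d : ℝ) / 2) ≤ (qq (t / d)) ^ d := by
    refine le_trans (le_of_eq ?_) (pow_le_pow_left₀ (by positivity) (qq_lower d ht) d)
    rw [mul_pow, ← Real.rpow_natCast (t ^ (-(1 / 2) : ℝ)), ← Real.rpow_mul ht0.le]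
    congr 2
    ring
  rw [← h1] at h3
  rw [div_mul_eq_mul_div, div_le_iff₀ hp]
  linarith

theorem ker_neg (d : ℕ) [NeZero d] {t : ℝ} (ht : 0 ≤ t) (x : Site d) :
    ker d t (-x) = ker d t x := by
  have h := inversion d ht x
  have h' := inversion d ht (-x)
  have hp := twopi_pow_pos d
  have h1 : ((((2 * Real.pi) ^ d * ker d t (-x) : ℝ)) : ℂ) =
      (starRingEnd ℂ) ((((2 * Real.pi) ^ d * ker d t x : ℝ)) : ℂ) := by
    rw [h, h', ← integral_conj]
    congr 1
    funext θ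
    rw [map_mul, Complex.conj_ofReal, ← Complex.exp_conj, map_neg, map_mul, Complex.conj_I,
      Complex.conj_ofReal]
    congr 2
    have : (∑ k, θ k * (((-x) k : ℤ) : ℝ)) = -∑ k, θ k * (x k : ℝ) := by
      rw [← Finset.sum_neg_distrib]
      refine Finset.sum_congr rfl fun k _ => ?_
      rw [Pi.neg_apply]; push_cast; ring
    rw [this]
    push_cast
    ring
  rw [Complex.conj_ofReal] at h1
  have h2 : (2 * Real.pi) ^ d * ker d t (-x) = (2 * Real.pi) ^ d * ker d t x := by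
    exact_mod_cast h1
  exact mul_left_cancel₀ hp.ne' h2

end Pool.Agent.H285
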