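import Pool.Agent.H285.Base2

/-!
# AW09 (MP_0e9fac_pr)
-/



open MeasureTheory ProbabilityTheory Filter Topology

namespace Pool.Agent.H285


/- ======== TARGETS ======== -/

theorem measurePreserving_coord {ι X : Type*} [MeasurableSpace X] (μ : Measure X)
    [IsProbabilityMeasure μ] (f : ι → X × X → X)
    (hf : ∀ i, MeasurePreserving (f i) (μ.prod μ) μ) :
    MeasurePreserving (fun z : (ι → X) × (ι → X) => fun i => f i (z.1 i, z.2 i))
      ((Measure.infinitePi fun _ : ι => μ).prod (Measure.infinitePi fun _ : ι => μ))
      (Measure.infinitePi fun _ : ι => μ) := by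
  have hm : Measurable (fun z : (ι → X) × (ι → X) => fun i => f i (z.1 i, z.2 i)) := by
    refine measurable_pi_iff.mpr fun i => (hf i).measurable.comp ?_
    exact ((measurable_pi_apply i).comp measurable_fst).prodMk
      ((measurable_pi_apply i).comp measurable_snd)
  refine ⟨hm, ?_⟩
  refine (Measure.isProjectiveLimit_infinitePi (fun _ : ι => μ)).unique ?_ |>.symm
  intro I
  have hr : MeasurePreserving (I.restrict (π := fun _ : ι => X)) (Measure.infinitePi fun _ : ι => μ)
      (Measure.pi fun _ : I => μ) :=
    ⟨Finset.measurable_restrict I, Measure.infinitePi_map_restrict (fun _ : ι => μ)⟩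
  have h1 := hr.prod hr
  have h2 := (measurePreserving_arrowProdEquivProdArrow X X I (fun _ => μ) (fun _ => μ)).symm
    (MeasurableEquiv.arrowProdEquivProdArrow X X I)
  have h3 : MeasurePreserving (fun (a : I → X × X) (i : I) => f i (a i))
      (Measure.pi fun _ : I => μ.prod μ) (Measure.pi fun _ : I => μ) :=
    measurePreserving_pi (fun _ : I => μ.prod μ) (fun _ : I => μ) (f := fun i : I => f i)
      (fun i => hf i)
  have h4 := h3.comp (h2.comp h1)
  rw [Measure.map_map (Finset.measurable_restrict I) hm]
  exact h4.map_eq

end Pool.Agent.H285
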