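import Pool.Agent.H285.Base2
import Pool.Agent.H285.AW09

/-!
# AW10 (MP_0e9fac_pr)
-/



open MeasureTheory ProbabilityTheory Filter Topology

namespace Pool.Agent.H285


/- ======== AUXILIARY ======== -/

section ES

variable {ι X : Type*} [MeasurableSpace X]

open Classical in
/-- the point with the coordinates in `t` taken from the second point -/
noncomputable def esMix (t : Finset ι) (z : (ι → X) × (ι → X)) : ι → X :=
  fun i => if i ∈ t then z.2 i else z.1 i

/-- averaging over the coordinates in `t` -/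
noncomputable def esM (μ : Measure X) (t : Finset ι) (h : (ι → X) → ℝ) (x : ι → X) : ℝ :=
  ∫ y, h (esMix t (x, y)) ∂(Measure.infinitePi fun _ : ι => μ)

theorem esMix_mp (μ : Measure X) [IsProbabilityMeasure μ] (t : Finset ι) :
    MeasurePreserving (esMix t)
      ((Measure.infinitePi fun _ : ι => μ).prod (Measure.infinitePi fun _ : ι => μ))
      (Measure.infinitePi fun _ : ι => μ) := by
  classical
  have h := measurePreserving_coord (ι := ι) μ
    (fun i (z : X × X) => if i ∈ t then z.2 else z.1) (fun i => by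
      by_cases hi : i ∈ t
      · simp only [hi, if_true]
        exact measurePreserving_snd
      · simp only [hi, if_false]
        exact measurePreserving_fst)
  have e : (fun z : (ι → X) × (ι → X) => fun i =>
      (fun i (z : X × X) => if i ∈ t then z.2 else z.1) i (z.1 i, z.2 i)) = esMix t := by
    funext z i
    by_cases hi : i ∈ t <;> simp [esMix, hi]
  rw [e] at h
  exact h

theorem es_integrable {Ω : Type*} [MeasurableSpace Ω] (P : Measure Ω) [IsProbabilityMeasure P]
    (h : Ω → ℝ) (hm : Measurable h) (C : ℝ) (hC : ∀ x, |h x| ≤ C) : Integrable h P :=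
  Integrable.of_bound hm.aestronglyMeasurable C (Filter.Eventually.of_forall hC)

theorem es_expand {Ω : Type*} [MeasurableSpace Ω] (P : Measure Ω) (a b c : Ω → ℝ) (k : ℝ)
    (i1 : Integrable a P) (i2 : Integrable b P) (i3 : Integrable c P) :
    ∫ x, (a x - k * b x + c x) ∂P = ∫ x, a x ∂P - k * ∫ x, b x ∂P + ∫ x, c x ∂P := by
  have h2 : Integrable (fun x => k * b x) P := i2.const_mul k
  have h1 : Integrable (fun x => a x - k * b x) P := i1.sub h2
  rw [integral_add h1 i3, integral_sub i1 h2, integral_const_mul]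

theorem esM_meas (μ : Measure X) [IsProbabilityMeasure μ] (t : Finset ι) (h : (ι → X) → ℝ)
    (hm : Measurable h) : Measurable (esM μ t h) := by
  have h1 : Measurable (fun z : (ι → X) × (ι → X) => h (esMix t z)) :=
    hm.comp (esMix_mp μ t).measurable
  exact (h1.stronglyMeasurable.integral_prod_right' (ν := Measure.infinitePi fun _ : ι => μ)).measurable

theorem esM_bdd (μ : Measure X) [IsProbabilityMeasure μ] (t : Finset ι) (h : (ι → X) → ℝ)
    (C : ℝ) (hC : ∀ x, |h x| ≤ C) (x : ι → X) : |esM μ t h x| ≤ C := by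
  have h1 := norm_integral_le_of_norm_le_const (μ := Measure.infinitePi fun _ : ι => μ)
    (f := fun y => h (esMix t (x, y))) (C := C) (Filter.Eventually.of_forall fun y => hC _)
  simpa [esM] using h1

theorem es_int_mix (μ : Measure X) [IsProbabilityMeasure μ] (t : Finset ι) (h : (ι → X) → ℝ)
    (hm : Measurable h) (C : ℝ) (hC : ∀ x, |h x| ≤ C) :
    ∫ x, h x ∂(Measure.infinitePi fun _ : ι => μ) =
      ∫ x, (∫ y, h (esMix t (x, y)) ∂(Measure.infinitePi fun _ : ι => μ))
        ∂(Measure.infinitePi fun _ : ι => μ) := by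
  have hmp := esMix_mp (ι := ι) μ t
  rw [← integral_prod (fun z => h (esMix t z))
    (es_integrable _ _ (hm.comp hmp.measurable) C fun z => hC _)]
  conv_lhs => rw [← hmp.map_eq]
  exact integral_map hmp.measurable.aemeasurable hm.aestronglyMeasurable

theorem esM_sq (μ : Measure X) [IsProbabilityMeasure μ] (t : Finset ι) (h : (ι → X) → ℝ)
    (hm : Measurable h) (C : ℝ) (hC : ∀ x, |h x| ≤ C) :
    ∫ x, esM μ t h x ^ 2 ∂(Measure.infinitePi fun _ : ι => μ) ≤
      ∫ x, h x ^ 2 ∂(Measure.infinitePi fun _ : ι => μ) := by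
  have hmp := esMix_mp (ι := ι) μ t
  have hsq : ∀ x, |h x ^ 2| ≤ C ^ 2 := fun x => by
    rw [abs_pow]
    exact pow_le_pow_left₀ (abs_nonneg _) (hC x) 2
  have hm2 : Measurable (fun x => h x ^ 2) := hm.pow_const 2
  rw [es_int_mix μ t (fun x => h x ^ 2) hm2 (C ^ 2) hsq]
  have hC2 : ∀ x, |esM μ t h x ^ 2| ≤ C ^ 2 := fun x => by
    rw [abs_pow]
    exact pow_le_pow_left₀ (abs_nonneg _) (esM_bdd μ t h C hC x) 2
  apply integral_mono
  · exact es_integrable _ _ ((esM_meas μ t h hm).pow_const 2) (C ^ 2) hC2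
  · exact es_integrable _ _ (esM_meas μ t (fun x => h x ^ 2) hm2) (C ^ 2)
      (esM_bdd μ t (fun x => h x ^ 2) (C ^ 2) hsq)
  · intro x
    have hmx : Measurable (fun y => h (esMix t (x, y))) :=
      hm.comp (hmp.measurable.comp measurable_prodMk_left)
    have hi : Integrable (fun y => h (esMix t (x, y))) (Measure.infinitePi fun _ : ι => μ) :=
      es_integrable _ _ hmx C fun y => hC _
    have hi2 : Integrable (fun y => h (esMix t (x, y)) ^ 2) (Measure.infinitePi fun _ : ι => μ) :=
      es_integrable _ _ (hmx.pow_const 2) (C ^ 2) fun y => hsq _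
    have h0 : 0 ≤ ∫ y, (h (esMix t (x, y)) - esM μ t h x) ^ 2
        ∂(Measure.infinitePi fun _ : ι => μ) := integral_nonneg fun y => sq_nonneg _
    have e1 : ∫ y, (h (esMix t (x, y)) - esM μ t h x) ^ 2 ∂(Measure.infinitePi fun _ : ι => μ) =
        ∫ y, h (esMix t (x, y)) ^ 2 ∂(Measure.infinitePi fun _ : ι => μ) - esM μ t h x ^ 2 := by
      have e2 : ∀ y, (h (esMix t (x, y)) - esM μ t h x) ^ 2 =
          h (esMix t (x, y)) ^ 2 - (2 * esM μ t h x) * h (esMix t (x, y)) + esM μ t h x ^ 2 := by
        intro y; ring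
      simp only [e2]
      rw [es_expand _ _ _ _ _ hi2 hi (integrable_const _), integral_const]
      simp only [probReal_univ, smul_eq_mul, one_mul]
      have e3 : ∫ y, h (esMix t (x, y)) ∂(Measure.infinitePi fun _ : ι => μ) = esM μ t h x := rfl
      rw [e3]
      ring
    simp only
    linarith

theorem esM_insert (μ : Measure X) [IsProbabilityMeasure μ] (i : ι) (t : Finset ι) (hi : i ∉ t)
    [DecidableEq ι] (h : (ι → X) → ℝ) (hm : Measurable h) (C : ℝ) (hC : ∀ x, |h x| ≤ C)
    (x : ι → X) : esM μ (insert i t) h x = esM μ {i} (esM μ t h) x := by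
  have hmp := esMix_mp (ι := ι) μ (insert i t)
  have hmx : Measurable (fun y => h (esMix (insert i t) (x, y))) :=
    hm.comp (hmp.measurable.comp measurable_prodMk_left)
  have h1 := es_int_mix μ t (fun w => h (esMix (insert i t) (x, w))) hmx C (fun w => hC _)
  unfold esM
  rw [h1]
  congr 1
  funext y'
  congr 1
  funext y
  congr 1
  funext j
  unfold esMix
  simp only [Finset.mem_insert, Finset.mem_singleton]
  by_cases hj : j ∈ t
  · have : j ≠ i := fun h' => hi (h' ▸ hj)
    simp [hj]
  · by_cases hji : j = i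
    · subst hji
      simp [hi]
    · simp [hj, hji]

theorem es_one (μ : Measure X) [IsProbabilityMeasure μ] (i : ι) (h u : (ι → X) → ℝ) (C : ℝ)
    (hm : Measurable h) (hC : ∀ x, |h x| ≤ C) (hu : Measurable u) (hD : ∀ x, |u x| ≤ C)
    (hui : ∀ x y, (∀ j, j ≠ i → x j = y j) → u x = u y) :
    ∫ x, h x ^ 2 ∂(Measure.infinitePi fun _ : ι => μ) -
      ∫ x, esM μ {i} h x ^ 2 ∂(Measure.infinitePi fun _ : ι => μ) ≤
      ∫ x, (h x - u x) ^ 2 ∂(Measure.infinitePi fun _ : ι => μ) := by
  set P := Measure.infinitePi fun _ : ι => μ with hP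
  have hC0 : ∀ x : ι → X, 0 ≤ C := fun x => (abs_nonneg _).trans (hC x)
  have hMm := esM_meas μ {i} h hm
  have hMC := esM_bdd μ {i} h C hC
  have bd : ∀ a b : (ι → X) → ℝ, (∀ x, |a x| ≤ C) → (∀ x, |b x| ≤ C) →
      ∀ x, |a x * b x| ≤ C * C := fun a b ha hb x => by
    rw [abs_mul]
    exact mul_le_mul (ha x) (hb x) (abs_nonneg _) (hC0 x)
  have key : ∫ x, h x * u x ∂P = ∫ x, esM μ {i} h x * u x ∂P := by
    rw [hP, es_int_mix μ {i} (fun x => h x * u x) (hm.mul hu) (C * C) (bd h u hC hD)]
    congr 1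
    funext x
    have e : ∀ y, h (esMix {i} (x, y)) * u (esMix {i} (x, y)) = h (esMix {i} (x, y)) * u x := by
      intro y
      rw [hui (esMix {i} (x, y)) x]
      intro j hj
      unfold esMix
      simp [hj]
    simp only [e]
    rw [integral_mul_const]
    rfl
  have i1 : Integrable (fun x => h x * h x) P := es_integrable _ _ (hm.mul hm) (C * C) (bd h h hC hC)
  have i2 : Integrable (fun x => h x * u x) P := es_integrable _ _ (hm.mul hu) (C * C) (bd h u hC hD)
  have i3 : Integrable (fun x => u x * u x) P := es_integrable _ _ (hu.mul hu) (C * C) (bd u u hD hD)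
  have i4 : Integrable (fun x => esM μ {i} h x * esM μ {i} h x) P :=
    es_integrable _ _ (hMm.mul hMm) (C * C) (bd _ _ hMC hMC)
  have i5 : Integrable (fun x => esM μ {i} h x * u x) P :=
    es_integrable _ _ (hMm.mul hu) (C * C) (bd _ u hMC hD)
  have e1 : ∫ x, (h x - u x) ^ 2 ∂P =
      ∫ x, h x * h x ∂P - 2 * ∫ x, h x * u x ∂P + ∫ x, u x * u x ∂P := by
    have : ∀ x, (h x - u x) ^ 2 = h x * h x - 2 * (h x * u x) + u x * u x := fun x => by ring
    simp only [this]
    rw [es_expand _ _ _ _ _ i1 i2 i3]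
  have e2 : ∫ x, (esM μ {i} h x - u x) ^ 2 ∂P =
      ∫ x, esM μ {i} h x * esM μ {i} h x ∂P - 2 * ∫ x, esM μ {i} h x * u x ∂P
        + ∫ x, u x * u x ∂P := by
    have : ∀ x, (esM μ {i} h x - u x) ^ 2 =
        esM μ {i} h x * esM μ {i} h x - 2 * (esM μ {i} h x * u x) + u x * u x := fun x => by ring
    simp only [this]
    rw [es_expand _ _ _ _ _ i4 i5 i3]
  have e3 : 0 ≤ ∫ x, (esM μ {i} h x - u x) ^ 2 ∂P := integral_nonneg fun x => sq_nonneg _
  simp only [sq] at e1 e2 e3 ⊢
  linarith

theorem es_ind (μ : Measure X) [IsProbabilityMeasure μ] (s : Finset ι) (f : (ι → X) → ℝ)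
    (g : ι → (ι → X) → ℝ) (C : ℝ)
    (hf : Measurable f) (hfC : ∀ x, |f x| ≤ C) (hg : ∀ i, Measurable (g i))
    (hgC : ∀ i x, |g i x| ≤ C)
    (hgi : ∀ i ∈ s, ∀ x y, (∀ j, j ≠ i → x j = y j) → g i x = g i y) :
    ∫ x, f x ^ 2 ∂(Measure.infinitePi fun _ : ι => μ) -
        ∫ x, esM μ s f x ^ 2 ∂(Measure.infinitePi fun _ : ι => μ) ≤
      ∑ i ∈ s, ∫ x, (f x - g i x) ^ 2 ∂(Measure.infinitePi fun _ : ι => μ) := by
  classical
  induction s using Finset.induction_on with
  | empty =>
    have e : ∀ x, esM μ (∅ : Finset ι) f x = f x := by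
      intro x
      unfold esM esMix
      simp
    simp only [e, sub_self, Finset.sum_empty, le_refl]
  | insert i t hi ih =>
    have ih' := ih fun j hj => hgi j (Finset.mem_insert_of_mem hj)
    rw [Finset.sum_insert hi]
    have e : ∀ x, esM μ (insert i t) f x = esM μ {i} (esM μ t f) x :=
      esM_insert μ i t hi f hf C hfC
    simp only [e]
    have hgi' := hgi i (Finset.mem_insert_self i t)
    have h1 := es_one μ i (esM μ t f) (esM μ t (g i)) C (esM_meas μ t f hf)
      (esM_bdd μ t f C hfC) (esM_meas μ t (g i) (hg i)) (esM_bdd μ t (g i) C (hgC i)) (by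
        intro x y hxy
        unfold esM
        congr 1
        funext z
        apply hgi'
        intro j hj
        unfold esMix
        simp only
        split_ifs
        · rfl
        · exact hxy j hj)
    have hb : ∀ x, |f x - g i x| ≤ C + C := fun x =>
      (abs_sub _ _).trans (add_le_add (hfC x) (hgC i x))
    have h2 := esM_sq μ t (fun x => f x - g i x) (hf.sub (hg i)) (C + C) hb
    have h3 : ∀ x, esM μ t (fun x => f x - g i x) x = esM μ t f x - esM μ t (g i) x := by
      intro x
      have hmp := esMix_mp (ι := ι) μ t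
      unfold esM
      rw [integral_sub]
      · exact es_integrable _ _ (hf.comp (hmp.measurable.comp measurable_prodMk_left)) C
          fun y => hfC _
      · exact es_integrable _ _ ((hg i).comp (hmp.measurable.comp measurable_prodMk_left)) C
          fun y => hgC i _
    simp only [h3] at h2
    linarith

end ES

/- ======== TARGETS ======== -/

theorem efron_stein {ι X : Type*} [MeasurableSpace X] (μ : Measure X)
    [IsProbabilityMeasure μ] (s : Finset ι) (f : (ι → X) → ℝ) (g : ι → (ι → X) → ℝ) (C : ℝ)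
    (hf : Measurable f) (hfC : ∀ x, |f x| ≤ C) (hg : ∀ i, Measurable (g i))
    (hgC : ∀ i x, |g i x| ≤ C) (hfs : ∀ x y, (∀ i ∈ s, x i = y i) → f x = f y)
    (hgi : ∀ i ∈ s, ∀ x y, (∀ j, j ≠ i → x j = y j) → g i x = g i y) :
    ∫ x, f x ^ 2 ∂(Measure.infinitePi fun _ : ι => μ) -
        (∫ x, f x ∂(Measure.infinitePi fun _ : ι => μ)) ^ 2 ≤
      ∑ i ∈ s, ∫ x, (f x - g i x) ^ 2 ∂(Measure.infinitePi fun _ : ι => μ) := by
  have h := es_ind μ s f g C hf hfC hg hgC hgi
  have e : ∀ x, esM μ s f x = ∫ y, f y ∂(Measure.infinitePi fun _ : ι => μ) := by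
    intro x
    unfold esM
    congr 1
    funext y
    apply hfs
    intro i hi
    unfold esMix
    simp [hi]
  simp only [e, integral_const, probReal_univ, smul_eq_mul, one_mul] at h
  exact h

end Pool.Agent.H285
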