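import Pool.Agent.H285.Base2
import Pool.Agent.H285.AW01
import Pool.Agent.H285.AW03
import Pool.Agent.H285.AW04

/-!
# AW11 (MP_0e9fac_pr)
-/



open MeasureTheory ProbabilityTheory Filter Topology

namespace Pool.Agent.H285


/- ======== TARGETS ======== -/

lemma aux_jc_mono {d : ℕ} (w : Site d → Noise d) (Λ : Finset (Site d))
    (hw : ∀ i ∈ Λ, Good (w i)) {s t : ℝ} (hs : 0 ≤ s) (h : s ≤ t) :
    jumpCount w Λ s ≤ jumpCount w Λ t :=
  Finset.sum_le_sum fun i hi => jumps_mono (hw i hi) hs h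

lemma aux_jc_eq {d : ℕ} (w : Site d → Noise d) (Λ : Finset (Site d))
    (hw : ∀ i ∈ Λ, Good (w i)) {s t : ℝ} (hs : 0 ≤ s) (h : s ≤ t)
    (he : jumpCount w Λ s = jumpCount w Λ t) : ∀ i ∈ Λ, pos w s i = pos w t i := by
  intro i hi
  have h1 := (Finset.sum_eq_sum_iff_of_le (fun i hi => jumps_mono (hw i hi) hs h)).1 he i hi
  unfold pos walk
  rw [h1]

lemma aux_jumpTime {d : ℕ} (w : Site d → Noise d) (Λ : Finset (Site d))
    (hw : ∀ i ∈ Λ, Good (w i)) {t : ℝ} (ht : 0 ≤ t) {n : ℕ} (hn : n ≤ jumpCount w Λ t) :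
    0 ≤ jumpTime w Λ n ∧ jumpTime w Λ n ≤ t ∧ n ≤ jumpCount w Λ (jumpTime w Λ n) := by
  have hne : {t : ℝ | 0 ≤ t ∧ n ≤ jumpCount w Λ t}.Nonempty := ⟨t, ht, hn⟩
  have hbdd : BddBelow {t : ℝ | 0 ≤ t ∧ n ≤ jumpCount w Λ t} := ⟨0, fun r hr => hr.1⟩
  have h0 : 0 ≤ jumpTime w Λ n := le_csInf hne fun r hr => hr.1
  refine ⟨h0, csInf_le hbdd ⟨ht, hn⟩, ?_⟩
  have hev : ∀ᶠ s in 𝓝[≥] (jumpTime w Λ n), ∀ i ∈ Λ, jumps (w i) s = jumps (w i) (jumpTime w Λ n) := by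
    rw [Filter.eventually_all_finset]
    intro i hi
    obtain ⟨ε, hε, h⟩ := jumps_right (hw i hi) h0
    have h1 : Set.Ico (jumpTime w Λ n) (jumpTime w Λ n + ε) ∈ 𝓝[≥] (jumpTime w Λ n) :=
      Ico_mem_nhdsGE (by linarith)
    filter_upwards [h1] with s hs
    exact h s hs.1 hs.2
  obtain ⟨u, hu, hsub⟩ := (mem_nhdsGE_iff_exists_Ico_subset).1 hev
  obtain ⟨r, hr, hru⟩ := exists_lt_of_csInf_lt hne (show sInf {t : ℝ | 0 ≤ t ∧ n ≤ jumpCount w Λ t} < u from hu)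
  have hτr : jumpTime w Λ n ≤ r := csInf_le hbdd hr
  have h2 := hsub ⟨hτr, hru⟩
  have h3 : jumpCount w Λ r = jumpCount w Λ (jumpTime w Λ n) :=
    Finset.sum_congr rfl fun i hi => h2 i hi
  rw [← h3]
  exact hr.2

lemma aux_aliveSeq_sub {d : ℕ} (c : Site d → Bool) (w : Site d → Noise d) (Λ : Finset (Site d))
    (n : ℕ) : aliveSeq c w Λ n ⊆ Λ := by
  induction n with
  | zero => exact Finset.Subset.refl _
  | succ n ih => exact (ann_subset _ _ _).trans ih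

lemma aux_pos_jumpTime {d : ℕ} (w : Site d → Noise d) (Λ : Finset (Site d))
    (hw : ∀ i ∈ Λ, Good (w i)) {t : ℝ} (ht : 0 ≤ t) :
    ∀ i ∈ Λ, pos w (jumpTime w Λ (jumpCount w Λ t)) i = pos w t i := by
  obtain ⟨h1, h2, h3⟩ := aux_jumpTime w Λ hw ht (le_refl (jumpCount w Λ t))
  exact aux_jc_eq w Λ hw h1 h2 (le_antisymm (aux_jc_mono w Λ hw h1 h2) h3)

lemma aux_B {d : ℕ} (c : Site d → Bool) (w : Site d → Noise d) (Λ : Finset (Site d))
    (hw : ∀ i ∈ Λ, Good (w i)) {t : ℝ} (ht : 0 ≤ t) {n : ℕ} (hn : jumpCount w Λ t = n + 1) :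
    aliveSeq c w Λ (n + 1) = annihilate c (pos w t) (aliveSeq c w Λ n) := by
  have h := aux_pos_jumpTime w Λ hw ht
  rw [hn] at h
  show annihilate c (pos w (jumpTime w Λ (n + 1))) (aliveSeq c w Λ n) = _
  exact ann_congr (fun _ _ => rfl) fun i hi => h i (aux_aliveSeq_sub c w Λ n hi)

lemma aux_A {d : ℕ} (c : Site d → Bool) (w : Site d → Noise d) (Λ : Finset (Site d))
    (hw : ∀ i ∈ Λ, Good (w i)) {t : ℝ} (ht : 0 ≤ t) {n : ℕ} (hn : jumpCount w Λ t = n) :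
    ∀ i ∈ aliveSeq c w Λ n, ∀ j ∈ aliveSeq c w Λ n, pos w t i = pos w t j → c i = c j := by
  rcases n with _ | n
  · intro i hi j hj hij
    have h0 : ∀ i ∈ Λ, pos w t i = i := by
      intro i hi
      have h1 : jumps (w i) t = 0 := (Finset.sum_eq_zero_iff.1 hn) i hi
      unfold pos walk
      rw [h1]
      simp
    have hi' := aux_aliveSeq_sub c w Λ 0 hi
    have hj' := aux_aliveSeq_sub c w Λ 0 hj
    rw [h0 i hi', h0 j hj'] at hij
    rw [hij]
  · intro i hi j hj hij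
    rw [aux_B c w Λ hw ht hn] at hi hj
    exact ann_reduced c (pos w t) _ hi hj hij

theorem alive_eq_evol {d : ℕ} (c : Site d → Bool) (w : Site d → Noise d) (Λ : Finset (Site d))
    (hw : ∀ i ∈ Λ, Good (w i)) (h : ℝ) (hh : 0 < h) (K : ℕ)
    (hreg : ∀ k < K, jumpCount w Λ ((k + 1 : ℕ) * h) ≤ jumpCount w Λ (k * h) + 1) :
    alive c w Λ (K * h) = evol c (fun k => pos w (k * h)) Λ K := by
  induction K with
  | zero =>
    unfold alive
    have : jumpCount w Λ (((0 : ℕ) : ℝ) * h) = 0 := by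
      unfold jumpCount
      refine Finset.sum_eq_zero fun i hi => ?_
      rw [Nat.cast_zero, zero_mul]
      exact jumps_zero (hw i hi)
    rw [this]
    rfl
  | succ K ih =>
    have ih' := ih fun k hk => hreg k (Nat.lt_succ_of_lt hk)
    have hK0 : (0 : ℝ) ≤ (K : ℝ) * h := by positivity
    have hK1 : (K : ℝ) * h ≤ ((K + 1 : ℕ) : ℝ) * h := by
      push_cast
      nlinarith
    have hK2 : (0 : ℝ) ≤ ((K + 1 : ℕ) : ℝ) * h := le_trans hK0 hK1
    have hm := aux_jc_mono w Λ hw hK0 hK1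
    have hr := hreg K (Nat.lt_succ_self K)
    have hev : evol c (fun k => pos w (k * h)) Λ (K + 1) =
        annihilate c (pos w (((K + 1 : ℕ) : ℝ) * h)) (evol c (fun k => pos w (k * h)) Λ K) := rfl
    rw [hev, ← ih']
    unfold alive
    rcases Nat.lt_or_ge (jumpCount w Λ ((K : ℝ) * h)) (jumpCount w Λ (((K + 1 : ℕ) : ℝ) * h)) with
      hlt | hge
    · have he : jumpCount w Λ (((K + 1 : ℕ) : ℝ) * h) = jumpCount w Λ ((K : ℝ) * h) + 1 := by omega
      rw [he]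
      exact aux_B c w Λ hw hK2 he
    · have he : jumpCount w Λ (((K + 1 : ℕ) : ℝ) * h) = jumpCount w Λ ((K : ℝ) * h) := by omega
      rw [he]
      exact (ann_of_reduced c _ _ (aux_A c w Λ hw hK2 he)).symm

end Pool.Agent.H285
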