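import Pool.Agent.H285.Base2
import Pool.Agent.H285.AW02
import Pool.Agent.H285.AW03
import Pool.Agent.H285.AW04

/-!
# AW12 (MP_0e9fac_pr)
-/



open MeasureTheory ProbabilityTheory Filter Topology

namespace Pool.Agent.H285


/- ======== TARGETS ======== -/

theorem aux12_seq_succ {d : ℕ} (c : Site d → Bool) (w : Site d → Noise d) (Λ : Finset (Site d))
    (n : ℕ) : aliveSeq c w Λ (n + 1) =
      annihilate c (pos w (jumpTime w Λ (n + 1))) (aliveSeq c w Λ n) := rfl

theorem aux12_seq_anti {d : ℕ} (c : Site d → Bool) (w : Site d → Noise d) (Λ : Finset (Site d)) :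
    Antitone (aliveSeq c w Λ) :=
  antitone_nat_of_succ_le fun n => by
    rw [aux12_seq_succ]
    exact ann_subset _ _ _

theorem aux12_seq_subset {d : ℕ} (c : Site d → Bool) (w : Site d → Noise d) (Λ : Finset (Site d))
    (n : ℕ) : aliveSeq c w Λ n ⊆ Λ := aux12_seq_anti c w Λ (Nat.zero_le n)

theorem aux12_J_mono {d : ℕ} (w : Site d → Noise d) (Λ : Finset (Site d))
    (hw : ∀ i ∈ Λ, Good (w i)) {s t : ℝ} (hs : 0 ≤ s) (h : s ≤ t) :
    jumpCount w Λ s ≤ jumpCount w Λ t :=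
  Finset.sum_le_sum fun i hi => jumps_mono (hw i hi) hs h

theorem aux12_J_right {d : ℕ} (w : Site d → Noise d) (Λ : Finset (Site d))
    (hw : ∀ i ∈ Λ, Good (w i)) {t : ℝ} (ht : 0 ≤ t) :
    ∃ ε : ℝ, 0 < ε ∧ ∀ s, t ≤ s → s < t + ε → jumpCount w Λ s = jumpCount w Λ t := by
  classical
  induction Λ using Finset.induction_on with
  | empty => exact ⟨1, one_pos, fun s _ _ => rfl⟩
  | insert a Λ ha ih =>
    obtain ⟨ε, hε, h⟩ := ih fun i hi => hw i (Finset.mem_insert_of_mem hi)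
    obtain ⟨δ, hδ, h'⟩ := jumps_right (hw a (Finset.mem_insert_self _ _)) ht
    refine ⟨min ε δ, lt_min hε hδ, fun s h1 h2 => ?_⟩
    unfold jumpCount at h ⊢
    rw [Finset.sum_insert ha, Finset.sum_insert ha,
      h s h1 (lt_of_lt_of_le h2 (by gcongr; exact min_le_left _ _)),
      h' s h1 (lt_of_lt_of_le h2 (by gcongr; exact min_le_right _ _))]

theorem aux12_tau {d : ℕ} (w : Site d → Noise d) (Λ : Finset (Site d))
    (hw : ∀ i ∈ Λ, Good (w i)) {t : ℝ} (ht : 0 ≤ t) {n : ℕ} (hn : n ≤ jumpCount w Λ t) :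
    0 ≤ jumpTime w Λ n ∧ jumpTime w Λ n ≤ t ∧ n ≤ jumpCount w Λ (jumpTime w Λ n) := by
  have hmem : t ∈ {t : ℝ | 0 ≤ t ∧ n ≤ jumpCount w Λ t} := ⟨ht, hn⟩
  have hbdd : BddBelow {t : ℝ | 0 ≤ t ∧ n ≤ jumpCount w Λ t} := ⟨0, fun x hx => hx.1⟩
  have h0 : 0 ≤ jumpTime w Λ n := le_csInf ⟨t, hmem⟩ fun x hx => hx.1
  refine ⟨h0, csInf_le hbdd hmem, ?_⟩
  obtain ⟨ε, hε, h⟩ := aux12_J_right w Λ hw h0
  have hlt : sInf {t : ℝ | 0 ≤ t ∧ n ≤ jumpCount w Λ t} < jumpTime w Λ n + ε := by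
    show jumpTime w Λ n < jumpTime w Λ n + ε
    linarith
  obtain ⟨s, hs, hs'⟩ := exists_lt_of_csInf_lt ⟨t, hmem⟩ hlt
  have h1 : jumpTime w Λ n ≤ s := csInf_le hbdd hs
  rw [← h s h1 hs']
  exact hs.2

theorem aux12_tau_le {d : ℕ} (w : Site d → Noise d) (Λ : Finset (Site d)) {t : ℝ} (ht : 0 ≤ t)
    {n : ℕ} (hn : n ≤ jumpCount w Λ t) : jumpTime w Λ n ≤ t :=
  csInf_le ⟨0, fun x hx => hx.1⟩ ⟨ht, hn⟩

theorem alive_subset {d : ℕ} (c : Site d → Bool) (w : Site d → Noise d) (Λ : Finset (Site d))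
    (t : ℝ) : alive c w Λ t ⊆ Λ := aux12_seq_subset c w Λ _

theorem alive_mono_time {d : ℕ} (c : Site d → Bool) (w : Site d → Noise d) (Λ : Finset (Site d))
    (hw : ∀ i ∈ Λ, Good (w i)) {s t : ℝ} (hs : 0 ≤ s) (h : s ≤ t) :
    alive c w Λ t ⊆ alive c w Λ s :=
  aux12_seq_anti c w Λ (aux12_J_mono w Λ hw hs h)

theorem aux12_exists_step {α : Type*} (S : ℕ → Finset α) (m n : ℕ) (hmn : m ≤ n) (i : α)
    (hi : i ∈ S m) (hi' : i ∉ S n) : ∃ l, m ≤ l ∧ l < n ∧ i ∈ S l ∧ i ∉ S (l + 1) := by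
  induction n, hmn using Nat.le_induction with
  | base => exact absurd hi hi'
  | succ n hn ih =>
    by_cases h : i ∈ S n
    · exact ⟨n, hn, Nat.lt_succ_self n, h, hi'⟩
    · obtain ⟨l, h1, h2, h3⟩ := ih h
      exact ⟨l, h1, by omega, h3⟩

theorem alive_removed {d : ℕ} (c : Site d → Bool) (w : Site d → Noise d) (Λ : Finset (Site d))
    (hw : ∀ i ∈ Λ, Good (w i)) {s t : ℝ} (hs : 0 ≤ s) (h : s ≤ t) {i : Site d}
    (hi : i ∈ alive c w Λ s) (hi' : i ∉ alive c w Λ t) :
    ∃ j ∈ alive c w Λ s, j ≠ i ∧ ∃ r, s < r ∧ r ≤ t ∧ pos w r i = pos w r j := by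
  obtain ⟨l, h1, h2, h3, h4⟩ := aux12_exists_step (aliveSeq c w Λ) _ _
    (aux12_J_mono w Λ hw hs h) i hi hi'
  rw [aux12_seq_succ] at h4
  obtain ⟨j, hj, _, hc, hq⟩ := ann_removed h3 h4
  obtain ⟨t1, t2, t3⟩ := aux12_tau w Λ hw (hs.trans h) (n := l + 1) h2
  refine ⟨j, aux12_seq_anti c w Λ h1 hj, fun hji => hc (by rw [hji]), _, ?_, t2, hq.symm⟩
  by_contra hlt
  push Not at hlt
  have := aux12_J_mono w Λ hw t1 hlt
  omega

theorem alive_catAll {d : ℕ} (c : Site d → Bool) (w w' : Site d → Noise d) (Λ : Finset (Site d))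
    (hw : ∀ i ∈ Λ, Good (w i)) (hw' : ∀ i ∈ Λ, Good (w' i)) {s t : ℝ} (ht : 0 ≤ t) (h : t ≤ s) :
    alive c (catAll s w w') Λ t = alive c w Λ t := by
  have hs : 0 ≤ s := ht.trans h
  have hw2 : ∀ i ∈ Λ, Good (catAll s w w' i) := fun i hi => cat_good (hw i hi) (hw' i hi) hs
  have hJ : ∀ u, 0 ≤ u → u ≤ s → jumpCount (catAll s w w') Λ u = jumpCount w Λ u :=
    fun u hu hus => Finset.sum_congr rfl fun i hi => jumps_cat_le (hw i hi) (hw' i hi) hu hus
  have htau : ∀ n, n ≤ jumpCount w Λ t → jumpTime (catAll s w w') Λ n = jumpTime w Λ n := by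
    intro n hn
    obtain ⟨a1, a2, a3⟩ := aux12_tau w Λ hw ht hn
    obtain ⟨b1, b2, b3⟩ := aux12_tau (catAll s w w') Λ hw2 ht (n := n) (by rw [hJ t ht h]; exact hn)
    apply le_antisymm
    · apply aux12_tau_le _ _ a1
      rw [hJ _ a1 (a2.trans h)]
      exact a3
    · apply aux12_tau_le _ _ b1
      rw [← hJ _ b1 (b2.trans h)]
      exact b3
  have hseq : ∀ n, n ≤ jumpCount w Λ t → aliveSeq c (catAll s w w') Λ n = aliveSeq c w Λ n := by
    intro n
    induction n with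
    | zero => intro _; rfl
    | succ n ih =>
      intro hn
      rw [aux12_seq_succ, aux12_seq_succ, ih (by omega), htau (n + 1) hn]
      apply ann_congr (fun _ _ => rfl)
      intro i hi
      have hiΛ := aux12_seq_subset c w Λ n hi
      obtain ⟨a1, a2, a3⟩ := aux12_tau w Λ hw ht hn
      show i + walk (cat s (w i) (w' i)) _ = i + walk (w i) _
      rw [walk_cat_le (hw i hiΛ) (hw' i hiΛ) a1 (a2.trans h)]
  unfold alive
  rw [hJ t ht h]
  exact hseq _ le_rfl

/-- The system `Λ` depends on the colours and noises of `Λ` only. -/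
theorem alive_congr {d : ℕ} {c c' : Site d → Bool} {w w' : Site d → Noise d}
    {Λ : Finset (Site d)} (hc : ∀ i ∈ Λ, c i = c' i) (hw : ∀ i ∈ Λ, w i = w' i) (t : ℝ) :
    alive c w Λ t = alive c' w' Λ t := by
  have hJ : ∀ u, jumpCount w Λ u = jumpCount w' Λ u :=
    fun u => Finset.sum_congr rfl fun i hi => by rw [hw i hi]
  have htau : ∀ n, jumpTime w Λ n = jumpTime w' Λ n := by
    intro n
    unfold jumpTime
    simp only [hJ]
  have hseq : ∀ n, aliveSeq c w Λ n = aliveSeq c' w' Λ n := by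
    intro n
    induction n with
    | zero => rfl
    | succ n ih =>
      rw [aux12_seq_succ, aux12_seq_succ, ← ih, htau (n + 1)]
      apply ann_congr
      · intro i hi
        exact hc i (aux12_seq_subset c w Λ n hi)
      · intro i hi
        show i + walk (w i) _ = i + walk (w' i) _
        rw [hw i (aux12_seq_subset c w Λ n hi)]
  unfold alive
  rw [hJ t]
  exact hseq _

/-- At each time the particles at one site have the same colour. -/
theorem alive_reduced {d : ℕ} (c : Site d → Bool) (w : Site d → Noise d) (Λ : Finset (Site d))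
    (hw : ∀ i ∈ Λ, Good (w i)) {t : ℝ} (ht : 0 ≤ t) {i j : Site d} (hi : i ∈ alive c w Λ t)
    (hj : j ∈ alive c w Λ t) (h : pos w t i = pos w t j) : c i = c j := by
  have hiΛ := alive_subset c w Λ t hi
  have hjΛ := alive_subset c w Λ t hj
  unfold alive at hi hj
  obtain ⟨n, hn⟩ : ∃ n, jumpCount w Λ t = n := ⟨_, rfl⟩
  rw [hn] at hi hj
  cases n with
  | zero =>
    have h0 : ∀ k ∈ Λ, jumps (w k) t = 0 := by
      have : ∑ k ∈ Λ, jumps (w k) t = 0 := hn
      exact Finset.sum_eq_zero_iff.mp this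
    have hp : ∀ k ∈ Λ, pos w t k = k := by
      intro k hk
      unfold pos walk
      rw [h0 k hk]
      simp
    rw [hp i hiΛ, hp j hjΛ] at h
    rw [h]
  | succ n =>
    obtain ⟨t1, t2, t3⟩ := aux12_tau w Λ hw ht (n := n + 1) (by omega)
    have hJ : jumpCount w Λ (jumpTime w Λ (n + 1)) = jumpCount w Λ t := by
      apply le_antisymm (aux12_J_mono w Λ hw t1 t2)
      rw [hn]
      exact t3
    have hje : ∀ k ∈ Λ, jumps (w k) (jumpTime w Λ (n + 1)) = jumps (w k) t := by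
      have h2 := (Finset.sum_eq_sum_iff_of_le
        (fun k hk => jumps_mono (hw k hk) t1 t2)).mp hJ
      exact h2
    have hp : ∀ k ∈ Λ, pos w (jumpTime w Λ (n + 1)) k = pos w t k := by
      intro k hk
      unfold pos walk
      rw [hje k hk]
    rw [aux12_seq_succ] at hi hj
    exact ann_reduced c _ _ hi hj (by rw [hp i hiΛ, hp j hjΛ, h])

/-- translation of the finite system -/
theorem alive_translate {d : ℕ} (c : Site d → Bool) (w : Site d → Noise d) (Λ : Finset (Site d))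
    (t : ℝ) (z : Site d) :
    alive (fun i => c (i - z)) (fun i => w (i - z)) (Λ.map (addRightEmbedding z)) t =
      (alive c w Λ t).map (addRightEmbedding z) := by
  have hJ : ∀ u, jumpCount (fun i => w (i - z)) (Λ.map (addRightEmbedding z)) u =
      jumpCount w Λ u := by
    intro u
    unfold jumpCount
    rw [Finset.sum_map]
    simp
  have htau : ∀ n, jumpTime (fun i => w (i - z)) (Λ.map (addRightEmbedding z)) n =
      jumpTime w Λ n := by
    intro n
    unfold jumpTime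
    simp only [hJ]
  have hseq : ∀ n, aliveSeq (fun i => c (i - z)) (fun i => w (i - z))
      (Λ.map (addRightEmbedding z)) n = (aliveSeq c w Λ n).map (addRightEmbedding z) := by
    intro n
    induction n with
    | zero => rfl
    | succ n ih =>
      rw [aux12_seq_succ, aux12_seq_succ, ih, htau (n + 1), ← ann_translate]
      congr 1
      funext i
      show i + walk (w (i - z)) _ = (i - z + walk (w (i - z)) _) + z
      abel
  unfold alive
  rw [hJ t]
  exact hseq _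

theorem alive_flip {d : ℕ} (c : Site d → Bool) (w : Site d → Noise d) (Λ : Finset (Site d))
    (t : ℝ) : alive (fun i => !(c i)) w Λ t = alive c w Λ t := by
  have hseq : ∀ n, aliveSeq (fun i => !(c i)) w Λ n = aliveSeq c w Λ n := by
    intro n
    induction n with
    | zero => rfl
    | succ n ih => rw [aux12_seq_succ, aux12_seq_succ, ih, ann_flip]
  exact hseq _

end Pool.Agent.H285
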