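import Pool.Agent.H285.Base2
import Pool.Agent.H285.AW05
import Pool.Agent.H285.AW06
import Pool.Agent.H285.AW09
import Pool.Agent.H285.AW11

/-!
# AW13 (MP_0e9fac_pr)
-/



open MeasureTheory ProbabilityTheory Filter Topology

namespace Pool.Agent.H285


/- ======== TARGETS ======== -/

theorem noiseLaw_prob (d : ℕ) [NeZero d] : IsProbabilityMeasure (noiseLaw d) := by
  have h1 : IsProbabilityMeasure (expMeasure 1) := isProbabilityMeasure_expMeasure one_pos
  have h2 : IsProbabilityMeasure (uniformOn (Set.univ : Set (Dir d))) := by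
    have : Nonempty (Dir d) := ⟨(⟨0, Nat.pos_of_ne_zero (NeZero.ne d)⟩, true)⟩
    exact isProbabilityMeasure_uniformOn Set.finite_univ Set.univ_nonempty
  unfold noiseLaw
  infer_instance

theorem noises_prob (d : ℕ) [NeZero d] : IsProbabilityMeasure (noises d) := by
  have := noiseLaw_prob d
  unfold noises
  infer_instance

theorem ae_all_good (d : ℕ) [NeZero d] : ∀ᵐ w ∂(noises d), ∀ i, Good (w i) := by
  have := noiseLaw_prob d
  rw [ae_all_iff]
  intro i
  have h := (measurePreserving_eval_infinitePi (fun _ : Site d => noiseLaw d) i).quasiMeasurePreserving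
  exact h.ae (ae_good d)

theorem measurable_jumpCount {d : ℕ} (Λ : Finset (Site d)) (t : ℝ) :
    Measurable (fun w : Site d → Noise d => jumpCount w Λ t) := by
  unfold jumpCount
  exact Finset.measurable_sum _ fun i _ => (measurable_jumps t).comp (measurable_pi_apply i)

theorem one_coord (d : ℕ) [NeZero d] {h : ℝ} (hh : 0 ≤ h) (i : Site d) :
    (noises d).real {w | 2 ≤ jumps (w i) h} ≤ h ^ 2 := by
  have := noiseLaw_prob d
  have hm : MeasurableSet {w : Noise d | 2 ≤ jumps w h} :=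
    measurableSet_le measurable_const (measurable_jumps h)
  have h1 := (measurePreserving_eval_infinitePi (fun _ : Site d => noiseLaw d) i).measure_preimage
    hm.nullMeasurableSet
  have h2 : (noises d).real {w | 2 ≤ jumps (w i) h} = (noiseLaw d).real {w | 2 ≤ jumps w h} := by
    unfold Measure.real
    rw [← h1]
    rfl
  rw [h2]
  exact two_le_jumps d hh

theorem two_coord (d : ℕ) [NeZero d] {h : ℝ} (hh : 0 ≤ h) {i j : Site d} (hij : i ≠ j) :
    (noises d).real {w | 1 ≤ jumps (w i) h ∧ 1 ≤ jumps (w j) h} ≤ h ^ 2 := by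
  have := noiseLaw_prob d
  have hm : MeasurableSet {w : Noise d | 1 ≤ jumps w h} :=
    measurableSet_le measurable_const (measurable_jumps h)
  have h1 := Measure.infinitePi_pi (fun _ : Site d => noiseLaw d) (s := {i, j})
    (t := fun _ => {w : Noise d | 1 ≤ jumps w h}) (fun _ _ => hm)
  rw [Finset.prod_pair hij] at h1
  have h2 : {w : Site d → Noise d | 1 ≤ jumps (w i) h ∧ 1 ≤ jumps (w j) h} =
      Set.pi (({i, j} : Finset (Site d)) : Set (Site d)) (fun _ => {w : Noise d | 1 ≤ jumps w h}) := by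
    ext w
    simp
  have h3 : (noises d).real {w | 1 ≤ jumps (w i) h ∧ 1 ≤ jumps (w j) h} =
      (noiseLaw d).real {w | 1 ≤ jumps w h} * (noiseLaw d).real {w | 1 ≤ jumps w h} := by
    unfold Measure.real
    rw [h2]
    unfold noises
    rw [h1, ENNReal.toReal_mul]
  rw [h3, pow_two]
  have h4 := one_le_jumps d hh
  exact mul_le_mul h4 h4 measureReal_nonneg hh

theorem sum_two {α : Type*} [DecidableEq α] (Λ : Finset α) (f : α → ℕ) (h : 2 ≤ ∑ i ∈ Λ, f i) :
    (∃ i ∈ Λ, 2 ≤ f i) ∨ ∃ i ∈ Λ, ∃ j ∈ Λ, i ≠ j ∧ 1 ≤ f i ∧ 1 ≤ f j := by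
  by_contra hcon
  push Not at hcon
  obtain ⟨h1, h2⟩ := hcon
  by_cases h3 : ∃ i ∈ Λ, 1 ≤ f i
  · obtain ⟨i, hi, hfi⟩ := h3
    have h4 : ∑ j ∈ Λ, f j = f i := by
      refine Finset.sum_eq_single_of_mem i hi ?_
      intro j hj hji
      have := h2 i hi j hj hji.symm hfi
      omega
    have := h1 i hi
    omega
  · push Not at h3
    have h4 : ∑ j ∈ Λ, f j = 0 := Finset.sum_eq_zero fun j hj => by
      have := h3 j hj
      omega
    omega

theorem noises_two (d : ℕ) [NeZero d] (Λ : Finset (Site d)) {h : ℝ} (hh : 0 ≤ h) :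
    (noises d).real {w | 2 ≤ ∑ i ∈ Λ, jumps (w i) h} ≤ 2 * (Λ.card : ℝ) ^ 2 * h ^ 2 := by
  classical
  have := noises_prob d
  have hsub : {w : Site d → Noise d | 2 ≤ ∑ i ∈ Λ, jumps (w i) h} ⊆
      (⋃ i ∈ Λ, {w | 2 ≤ jumps (w i) h}) ∪
      ⋃ z ∈ (Λ ×ˢ Λ).filter (fun z => z.1 ≠ z.2),
        {w | 1 ≤ jumps (w z.1) h ∧ 1 ≤ jumps (w z.2) h} := by
    intro w hw
    rcases sum_two Λ (fun i => jumps (w i) h) hw with ⟨i, hi, h2⟩ | ⟨i, hi, j, hj, hij, h1, h2⟩
    · left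
      simp only [Set.mem_iUnion]
      exact ⟨i, hi, h2⟩
    · right
      simp only [Set.mem_iUnion]
      exact ⟨(i, j), by simp [hi, hj, hij], h1, h2⟩
  have e1 : (noises d).real (⋃ i ∈ Λ, {w | 2 ≤ jumps (w i) h}) ≤ (Λ.card : ℝ) * h ^ 2 := by
    refine (measureReal_biUnion_finset_le _ _).trans ?_
    refine (Finset.sum_le_sum fun i _ => one_coord d hh i).trans ?_
    rw [Finset.sum_const, nsmul_eq_mul]
  have e2 : (noises d).real (⋃ z ∈ (Λ ×ˢ Λ).filter (fun z => z.1 ≠ z.2),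
        {w | 1 ≤ jumps (w z.1) h ∧ 1 ≤ jumps (w z.2) h}) ≤ (Λ.card : ℝ) ^ 2 * h ^ 2 := by
    refine (measureReal_biUnion_finset_le _ _).trans ?_
    refine (Finset.sum_le_sum fun z hz => two_coord d hh (i := z.1) (j := z.2) ?_).trans ?_
    · rw [Finset.mem_filter] at hz
      exact hz.2
    · rw [Finset.sum_const, nsmul_eq_mul]
      have h3 : (((Λ ×ˢ Λ).filter (fun z => z.1 ≠ z.2)).card : ℝ) ≤ (Λ.card : ℝ) ^ 2 := by
        have h4 := Finset.card_filter_le (Λ ×ˢ Λ) (fun z => z.1 ≠ z.2)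
        rw [Finset.card_product] at h4
        calc (((Λ ×ˢ Λ).filter (fun z => z.1 ≠ z.2)).card : ℝ) ≤ ((Λ.card * Λ.card : ℕ) : ℝ) := by
              exact_mod_cast h4
          _ = (Λ.card : ℝ) ^ 2 := by push_cast; ring
      exact mul_le_mul_of_nonneg_right h3 (by positivity)
  have e3 : (Λ.card : ℝ) ≤ (Λ.card : ℝ) ^ 2 := by
    exact_mod_cast Nat.le_self_pow (two_ne_zero) Λ.card
  calc (noises d).real {w | 2 ≤ ∑ i ∈ Λ, jumps (w i) h} ≤ _ := measureReal_mono hsub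
    _ ≤ _ := measureReal_union_le _ _
    _ ≤ (Λ.card : ℝ) * h ^ 2 + (Λ.card : ℝ) ^ 2 * h ^ 2 := add_le_add e1 e2
    _ ≤ 2 * (Λ.card : ℝ) ^ 2 * h ^ 2 := by nlinarith [sq_nonneg h]

theorem irregular (d : ℕ) [NeZero d] (Λ : Finset (Site d)) {h : ℝ} (hh : 0 ≤ h) (k : ℕ) :
    (noises d).real {w | jumpCount w Λ (k * h) + 2 ≤ jumpCount w Λ ((k + 1 : ℕ) * h)} ≤
      2 * (Λ.card : ℝ) ^ 2 * h ^ 2 := by
  classical
  have i1 := noiseLaw_prob d
  have i2 := noises_prob d
  have hkh : 0 ≤ (k : ℝ) * h := by positivity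
  have hmp : MeasurePreserving
      (fun z : (Site d → Noise d) × (Site d → Noise d) => catAll (k * h) z.1 z.2)
      ((noises d).prod (noises d)) (noises d) :=
    measurePreserving_coord (noiseLaw d) (fun (_ : Site d) z => cat (k * h) z.1 z.2)
      (fun _ => measurePreserving_cat d hkh)
  have hm : MeasurableSet {w : Site d → Noise d |
      jumpCount w Λ (k * h) + 2 ≤ jumpCount w Λ ((k + 1 : ℕ) * h)} :=
    measurableSet_le ((measurable_jumpCount Λ _).add_const 2) (measurable_jumpCount Λ _)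
  have h1 := hmp.measure_preimage hm.nullMeasurableSet
  have hg1 : ∀ᵐ z ∂((noises d).prod (noises d)), ∀ i, Good (z.1 i) :=
    Measure.quasiMeasurePreserving_fst.ae (ae_all_good d)
  have hg2 : ∀ᵐ z ∂((noises d).prod (noises d)), ∀ i, Good (z.2 i) :=
    Measure.quasiMeasurePreserving_snd.ae (ae_all_good d)
  have h2 : (noises d) {w | jumpCount w Λ (k * h) + 2 ≤ jumpCount w Λ ((k + 1 : ℕ) * h)} ≤
      (noises d) {w | 2 ≤ ∑ i ∈ Λ, jumps (w i) h} := by
    have hm2 : MeasurableSet {w : Site d → Noise d | 2 ≤ ∑ i ∈ Λ, jumps (w i) h} :=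
      measurableSet_le measurable_const (measurable_jumpCount Λ h)
    rw [← h1, ← (measurePreserving_snd (μ := noises d) (ν := noises d)).measure_preimage
      hm2.nullMeasurableSet]
    refine measure_mono_ae ?_
    filter_upwards [hg1, hg2] with z hz1 hz2 hz
    have hz' : jumpCount (catAll (k * h) z.1 z.2) Λ (k * h) + 2 ≤
      jumpCount (catAll (k * h) z.1 z.2) Λ ((k + 1 : ℕ) * h) := hz
    change 2 ≤ ∑ i ∈ Λ, jumps (z.2 i) h
    have e1 : jumpCount (catAll (k * h) z.1 z.2) Λ (k * h) = ∑ i ∈ Λ, jumps (z.1 i) (k * h) := by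
      unfold jumpCount catAll
      exact Finset.sum_congr rfl fun i _ => jumps_cat_le (hz1 i) (hz2 i) hkh le_rfl
    have e2 : jumpCount (catAll (k * h) z.1 z.2) Λ ((k + 1 : ℕ) * h) =
        ∑ i ∈ Λ, (jumps (z.1 i) (k * h) + jumps (z.2 i) h) := by
      unfold jumpCount catAll
      refine Finset.sum_congr rfl fun i _ => ?_
      have : ((k + 1 : ℕ) : ℝ) * h = k * h + h := by push_cast; ring
      rw [this]
      exact jumps_cat_add (hz1 i) (hz2 i) hkh hh
    rw [e1, e2, Finset.sum_add_distrib] at hz'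
    omega
  calc (noises d).real {w | jumpCount w Λ (k * h) + 2 ≤ jumpCount w Λ ((k + 1 : ℕ) * h)}
      ≤ (noises d).real {w | 2 ≤ ∑ i ∈ Λ, jumps (w i) h} :=
        ENNReal.toReal_mono (measure_ne_top _ _) h2
    _ ≤ _ := noises_two d Λ hh

theorem ae_regular (d : ℕ) [NeZero d] (Λ : Finset (Site d)) (n : ℕ) : ∀ᵐ w ∂(noises d),
    ∀ᶠ m : ℕ in atTop, ∀ k < n * 2 ^ m,
      jumpCount w Λ ((k + 1 : ℕ) * (1 / 2 ^ m : ℝ)) ≤ jumpCount w Λ (k * (1 / 2 ^ m : ℝ)) + 1 := by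
  classical
  have i2 := noises_prob d
  let S : ℕ → Set (Site d → Noise d) := fun m => ⋃ k ∈ Finset.range (n * 2 ^ m),
    {w | jumpCount w Λ (k * (1 / 2 ^ m : ℝ)) + 2 ≤ jumpCount w Λ ((k + 1 : ℕ) * (1 / 2 ^ m : ℝ))}
  have hS : ∀ m, (noises d) (S m) ≤
      ENNReal.ofReal (2 * (Λ.card : ℝ) ^ 2 * n * (1 / 2) ^ m) := by
    intro m
    have h1 : (noises d).real (S m) ≤ 2 * (Λ.card : ℝ) ^ 2 * n * (1 / 2) ^ m := by
      refine (measureReal_biUnion_finset_le _ _).trans ?_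
      refine (Finset.sum_le_sum fun k _ => irregular d Λ (h := 1 / 2 ^ m) (by positivity) k).trans ?_
      rw [Finset.sum_const, nsmul_eq_mul, Finset.card_range]
      apply le_of_eq
      have e : ((1 : ℝ) / 2) ^ m = 1 / 2 ^ m := one_div_pow 2 m
      rw [e]
      push_cast
      field_simp
    rw [← ENNReal.ofReal_toReal (measure_ne_top (noises d) (S m))]
    exact ENNReal.ofReal_le_ofReal h1
  have hsum : ∑' m, (noises d) (S m) ≠ ⊤ := by
    refine ne_top_of_le_ne_top ?_ (ENNReal.tsum_le_tsum hS)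
    have hs : Summable (fun m : ℕ => 2 * (Λ.card : ℝ) ^ 2 * n * (1 / 2 : ℝ) ^ m) :=
      (summable_geometric_of_lt_one (by norm_num) (by norm_num)).mul_left _
    exact hs.tsum_ofReal_ne_top
  have h := ae_eventually_notMem hsum
  filter_upwards [h] with w hw
  filter_upwards [hw] with m hm k hk
  by_contra hcon
  apply hm
  simp only [S, Set.mem_iUnion]
  refine ⟨k, Finset.mem_range.2 hk, ?_⟩
  have : jumpCount w Λ (k * (1 / 2 ^ m : ℝ)) + 2 ≤
      jumpCount w Λ ((k + 1 : ℕ) * (1 / 2 ^ m : ℝ)) := by omega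
  exact this

theorem ae_alive_eq_evol (d : ℕ) [NeZero d] : ∀ᵐ w ∂(noises d),
    ∀ (Λ : Finset (Site d)) (n : ℕ), ∀ᶠ m : ℕ in atTop, ∀ (c : Site d → Bool),
      alive c w Λ n = evol c (fun l => pos w (l * (1 / 2 ^ m : ℝ))) Λ (n * 2 ^ m) := by
  have h1 : ∀ᵐ w ∂(noises d), ∀ (Λ : Finset (Site d)) (n : ℕ), ∀ᶠ m : ℕ in atTop,
      ∀ k < n * 2 ^ m, jumpCount w Λ ((k + 1 : ℕ) * (1 / 2 ^ m : ℝ)) ≤
        jumpCount w Λ (k * (1 / 2 ^ m : ℝ)) + 1 := by
    rw [ae_all_iff]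
    intro Λ
    rw [ae_all_iff]
    intro n
    exact ae_regular d Λ n
  filter_upwards [h1, ae_all_good d] with w hw hg Λ n
  filter_upwards [hw Λ n] with m hm c
  have h2 := alive_eq_evol c w Λ (fun i _ => hg i) (1 / 2 ^ m : ℝ) (by positivity) (n * 2 ^ m) hm
  have h3 : ((n * 2 ^ m : ℕ) : ℝ) * (1 / 2 ^ m : ℝ) = n := by
    push_cast
    field_simp
  rw [h3] at h2
  exact h2

end Pool.Agent.H285
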