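import Pool.Agent.H285.Base2
import Pool.Agent.H285.AW05
import Pool.Agent.H285.AW09
import Pool.Agent.H285.AW01

/-!
# AW14 (MP_0e9fac_pr)
-/



open MeasureTheory ProbabilityTheory Filter Topology

namespace Pool.Agent.H285


/- ======== auxiliary lemmas ======== -/

instance probNoise (d : ℕ) [NeZero d] : IsProbabilityMeasure (noiseLaw d) := by
  have : IsProbabilityMeasure (expMeasure 1) := isProbabilityMeasure_expMeasure one_pos
  have : Nonempty (Dir d) := ⟨(0, true)⟩
  unfold noiseLaw
  infer_instance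

instance probNoises (d : ℕ) [NeZero d] : IsProbabilityMeasure (noises d) := by
  unfold noises
  infer_instance

theorem evol_subset {d : ℕ} (c : Site d → Bool) (q : ℕ → Site d → Site d) (A : Finset (Site d))
    (k : ℕ) : evol c q A k ⊆ A := by
  induction k with
  | zero => exact subset_rfl
  | succ k ih => exact (ann_subset c _ _).trans ih

theorem evol_congr {d : ℕ} (c : Site d → Bool) (q q' : ℕ → Site d → Site d)
    (A : Finset (Site d)) (k : ℕ)
    (h : ∀ l, 1 ≤ l → l ≤ k → ∀ i ∈ A, q l i = q' l i) : evol c q A k = evol c q' A k := by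
  induction k with
  | zero => rfl
  | succ k ih =>
    have h1 := ih fun l hl hlk i hi => h l hl (by omega) i hi
    show annihilate c (q (k + 1)) (evol c q A k) = annihilate c (q' (k + 1)) (evol c q' A k)
    rw [h1]
    exact ann_congr (fun _ _ => rfl) fun i hi =>
      h (k + 1) (by omega) le_rfl i (evol_subset c q' A k hi)

theorem evol_shift {d : ℕ} (c : Site d → Bool) (q : ℕ → Site d → Site d)
    (A : Finset (Site d)) (k : ℕ) :
    evol c q A (k + 1) = evol c (fun l => q (l + 1)) (annihilate c (q 1) A) k := by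
  induction k with
  | zero => rfl
  | succ k ih =>
    show annihilate c (q (k + 1 + 1)) (evol c q A (k + 1)) = _
    rw [ih]
    rfl

theorem ann_congr' {d : ℕ} (c : Site d → Bool) {q q' : Site d → Site d} {A : Finset (Site d)}
    (hq : ∀ i ∈ A, q i = q' i) :
    annihilate c q A = annihilate c q' A := ann_congr (fun _ _ => rfl) hq

/-- The charge functional. -/
noncomputable def Psi {d : ℕ} (c : Site d → Bool) (φ : Site d → ℝ) (h : ℝ) (k : ℕ)
    (A : Finset (Site d)) (q0 : Site d → Site d) (w : Site d → Noise d) : ℝ :=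
  ∑ i ∈ evol c (fun l i => q0 i + walk (w i) (l * h)) A k,
        sgn (c i) * φ (q0 i + walk (w i) (k * h))

theorem Psi_measurable {d : ℕ} (c : Site d → Bool) (φ : Site d → ℝ) (h : ℝ) (k : ℕ)
    (A : Finset (Site d)) (q0 : Site d → Site d) : Measurable (Psi c φ h k A q0) := by
  classical
  let P : (Site d → Noise d) → (↥A × Fin (k + 1)) → Site d :=
    fun w p => walk (w p.1.1) ((p.2 : ℕ) * h)
  have hP : Measurable P := by
    rw [measurable_pi_iff]
    intro p
    exact (measurable_walk _).comp (measurable_pi_apply _)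
  let Q : ((↥A × Fin (k + 1)) → Site d) → ℕ → Site d → Site d := fun ρ l i =>
    if hh : i ∈ A ∧ l < k + 1 then q0 i + ρ (⟨i, hh.1⟩, ⟨l, hh.2⟩) else q0 i
  let G : ((↥A × Fin (k + 1)) → Site d) → ℝ := fun ρ =>
    ∑ i ∈ evol c (Q ρ) A k, sgn (c i) * φ (Q ρ k i)
  have hG : Measurable G := measurable_of_countable G
  have hPG : Psi c φ h k A q0 = G ∘ P := by
    funext w
    have h1 : ∀ l, l ≤ k → ∀ i ∈ A, q0 i + walk (w i) (l * h) = Q (P w) l i := by
      intro l hl i hi
      have h2 : i ∈ A ∧ l < k + 1 := ⟨hi, by omega⟩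
      simp only [Q, P, dif_pos h2]
    have h2 : evol c (fun l i => q0 i + walk (w i) (l * h)) A k = evol c (Q (P w)) A k :=
      evol_congr c _ _ A k fun l _ hl i hi => h1 l hl i hi
    show ∑ i ∈ _, _ = ∑ i ∈ _, _
    rw [h2]
    refine Finset.sum_congr rfl fun i hi => ?_
    rw [h1 k le_rfl i (evol_subset _ _ _ _ hi)]
  rw [hPG]
  exact hG.comp hP

theorem phi_meas {d : ℕ} (φ : Site d → ℝ) (x : Site d) (t : ℝ) :
    Measurable fun v : Noise d => φ (x + walk v t) :=
  (measurable_of_countable fun y : Site d => φ (x + y)).comp (measurable_walk t)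

theorem phi_int {d : ℕ} [NeZero d] (φ : Site d → ℝ) (C : ℝ) (hφ : ∀ x, |φ x| ≤ C) (x : Site d)
    (t : ℝ) : Integrable (fun v : Noise d => φ (x + walk v t)) (noiseLaw d) :=
  Integrable.of_bound (phi_meas φ x t).aestronglyMeasurable C
    (ae_of_all _ fun v => by rw [Real.norm_eq_abs]; exact hφ _)

theorem marginal (d : ℕ) [NeZero d] (i : Site d) (F : Noise d → ℝ) (hF : Measurable F) :
    ∫ w, F (w i) ∂(noises d) = ∫ v, F v ∂(noiseLaw d) := by
  have hmp : MeasurePreserving (Function.eval i) (noises d) (noiseLaw d) :=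
    measurePreserving_eval_infinitePi (fun _ : Site d => noiseLaw d) i
  conv_rhs => rw [← hmp.map_eq]
  rw [integral_map hmp.measurable.aemeasurable hF.aestronglyMeasurable]

theorem abs_sgn (b : Bool) : |sgn b| = 1 := by
  cases b <;> simp [sgn]

theorem Psi_bound {d : ℕ} (c : Site d → Bool) (φ : Site d → ℝ) (C : ℝ) (hφ : ∀ x, |φ x| ≤ C)
    (h : ℝ) (k : ℕ) (A : Finset (Site d)) (q0 : Site d → Site d) (w : Site d → Noise d) :
    ‖Psi c φ h k A q0 w‖ ≤ A.card * C := by
  have hC : 0 ≤ C := (abs_nonneg _).trans (hφ 0)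
  unfold Psi
  calc ‖∑ i ∈ evol c (fun l i => q0 i + walk (w i) (l * h)) A k,
        sgn (c i) * φ (q0 i + walk (w i) (k * h))‖
      ≤ ∑ i ∈ evol c (fun l i => q0 i + walk (w i) (l * h)) A k,
        ‖sgn (c i) * φ (q0 i + walk (w i) (k * h))‖ := norm_sum_le _ _
    _ ≤ ∑ i ∈ evol c (fun l i => q0 i + walk (w i) (l * h)) A k, C := by
        refine Finset.sum_le_sum fun i _ => ?_
        rw [Real.norm_eq_abs, abs_mul, abs_sgn, one_mul]
        exact hφ _
    _ = (evol c (fun l i => q0 i + walk (w i) (l * h)) A k).card * C := by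
        rw [Finset.sum_const, nsmul_eq_mul]
    _ ≤ A.card * C := by
        refine mul_le_mul_of_nonneg_right ?_ hC
        exact_mod_cast Finset.card_le_card (evol_subset c _ A k)

theorem ae_good_all (d : ℕ) [NeZero d] : ∀ᵐ w ∂(noises d), ∀ i, Good (w i) := by
  rw [ae_all_iff]
  intro i
  have hmp : MeasurePreserving (Function.eval i) (noises d) (noiseLaw d) :=
    measurePreserving_eval_infinitePi (fun _ : Site d => noiseLaw d) i
  exact hmp.quasiMeasurePreserving.ae (ae_good d)

theorem two_step (d : ℕ) [NeZero d] (φ : Site d → ℝ) (C : ℝ) (hφ : ∀ x, |φ x| ≤ C) (x : Site d)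
    {s t : ℝ} (hs : 0 ≤ s) (ht : 0 ≤ t) :
    ∫ v, φ (x + walk v (s + t)) ∂(noiseLaw d) =
      ∫ v, ∫ v', φ (x + walk v s + walk v' t) ∂(noiseLaw d) ∂(noiseLaw d) := by
  have hmp := measurePreserving_cat d hs
  have h1 : ∫ v, φ (x + walk v (s + t)) ∂(noiseLaw d) =
      ∫ z, φ (x + walk (cat s z.1 z.2) (s + t)) ∂((noiseLaw d).prod (noiseLaw d)) := by
    conv_lhs => rw [← hmp.map_eq]
    exact integral_map hmp.measurable.aemeasurable (phi_meas φ x (s + t)).aestronglyMeasurable
  have hg1 : ∀ᵐ z ∂((noiseLaw d).prod (noiseLaw d)), Good z.1 :=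
    Measure.quasiMeasurePreserving_fst.ae (ae_good d)
  have hg2 : ∀ᵐ z ∂((noiseLaw d).prod (noiseLaw d)), Good z.2 :=
    Measure.quasiMeasurePreserving_snd.ae (ae_good d)
  have hae : ∀ᵐ z ∂((noiseLaw d).prod (noiseLaw d)), φ (x + walk (cat s z.1 z.2) (s + t)) =
      φ (x + walk z.1 s + walk z.2 t) := by
    filter_upwards [hg1, hg2] with z hz1 hz2
    rw [walk_cat_add hz1 hz2 hs ht, add_assoc]
  have hint : Integrable (fun z : Noise d × Noise d => φ (x + walk (cat s z.1 z.2) (s + t)))
      ((noiseLaw d).prod (noiseLaw d)) :=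
    Integrable.of_bound ((phi_meas φ x (s + t)).comp hmp.measurable).aestronglyMeasurable C
      (ae_of_all _ fun v => by rw [Real.norm_eq_abs]; exact hφ _)
  rw [h1, integral_congr_ae hae, integral_prod _ (hint.congr hae)]

theorem Psi_step {d : ℕ} (c : Site d → Bool) (φ : Site d → ℝ) {h : ℝ} (hh : 0 ≤ h) (k : ℕ)
    (A : Finset (Site d)) (q0 : Site d → Site d) (w w' : Site d → Noise d)
    (hw : ∀ i, Good (w i)) (hw' : ∀ i, Good (w' i)) :
    Psi c φ h (k + 1) A q0 (fun i => cat h (w i) (w' i)) =
      Psi c φ h k (annihilate c (fun i => q0 i + walk (w i) h) A)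
        (fun i => q0 i + walk (w i) h) w' := by
  have hz : ∀ i, walk (w' i) 0 = 0 := by
    intro i
    unfold walk
    rw [jumps_zero (hw' i)]
    simp
  have hpos : ∀ l : ℕ, ∀ i, walk (cat h (w i) (w' i)) (((l + 1 : ℕ) : ℝ) * h) =
      walk (w i) h + walk (w' i) (l * h) := by
    intro l i
    have e : ((l + 1 : ℕ) : ℝ) * h = h + l * h := by push_cast; ring
    rw [e, walk_cat_add (hw i) (hw' i) hh (by positivity)]
  unfold Psi
  have h1 : evol c (fun l i => q0 i + walk (cat h (w i) (w' i)) (l * h)) A (k + 1) =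
      evol c (fun l i => q0 i + walk (w i) h + walk (w' i) (l * h))
        (annihilate c (fun i => q0 i + walk (w i) h) A) k := by
    rw [evol_shift]
    have e1 : (fun i => q0 i + walk (cat h (w i) (w' i)) (((1 : ℕ) : ℝ) * h)) =
        fun i => q0 i + walk (w i) h := by
      funext i
      have := hpos 0 i
      rw [zero_add, Nat.cast_zero, zero_mul, hz, add_zero] at this
      rw [this]
    have e2 : (fun l i => q0 i + walk (cat h (w i) (w' i)) (((l + 1 : ℕ) : ℝ) * h)) =
        fun (l : ℕ) i => q0 i + walk (w i) h + walk (w' i) (l * h) := by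
      funext l i
      rw [hpos, add_assoc]
    rw [e1, e2]
  rw [h1]
  refine Finset.sum_congr rfl fun i _ => ?_
  rw [hpos, add_assoc]

/- ======== TARGETS ======== -/

theorem charge_grid (d : ℕ) [NeZero d] (c : Site d → Bool) (φ : Site d → ℝ) (C : ℝ)
    (hφ : ∀ x, |φ x| ≤ C) {h : ℝ} (hh : 0 ≤ h) (k : ℕ) (A : Finset (Site d))
    (q0 : Site d → Site d) :
    ∫ w, ∑ i ∈ evol c (fun l i => q0 i + walk (w i) (l * h)) A k,
        sgn (c i) * φ (q0 i + walk (w i) (k * h)) ∂(noises d) =
      ∑ i ∈ A, sgn (c i) * ∫ v, φ (q0 i + walk v (k * h)) ∂(noiseLaw d) := by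
  have hC : 0 ≤ C := (abs_nonneg _).trans (hφ 0)
  have key : ∀ (k : ℕ) (A : Finset (Site d)) (q0 : Site d → Site d),
      ∫ w, Psi c φ h k A q0 w ∂(noises d) =
        ∑ i ∈ A, sgn (c i) * ∫ v, φ (q0 i + walk v (k * h)) ∂(noiseLaw d) := by
    intro k
    induction k with
    | zero =>
      intro A q0
      have e : (fun w => Psi c φ h 0 A q0 w) =
          fun w => ∑ i ∈ A, sgn (c i) * φ (q0 i + walk (w i) (((0 : ℕ) : ℝ) * h)) := rfl
      rw [e, integral_finsetSum]
      · refine Finset.sum_congr rfl fun i _ => ?_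
        rw [integral_const_mul]
        congr 1
        exact marginal d i _ (phi_meas φ (q0 i) _)
      · intro i _
        refine Integrable.const_mul ?_ _
        exact Integrable.of_bound
          ((phi_meas φ (q0 i) _).comp (measurable_pi_apply i)).aestronglyMeasurable C
          (ae_of_all _ fun v => by rw [Real.norm_eq_abs]; exact hφ _)
    | succ k ih =>
      intro A q0
      set Φ : Site d → ℝ := fun y => ∫ v, φ (y + walk v (k * h)) ∂(noiseLaw d) with hΦ
      have hΦb : ∀ y, |Φ y| ≤ C := by
        intro y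
        rw [← Real.norm_eq_abs]
        refine (norm_integral_le_of_norm_le_const (C := C)
          (ae_of_all _ fun v => by rw [Real.norm_eq_abs]; exact hφ _)).trans ?_
        simp
      have hmp : MeasurePreserving (fun z : (Site d → Noise d) × (Site d → Noise d) =>
          fun i => cat h (z.1 i) (z.2 i)) ((noises d).prod (noises d)) (noises d) :=
        measurePreserving_coord (noiseLaw d) (fun (_ : Site d) z => cat h z.1 z.2)
          (fun _ => measurePreserving_cat d hh)
      have h1 : ∫ w, Psi c φ h (k + 1) A q0 w ∂(noises d) =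
          ∫ z, Psi c φ h (k + 1) A q0 (fun i => cat h (z.1 i) (z.2 i))
            ∂((noises d).prod (noises d)) := by
        conv_lhs => rw [← hmp.map_eq]
        exact integral_map hmp.measurable.aemeasurable
          (Psi_measurable c φ h (k + 1) A q0).aestronglyMeasurable
      have hg1 : ∀ᵐ z ∂((noises d).prod (noises d)), ∀ i, Good (z.1 i) :=
        Measure.quasiMeasurePreserving_fst.ae (ae_good_all d)
      have hg2 : ∀ᵐ z ∂((noises d).prod (noises d)), ∀ i, Good (z.2 i) :=
        Measure.quasiMeasurePreserving_snd.ae (ae_good_all d)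
      have hae : ∀ᵐ z ∂((noises d).prod (noises d)),
          Psi c φ h (k + 1) A q0 (fun i => cat h (z.1 i) (z.2 i)) =
          Psi c φ h k (annihilate c (fun i => q0 i + walk (z.1 i) h) A)
            (fun i => q0 i + walk (z.1 i) h) z.2 := by
        filter_upwards [hg1, hg2] with z hz1 hz2
        exact Psi_step c φ hh k A q0 z.1 z.2 hz1 hz2
      have hint : Integrable (fun z : (Site d → Noise d) × (Site d → Noise d) =>
          Psi c φ h (k + 1) A q0 (fun i => cat h (z.1 i) (z.2 i)))
          ((noises d).prod (noises d)) :=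
        Integrable.of_bound
          ((Psi_measurable c φ h (k + 1) A q0).comp hmp.measurable).aestronglyMeasurable
          (A.card * C) (ae_of_all _ fun z => Psi_bound c φ C hφ h (k + 1) A q0 _)
      rw [h1, integral_congr_ae hae, integral_prod _ (hint.congr hae)]
      have h2 : ∀ x : Site d → Noise d,
          ∫ y, Psi c φ h k (annihilate c (fun i => q0 i + walk ((x, y).1 i) h) A)
            (fun i => q0 i + walk ((x, y).1 i) h) (x, y).2 ∂(noises d) =
          ∑ i ∈ A, sgn (c i) * Φ (q0 i + walk (x i) h) := by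
        intro x
        rw [← ann_charge c (fun i => q0 i + walk (x i) h) A Φ]
        exact ih (annihilate c (fun i => q0 i + walk (x i) h) A)
          (fun i => q0 i + walk (x i) h)
      rw [integral_congr_ae (ae_of_all _ h2), integral_finsetSum]
      · refine Finset.sum_congr rfl fun i _ => ?_
        rw [integral_const_mul]
        congr 1
        rw [marginal d i (fun v => Φ (q0 i + walk v h)) (phi_meas Φ (q0 i) h)]
        have e : ((k + 1 : ℕ) : ℝ) * h = h + k * h := by push_cast; ring
        rw [e, two_step d φ C hφ (q0 i) hh (by positivity)]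
      · intro i _
        refine Integrable.const_mul ?_ _
        exact Integrable.of_bound
          ((phi_meas Φ (q0 i) _).comp (measurable_pi_apply i)).aestronglyMeasurable C
          (ae_of_all _ fun v => by rw [Real.norm_eq_abs]; exact hΦb _)
  exact key k A q0

end Pool.Agent.H285
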