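import Pool.Agent.H285.Base2
import Pool.Agent.H285.AW05
import Pool.Agent.H285.AW09
import Pool.Agent.H285.AW02

/-!
# AW15 (MP_0e9fac_pr)
-/



open MeasureTheory ProbabilityTheory Filter Topology

namespace Pool.Agent.H285


/- ======== TARGETS ======== -/

/-- The number of visits to the checked sites. -/
noncomputable def visits {d : ℕ} (γ : ℕ → Option (Site d)) (x : Site d) (h : ℝ) (k : ℕ)
    (v : Noise d) : ℝ :=
  ∑ l ∈ Finset.range k, if γ (l + 1) = some (x + walk v ((l + 1 : ℕ) * h)) then 1 else 0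

section AW15

set_option linter.unusedSectionVars false
set_option linter.unusedVariables false

instance aw15_prob_noiseLaw (d : ℕ) [NeZero d] : IsProbabilityMeasure (noiseLaw d) := by
  unfold noiseLaw
  have h1 : IsProbabilityMeasure (expMeasure 1) := isProbabilityMeasure_expMeasure one_pos
  have h2 : IsProbabilityMeasure (uniformOn (Set.univ : Set (Dir d))) :=
    isProbabilityMeasure_uniformOn Set.finite_univ Set.univ_nonempty
  infer_instance

instance aw15_prob_noises (d : ℕ) [NeZero d] : IsProbabilityMeasure (noises d) := by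
  unfold noises
  infer_instance

/-- bounded measurable functions are integrable -/
theorem aw15_int {Ω : Type*} [MeasurableSpace Ω] {μ : Measure Ω} [IsProbabilityMeasure μ]
    {F : Ω → ℝ} (hF : Measurable F) (C : ℝ) (h0 : ∀ x, 0 ≤ F x) (h1 : ∀ x, F x ≤ C) :
    Integrable F μ :=
  Integrable.of_bound hF.aestronglyMeasurable C (ae_of_all _ fun x => by
    rw [Real.norm_eq_abs, abs_of_nonneg (h0 x)]
    exact h1 x)

theorem aw15_int_le {Ω : Type*} [MeasurableSpace Ω] {μ : Measure Ω} [IsProbabilityMeasure μ]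
    {F : Ω → ℝ} (hF : Measurable F) (C : ℝ) (h0 : ∀ x, 0 ≤ F x) (h1 : ∀ x, F x ≤ C) :
    ∫ x, F x ∂μ ≤ C := by
  have h2 := integral_mono (aw15_int (μ := μ) hF C h0 h1) (integrable_const C) h1
  simpa using h2

/-- the second moment is at least the square of the first -/
theorem aw15_sq {Ω : Type*} [MeasurableSpace Ω] {μ : Measure Ω} [IsProbabilityMeasure μ]
    {F : Ω → ℝ} (hF : Measurable F) (C : ℝ) (h0 : ∀ x, 0 ≤ F x) (h1 : ∀ x, F x ≤ C) :
    (∫ x, F x ∂μ) ^ 2 ≤ ∫ x, F x ^ 2 ∂μ := by
  set c := ∫ x, F x ∂μ with hc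
  have i1 := aw15_int (μ := μ) hF C h0 h1
  have i2 : Integrable (fun x => F x ^ 2) μ := aw15_int (hF.pow_const 2) (C ^ 2) (fun x => sq_nonneg _)
    (fun x => pow_le_pow_left₀ (h0 x) (h1 x) 2)
  have h3 : 0 ≤ ∫ x, (F x - c) ^ 2 ∂μ := integral_nonneg fun x => sq_nonneg _
  have h4 : ∫ x, (F x - c) ^ 2 ∂μ = ∫ x, (F x ^ 2 - 2 * c * F x + c ^ 2) ∂μ := by
    congr 1
    funext x
    ring
  have i3 : Integrable (fun x => F x ^ 2 - 2 * c * F x) μ := i2.sub (i1.const_mul _)
  rw [h4, integral_add i3 (integrable_const _), integral_sub i2 (i1.const_mul _),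
    integral_const_mul, integral_const] at h3
  simp only [probReal_univ, one_smul] at h3
  rw [← hc] at h3
  nlinarith

variable {d : ℕ}

theorem aw15_meas_walk {β : Type*} [MeasurableSpace β] (F : Site d → β) (t : ℝ) :
    Measurable (fun v : Noise d => F (walk v t)) :=
  (Measurable.of_discrete (f := F)).comp (measurable_walk t)

theorem aw15_visits_meas (γ : ℕ → Option (Site d)) (x : Site d) (h : ℝ) (k : ℕ) :
    Measurable (fun v : Noise d => visits γ x h k v) := by
  unfold visits
  apply Finset.measurable_sum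
  intro l _
  exact aw15_meas_walk (fun y => if γ (l + 1) = some (x + y) then (1 : ℝ) else 0) _

theorem aw15_visits_nonneg (γ : ℕ → Option (Site d)) (x : Site d) (h : ℝ) (k : ℕ) (v : Noise d) :
    0 ≤ visits γ x h k v := by
  unfold visits
  apply Finset.sum_nonneg
  intro l _
  split_ifs <;> norm_num

theorem aw15_visits_le (γ : ℕ → Option (Site d)) (x : Site d) (h : ℝ) (k : ℕ) (v : Noise d) :
    visits γ x h k v ≤ k := by
  unfold visits
  calc _ ≤ ∑ l ∈ Finset.range k, (1 : ℝ) := by
        apply Finset.sum_le_sum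
        intro l _
        split_ifs <;> norm_num
    _ = k := by simp

/-- the indicator of a hit at the first checked time -/
def aw15_a (γ : ℕ → Option (Site d)) (y : Site d) : ℝ := if γ 1 = some y then 1 else 0

theorem aw15_a_nonneg (γ : ℕ → Option (Site d)) (y : Site d) : 0 ≤ aw15_a γ y := by
  unfold aw15_a; split_ifs <;> norm_num

theorem aw15_a_le (γ : ℕ → Option (Site d)) (y : Site d) : aw15_a γ y ≤ 1 := by
  unfold aw15_a; split_ifs <;> norm_num

theorem aw15_visits_cat (γ : ℕ → Option (Site d)) (x : Site d) {h : ℝ} (hh : 0 ≤ h) (k : ℕ)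
    {v v' : Noise d} (hv : Good v) (hv' : Good v') :
    visits γ x h (k + 1) (cat h v v') =
      aw15_a γ (x + walk v h) + visits (fun l => γ (l + 1)) (x + walk v h) h k v' := by
  unfold visits
  rw [Finset.sum_range_succ', add_comm]
  congr 1
  · unfold aw15_a
    have e1 : walk (cat h v v') (((0 + 1 : ℕ) : ℝ) * h) = walk v h := by
      rw [walk_cat_le hv hv' (by positivity) (by simp)]
      simp
    rw [e1]
  · apply Finset.sum_congr rfl
    intro l _
    have e1 : (((l + 1 + 1 : ℕ) : ℝ) * h) = h + ((l + 1 : ℕ) : ℝ) * h := by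
      push_cast; ring
    rw [e1, walk_cat_add hv hv' hh (by positivity)]
    have e2 : x + (walk v h + walk v' (((l + 1 : ℕ) : ℝ) * h)) = x + walk v h + walk v' (((l + 1 : ℕ) : ℝ) * h) :=
      (add_assoc _ _ _).symm
    rw [e2]

variable [NeZero d]

/-- the integral over a concatenation -/
theorem aw15_int_cat {h : ℝ} (hh : 0 ≤ h) {F : Noise d → ℝ} (hF : Measurable F) (C : ℝ)
    (h0 : ∀ x, 0 ≤ F x) (h1 : ∀ x, F x ≤ C) (Z : Noise d → Noise d → ℝ)
    (hZ : ∀ v v', Good v → Good v' → F (cat h v v') = Z v v') :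
    ∫ v, F v ∂(noiseLaw d) = ∫ v, ∫ v', Z v v' ∂(noiseLaw d) ∂(noiseLaw d) := by
  have hmp := measurePreserving_cat d hh
  have e1 : ∫ v, F v ∂(noiseLaw d) = ∫ z, F (cat h z.1 z.2) ∂((noiseLaw d).prod (noiseLaw d)) := by
    conv_lhs => rw [← hmp.map_eq]
    exact integral_map hmp.measurable.aemeasurable hF.aestronglyMeasurable
  rw [e1, integral_prod]
  · apply integral_congr_ae
    filter_upwards [ae_good d] with v hv
    apply integral_congr_ae
    filter_upwards [ae_good d] with v' hv'
    exact hZ v v' hv hv'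
  · exact aw15_int (F := fun z : Noise d × Noise d => F (cat h z.1 z.2)) (hF.comp hmp.measurable) C
      (fun z => h0 _) (fun z => h1 _)

/-- the factor of one particle -/
noncomputable def aw15_f (lam h : ℝ) (k : ℕ) (γ : ℕ → Option (Site d)) (b : Bool) (x : Site d) : ℝ :=
  if b then
    1 - lam * (∫ v, visits γ x h k v ∂(noiseLaw d)) + lam ^ 2 * ∫ v, visits γ x h k v ^ 2 ∂(noiseLaw d)
  else 1 + lam * ∫ v, visits γ x h k v ∂(noiseLaw d)

/-- the factor after the first step -/
noncomputable def aw15_g (lam h : ℝ) (k : ℕ) (γ : ℕ → Option (Site d)) (b : Bool) (y : Site d) : ℝ :=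
  if b then
    1 - lam * (∫ v, (aw15_a γ y + visits (fun l => γ (l + 1)) y h k v) ∂(noiseLaw d)) +
      lam ^ 2 * ∫ v, (aw15_a γ y + visits (fun l => γ (l + 1)) y h k v) ^ 2 ∂(noiseLaw d)
  else 1 + lam * ∫ v, (aw15_a γ y + visits (fun l => γ (l + 1)) y h k v) ∂(noiseLaw d)

section facts

variable (lam h : ℝ) (k : ℕ) (γ : ℕ → Option (Site d))

/-- first moment -/
noncomputable def aw15_m1 (y : Site d) : ℝ :=
  ∫ v, (aw15_a γ y + visits (fun l => γ (l + 1)) y h k v) ∂(noiseLaw d)

/-- second moment -/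
noncomputable def aw15_m2 (y : Site d) : ℝ :=
  ∫ v, (aw15_a γ y + visits (fun l => γ (l + 1)) y h k v) ^ 2 ∂(noiseLaw d)

theorem aw15_Z_meas (y : Site d) :
    Measurable (fun v : Noise d => aw15_a γ y + visits (fun l => γ (l + 1)) y h k v) :=
  (aw15_visits_meas _ _ _ _).const_add _

theorem aw15_Z_nonneg (y : Site d) (v : Noise d) :
    0 ≤ aw15_a γ y + visits (fun l => γ (l + 1)) y h k v :=
  add_nonneg (aw15_a_nonneg _ _) (aw15_visits_nonneg _ _ _ _ _)

theorem aw15_Z_le (y : Site d) (v : Noise d) :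
    aw15_a γ y + visits (fun l => γ (l + 1)) y h k v ≤ 1 + k :=
  add_le_add (aw15_a_le _ _) (aw15_visits_le _ _ _ _ _)

theorem aw15_m1_nonneg (y : Site d) : 0 ≤ aw15_m1 h k γ y :=
  integral_nonneg fun v => aw15_Z_nonneg h k γ y v

theorem aw15_m1_le (y : Site d) : aw15_m1 h k γ y ≤ 1 + k :=
  aw15_int_le (aw15_Z_meas h k γ y) _ (aw15_Z_nonneg h k γ y) (aw15_Z_le h k γ y)

theorem aw15_m2_nonneg (y : Site d) : 0 ≤ aw15_m2 h k γ y :=
  integral_nonneg fun v => sq_nonneg _

theorem aw15_m2_le (y : Site d) : aw15_m2 h k γ y ≤ (1 + k) ^ 2 :=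
  aw15_int_le ((aw15_Z_meas h k γ y).pow_const 2) _ (fun v => sq_nonneg _)
    (fun v => pow_le_pow_left₀ (aw15_Z_nonneg h k γ y v) (aw15_Z_le h k γ y v) 2)

theorem aw15_m_sq (y : Site d) : aw15_m1 h k γ y ^ 2 ≤ aw15_m2 h k γ y :=
  aw15_sq (aw15_Z_meas h k γ y) _ (aw15_Z_nonneg h k γ y) (aw15_Z_le h k γ y)

theorem aw15_g_true (y : Site d) : aw15_g lam h k γ true y =
    1 - lam * aw15_m1 h k γ y + lam ^ 2 * aw15_m2 h k γ y := rfl

theorem aw15_g_false (y : Site d) : aw15_g lam h k γ false y = 1 + lam * aw15_m1 h k γ y := rfl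

variable {lam} (hlam : 0 ≤ lam)
include hlam

theorem aw15_g_true_ge (y : Site d) : 1 - lam * aw15_m1 h k γ y + (lam * aw15_m1 h k γ y) ^ 2 ≤
    aw15_g lam h k γ true y := by
  rw [aw15_g_true, mul_pow]
  have := mul_le_mul_of_nonneg_left (aw15_m_sq h k γ y) (sq_nonneg lam)
  linarith

theorem aw15_g_nonneg (b : Bool) (y : Site d) : 0 ≤ aw15_g lam h k γ b y := by
  cases b
  · rw [aw15_g_false]
    have := mul_nonneg hlam (aw15_m1_nonneg h k γ y)
    linarith
  · have := aw15_g_true_ge h k γ hlam y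
    nlinarith [sq_nonneg (lam * aw15_m1 h k γ y - 1)]

theorem aw15_g_le (b : Bool) (y : Site d) : aw15_g lam h k γ b y ≤
    1 + lam * (1 + k) + lam ^ 2 * (1 + k) ^ 2 := by
  have e1 := mul_nonneg hlam (aw15_m1_nonneg h k γ y)
  have e2 := mul_le_mul_of_nonneg_left (aw15_m1_le h k γ y) hlam
  have e3 := mul_le_mul_of_nonneg_left (aw15_m2_le h k γ y) (sq_nonneg lam)
  have e4 : 0 ≤ lam ^ 2 * (1 + (k : ℝ)) ^ 2 := by positivity
  cases b
  · rw [aw15_g_false]
    linarith
  · rw [aw15_g_true]
    have e5 : 0 ≤ lam * (1 + (k : ℝ)) := by positivity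
    linarith

theorem aw15_g_prod (y : Site d) : 1 ≤ aw15_g lam h k γ true y * aw15_g lam h k γ false y := by
  have e1 := mul_nonneg hlam (aw15_m1_nonneg h k γ y)
  have e2 := aw15_g_true_ge h k γ hlam y
  rw [aw15_g_false]
  have e3 : (1 - lam * aw15_m1 h k γ y + (lam * aw15_m1 h k γ y) ^ 2) * (1 + lam * aw15_m1 h k γ y) ≤
      aw15_g lam h k γ true y * (1 + lam * aw15_m1 h k γ y) :=
    mul_le_mul_of_nonneg_right e2 (by linarith)
  have e4 : (1 - lam * aw15_m1 h k γ y + (lam * aw15_m1 h k γ y) ^ 2) * (1 + lam * aw15_m1 h k γ y) =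
      1 + (lam * aw15_m1 h k γ y) ^ 3 := by ring
  have e5 : 0 ≤ (lam * aw15_m1 h k γ y) ^ 3 := by positivity
  linarith

end facts

theorem aw15_f_zero_shift (lam h : ℝ) (k : ℕ) (γ : ℕ → Option (Site d)) (y : Site d) (b : Bool)
    (ha : aw15_a γ y = 0) : aw15_f lam h k (fun l => γ (l + 1)) b y = aw15_g lam h k γ b y := by
  unfold aw15_f aw15_g
  simp only [ha, zero_add]

theorem aw15_f_false_le {lam : ℝ} (hlam : 0 ≤ lam) (h : ℝ) (k : ℕ) (γ : ℕ → Option (Site d)) (y : Site d) :
    aw15_f lam h k (fun l => γ (l + 1)) false y ≤ aw15_g lam h k γ false y := by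
  unfold aw15_f aw15_g
  simp only [Bool.false_eq_true, if_false]
  have e1 : ∫ v, visits (fun l => γ (l + 1)) y h k v ∂(noiseLaw d) ≤
      ∫ v, (aw15_a γ y + visits (fun l => γ (l + 1)) y h k v) ∂(noiseLaw d) := by
    apply integral_mono
    · exact aw15_int (aw15_visits_meas _ _ _ _) k (aw15_visits_nonneg _ _ _ _) (aw15_visits_le _ _ _ _)
    · exact aw15_int (aw15_Z_meas h k γ y) _ (aw15_Z_nonneg h k γ y) (aw15_Z_le h k γ y)
    · intro v
      simp only
      linarith [aw15_a_nonneg γ y]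
  have := mul_le_mul_of_nonneg_left e1 hlam
  linarith

theorem aw15_f_nonneg {lam : ℝ} (hlam : 0 ≤ lam) (h : ℝ) (k : ℕ) (γ : ℕ → Option (Site d)) (b : Bool)
    (y : Site d) : 0 ≤ aw15_f lam h k γ b y := by
  have e0 := aw15_visits_meas γ y h k
  have e1 : 0 ≤ ∫ v, visits γ y h k v ∂(noiseLaw d) := integral_nonneg fun v => aw15_visits_nonneg _ _ _ _ _
  have e2 := aw15_sq (μ := noiseLaw d) e0 k (aw15_visits_nonneg _ _ _ _) (aw15_visits_le _ _ _ _)
  have e3 := mul_nonneg hlam e1
  have e4 := mul_le_mul_of_nonneg_left e2 (sq_nonneg lam)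
  unfold aw15_f
  split_ifs
  · rw [← mul_pow] at e4
    nlinarith [sq_nonneg (lam * (∫ v, visits γ y h k v ∂(noiseLaw d)) - 1)]
  · linarith

/-- one step for one particle -/
theorem aw15_f_succ (lam : ℝ) {h : ℝ} (hh : 0 ≤ h) (k : ℕ) (γ : ℕ → Option (Site d)) (b : Bool)
    (x : Site d) :
    ∫ v, aw15_g lam h k γ b (x + walk v h) ∂(noiseLaw d) = aw15_f lam h (k + 1) γ b x := by
  have e1 : ∫ v, visits γ x h (k + 1) v ∂(noiseLaw d) = ∫ v, aw15_m1 h k γ (x + walk v h) ∂(noiseLaw d) :=
    aw15_int_cat hh (aw15_visits_meas _ _ _ _) _ (aw15_visits_nonneg _ _ _ _) (aw15_visits_le _ _ _ _) _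
      (fun v v' hv hv' => aw15_visits_cat γ x hh k hv hv')
  have e2 : ∫ v, visits γ x h (k + 1) v ^ 2 ∂(noiseLaw d) = ∫ v, aw15_m2 h k γ (x + walk v h) ∂(noiseLaw d) :=
    aw15_int_cat hh ((aw15_visits_meas _ _ _ _).pow_const 2) (((k + 1 : ℕ) : ℝ) ^ 2) (fun v => sq_nonneg _)
      (fun v => pow_le_pow_left₀ (aw15_visits_nonneg _ _ _ _ _) (aw15_visits_le _ _ _ _ _) 2) _
      (fun v v' hv hv' => by rw [aw15_visits_cat γ x hh k hv hv'])
  have i1 : Integrable (fun v => aw15_m1 h k γ (x + walk v h)) (noiseLaw d) :=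
    aw15_int (aw15_meas_walk (fun z => aw15_m1 h k γ (x + z)) h) _ (fun v => aw15_m1_nonneg _ _ _ _)
      (fun v => aw15_m1_le _ _ _ _)
  have i2 : Integrable (fun v => aw15_m2 h k γ (x + walk v h)) (noiseLaw d) :=
    aw15_int (aw15_meas_walk (fun z => aw15_m2 h k γ (x + z)) h) _ (fun v => aw15_m2_nonneg _ _ _ _)
      (fun v => aw15_m2_le _ _ _ _)
  cases b
  · unfold aw15_f
    simp only [Bool.false_eq_true, if_false, aw15_g_false]
    rw [integral_add (integrable_const _) (i1.const_mul _), integral_const, integral_const_mul, e1]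
    simp
  · unfold aw15_f
    simp only [if_true, aw15_g_true]
    have i3 : Integrable (fun v => 1 - lam * aw15_m1 h k γ (x + walk v h)) (noiseLaw d) :=
      (integrable_const _).sub (i1.const_mul _)
    rw [integral_add i3 (i2.const_mul _),
      integral_sub (integrable_const _) (i1.const_mul _), integral_const, integral_const_mul,
      integral_const_mul, e1, e2]
    simp

/-- the event -/
def aw15_Ev (c : Site d → Bool) (h : ℝ) (k : ℕ) (γ : ℕ → Option (Site d)) (A : Finset (Site d))
    (q0 : Site d → Site d) : Set (Site d → Noise d) :=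
  {w | ∀ l, 1 ≤ l → l ≤ k →
        ∀ i ∈ evol c (fun l i => q0 i + walk (w i) (l * h)) A l, c i = true →
          γ l ≠ some (q0 i + walk (w i) (l * h))}

omit [NeZero d] in
theorem aw15_evol_sub (c : Site d → Bool) (q : ℕ → Site d → Site d) (A : Finset (Site d)) (l : ℕ) :
    evol c q A l ⊆ A := by
  induction l with
  | zero => exact subset_rfl
  | succ l ih => exact (ann_subset _ _ _).trans ih

omit [NeZero d] in
theorem aw15_evol_congr (c : Site d → Bool) (q q' : ℕ → Site d → Site d) (A : Finset (Site d)) (l : ℕ)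
    (hq : ∀ m ≤ l, ∀ i ∈ A, q m i = q' m i) : evol c q A l = evol c q' A l := by
  induction l with
  | zero => rfl
  | succ l ih =>
    have h1 := ih (fun m hm => hq m (by omega))
    show annihilate c (q (l + 1)) (evol c q A l) = annihilate c (q' (l + 1)) (evol c q' A l)
    rw [h1]
    apply ann_congr (fun _ _ => rfl)
    intro i hi
    exact hq _ le_rfl i (aw15_evol_sub c q' A l hi)

omit [NeZero d] in
theorem aw15_evol_shift (c : Site d → Bool) (q : ℕ → Site d → Site d) (A : Finset (Site d)) (l : ℕ) :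
    evol c q A (l + 1) = evol c (fun m => q (m + 1)) (annihilate c (q 1) A) l := by
  induction l with
  | zero => rfl
  | succ l ih =>
    show annihilate c (q (l + 1 + 1)) (evol c q A (l + 1)) = _
    rw [ih]
    rfl

omit [NeZero d] in
theorem aw15_Ev_meas (c : Site d → Bool) (h : ℝ) (k : ℕ) (γ : ℕ → Option (Site d)) (A : Finset (Site d))
    (q0 : Site d → Site d) : MeasurableSet (aw15_Ev c h k γ A q0) := by
  classical
  let Φ : (Site d → Noise d) → (Fin (k + 1) → A → Site d) := fun w l i => walk (w i) ((l : ℕ) * h)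
  have hΦ : Measurable Φ := by
    apply measurable_pi_lambda
    intro l
    apply measurable_pi_lambda
    intro i
    exact (measurable_walk _).comp (measurable_pi_apply _)
  let ext : (Fin (k + 1) → A → Site d) → ℕ → Site d → Site d := fun φ l i =>
    if hl : l < k + 1 ∧ i ∈ A then q0 i + φ ⟨l, hl.1⟩ ⟨i, hl.2⟩ else 0
  have hext : ∀ w : Site d → Noise d, ∀ l ≤ k, ∀ i ∈ A,
      q0 i + walk (w i) (l * h) = ext (Φ w) l i := by
    intro w l hl i hi
    have : l < k + 1 ∧ i ∈ A := ⟨by omega, hi⟩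
    simp only [ext, Φ, dif_pos this]
  let S : Set (Fin (k + 1) → A → Site d) := {φ | ∀ l, 1 ≤ l → l ≤ k →
        ∀ i ∈ evol c (ext φ) A l, c i = true → γ l ≠ some (ext φ l i)}
  have hEq : aw15_Ev c h k γ A q0 = Φ ⁻¹' S := by
    ext w
    have hev : ∀ l ≤ k, evol c (fun l i => q0 i + walk (w i) (l * h)) A l = evol c (ext (Φ w)) A l := by
      intro l hl
      apply aw15_evol_congr
      intro m hm i hi
      exact hext w m (by omega) i hi
    constructor
    · intro hw l h1 hl i hi hc
      rw [← hev l hl] at hi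
      rw [← hext w l hl i (aw15_evol_sub _ _ _ _ hi)]
      exact hw l h1 hl i hi hc
    · intro hw l h1 hl i hi hc
      have hi' := hi
      rw [hev l hl] at hi'
      have := hw l h1 hl i hi' hc
      rw [← hext w l hl i (aw15_evol_sub _ _ _ _ hi)] at this
      exact this
  rw [hEq]
  exact hΦ MeasurableSet.of_discrete

omit [NeZero d] in
theorem aw15_Ev_cat (c : Site d → Bool) {h : ℝ} (hh : 0 ≤ h) (k : ℕ) (γ : ℕ → Option (Site d))
    (A : Finset (Site d)) (q0 : Site d → Site d) {w w' : Site d → Noise d}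
    (hw : ∀ i, Good (w i)) (hw' : ∀ i, Good (w' i)) :
    catAll h w w' ∈ aw15_Ev c h (k + 1) γ A q0 ↔
      (∀ i ∈ annihilate c (fun i => q0 i + walk (w i) h) A, c i = true →
        γ 1 ≠ some (q0 i + walk (w i) h)) ∧
      w' ∈ aw15_Ev c h k (fun l => γ (l + 1)) (annihilate c (fun i => q0 i + walk (w i) h) A)
        (fun i => q0 i + walk (w i) h) := by
  have e1 : ∀ (l : ℕ) (i : Site d), q0 i + walk (catAll h w w' i) (((l + 1 : ℕ) : ℝ) * h) =
      q0 i + walk (w i) h + walk (w' i) (l * h) := by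
    intro l i
    have e2 : (((l + 1 : ℕ) : ℝ) * h) = h + (l : ℝ) * h := by push_cast; ring
    rw [e2, catAll, walk_cat_add (hw i) (hw' i) hh (by positivity), add_assoc]
  have e0 : ∀ i : Site d, q0 i + walk (catAll h w w' i) (((1 : ℕ) : ℝ) * h) = q0 i + walk (w i) h := by
    intro i
    rw [catAll, walk_cat_le (hw i) (hw' i) (by positivity) (by simp)]
    simp
  have e3 : ∀ l : ℕ, evol c (fun l i => q0 i + walk (catAll h w w' i) (l * h)) A (l + 1) =
      evol c (fun l i => q0 i + walk (w i) h + walk (w' i) (l * h))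
        (annihilate c (fun i => q0 i + walk (w i) h) A) l := by
    intro l
    rw [aw15_evol_shift]
    have e4 : (fun m => (fun (l : ℕ) i => q0 i + walk (catAll h w w' i) (l * h)) (m + 1)) =
        (fun (l : ℕ) i => q0 i + walk (w i) h + walk (w' i) (l * h)) := by
      funext m i
      exact e1 m i
    have e5 : (fun i => q0 i + walk (catAll h w w' i) (((1 : ℕ) : ℝ) * h)) =
        (fun i => q0 i + walk (w i) h) := by
      funext i
      exact e0 i
    rw [e4]
    show evol c _ (annihilate c (fun i => q0 i + walk (catAll h w w' i) (((1 : ℕ) : ℝ) * h)) A) l = _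
    rw [e5]
  constructor
  · intro H
    refine ⟨?_, ?_⟩
    · intro i hi hc
      have h1 := H 1 le_rfl (by omega) i (by rw [e3 0]; exact hi) hc
      rwa [e0 i] at h1
    · intro l h1 hl i hi hc
      have h2 := H (l + 1) (by omega) (by omega) i (by rw [e3 l]; exact hi) hc
      rwa [e1 l i] at h2
  · rintro ⟨H1, H2⟩ l h1 hl i hi hc
    rcases Nat.lt_or_ge 1 l with h2 | h2
    · obtain ⟨m, rfl⟩ : ∃ m, l = m + 1 := ⟨l - 1, by omega⟩
      rw [e3 m] at hi
      have h3 := H2 m (by omega) (by omega) i hi hc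
      rw [e1 m i]
      exact h3
    · have h3 : l = 1 := by omega
      subst h3
      have h4 := e3 0
      rw [h4] at hi
      rw [e0 i]
      exact H1 i hi hc

theorem aw15_ae_good : ∀ᵐ w ∂(noises d), ∀ i, Good (w i) := by
  rw [ae_all_iff]
  intro i
  have h1 : Measure.QuasiMeasurePreserving (fun w : Site d → Noise d => w i) (noises d) (noiseLaw d) :=
    (measurePreserving_eval_infinitePi (fun _ : Site d => noiseLaw d) i).quasiMeasurePreserving
  exact h1.ae (ae_good d)

/-- independence -/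
theorem aw15_indep (A : Finset (Site d)) (G : Site d → Noise d → ℝ) (hG : ∀ i, Measurable (G i)) :
    ∫ w, ∏ i ∈ A, G i (w i) ∂(noises d) = ∏ i ∈ A, ∫ v, G i v ∂(noiseLaw d) := by
  have h1 : iIndepFun (fun (i : Site d) (w : Site d → Noise d) => G i (w i)) (noises d) :=
    iIndepFun_infinitePi hG
  have h2 : iIndepFun (fun (i : A) (w : Site d → Noise d) => G i (w i)) (noises d) :=
    h1.precomp (g := fun i : A => (i : Site d)) Subtype.val_injective
  have h3 := h2.integral_fun_prod_eq_prod_integral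
    (fun i => ((hG i).comp (measurable_pi_apply (i : Site d))).aestronglyMeasurable)
  have h4 : ∀ w : Site d → Noise d, ∏ i ∈ A, G i (w i) = ∏ i : A, G i (w i) := fun w =>
    (Finset.prod_coe_sort A (fun i => G i (w i))).symm
  simp_rw [h4]
  rw [h3, ← Finset.prod_coe_sort A]
  apply Finset.prod_congr rfl
  intro i _
  have hmp := measurePreserving_eval_infinitePi (fun _ : Site d => noiseLaw d) (i : Site d)
  have h5 : ∫ v, G i v ∂(noiseLaw d) = ∫ v, G i v ∂(Measure.map (Function.eval (i : Site d)) (noises d)) := by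
    rw [show Measure.map (Function.eval (i : Site d)) (noises d) = noiseLaw d from hmp.map_eq]
  rw [h5, integral_map (measurable_pi_apply (i : Site d)).aemeasurable (hG i).aestronglyMeasurable]

theorem aw15_main (c : Site d → Bool) {h : ℝ} (hh : 0 ≤ h) {lam : ℝ} (hlam : 0 ≤ lam) (k : ℕ) :
    ∀ (γ : ℕ → Option (Site d)) (A : Finset (Site d)) (q0 : Site d → Site d),
      (noises d).real (aw15_Ev c h k γ A q0) ≤ ∏ i ∈ A, aw15_f lam h k γ (c i) (q0 i) := by
  induction k with
  | zero =>
    intro γ A q0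
    have h1 : ∀ i ∈ A, aw15_f lam h 0 γ (c i) (q0 i) = 1 := by
      intro i _
      unfold aw15_f visits
      simp
    rw [Finset.prod_congr rfl h1, Finset.prod_const_one]
    exact measureReal_le_one
  | succ k ih =>
    intro γ A q0
    set G : (Site d → Noise d) → ℝ := fun w => ∏ i ∈ A, aw15_g lam h k γ (c i) (q0 i + walk (w i) h) with hG
    set C : ℝ := 1 + lam * (1 + k) + lam ^ 2 * (1 + k) ^ 2 with hC
    have hGm : Measurable G := by
      apply Finset.measurable_prod
      intro i _
      exact (aw15_meas_walk (fun z => aw15_g lam h k γ (c i) (q0 i + z)) h).comp (measurable_pi_apply i)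
    have hG0 : ∀ w, 0 ≤ G w := fun w => Finset.prod_nonneg fun i _ => aw15_g_nonneg h k γ hlam _ _
    have hGC : ∀ w, G w ≤ C ^ A.card := by
      intro w
      rw [← Finset.prod_const]
      exact Finset.prod_le_prod (fun i _ => aw15_g_nonneg h k γ hlam _ _) (fun i _ => aw15_g_le h k γ hlam _ _)
    have hGint : Integrable G (noises d) := aw15_int hGm _ hG0 hGC
    have hint : ∫ w, G w ∂(noises d) = ∏ i ∈ A, aw15_f lam h (k + 1) γ (c i) (q0 i) := by
      have h1 := aw15_indep A (fun i v => aw15_g lam h k γ (c i) (q0 i + walk v h))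
        (fun i => aw15_meas_walk (fun z => aw15_g lam h k γ (c i) (q0 i + z)) h)
      rw [hG, h1]
      exact Finset.prod_congr rfl fun i _ => aw15_f_succ lam hh k γ (c i) (q0 i)
    -- the measure preserving map
    have hmp : MeasurePreserving (fun z : (Site d → Noise d) × (Site d → Noise d) => catAll h z.1 z.2)
        ((noises d).prod (noises d)) (noises d) :=
      measurePreserving_coord (noiseLaw d) (fun (_ : Site d) z => cat h z.1 z.2)
        (fun _ => measurePreserving_cat d hh)
    have hEm := aw15_Ev_meas c h (k + 1) γ A q0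
    have h2 : (noises d) (aw15_Ev c h (k + 1) γ A q0) =
        ∫⁻ w, (noises d) {w' | catAll h w w' ∈ aw15_Ev c h (k + 1) γ A q0} ∂(noises d) := by
      rw [← hmp.measure_preimage hEm.nullMeasurableSet, Measure.prod_apply (hmp.measurable hEm)]
      rfl
    have h3 : ∀ᵐ w ∂(noises d), (noises d) {w' | catAll h w w' ∈ aw15_Ev c h (k + 1) γ A q0} ≤
        ENNReal.ofReal (G w) := by
      filter_upwards [aw15_ae_good (d := d)] with w hw
      set x : Site d → Site d := fun i => q0 i + walk (w i) h with hx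
      set A1 := annihilate c x A with hA1
      by_cases hcond : ∀ i ∈ A1, c i = true → γ 1 ≠ some (x i)
      · have h4 : (noises d) {w' | catAll h w w' ∈ aw15_Ev c h (k + 1) γ A q0} =
            (noises d) (aw15_Ev c h k (fun l => γ (l + 1)) A1 x) := by
          apply measure_congr
          filter_upwards [aw15_ae_good (d := d)] with w' hw'
          have h5 := aw15_Ev_cat c hh k γ A q0 hw hw'
          apply propext
          exact h5.trans ⟨fun h6 => h6.2, fun h6 => ⟨hcond, h6⟩⟩
        have h5 : ∏ i ∈ A1, aw15_f lam h k (fun l => γ (l + 1)) (c i) (x i) ≤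
            ∏ i ∈ A1, aw15_g lam h k γ (c i) (x i) := by
          apply Finset.prod_le_prod
          · intro i _
            exact aw15_f_nonneg hlam _ _ _ _ _
          · intro i hi
            cases hci : c i
            · exact aw15_f_false_le hlam h k γ (x i)
            · rw [aw15_f_zero_shift]
              unfold aw15_a
              rw [if_neg (hcond i hi hci)]
        have h6 := ann_prod c x A (aw15_g lam h k γ) (aw15_g_nonneg h k γ hlam) (aw15_g_prod h k γ hlam)
        have h7 := (ih (fun l => γ (l + 1)) A1 x).trans (h5.trans h6)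
        rw [h4, ← ofReal_measureReal]
        exact ENNReal.ofReal_le_ofReal h7
      · have h4 : (noises d) {w' | catAll h w w' ∈ aw15_Ev c h (k + 1) γ A q0} = 0 := by
          rw [← nonpos_iff_eq_zero, ← measure_empty (μ := noises d)]
          apply measure_mono_ae
          filter_upwards [aw15_ae_good (d := d)] with w' hw' h5
          exact absurd ((aw15_Ev_cat c hh k γ A q0 hw hw').1 h5).1 hcond
        rw [h4]
        exact zero_le
    have h4 : (noises d) (aw15_Ev c h (k + 1) γ A q0) ≤ ENNReal.ofReal (∫ w, G w ∂(noises d)) := by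
      rw [h2, ofReal_integral_eq_lintegral_ofReal hGint (ae_of_all _ hG0)]
      exact lintegral_mono_ae h3
    rw [hint] at h4
    rw [measureReal_def]
    refine ENNReal.toReal_le_of_le_ofReal ?_ h4
    exact Finset.prod_nonneg fun i _ => aw15_f_nonneg hlam _ _ _ _ _

end AW15

theorem avoid_grid (d : ℕ) [NeZero d] (c : Site d → Bool) {h : ℝ} (hh : 0 ≤ h) {lam : ℝ}
    (hlam : 0 ≤ lam) (k : ℕ) (γ : ℕ → Option (Site d)) (A : Finset (Site d))
    (q0 : Site d → Site d) :
    (noises d).real {w | ∀ l, 1 ≤ l → l ≤ k →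
        ∀ i ∈ evol c (fun l i => q0 i + walk (w i) (l * h)) A l, c i = true →
          γ l ≠ some (q0 i + walk (w i) (l * h))} ≤
      ∏ i ∈ A, if c i then
          1 - lam * (∫ v, visits γ (q0 i) h k v ∂(noiseLaw d)) +
            lam ^ 2 * ∫ v, visits γ (q0 i) h k v ^ 2 ∂(noiseLaw d)
        else 1 + lam * ∫ v, visits γ (q0 i) h k v ∂(noiseLaw d) :=
  aw15_main c hh hlam k γ A q0

end Pool.Agent.H285
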