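import Pool.Agent.H285.Base2

/-!
# AW16 (MP_0e9fac_pr)
-/



open MeasureTheory ProbabilityTheory Filter Topology

namespace Pool.Agent.H285


/- ======== AUXILIARY ======== -/

theorem aw16_inf (r : ℕ → ℝ) (c β : ℝ) (hc : 0 < c) (hβ : 0 < β) (hr1 : ∀ k, r k ≤ 1)
    (hlow : ∀ k, c * β ^ k ≤ r k) (k0 : ℕ) : ∃ k, k0 ≤ k ∧ β / 3 * r k ≤ r (k + 1) := by
  by_contra hcon
  push Not at hcon
  have h1 : ∀ j, r (k0 + j) ≤ (β / 3) ^ j := by
    intro j
    induction j with
    | zero => simpa using hr1 k0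
    | succ j ih =>
      have h2 := hcon (k0 + j) (by omega)
      calc r (k0 + (j + 1)) = r (k0 + j + 1) := by rw [add_assoc]
        _ ≤ β / 3 * r (k0 + j) := h2.le
        _ ≤ β / 3 * (β / 3) ^ j := by gcongr
        _ = (β / 3) ^ (j + 1) := by ring
  have h2 : ∀ j : ℕ, c * β ^ k0 * 3 ^ j ≤ 1 := by
    intro j
    have h3 := (hlow (k0 + j)).trans (h1 j)
    have h4 : 0 < β ^ j := pow_pos hβ j
    rw [div_pow, pow_add, le_div_iff₀ (by positivity)] at h3
    have h5 : (c * β ^ k0 * 3 ^ j) * β ^ j ≤ 1 * β ^ j := by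
      calc (c * β ^ k0 * 3 ^ j) * β ^ j = c * (β ^ k0 * β ^ j) * 3 ^ j := by ring
        _ ≤ β ^ j := h3
        _ = 1 * β ^ j := (one_mul _).symm
    exact le_of_mul_le_mul_right h5 h4
  obtain ⟨j, hj⟩ := pow_unbounded_of_one_lt (1 / (c * β ^ k0)) (show (1 : ℝ) < 3 by norm_num)
  have h3 := h2 j
  rw [div_lt_iff₀ (by positivity)] at hj
  linarith

theorem aw16_abs (r G : ℕ → ℝ) (c C K β C1 : ℝ) (hc : 0 < c) (hC : 0 < C) (hK : 0 < K)
    (hβ0 : 0 < β) (hC1 : 0 < C1) (hr0 : ∀ k, 0 < r k) (hr1 : ∀ k, r k ≤ 1)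
    (hra : ∀ k, r (k + 1) ≤ r k) (hlow : ∀ k, c * β ^ k ≤ r k) (hG0 : ∀ k, 0 ≤ G k)
    (hG1 : 1 ≤ 3 * β → ∀ k, G k ≤ C1 * (3 * β) ^ k) (hG2 : 3 * β < 1 → ∀ k, G k ≤ C1)
    (hM : ∀ q, r (q + 1) - r (q + 2) ≤ 6 * 3 ^ q * (K * (r q ^ 2 + C * (β ^ 2) ^ q))) :
    ∃ a, 0 < a ∧ ∀ k0, ∃ k, k0 ≤ k ∧ a * r k ≤ r (k + 1) ∧ a * G k ≤ 3 ^ k * r k := by
  rcases le_or_gt 1 (3 * β) with h3 | h3
  · refine ⟨min (β / 3) (c / C1), by positivity, fun k0 => ?_⟩
    obtain ⟨k, hk0, hk⟩ := aw16_inf r c β hc hβ0 hr1 hlow k0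
    refine ⟨k, hk0, ?_, ?_⟩
    · refine le_trans ?_ hk
      exact mul_le_mul_of_nonneg_right (min_le_left _ _) (hr0 k).le
    · calc min (β / 3) (c / C1) * G k ≤ c / C1 * G k :=
            mul_le_mul_of_nonneg_right (min_le_right _ _) (hG0 k)
        _ ≤ c / C1 * (C1 * (3 * β) ^ k) :=
            mul_le_mul_of_nonneg_left (hG1 h3 k) (by positivity)
        _ = 3 ^ k * (c * β ^ k) := by rw [mul_pow]; field_simp
        _ ≤ 3 ^ k * r k := mul_le_mul_of_nonneg_left (hlow k) (by positivity)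
  · set lam := β / 3 with hlam
    have hlam0 : 0 < lam := by positivity
    have hlam1 : lam ≤ 1 / 2 := by rw [hlam]; linarith
    set eps := lam / (2 * (18 * K + 1)) with heps
    have heps0 : 0 < eps := by positivity
    have heps' : (18 * K + 1) * eps = lam / 2 := by rw [heps]; field_simp
    refine ⟨min (1 / 6) (eps / C1), by positivity, ?_⟩
    by_contra hcon
    push Not at hcon
    obtain ⟨k0, hk0⟩ := hcon
    have h' : ∀ k, k0 ≤ k → r (k + 1) < r k / 6 ∨ 3 ^ k * r k < eps := by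
      intro k hk
      by_cases hh : min (1 / 6) (eps / C1) * r k ≤ r (k + 1)
      · right
        refine lt_of_lt_of_le (hk0 k hk hh) ?_
        calc min (1 / 6) (eps / C1) * G k ≤ eps / C1 * G k :=
              mul_le_mul_of_nonneg_right (min_le_right _ _) (hG0 k)
          _ ≤ eps / C1 * C1 := mul_le_mul_of_nonneg_left (hG2 h3 k) (by positivity)
          _ = eps := by field_simp
      · left
        push Not at hh
        refine lt_of_lt_of_le hh ?_
        calc min (1 / 6) (eps / C1) * r k ≤ 1 / 6 * r k :=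
              mul_le_mul_of_nonneg_right (min_le_left _ _) (hr0 k).le
          _ = r k / 6 := by ring
    -- (i)
    have hi : ∃ k1, k0 ≤ k1 ∧ 3 ^ k1 * r k1 < eps := by
      by_contra hno
      push Not at hno
      have hdec : ∀ j, 3 ^ (k0 + j) * r (k0 + j) ≤ 3 ^ k0 * r k0 * (1 / 2) ^ j := by
        intro j
        induction j with
        | zero => simp
        | succ j ih =>
          have h1 : r (k0 + j + 1) < r (k0 + j) / 6 := by
            rcases h' (k0 + j) (by omega) with h1 | h1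
            · exact h1
            · exact absurd h1 (not_lt.2 (hno (k0 + j) (by omega)))
          have h30 : (0 : ℝ) < 3 ^ (k0 + j) := by positivity
          calc 3 ^ (k0 + (j + 1)) * r (k0 + (j + 1))
              = 3 * (3 ^ (k0 + j) * r (k0 + j + 1)) := by rw [← add_assoc, pow_succ]; ring
            _ ≤ 3 * (3 ^ (k0 + j) * (r (k0 + j) / 6)) := by
                have := mul_le_mul_of_nonneg_left h1.le h30.le
                linarith
            _ = (3 ^ (k0 + j) * r (k0 + j)) * (1 / 2) := by ring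
            _ ≤ (3 ^ k0 * r k0 * (1 / 2) ^ j) * (1 / 2) :=
                mul_le_mul_of_nonneg_right ih (by norm_num)
            _ = 3 ^ k0 * r k0 * (1 / 2) ^ (j + 1) := by ring
      have hA0 : 0 < 3 ^ k0 * r k0 := mul_pos (by positivity) (hr0 k0)
      obtain ⟨j, hj⟩ := exists_pow_lt_of_lt_one (div_pos heps0 hA0)
        (show (1 / 2 : ℝ) < 1 by norm_num)
      rw [lt_div_iff₀ hA0] at hj
      have h1 := hdec j
      have h2 := hno (k0 + j) (by omega)
      linarith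
    obtain ⟨k1, hk1, hk1'⟩ := hi
    -- (ii)
    have hii : ∀ k, k1 ≤ k → 3 ^ k * r k < 3 * eps := by
      intro k hk
      induction k, hk using Nat.le_induction with
      | base => linarith
      | succ k hk ih =>
        have h30 : (0 : ℝ) < 3 ^ k := by positivity
        rcases h' k (by omega) with h1 | h1
        · have h2 := mul_lt_mul_of_pos_left h1 h30
          have h4 := mul_pos h30 (hr0 k)
          calc 3 ^ (k + 1) * r (k + 1) = 3 * (3 ^ k * r (k + 1)) := by rw [pow_succ]; ring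
            _ < 3 * (3 ^ k * (r k / 6)) := by linarith
            _ = (3 ^ k * r k) / 2 := by ring
            _ < 3 * eps := by linarith
        · have h2 := mul_le_mul_of_nonneg_left (hra k) h30.le
          calc 3 ^ (k + 1) * r (k + 1) = 3 * (3 ^ k * r (k + 1)) := by rw [pow_succ]; ring
            _ ≤ 3 * (3 ^ k * r k) := by linarith
            _ < 3 * eps := by linarith
    -- (iii)
    obtain ⟨k2, hk2⟩ := exists_pow_lt_of_lt_one
      (show 0 < eps / (6 * K * C / c) by positivity) h3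
    have hiii : ∀ q, k2 ≤ q → 6 * K * C / c * (3 * β) ^ q ≤ eps := by
      intro q hq
      have h1 : (3 * β) ^ q ≤ (3 * β) ^ k2 := pow_le_pow_of_le_one (by positivity) h3.le hq
      rw [lt_div_iff₀ (by positivity)] at hk2
      have h2 : 6 * K * C / c * (3 * β) ^ q ≤ 6 * K * C / c * (3 * β) ^ k2 := by gcongr
      linarith
    -- (iv)
    have hiv : ∀ q, max k1 k2 ≤ q → r (q + 1) - r (q + 2) ≤ lam / 2 * r q := by
      intro q hq
      have hq1 : k1 ≤ q := le_trans (le_max_left _ _) hq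
      have hq2 : k2 ≤ q := le_trans (le_max_right _ _) hq
      have h1 := hii q hq1
      have h2 := hiii q hq2
      have hrq := hr0 q
      refine (hM q).trans ?_
      have e1 : 6 * 3 ^ q * (K * r q ^ 2) ≤ 18 * K * eps * r q := by
        calc 6 * 3 ^ q * (K * r q ^ 2) = 6 * K * r q * (3 ^ q * r q) := by ring
          _ ≤ 6 * K * r q * (3 * eps) := by gcongr
          _ = 18 * K * eps * r q := by ring
      have e2 : 6 * 3 ^ q * (K * (C * (β ^ 2) ^ q)) ≤ eps * r q := by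
        calc 6 * 3 ^ q * (K * (C * (β ^ 2) ^ q))
            = (6 * K * C / c * (3 * β) ^ q) * (c * β ^ q) := by
              rw [mul_pow, ← pow_mul, mul_comm 2 q, pow_mul]; field_simp
          _ ≤ (6 * K * C / c * (3 * β) ^ q) * r q := by
              apply mul_le_mul_of_nonneg_left (hlow q) (by positivity)
          _ ≤ eps * r q := by gcongr
      calc 6 * 3 ^ q * (K * (r q ^ 2 + C * (β ^ 2) ^ q))
          = 6 * 3 ^ q * (K * r q ^ 2) + 6 * 3 ^ q * (K * (C * (β ^ 2) ^ q)) := by ring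
        _ ≤ 18 * K * eps * r q + eps * r q := by linarith
        _ = ((18 * K + 1) * eps) * r q := by ring
        _ = lam / 2 * r q := by rw [heps']
    -- (v)
    obtain ⟨q, hq, hq'⟩ := aw16_inf r c β hc hβ0 hr1 hlow (max k1 k2)
    have hv : ∀ j, lam * r (q + j) ≤ r (q + j + 1) ∧
        r (q + 1) * (1 / 2) ^ j ≤ r (q + j + 1) := by
      intro j
      induction j with
      | zero => exact ⟨hq', by simp⟩
      | succ j ih =>
        obtain ⟨ih1, ih2⟩ := ih
        have h1 := hiv (q + j) (by omega)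
        have h2 : r (q + j + 1) / 2 ≤ r (q + j + 2) := by linarith
        have h4 := (hr0 (q + j + 1)).le
        constructor
        · calc lam * r (q + (j + 1)) = lam * r (q + j + 1) := by rw [add_assoc]
            _ ≤ 1 / 2 * r (q + j + 1) := by gcongr
            _ = r (q + j + 1) / 2 := by ring
            _ ≤ r (q + j + 2) := h2
        · calc r (q + 1) * (1 / 2) ^ (j + 1) = (r (q + 1) * (1 / 2) ^ j) / 2 := by ring
            _ ≤ r (q + j + 1) / 2 := by linarith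
            _ ≤ r (q + j + 2) := h2
    -- (vi)
    have hA : 0 < 3 ^ (q + 1) * r (q + 1) := mul_pos (by positivity) (hr0 _)
    obtain ⟨j, hj⟩ := pow_unbounded_of_one_lt (3 * eps / (3 ^ (q + 1) * r (q + 1)))
      (show (1 : ℝ) < 3 / 2 by norm_num)
    rw [div_lt_iff₀ hA] at hj
    have h1 := hii (q + j + 1) (by
      have := le_trans (le_max_left _ _) hq
      omega)
    have h2 := (hv j).2
    have h4 : (3 / 2 : ℝ) ^ j * (3 ^ (q + 1) * r (q + 1)) ≤ 3 ^ (q + j + 1) * r (q + j + 1) := by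
      calc (3 / 2 : ℝ) ^ j * (3 ^ (q + 1) * r (q + 1))
          = 3 ^ (q + j + 1) * (r (q + 1) * (1 / 2) ^ j) := by
            rw [show q + j + 1 = (q + 1) + j by ring, pow_add 3 (q + 1) j,
              show (3 / 2 : ℝ) = 3 * (1 / 2) by norm_num, mul_pow]
            ring
        _ ≤ 3 ^ (q + j + 1) * r (q + j + 1) := by gcongr
    linarith

/- ======== TARGETS ======== -/

theorem scale (d : ℕ) (hd : 1 ≤ d) (ρ p : ℕ → ℝ) (c C K : ℝ) (hc : 0 < c) (hC : 0 < C)
    (hK : 0 < K) (hρ0 : ∀ n, 0 < ρ n) (hρ1 : ∀ n, ρ n ≤ 1) (hρa : Antitone ρ)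
    (hp0 : ∀ n, 0 ≤ p n) (hp1 : ∀ n, p n ≤ 1)
    (hpu : ∀ n : ℕ, 1 ≤ n → p n ≤ C * (n : ℝ) ^ (-(d : ℝ) / 2))
    (hlow : ∀ n : ℕ, 1 ≤ n → c * (n : ℝ) ^ (-(d : ℝ) / 4) ≤ ρ n)
    (hM : ∀ m n : ℕ, m < n → ρ n - ρ (n + 1) ≤ K * (ρ m ^ 2 + p (2 * (n - m)))) :
    ∃ a : ℝ, 0 < a ∧ ∃ᶠ N : ℕ in atTop, a * ρ N ≤ ρ (3 * N) ∧
      a * ∑ k ∈ Finset.range (N + 1), p k ≤ N * ρ N := by
  have hd0 : (0 : ℝ) < d := by exact_mod_cast hd
  set β : ℝ := (3 : ℝ) ^ (-(d : ℝ) / 4) with hβ
  have hβ0 : 0 < β := Real.rpow_pos_of_pos (by norm_num) _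
  have hβ1 : β < 1 := by
    rw [hβ]
    apply Real.rpow_lt_one_of_one_lt_of_neg (by norm_num)
    linarith
  have hpow : ∀ (x : ℝ) (k : ℕ), ((3 : ℝ) ^ k) ^ x = ((3 : ℝ) ^ x) ^ k := by
    intro x k
    rw [← Real.rpow_natCast, ← Real.rpow_mul (by norm_num), mul_comm, Real.rpow_mul (by norm_num),
      Real.rpow_natCast]
  have hβ2 : (3 : ℝ) ^ (-(d : ℝ) / 2) = β ^ 2 := by
    rw [hβ, ← Real.rpow_natCast, ← Real.rpow_mul (by norm_num)]
    congr 1
    push_cast; ring
  have hpk : ∀ k n : ℕ, 3 ^ k ≤ n → p n ≤ C * (β ^ 2) ^ k := by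
    intro k n hn
    have h3k : 0 < 3 ^ k := by positivity
    refine (hpu n (by omega)).trans ?_
    apply mul_le_mul_of_nonneg_left _ hC.le
    rw [← hβ2, ← hpow]
    apply Real.rpow_le_rpow_of_nonpos (by positivity)
    · exact_mod_cast hn
    · linarith
  have hlow' : ∀ k : ℕ, c * β ^ k ≤ ρ (3 ^ k) := by
    intro k
    have h3k : 0 < 3 ^ k := by positivity
    have h1 := hlow (3 ^ k) (by omega)
    push_cast at h1
    rw [hpow] at h1
    exact h1
  -- the Green function along powers of three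
  set G : ℕ → ℝ := fun k => ∑ i ∈ Finset.range (3 ^ k + 1), p i with hG
  have hG0 : ∀ k, 0 ≤ G k := fun k => Finset.sum_nonneg fun i _ => hp0 i
  have hGs : ∀ k, G (k + 1) ≤ G k + 2 * C * (3 * β * β) ^ k := by
    intro k
    have h1 : 3 ^ (k + 1) + 1 = (3 ^ k + 1) + 2 * 3 ^ k := by rw [pow_succ]; ring
    have h2 : G (k + 1) = G k + ∑ i ∈ Finset.range (2 * 3 ^ k), p (3 ^ k + 1 + i) := by
      simp only [hG]
      rw [h1, Finset.sum_range_add]
    rw [h2]
    have h4 : ∑ i ∈ Finset.range (2 * 3 ^ k), p (3 ^ k + 1 + i) ≤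
        ∑ i ∈ Finset.range (2 * 3 ^ k), C * (β ^ 2) ^ k := by
      apply Finset.sum_le_sum
      intro i _
      exact hpk k _ (by omega)
    have h5 : ∑ i ∈ Finset.range (2 * 3 ^ k), C * (β ^ 2) ^ k = 2 * C * (3 * β * β) ^ k := by
      rw [Finset.sum_const, Finset.card_range, nsmul_eq_mul]
      push_cast
      rw [show (3 : ℝ) * β * β = 3 * β ^ 2 by ring, mul_pow]
      ring
    linarith
  have hGz : G 0 ≤ 2 := by
    simp only [hG, pow_zero, Finset.sum_range_succ, Finset.sum_range_one]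
    linarith [hp1 0, hp1 1]
  have h1β : 0 < 1 - β := by linarith
  have hgen : ∀ D : ℝ, 1 ≤ D → 3 * β ≤ D →
      ∀ k, G k ≤ 2 * D ^ k + 2 * C / (1 - β) * (1 - β ^ k) * D ^ k := by
    intro D hD1 hD2 k
    induction k with
    | zero => simpa using hGz
    | succ k ih =>
      have hD0 : 0 < D := by linarith
      have hDk : D ^ k ≤ D ^ (k + 1) := pow_le_pow_right₀ hD1 (by omega)
      have h1 : (3 * β * β) ^ k ≤ D ^ k * β ^ k := by
        rw [← mul_pow]
        apply pow_le_pow_left₀ (by positivity)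
        gcongr
      have hβk : β ^ k ≤ 1 := pow_le_one₀ hβ0.le hβ1.le
      have h2 : G (k + 1) ≤ 2 * D ^ k + 2 * C / (1 - β) * (1 - β ^ k) * D ^ k +
          2 * C * (D ^ k * β ^ k) := by
        have h21 := hGs k
        have h22 : 2 * C * (3 * β * β) ^ k ≤ 2 * C * (D ^ k * β ^ k) := by gcongr
        linarith
      have h3 : 2 * D ^ k + 2 * C / (1 - β) * (1 - β ^ k) * D ^ k + 2 * C * (D ^ k * β ^ k) =
          2 * D ^ k + 2 * C / (1 - β) * (1 - β ^ (k + 1)) * D ^ k := by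
        have : 2 * C * (D ^ k * β ^ k) = 2 * C / (1 - β) * ((1 - β) * β ^ k) * D ^ k := by
          field_simp
        rw [this]; ring
      rw [h3] at h2
      refine h2.trans ?_
      have h4 : 0 ≤ 1 - β ^ (k + 1) := by
        have := pow_le_one₀ (n := k + 1) hβ0.le hβ1.le
        linarith
      gcongr
  have hC1' : ∀ D : ℝ, 1 ≤ D → 3 * β ≤ D → ∀ k, G k ≤ (2 + 2 * C / (1 - β)) * D ^ k := by
    intro D hD1 hD2 k
    refine (hgen D hD1 hD2 k).trans ?_
    have hD0 : 0 < D ^ k := by positivity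
    have h1 : 1 - β ^ k ≤ 1 := by
      have := pow_pos hβ0 k
      linarith
    have h2 : 2 * C / (1 - β) * (1 - β ^ k) * D ^ k ≤ 2 * C / (1 - β) * 1 * D ^ k := by gcongr
    calc 2 * D ^ k + 2 * C / (1 - β) * (1 - β ^ k) * D ^ k
        ≤ 2 * D ^ k + 2 * C / (1 - β) * 1 * D ^ k := by linarith
      _ = (2 + 2 * C / (1 - β)) * D ^ k := by ring
  -- the recursion for the density along powers of three
  have hMr : ∀ q, ρ (3 ^ (q + 1)) - ρ (3 ^ (q + 2)) ≤
      6 * 3 ^ q * (K * (ρ (3 ^ q) ^ 2 + C * (β ^ 2) ^ q)) := by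
    intro q
    have h3q : 0 < 3 ^ q := by positivity
    have e1 : 3 ^ (q + 1) = 3 * 3 ^ q := by rw [pow_succ]; ring
    have e2 : 3 ^ (q + 2) = 3 ^ (q + 1) + 6 * 3 ^ q := by rw [pow_succ, pow_succ]; ring
    have h1 : ρ (3 ^ (q + 1)) - ρ (3 ^ (q + 2)) =
        ∑ i ∈ Finset.range (6 * 3 ^ q), (ρ (3 ^ (q + 1) + i) - ρ (3 ^ (q + 1) + (i + 1))) := by
      rw [Finset.sum_range_sub' (fun i => ρ (3 ^ (q + 1) + i)), add_zero, ← e2]
    rw [h1]
    have h2 : ∑ i ∈ Finset.range (6 * 3 ^ q), (ρ (3 ^ (q + 1) + i) - ρ (3 ^ (q + 1) + (i + 1))) ≤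
        ∑ i ∈ Finset.range (6 * 3 ^ q), K * (ρ (3 ^ q) ^ 2 + C * (β ^ 2) ^ q) := by
      apply Finset.sum_le_sum
      intro i _
      refine (hM (3 ^ q) (3 ^ (q + 1) + i) (by omega)).trans ?_
      apply mul_le_mul_of_nonneg_left _ hK.le
      have := hpk q (2 * (3 ^ (q + 1) + i - 3 ^ q)) (by omega)
      linarith
    refine h2.trans (le_of_eq ?_)
    rw [Finset.sum_const, Finset.card_range, nsmul_eq_mul]
    push_cast
    ring
  obtain ⟨a, ha, hfin⟩ := aw16_abs (fun k => ρ (3 ^ k)) G c C K β (2 + 2 * C / (1 - β)) hc hC hK hβ0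
    (by positivity) (fun k => hρ0 _) (fun k => hρ1 _)
    (fun k => hρa (Nat.pow_le_pow_right (by norm_num) (by omega))) hlow' hG0
    (fun h3 => hC1' (3 * β) h3 le_rfl)
    (fun h3 k => by simpa using hC1' 1 le_rfl h3.le k) hMr
  refine ⟨a, ha, ?_⟩
  rw [Filter.frequently_atTop]
  intro N0
  obtain ⟨k, hk, h1, h2⟩ := hfin N0
  refine ⟨3 ^ k, ?_, ?_, ?_⟩
  · exact hk.trans (Nat.lt_pow_self (by norm_num)).le
  · have : 3 * 3 ^ k = 3 ^ (k + 1) := by rw [pow_succ]; ring
    rw [this]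
    exact h1
  · push_cast
    exact h2

end Pool.Agent.H285
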