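import Pool.Agent.H285.Base2

/-!
# AW17 (MP_0e9fac_pr)
-/



open MeasureTheory ProbabilityTheory Filter Topology

namespace Pool.Agent.H285


/- ======== TARGETS ======== -/

/-- Approximation of events by events that depend on finitely many coordinates. -/
theorem dense_cyl {ι X Y : Type*} [MeasurableSpace X] [MeasurableSpace Y]
    (μ : Measure ((ι → X) × (ι → Y))) [IsProbabilityMeasure μ] (B : Set ((ι → X) × (ι → Y)))
    (hB : MeasurableSet B) {ε : ℝ} (hε : 0 < ε) :
    ∃ (F : Finset ι) (A : Set ((ι → X) × (ι → Y))), MeasurableSet A ∧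
      (∀ x y : (ι → X) × (ι → Y), (∀ i ∈ F, x.1 i = y.1 i ∧ x.2 i = y.2 i) → (x ∈ A ↔ y ∈ A)) ∧
      μ.real (symmDiff B A) ≤ ε := by
  classical
  set 𝒜 : Set (Set ((ι → X) × (ι → Y))) := {A | MeasurableSet A ∧ ∃ F : Finset ι,
    ∀ x y : (ι → X) × (ι → Y), (∀ i ∈ F, x.1 i = y.1 i ∧ x.2 i = y.2 i) → (x ∈ A ↔ y ∈ A)}
    with h𝒜
  have halg : IsSetAlgebra 𝒜 := by
    refine ⟨⟨MeasurableSet.empty, ∅, fun x y _ => by simp⟩, ?_, ?_⟩
    · rintro s ⟨hs, F, hF⟩
      exact ⟨hs.compl, F, fun x y h => not_congr (hF x y h)⟩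
    · rintro s t ⟨hs, F, hF⟩ ⟨ht, G, hG⟩
      refine ⟨hs.union ht, F ∪ G, fun x y h => or_congr ?_ ?_⟩
      · exact hF x y fun i hi => h i (Finset.mem_union_left _ hi)
      · exact hG x y fun i hi => h i (Finset.mem_union_right _ hi)
  have hgen : (inferInstance : MeasurableSpace ((ι → X) × (ι → Y))) =
      MeasurableSpace.generateFrom 𝒜 := by
    refine le_antisymm ?_ (MeasurableSpace.generateFrom_le fun A hA => hA.1)
    refine sup_le ?_ ?_
    · rw [show (MeasurableSpace.pi : MeasurableSpace (ι → X)) =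
        ⨆ a, MeasurableSpace.comap (fun b => b a) inferInstance from rfl,
        MeasurableSpace.comap_iSup]
      refine iSup_le fun a => ?_
      rw [MeasurableSpace.comap_comp]
      rintro _ ⟨S, hS, rfl⟩
      apply MeasurableSpace.measurableSet_generateFrom
      refine ⟨?_, {a}, fun x y h => ?_⟩
      · exact ((measurable_pi_apply a).comp measurable_fst) hS
      · have := (h a (Finset.mem_singleton_self a)).1
        simp [this]
    · rw [show (MeasurableSpace.pi : MeasurableSpace (ι → Y)) =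
        ⨆ a, MeasurableSpace.comap (fun b => b a) inferInstance from rfl,
        MeasurableSpace.comap_iSup]
      refine iSup_le fun a => ?_
      rw [MeasurableSpace.comap_comp]
      rintro _ ⟨S, hS, rfl⟩
      apply MeasurableSpace.measurableSet_generateFrom
      refine ⟨?_, {a}, fun x y h => ?_⟩
      · exact ((measurable_pi_apply a).comp measurable_snd) hS
      · have := (h a (Finset.mem_singleton_self a)).2
        simp [this]
  obtain ⟨A, ⟨hA, F, hF⟩, hAε⟩ :=
    (Measure.MeasureDense.of_generateFrom_isSetAlgebra_finite μ halg hgen).approx B hB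
      (measure_ne_top _ _) ε hε
  refine ⟨F, A, hA, hF, ?_⟩
  exact ENNReal.toReal_le_of_le_ofReal hε.le hAε.le

end Pool.Agent.H285
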