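import Pool.Agent.H285.Base2
import Pool.Agent.H285.AW09

/-!
# AW18 (MP_0e9fac_pr)
-/



open MeasureTheory ProbabilityTheory Filter Topology

namespace Pool.Agent.H285


/- ======== TARGETS ======== -/

/-- Rearrangement of four factors. -/
theorem measurePreserving_rearrange {A B C D : Type*} [MeasurableSpace A] [MeasurableSpace B]
    [MeasurableSpace C] [MeasurableSpace D] (a : Measure A) (b : Measure B) (c : Measure C)
    (d : Measure D) [SFinite a] [SFinite b] [SFinite c] [SFinite d] :
    MeasurePreserving (fun z : (A × B) × (C × D) => ((z.1.1, z.2.1), (z.1.2, z.2.2)))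
      ((a.prod b).prod (c.prod d)) ((a.prod c).prod (b.prod d)) := by
  have h1 := measurePreserving_prodAssoc a b (c.prod d)
  have h2 := (MeasurePreserving.id a).prod ((measurePreserving_prodAssoc b c d).symm _)
  have h3 := (MeasurePreserving.id a).prod
    ((Measure.measurePreserving_swap (μ := b) (ν := c)).prod (MeasurePreserving.id d))
  have h4 := (MeasurePreserving.id a).prod (measurePreserving_prodAssoc c b d)
  have h5 := (measurePreserving_prodAssoc a c (b.prod d)).symm
  exact h5.comp (h4.comp (h3.comp (h2.comp h1)))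

/-- Independence of functions of disjoint sets of coordinates. -/
theorem indep_coord {ι X Y : Type*} [MeasurableSpace X] [MeasurableSpace Y] (μ : Measure X)
    [IsProbabilityMeasure μ] (ν : Measure Y) [IsProbabilityMeasure ν] (F : Finset ι)
    (f : (ι → X) × (ι → Y) → ℝ) (A : Set ((ι → X) × (ι → Y))) (hf : Measurable f)
    (hfi : Integrable f ((Measure.infinitePi fun _ : ι => μ).prod (Measure.infinitePi fun _ : ι => ν)))
    (hA : MeasurableSet A)
    (hfF : ∀ x y : (ι → X) × (ι → Y), (∀ i, i ∉ F → x.1 i = y.1 i ∧ x.2 i = y.2 i) → f x = f y)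
    (hAF : ∀ x y : (ι → X) × (ι → Y), (∀ i ∈ F, x.1 i = y.1 i ∧ x.2 i = y.2 i) →
      (x ∈ A ↔ y ∈ A)) :
    ∫ x in A, f x ∂((Measure.infinitePi fun _ : ι => μ).prod (Measure.infinitePi fun _ : ι => ν)) =
      (∫ x, f x ∂((Measure.infinitePi fun _ : ι => μ).prod (Measure.infinitePi fun _ : ι => ν))) *
      ((Measure.infinitePi fun _ : ι => μ).prod (Measure.infinitePi fun _ : ι => ν)).real A := by
  classical
  set PX := (Measure.infinitePi fun _ : ι => μ) with hPX
  set PY := (Measure.infinitePi fun _ : ι => ν) with hPY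
  have hfst : ∀ i : ι, MeasurePreserving
      (fun z : X × X => if i ∈ F then z.1 else z.2) (μ.prod μ) μ := by
    intro i
    by_cases h : i ∈ F
    · simp only [h, if_true]; exact measurePreserving_fst
    · simp only [h, if_false]; exact measurePreserving_snd
  have hsnd : ∀ i : ι, MeasurePreserving
      (fun z : Y × Y => if i ∈ F then z.1 else z.2) (ν.prod ν) ν := by
    intro i
    by_cases h : i ∈ F
    · simp only [h, if_true]; exact measurePreserving_fst
    · simp only [h, if_false]; exact measurePreserving_snd
  have hmX := measurePreserving_coord μ (fun i z => if i ∈ F then z.1 else z.2) hfst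
  have hmY := measurePreserving_coord ν (fun i z => if i ∈ F then z.1 else z.2) hsnd
  have hm := (hmX.prod hmY).comp (measurePreserving_rearrange PX PY PX PY)
  set m : ((ι → X) × (ι → Y)) × ((ι → X) × (ι → Y)) → (ι → X) × (ι → Y) := fun z =>
    (fun i => if i ∈ F then z.1.1 i else z.2.1 i, fun i => if i ∈ F then z.1.2 i else z.2.2 i)
    with hmdef
  have hm' : MeasurePreserving m ((PX.prod PY).prod (PX.prod PY)) (PX.prod PY) := hm
  set P := PX.prod PY with hP
  have hAm : ∀ z, (m z ∈ A ↔ z.1 ∈ A) := by
    intro z
    apply hAF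
    intro i hi
    simp [hmdef, hi]
  have hfm : ∀ z, f (m z) = f z.2 := by
    intro z
    apply hfF
    intro i hi
    simp [hmdef, hi]
  have hind : AEStronglyMeasurable (A.indicator f) P :=
    (hf.indicator hA).aestronglyMeasurable
  have e1 : ∫ x in A, f x ∂P = ∫ z, A.indicator f (m z) ∂(P.prod P) := by
    rw [← integral_indicator hA]
    rw [← integral_map hm'.measurable.aemeasurable (by rw [hm'.map_eq]; exact hind), hm'.map_eq]
  have e2 : (fun z => A.indicator f (m z)) = fun z => (A.indicator (fun _ => (1 : ℝ)) z.1) * f z.2 := by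
    funext z
    by_cases h : z.1 ∈ A
    · rw [Set.indicator_of_mem ((hAm z).2 h), Set.indicator_of_mem h, hfm, one_mul]
    · rw [Set.indicator_of_notMem (fun h' => h ((hAm z).1 h')), Set.indicator_of_notMem h, zero_mul]
  rw [e1, e2, integral_prod_mul (A.indicator (fun _ => (1 : ℝ))) f, integral_indicator_const _ hA,
    smul_eq_mul, mul_one, mul_comm]

end Pool.Agent.H285
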