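import Pool.Agent.H285.Base2

/-!
# AW19 (MP_0e9fac_pr)
-/



open MeasureTheory ProbabilityTheory Filter Topology

namespace Pool.Agent.H285


/- ======== TARGETS ======== -/

instance : IsProbabilityMeasure (colourLaw (1 / 2)) := by
  constructor
  unfold colourLaw
  simp only [Measure.coe_add, Measure.coe_smul, Pi.add_apply, Pi.smul_apply, measure_univ,
    smul_eq_mul, mul_one]
  rw [← ENNReal.ofReal_add (by norm_num) (by norm_num)]
  norm_num

instance (d : ℕ) : IsProbabilityMeasure (colours d (1 / 2)) := by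
  unfold colours; infer_instance

theorem colourLaw_half_map_not : (colourLaw (1 / 2)).map not = colourLaw (1 / 2) := by
  have hn : Measurable (not : Bool → Bool) := measurable_of_finite _
  unfold colourLaw
  rw [Measure.map_add _ _ hn, Measure.map_smul, Measure.map_smul,
    Measure.map_dirac' hn, Measure.map_dirac' hn, add_comm]
  norm_num

/-- flip the colour of site `j` -/
noncomputable def flip {d : ℕ} (j : Site d) (c : Site d → Bool) : Site d → Bool :=
  fun i => (if i = j then not else id) (c i)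

theorem flip_map {d : ℕ} (j : Site d) :
    (colours d (1 / 2)).map (flip j) = colours d (1 / 2) := by
  classical
  unfold colours flip
  rw [Measure.infinitePi_map_pi (μ := fun _ : Site d => colourLaw (1 / 2))
    (f := fun i => if i = j then not else id)]
  · congr 1
    funext i
    split_ifs with h
    · exact colourLaw_half_map_not
    · exact Measure.map_id
  · intro i
    split_ifs
    · exact measurable_of_finite _
    · exact measurable_id

theorem measurable_flip {d : ℕ} (j : Site d) : Measurable (flip j : (Site d → Bool) → _) := by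
  classical
  unfold flip
  apply measurable_pi_lambda
  intro i
  split_ifs
  · exact (measurable_of_finite not).comp (measurable_pi_apply i)
  · exact measurable_pi_apply i

/-- the weighted sum -/
noncomputable def XX {d : ℕ} (Λ : Finset (Site d)) (a : Site d → ℝ) (c : Site d → Bool) : ℝ :=
  ∑ i ∈ Λ, sgn (c i) * a i

theorem measurable_sgn {d : ℕ} (j : Site d) : Measurable fun c : Site d → Bool => sgn (c j) :=
  (measurable_of_finite sgn).comp (measurable_pi_apply j)

theorem measurable_XX {d : ℕ} (Λ : Finset (Site d)) (a : Site d → ℝ) : Measurable (XX Λ a) := by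
  unfold XX
  exact Finset.measurable_fun_sum _ fun i _ => (measurable_sgn i).mul_const _

theorem abs_sgn (b : Bool) : |sgn b| = 1 := by cases b <;> simp [sgn]

theorem abs_XX_le {d : ℕ} (Λ : Finset (Site d)) (a : Site d → ℝ) (c : Site d → Bool) :
    |XX Λ a c| ≤ ∑ i ∈ Λ, |a i| := by
  unfold XX
  refine (Finset.abs_sum_le_sum_abs _ _).trans (le_of_eq ?_)
  apply Finset.sum_congr rfl
  intro i _
  rw [abs_mul, abs_sgn, one_mul]

theorem integrable_pow {d : ℕ} (Λ : Finset (Site d)) (a : Site d → ℝ) (n : ℕ) :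
    Integrable (fun c => XX Λ a c ^ n) (colours d (1 / 2)) := by
  apply Integrable.of_bound (C := (∑ i ∈ Λ, |a i|) ^ n)
  · exact ((measurable_XX Λ a).pow_const n).aestronglyMeasurable
  · filter_upwards with c
    rw [Real.norm_eq_abs, abs_pow]
    exact pow_le_pow_left₀ (abs_nonneg _) (abs_XX_le Λ a c) n

theorem integrable_abs {d : ℕ} (Λ : Finset (Site d)) (a : Site d → ℝ) :
    Integrable (fun c => |XX Λ a c|) (colours d (1 / 2)) := by
  have := (integrable_pow Λ a 1).abs
  simpa using this

theorem XX_flip {d : ℕ} (Λ : Finset (Site d)) (a : Site d → ℝ) {j : Site d} (hj : j ∉ Λ)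
    (c : Site d → Bool) : XX Λ a (flip j c) = XX Λ a c := by
  unfold XX flip
  apply Finset.sum_congr rfl
  intro i hi
  have : i ≠ j := fun h => hj (h ▸ hi)
  simp [this]

theorem sgn_flip {d : ℕ} (j : Site d) (c : Site d → Bool) :
    sgn (flip j c j) = -sgn (c j) := by
  unfold flip
  simp only [if_true]
  cases c j <;> simp [sgn]

theorem XX_insert {d : ℕ} [DecidableEq (Site d)] (Λ : Finset (Site d)) (a : Site d → ℝ)
    {j : Site d} (hj : j ∉ Λ) (c : Site d → Bool) :
    XX (insert j Λ) a c = sgn (c j) * a j + XX Λ a c := by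
  unfold XX
  rw [Finset.sum_insert hj]

theorem integral_flip {d : ℕ} (j : Site d) (F : (Site d → Bool) → ℝ) (hF : Measurable F) :
    ∫ c, F (flip j c) ∂(colours d (1 / 2)) = ∫ c, F c ∂(colours d (1 / 2)) := by
  conv_rhs => rw [← flip_map j]
  rw [integral_map (measurable_flip j).aemeasurable hF.aestronglyMeasurable]

theorem moment_two {d : ℕ} (Λ : Finset (Site d)) (a : Site d → ℝ) :
    ∫ c, XX Λ a c ^ 2 ∂(colours d (1 / 2)) = ∑ i ∈ Λ, a i ^ 2 := by
  classical
  induction Λ using Finset.induction_on with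
  | empty => simp [XX]
  | insert j Λ hj ih =>
    have h1 := integral_flip j (fun c => XX (insert j Λ) a c ^ 2)
      ((measurable_XX _ _).pow_const 2)
    have h2 : ∫ c, (XX (insert j Λ) a (flip j c) ^ 2 + XX (insert j Λ) a c ^ 2)
        ∂(colours d (1 / 2)) = ∫ c, (2 * XX Λ a c ^ 2 + 2 * a j ^ 2) ∂(colours d (1 / 2)) := by
      apply integral_congr_ae
      filter_upwards with c
      rw [XX_insert Λ a hj, XX_insert Λ a hj, XX_flip Λ a hj, sgn_flip]
      have : sgn (c j) ^ 2 = 1 := by rw [← sq_abs, abs_sgn]; norm_num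
      linear_combination (2 * a j ^ 2) * this
    have hint : Integrable (fun c => XX (insert j Λ) a (flip j c) ^ 2) (colours d (1 / 2)) := by
      have h3 := integrable_pow (insert j Λ) a 2
      rw [← flip_map j] at h3
      exact h3.comp_measurable (measurable_flip j)
    rw [integral_add hint (integrable_pow _ _ 2), h1,
      integral_add ((integrable_pow Λ a 2).const_mul 2) (integrable_const _),
      integral_const_mul, integral_const, ih] at h2
    simp only [probReal_univ, smul_eq_mul, one_mul] at h2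
    rw [Finset.sum_insert hj]
    linarith

theorem moment_four {d : ℕ} (Λ : Finset (Site d)) (a : Site d → ℝ) :
    ∫ c, XX Λ a c ^ 4 ∂(colours d (1 / 2)) ≤ 3 * (∑ i ∈ Λ, a i ^ 2) ^ 2 := by
  classical
  induction Λ using Finset.induction_on with
  | empty => simp [XX]
  | insert j Λ hj ih =>
    have h1 := integral_flip j (fun c => XX (insert j Λ) a c ^ 4)
      ((measurable_XX _ _).pow_const 4)
    have h2 : ∫ c, (XX (insert j Λ) a (flip j c) ^ 4 + XX (insert j Λ) a c ^ 4)
        ∂(colours d (1 / 2)) =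
        ∫ c, ((2 * XX Λ a c ^ 4 + 12 * a j ^ 2 * XX Λ a c ^ 2) + 2 * a j ^ 4)
          ∂(colours d (1 / 2)) := by
      apply integral_congr_ae
      filter_upwards with c
      rw [XX_insert Λ a hj, XX_insert Λ a hj, XX_flip Λ a hj, sgn_flip]
      have h2 : sgn (c j) ^ 2 = 1 := by rw [← sq_abs, abs_sgn]; norm_num
      have h4 : sgn (c j) ^ 4 = 1 := by
        rw [show (4 : ℕ) = 2 * 2 by norm_num, pow_mul, h2, one_pow]
      linear_combination (12 * a j ^ 2 * XX Λ a c ^ 2) * h2 + (2 * a j ^ 4) * h4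
    have hint : Integrable (fun c => XX (insert j Λ) a (flip j c) ^ 4) (colours d (1 / 2)) := by
      have h3 := integrable_pow (insert j Λ) a 4
      rw [← flip_map j] at h3
      exact h3.comp_measurable (measurable_flip j)
    have h2' := moment_two Λ a
    have hi : Integrable (fun c => 2 * XX Λ a c ^ 4 + 12 * a j ^ 2 * XX Λ a c ^ 2)
        (colours d (1 / 2)) :=
      ((integrable_pow Λ a 4).const_mul 2).add ((integrable_pow Λ a 2).const_mul _)
    rw [integral_add hint (integrable_pow _ _ 4), h1,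
      integral_add hi (integrable_const _),
      integral_add ((integrable_pow Λ a 4).const_mul 2) ((integrable_pow Λ a 2).const_mul _),
      integral_const_mul, integral_const_mul, integral_const, h2'] at h2
    simp only [probReal_univ, smul_eq_mul, one_mul] at h2
    rw [Finset.sum_insert hj]
    have h5 : (0 : ℝ) ≤ a j ^ 4 := by positivity
    nlinarith

/-- Khinchine's inequality for the colours at `p = 1/2`. -/
theorem khinchine_colours (d : ℕ) (Λ : Finset (Site d)) (a : Site d → ℝ) :
    Real.sqrt (∑ i ∈ Λ, a i ^ 2) ≤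
      Real.sqrt 3 * ∫ c, |∑ i ∈ Λ, sgn (c i) * a i| ∂(colours d (1 / 2)) := by
  have hV : 0 ≤ ∑ i ∈ Λ, a i ^ 2 := Finset.sum_nonneg fun i _ => sq_nonneg _
  set s := Real.sqrt (∑ i ∈ Λ, a i ^ 2) with hs
  have hs2 : s ^ 2 = ∑ i ∈ Λ, a i ^ 2 := Real.sq_sqrt hV
  have hs0 : 0 ≤ s := Real.sqrt_nonneg _
  have h3 : Real.sqrt 3 ^ 2 = 3 := Real.sq_sqrt (by norm_num)
  have h3' : 0 ≤ Real.sqrt 3 := Real.sqrt_nonneg _
  have hint0 : 0 ≤ ∫ c, |∑ i ∈ Λ, sgn (c i) * a i| ∂(colours d (1 / 2)) :=
    integral_nonneg fun c => abs_nonneg _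
  rcases hs0.eq_or_lt with h0 | hpos
  · rw [← h0]
    exact mul_nonneg h3' hint0
  have key : ∀ x : ℝ, 9 * s ^ 2 * x ^ 2 - x ^ 4 ≤ 6 * s ^ 3 * (Real.sqrt 3 * |x|) := by
    intro x
    have hx := abs_nonneg x
    have h2 : x ^ 2 = |x| ^ 2 := (sq_abs x).symm
    have h4 : x ^ 4 = |x| ^ 4 := by
      rw [show (4 : ℕ) = 2 * 2 by norm_num, pow_mul, pow_mul, h2]
    rw [h2, h4]
    set u := |x|
    have h5 : 0 ≤ u * ((u - Real.sqrt 3 * s) ^ 2 * (u + 2 * Real.sqrt 3 * s)) := by positivity
    have h6 : u * ((u - Real.sqrt 3 * s) ^ 2 * (u + 2 * Real.sqrt 3 * s)) =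
        u ^ 4 - 9 * s ^ 2 * u ^ 2 + 6 * s ^ 3 * (Real.sqrt 3 * u) := by
      linear_combination (-3 * u ^ 2 * s ^ 2 + 2 * Real.sqrt 3 * s ^ 3 * u) * h3
    linarith
  have hI : ∫ c, (9 * s ^ 2 * XX Λ a c ^ 2 - XX Λ a c ^ 4) ∂(colours d (1 / 2)) ≤
      ∫ c, 6 * s ^ 3 * (Real.sqrt 3 * |XX Λ a c|) ∂(colours d (1 / 2)) := by
    apply integral_mono
    · exact ((integrable_pow Λ a 2).const_mul _).sub (integrable_pow Λ a 4)
    · exact ((integrable_abs Λ a).const_mul _).const_mul _
    · intro c
      exact key _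
  rw [integral_sub ((integrable_pow Λ a 2).const_mul _) (integrable_pow Λ a 4),
    integral_const_mul, integral_const_mul, integral_const_mul, moment_two, ← hs2] at hI
  have h4 := moment_four Λ a
  rw [← hs2] at h4
  have hX : ∫ c, |∑ i ∈ Λ, sgn (c i) * a i| ∂(colours d (1 / 2)) =
      ∫ c, |XX Λ a c| ∂(colours d (1 / 2)) := rfl
  rw [hX]
  have h7 : 6 * s ^ 3 * s ≤ 6 * s ^ 3 * (Real.sqrt 3 * ∫ c, |XX Λ a c| ∂(colours d (1 / 2))) := by
    nlinarith
  exact le_of_mul_le_mul_left h7 (by positivity)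

end Pool.Agent.H285
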