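import Pool.Agent.H285.Base2
import Pool.Agent.H285.AW05
import Pool.Agent.H285.AW08

/-!
# AW20 (MP_0e9fac_pr)
-/



open MeasureTheory ProbabilityTheory Filter Topology

namespace Pool.Agent.H285


/- ======== TARGETS ======== -/

theorem kersg_prob (d : ℕ) [NeZero d] : IsProbabilityMeasure (noiseLaw d) := by
  have h1 : IsProbabilityMeasure (expMeasure 1) := isProbabilityMeasure_expMeasure one_pos
  unfold noiseLaw
  infer_instance

theorem kersg_hasSum {Ω : Type*} [MeasurableSpace Ω] (μ : Measure Ω) [IsFiniteMeasure μ]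
    {ι : Type*} [Countable ι] (f : ι → Set Ω) (hd : Pairwise (Function.onFun Disjoint f))
    (hm : ∀ i, MeasurableSet (f i)) : HasSum (fun i => μ.real (f i)) (μ.real (⋃ i, f i)) := by
  have h1 := measure_iUnion (μ := μ) hd hm
  have h2 : ∑' i, μ (f i) ≠ ⊤ := by
    rw [← h1]; exact measure_ne_top _ _
  have h3 := ENNReal.hasSum_toReal h2
  have h4 : μ.real (⋃ i, f i) = ∑' i, (μ (f i)).toReal := by
    rw [Measure.real, h1, ENNReal.tsum_toReal_eq (fun i => measure_ne_top _ _)]
  rw [h4]
  exact h3

theorem kersg_meas {d : ℕ} (t : ℝ) (x : Site d) : MeasurableSet {w : Noise d | walk w t = x} :=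
  measurable_walk t (measurableSet_singleton x)

theorem hasSum_ker (d : ℕ) [NeZero d] (t : ℝ) : HasSum (fun x => ker d t x) 1 := by
  have := kersg_prob d
  have h1 := kersg_hasSum (noiseLaw d) (fun x : Site d => {w : Noise d | walk w t = x})
    (fun x y hxy => by
      rw [Function.onFun, Set.disjoint_left]
      intro w hw hw'
      exact hxy (hw.symm.trans hw')) (fun x => kersg_meas t x)
  have h2 : (⋃ x : Site d, {w : Noise d | walk w t = x}) = Set.univ := by
    ext w; simp
  rw [h2] at h1
  simpa [ker] using h1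

/-- semigroup property -/
theorem ker_add (d : ℕ) [NeZero d] {s t : ℝ} (hs : 0 ≤ s) (ht : 0 ≤ t) (x : Site d) :
    HasSum (fun y => ker d s y * ker d t (x - y)) (ker d (s + t) x) := by
  have := kersg_prob d
  have hgood : ∀ᵐ z ∂((noiseLaw d).prod (noiseLaw d)), Good z.1 ∧ Good z.2 := by
    have h1 := Measure.quasiMeasurePreserving_fst (μ := noiseLaw d) (ν := noiseLaw d)
    have h2 := Measure.quasiMeasurePreserving_snd (μ := noiseLaw d) (ν := noiseLaw d)
    filter_upwards [h1.ae (ae_good d), h2.ae (ae_good d)] with z h3 h4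
    exact ⟨h3, h4⟩
  have hcat : ker d (s + t) x = ((noiseLaw d).prod (noiseLaw d)).real
      {z : Noise d × Noise d | walk z.1 s + walk z.2 t = x} := by
    have h1 : (noiseLaw d) {w | walk w (s + t) = x} = ((noiseLaw d).prod (noiseLaw d))
        {z : Noise d × Noise d | walk z.1 s + walk z.2 t = x} := by
      rw [← (measurePreserving_cat d hs).measure_preimage
        (kersg_meas (s + t) x).nullMeasurableSet]
      apply measure_congr
      filter_upwards [hgood] with z hz
      have h2 := walk_cat_add hz.1 hz.2 hs ht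
      apply propext
      show walk (cat s z.1 z.2) (s + t) = x ↔ walk z.1 s + walk z.2 t = x
      rw [h2]
    unfold ker Measure.real
    rw [h1]
  have hU : {z : Noise d × Noise d | walk z.1 s + walk z.2 t = x} =
      ⋃ y : Site d, {w : Noise d | walk w s = y} ×ˢ {w : Noise d | walk w t = x - y} := by
    ext z
    simp only [Set.mem_iUnion, Set.mem_prod]
    constructor
    · intro h
      refine ⟨walk z.1 s, rfl, ?_⟩
      have h' : walk z.1 s + walk z.2 t = x := h
      show walk z.2 t = x - walk z.1 s
      rw [← h']; abel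
    · rintro ⟨y, h1, h2⟩
      have h1' : walk z.1 s = y := h1
      have h2' : walk z.2 t = x - y := h2
      show walk z.1 s + walk z.2 t = x
      rw [h1', h2']; abel
  rw [hcat, hU]
  have h3 := kersg_hasSum ((noiseLaw d).prod (noiseLaw d))
    (fun y : Site d => {w : Noise d | walk w s = y} ×ˢ {w : Noise d | walk w t = x - y})
    (fun y y' hyy => by
      rw [Function.onFun, Set.disjoint_left]
      rintro z ⟨h1, _⟩ ⟨h2, _⟩
      exact hyy (h1.symm.trans h2))
    (fun y => (kersg_meas s y).prod (kersg_meas t (x - y)))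
  simp only [measureReal_prod_prod] at h3
  exact h3

theorem summable_sq_ker (d : ℕ) [NeZero d] {t : ℝ} (ht : 0 ≤ t) :
    (Summable fun x => ker d t x ^ 2) ∧ ∑' x, ker d t x ^ 2 = ker d (2 * t) 0 := by
  have h1 := ker_add d ht ht 0
  have h2 : (fun y => ker d t y * ker d t (0 - y)) = fun x : Site d => ker d t x ^ 2 := by
    funext y
    rw [zero_sub, ker_neg d ht y, pow_two]
  rw [h2, ← two_mul] at h1
  exact ⟨h1.summable, h1.tsum_eq⟩

end Pool.Agent.H285
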