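import Pool.Agent.H285.Base2
import Pool.Agent.H285.AW13

/-!
# AW22 (MP_0e9fac_pr)
-/



open MeasureTheory ProbabilityTheory Filter Topology

namespace Pool.Agent.H285


/- ======== TARGETS ======== -/

theorem prob_noiseLaw (d : ℕ) [NeZero d] : IsProbabilityMeasure (noiseLaw d) := by
  have h1 : IsProbabilityMeasure (expMeasure 1) := isProbabilityMeasure_expMeasure one_pos
  have h2 : IsProbabilityMeasure (uniformOn (Set.univ : Set (Dir d))) :=
    isProbabilityMeasure_uniformOn Set.finite_univ Set.univ_nonempty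
  unfold noiseLaw
  infer_instance

theorem prob_noises (d : ℕ) [NeZero d] : IsProbabilityMeasure (noises d) := by
  have := prob_noiseLaw d
  unfold noises
  infer_instance

theorem aw22_prob_colourLaw {p : ℝ} (hp : p ∈ Set.Icc (0 : ℝ) 1) :
    IsProbabilityMeasure (colourLaw p) := by
  constructor
  unfold colourLaw
  rw [Measure.add_apply, Measure.smul_apply, Measure.smul_apply, measure_univ, measure_univ]
  rw [smul_eq_mul, smul_eq_mul, mul_one, mul_one, ← ENNReal.ofReal_add hp.1 (by linarith [hp.2])]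
  simp

theorem prob_colours (d : ℕ) {p : ℝ} (hp : p ∈ Set.Icc (0 : ℝ) 1) :
    IsProbabilityMeasure (colours d p) := by
  have := aw22_prob_colourLaw hp
  unfold colours
  infer_instance

theorem prob_law (d : ℕ) [NeZero d] {p : ℝ} (hp : p ∈ Set.Icc (0 : ℝ) 1) :
    IsProbabilityMeasure (law d p) := by
  have := aw22_prob_colourLaw hp
  have := prob_noiseLaw d
  unfold law
  infer_instance

theorem PP_ind (d : ℕ) [NeZero d] (t : ℝ) (x y : Site d) : PP t (ind x) y = ker d t (x - y) := by
  unfold PP ker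
  have hms : MeasurableSet {w : Noise d | walk w t = x - y} :=
    measurable_walk t (measurableSet_singleton (x - y))
  rw [← integral_indicator_one hms]
  refine integral_congr_ae (Filter.Eventually.of_forall fun v => ?_)
  unfold ind
  by_cases h : walk v t = x - y
  · have h1 : v ∈ {w : Noise d | walk w t = x - y} := h
    simp only [Set.indicator_of_mem h1, Pi.one_apply]
    rw [if_pos]
    rw [h]
    abel
  · have h1 : v ∉ {w : Noise d | walk w t = x - y} := h
    simp only [Set.indicator_of_notMem h1]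
    rw [if_neg]
    intro h2
    apply h
    rw [← h2]
    abel

theorem aw22_evol_subset {d : ℕ} (c : Site d → Bool) (q : ℕ → Site d → Site d)
    (A : Finset (Site d)) (K : ℕ) : evol c q A K ⊆ A := by
  induction K with
  | zero => exact Finset.Subset.refl _
  | succ K ih => exact (ann_subset c (q (K + 1)) (evol c q A K)).trans ih

theorem aw22_evol_congr {d : ℕ} {c c' : Site d → Bool} {q q' : ℕ → Site d → Site d}
    {A : Finset (Site d)} (hc : ∀ i ∈ A, c i = c' i) (K : ℕ)
    (hq : ∀ k ≤ K, ∀ i ∈ A, q k i = q' k i) :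
    evol c q A K = evol c' q' A K := by
  induction K with
  | zero => rfl
  | succ K ih =>
    have h1 := ih (fun k hk => hq k (hk.trans (Nat.le_succ K)))
    show annihilate c (q (K + 1)) (evol c q A K) = annihilate c' (q' (K + 1)) (evol c' q' A K)
    rw [← h1]
    exact ann_congr (fun i hi => hc i (aw22_evol_subset c q A K hi))
      (fun i hi => hq (K + 1) le_rfl i (aw22_evol_subset c q A K hi))

theorem aw22_measurable_pos {d : ℕ} (t : ℝ) (i : Site d) :
    Measurable (fun ω : (Site d → Bool) × (Site d → Noise d) => pos ω.2 t i) := by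
  unfold pos
  have h1 : Measurable (fun ω : (Site d → Bool) × (Site d → Noise d) => ω.2 i) :=
    (measurable_pi_apply i).comp measurable_snd
  have h2 : Measurable (fun ω : (Site d → Bool) × (Site d → Noise d) => walk (ω.2 i) t) :=
    (measurable_walk t).comp h1
  exact h2.const_add i

theorem aw22_measurableSet_evol {d : ℕ} (Λ : Finset (Site d)) (h : ℝ) (K : ℕ)
    (B : Finset (Site d)) :
    MeasurableSet {ω : (Site d → Bool) × (Site d → Noise d) |
      evol ω.1 (fun l => pos ω.2 (l * h)) Λ K = B} := by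
  classical
  let Φ : (Site d → Bool) × (Site d → Noise d) → (Λ → Bool) × (Fin (K + 1) → Λ → Site d) :=
    fun ω => (fun i => ω.1 i, fun k i => pos ω.2 ((k : ℕ) * h) i)
  have hΦ : Measurable Φ := by
    refine Measurable.prodMk ?_ ?_
    · exact measurable_pi_lambda _ fun i => (measurable_pi_apply (i : Site d)).comp measurable_fst
    · exact measurable_pi_lambda _ fun k => measurable_pi_lambda _ fun i =>
        aw22_measurable_pos _ _
  let S : Set ((Λ → Bool) × (Fin (K + 1) → Λ → Site d)) :=
    {z | evol (fun i => if hi : i ∈ Λ then z.1 ⟨i, hi⟩ else false)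
      (fun l i => if hl : l < K + 1 then (if hi : i ∈ Λ then z.2 ⟨l, hl⟩ ⟨i, hi⟩ else 0) else 0)
      Λ K = B}
  have hS : MeasurableSet S := (Set.to_countable S).measurableSet
  have hpre : {ω : (Site d → Bool) × (Site d → Noise d) |
      evol ω.1 (fun l => pos ω.2 (l * h)) Λ K = B} = Φ ⁻¹' S := by
    ext ω
    simp only [Set.mem_ofPred_eq, Set.mem_preimage, S]
    have h1 : evol ω.1 (fun l => pos ω.2 (l * h)) Λ K =
        evol (fun i => if hi : i ∈ Λ then (Φ ω).1 ⟨i, hi⟩ else false)
          (fun l i => if hl : l < K + 1 then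
            (if hi : i ∈ Λ then (Φ ω).2 ⟨l, hl⟩ ⟨i, hi⟩ else 0) else 0) Λ K := by
      apply aw22_evol_congr
      · intro i hi
        rw [dif_pos hi]
      · intro k hk i hi
        rw [dif_pos (Nat.lt_succ_of_le hk), dif_pos hi]
    rw [h1]
  rw [hpre]
  exact hΦ hS

open Classical in
/-- the eventual value of a sequence -/
noncomputable def aw22_ev {β : Type*} (z : β) (s : ℕ → β) : β :=
  if h : ∃ B, ∀ᶠ m : ℕ in atTop, s m = B then h.choose else z

theorem aw22_ev_eq {β : Type*} {z : β} {s : ℕ → β} {B : β} (h : ∀ᶠ m : ℕ in atTop, s m = B) :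
    aw22_ev z s = B := by
  unfold aw22_ev
  have h1 : ∃ B, ∀ᶠ m : ℕ in atTop, s m = B := ⟨B, h⟩
  rw [dif_pos h1]
  obtain ⟨m, hm1, hm2⟩ := (h1.choose_spec.and h).exists
  exact hm1.symm.trans hm2

theorem aw22_ev_ne {β : Type*} {z : β} {s : ℕ → β}
    (h : ¬ ∃ B, ∀ᶠ m : ℕ in atTop, s m = B) : aw22_ev z s = z := by
  unfold aw22_ev
  rw [dif_neg h]

/-- A measurable version of the alive set at an integer time, jointly in colours and noises. -/
theorem exists_version (d : ℕ) [NeZero d] (Λ : Finset (Site d)) (n : ℕ) :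
    ∃ (A : (Site d → Bool) × (Site d → Noise d) → Finset (Site d)) (N : Set (Site d → Noise d)),
      (∀ B : Finset (Site d), MeasurableSet {ω | A ω = B}) ∧ (∀ ω, A ω ⊆ Λ) ∧
      (∀ x y : (Site d → Bool) × (Site d → Noise d),
        (∀ i ∈ Λ, x.1 i = y.1 i ∧ x.2 i = y.2 i) → A x = A y) ∧
      noises d N = 0 ∧ ∀ c w, w ∉ N → alive c w Λ n = A (c, w) := by
  let F : ℕ → (Site d → Bool) × (Site d → Noise d) → Finset (Site d) := fun m ω =>
    evol ω.1 (fun l => pos ω.2 (l * (1 / 2 ^ m : ℝ))) Λ (n * 2 ^ m)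
  refine ⟨fun ω => aw22_ev ∅ (fun m => F m ω), {w | ¬ ∀ (Λ : Finset (Site d)) (n : ℕ),
    ∀ᶠ m : ℕ in atTop, ∀ (c : Site d → Bool),
      alive c w Λ n = evol c (fun l => pos w (l * (1 / 2 ^ m : ℝ))) Λ (n * 2 ^ m)},
    ?_, ?_, ?_, ?_, ?_⟩
  · have hev : ∀ B : Finset (Site d), MeasurableSet
        {ω : (Site d → Bool) × (Site d → Noise d) | ∀ᶠ m : ℕ in atTop, F m ω = B} := by
      intro B
      have h1 : {ω : (Site d → Bool) × (Site d → Noise d) | ∀ᶠ m : ℕ in atTop, F m ω = B} =
          ⋃ M : ℕ, ⋂ m : ℕ, ⋂ _ : M ≤ m, {ω | F m ω = B} := by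
        ext ω
        simp only [Set.mem_ofPred_eq, eventually_atTop, Set.mem_iUnion, Set.mem_iInter]
      rw [h1]
      exact MeasurableSet.iUnion fun M => MeasurableSet.iInter fun m => MeasurableSet.iInter
        fun _ => aw22_measurableSet_evol Λ _ _ B
    intro B
    have hno : MeasurableSet {ω : (Site d → Bool) × (Site d → Noise d) |
        ¬ ∃ B, ∀ᶠ m : ℕ in atTop, F m ω = B} := by
      have h1 : {ω : (Site d → Bool) × (Site d → Noise d) |
          ¬ ∃ B, ∀ᶠ m : ℕ in atTop, F m ω = B} =
          (⋃ B : Finset (Site d), {ω | ∀ᶠ m : ℕ in atTop, F m ω = B})ᶜ := by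
        ext ω
        simp only [Set.mem_ofPred_eq, Set.mem_compl_iff, Set.mem_iUnion]
      rw [h1]
      exact (MeasurableSet.iUnion fun B => hev B).compl
    have h2 : {ω : (Site d → Bool) × (Site d → Noise d) | aw22_ev ∅ (fun m => F m ω) = B} =
        {ω | ∀ᶠ m : ℕ in atTop, F m ω = B} ∪
          ({ω | ¬ ∃ B, ∀ᶠ m : ℕ in atTop, F m ω = B} ∩ {_ω | (∅ : Finset (Site d)) = B}) := by
      ext ω
      simp only [Set.mem_ofPred_eq, Set.mem_union, Set.mem_inter_iff]
      constructor
      · intro h
        by_cases hex : ∃ B, ∀ᶠ m : ℕ in atTop, F m ω = B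
        · left
          obtain ⟨B', hB'⟩ := hex
          rw [aw22_ev_eq hB'] at h
          rwa [h] at hB'
        · right
          rw [aw22_ev_ne hex] at h
          exact ⟨hex, h⟩
      · rintro (h | ⟨h1, h2⟩)
        · exact aw22_ev_eq h
        · rw [aw22_ev_ne h1]
          exact h2
    rw [h2]
    exact (hev B).union (hno.inter (MeasurableSet.const _))
  · intro ω
    dsimp only
    by_cases hex : ∃ B, ∀ᶠ m : ℕ in atTop, F m ω = B
    · obtain ⟨B, hB⟩ := hex
      rw [aw22_ev_eq hB]
      obtain ⟨m, hm⟩ := hB.exists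
      rw [← hm]
      exact aw22_evol_subset _ _ _ _
    · rw [aw22_ev_ne hex]
      exact Finset.empty_subset _
  · intro x y hxy
    dsimp only
    have h1 : (fun m => F m x) = fun m => F m y := by
      funext m
      refine aw22_evol_congr (fun i hi => (hxy i hi).1) _ (fun k _ i hi => ?_)
      unfold pos
      rw [(hxy i hi).2]
    rw [h1]
  · exact ae_alive_eq_evol d
  · intro c w hw
    dsimp only
    rw [Set.mem_ofPred_eq, not_not] at hw
    refine (aw22_ev_eq ?_).symm
    filter_upwards [hw Λ n] with m hm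
    exact (hm c).symm

end Pool.Agent.H285
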