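import Pool.Agent.H285.Base2
import Pool.Agent.H285.AW22
import Pool.Agent.H285.AW14
import Pool.Agent.H285.AW02

/-!
# AW23 (MP_0e9fac_pr)
-/



open MeasureTheory ProbabilityTheory Filter Topology

namespace Pool.Agent.H285


/- ======== TARGETS ======== -/

lemma aw23_evol_subset {d : ℕ} (c : Site d → Bool) (q : ℕ → Site d → Site d)
    (A : Finset (Site d)) (k : ℕ) : evol c q A k ⊆ A := by
  induction k with
  | zero => exact subset_rfl
  | succ k ih => exact (ann_subset c (q (k + 1)) (evol c q A k)).trans ih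

lemma aw23_ann_congr {d : ℕ} (c : Site d → Bool) {q q' : Site d → Site d} {A : Finset (Site d)}
    (h : ∀ i ∈ A, q i = q' i) : annihilate c q A = annihilate c q' A := by
  classical
  unfold annihilate
  refine Finset.filter_congr fun i hi => ?_
  have h1 : (A.filter fun j => q j = q i ∧ c j ≠ c i) =
      (A.filter fun j => q' j = q' i ∧ c j ≠ c i) :=
    Finset.filter_congr fun j hj => by rw [h j hj, h i hi]
  have h2 : (A.filter fun j => q j = q i ∧ c j = c i ∧ toLex j < toLex i) =
      (A.filter fun j => q' j = q' i ∧ c j = c i ∧ toLex j < toLex i) :=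
    Finset.filter_congr fun j hj => by rw [h j hj, h i hi]
  have e1 : (A.filter fun j => q j = q i ∧ c j ≠ c i).card =
      (A.filter fun j => q' j = q' i ∧ c j ≠ c i).card := by rw [h1]
  have e2 : (A.filter fun j => q j = q i ∧ c j = c i ∧ toLex j < toLex i).card =
      (A.filter fun j => q' j = q' i ∧ c j = c i ∧ toLex j < toLex i).card := by rw [h2]
  constructor
  · intro h3
    convert le_trans (le_of_eq e1.symm) (le_trans (by convert h3) (le_of_eq e2)) using 1
  · intro h3
    convert le_trans (le_of_eq e1) (le_trans (by convert h3) (le_of_eq e2.symm)) using 1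

lemma aw23_evol_congr {d : ℕ} (c : Site d → Bool) {q q' : ℕ → Site d → Site d}
    {A : Finset (Site d)} (k : ℕ) (h : ∀ l ≤ k, ∀ i ∈ A, q l i = q' l i) :
    evol c q A k = evol c q' A k := by
  induction k with
  | zero => rfl
  | succ k ih =>
    have h1 := ih fun l hl => h l (by omega)
    show annihilate c (q (k + 1)) (evol c q A k) = annihilate c (q' (k + 1)) (evol c q' A k)
    rw [← h1]
    exact aw23_ann_congr c fun i hi => h (k + 1) le_rfl i (aw23_evol_subset c q A k hi)

lemma aw23_charge {d : ℕ} (c : Site d → Bool) (q : ℕ → Site d → Site d) (A : Finset (Site d))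
    (k : ℕ) : ∑ i ∈ evol c q A k, sgn (c i) = ∑ i ∈ A, sgn (c i) := by
  induction k with
  | zero => rfl
  | succ k ih =>
    rw [← ih]
    have := ann_charge c (q (k + 1)) (evol c q A k) (fun _ => 1)
    simp only [mul_one] at this
    exact this

lemma aw23_dom {d : ℕ} (c : Site d → Bool) (q : ℕ → Site d → Site d) {A A' : Finset (Site d)}
    (h : Dom c A A') (k : ℕ) : Dom c (evol c q A k) (evol c q A' k) := by
  induction k with
  | zero => exact h
  | succ k ih => exact ann_mono ih

/-- Two sets which differ by one unit of charge. -/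
lemma aw23_comb {d : ℕ} (c : Site d → Bool) {E E' : Finset (Site d)} (h : Dom c E E')
    (hs : ∑ i ∈ E', sgn (c i) - ∑ i ∈ E, sgn (c i) = 1) :
    ∃ κ : Site d, (c κ = true ∧ κ ∉ E ∧ E' = insert κ E) ∨
      (c κ = false ∧ κ ∉ E' ∧ E = insert κ E') := by
  classical
  have h1 : ∀ j ∈ E' \ E, c j = true := by
    intro j hj
    rw [Finset.mem_sdiff] at hj
    by_contra hc
    rw [Bool.not_eq_true] at hc
    exact hj.2 (h.2 j hj.1 hc)
  have h2 : ∀ j ∈ E \ E', c j = false := by
    intro j hj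
    rw [Finset.mem_sdiff] at hj
    by_contra hc
    rw [Bool.not_eq_false] at hc
    exact hj.2 (h.1 j hj.1 hc)
  have e1 : ∑ i ∈ E' \ E, sgn (c i) = ((E' \ E).card : ℝ) := by
    rw [Finset.sum_congr rfl (fun j hj => by rw [h1 j hj])]
    simp [sgn]
  have e2 : ∑ i ∈ E \ E', sgn (c i) = -((E \ E').card : ℝ) := by
    rw [Finset.sum_congr rfl (fun j hj => by rw [h2 j hj])]
    simp [sgn]
  rw [← Finset.sum_sdiff_sub_sum_sdiff, e1, e2] at hs
  have hN : (E' \ E).card + (E \ E').card = 1 := by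
    have : (((E' \ E).card + (E \ E').card : ℕ) : ℝ) = 1 := by
      push_cast; linarith
    exact_mod_cast this
  rcases Nat.eq_zero_or_pos (E \ E').card with h0 | h0
  · have hone : (E' \ E).card = 1 := by omega
    obtain ⟨κ, hκ⟩ := Finset.card_eq_one.1 hone
    have hsub : E ⊆ E' := Finset.sdiff_eq_empty_iff_subset.1 (Finset.card_eq_zero.1 h0)
    have hκm : κ ∈ E' \ E := by rw [hκ]; exact Finset.mem_singleton_self κ
    refine ⟨κ, Or.inl ⟨h1 κ hκm, (Finset.mem_sdiff.1 hκm).2, ?_⟩⟩
    rw [← Finset.sdiff_union_of_subset hsub, hκ]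
    rfl
  · have hone : (E \ E').card = 1 := by omega
    have hzero : (E' \ E).card = 0 := by omega
    obtain ⟨κ, hκ⟩ := Finset.card_eq_one.1 hone
    have hsub : E' ⊆ E := Finset.sdiff_eq_empty_iff_subset.1 (Finset.card_eq_zero.1 hzero)
    have hκm : κ ∈ E \ E' := by rw [hκ]; exact Finset.mem_singleton_self κ
    refine ⟨κ, Or.inr ⟨h2 κ hκm, (Finset.mem_sdiff.1 hκm).2, ?_⟩⟩
    rw [← Finset.sdiff_union_of_subset hsub, hκ]
    rfl

theorem evol_one {d : ℕ} (c : Site d → Bool) (q : ℕ → Site d → Site d) (A : Finset (Site d))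
    {i : Site d} (hi : i ∉ A) (k : ℕ) :
    ∃ κ : Site d, (c κ = c i ∧ κ ∉ evol c q A k ∧ evol c q (insert i A) k = insert κ (evol c q A k)) ∨
      (c κ ≠ c i ∧ κ ∉ evol c q (insert i A) k ∧
        evol c q A k = insert κ (evol c q (insert i A) k)) := by
  cases hc : c i with
  | true =>
    have hD : Dom c A (insert i A) := by
      refine ⟨fun j hj _ => Finset.mem_insert_of_mem hj, fun j hj hcj => ?_⟩
      rcases Finset.mem_insert.1 hj with rfl | hj
      · rw [hc] at hcj; exact absurd hcj (by decide)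
      · exact hj
    obtain ⟨κ, hκ⟩ := aw23_comb c (aw23_dom c q hD k) (by
      rw [aw23_charge, aw23_charge, Finset.sum_insert hi, hc]
      simp [sgn])
    refine ⟨κ, ?_⟩
    rcases hκ with ⟨h1, h2, h3⟩ | ⟨h1, h2, h3⟩
    · exact Or.inl ⟨h1, h2, h3⟩
    · exact Or.inr ⟨by rw [h1]; decide, h2, h3⟩
  | false =>
    have hD : Dom c (insert i A) A := by
      refine ⟨fun j hj hcj => ?_, fun j hj _ => Finset.mem_insert_of_mem hj⟩
      rcases Finset.mem_insert.1 hj with rfl | hj
      · rw [hc] at hcj; exact absurd hcj (by decide)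
      · exact hj
    obtain ⟨κ, hκ⟩ := aw23_comb c (aw23_dom c q hD k) (by
      rw [aw23_charge, aw23_charge, Finset.sum_insert hi, hc]
      simp [sgn])
    refine ⟨κ, ?_⟩
    rcases hκ with ⟨h1, h2, h3⟩ | ⟨h1, h2, h3⟩
    · exact Or.inr ⟨by rw [h1]; decide, h2, h3⟩
    · exact Or.inl ⟨h1, h2, h3⟩

theorem alive_one (d : ℕ) [NeZero d] : ∀ᵐ w ∂(noises d), ∀ (c : Site d → Bool)
    (Λ : Finset (Site d)) (i : Site d) (n : ℕ), i ∉ Λ →
    ∃ κ : Site d, (c κ = c i ∧ κ ∉ alive c w Λ n ∧
        alive c w (insert i Λ) n = insert κ (alive c w Λ n)) ∨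
      (c κ ≠ c i ∧ κ ∉ alive c w (insert i Λ) n ∧
        alive c w Λ n = insert κ (alive c w (insert i Λ) n)) := by
  filter_upwards [ae_alive_eq_evol d] with w hw
  intro c Λ i n hi
  obtain ⟨m, h1, h2⟩ := ((hw Λ n).and (hw (insert i Λ) n)).exists
  rw [h1 c, h2 c]
  exact evol_one c _ Λ hi _

/-- The walks which follow the given positions. -/
def aw23_q {d : ℕ} (Λ : Finset (Site d)) (k : ℕ) (u : Fin (k + 1) → Λ → Site d) :
    ℕ → Site d → Site d := fun l i =>
  if h : l < k + 1 ∧ i ∈ Λ then i + u ⟨l, h.1⟩ ⟨i, h.2⟩ else i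

lemma aw23_meas {d : ℕ} (c : Site d → Bool) (Λ : Finset (Site d)) (k : ℕ) (h : ℝ)
    (ψ : (Site d → Site d) → Finset (Site d) → ℝ)
    (hψ : ∀ (q q' : Site d → Site d) (B : Finset (Site d)), B ⊆ Λ → (∀ i ∈ Λ, q i = q' i) →
      ψ q B = ψ q' B) :
    Measurable (fun w : Site d → Noise d =>
      ψ (pos w (k * h)) (evol c (fun l => pos w (l * h)) Λ k)) := by
  have hT : Measurable (fun (w : Site d → Noise d) (l : Fin (k + 1)) (i : Λ) =>
      walk (w i) (l * h)) := by
    refine measurable_pi_lambda _ fun l => measurable_pi_lambda _ fun i => ?_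
    exact (measurable_walk _).comp (measurable_pi_apply _)
  have hG : Measurable (fun u : Fin (k + 1) → Λ → Site d =>
      ψ (aw23_q Λ k u k) (evol c (aw23_q Λ k u) Λ k)) := Measurable.of_discrete
  have hcomp := hG.comp hT
  have hfun : (fun w : Site d → Noise d =>
      ψ (pos w (k * h)) (evol c (fun l => pos w (l * h)) Λ k)) =
      (fun u : Fin (k + 1) → Λ → Site d => ψ (aw23_q Λ k u k) (evol c (aw23_q Λ k u) Λ k)) ∘
        (fun (w : Site d → Noise d) (l : Fin (k + 1)) (i : Λ) => walk (w i) (l * h)) := by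
    funext w
    simp only [Function.comp_apply]
    set u : Fin (k + 1) → Λ → Site d := fun l i => walk (w i) (l * h) with hu
    have hq : ∀ l ≤ k, ∀ i ∈ Λ, pos w (l * h) i = aw23_q Λ k u l i := by
      intro l hl i hi
      unfold aw23_q
      rw [dif_pos ⟨Nat.lt_succ_of_le hl, hi⟩]
      rfl
    have he : evol c (fun l => pos w (l * h)) Λ k = evol c (aw23_q Λ k u) Λ k :=
      aw23_evol_congr c k hq
    rw [he]
    exact hψ _ _ _ (aw23_evol_subset _ _ _ _) (hq k le_rfl)
  rw [hfun]
  exact hcomp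

lemma aw23_abs_sgn (b : Bool) : |sgn b| = 1 := by
  cases b <;> simp [sgn]

theorem charge_alive (d : ℕ) [NeZero d] (c : Site d → Bool) (φ : Site d → ℝ) (C : ℝ)
    (hφ : ∀ x, |φ x| ≤ C) (n : ℕ) (Λ : Finset (Site d)) :
    ∫ w, ∑ i ∈ alive c w Λ n, sgn (c i) * φ (pos w n i) ∂(noises d) =
      ∑ i ∈ Λ, sgn (c i) * ∫ v, φ (i + walk v n) ∂(noiseLaw d) := by
  have := prob_noises d
  have hC : 0 ≤ C := (abs_nonneg _).trans (hφ 0)
  have hkn : ∀ m : ℕ, ((n * 2 ^ m : ℕ) : ℝ) * (1 / 2 ^ m) = n := by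
    intro m
    push_cast
    field_simp
  set F : ℕ → (Site d → Noise d) → ℝ := fun m w =>
    ∑ i ∈ evol c (fun l => pos w (l * (1 / 2 ^ m : ℝ))) Λ (n * 2 ^ m),
      sgn (c i) * φ (pos w n i) with hF
  have hint : ∀ m, ∫ w, F m w ∂(noises d) =
      ∑ i ∈ Λ, sgn (c i) * ∫ v, φ (i + walk v n) ∂(noiseLaw d) := by
    intro m
    have key := charge_grid d c φ C hφ (h := 1 / 2 ^ m) (by positivity) (n * 2 ^ m) Λ id
    rw [hkn m] at key
    exact key
  have hmeas : ∀ m, Measurable (F m) := by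
    intro m
    have h1 := aw23_meas c Λ (n * 2 ^ m) (1 / 2 ^ m)
      (fun q B => ∑ i ∈ B, sgn (c i) * φ (q i)) (fun q q' B hB hq =>
        Finset.sum_congr rfl fun i hi => by rw [hq i (hB hi)])
    rw [hkn m] at h1
    exact h1
  have hlim : Tendsto (fun m => ∫ w, F m w ∂(noises d)) atTop
      (𝓝 (∫ w, ∑ i ∈ alive c w Λ n, sgn (c i) * φ (pos w n i) ∂(noises d))) := by
    refine tendsto_integral_of_dominated_convergence (fun _ => Λ.card * C)
      (fun m => (hmeas m).aestronglyMeasurable) (integrable_const _) (fun m => ?_) ?_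
    · filter_upwards with w
      rw [Real.norm_eq_abs]
      refine (Finset.abs_sum_le_sum_abs _ _).trans ?_
      have h1 : ∀ i ∈ evol c (fun l => pos w (l * (1 / 2 ^ m : ℝ))) Λ (n * 2 ^ m),
          |sgn (c i) * φ (pos w n i)| ≤ C := by
        intro i _
        rw [abs_mul, aw23_abs_sgn, one_mul]
        exact hφ _
      refine (Finset.sum_le_card_nsmul _ _ _ h1).trans ?_
      rw [nsmul_eq_mul]
      refine mul_le_mul_of_nonneg_right ?_ hC
      exact_mod_cast Finset.card_le_card (aw23_evol_subset _ _ _ _)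
    · filter_upwards [ae_alive_eq_evol d] with w hw
      refine tendsto_const_nhds.congr' ?_
      filter_upwards [hw Λ n] with m hm
      simp only [hF]
      rw [hm c]
  have hc : Tendsto (fun m => ∫ w, F m w ∂(noises d)) atTop
      (𝓝 (∑ i ∈ Λ, sgn (c i) * ∫ v, φ (i + walk v n) ∂(noiseLaw d))) := by
    simp_rw [hint]
    exact tendsto_const_nhds
  exact tendsto_nhds_unique hlim hc

end Pool.Agent.H285
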