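import Pool.Agent.H285.Base2
import Pool.Agent.H285.AW23

/-!
# AW24 (MP_0e9fac_pr)
-/



open MeasureTheory ProbabilityTheory Filter Topology

namespace Pool.Agent.H285


/- ======== TARGETS ======== -/

theorem aw24_integrable (d : ℕ) [NeZero d] (c : Site d → Bool) (φ : Site d → ℝ) (C : ℝ)
    (hφ : ∀ x, |φ x| ≤ C) (n : ℕ) (g : Site d → ℝ) (hg : ∀ i, |g i| ≤ 1) (Λ : Finset (Site d)) :
    Integrable (fun w => ∑ i ∈ alive c w Λ n, g i * φ (pos w n i)) (noises d) := by
  haveI := prob_noises d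
  obtain ⟨A, N, hA1, hA2, -, hN, hA4⟩ := exists_version d Λ n
  have hC0 : 0 ≤ C := le_trans (abs_nonneg _) (hφ 0)
  have hae : ∀ᵐ w ∂(noises d), alive c w Λ n = A (c, w) := by
    have h1 : ∀ᵐ w ∂(noises d), w ∉ N := by
      rw [ae_iff]
      simpa using hN
    filter_upwards [h1] with w hw
    exact hA4 c w hw
  have hphi : Measurable φ := measurable_of_countable φ
  have hpos : ∀ i, Measurable (fun w : Site d → Noise d => φ (pos w n i)) := by
    intro i
    apply hphi.comp
    unfold pos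
    exact ((measurable_walk (n : ℝ)).comp (measurable_pi_apply i)).const_add i
  have hG : ∀ B : Finset (Site d), Measurable (fun w : Site d → Noise d =>
      ∑ i ∈ B, g i * φ (pos w n i)) := by
    intro B
    exact Finset.measurable_fun_sum _ fun i _ => (hpos i).const_mul (g i)
  have hmeas : Measurable (fun w : Site d → Noise d =>
      ∑ B ∈ Λ.powerset, Set.indicator {w | A (c, w) = B}
        (fun w => ∑ i ∈ B, g i * φ (pos w n i)) w) := by
    refine Finset.measurable_fun_sum _ fun B _ => ?_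
    refine (hG B).indicator ?_
    exact measurable_prodMk_left (hA1 B)
  have heq : ∀ w : Site d → Noise d, ∑ B ∈ Λ.powerset, Set.indicator {w | A (c, w) = B}
        (fun w => ∑ i ∈ B, g i * φ (pos w n i)) w = ∑ i ∈ A (c, w), g i * φ (pos w n i) := by
    intro w
    rw [Finset.sum_eq_single (A (c, w))]
    · rw [Set.indicator_of_mem]
      exact rfl
    · intro B _ hB
      rw [Set.indicator_of_notMem]
      intro h
      exact hB h.symm
    · intro h
      exact absurd (Finset.mem_powerset.mpr (hA2 (c, w))) h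
  have hsm : AEStronglyMeasurable (fun w => ∑ i ∈ alive c w Λ n, g i * φ (pos w n i))
      (noises d) := by
    refine (hmeas.aestronglyMeasurable).congr ?_
    filter_upwards [hae] with w hw
    rw [heq w, hw]
  refine Integrable.of_bound hsm (Λ.card * C) ?_
  filter_upwards [hae] with w hw
  rw [hw]
  refine le_trans (norm_sum_le _ _) ?_
  have h2 : ∀ i ∈ A (c, w), ‖g i * φ (pos w n i)‖ ≤ C := by
    intro i _
    rw [norm_mul, Real.norm_eq_abs, Real.norm_eq_abs]
    calc |g i| * |φ (pos w n i)| ≤ 1 * C :=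
          mul_le_mul (hg i) (hφ _) (abs_nonneg _) zero_le_one
      _ = C := one_mul C
  refine le_trans (Finset.sum_le_sum h2) ?_
  rw [Finset.sum_const, nsmul_eq_mul]
  apply mul_le_mul_of_nonneg_right _ hC0
  exact_mod_cast Finset.card_le_card (hA2 (c, w))

theorem aw24_sgn_sq (b : Bool) : sgn b * sgn b = 1 := by
  cases b <;> simp [sgn]

theorem aw24_sgn_abs (b : Bool) : |sgn b| ≤ 1 := by
  cases b <;> simp [sgn]

theorem aw24_sgn_ne {a b : Bool} (h : a ≠ b) : sgn a = - sgn b := by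
  cases a <;> cases b <;> simp_all [sgn]

theorem aw24_one (d : ℕ) [NeZero d] (c : Site d → Bool) (φ : Site d → ℝ) (C : ℝ)
    (hφ0 : ∀ x, 0 ≤ φ x) (hφ : ∀ x, φ x ≤ C) (n : ℕ) (g : Site d → ℝ) (hg : ∀ i, |g i| ≤ 1)
    (Λ : Finset (Site d)) (a : Site d) (ha : a ∉ Λ) :
    ∫ w, |∑ i ∈ alive c w (insert a Λ) n, g i * φ (pos w n i) -
      ∑ i ∈ alive c w Λ n, g i * φ (pos w n i)| ∂(noises d) ≤
      ∫ v, φ (a + walk v n) ∂(noiseLaw d) := by
  have habs : ∀ x, |φ x| ≤ C := fun x => by rw [abs_of_nonneg (hφ0 x)]; exact hφ x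
  have hsg : ∀ i, |sgn (c i)| ≤ 1 := fun i => aw24_sgn_abs _
  have i1 := aw24_integrable d c φ C habs n g hg Λ
  have i2 := aw24_integrable d c φ C habs n g hg (insert a Λ)
  have i3 := aw24_integrable d c φ C habs n (fun i => sgn (c i)) hsg Λ
  have i4 := aw24_integrable d c φ C habs n (fun i => sgn (c i)) hsg (insert a Λ)
  have hR : ∫ v, φ (a + walk v n) ∂(noiseLaw d) =
      ∫ w, sgn (c a) * (∑ i ∈ alive c w (insert a Λ) n, sgn (c i) * φ (pos w n i) -
        ∑ i ∈ alive c w Λ n, sgn (c i) * φ (pos w n i)) ∂(noises d) := by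
    rw [integral_const_mul, integral_sub i4 i3, charge_alive d c φ C habs n,
      charge_alive d c φ C habs n, Finset.sum_insert ha, add_sub_cancel_right, ← mul_assoc,
      aw24_sgn_sq, one_mul]
  rw [hR]
  refine integral_mono_ae (i2.sub i1).abs ((i4.sub i3).const_mul _) ?_
  filter_upwards [alive_one d] with w hw
  obtain ⟨κ, h | h⟩ := hw c Λ a n ha
  · obtain ⟨h1, h2, h3⟩ := h
    show |∑ i ∈ alive c w (insert a Λ) n, g i * φ (pos w n i) -
      ∑ i ∈ alive c w Λ n, g i * φ (pos w n i)| ≤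
      sgn (c a) * (∑ i ∈ alive c w (insert a Λ) n, sgn (c i) * φ (pos w n i) -
        ∑ i ∈ alive c w Λ n, sgn (c i) * φ (pos w n i))
    rw [h3, Finset.sum_insert h2, Finset.sum_insert h2, add_sub_cancel_right,
      add_sub_cancel_right, h1, ← mul_assoc, aw24_sgn_sq, one_mul, abs_mul,
      abs_of_nonneg (hφ0 _)]
    calc |g κ| * φ (pos w n κ) ≤ 1 * φ (pos w n κ) :=
          mul_le_mul_of_nonneg_right (hg κ) (hφ0 _)
      _ = φ (pos w n κ) := one_mul _
  · obtain ⟨h1, h2, h3⟩ := h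
    show |∑ i ∈ alive c w (insert a Λ) n, g i * φ (pos w n i) -
      ∑ i ∈ alive c w Λ n, g i * φ (pos w n i)| ≤
      sgn (c a) * (∑ i ∈ alive c w (insert a Λ) n, sgn (c i) * φ (pos w n i) -
        ∑ i ∈ alive c w Λ n, sgn (c i) * φ (pos w n i))
    have e1 : ∀ x y : ℝ, y - (x + y) = -x := fun x y => by ring
    rw [h3, Finset.sum_insert h2, Finset.sum_insert h2, e1, e1, aw24_sgn_ne h1, neg_mul, neg_neg,
      ← mul_assoc, aw24_sgn_sq, one_mul, abs_neg, abs_mul, abs_of_nonneg (hφ0 _)]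
    calc |g κ| * φ (pos w n κ) ≤ 1 * φ (pos w n κ) :=
          mul_le_mul_of_nonneg_right (hg κ) (hφ0 _)
      _ = φ (pos w n κ) := one_mul _

theorem aw24_union (d : ℕ) [NeZero d] (c : Site d → Bool) (φ : Site d → ℝ) (C : ℝ)
    (hφ0 : ∀ x, 0 ≤ φ x) (hφ : ∀ x, φ x ≤ C) (n : ℕ) (g : Site d → ℝ) (hg : ∀ i, |g i| ≤ 1)
    (Λ F : Finset (Site d)) :
    ∫ w, |∑ i ∈ alive c w (Λ ∪ F) n, g i * φ (pos w n i) -
      ∑ i ∈ alive c w Λ n, g i * φ (pos w n i)| ∂(noises d) ≤
      ∑ i ∈ F \ Λ, ∫ v, φ (i + walk v n) ∂(noiseLaw d) := by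
  classical
  have habs : ∀ x, |φ x| ≤ C := fun x => by rw [abs_of_nonneg (hφ0 x)]; exact hφ x
  induction F using Finset.induction_on with
  | empty => simp
  | insert a F haF ih =>
    by_cases ha : a ∈ Λ
    · have e1 : Λ ∪ insert a F = Λ ∪ F := by
        ext x; simp only [Finset.mem_union, Finset.mem_insert]
        constructor
        · rintro (h | h | h)
          · exact Or.inl h
          · exact Or.inl (h ▸ ha)
          · exact Or.inr h
        · rintro (h | h)
          · exact Or.inl h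
          · exact Or.inr (Or.inr h)
      rw [e1, Finset.insert_sdiff_of_mem F ha]
      exact ih
    · have e1 : Λ ∪ insert a F = insert a (Λ ∪ F) := by
        rw [Finset.union_insert]
      have haU : a ∉ Λ ∪ F := by simp [ha, haF]
      have haS : a ∉ F \ Λ := by simp [haF]
      rw [e1, Finset.insert_sdiff_of_notMem F ha, Finset.sum_insert haS]
      have h1 := aw24_one d c φ C hφ0 hφ n g hg (Λ ∪ F) a haU
      have i1 := aw24_integrable d c φ C habs n g hg Λ
      have i2 := aw24_integrable d c φ C habs n g hg (Λ ∪ F)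
      have i3 := aw24_integrable d c φ C habs n g hg (insert a (Λ ∪ F))
      have h2 : ∫ w, |∑ i ∈ alive c w (insert a (Λ ∪ F)) n, g i * φ (pos w n i) -
          ∑ i ∈ alive c w Λ n, g i * φ (pos w n i)| ∂(noises d) ≤
          ∫ w, (|∑ i ∈ alive c w (insert a (Λ ∪ F)) n, g i * φ (pos w n i) -
            ∑ i ∈ alive c w (Λ ∪ F) n, g i * φ (pos w n i)| +
            |∑ i ∈ alive c w (Λ ∪ F) n, g i * φ (pos w n i) -
            ∑ i ∈ alive c w Λ n, g i * φ (pos w n i)|) ∂(noises d) := by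
        refine integral_mono (i3.sub i1).abs ((i3.sub i2).abs.add (i2.sub i1).abs) ?_
        intro w
        exact abs_sub_le _ _ _
      have h3 := integral_add (μ := noises d) (i3.sub i2).abs (i2.sub i1).abs
      simp only [Pi.sub_apply] at h3
      rw [h3] at h2
      linarith

/-- adding the particles of a finite set `F` to the system `Λ` -/
theorem fieldc_union (d : ℕ) [NeZero d] (c : Site d → Bool) (φ : Site d → ℝ) (C : ℝ)
    (hφ0 : ∀ x, 0 ≤ φ x) (hφ : ∀ x, φ x ≤ C) (n : ℕ) (b : Bool) (Λ F : Finset (Site d)) :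
    ∫ w, |fieldc c w (Λ ∪ F) b n φ - fieldc c w Λ b n φ| ∂(noises d) ≤
      ∑ i ∈ F \ Λ, ∫ v, φ (i + walk v n) ∂(noiseLaw d) := by
  have hg : ∀ i, |(if c i = b then (1 : ℝ) else 0)| ≤ 1 := by
    intro i; split_ifs <;> simp
  have h := aw24_union d c φ C hφ0 hφ n (fun i => if c i = b then (1 : ℝ) else 0) hg Λ F
  unfold fieldc
  simpa only [ite_mul, one_mul, zero_mul] using h

theorem field_union (d : ℕ) [NeZero d] (c : Site d → Bool) (φ : Site d → ℝ) (C : ℝ)
    (hφ0 : ∀ x, 0 ≤ φ x) (hφ : ∀ x, φ x ≤ C) (n : ℕ) (Λ F : Finset (Site d)) :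
    ∫ w, |field c w (Λ ∪ F) n φ - field c w Λ n φ| ∂(noises d) ≤
      ∑ i ∈ F \ Λ, ∫ v, φ (i + walk v n) ∂(noiseLaw d) := by
  have h := aw24_union d c φ C hφ0 hφ n (fun _ => (1 : ℝ)) (fun _ => by simp) Λ F
  unfold field
  simpa only [one_mul] using h

end Pool.Agent.H285
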