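import Pool.Agent.H285.Base2
import Pool.Agent.H285.AW23
import Pool.Agent.H285.AW10
import Pool.Agent.H285.AW20

/-!
# AW25 (MP_0e9fac_pr)
-/



open MeasureTheory ProbabilityTheory Filter Topology

namespace Pool.Agent.H285


/- ======== TARGETS ======== -/

theorem aw25var_evol_subset {d : ℕ} (c : Site d → Bool) (q : ℕ → Site d → Site d)
    (A : Finset (Site d)) (k : ℕ) : evol c q A k ⊆ A := by
  induction k with
  | zero => exact Finset.Subset.refl _
  | succ k ih => exact (ann_subset _ _ _).trans ih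

theorem aw25var_evol_congr {d : ℕ} {c c' : Site d → Bool} {q q' : ℕ → Site d → Site d}
    {A : Finset (Site d)} (hc : ∀ i ∈ A, c i = c' i) (k : ℕ)
    (hq : ∀ l ≤ k, ∀ i ∈ A, q l i = q' l i) : evol c q A k = evol c' q' A k := by
  induction k with
  | zero => rfl
  | succ k ih =>
    show annihilate c (q (k + 1)) (evol c q A k) = annihilate c' (q' (k + 1)) (evol c' q' A k)
    rw [ih (fun l hl => hq l (hl.trans (Nat.le_succ k)))]
    exact ann_congr (fun i hi => hc i (aw25var_evol_subset _ _ _ _ hi))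
      (fun i hi => hq _ le_rfl i (aw25var_evol_subset _ _ _ _ hi))

/-- The discretised functional. -/
noncomputable def aw25varS {d : ℕ} (m n : ℕ) (A : Finset (Site d)) (ψ : Bool → Site d → ℝ)
    (c : Site d → Bool) (w : Site d → Noise d) : ℝ :=
  ∑ i ∈ evol c (fun l => pos w (l * (1 / 2 ^ m : ℝ))) A (n * 2 ^ m), ψ (c i) (pos w n i)

theorem aw25var_depends {d : ℕ} (m n : ℕ) (A : Finset (Site d)) (ψ : Bool → Site d → ℝ)
    {c c' : Site d → Bool} {w w' : Site d → Noise d} (hc : ∀ i ∈ A, c i = c' i)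
    (hw : ∀ i ∈ A, w i = w' i) : aw25varS m n A ψ c w = aw25varS m n A ψ c' w' := by
  unfold aw25varS
  have h1 : evol c (fun l => pos w (l * (1 / 2 ^ m : ℝ))) A (n * 2 ^ m) =
      evol c' (fun l => pos w' (l * (1 / 2 ^ m : ℝ))) A (n * 2 ^ m) := by
    refine aw25var_evol_congr hc _ (fun l _ i hi => ?_)
    show i + walk (w i) _ = i + walk (w' i) _
    rw [hw i hi]
  rw [h1]
  refine Finset.sum_congr rfl fun i hi => ?_
  have hi' := aw25var_evol_subset _ _ _ _ hi
  rw [hc i hi']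
  show ψ (c' i) (i + walk (w i) _) = ψ (c' i) (i + walk (w' i) _)
  rw [hw i hi']

theorem aw25var_meas {d : ℕ} (m n : ℕ) (A : Finset (Site d)) (ψ : Bool → Site d → ℝ) :
    Measurable (fun ω : Sample d => aw25varS m n A ψ ω.1 ω.2) := by
  classical
  let K := n * 2 ^ m
  let Φ : Sample d → (A → Bool) × (A → Fin (K + 1) → Site d) × (A → Site d) := fun ω =>
    (fun i => ω.1 i, fun i l => pos ω.2 (l * (1 / 2 ^ m : ℝ)) i, fun i => pos ω.2 n i)
  let cc : ((A → Bool) × (A → Fin (K + 1) → Site d) × (A → Site d)) → Site d → Bool :=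
    fun z i => if h : i ∈ A then z.1 ⟨i, h⟩ else false
  let qq : ((A → Bool) × (A → Fin (K + 1) → Site d) × (A → Site d)) → ℕ → Site d → Site d :=
    fun z l i => if h : i ∈ A then (if h' : l < K + 1 then z.2.1 ⟨i, h⟩ ⟨l, h'⟩ else 0) else 0
  let rr : ((A → Bool) × (A → Fin (K + 1) → Site d) × (A → Site d)) → Site d → Site d :=
    fun z i => if h : i ∈ A then z.2.2 ⟨i, h⟩ else 0
  let G : ((A → Bool) × (A → Fin (K + 1) → Site d) × (A → Site d)) → ℝ :=
    fun z => ∑ i ∈ evol (cc z) (qq z) A K, ψ (cc z i) (rr z i)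
  have hdisc : DiscreteMeasurableSpace
      ((A → Bool) × (A → Fin (K + 1) → Site d) × (A → Site d)) :=
    MeasurableSingletonClass.toDiscreteMeasurableSpace
  have hG : Measurable G := Measurable.of_discrete
  have hpos : ∀ (t : ℝ) (i : Site d), Measurable (fun ω : Sample d => pos ω.2 t i) := by
    intro t i
    have h1 : Measurable (fun y : Site d => i + y) := Measurable.of_discrete
    exact h1.comp ((measurable_walk t).comp ((measurable_pi_apply i).comp measurable_snd))
  have hΦ : Measurable Φ := by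
    refine Measurable.prodMk ?_ (Measurable.prodMk ?_ ?_)
    · exact measurable_pi_lambda _ fun i => (measurable_pi_apply _).comp measurable_fst
    · exact measurable_pi_lambda _ fun i => measurable_pi_lambda _ fun l => hpos _ _
    · exact measurable_pi_lambda _ fun i => hpos _ _
  have hfin : (fun ω : Sample d => aw25varS m n A ψ ω.1 ω.2) = G ∘ Φ := by
    funext ω
    show aw25varS m n A ψ ω.1 ω.2 = ∑ i ∈ evol (cc (Φ ω)) (qq (Φ ω)) A K,
      ψ (cc (Φ ω) i) (rr (Φ ω) i)
    have h1 : evol ω.1 (fun l => pos ω.2 (l * (1 / 2 ^ m : ℝ))) A K =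
        evol (cc (Φ ω)) (qq (Φ ω)) A K := by
      refine aw25var_evol_congr ?_ K ?_
      · intro i hi
        show ω.1 i = if h : i ∈ A then ω.1 i else false
        rw [dif_pos hi]
      · intro l hl i hi
        show pos ω.2 (l * (1 / 2 ^ m : ℝ)) i =
          if h : i ∈ A then (if h' : l < K + 1 then pos ω.2 (l * (1 / 2 ^ m : ℝ)) i else 0) else 0
        rw [dif_pos hi, dif_pos (Nat.lt_succ_of_le hl)]
    unfold aw25varS
    rw [← h1]
    refine Finset.sum_congr rfl fun i hi => ?_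
    have hi' : i ∈ A := aw25var_evol_subset _ _ _ _ hi
    have h2 : cc (Φ ω) i = ω.1 i := by
      show (if h : i ∈ A then ω.1 i else false) = ω.1 i
      rw [dif_pos hi']
    have h3 : rr (Φ ω) i = pos ω.2 n i := by
      show (if h : i ∈ A then pos ω.2 n i else 0) = pos ω.2 n i
      rw [dif_pos hi']
    rw [h2, h3]
  rw [hfin]
  exact hG.comp hΦ

theorem aw25var_meas_w {d : ℕ} (m n : ℕ) (A : Finset (Site d)) (ψ : Bool → Site d → ℝ)
    (c : Site d → Bool) : Measurable (fun w : Site d → Noise d => aw25varS m n A ψ c w) := by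
  have h := aw25var_meas m n A ψ
  have h2 : Measurable (fun w : Site d → Noise d => ((c, w) : Sample d)) :=
    measurable_const.prodMk measurable_id
  exact h.comp h2

theorem aw25var_bound {d : ℕ} (m n : ℕ) (A : Finset (Site d)) (ψ : Bool → Site d → ℝ) {B : ℝ}
    (hB : ∀ b x, |ψ b x| ≤ B) (c : Site d → Bool) (w : Site d → Noise d) :
    |aw25varS m n A ψ c w| ≤ A.card * B := by
  have hB0 : 0 ≤ B := (abs_nonneg _).trans (hB true 0)
  unfold aw25varS
  refine (Finset.abs_sum_le_sum_abs _ _).trans ?_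
  refine (Finset.sum_le_card_nsmul _ _ B (fun i _ => hB _ _)).trans ?_
  rw [nsmul_eq_mul]
  exact mul_le_mul_of_nonneg_right
    (by exact_mod_cast Finset.card_le_card (aw25var_evol_subset _ _ _ _)) hB0

theorem aw25var_charge (d : ℕ) [NeZero d] (m n : ℕ) (A : Finset (Site d)) (c : Site d → Bool)
    (φ : Site d → ℝ) (C : ℝ) (hφ : ∀ x, |φ x| ≤ C) :
    ∫ w, aw25varS m n A (fun b x => sgn b * φ x) c w ∂(noises d) =
      ∑ i ∈ A, sgn (c i) * ∫ v, φ (i + walk v n) ∂(noiseLaw d) := by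
  have h := charge_grid d c φ C hφ (h := (1 / 2 ^ m : ℝ)) (by positivity) (n * 2 ^ m) A
    (fun i => i)
  have e : ((n * 2 ^ m : ℕ) : ℝ) * (1 / 2 ^ m : ℝ) = n := by
    push_cast
    field_simp
  rw [e] at h
  exact h

theorem aw25var_sgn_sq (b : Bool) : sgn b * sgn b = 1 := by
  cases b <;> simp [sgn]

theorem aw25var_sgn_ne {a b : Bool} (h : a ≠ b) : sgn a = - sgn b := by
  cases a <;> cases b <;> simp_all [sgn]

theorem aw25var_sq {d : ℕ} (m n : ℕ) (A : Finset (Site d)) (φ : Site d → ℝ)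
    (c : Site d → Bool) (w : Site d → Noise d) {i : Site d} (hi : i ∈ A) :
    (aw25varS m n A (fun _ x => φ x) c w - aw25varS m n (A.erase i) (fun _ x => φ x) c w) ^ 2 =
      sgn (c i) * (aw25varS m n A (fun b x => sgn b * φ x ^ 2) c w -
        aw25varS m n (A.erase i) (fun b x => sgn b * φ x ^ 2) c w) := by
  obtain ⟨κ, h | h⟩ := evol_one c (fun l => pos w (l * (1 / 2 ^ m : ℝ))) (A.erase i)
    (Finset.notMem_erase i A) (n * 2 ^ m)
  · obtain ⟨h1, h2, h3⟩ := h
    rw [Finset.insert_erase hi] at h3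
    have e : ∀ ψ : Bool → Site d → ℝ, aw25varS m n A ψ c w - aw25varS m n (A.erase i) ψ c w =
        ψ (c i) (pos w n κ) := by
      intro ψ
      unfold aw25varS
      rw [h3, Finset.sum_insert h2, h1]
      ring
    rw [e, e]
    have := aw25var_sgn_sq (c i)
    linear_combination -(φ (pos w n κ) ^ 2) * this
  · obtain ⟨h1, h2, h3⟩ := h
    rw [Finset.insert_erase hi] at h2 h3
    have e : ∀ ψ : Bool → Site d → ℝ, aw25varS m n A ψ c w - aw25varS m n (A.erase i) ψ c w =
        - ψ (c κ) (pos w n κ) := by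
      intro ψ
      unfold aw25varS
      rw [h3, Finset.sum_insert h2]
      ring
    rw [e, e, aw25var_sgn_ne h1]
    have := aw25var_sgn_sq (c i)
    linear_combination -(φ (pos w n κ) ^ 2) * this

theorem aw25var_int {α : Type*} [MeasurableSpace α] {μ : Measure α} [IsFiniteMeasure μ]
    {f : α → ℝ} (hf : Measurable f) {C : ℝ} (hC : ∀ x, |f x| ≤ C) : Integrable f μ :=
  Integrable.mono' (integrable_const C) hf.aestronglyMeasurable
    (ae_of_all _ fun x => by rw [Real.norm_eq_abs]; exact hC x)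

theorem aw25var_jensen {α : Type*} [MeasurableSpace α] {μ : Measure α} [IsProbabilityMeasure μ]
    {f : α → ℝ} (hf : Measurable f) {C : ℝ} (hC : ∀ x, |f x| ≤ C) :
    (∫ x, f x ∂μ) ^ 2 ≤ ∫ x, f x ^ 2 ∂μ := by
  have h1 : Integrable f μ := aw25var_int hf hC
  have h2 : Integrable (fun x => f x ^ 2) μ := by
    refine aw25var_int (C := C ^ 2) (hf.pow_const 2) fun x => ?_
    rw [abs_of_nonneg (sq_nonneg _)]
    exact sq_le_sq' (by linarith [neg_abs_le (f x), hC x]) ((le_abs_self _).trans (hC x))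
  set a := ∫ x, f x ∂μ with ha
  have h3 : 0 ≤ ∫ x, (f x - a) ^ 2 ∂μ := integral_nonneg fun x => sq_nonneg _
  have h4 : ∫ x, (f x - a) ^ 2 ∂μ = ∫ x, f x ^ 2 ∂μ - a ^ 2 := by
    have e : (fun x => (f x - a) ^ 2) = fun x => f x ^ 2 - 2 * a * f x + a ^ 2 := by
      funext x; ring
    have i1 : Integrable (fun x => f x ^ 2 - 2 * a * f x) μ := h2.sub (h1.const_mul (2 * a))
    rw [e, integral_add i1 (integrable_const _),
      integral_sub h2 (h1.const_mul (2 * a)), integral_const_mul, ← ha]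
    simp
    ring
  linarith

theorem aw25var_step (d : ℕ) [NeZero d] (m n : ℕ) (A : Finset (Site d)) (φ : Site d → ℝ)
    {B : ℝ} (hB : ∀ x, |φ x| ≤ B) (c : Site d → Bool) {i : Site d} (hi : i ∈ A) :
    ∫ w, (aw25varS m n A (fun _ x => φ x) c w -
        aw25varS m n (A.erase i) (fun _ x => φ x) c w) ^ 2 ∂(noises d) =
      ∫ v, φ (i + walk v n) ^ 2 ∂(noiseLaw d) := by
  have := prob_noises d
  have hB2 : ∀ x, |φ x ^ 2| ≤ B ^ 2 := by
    intro x
    rw [abs_of_nonneg (sq_nonneg _)]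
    exact sq_le_sq' (by linarith [neg_abs_le (φ x), hB x]) ((le_abs_self _).trans (hB x))
  have hB3 : ∀ (b : Bool) x, |(fun b x => sgn b * φ x ^ 2) b x| ≤ B ^ 2 := by
    intro b x
    show |sgn b * φ x ^ 2| ≤ B ^ 2
    rw [abs_mul]
    have : |sgn b| = 1 := by cases b <;> simp [sgn]
    rw [this, one_mul]
    exact hB2 x
  simp only [aw25var_sq m n A φ c _ hi]
  rw [integral_const_mul, integral_sub
    (aw25var_int (aw25var_meas_w _ _ _ _ _) (aw25var_bound m n A _ hB3 c))
    (aw25var_int (aw25var_meas_w _ _ _ _ _) (aw25var_bound m n (A.erase i) _ hB3 c)),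
    aw25var_charge d m n A c (fun x => φ x ^ 2) _ hB2,
    aw25var_charge d m n (A.erase i) c (fun x => φ x ^ 2) _ hB2,
    ← Finset.add_sum_erase A _ hi, add_sub_cancel_right, ← mul_assoc, aw25var_sgn_sq, one_mul]

theorem aw25var_colourLaw {p : ℝ} (hp : p ∈ Set.Icc (0 : ℝ) 1) :
    IsProbabilityMeasure (colourLaw p) := by
  constructor
  unfold colourLaw
  simp only [Measure.coe_add, Measure.coe_smul, Pi.add_apply, Pi.smul_apply, measure_univ,
    smul_eq_mul, mul_one]
  rw [← ENNReal.ofReal_add hp.1 (by linarith [hp.2])]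
  simp

theorem aw25var_disc (d : ℕ) [NeZero d] {p : ℝ} (hp : p ∈ Set.Icc (0 : ℝ) 1)
    (φ : Site d → ℝ) {B : ℝ} (hB : ∀ x, |φ x| ≤ B) (hφ : Summable fun x => φ x ^ 2) (m n : ℕ)
    (Λ : Finset (Site d)) :
    ∫ ω, aw25varS m n Λ (fun _ x => φ x) ω.1 ω.2 ^ 2 ∂(law d p) ≤
      (∫ ω, aw25varS m n Λ (fun _ x => φ x) ω.1 ω.2 ∂(law d p)) ^ 2 + 2 * ∑' x, φ x ^ 2 := by
  have := prob_noises d
  have := prob_colours d hp
  have := prob_noiseLaw d
  have := aw25var_colourLaw hp
  have : IsProbabilityMeasure (Measure.infinitePi fun _ : Site d => noiseLaw d) :=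
    prob_noises d
  have : IsProbabilityMeasure (Measure.infinitePi fun _ : Site d => colourLaw p) :=
    prob_colours d hp
  have hlaw : law d p = (colours d p).prod (noises d) := rfl
  have hB0 : 0 ≤ B := (abs_nonneg _).trans (hB 0)
  set f : (Site d → Bool) → (Site d → Noise d) → ℝ :=
    fun c w => aw25varS m n Λ (fun _ x => φ x) c w with hf
  set g : Site d → (Site d → Bool) → (Site d → Noise d) → ℝ :=
    fun i c w => aw25varS m n (Λ.erase i) (fun _ x => φ x) c w with hg
  set C : ℝ := Λ.card * B with hC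
  have hfC : ∀ c w, |f c w| ≤ C := fun c w => aw25var_bound m n Λ _ (fun _ x => hB x) c w
  have hgC : ∀ i c w, |g i c w| ≤ C := fun i c w =>
    (aw25var_bound m n (Λ.erase i) _ (fun _ x => hB x) c w).trans
      (mul_le_mul_of_nonneg_right
        (by exact_mod_cast Finset.card_le_card (Finset.erase_subset i Λ)) hB0)
  have hfm : Measurable (fun ω : Sample d => f ω.1 ω.2) := aw25var_meas m n Λ _
  have hgm : ∀ i, Measurable (fun ω : Sample d => g i ω.1 ω.2) := fun i =>
    aw25var_meas m n (Λ.erase i) _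
  have hfw : ∀ c, Measurable (f c) := fun c => aw25var_meas_w m n Λ _ c
  have hgw : ∀ i c, Measurable (g i c) := fun i c => aw25var_meas_w m n (Λ.erase i) _ c
  -- the total
  set S : ℝ := ∑ i ∈ Λ, ∫ v, φ (i + walk v n) ^ 2 ∂(noiseLaw d) with hS
  have hst : ∀ c, ∀ i ∈ Λ, ∫ w, (f c w - g i c w) ^ 2 ∂(noises d) =
      ∫ v, φ (i + walk v n) ^ 2 ∂(noiseLaw d) := fun c i hi =>
    aw25var_step d m n Λ φ hB c hi
  have hST : S ≤ ∑' x, φ x ^ 2 := by
    have hint : ∀ i ∈ Λ, Integrable (fun v => φ (i + walk v n) ^ 2) (noiseLaw d) := by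
      intro i _
      refine aw25var_int (C := B ^ 2) ?_ fun v => ?_
      · have h1 : Measurable (fun y : Site d => φ (i + y) ^ 2) := Measurable.of_discrete
        exact h1.comp (measurable_walk _)
      · rw [abs_of_nonneg (sq_nonneg _)]
        exact sq_le_sq' (by linarith [neg_abs_le (φ (i + walk v n)), hB (i + walk v n)])
          ((le_abs_self _).trans (hB _))
    rw [hS, ← integral_finsetSum _ hint]
    have h1 : ∫ v, ∑ i ∈ Λ, φ (i + walk v n) ^ 2 ∂(noiseLaw d) ≤
        ∫ _v, ∑' x, φ x ^ 2 ∂(noiseLaw d) := by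
      refine integral_mono (integrable_finsetSum _ hint) (integrable_const _) fun v => ?_
      show ∑ i ∈ Λ, φ (i + walk v n) ^ 2 ≤ ∑' x, φ x ^ 2
      have h2 : Summable (fun i => φ (i + walk v n) ^ 2) :=
        (Equiv.addRight (walk v n)).summable_iff.mpr hφ
      have h3 : ∑' i, φ (i + walk v n) ^ 2 = ∑' x, φ x ^ 2 :=
        (Equiv.addRight (walk v n)).tsum_eq (fun x => φ x ^ 2)
      rw [← h3]
      exact h2.sum_le_tsum _ (fun i _ => sq_nonneg _)
    refine h1.trans ?_
    simp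
  -- Efron-Stein in the noise
  have hES1 : ∀ c, ∫ w, f c w ^ 2 ∂(noises d) ≤ (∫ w, f c w ∂(noises d)) ^ 2 + S := by
    intro c
    have h := efron_stein (noiseLaw d) Λ (f c) (fun i => g i c) C (hfw c) (hfC c)
      (fun i => hgw i c) (fun i => hgC i c)
      (fun x y hxy => aw25var_depends m n Λ _ (fun _ _ => rfl) hxy)
      (fun i hi x y hxy => aw25var_depends m n (Λ.erase i) _ (fun _ _ => rfl)
        (fun j hj => hxy j (Finset.ne_of_mem_erase hj)))
    have h' : ∑ i ∈ Λ, ∫ w, (f c w - g i c w) ^ 2 ∂(noises d) = S :=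
      Finset.sum_congr rfl fun i hi => hst c i hi
    have h2 : ∫ w, f c w ^ 2 ∂(noises d) - (∫ w, f c w ∂(noises d)) ^ 2 ≤
      ∑ i ∈ Λ, ∫ w, (f c w - g i c w) ^ 2 ∂(noises d) := h
    linarith
  -- Efron-Stein in the colours
  set F : (Site d → Bool) → ℝ := fun c => ∫ w, f c w ∂(noises d) with hF
  set Gi : Site d → (Site d → Bool) → ℝ := fun i c => ∫ w, g i c w ∂(noises d) with hGi
  have hFm : Measurable F := (hfm.stronglyMeasurable.integral_prod_right').measurable
  have hGm : ∀ i, Measurable (Gi i) := fun i =>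
    ((hgm i).stronglyMeasurable.integral_prod_right').measurable
  have habs : ∀ (k : (Site d → Noise d) → ℝ), (∀ w, |k w| ≤ C) →
      |∫ w, k w ∂(noises d)| ≤ C := by
    intro k hk
    have h1 := norm_integral_le_of_norm_le_const (μ := noises d) (f := k) (C := C)
      (ae_of_all _ fun w => by rw [Real.norm_eq_abs]; exact hk w)
    simpa using h1
  have hFC : ∀ c, |F c| ≤ C := fun c => habs _ (hfC c)
  have hGC : ∀ i c, |Gi i c| ≤ C := fun i c => habs _ (hgC i c)
  have hES2 : ∫ c, F c ^ 2 ∂(colours d p) ≤ (∫ c, F c ∂(colours d p)) ^ 2 + S := by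
    have h := efron_stein (colourLaw p) Λ F Gi C hFm hFC hGm hGC
      (fun x y hxy => by
        show ∫ w, f x w ∂(noises d) = ∫ w, f y w ∂(noises d)
        refine integral_congr_ae (ae_of_all _ fun w => ?_)
        exact aw25var_depends m n Λ _ hxy (fun _ _ => rfl))
      (fun i hi x y hxy => by
        show ∫ w, g i x w ∂(noises d) = ∫ w, g i y w ∂(noises d)
        refine integral_congr_ae (ae_of_all _ fun w => ?_)
        exact aw25var_depends m n (Λ.erase i) _
          (fun j hj => hxy j (Finset.ne_of_mem_erase hj)) (fun _ _ => rfl))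
    have h2 : ∫ c, F c ^ 2 ∂(colours d p) - (∫ c, F c ∂(colours d p)) ^ 2 ≤
      ∑ i ∈ Λ, ∫ c, (F c - Gi i c) ^ 2 ∂(colours d p) := h
    have h3 : ∑ i ∈ Λ, ∫ c, (F c - Gi i c) ^ 2 ∂(colours d p) ≤ S := by
      refine Finset.sum_le_sum fun i hi => ?_
      have h4 : ∫ c, (F c - Gi i c) ^ 2 ∂(colours d p) ≤
          ∫ _c, (∫ v, φ (i + walk v n) ^ 2 ∂(noiseLaw d)) ∂(colours d p) := by
        refine integral_mono ?_ (integrable_const _) fun c => ?_
        · refine aw25var_int (C := (2 * C) ^ 2) ((hFm.sub (hGm i)).pow_const 2) fun c => ?_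
          rw [abs_of_nonneg (sq_nonneg _)]
          have h5 := abs_le.mp (hFC c)
          have h6 := abs_le.mp (hGC i c)
          exact sq_le_sq' (by linarith [h5.1, h6.2]) (by linarith [h5.2, h6.1])
        · show (F c - Gi i c) ^ 2 ≤ ∫ v, φ (i + walk v n) ^ 2 ∂(noiseLaw d)
          rw [← hst c i hi]
          have h7 : F c - Gi i c = ∫ w, (f c w - g i c w) ∂(noises d) :=
            (integral_sub (aw25var_int (hfw c) (hfC c)) (aw25var_int (hgw i c) (hgC i c))).symm
          rw [h7]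
          refine aw25var_jensen (C := 2 * C) ((hfw c).sub (hgw i c)) fun w => ?_
          have h5 := abs_le.mp (hfC c w)
          have h6 := abs_le.mp (hgC i c w)
          exact abs_le.mpr ⟨by linarith [h5.1, h6.2], by linarith [h5.2, h6.1]⟩
      refine h4.trans ?_
      simp
    linarith
  -- Fubini
  have hfi : Integrable (fun ω : Sample d => f ω.1 ω.2) ((colours d p).prod (noises d)) :=
    aw25var_int hfm (fun ω => hfC ω.1 ω.2)
  have hsqC : ∀ c w, |f c w ^ 2| ≤ C ^ 2 := by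
    intro c w
    rw [abs_of_nonneg (sq_nonneg _)]
    have h5 := abs_le.mp (hfC c w)
    exact sq_le_sq' h5.1 h5.2
  have hfi2 : Integrable (fun ω : Sample d => f ω.1 ω.2 ^ 2) ((colours d p).prod (noises d)) :=
    aw25var_int (hfm.pow_const 2) (fun ω => hsqC ω.1 ω.2)
  have e1 : ∫ ω, f ω.1 ω.2 ∂(law d p) = ∫ c, F c ∂(colours d p) := by
    rw [hlaw]
    exact integral_prod _ hfi
  have e2 : ∫ ω, f ω.1 ω.2 ^ 2 ∂(law d p) = ∫ c, ∫ w, f c w ^ 2 ∂(noises d) ∂(colours d p) := by
    rw [hlaw]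
    exact integral_prod _ hfi2
  show ∫ ω, f ω.1 ω.2 ^ 2 ∂(law d p) ≤ (∫ ω, f ω.1 ω.2 ∂(law d p)) ^ 2 + 2 * ∑' x, φ x ^ 2
  rw [e1, e2]
  have hFi2 : Integrable (fun c => F c ^ 2) (colours d p) := by
    refine aw25var_int (C := C ^ 2) (hFm.pow_const 2) fun c => ?_
    rw [abs_of_nonneg (sq_nonneg _)]
    have h5 := abs_le.mp (hFC c)
    exact sq_le_sq' h5.1 h5.2
  have h8 : ∫ c, ∫ w, f c w ^ 2 ∂(noises d) ∂(colours d p) ≤
      ∫ c, (F c ^ 2 + S) ∂(colours d p) := by
    refine integral_mono hfi2.integral_prod_left (hFi2.add (integrable_const _)) fun c => ?_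
    exact hES1 c
  rw [integral_add hFi2 (integrable_const _)] at h8
  simp only [integral_const, probReal_univ, one_smul] at h8
  linarith

theorem variance_field (d : ℕ) [NeZero d] {p : ℝ} (hp : p ∈ Set.Icc (0 : ℝ) 1)
    (φ : Site d → ℝ) (hφ0 : ∀ x, 0 ≤ φ x) (hφ : Summable fun x => φ x ^ 2) (n : ℕ)
    (Λ : Finset (Site d)) :
    ∫ ω, field ω.1 ω.2 Λ n φ ^ 2 ∂(law d p) ≤
      (∫ ω, field ω.1 ω.2 Λ n φ ∂(law d p)) ^ 2 + 2 * ∑' x, φ x ^ 2 := by
  have := prob_law d hp
  have := prob_noises d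
  have := prob_colours d hp
  set B : ℝ := Real.sqrt (∑' x, φ x ^ 2) with hBdef
  have hB : ∀ x, |φ x| ≤ B := by
    intro x
    refine Real.abs_le_sqrt ?_
    exact hφ.le_tsum x (fun _ _ => sq_nonneg _)
  have hB0 : 0 ≤ B := Real.sqrt_nonneg _
  set C : ℝ := Λ.card * B with hC
  have hfC : ∀ m c w, |aw25varS m n Λ (fun _ x => φ x) c w| ≤ C := fun m c w =>
    aw25var_bound m n Λ _ (fun _ x => hB x) c w
  have hlaw : law d p = (colours d p).prod (noises d) := rfl
  have hae : ∀ᵐ ω ∂(law d p), ∀ᶠ m : ℕ in atTop,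
      aw25varS m n Λ (fun _ x => φ x) ω.1 ω.2 = field ω.1 ω.2 Λ n φ := by
    have h1 : ∀ᵐ ω ∂((colours d p).prod (noises d)),
        ∀ (Λ : Finset (Site d)) (n : ℕ), ∀ᶠ m : ℕ in atTop, ∀ (c : Site d → Bool),
          alive c ω.2 Λ n = evol c (fun l => pos ω.2 (l * (1 / 2 ^ m : ℝ))) Λ (n * 2 ^ m) :=
      Measure.quasiMeasurePreserving_snd.ae (ae_alive_eq_evol d)
    rw [hlaw]
    filter_upwards [h1] with ω hω
    filter_upwards [hω Λ n] with m hm
    unfold aw25varS field
    rw [hm ω.1]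
  have hm : ∀ m, Measurable (fun ω : Sample d => aw25varS m n Λ (fun _ x => φ x) ω.1 ω.2) :=
    fun m => aw25var_meas m n Λ _
  have hlim1 : Tendsto (fun m : ℕ => ∫ ω, aw25varS m n Λ (fun _ x => φ x) ω.1 ω.2 ∂(law d p))
      atTop (𝓝 (∫ ω, field ω.1 ω.2 Λ n φ ∂(law d p))) := by
    refine tendsto_integral_of_dominated_convergence (fun _ => C)
      (fun m => (hm m).aestronglyMeasurable) (integrable_const _)
      (fun m => ae_of_all _ fun ω => by rw [Real.norm_eq_abs]; exact hfC m ω.1 ω.2) ?_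
    filter_upwards [hae] with ω hω
    exact tendsto_const_nhds.congr' (hω.mono fun m hm => hm.symm)
  have hlim2 : Tendsto (fun m : ℕ => ∫ ω, aw25varS m n Λ (fun _ x => φ x) ω.1 ω.2 ^ 2
      ∂(law d p)) atTop (𝓝 (∫ ω, field ω.1 ω.2 Λ n φ ^ 2 ∂(law d p))) := by
    refine tendsto_integral_of_dominated_convergence (fun _ => C ^ 2)
      (fun m => ((hm m).pow_const 2).aestronglyMeasurable) (integrable_const _)
      (fun m => ae_of_all _ fun ω => ?_) ?_
    · rw [Real.norm_eq_abs, abs_of_nonneg (sq_nonneg _)]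
      have h5 := abs_le.mp (hfC m ω.1 ω.2)
      exact sq_le_sq' h5.1 h5.2
    · filter_upwards [hae] with ω hω
      exact tendsto_const_nhds.congr' (hω.mono fun m hm => by
        show field ω.1 ω.2 Λ n φ ^ 2 = aw25varS m n Λ (fun _ x => φ x) ω.1 ω.2 ^ 2
        rw [hm])
  exact le_of_tendsto_of_tendsto' hlim2 ((hlim1.pow 2).add_const _)
    (fun m => aw25var_disc d hp φ hB hφ m n Λ)

end Pool.Agent.H285
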