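import Pool.Agent.H285.Base2
import Pool.Agent.H285.AW22
import Pool.Agent.H285.AW12
import Pool.Agent.H285.AW05

/-!
# AW26 (MP_0e9fac_pr)
-/



open MeasureTheory ProbabilityTheory Filter Topology

namespace Pool.Agent.H285


/- ======== TARGETS ======== -/


theorem aw26_alive_subset {d : ℕ} (c : Site d → Bool) (w : Site d → Noise d)
    (Λ : Finset (Site d)) (t : ℝ) : alive c w Λ t ⊆ Λ := by
  unfold alive
  generalize jumpCount w Λ t = n
  induction n with
  | zero => exact Finset.Subset.refl _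
  | succ n ih =>
    show annihilate c _ (aliveSeq c w Λ n) ⊆ Λ
    exact (Finset.filter_subset _ _).trans ih

theorem aw26_good (d : ℕ) [NeZero d] (Λ : Finset (Site d)) :
    ∀ᵐ w ∂(noises d), ∀ i ∈ Λ, Good (w i) := by
  have := prob_noiseLaw d
  rw [Filter.eventually_all_finset]
  intro i _
  exact (measurePreserving_eval_infinitePi (fun _ : Site d => noiseLaw d) i).quasiMeasurePreserving.ae
    (ae_good d)

theorem aw26_version (d : ℕ) [NeZero d] (c : Site d → Bool) (Λ : Finset (Site d)) (n : ℕ) :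
    ∃ A : (Site d → Noise d) → Finset (Site d),
      (∀ B : Finset (Site d), MeasurableSet {w | A w = B}) ∧ (∀ w, A w ⊆ Λ) ∧
      ∀ᵐ w ∂(noises d), alive c w Λ n = A w := by
  obtain ⟨A, N, h1, h2, -, h4, h5⟩ := exists_version d Λ n
  refine ⟨fun w => A (c, w), fun B => ?_, fun w => h2 _, ?_⟩
  · exact (measurable_prodMk_left (x := c)) (h1 B)
  · have : ∀ᵐ w ∂(noises d), w ∉ N := measure_eq_zero_iff_ae_notMem.mp h4
    filter_upwards [this] with w hw
    exact h5 c w hw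

theorem aw26_measurable {d : ℕ} {Ω : Type*} [MeasurableSpace Ω] (A : Ω → Finset (Site d))
    (hA : ∀ B : Finset (Site d), MeasurableSet {w | A w = B}) (Λ : Finset (Site d))
    (hΛ : ∀ w, A w ⊆ Λ) (f : Site d → Ω → ℝ) (hf : ∀ i, Measurable (f i)) :
    Measurable (fun w => ∑ i ∈ A w, f i w) := by
  classical
  have e : (fun w => ∑ i ∈ A w, f i w) =
      fun w => ∑ i ∈ Λ, Set.indicator {w | i ∈ A w} (f i) w := by
    funext w
    have : ∑ i ∈ Λ, Set.indicator {w | i ∈ A w} (f i) w =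
        ∑ i ∈ Λ, if i ∈ A w then f i w else 0 := by
      apply Finset.sum_congr rfl
      intro i _
      simp [Set.indicator]
    rw [this, ← Finset.sum_filter]
    apply Finset.sum_congr _ fun _ _ => rfl
    ext i
    simp only [Finset.mem_filter]
    exact ⟨fun h => ⟨hΛ w h, h⟩, fun h => h.2⟩
  rw [e]
  apply Finset.measurable_fun_sum
  intro i _
  apply (hf i).indicator
  have : {w | i ∈ A w} = ⋃ B ∈ Λ.powerset.filter (fun B => i ∈ B), {w | A w = B} := by
    ext w
    simp only [Set.mem_iUnion, Finset.mem_filter, Finset.mem_powerset, exists_prop]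
    constructor
    · intro h
      exact ⟨A w, ⟨hΛ w, h⟩, rfl⟩
    · rintro ⟨B, ⟨_, hB⟩, h⟩
      have h' : A w = B := h
      show i ∈ A w
      rw [h']; exact hB
  rw [this]
  exact Finset.measurableSet_biUnion _ fun B _ => hA B

theorem aw26_sum_bound {d : ℕ} (S Λ : Finset (Site d)) (hS : S ⊆ Λ) (f : Site d → ℝ) (C : ℝ)
    (h0 : ∀ i, 0 ≤ f i) (h1 : ∀ i, f i ≤ C) :
    0 ≤ ∑ i ∈ S, f i ∧ ∑ i ∈ S, f i ≤ Λ.card * C := by
  have hC : 0 ≤ C := (h0 0).trans (h1 0)
  refine ⟨Finset.sum_nonneg fun i _ => h0 i, ?_⟩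
  calc ∑ i ∈ S, f i ≤ ∑ i ∈ Λ, f i :=
        Finset.sum_le_sum_of_subset_of_nonneg hS fun i _ _ => h0 i
    _ ≤ ∑ _i ∈ Λ, C := Finset.sum_le_sum fun i _ => h1 i
    _ = Λ.card * C := by simp

theorem aw26_meas_phi {d : ℕ} (φ : Site d → ℝ) : Measurable φ := measurable_of_countable φ

/-- measurability of `φ (x + walk v t)` in `v` -/
theorem aw26_meas_walk {d : ℕ} (φ : Site d → ℝ) (x : Site d) (t : ℝ) :
    Measurable (fun v : Noise d => φ (x + walk v t)) :=
  (aw26_meas_phi fun y => φ (x + y)).comp (measurable_walk t)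

theorem aw26_PP_nonneg {d : ℕ} (φ : Site d → ℝ) (hφ0 : ∀ x, 0 ≤ φ x) (t : ℝ) (x : Site d) :
    0 ≤ PP t φ x := integral_nonneg fun _ => hφ0 _

theorem aw26_PP_le {d : ℕ} [NeZero d] (φ : Site d → ℝ) (C : ℝ) (hφ0 : ∀ x, 0 ≤ φ x)
    (hφ : ∀ x, φ x ≤ C) (t : ℝ) (x : Site d) : PP t φ x ≤ C := by
  have := prob_noiseLaw d
  unfold PP
  calc ∫ v, φ (x + walk v t) ∂(noiseLaw d) ≤ ∫ _v, C ∂(noiseLaw d) := by
        apply integral_mono_of_nonneg
        · exact Filter.Eventually.of_forall fun _ => hφ0 _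
        · exact integrable_const C
        · exact Filter.Eventually.of_forall fun _ => hφ _
    _ = C := by simp

theorem aw26_integrable_walk {d : ℕ} [NeZero d] (φ : Site d → ℝ) (C : ℝ) (hφ0 : ∀ x, 0 ≤ φ x)
    (hφ : ∀ x, φ x ≤ C) (t : ℝ) (x : Site d) :
    Integrable (fun v : Noise d => φ (x + walk v t)) (noiseLaw d) := by
  have := prob_noiseLaw d
  refine Integrable.of_bound (aw26_meas_walk φ x t).aestronglyMeasurable C ?_
  refine Filter.Eventually.of_forall fun v => ?_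
  rw [Real.norm_eq_abs, abs_of_nonneg (hφ0 _)]
  exact hφ _

/-- evaluation at a coordinate -/
theorem aw26_eval {d : ℕ} [NeZero d] (F : Noise d → ℝ) (hF : Measurable F) (i : Site d) :
    ∫ w, F (w i) ∂(noises d) = ∫ v, F v ∂(noiseLaw d) := by
  have := prob_noiseLaw d
  have hm := measurePreserving_eval_infinitePi (fun _ : Site d => noiseLaw d) i
  have h := integral_map hm.measurable.aemeasurable (f := F) (by
    rw [hm.map_eq]; exact hF.aestronglyMeasurable)
  rw [hm.map_eq] at h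
  exact h.symm

theorem aw26_indep {d : ℕ} [NeZero d] (F G : Noise d → ℝ) (hF : Measurable F)
    (hG : Measurable G) (i j : Site d) (hij : i ≠ j) :
    ∫ w, F (w i) * G (w j) ∂(noises d) = (∫ v, F v ∂(noiseLaw d)) * ∫ v, G v ∂(noiseLaw d) := by
  have := prob_noiseLaw d
  have hi : iIndepFun (fun (k : Site d) (w : Site d → Noise d) => w k) (noises d) :=
    iIndepFun_infinitePi (P := fun _ : Site d => noiseLaw d) (X := fun _ v => v)
      (fun _ => measurable_id)
  have hI : IndepFun (fun w : Site d → Noise d => F (w i)) (fun w : Site d → Noise d => G (w j))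
      (noises d) := (hi.indepFun hij).comp hF hG
  rw [hI.integral_fun_mul_eq_mul_integral, aw26_eval F hF, aw26_eval G hG]
  · exact (hF.comp (measurable_pi_apply i)).aestronglyMeasurable
  · exact (hG.comp (measurable_pi_apply j)).aestronglyMeasurable

/-- one particle at two times -/
theorem aw26_same {d : ℕ} [NeZero d] (φ ψ : Site d → ℝ) (C D : ℝ)
    (hφ0 : ∀ x, 0 ≤ φ x) (hφ : ∀ x, φ x ≤ C) (hψ0 : ∀ x, 0 ≤ ψ x) (hψ : ∀ x, ψ x ≤ C)
    (s t : ℝ) (hs : 0 ≤ s) (ht : 0 ≤ t) (hD : ∀ x, PP t ψ x ≤ D) (x : Site d) :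
    ∫ v, φ (x + walk v s) * ψ (x + walk v (s + t)) ∂(noiseLaw d) ≤ D * PP s φ x := by
  have := prob_noiseLaw d
  have hC : 0 ≤ C := (hφ0 0).trans (hφ 0)
  have hm := measurePreserving_cat d hs
  have hmeas : Measurable (fun v : Noise d => φ (x + walk v s) * ψ (x + walk v (s + t))) :=
    (aw26_meas_walk φ x s).mul (aw26_meas_walk ψ x (s + t))
  have h1 : ∫ v, φ (x + walk v s) * ψ (x + walk v (s + t)) ∂(noiseLaw d) =
      ∫ z, φ (x + walk (cat s z.1 z.2) s) * ψ (x + walk (cat s z.1 z.2) (s + t))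
        ∂((noiseLaw d).prod (noiseLaw d)) := by
    have h := integral_map hm.measurable.aemeasurable
      (f := fun v : Noise d => φ (x + walk v s) * ψ (x + walk v (s + t))) (by
        rw [hm.map_eq]; exact hmeas.aestronglyMeasurable)
    rw [hm.map_eq] at h
    exact h
  have hg1 : ∀ᵐ z ∂((noiseLaw d).prod (noiseLaw d)), Good z.1 :=
    Measure.quasiMeasurePreserving_fst.ae (ae_good d)
  have hg2 : ∀ᵐ z ∂((noiseLaw d).prod (noiseLaw d)), Good z.2 :=
    Measure.quasiMeasurePreserving_snd.ae (ae_good d)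
  have h2 : ∫ z, φ (x + walk (cat s z.1 z.2) s) * ψ (x + walk (cat s z.1 z.2) (s + t))
        ∂((noiseLaw d).prod (noiseLaw d)) =
      ∫ z, φ (x + walk z.1 s) * ψ (x + walk z.1 s + walk z.2 t)
        ∂((noiseLaw d).prod (noiseLaw d)) := by
    apply integral_congr_ae
    filter_upwards [hg1, hg2] with z hz1 hz2
    rw [walk_cat_le hz1 hz2 hs le_rfl, walk_cat_add hz1 hz2 hs ht, add_assoc]
  have hmeas2 : Measurable (fun z : Noise d × Noise d =>
      φ (x + walk z.1 s) * ψ (x + walk z.1 s + walk z.2 t)) := by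
    have a1 : Measurable (fun z : Noise d × Noise d => walk z.1 s) :=
      (measurable_walk s).comp measurable_fst
    have a2 : Measurable (fun z : Noise d × Noise d => walk z.2 t) :=
      (measurable_walk t).comp measurable_snd
    exact ((aw26_meas_phi φ).comp (a1.const_add x)).mul
      ((aw26_meas_phi ψ).comp ((a1.const_add x).add a2))
  have hint : Integrable (fun z : Noise d × Noise d =>
      φ (x + walk z.1 s) * ψ (x + walk z.1 s + walk z.2 t))
      ((noiseLaw d).prod (noiseLaw d)) := by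
    refine Integrable.of_bound hmeas2.aestronglyMeasurable (C * C) ?_
    refine Filter.Eventually.of_forall fun z => ?_
    rw [Real.norm_eq_abs, abs_of_nonneg (mul_nonneg (hφ0 _) (hψ0 _))]
    exact mul_le_mul (hφ _) (hψ _) (hψ0 _) hC
  rw [h1, h2, integral_prod _ hint]
  have h3 : ∀ v : Noise d, ∫ v', φ (x + walk v s) * ψ (x + walk v s + walk v' t) ∂(noiseLaw d) =
      φ (x + walk v s) * PP t ψ (x + walk v s) := by
    intro v
    rw [integral_const_mul]
    rfl
  have h4 : ∫ v, (∫ v', φ (x + walk (v, v').1 s) * ψ (x + walk (v, v').1 s + walk (v, v').2 t)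
      ∂(noiseLaw d)) ∂(noiseLaw d) = ∫ v, φ (x + walk v s) * PP t ψ (x + walk v s)
      ∂(noiseLaw d) := by
    apply integral_congr_ae
    exact Filter.Eventually.of_forall h3
  rw [h4]
  unfold PP
  rw [← integral_const_mul]
  apply integral_mono_of_nonneg
  · exact Filter.Eventually.of_forall fun v =>
      mul_nonneg (hφ0 _) (aw26_PP_nonneg ψ hψ0 t _)
  · exact (aw26_integrable_walk φ C hφ0 hφ s x).const_mul D
  · refine Filter.Eventually.of_forall fun v => ?_
    show φ (x + walk v s) * PP t ψ (x + walk v s) ≤ D * φ (x + walk v s)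
    rw [mul_comm]
    exact mul_le_mul_of_nonneg_right (hD _) (hφ0 _)

/-- the position after concatenation -/
theorem aw26_pos {d : ℕ} (w w' : Site d → Noise d) (i : Site d) (hw : Good (w i))
    (hw' : Good (w' i)) {s t : ℝ} (hs : 0 ≤ s) (ht : 0 ≤ t) :
    pos (catAll s w w') (s + t) i = pos w s i + walk (w' i) t := by
  unfold pos catAll
  rw [walk_cat_add hw hw' hs ht, add_assoc]

theorem aw26_field_le {d : ℕ} (c : Site d → Bool) (w w' : Site d → Noise d)
    (Λ : Finset (Site d)) (hw : ∀ i ∈ Λ, Good (w i)) (hw' : ∀ i ∈ Λ, Good (w' i))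
    (φ : Site d → ℝ) (hφ0 : ∀ x, 0 ≤ φ x) {N n : ℕ} (hN : N ≤ n) :
    field c (catAll N w w') Λ n φ ≤
      ∑ i ∈ alive c w Λ N, φ (pos w N i + walk (w' i) ((n - N : ℕ) : ℝ)) := by
  have hN0 : (0 : ℝ) ≤ N := Nat.cast_nonneg N
  have hg : ∀ i ∈ Λ, Good (catAll N w w' i) := fun i hi =>
    cat_good (hw i hi) (hw' i hi) hN0
  have h1 : alive c (catAll N w w') Λ n ⊆ alive c w Λ N := by
    rw [← alive_catAll c w w' Λ hw hw' hN0 le_rfl]
    exact alive_mono_time c _ Λ hg hN0 (by exact_mod_cast hN)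
  have hn : (n : ℝ) = N + ((n - N : ℕ) : ℝ) := by
    rw [← Nat.cast_add]; congr 1; omega
  have h2 : ∀ i ∈ alive c w Λ N, φ (pos (catAll N w w') n i) =
      φ (pos w N i + walk (w' i) ((n - N : ℕ) : ℝ)) := by
    intro i hi
    have hiΛ := aw26_alive_subset c w Λ N hi
    nth_rw 1 [hn]
    rw [aw26_pos w w' i (hw i hiΛ) (hw' i hiΛ) hN0 (Nat.cast_nonneg _)]
  unfold field
  calc ∑ i ∈ alive c (catAll N w w') Λ n, φ (pos (catAll N w w') n i) ≤
      ∑ i ∈ alive c w Λ N, φ (pos (catAll N w w') n i) :=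
        Finset.sum_le_sum_of_subset_of_nonneg h1 fun i _ _ => hφ0 _
    _ = _ := Finset.sum_congr rfl h2

theorem aw26_field_nonneg {d : ℕ} (c : Site d → Bool) (w : Site d → Noise d)
    (Λ : Finset (Site d)) (t : ℝ) (φ : Site d → ℝ) (hφ0 : ∀ x, 0 ≤ φ x) :
    0 ≤ field c w Λ t φ := Finset.sum_nonneg fun _ _ => hφ0 _

theorem aw26_pos_meas {d : ℕ} (t : ℝ) (i : Site d) :
    Measurable (fun w : Site d → Noise d => pos w t i) := by
  unfold pos
  exact ((measurable_walk t).comp (measurable_pi_apply i)).const_add i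

/-- the field is almost everywhere equal to a measurable function, and bounded -/
theorem aw26_field_aesm (d : ℕ) [NeZero d] (c : Site d → Bool) (Λ : Finset (Site d)) (n : ℕ)
    (φ : Site d → ℝ) : AEStronglyMeasurable (fun w => field c w Λ n φ) (noises d) := by
  obtain ⟨A, hA1, hA2, hA3⟩ := aw26_version d c Λ n
  have hm := aw26_measurable A hA1 Λ hA2 (fun i w => φ (pos w n i))
    (fun i => (aw26_meas_phi φ).comp (aw26_pos_meas n i))
  refine ⟨_, hm.stronglyMeasurable, ?_⟩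
  filter_upwards [hA3] with w hw
  unfold field
  rw [hw]

theorem aw26_field_int (d : ℕ) [NeZero d] (c : Site d → Bool) (Λ : Finset (Site d)) (n : ℕ)
    (φ : Site d → ℝ) (C : ℝ) (hφ0 : ∀ x, 0 ≤ φ x) (hφ : ∀ x, φ x ≤ C) :
    Integrable (fun w => field c w Λ n φ) (noises d) := by
  have := prob_noises d
  refine Integrable.of_bound (aw26_field_aesm d c Λ n φ) (Λ.card * C) ?_
  refine Filter.Eventually.of_forall fun w => ?_
  have := aw26_sum_bound (alive c w Λ n) Λ (aw26_alive_subset c w Λ n)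
    (fun i => φ (pos w n i)) C (fun _ => hφ0 _) (fun _ => hφ _)
  rw [Real.norm_eq_abs, abs_of_nonneg (aw26_field_nonneg c w Λ n φ hφ0)]
  exact this.2

theorem aw26_field_mul_int (d : ℕ) [NeZero d] (c : Site d → Bool) (Λ : Finset (Site d))
    (n m : ℕ) (φ ψ : Site d → ℝ) (C : ℝ) (hφ0 : ∀ x, 0 ≤ φ x) (hφ : ∀ x, φ x ≤ C)
    (hψ0 : ∀ x, 0 ≤ ψ x) (hψ : ∀ x, ψ x ≤ C) :
    Integrable (fun w => field c w Λ n φ * field c w Λ m ψ) (noises d) := by
  have := prob_noises d
  have hC : 0 ≤ C := (hφ0 0).trans (hφ 0)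
  refine Integrable.of_bound ((aw26_field_aesm d c Λ n φ).mul (aw26_field_aesm d c Λ m ψ))
    ((Λ.card * C) * (Λ.card * C)) ?_
  refine Filter.Eventually.of_forall fun w => ?_
  have h1 := aw26_sum_bound (alive c w Λ n) Λ (aw26_alive_subset c w Λ n)
    (fun i => φ (pos w n i)) C (fun _ => hφ0 _) (fun _ => hφ _)
  have h2 := aw26_sum_bound (alive c w Λ m) Λ (aw26_alive_subset c w Λ m)
    (fun i => ψ (pos w m i)) C (fun _ => hψ0 _) (fun _ => hψ _)
  rw [Real.norm_eq_abs, abs_of_nonneg (mul_nonneg (aw26_field_nonneg c w Λ n φ hφ0)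
    (aw26_field_nonneg c w Λ m ψ hψ0))]
  exact mul_le_mul h1.2 h2.2 h2.1 (by positivity)

/-- the concatenation of all noises preserves the law -/
theorem aw26_catAll (d : ℕ) [NeZero d] (N : ℕ) :
    MeasurePreserving (fun z : (Site d → Noise d) × (Site d → Noise d) =>
      catAll (N : ℝ) z.1 z.2) ((noises d).prod (noises d)) (noises d) := by
  have := prob_noiseLaw d
  exact measurePreserving_coord (noiseLaw d) (fun (_ : Site d) z => cat (N : ℝ) z.1 z.2)
    (fun _ => measurePreserving_cat d (Nat.cast_nonneg N))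

/-- the general comparison: `f` after concatenation is at most `h`, which is a function of the
version of the alive set at time `N` and of the new noises -/
theorem aw26_compare (d : ℕ) [NeZero d] (N : ℕ) (f : (Site d → Noise d) → ℝ)
    (hf : Integrable f (noises d)) (h : (Site d → Noise d) × (Site d → Noise d) → ℝ)
    (hh : Integrable h ((noises d).prod (noises d)))
    (hle : ∀ᵐ z ∂((noises d).prod (noises d)), f (catAll (N : ℝ) z.1 z.2) ≤ h z)
    (g : (Site d → Noise d) → ℝ) (hg : Integrable g (noises d))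
    (hle2 : ∀ᵐ w ∂(noises d), ∫ w', h (w, w') ∂(noises d) ≤ g w) :
    ∫ w, f w ∂(noises d) ≤ ∫ w, g w ∂(noises d) := by
  have := prob_noises d
  have hΦ := aw26_catAll d N
  have h1 : ∫ w, f w ∂(noises d) =
      ∫ z, f (catAll (N : ℝ) z.1 z.2) ∂((noises d).prod (noises d)) := by
    have h := integral_map hΦ.measurable.aemeasurable (f := f) (by
      rw [hΦ.map_eq]; exact hf.aestronglyMeasurable)
    rw [hΦ.map_eq] at h
    exact h
  have h2 : Integrable (fun z : (Site d → Noise d) × (Site d → Noise d) =>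
      f (catAll (N : ℝ) z.1 z.2)) ((noises d).prod (noises d)) :=
    hΦ.integrable_comp_of_integrable hf
  calc ∫ w, f w ∂(noises d) = ∫ z, f (catAll (N : ℝ) z.1 z.2) ∂((noises d).prod (noises d)) := h1
    _ ≤ ∫ z, h z ∂((noises d).prod (noises d)) := integral_mono_ae h2 hh hle
    _ = ∫ w, ∫ w', h (w, w') ∂(noises d) ∂(noises d) := integral_prod h hh
    _ ≤ ∫ w, g w ∂(noises d) := integral_mono_ae hh.integral_prod_left hg hle2

/-- the comparison function for one field: its measurable version -/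
theorem aw26_H_meas (d : ℕ) [NeZero d] (Λ : Finset (Site d)) (N : ℕ)
    (A : (Site d → Noise d) → Finset (Site d))
    (hA1 : ∀ B : Finset (Site d), MeasurableSet {w | A w = B}) (hA2 : ∀ w, A w ⊆ Λ)
    (φ : Site d → ℝ) (t : ℝ) :
    Measurable (fun z : (Site d → Noise d) × (Site d → Noise d) =>
      ∑ i ∈ A z.1, φ (pos z.1 N i + walk (z.2 i) t)) := by
  apply aw26_measurable (fun z : (Site d → Noise d) × (Site d → Noise d) => A z.1) _ Λ
    (fun z => hA2 z.1) (fun i z => φ (pos z.1 N i + walk (z.2 i) t))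
  · intro i
    have a1 : Measurable (fun z : (Site d → Noise d) × (Site d → Noise d) => pos z.1 N i) :=
      (aw26_pos_meas N i).comp measurable_fst
    have a2 : Measurable (fun z : (Site d → Noise d) × (Site d → Noise d) =>
        walk (z.2 i) t) :=
      (measurable_walk t).comp ((measurable_pi_apply i).comp measurable_snd)
    exact (aw26_meas_phi φ).comp (a1.add a2)
  · intro B
    exact measurable_fst (hA1 B)

theorem aw26_inner_one {d : ℕ} [NeZero d] (φ : Site d → ℝ) (C : ℝ) (hφ0 : ∀ x, 0 ≤ φ x)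
    (hφ : ∀ x, φ x ≤ C) (S : Finset (Site d)) (x : Site d → Site d) (t : ℝ) :
    ∫ w', ∑ i ∈ S, φ (x i + walk (w' i) t) ∂(noises d) = ∑ i ∈ S, PP t φ (x i) := by
  have := prob_noiseLaw d
  have := prob_noises d
  rw [integral_finsetSum]
  · apply Finset.sum_congr rfl
    intro i _
    exact aw26_eval (fun v => φ (x i + walk v t)) (aw26_meas_walk φ (x i) t) i
  · intro i _
    refine Integrable.of_bound ((aw26_meas_walk φ (x i) t).comp
      (measurable_pi_apply i)).aestronglyMeasurable C ?_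
    refine Filter.Eventually.of_forall fun v => ?_
    rw [Real.norm_eq_abs, abs_of_nonneg (hφ0 _)]
    exact hφ _

theorem aw26_inner_two {d : ℕ} [NeZero d] (φ ψ : Site d → ℝ) (C D : ℝ)
    (hφ0 : ∀ x, 0 ≤ φ x) (hφ : ∀ x, φ x ≤ C) (hψ0 : ∀ x, 0 ≤ ψ x) (hψ : ∀ x, ψ x ≤ C)
    (s t : ℝ) (hs : 0 ≤ s) (ht : 0 ≤ t) (hD : ∀ x, PP t ψ x ≤ D) (S : Finset (Site d))
    (x : Site d → Site d) :
    ∫ w', (∑ i ∈ S, φ (x i + walk (w' i) s)) * (∑ j ∈ S, ψ (x j + walk (w' j) (s + t)))
      ∂(noises d) ≤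
      (∑ i ∈ S, PP s φ (x i)) * (∑ j ∈ S, PP (s + t) ψ (x j)) + D * ∑ i ∈ S, PP s φ (x i) := by
  classical
  have := prob_noiseLaw d
  have := prob_noises d
  have hC : 0 ≤ C := (hφ0 0).trans (hφ 0)
  have hD0 : 0 ≤ D := (aw26_PP_nonneg ψ hψ0 t 0).trans (hD 0)
  have hmeas : ∀ i j : Site d, Measurable (fun w' : Site d → Noise d =>
      φ (x i + walk (w' i) s) * ψ (x j + walk (w' j) (s + t))) := fun i j =>
    ((aw26_meas_walk φ (x i) s).comp (measurable_pi_apply i)).mul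
      ((aw26_meas_walk ψ (x j) (s + t)).comp (measurable_pi_apply j))
  have hint : ∀ i j : Site d, Integrable (fun w' : Site d → Noise d =>
      φ (x i + walk (w' i) s) * ψ (x j + walk (w' j) (s + t))) (noises d) := by
    intro i j
    refine Integrable.of_bound (hmeas i j).aestronglyMeasurable (C * C) ?_
    refine Filter.Eventually.of_forall fun v => ?_
    rw [Real.norm_eq_abs, abs_of_nonneg (mul_nonneg (hφ0 _) (hψ0 _))]
    exact mul_le_mul (hφ _) (hψ _) (hψ0 _) hC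
  have e1 : ∫ w', (∑ i ∈ S, φ (x i + walk (w' i) s)) * (∑ j ∈ S, ψ (x j + walk (w' j) (s + t)))
      ∂(noises d) = ∑ i ∈ S, ∑ j ∈ S,
        ∫ w', φ (x i + walk (w' i) s) * ψ (x j + walk (w' j) (s + t)) ∂(noises d) := by
    simp only [Finset.sum_mul_sum]
    rw [integral_finsetSum]
    · apply Finset.sum_congr rfl
      intro i _
      rw [integral_finsetSum]
      intro j _
      exact hint i j
    · intro i _
      exact integrable_finsetSum _ fun j _ => hint i j
  have e2 : ∀ i j : Site d, ∫ w', φ (x i + walk (w' i) s) * ψ (x j + walk (w' j) (s + t))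
      ∂(noises d) ≤ PP s φ (x i) * PP (s + t) ψ (x j) + if i = j then D * PP s φ (x i) else 0 := by
    intro i j
    by_cases hij : i = j
    · subst hij
      rw [if_pos rfl]
      have h1 := aw26_eval (fun v => φ (x i + walk v s) * ψ (x i + walk v (s + t)))
        ((aw26_meas_walk φ (x i) s).mul (aw26_meas_walk ψ (x i) (s + t))) i
      have h2 := aw26_same φ ψ C D hφ0 hφ hψ0 hψ s t hs ht hD (x i)
      have h3 : 0 ≤ PP s φ (x i) * PP (s + t) ψ (x i) :=
        mul_nonneg (aw26_PP_nonneg φ hφ0 _ _) (aw26_PP_nonneg ψ hψ0 _ _)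
      rw [h1]
      linarith
    · rw [if_neg hij, add_zero]
      have h1 := aw26_indep (fun v => φ (x i + walk v s)) (fun v => ψ (x j + walk v (s + t)))
        (aw26_meas_walk φ (x i) s) (aw26_meas_walk ψ (x j) (s + t)) i j hij
      exact h1.le
  rw [e1]
  calc ∑ i ∈ S, ∑ j ∈ S,
        ∫ w', φ (x i + walk (w' i) s) * ψ (x j + walk (w' j) (s + t)) ∂(noises d) ≤
      ∑ i ∈ S, ∑ j ∈ S, (PP s φ (x i) * PP (s + t) ψ (x j) +
        if i = j then D * PP s φ (x i) else 0) :=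
        Finset.sum_le_sum fun i _ => Finset.sum_le_sum fun j _ => e2 i j
    _ = _ := by
      simp only [Finset.sum_add_distrib, Finset.sum_ite_eq]
      rw [Finset.sum_mul_sum, Finset.mul_sum]
      congr 1
      apply Finset.sum_congr rfl
      intro i hi
      rw [if_pos hi]

/-- free evolution after time `N` -/
theorem field_markov (d : ℕ) [NeZero d] (c : Site d → Bool) (φ : Site d → ℝ) (C : ℝ)
    (hφ0 : ∀ x, 0 ≤ φ x) (hφ : ∀ x, φ x ≤ C) {N n : ℕ} (hN : N ≤ n) (Λ : Finset (Site d)) :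
    ∫ w, field c w Λ n φ ∂(noises d) ≤
      ∫ w, field c w Λ N (PP ((n - N : ℕ) : ℝ) φ) ∂(noises d) := by
  have := prob_noiseLaw d
  have := prob_noises d
  obtain ⟨A, hA1, hA2, hA3⟩ := aw26_version d c Λ N
  refine aw26_compare d N _ (aw26_field_int d c Λ n φ C hφ0 hφ)
    (fun z => ∑ i ∈ A z.1, φ (pos z.1 N i + walk (z.2 i) ((n - N : ℕ) : ℝ))) ?_ ?_ _
    (aw26_field_int d c Λ N _ C (aw26_PP_nonneg φ hφ0 _) (aw26_PP_le φ C hφ0 hφ _)) ?_
  · refine Integrable.of_bound (aw26_H_meas d Λ N A hA1 hA2 φ _).aestronglyMeasurable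
      (Λ.card * C) ?_
    refine Filter.Eventually.of_forall fun z => ?_
    have h := aw26_sum_bound (A z.1) Λ (hA2 z.1)
      (fun i => φ (pos z.1 N i + walk (z.2 i) ((n - N : ℕ) : ℝ))) C (fun _ => hφ0 _)
      (fun _ => hφ _)
    rw [Real.norm_eq_abs, abs_of_nonneg h.1]
    exact h.2
  · have g1 : ∀ᵐ z ∂((noises d).prod (noises d)), ∀ i ∈ Λ, Good (z.1 i) :=
      Measure.quasiMeasurePreserving_fst.ae (aw26_good d Λ)
    have g2 : ∀ᵐ z ∂((noises d).prod (noises d)), ∀ i ∈ Λ, Good (z.2 i) :=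
      Measure.quasiMeasurePreserving_snd.ae (aw26_good d Λ)
    have g3 : ∀ᵐ z ∂((noises d).prod (noises d)), alive c z.1 Λ N = A z.1 :=
      Measure.quasiMeasurePreserving_fst.ae hA3
    filter_upwards [g1, g2, g3] with z h1 h2 h3
    have := aw26_field_le c z.1 z.2 Λ h1 h2 φ hφ0 hN
    rw [h3] at this
    exact this
  · filter_upwards [hA3] with w hw
    show ∫ w', ∑ i ∈ A w, φ (pos w N i + walk (w' i) ((n - N : ℕ) : ℝ)) ∂(noises d) ≤ _
    rw [aw26_inner_one φ C hφ0 hφ (A w) (fun i => pos w N i)]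
    unfold field
    rw [hw]

theorem pair_field (d : ℕ) [NeZero d] (c : Site d → Bool) (φ ψ : Site d → ℝ) (C D : ℝ)
    (hφ0 : ∀ x, 0 ≤ φ x) (hφ : ∀ x, φ x ≤ C) (hψ0 : ∀ x, 0 ≤ ψ x) (hψ : ∀ x, ψ x ≤ C)
    {N n m : ℕ} (hN : N ≤ n) (hm : n ≤ m) (hD : ∀ x, PP ((m - n : ℕ) : ℝ) ψ x ≤ D)
    (Λ : Finset (Site d)) :
    ∫ w, field c w Λ n φ * field c w Λ m ψ ∂(noises d) ≤
      ∫ w, field c w Λ N (PP ((n - N : ℕ) : ℝ) φ) * field c w Λ N (PP ((m - N : ℕ) : ℝ) ψ)
          ∂(noises d) +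
        D * ∫ w, field c w Λ N (PP ((n - N : ℕ) : ℝ) φ) ∂(noises d) := by
  have := prob_noiseLaw d
  have := prob_noises d
  obtain ⟨A, hA1, hA2, hA3⟩ := aw26_version d c Λ N
  have hC : 0 ≤ C := (hφ0 0).trans (hφ 0)
  have hI1 := aw26_field_mul_int d c Λ N N (PP ((n - N : ℕ) : ℝ) φ) (PP ((m - N : ℕ) : ℝ) ψ) C
    (aw26_PP_nonneg φ hφ0 _) (aw26_PP_le φ C hφ0 hφ _)
    (aw26_PP_nonneg ψ hψ0 _) (aw26_PP_le ψ C hψ0 hψ _)
  have hI2 := aw26_field_int d c Λ N (PP ((n - N : ℕ) : ℝ) φ) C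
    (aw26_PP_nonneg φ hφ0 _) (aw26_PP_le φ C hφ0 hφ _)
  have hmN : ((m - N : ℕ) : ℝ) = ((n - N : ℕ) : ℝ) + ((m - n : ℕ) : ℝ) := by
    rw [← Nat.cast_add]; congr 1; omega
  rw [← integral_const_mul, ← integral_add hI1 (hI2.const_mul D)]
  refine aw26_compare d N _ (aw26_field_mul_int d c Λ n m φ ψ C hφ0 hφ hψ0 hψ)
    (fun z => (∑ i ∈ A z.1, φ (pos z.1 N i + walk (z.2 i) ((n - N : ℕ) : ℝ))) *
      (∑ i ∈ A z.1, ψ (pos z.1 N i + walk (z.2 i) ((m - N : ℕ) : ℝ)))) ?_ ?_ _
    (hI1.add (hI2.const_mul D)) ?_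
  · refine Integrable.of_bound ((aw26_H_meas d Λ N A hA1 hA2 φ _).mul
      (aw26_H_meas d Λ N A hA1 hA2 ψ _)).aestronglyMeasurable
      ((Λ.card * C) * (Λ.card * C)) ?_
    refine Filter.Eventually.of_forall fun z => ?_
    have h := aw26_sum_bound (A z.1) Λ (hA2 z.1)
      (fun i => φ (pos z.1 N i + walk (z.2 i) ((n - N : ℕ) : ℝ))) C (fun _ => hφ0 _)
      (fun _ => hφ _)
    have h' := aw26_sum_bound (A z.1) Λ (hA2 z.1)
      (fun i => ψ (pos z.1 N i + walk (z.2 i) ((m - N : ℕ) : ℝ))) C (fun _ => hψ0 _)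
      (fun _ => hψ _)
    rw [Real.norm_eq_abs, abs_of_nonneg (mul_nonneg h.1 h'.1)]
    exact mul_le_mul h.2 h'.2 h'.1 (by positivity)
  · have g1 : ∀ᵐ z ∂((noises d).prod (noises d)), ∀ i ∈ Λ, Good (z.1 i) :=
      Measure.quasiMeasurePreserving_fst.ae (aw26_good d Λ)
    have g2 : ∀ᵐ z ∂((noises d).prod (noises d)), ∀ i ∈ Λ, Good (z.2 i) :=
      Measure.quasiMeasurePreserving_snd.ae (aw26_good d Λ)
    have g3 : ∀ᵐ z ∂((noises d).prod (noises d)), alive c z.1 Λ N = A z.1 :=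
      Measure.quasiMeasurePreserving_fst.ae hA3
    filter_upwards [g1, g2, g3] with z h1 h2 h3
    have a1 := aw26_field_le c z.1 z.2 Λ h1 h2 φ hφ0 hN
    have a2 := aw26_field_le c z.1 z.2 Λ h1 h2 ψ hψ0 (hN.trans hm)
    rw [h3] at a1 a2
    exact mul_le_mul a1 a2 (aw26_field_nonneg c _ Λ _ ψ hψ0)
      (Finset.sum_nonneg fun _ _ => hφ0 _)
  · filter_upwards [hA3] with w hw
    show ∫ w', (∑ i ∈ A w, φ (pos w N i + walk (w' i) ((n - N : ℕ) : ℝ))) *
      (∑ i ∈ A w, ψ (pos w N i + walk (w' i) ((m - N : ℕ) : ℝ))) ∂(noises d) ≤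
      field c w Λ N (PP ((n - N : ℕ) : ℝ) φ) * field c w Λ N (PP ((m - N : ℕ) : ℝ) ψ) +
        D * field c w Λ N (PP ((n - N : ℕ) : ℝ) φ)
    have h := aw26_inner_two φ ψ C D hφ0 hφ hψ0 hψ ((n - N : ℕ) : ℝ) ((m - n : ℕ) : ℝ)
      (Nat.cast_nonneg _) (Nat.cast_nonneg _) hD (A w) (fun i => pos w N i)
    rw [← hmN] at h
    unfold field
    rw [hw]
    exact h

end Pool.Agent.H285
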