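import Pool.Agent.H285.Base2
import Pool.Agent.H285.AW24
import Pool.Agent.H285.AW26
import Pool.Agent.H285.AW12
import Pool.Agent.H285.AW20

/-!
# AW27 (MP_0e9fac_pr)
-/



open MeasureTheory ProbabilityTheory Filter Topology

namespace Pool.Agent.H285


/- ======== TARGETS ======== -/

section aw27

variable {d : ℕ}

/-- the value of `ind` -/
theorem aw27_ind_nonneg (x y : Site d) : 0 ≤ ind x y := by
  unfold ind; split_ifs <;> norm_num

theorem aw27_ind_le (x y : Site d) : ind x y ≤ 1 := by
  unfold ind; split_ifs <;> norm_num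

theorem aw27_ind_congr {x y x' y' : Site d} (h : y = x ↔ y' = x') : ind x y = ind x' y' := by
  unfold ind
  by_cases hh : y = x
  · rw [if_pos hh, if_pos (h.1 hh)]
  · rw [if_neg hh, if_neg (fun h' => hh (h.2 h'))]

theorem aw27_half : (1 / 2 : ℝ) ∈ Set.Icc (0 : ℝ) 1 := by constructor <;> norm_num

theorem aw27_law (p : ℝ) : law d p = (colours d p).prod (noises d) := rfl

/-- the field of `φ` is almost everywhere measurable -/
theorem aw27_aesm [NeZero d] (Λ : Finset (Site d)) (n : ℕ) (φ : Site d → ℝ) :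
    AEStronglyMeasurable (fun ω : Sample d => field ω.1 ω.2 Λ n φ) (law d (1 / 2)) := by
  classical
  have := prob_noises d
  have := prob_colours d aw27_half
  obtain ⟨A, N, hA, hAΛ, -, hN, hAN⟩ := exists_version d Λ n
  have hmem : ∀ i, MeasurableSet {ω : Sample d | i ∈ A ω} := by
    intro i
    have : {ω : Sample d | i ∈ A ω} = ⋃ B ∈ (Λ.powerset.filter fun B => i ∈ B), {ω | A ω = B} := by
      ext ω
      simp only [Set.mem_ofPred_eq, Set.mem_iUnion, Finset.mem_filter, Finset.mem_powerset,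
        exists_prop]
      constructor
      · intro h
        exact ⟨A ω, ⟨hAΛ ω, h⟩, rfl⟩
      · rintro ⟨B, ⟨-, hB⟩, h⟩
        rw [h]; exact hB
    rw [this]
    exact Finset.measurableSet_biUnion _ fun B _ => hA B
  have hφ : Measurable φ := measurable_of_countable φ
  have hm : Measurable (fun ω : Sample d => ∑ i ∈ Λ, if i ∈ A ω then φ (pos ω.2 n i) else 0) := by
    refine Finset.measurable_sum _ fun i _ => Measurable.ite (hmem i) ?_ measurable_const
    refine hφ.comp ?_
    unfold pos
    have h1 : Measurable (fun ω : Sample d => walk (ω.2 i) (n : ℝ)) :=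
      (measurable_walk (n : ℝ)).comp ((measurable_pi_apply i).comp measurable_snd)
    exact (measurable_of_countable (fun y : Site d => i + y)).comp h1
  refine ⟨_, hm.stronglyMeasurable, ?_⟩
  have hnull : ∀ᵐ ω ∂(law d (1 / 2)), ω.2 ∉ N := by
    rw [aw27_law]
    have h1 : ∀ᵐ w ∂(noises d), w ∉ N := by
      rw [ae_iff]; simpa using hN
    exact (Measure.quasiMeasurePreserving_snd (μ := colours d (1 / 2))
      (ν := noises d)).ae h1
  filter_upwards [hnull] with ω hω
  unfold field
  rw [hAN ω.1 ω.2 hω]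
  rw [← Finset.sum_filter]
  refine Finset.sum_congr ?_ fun _ _ => rfl
  ext i
  rw [Finset.mem_filter]
  exact ⟨fun h => ⟨hAΛ _ h, h⟩, fun h => h.2⟩

theorem aw27_abs_le (c : Site d → Bool) (w : Site d → Noise d) (Λ : Finset (Site d)) (t : ℝ)
    (φ : Site d → ℝ) (C : ℝ) (hφ : ∀ x, |φ x| ≤ C) : |field c w Λ t φ| ≤ Λ.card * C := by
  have hC : 0 ≤ C := (abs_nonneg _).trans (hφ 0)
  unfold field
  refine (Finset.abs_sum_le_sum_abs _ _).trans ?_
  refine (Finset.sum_le_sum (g := fun _ => C) fun i _ => hφ _).trans ?_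
  rw [Finset.sum_const, nsmul_eq_mul]
  exact mul_le_mul_of_nonneg_right
    (by exact_mod_cast Finset.card_le_card (alive_subset c w Λ t)) hC

theorem aw27_int [NeZero d] (Λ : Finset (Site d)) (n : ℕ) (φ : Site d → ℝ) (C : ℝ)
    (hφ : ∀ x, |φ x| ≤ C) :
    Integrable (fun ω : Sample d => field ω.1 ω.2 Λ n φ) (law d (1 / 2)) := by
  have := prob_law d aw27_half
  refine Integrable.of_bound (aw27_aesm Λ n φ) (Λ.card * C) (Filter.Eventually.of_forall ?_)
  intro ω
  rw [Real.norm_eq_abs]
  exact aw27_abs_le _ _ _ _ _ _ hφ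

theorem aw27_ind_abs (x y : Site d) : |ind x y| ≤ 1 := by
  rw [abs_of_nonneg (aw27_ind_nonneg x y)]; exact aw27_ind_le x y

theorem aw27_ker [NeZero d] (t : ℝ) (x i : Site d) :
    ∫ v, ind x (i + walk v t) ∂(noiseLaw d) = ker d t (x - i) := by
  rw [← PP_ind d t x i]
  rfl

theorem aw27_ker_nonneg (t : ℝ) (x : Site d) : 0 ≤ ker d t x := measureReal_nonneg

theorem aw27_single [NeZero d] (i x : Site d) (t : ℝ) :
    ∫ ω, ind x (pos ω.2 t i) ∂(law d (1 / 2)) = ker d t (x - i) := by
  have := prob_noiseLaw d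
  have := prob_noises d
  have := prob_colours d aw27_half
  rw [← aw27_ker]
  have hm : Measurable (fun v : Noise d => ind x (i + walk v t)) :=
    (measurable_of_countable (fun y : Site d => ind x (i + y))).comp (measurable_walk t)
  have h1 : MeasurePreserving (fun ω : Sample d => ω.2) (law d (1 / 2)) (noises d) := by
    rw [aw27_law]; exact measurePreserving_snd
  have h2 : MeasurePreserving (fun w : Site d → Noise d => w i) (noises d) (noiseLaw d) :=
    measurePreserving_eval_infinitePi (fun _ : Site d => noiseLaw d) i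
  have h3 := h2.comp h1
  rw [← h3.map_eq, integral_map h3.measurable.aemeasurable hm.aestronglyMeasurable]
  rfl

theorem aw27_hasSum [NeZero d] (t : ℝ) (x : Site d) : HasSum (fun i => ker d t (x - i)) 1 := by
  have := (Equiv.subLeft x).hasSum_iff.2 (hasSum_ker d t)
  exact this

theorem aw27_hasSum' [NeZero d] (t : ℝ) (i : Site d) : HasSum (fun x => ker d t (x - i)) 1 := by
  have := (Equiv.subRight i).hasSum_iff.2 (hasSum_ker d t)
  exact this

theorem aw27_sum_le [NeZero d] (t : ℝ) (x : Site d) (Λ : Finset (Site d)) :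
    ∑ i ∈ Λ, ker d t (x - i) ≤ 1 :=
  sum_le_hasSum _ (fun _ _ => aw27_ker_nonneg _ _) (aw27_hasSum t x)

end aw27

theorem dens_nonneg (d : ℕ) (Λ : Finset (Site d)) (n : ℕ) (x : Site d) : 0 ≤ dens d Λ n x :=
  integral_nonneg fun _ => Finset.sum_nonneg fun _ _ => aw27_ind_nonneg _ _

theorem dens_le (d : ℕ) [NeZero d] (Λ : Finset (Site d)) (n : ℕ) (x : Site d) :
    dens d Λ n x ≤ ∑ i ∈ Λ, ker d n (x - i) := by
  have := prob_noiseLaw d
  have := prob_noises d
  have := prob_colours d aw27_half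
  have := prob_law d aw27_half
  have hint : ∀ i ∈ Λ, Integrable (fun ω : Sample d => ind x (pos ω.2 (n : ℝ) i))
      (law d (1 / 2)) := by
    intro i _
    have hm : Measurable (fun ω : Sample d => ind x (pos ω.2 (n : ℝ) i)) := by
      unfold pos
      have h1 : Measurable (fun ω : Sample d => walk (ω.2 i) (n : ℝ)) :=
        (measurable_walk (n : ℝ)).comp ((measurable_pi_apply i).comp measurable_snd)
      exact (measurable_of_countable (fun y : Site d => ind x (i + y))).comp h1
    refine Integrable.of_bound hm.aestronglyMeasurable 1 (Filter.Eventually.of_forall ?_)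
    intro ω
    rw [Real.norm_eq_abs]
    exact aw27_ind_abs _ _
  calc dens d Λ n x ≤ ∫ ω, ∑ i ∈ Λ, ind x (pos ω.2 (n : ℝ) i) ∂(law d (1 / 2)) := by
        unfold dens
        refine integral_mono (aw27_int Λ n _ 1 (aw27_ind_abs x)) (integrable_finsetSum _ hint) ?_
        intro ω
        exact Finset.sum_le_sum_of_subset_of_nonneg (alive_subset _ _ _ _)
          fun _ _ _ => aw27_ind_nonneg _ _
    _ = ∑ i ∈ Λ, ker d n (x - i) := by
        rw [integral_finsetSum _ hint]
        exact Finset.sum_congr rfl fun i _ => aw27_single i x n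

theorem dens_union (d : ℕ) [NeZero d] (Λ F : Finset (Site d)) (n : ℕ) (x : Site d) :
    |dens d (Λ ∪ F) n x - dens d Λ n x| ≤ ∑ i ∈ F \ Λ, ker d n (x - i) := by
  have := prob_noiseLaw d
  have := prob_noises d
  have := prob_colours d aw27_half
  have := prob_law d aw27_half
  have hi1 := aw27_int (Λ ∪ F) n (ind x) 1 (aw27_ind_abs x)
  have hi2 := aw27_int Λ n (ind x) 1 (aw27_ind_abs x)
  have hi : Integrable (fun ω : Sample d => |field ω.1 ω.2 (Λ ∪ F) n (ind x) -
      field ω.1 ω.2 Λ n (ind x)|) (law d (1 / 2)) := (hi1.sub hi2).abs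
  unfold dens
  rw [← integral_sub hi1 hi2]
  refine (abs_integral_le_integral_abs).trans ?_
  rw [aw27_law] at hi ⊢
  rw [integral_prod _ hi]
  have hb : ∀ c : Site d → Bool, ∫ w, |field c w (Λ ∪ F) n (ind x) - field c w Λ n (ind x)|
      ∂(noises d) ≤ ∑ i ∈ F \ Λ, ker d n (x - i) := by
    intro c
    refine (field_union d c (ind x) 1 (aw27_ind_nonneg x) (aw27_ind_le x) n Λ F).trans ?_
    exact le_of_eq (Finset.sum_congr rfl fun i _ => aw27_ker _ _ _)
  calc _ ≤ ∫ _c, ∑ i ∈ F \ Λ, ker d n (x - i) ∂(colours d (1 / 2)) := by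
        refine integral_mono hi.integral_prod_left (integrable_const _) ?_
        intro c
        exact hb c
    _ = _ := by rw [integral_const, probReal_univ, one_smul]

section aw27b

variable {d : ℕ}

theorem aw27_reindex {ι X : Type} [MeasurableSpace X] (μ : Measure X) [IsProbabilityMeasure μ]
    (σ : ι ≃ ι) :
    MeasurePreserving (fun (x : ι → X) (i : ι) => x (σ i)) (Measure.infinitePi fun _ : ι => μ)
      (Measure.infinitePi fun _ : ι => μ) := by
  classical
  have hm : Measurable (fun (x : ι → X) (i : ι) => x (σ i)) := by fun_prop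
  refine ⟨hm, ?_⟩
  refine Measure.eq_infinitePi _ fun s t ht => ?_
  rw [Measure.map_apply hm (.pi s.countable_toSet fun _ _ => ht _)]
  have : (fun (x : ι → X) (i : ι) => x (σ i)) ⁻¹' ((s : Set ι).pi t) =
      ((s.map σ.toEmbedding : Finset ι) : Set ι).pi (fun j => t (σ.symm j)) := by
    ext x
    simp only [Set.mem_preimage, Set.mem_pi, Finset.mem_coe, Finset.mem_map,
      Equiv.coe_toEmbedding]
    constructor
    · rintro h _ ⟨i, hi, rfl⟩
      rw [σ.symm_apply_apply]
      exact h i hi
    · intro h i hi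
      have := h (σ i) ⟨i, hi, rfl⟩
      rwa [σ.symm_apply_apply] at this
  rw [this, Measure.infinitePi_pi _ (fun i _ => ht _), Finset.prod_map]
  simp

theorem aw27_shift [NeZero d] (z : Site d) :
    MeasurePreserving (fun ω : Sample d => ((fun i => ω.1 (i - z), fun i => ω.2 (i - z)) :
      Sample d)) (law d (1 / 2)) (law d (1 / 2)) := by
  have := prob_noiseLaw d
  have := prob_noises d
  have := prob_colours d aw27_half
  have : IsProbabilityMeasure (colourLaw (1 / 2)) := by
    have h := (measurable_pi_apply (X := fun _ : Site d => Bool) (0 : Site d))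
    constructor
    unfold colourLaw
    simp only [Measure.coe_add, Measure.coe_smul, Pi.add_apply, Pi.smul_apply, measure_univ,
      smul_eq_mul, mul_one]
    rw [← ENNReal.ofReal_add (by norm_num) (by norm_num)]
    norm_num
  rw [aw27_law]
  exact (aw27_reindex (colourLaw (1 / 2)) (Equiv.subRight z)).prod
    (aw27_reindex (noiseLaw d) (Equiv.subRight z))

end aw27b

theorem dens_translate (d : ℕ) [NeZero d] (Λ : Finset (Site d)) (n : ℕ) (x z : Site d) :
    dens d (Λ.map (addRightEmbedding z)) n (x + z) = dens d Λ n x := by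
  have hs := aw27_shift (d := d) z
  have hm := aw27_aesm (Λ.map (addRightEmbedding z)) n (ind (x + z))
  unfold dens
  rw [← hs.map_eq] at hm
  have h := integral_map hs.measurable.aemeasurable hm
  rw [hs.map_eq] at h
  rw [h]
  refine integral_congr_ae (Filter.Eventually.of_forall fun ω => ?_)
  simp only [field]
  rw [alive_translate, Finset.sum_map]
  refine Finset.sum_congr rfl fun i _ => ?_
  apply aw27_ind_congr
  simp only [pos, addRightEmbedding_apply, add_sub_cancel_right]
  rw [add_right_comm, add_left_inj]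

section aw27c

variable {d : ℕ}

/-- the limit along all finite sets exists and does not depend on the site -/
theorem aw27_lim [NeZero d] (n : ℕ) : ∃ L : ℝ, ∀ x : Site d,
    Tendsto (fun Λ : Finset (Site d) => dens d Λ n x) atTop (𝓝 L) := by
  classical
  have h0 : ∀ x : Site d, ∃ L, Tendsto (fun Λ : Finset (Site d) => dens d Λ n x) atTop (𝓝 L) := by
    intro x
    have hc : CauchySeq (fun Λ : Finset (Site d) => dens d Λ n x) := by
      rw [Metric.cauchySeq_iff']
      intro ε hε
      have h1 := aw27_hasSum (d := d) (n : ℝ) x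
      have h2 : ∀ᶠ Λ : Finset (Site d) in atTop, 1 - ε < ∑ i ∈ Λ, ker d n (x - i) :=
        h1.eventually (lt_mem_nhds (by linarith))
      obtain ⟨Λ₀, hΛ₀⟩ := h2.exists
      refine ⟨Λ₀, fun Λ hΛ => ?_⟩
      rw [Real.dist_eq]
      have h3 := dens_union d Λ₀ Λ n x
      rw [Finset.union_eq_right.2 hΛ] at h3
      have h4 : ∑ i ∈ Λ \ Λ₀, ker d n (x - i) + ∑ i ∈ Λ₀, ker d n (x - i) =
          ∑ i ∈ Λ, ker d n (x - i) := Finset.sum_sdiff hΛ
      have h5 := aw27_sum_le (d := d) (n : ℝ) x Λ
      linarith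
    exact cauchySeq_tendsto_of_complete hc
  obtain ⟨L, hL⟩ := h0 0
  refine ⟨L, fun x => ?_⟩
  obtain ⟨L', hL'⟩ := h0 x
  have hmap : Tendsto (fun Λ : Finset (Site d) => Λ.map (addRightEmbedding x)) atTop atTop := by
    refine tendsto_atTop.2 fun B => ?_
    filter_upwards [eventually_ge_atTop (B.map (addRightEmbedding (-x)))] with Λ hΛ
    intro i hi
    rw [Finset.mem_map]
    refine ⟨i - x, hΛ ?_, ?_⟩
    · rw [Finset.mem_map]
      exact ⟨i, hi, by simp [addRightEmbedding_apply, sub_eq_add_neg]⟩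
    · simp [addRightEmbedding_apply]
  have h1 := hL'.comp hmap
  have h2 : ((fun Λ : Finset (Site d) => dens d Λ n x) ∘
      fun Λ : Finset (Site d) => Λ.map (addRightEmbedding x)) = fun Λ => dens d Λ n 0 := by
    funext Λ
    have := dens_translate d Λ n 0 x
    rw [zero_add] at this
    exact this
  rw [h2] at h1
  rw [tendsto_nhds_unique hL h1]
  exact hL'

theorem aw27_box : Tendsto (fun M : ℕ => box d M) atTop atTop := by
  refine tendsto_atTop.2 fun B => ?_
  obtain ⟨M, hM⟩ : ∃ M : ℕ, ∀ i ∈ B, ∀ k, (i k).natAbs ≤ M := by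
    refine ⟨∑ i ∈ B, ∑ k, (i k).natAbs, fun i hi k => ?_⟩
    exact (Finset.single_le_sum (f := fun k => (i k).natAbs) (fun _ _ => Nat.zero_le _)
      (Finset.mem_univ k)).trans (Finset.single_le_sum (f := fun i => ∑ k, (i k).natAbs)
        (fun _ _ => Nat.zero_le _) hi)
  filter_upwards [eventually_ge_atTop M] with M' hM'
  intro i hi
  unfold box
  rw [Finset.mem_Icc, Pi.le_def, Pi.le_def]
  exact ⟨fun k => by have := hM i hi k; omega, fun k => by have := hM i hi k; omega⟩

end aw27c

theorem tendsto_dens (d : ℕ) [NeZero d] (n : ℕ) (x : Site d) :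
    Tendsto (fun M : ℕ => dens d (box d M) n x) atTop (𝓝 (rho d n)) := by
  obtain ⟨L, hL⟩ := aw27_lim (d := d) n
  have h0 := (hL 0).comp aw27_box
  have h1 : rho d n = L := h0.limsup_eq
  rw [h1]
  exact (hL x).comp aw27_box

/-- `E (F_l)` in the finite system: `F_l = ∑ y, p_l (x - y) (number of particles at y at time n)` -/
theorem integral_field_eq (d : ℕ) [NeZero d] (φ : Site d → ℝ) (C : ℝ) (hφ : ∀ x, |φ x| ≤ C)
    (Λ : Finset (Site d)) (n : ℕ) :
    HasSum (fun y => φ y * dens d Λ n y) (∫ ω, field ω.1 ω.2 Λ n φ ∂(law d (1 / 2))) := by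
  have hC : 0 ≤ C := (abs_nonneg _).trans (hφ 0)
  have hpt : ∀ ω : Sample d, HasSum (fun y => φ y * field ω.1 ω.2 Λ n (ind y))
      (field ω.1 ω.2 Λ n φ) := by
    intro ω
    unfold field
    have h1 : ∀ i : Site d, HasSum (fun y => φ y * ind y (pos ω.2 n i)) (φ (pos ω.2 n i)) := by
      intro i
      have h2 : φ (pos ω.2 n i) * ind (pos ω.2 n i) (pos ω.2 n i) = φ (pos ω.2 n i) := by
        simp [ind]
      have h3 := hasSum_single (f := fun y => φ y * ind y (pos ω.2 n i)) (pos ω.2 n i) (by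
        intro y hy
        simp only [ind]
        rw [if_neg (Ne.symm hy), mul_zero])
      rw [h2] at h3
      exact h3
    have h4 := hasSum_sum (s := alive ω.1 ω.2 Λ n) fun i _ => h1 i
    simp only [Finset.mul_sum]
    exact h4
  have hint : ∀ y : Site d, Integrable (fun ω : Sample d => φ y * field ω.1 ω.2 Λ n (ind y))
      (law d (1 / 2)) := fun y => (aw27_int Λ n (ind y) 1 (aw27_ind_abs y)).const_mul _
  have hnorm : ∀ y : Site d, ∫ ω, ‖φ y * field ω.1 ω.2 Λ n (ind y)‖ ∂(law d (1 / 2)) =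
      |φ y| * dens d Λ n y := by
    intro y
    unfold dens
    rw [← integral_const_mul]
    refine integral_congr_ae (Filter.Eventually.of_forall fun ω => ?_)
    have : 0 ≤ field ω.1 ω.2 Λ n (ind y) := Finset.sum_nonneg fun _ _ => aw27_ind_nonneg _ _
    simp only [norm_mul, Real.norm_eq_abs, abs_of_nonneg this]
  have hsum : Summable fun y : Site d => ∫ ω, ‖φ y * field ω.1 ω.2 Λ n (ind y)‖
      ∂(law d (1 / 2)) := by
    simp only [hnorm]
    refine Summable.of_nonneg_of_le (fun y => mul_nonneg (abs_nonneg _) (dens_nonneg _ _ _ _))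
      (fun y => mul_le_mul (hφ y) (dens_le d Λ n y) (dens_nonneg _ _ _ _) hC) ?_
    refine Summable.mul_left _ (summable_sum fun i _ => (aw27_hasSum' (n : ℝ) i).summable)
  have h := hasSum_integral_of_summable_integral_norm hint hsum
  have e1 : ∀ ω : Sample d, ∑' y, φ y * field ω.1 ω.2 Λ n (ind y) = field ω.1 ω.2 Λ n φ :=
    fun ω => (hpt ω).tsum_eq
  simp only [e1, integral_const_mul] at h
  exact h

theorem tendsto_field (d : ℕ) [NeZero d] (n : ℕ) (φ : Site d → ℝ) (hφ0 : ∀ x, 0 ≤ φ x)
    (hφ : Summable φ) :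
    Tendsto (fun M : ℕ => ∫ ω, field ω.1 ω.2 (box d M) n φ ∂(law d (1 / 2))) atTop
      (𝓝 ((∑' x, φ x) * rho d n)) := by
  have hb : ∀ x, |φ x| ≤ ∑' y, φ y := fun x => by
    rw [abs_of_nonneg (hφ0 x)]
    exact hφ.le_tsum x fun y _ => hφ0 y
  have e1 : ∀ M : ℕ, ∫ ω, field ω.1 ω.2 (box d M) n φ ∂(law d (1 / 2)) =
      ∑' y, φ y * dens d (box d M) n y := fun M =>
    (integral_field_eq d φ _ hb (box d M) n).tsum_eq.symm
  simp only [e1]
  rw [← tsum_mul_right]
  refine tendsto_tsum_of_dominated_convergence (bound := φ) hφ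
    (fun y => (tendsto_dens d n y).const_mul _) (Filter.Eventually.of_forall fun M y => ?_)
  rw [Real.norm_eq_abs, abs_of_nonneg (mul_nonneg (hφ0 y) (dens_nonneg _ _ _ _))]
  exact mul_le_of_le_one_right (hφ0 y) ((dens_le d _ n y).trans (aw27_sum_le _ _ _))

theorem rho_le_one (d : ℕ) [NeZero d] (n : ℕ) : rho d n ≤ 1 :=
  le_of_tendsto (tendsto_dens d n 0) (Filter.Eventually.of_forall fun M =>
    (dens_le d _ n 0).trans (aw27_sum_le _ _ _))

theorem rho_antitone (d : ℕ) [NeZero d] : Antitone (rho d) := by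
  have := prob_noises d
  have := prob_colours d aw27_half
  refine antitone_nat_of_succ_le fun N => ?_
  have hs : HasSum (fun y : Site d => ker d 1 (0 - y)) 1 := aw27_hasSum 1 0
  have h1 := tendsto_field d N (fun y => ker d 1 (0 - y)) (fun y => aw27_ker_nonneg _ _)
    hs.summable
  rw [hs.tsum_eq, one_mul] at h1
  have h2 := tendsto_dens d (N + 1) 0
  refine le_of_tendsto_of_tendsto' h2 h1 fun M => ?_
  have hPP : PP (((N + 1 - N : ℕ) : ℕ) : ℝ) (ind (0 : Site d)) = fun y => ker d 1 (0 - y) := by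
    funext y
    rw [PP_ind]
    congr 1
    simp
  have hb : ∀ y : Site d, |ker d 1 (0 - y)| ≤ 1 := fun y => by
    rw [abs_of_nonneg (aw27_ker_nonneg _ _)]
    exact le_hasSum hs y fun _ _ => aw27_ker_nonneg _ _
  have hi1 := aw27_int (box d M) (N + 1) (ind (0 : Site d)) 1 (aw27_ind_abs 0)
  have hi2 := aw27_int (box d M) N (fun y : Site d => ker d 1 (0 - y)) 1 hb
  unfold dens
  rw [aw27_law] at hi1 hi2 ⊢
  rw [integral_prod _ hi1, integral_prod _ hi2]
  refine integral_mono hi1.integral_prod_left hi2.integral_prod_left fun c => ?_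
  have h3 := field_markov d c (ind 0) 1 (aw27_ind_nonneg 0) (aw27_ind_le 0) (Nat.le_succ N)
    (box d M)
  have h4 : N.succ - N = N + 1 - N := rfl
  rw [h4, hPP] at h3
  exact h3

end Pool.Agent.H285
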