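import Pool.Agent.H285.Base2
import Pool.Agent.H285.AW27
import Pool.Agent.H285.AW25
import Pool.Agent.H285.AW06

/-!
# AW29 (MP_0e9fac_pr)
-/



open MeasureTheory ProbabilityTheory Filter Topology

namespace Pool.Agent.H285


/- ======== TARGETS ======== -/

section meet_norm

variable {d : ℕ}

theorem meet_norm1_add (x y : Site d) : norm1 (x + y) ≤ norm1 x + norm1 y := by
  unfold norm1
  rw [← Finset.sum_add_distrib]
  exact Finset.sum_le_sum fun k _ => Int.natAbs_add_le _ _

theorem meet_norm1_neg (x : Site d) : norm1 (-x) = norm1 x := by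
  unfold norm1
  exact Finset.sum_congr rfl fun k _ => by rw [Pi.neg_apply, Int.natAbs_neg]

theorem meet_norm1_sub_comm (x y : Site d) : norm1 (x - y) = norm1 (y - x) := by
  rw [← meet_norm1_neg, neg_sub]

theorem meet_norm1_sum {ι : Type*} (s : Finset ι) (f : ι → Site d) :
    norm1 (∑ k ∈ s, f k) ≤ ∑ k ∈ s, norm1 (f k) := by
  classical
  induction s using Finset.induction_on with
  | empty => simp [norm1]
  | insert a s ha ih =>
    rw [Finset.sum_insert ha, Finset.sum_insert ha]
    exact (meet_norm1_add _ _).trans (Nat.add_le_add_left ih _)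

theorem meet_norm1_unitVec (u : Dir d) : norm1 (unitVec u) = 1 := by
  unfold norm1 unitVec
  rw [Finset.sum_eq_single u.1]
  · rw [Pi.single_eq_same]
    split_ifs <;> rfl
  · intro b _ hb
    rw [Pi.single_eq_of_ne hb]; rfl
  · intro h
    exact absurd (Finset.mem_univ _) h

theorem meet_walk_dist {w : Noise d} (hw : Good w) {s r t : ℝ} (hs : 0 ≤ s) (hsr : s ≤ r)
    (hrt : r ≤ t) : norm1 (walk w r - walk w s) ≤ jumps w t - jumps w s := by
  have h1 := jumps_mono hw hs hsr
  have h2 := jumps_mono hw (hs.trans hsr) hrt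
  have e : walk w r - walk w s = ∑ k ∈ Finset.Ico (jumps w s) (jumps w r), unitVec (w.2 k) := by
    unfold walk
    rw [Finset.sum_Ico_eq_sub _ h1]
  rw [e]
  refine (meet_norm1_sum _ _).trans ?_
  rw [Finset.sum_congr rfl fun k _ => meet_norm1_unitVec (w.2 k), Finset.sum_const, smul_eq_mul,
    mul_one, Nat.card_Ico]
  omega

/-- the number of sites within distance `J` -/
theorem meet_count (x : Site d) (J : ℕ) :
    ∑' y : Site d, (if norm1 (x - y) ≤ J then (1 : ENNReal) else 0) ≤ ((2 * J + 1) ^ d : ℕ) := by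
  classical
  have hsub : ∀ y : Site d, norm1 (x - y) ≤ J →
      y ∈ Finset.Icc (fun k => x k - (J : ℤ)) (fun k => x k + (J : ℤ)) := by
    intro y hy
    rw [Finset.mem_Icc]
    have hk : ∀ k, (x k - y k).natAbs ≤ J := by
      intro k
      refine le_trans ?_ hy
      exact Finset.single_le_sum (f := fun k => ((x - y) k).natAbs) (fun _ _ => Nat.zero_le _)
        (Finset.mem_univ k)
    constructor
    · intro k
      have := hk k
      simp only
      omega
    · intro k
      have := hk k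
      simp only
      omega
  have hcard : (Finset.Icc (fun k => x k - (J : ℤ)) (fun k => x k + (J : ℤ)) :
      Finset (Site d)).card = (2 * J + 1) ^ d := by
    rw [Pi.card_Icc]
    rw [Finset.prod_congr rfl fun k _ => (by rw [Int.card_Icc]; omega :
      (Finset.Icc (x k - (J : ℤ)) (x k + (J : ℤ))).card = 2 * J + 1)]
    rw [Finset.prod_const, Finset.card_univ, Fintype.card_fin]
  rw [tsum_eq_sum (s := Finset.Icc (fun k => x k - (J : ℤ)) (fun k => x k + (J : ℤ)))]
  · rw [← hcard]
    refine (Finset.sum_le_card_nsmul _ _ 1 ?_).trans ?_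
    · intro y _
      split_ifs <;> simp
    · simp
  · intro y hy
    rw [if_neg]
    intro h
    exact hy (hsub y h)

end meet_norm

section meet_K

variable (d : ℕ) [NeZero d]

/-- the meeting kernel -/
noncomputable def meet_kap (x y : Site d) : ENNReal :=
  ((noiseLaw d).prod (noiseLaw d))
    {z | x + walk z.1 1 = 0 ∧ norm1 (x - y) ≤ jumps z.1 1 + jumps z.2 1}

omit [NeZero d] in
theorem meet_measurableSet (x y : Site d) : MeasurableSet
    {z : Noise d × Noise d | x + walk z.1 1 = 0 ∧ norm1 (x - y) ≤ jumps z.1 1 + jumps z.2 1} := by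
  have h1 : Measurable fun z : Noise d × Noise d => walk z.1 1 :=
    (measurable_walk 1).comp measurable_fst
  have h2 : Measurable fun z : Noise d × Noise d => jumps z.1 1 :=
    (measurable_jumps 1).comp measurable_fst
  have h3 : Measurable fun z : Noise d × Noise d => jumps z.2 1 :=
    (measurable_jumps 1).comp measurable_snd
  have h4 : MeasurableSet {z : Noise d × Noise d | x + walk z.1 1 = 0} :=
    h1 (MeasurableSet.of_discrete (s := {v : Site d | x + v = 0}))
  have h5 : MeasurableSet {z : Noise d × Noise d | norm1 (x - y) ≤ jumps z.1 1 + jumps z.2 1} :=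
    measurableSet_le measurable_const (h2.add h3)
  exact h4.inter h5

theorem meet_exp_moment : ∫⁻ w, (2 : ENNReal) ^ (jumps w 1) ∂(noiseLaw d) ≠ ⊤ := by
  have := prob_noiseLaw d
  have h1 : ∫⁻ w, (2 : ENNReal) ^ (jumps w 1) ∂(noiseLaw d) ≤
      ∫⁻ w, ∑' k : ℕ, {w : Noise d | k ≤ jumps w 1}.indicator (fun _ => (2 : ENNReal) ^ k) w
        ∂(noiseLaw d) := by
    apply lintegral_mono
    intro w
    refine le_trans ?_ (ENNReal.le_tsum (jumps w 1))
    have hmem : w ∈ {v : Noise d | jumps w 1 ≤ jumps v 1} := le_refl (jumps w 1)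
    exact le_of_eq (Set.indicator_of_mem hmem (fun _ : Noise d => (2 : ENNReal) ^ jumps w 1)).symm
  refine ne_top_of_le_ne_top ?_ h1
  have hm : ∀ k : ℕ, MeasurableSet {w : Noise d | k ≤ jumps w 1} :=
    fun k => measurableSet_le measurable_const (measurable_jumps 1)
  rw [lintegral_tsum fun k => (measurable_const.indicator (hm k)).aemeasurable]
  have h2 : ∀ k : ℕ, ∫⁻ w, {w : Noise d | k ≤ jumps w 1}.indicator (fun _ => (2 : ENNReal) ^ k) w
      ∂(noiseLaw d) ≤ ENNReal.ofReal (Real.exp 3 * (1 / 2) ^ k) := by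
    intro k
    rw [lintegral_indicator (hm k), lintegral_const, Measure.restrict_apply_univ]
    have h3 := jumps_tail d (t := 1) (θ := 3) zero_le_one (by norm_num) k
    rw [mul_one] at h3
    have h4 : (noiseLaw d) {w | k ≤ jumps w 1} ≤ ENNReal.ofReal (Real.exp 3 / (1 + 3) ^ k) := by
      rw [← ofReal_measureReal (measure_ne_top _ _)]
      exact ENNReal.ofReal_le_ofReal h3
    refine (mul_le_mul_right h4 _).trans ?_
    have e2 : (2 : ENNReal) ^ k = ENNReal.ofReal (2 ^ k) := by
      rw [ENNReal.ofReal_pow (by norm_num)]; norm_num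
    rw [e2, ← ENNReal.ofReal_mul (by positivity)]
    apply ENNReal.ofReal_le_ofReal
    have e4 : ((1 : ℝ) + 3) ^ k = 2 ^ k * 2 ^ k := by
      rw [← mul_pow]; norm_num
    rw [e4, one_div, inv_pow]
    have h5 : (2 : ℝ) ^ k ≠ 0 := by positivity
    apply le_of_eq
    field_simp
  refine ne_top_of_le_ne_top ?_ (ENNReal.tsum_le_tsum h2)
  rw [← ENNReal.ofReal_tsum_of_nonneg (fun k => by positivity)
    ((summable_geometric_of_lt_one (by norm_num) (by norm_num)).mul_left _)]
  exact ENNReal.ofReal_ne_top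

theorem meet_poly (d : ℕ) : ∃ C : ℕ, ∀ k : ℕ, (2 * k + 1) ^ d ≤ C * 2 ^ k := by
  have h := tendsto_pow_const_div_const_pow_of_one_lt d (r := (2 : ℝ)) (by norm_num)
  obtain ⟨B, hB⟩ := h.bddAbove_range
  obtain ⟨C, hC⟩ := exists_nat_ge B
  refine ⟨(3 ^ d) * (C + 1), fun k => ?_⟩
  rcases Nat.eq_zero_or_pos k with rfl | hk
  · simp only [mul_zero, zero_add, one_pow, pow_zero, mul_one]
    exact Nat.one_le_iff_ne_zero.2 (by positivity)
  · have h1 : (k : ℝ) ^ d / 2 ^ k ≤ C := (hB ⟨k, rfl⟩).trans hC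
    rw [div_le_iff₀ (by positivity)] at h1
    have h2 : k ^ d ≤ C * 2 ^ k := by exact_mod_cast h1
    calc (2 * k + 1) ^ d ≤ (3 * k) ^ d := Nat.pow_le_pow_left (by omega) d
      _ = 3 ^ d * k ^ d := mul_pow _ _ _
      _ ≤ 3 ^ d * (C * 2 ^ k) := Nat.mul_le_mul_left _ h2
      _ ≤ 3 ^ d * ((C + 1) * 2 ^ k) :=
        Nat.mul_le_mul_left _ (Nat.mul_le_mul_right _ (Nat.le_succ C))
      _ = _ := by ring

theorem meet_kap_sum : ∑' p : Site d × Site d, meet_kap d p.1 p.2 ≠ ⊤ := by
  classical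
  have := prob_noiseLaw d
  obtain ⟨C, hC⟩ := meet_poly d
  have e1 : ∑' p : Site d × Site d, meet_kap d p.1 p.2 =
      ∫⁻ z, ∑' p : Site d × Site d, (if p.1 + walk z.1 1 = 0 ∧
        norm1 (p.1 - p.2) ≤ jumps z.1 1 + jumps z.2 1 then (1 : ENNReal) else 0)
          ∂((noiseLaw d).prod (noiseLaw d)) := by
    rw [lintegral_tsum]
    · apply tsum_congr
      intro p
      rw [meet_kap, ← lintegral_indicator_one (meet_measurableSet d p.1 p.2)]
      apply lintegral_congr
      intro z
      rw [Set.indicator_apply]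
      rfl
    · intro p
      refine (Measurable.ite (meet_measurableSet d p.1 p.2) measurable_const
        measurable_const).aemeasurable
  rw [e1]
  have e2 : ∀ z : Noise d × Noise d, ∑' p : Site d × Site d, (if p.1 + walk z.1 1 = 0 ∧
        norm1 (p.1 - p.2) ≤ jumps z.1 1 + jumps z.2 1 then (1 : ENNReal) else 0) ≤
      (C : ENNReal) * (2 ^ (jumps z.1 1) * 2 ^ (jumps z.2 1)) := by
    intro z
    rw [ENNReal.tsum_prod (f := fun a b => if a + walk z.1 1 = 0 ∧
        norm1 (a - b) ≤ jumps z.1 1 + jumps z.2 1 then (1 : ENNReal) else 0)]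
    rw [tsum_eq_single (-walk z.1 1)]
    · have e3 : ∀ b : Site d, (if -walk z.1 1 + walk z.1 1 = 0 ∧
          norm1 (-walk z.1 1 - b) ≤ jumps z.1 1 + jumps z.2 1 then (1 : ENNReal) else 0) =
          if norm1 (-walk z.1 1 - b) ≤ jumps z.1 1 + jumps z.2 1 then (1 : ENNReal) else 0 := by
        intro b
        simp
      rw [tsum_congr e3]
      refine (meet_count _ _).trans ?_
      refine le_trans (Nat.cast_le.2 (hC _)) ?_
      rw [pow_add]
      push_cast
      exact le_refl _
    · intro x hx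
      rw [ENNReal.tsum_eq_zero]
      intro y
      rw [if_neg]
      rintro ⟨h, -⟩
      exact hx (eq_neg_of_add_eq_zero_left h)
  refine ne_top_of_le_ne_top ?_ (lintegral_mono e2)
  have hm : Measurable fun w : Noise d => (2 : ENNReal) ^ (jumps w 1) :=
    (measurable_of_countable fun k : ℕ => (2 : ENNReal) ^ k).comp (measurable_jumps 1)
  have hm2 : Measurable fun z : Noise d × Noise d =>
      (2 : ENNReal) ^ (jumps z.1 1) * 2 ^ (jumps z.2 1) :=
    (hm.comp measurable_fst).mul (hm.comp measurable_snd)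
  rw [lintegral_const_mul _ hm2, lintegral_prod_mul (f := fun w : Noise d => (2 : ENNReal) ^
    (jumps w 1)) (g := fun w : Noise d => (2 : ENNReal) ^ (jumps w 1)) hm.aemeasurable
    hm.aemeasurable]
  exact ENNReal.mul_ne_top (ENNReal.natCast_ne_top C)
    (ENNReal.mul_ne_top (meet_exp_moment d) (meet_exp_moment d))

end meet_K

section meet_cat

variable (d : ℕ) [NeZero d]

theorem meet_mp_catAll {s : ℝ} (hs : 0 ≤ s) :
    MeasurePreserving (fun z : (Site d → Noise d) × (Site d → Noise d) => catAll s z.1 z.2)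
      ((noises d).prod (noises d)) (noises d) := by
  have := prob_noiseLaw d
  exact measurePreserving_coord (ι := Site d) (noiseLaw d) (fun _ z => cat s z.1 z.2)
    (fun _ => measurePreserving_cat d hs)

theorem meet_half_mem : (1 / 2 : ℝ) ∈ Set.Icc (0 : ℝ) 1 := by norm_num

omit [NeZero d] in
theorem meet_law_eq : law d (1 / 2) = (colours d (1 / 2)).prod (noises d) := rfl

theorem meet_mp_law {s : ℝ} (hs : 0 ≤ s) :
    MeasurePreserving (fun z : Sample d × (Site d → Noise d) => (z.1.1, catAll s z.1.2 z.2))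
      ((law d (1 / 2)).prod (noises d)) (law d (1 / 2)) := by
  have := prob_noises d
  have := prob_colours d (meet_half_mem)
  rw [meet_law_eq]
  have h1 := measurePreserving_prodAssoc (colours d (1 / 2)) (noises d) (noises d)
  have h2 := (MeasurePreserving.id (colours d (1 / 2))).prod (meet_mp_catAll d hs)
  exact h2.comp h1

theorem meet_ae_good_noises : ∀ᵐ w ∂(noises d), ∀ i, Good (w i) := by
  have := prob_noiseLaw d
  rw [ae_all_iff]
  intro i
  exact (measurePreserving_eval_infinitePi (fun _ : Site d => noiseLaw d) i).quasiMeasurePreserving.ae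
    (ae_good d)

theorem meet_ae_law {p : (Site d → Noise d) → Prop} (h : ∀ᵐ w ∂(noises d), p w) :
    ∀ᵐ ω ∂(law d (1 / 2)), p ω.2 := by
  have := prob_noises d
  have := prob_colours d (meet_half_mem)
  rw [meet_law_eq]
  exact Measure.quasiMeasurePreserving_snd.ae h

/-- the pair of two coordinates -/
theorem meet_mp_pair {i j : Site d} (hij : i ≠ j) :
    MeasurePreserving (fun w : Site d → Noise d => (w i, w j)) (noises d)
      ((noiseLaw d).prod (noiseLaw d)) := by
  have := prob_noiseLaw d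
  have := prob_noises d
  have hi : Measurable fun w : Site d → Noise d => w i := measurable_pi_apply i
  have hj : Measurable fun w : Site d → Noise d => w j := measurable_pi_apply j
  refine ⟨hi.prodMk hj, ?_⟩
  have h1 := iIndepFun_infinitePi (P := fun _ : Site d => noiseLaw d)
    (X := fun _ : Site d => (id : Noise d → Noise d)) (fun _ => measurable_id)
  have h2 := h1.indepFun hij
  have h3 := (indepFun_iff_map_prod_eq_prod_map_map (μ := noises d) hi.aemeasurable
    hj.aemeasurable).1 h2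
  rw [h3]
  have e1 := (measurePreserving_eval_infinitePi (fun _ : Site d => noiseLaw d) i).map_eq
  have e2 := (measurePreserving_eval_infinitePi (fun _ : Site d => noiseLaw d) j).map_eq
  change ((noises d).map (Function.eval i)).prod ((noises d).map (Function.eval j)) = _
  unfold noises
  rw [e1, e2]

/-- the Markov property, in integrated form -/
theorem meet_cut {s : ℝ} (hs : 0 ≤ s) (E : Set (Sample d)) (hE : MeasurableSet E)
    (hE2 : ∀ᵐ z ∂((law d (1 / 2)).prod (noises d)), ((z.1.1, catAll s z.1.2 z.2) ∈ E ↔ z.1 ∈ E))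
    (Ψ : (Site d → Noise d) → ENNReal) (hΨ : Measurable Ψ) :
    ∫⁻ ω in E, Ψ ω.2 ∂(law d (1 / 2)) =
      ∫⁻ ω in E, (∫⁻ w', Ψ (catAll s ω.2 w') ∂(noises d)) ∂(law d (1 / 2)) := by
  have := prob_noises d
  have := prob_law d (meet_half_mem)
  have hcat := (meet_mp_catAll d hs).measurable
  have hT := meet_mp_law d hs
  rw [← lintegral_indicator hE, ← lintegral_indicator hE]
  have hm : Measurable (E.indicator fun ω : Sample d => Ψ ω.2) :=
    (hΨ.comp measurable_snd).indicator hE
  rw [← hT.lintegral_comp hm]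
  have hc2 : Measurable fun z : Sample d × (Site d → Noise d) => Ψ (catAll s z.1.2 z.2) :=
    hΨ.comp (hcat.comp ((measurable_snd.comp measurable_fst).prodMk measurable_snd))
  have e1 : ∫⁻ z, (E.indicator fun ω : Sample d => Ψ ω.2) (z.1.1, catAll s z.1.2 z.2)
      ∂((law d (1 / 2)).prod (noises d)) =
      ∫⁻ z, {z : Sample d × (Site d → Noise d) | z.1 ∈ E}.indicator
        (fun z => Ψ (catAll s z.1.2 z.2)) z ∂((law d (1 / 2)).prod (noises d)) := by
    apply lintegral_congr_ae
    filter_upwards [hE2] with z hz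
    by_cases h : z.1 ∈ E
    · rw [Set.indicator_of_mem (hz.2 h)]
      exact (Set.indicator_of_mem (s := {z : Sample d × (Site d → Noise d) | z.1 ∈ E}) h
        (fun z => Ψ (catAll s z.1.2 z.2))).symm
    · rw [Set.indicator_of_notMem (fun h' => h (hz.1 h'))]
      exact (Set.indicator_of_notMem (s := {z : Sample d × (Site d → Noise d) | z.1 ∈ E}) h
        (fun z => Ψ (catAll s z.1.2 z.2))).symm
  have hE3 : MeasurableSet {z : Sample d × (Site d → Noise d) | z.1 ∈ E} := measurable_fst hE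
  rw [e1, lintegral_prod _ (hc2.indicator hE3).aemeasurable]
  apply lintegral_congr
  intro ω
  by_cases h : ω ∈ E
  · rw [Set.indicator_of_mem h]
    apply lintegral_congr
    intro w'
    exact Set.indicator_of_mem (s := {z : Sample d × (Site d → Noise d) | z.1 ∈ E}) h
      (fun z => Ψ (catAll s z.1.2 z.2))
  · rw [Set.indicator_of_notMem h]
    rw [← lintegral_zero (μ := noises d)]
    apply lintegral_congr
    intro w'
    exact Set.indicator_of_notMem (s := {z : Sample d × (Site d → Noise d) | z.1 ∈ E}) h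
      (fun z => Ψ (catAll s z.1.2 z.2))

end meet_cat

section meet_version

variable (d : ℕ) [NeZero d]

/-- measurable version of the alive set with the properties used below -/
structure MeetVersion (Λ : Finset (Site d)) (n : ℕ) (A : Sample d → Finset (Site d)) : Prop where
  meas : ∀ i, MeasurableSet {ω | i ∈ A ω}
  sub : ∀ ω, A ω ⊆ Λ
  ae : ∀ᵐ ω ∂(law d (1 / 2)), alive ω.1 ω.2 Λ n = A ω
  inv : ∀ᵐ z ∂((law d (1 / 2)).prod (noises d)), A (z.1.1, catAll n z.1.2 z.2) = A z.1

theorem meet_exists_version (Λ : Finset (Site d)) (n : ℕ) : ∃ A, MeetVersion d Λ n A := by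
  have := prob_noises d
  have := prob_law d (meet_half_mem)
  obtain ⟨A, N, h1, h2, -, h4, h5⟩ := exists_version d Λ n
  have hN : ∀ᵐ w ∂(noises d), w ∉ N := by
    rw [ae_iff]
    simpa using h4
  have hae : ∀ᵐ ω ∂(law d (1 / 2)), alive ω.1 ω.2 Λ n = A ω := by
    filter_upwards [meet_ae_law d hN] with ω hω
    exact h5 ω.1 ω.2 hω
  refine ⟨A, ?_, h2, hae, ?_⟩
  · intro i
    have e : {ω : Sample d | i ∈ A ω} = ⋃ B ∈ {B : Finset (Site d) | i ∈ B}, {ω | A ω = B} := by
      ext ω
      simp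
    rw [e]
    exact MeasurableSet.biUnion (Set.to_countable _) fun B _ => h1 B
  · have k1 := (meet_mp_law d (s := (n : ℝ)) (Nat.cast_nonneg n)).quasiMeasurePreserving.ae hae
    have k2 := (Measure.quasiMeasurePreserving_fst (μ := law d (1 / 2)) (ν := noises d)).ae hae
    have k3 := (Measure.quasiMeasurePreserving_fst (μ := law d (1 / 2)) (ν := noises d)).ae
      (meet_ae_law d (meet_ae_good_noises d))
    have k4 := (Measure.quasiMeasurePreserving_snd (μ := law d (1 / 2)) (ν := noises d)).ae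
      (meet_ae_good_noises d)
    filter_upwards [k1, k2, k3, k4] with z z1 z2 z3 z4
    rw [← z1, ← z2]
    exact alive_catAll z.1.1 z.1.2 z.2 Λ (fun i _ => z3 i) (fun i _ => z4 i) (Nat.cast_nonneg n)
      le_rfl

variable {d}

omit [NeZero d] in
theorem meet_ofReal_field {Λ : Finset (Site d)} {n : ℕ} {A : Sample d → Finset (Site d)}
    (hA : MeetVersion d Λ n A) {φ : Site d → ℝ} (hφ : ∀ x, 0 ≤ φ x) {ω : Sample d}
    (hω : alive ω.1 ω.2 Λ n = A ω) :
    ENNReal.ofReal (field ω.1 ω.2 Λ n φ) =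
      ∑ i ∈ Λ, {ω | i ∈ A ω}.indicator
        (fun ω : Sample d => ENNReal.ofReal (φ (i + walk (ω.2 i) n))) ω := by
  classical
  unfold field
  rw [hω, ENNReal.ofReal_sum_of_nonneg (fun i _ => hφ _)]
  have h1 : A ω = Λ.filter (fun i => i ∈ A ω) := by
    ext i
    rw [Finset.mem_filter]
    exact ⟨fun h => ⟨hA.sub ω h, h⟩, fun h => h.2⟩
  rw [h1, Finset.sum_filter]
  apply Finset.sum_congr rfl
  intro i _
  rw [Set.indicator_apply]
  simp only [Set.mem_ofPred_eq]
  by_cases hi : i ∈ A ω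
  · by_cases hi2 : i ∈ Λ
    · simp [hi, pos]
    · exact absurd (hA.sub ω hi) hi2
  · simp [hi]

omit [NeZero d] in
theorem meet_field_eq {Λ : Finset (Site d)} {n : ℕ} {A : Sample d → Finset (Site d)}
    (hA : MeetVersion d Λ n A) (φ : Site d → ℝ) {ω : Sample d}
    (hω : alive ω.1 ω.2 Λ n = A ω) :
    field ω.1 ω.2 Λ n φ =
      ∑ i ∈ Λ, {ω | i ∈ A ω}.indicator
        (fun ω : Sample d => φ (i + walk (ω.2 i) n)) ω := by
  classical
  unfold field
  rw [hω]
  have h1 : A ω = Λ.filter (fun i => i ∈ A ω) := by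
    ext i
    rw [Finset.mem_filter]
    exact ⟨fun h => ⟨hA.sub ω h, h⟩, fun h => h.2⟩
  rw [h1, Finset.sum_filter]
  apply Finset.sum_congr rfl
  intro i _
  rw [Set.indicator_apply]
  simp only [Set.mem_ofPred_eq]
  by_cases hi : i ∈ A ω
  · by_cases hi2 : i ∈ Λ
    · simp [hi, pos]
    · exact absurd (hA.sub ω hi) hi2
  · simp [hi]

omit [NeZero d] in
theorem meet_meas_term (φ : Site d → ℝ) (i : Site d) (t : ℝ) :
    Measurable fun ω : Sample d => φ (i + walk (ω.2 i) t) := by
  have h1 : Measurable fun ω : Sample d => walk (ω.2 i) t :=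
    (measurable_walk t).comp ((measurable_pi_apply i).comp measurable_snd)
  exact (measurable_of_countable fun v : Site d => φ (i + v)).comp h1

theorem meet_integrable_field {Λ : Finset (Site d)} {n : ℕ} {A : Sample d → Finset (Site d)}
    (hA : MeetVersion d Λ n A) (φ : Site d → ℝ) (C : ℝ) (hC : ∀ x, |φ x| ≤ C) :
    Integrable (fun ω : Sample d => field ω.1 ω.2 Λ n φ) (law d (1 / 2)) := by
  have := prob_law d (meet_half_mem)
  have h1 : Integrable (fun ω : Sample d => ∑ i ∈ Λ, {ω | i ∈ A ω}.indicator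
        (fun ω : Sample d => φ (i + walk (ω.2 i) n)) ω) (law d (1 / 2)) := by
    apply integrable_finsetSum
    intro i _
    refine Integrable.indicator ?_ (hA.meas i)
    refine Integrable.of_bound (meet_meas_term φ i n).aestronglyMeasurable C ?_
    filter_upwards with ω
    rw [Real.norm_eq_abs]
    exact hC _
  refine h1.congr ?_
  filter_upwards [hA.ae] with ω hω
  exact (meet_field_eq hA φ hω).symm

theorem meet_integrable_field_sq {Λ : Finset (Site d)} {n : ℕ} {A : Sample d → Finset (Site d)}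
    (hA : MeetVersion d Λ n A) (φ : Site d → ℝ) (C : ℝ) (hC : ∀ x, |φ x| ≤ C) :
    Integrable (fun ω : Sample d => field ω.1 ω.2 Λ n φ ^ 2) (law d (1 / 2)) := by
  have := prob_law d (meet_half_mem)
  have h0 := meet_integrable_field hA φ C hC
  refine Integrable.of_bound (h0.aestronglyMeasurable.pow 2) ((Λ.card * C) ^ 2) ?_
  filter_upwards [hA.ae] with ω hω
  rw [Real.norm_eq_abs, abs_pow, sq_le_sq, abs_abs]
  refine le_trans ?_ (le_abs_self _)
  rw [field, hω]
  refine (Finset.abs_sum_le_sum_abs _ _).trans ?_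
  have hC0 : 0 ≤ C := (abs_nonneg _).trans (hC 0)
  calc ∑ i ∈ A ω, |φ (pos ω.2 n i)| ≤ ∑ _i ∈ A ω, C := Finset.sum_le_sum fun i _ => hC _
    _ = (A ω).card * C := by rw [Finset.sum_const, nsmul_eq_mul]
    _ ≤ Λ.card * C := by
      apply mul_le_mul_of_nonneg_right _ hC0
      exact_mod_cast Finset.card_le_card (hA.sub ω)

theorem meet_ofReal_integral {Λ : Finset (Site d)} {n : ℕ} {A : Sample d → Finset (Site d)}
    (hA : MeetVersion d Λ n A) {φ : Site d → ℝ} (hφ : ∀ x, 0 ≤ φ x) (C : ℝ)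
    (hC : ∀ x, |φ x| ≤ C) :
    ENNReal.ofReal (∫ ω, field ω.1 ω.2 Λ n φ ∂(law d (1 / 2))) =
      ∑ i ∈ Λ, ∫⁻ ω in {ω | i ∈ A ω}, ENNReal.ofReal (φ (i + walk (ω.2 i) n))
        ∂(law d (1 / 2)) := by
  have h0 := meet_integrable_field hA φ C hC
  rw [ofReal_integral_eq_lintegral_ofReal h0
    (Filter.Eventually.of_forall fun ω => Finset.sum_nonneg fun i _ => hφ _)]
  have e : ∫⁻ ω, ENNReal.ofReal (field ω.1 ω.2 Λ n φ) ∂(law d (1 / 2)) =
      ∫⁻ ω, ∑ i ∈ Λ, {ω | i ∈ A ω}.indicator
        (fun ω : Sample d => ENNReal.ofReal (φ (i + walk (ω.2 i) n))) ω ∂(law d (1 / 2)) := by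
    apply lintegral_congr_ae
    filter_upwards [hA.ae] with ω hω
    exact meet_ofReal_field hA hφ hω
  rw [e, lintegral_finsetSum]
  · apply Finset.sum_congr rfl
    intro i _
    rw [lintegral_indicator (hA.meas i)]
  · intro i _
    exact (meet_meas_term φ i n).ennreal_ofReal.indicator (hA.meas i)

end meet_version

section meet_steps

variable {d : ℕ} [NeZero d]

theorem meet_meas_cat {s : ℝ} (hs : 0 ≤ s) :
    Measurable fun z : Noise d × Noise d => cat s z.1 z.2 := (measurePreserving_cat d hs).measurable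

/-- cut for one particle -/
theorem meet_one {Λ : Finset (Site d)} {s : ℕ} {A : Sample d → Finset (Site d)}
    (hA : MeetVersion d Λ s A) (i : Site d) (h k : Noise d → ENNReal)
    (hh : Measurable h)
    (hk : ∀ w, Good w → k w = ∫⁻ v, h (cat s w v) ∂(noiseLaw d)) :
    ∫⁻ ω in {ω | i ∈ A ω}, h (ω.2 i) ∂(law d (1 / 2)) =
      ∫⁻ ω in {ω | i ∈ A ω}, k (ω.2 i) ∂(law d (1 / 2)) := by
  have := prob_noiseLaw d
  have := prob_noises d
  have := prob_law d (meet_half_mem)
  have hs : (0 : ℝ) ≤ (s : ℝ) := Nat.cast_nonneg s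
  have h1 := meet_cut d hs {ω | i ∈ A ω} (hA.meas i)
    (by
      filter_upwards [hA.inv] with z hz
      change i ∈ A (z.1.1, catAll s z.1.2 z.2) ↔ i ∈ A z.1
      rw [hz])
    (fun w => h (w i)) (hh.comp (measurable_pi_apply i))
  rw [h1]
  apply lintegral_congr_ae
  apply ae_restrict_of_ae
  filter_upwards [meet_ae_law d (meet_ae_good_noises d)] with ω hω
  rw [hk _ (hω i)]
  have h2 := (measurePreserving_eval_infinitePi (fun _ : Site d => noiseLaw d) i).lintegral_comp
    (f := fun v : Noise d => h (cat s (ω.2 i) v))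
    (hh.comp ((meet_meas_cat hs).comp (measurable_const.prodMk measurable_id)))
  exact h2

/-- cut for two particles -/
theorem meet_two {Λ : Finset (Site d)} {s : ℕ} {A : Sample d → Finset (Site d)}
    (hA : MeetVersion d Λ s A) {i j : Site d} (hij : i ≠ j) (h k : Noise d × Noise d → ENNReal)
    (hh : Measurable h)
    (hk : ∀ w₁ w₂, Good w₁ → Good w₂ → k (w₁, w₂) =
      ∫⁻ z, h (cat s w₁ z.1, cat s w₂ z.2) ∂((noiseLaw d).prod (noiseLaw d))) :
    ∫⁻ ω in {ω | i ∈ A ω} ∩ {ω | j ∈ A ω}, h (ω.2 i, ω.2 j) ∂(law d (1 / 2)) =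
      ∫⁻ ω in {ω | i ∈ A ω} ∩ {ω | j ∈ A ω}, k (ω.2 i, ω.2 j) ∂(law d (1 / 2)) := by
  have := prob_noiseLaw d
  have := prob_noises d
  have := prob_law d (meet_half_mem)
  have hs : (0 : ℝ) ≤ (s : ℝ) := Nat.cast_nonneg s
  have h1 := meet_cut d hs ({ω | i ∈ A ω} ∩ {ω | j ∈ A ω}) ((hA.meas i).inter (hA.meas j))
    (by
      filter_upwards [hA.inv] with z hz
      change (i ∈ A (z.1.1, catAll s z.1.2 z.2) ∧ j ∈ A (z.1.1, catAll s z.1.2 z.2)) ↔
        (i ∈ A z.1 ∧ j ∈ A z.1)
      rw [hz])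
    (fun w => h (w i, w j)) (hh.comp ((measurable_pi_apply i).prodMk (measurable_pi_apply j)))
  rw [h1]
  apply lintegral_congr_ae
  apply ae_restrict_of_ae
  filter_upwards [meet_ae_law d (meet_ae_good_noises d)] with ω hω
  rw [hk _ _ (hω i) (hω j)]
  have m1 : Measurable fun z : Noise d × Noise d => cat s (ω.2 i) z.1 :=
    (meet_meas_cat hs).comp (measurable_const.prodMk measurable_fst)
  have m2 : Measurable fun z : Noise d × Noise d => cat s (ω.2 j) z.2 :=
    (meet_meas_cat hs).comp (measurable_const.prodMk measurable_snd)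
  exact (meet_mp_pair d hij).lintegral_comp
    (f := fun z : Noise d × Noise d => h (cat s (ω.2 i) z.1, cat s (ω.2 j) z.2))
    (hh.comp (m1.prodMk m2))

/-- the density of the sites of the particles at time `n + 1` which are alive at time `n` -/
theorem meet_step1 {Λ : Finset (Site d)} {n : ℕ} {A : Sample d → Finset (Site d)}
    (hA : MeetVersion d Λ n A) (i : Site d) :
    ∫⁻ ω in {ω | i ∈ A ω}, (if i + walk (ω.2 i) ((n : ℝ) + 1) = 0 then 1 else 0)
        ∂(law d (1 / 2)) =
      ∫⁻ ω in {ω | i ∈ A ω}, ENNReal.ofReal (PP 1 (ind 0) (i + walk (ω.2 i) n))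
        ∂(law d (1 / 2)) := by
  classical
  have := prob_noiseLaw d
  have hn : (0 : ℝ) ≤ (n : ℝ) := Nat.cast_nonneg n
  refine meet_one hA i (fun w => if i + walk w ((n : ℝ) + 1) = 0 then 1 else 0)
    (fun w => ENNReal.ofReal (PP 1 (ind 0) (i + walk w n))) ?_ ?_
  · exact (measurable_of_countable fun v : Site d => if i + v = 0 then (1 : ENNReal) else 0).comp
      (measurable_walk _)
  · intro w hw
    rw [PP_ind, ker, ofReal_measureReal (measure_ne_top _ _)]
    have hm : MeasurableSet {v : Noise d | walk v 1 = 0 - (i + walk w n)} :=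
      (measurable_walk 1) (MeasurableSet.of_discrete (s := {0 - (i + walk w n)}))
    rw [← lintegral_indicator_one hm]
    apply lintegral_congr_ae
    filter_upwards [ae_good d] with v hv
    rw [walk_cat_add hw hv hn zero_le_one, Set.indicator_apply]
    have e : (v ∈ {v : Noise d | walk v 1 = 0 - (i + walk w n)}) ↔
        (i + (walk w n + walk v 1) = 0) := by
      change walk v 1 = 0 - (i + walk w n) ↔ _
      rw [← add_assoc, eq_sub_iff_add_eq, add_comm (walk v 1)]
    simp only [e]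
    rfl

/-- the event in the first cut -/
def meet_S (n : ℕ) (i j : Site d) : Set (Noise d × Noise d) :=
  {z | i + walk z.1 ((n : ℝ) + 1) = 0 ∧
    norm1 ((i + walk z.1 n) - (j + walk z.2 n)) ≤
      (jumps z.1 ((n : ℝ) + 1) - jumps z.1 n) + (jumps z.2 ((n : ℝ) + 1) - jumps z.2 n)}

omit [NeZero d] in
theorem meet_S_meas (n : ℕ) (i j : Site d) : MeasurableSet (meet_S n i j) := by
  have w1 : Measurable fun z : Noise d × Noise d => walk z.1 ((n : ℝ) + 1) :=
    (measurable_walk _).comp measurable_fst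
  have w2 : Measurable fun z : Noise d × Noise d => walk z.1 (n : ℝ) :=
    (measurable_walk _).comp measurable_fst
  have w3 : Measurable fun z : Noise d × Noise d => walk z.2 (n : ℝ) :=
    (measurable_walk _).comp measurable_snd
  have j1 : Measurable fun z : Noise d × Noise d => jumps z.1 ((n : ℝ) + 1) :=
    (measurable_jumps _).comp measurable_fst
  have j2 : Measurable fun z : Noise d × Noise d => jumps z.1 (n : ℝ) :=
    (measurable_jumps _).comp measurable_fst
  have j3 : Measurable fun z : Noise d × Noise d => jumps z.2 ((n : ℝ) + 1) :=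
    (measurable_jumps _).comp measurable_snd
  have j4 : Measurable fun z : Noise d × Noise d => jumps z.2 (n : ℝ) :=
    (measurable_jumps _).comp measurable_snd
  have h1 : MeasurableSet {z : Noise d × Noise d | i + walk z.1 ((n : ℝ) + 1) = 0} :=
    w1 (MeasurableSet.of_discrete (s := {v : Site d | i + v = 0}))
  have h2 : Measurable fun z : Noise d × Noise d =>
      norm1 ((i + walk z.1 n) - (j + walk z.2 n)) :=
    (measurable_of_countable fun p : Site d × Site d => norm1 ((i + p.1) - (j + p.2))).comp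
      (w2.prodMk w3)
  have h3 : Measurable fun z : Noise d × Noise d =>
      (jumps z.1 ((n : ℝ) + 1) - jumps z.1 n) + (jumps z.2 ((n : ℝ) + 1) - jumps z.2 n) :=
    (measurable_of_countable fun p : (ℕ × ℕ) × (ℕ × ℕ) => (p.1.1 - p.1.2) + (p.2.1 - p.2.2)).comp
      ((j1.prodMk j2).prodMk (j3.prodMk j4))
  exact h1.inter (measurableSet_le h2 h3)

theorem meet_step2 {Λ : Finset (Site d)} {n : ℕ} {A : Sample d → Finset (Site d)}
    (hA : MeetVersion d Λ n A) {i j : Site d} (hij : i ≠ j) :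
    ∫⁻ ω in {ω | i ∈ A ω} ∩ {ω | j ∈ A ω}, (meet_S n i j).indicator 1 (ω.2 i, ω.2 j)
        ∂(law d (1 / 2)) =
      ∫⁻ ω in {ω | i ∈ A ω} ∩ {ω | j ∈ A ω},
        meet_kap d (i + walk (ω.2 i) n) (j + walk (ω.2 j) n) ∂(law d (1 / 2)) := by
  classical
  have := prob_noiseLaw d
  have hn : (0 : ℝ) ≤ (n : ℝ) := Nat.cast_nonneg n
  refine meet_two hA hij ((meet_S n i j).indicator 1)
    (fun z => meet_kap d (i + walk z.1 n) (j + walk z.2 n)) ?_ ?_
  · exact measurable_one.indicator (meet_S_meas n i j)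
  · intro w₁ w₂ hw₁ hw₂
    rw [meet_kap, ← lintegral_indicator_one (meet_measurableSet d _ _)]
    apply lintegral_congr_ae
    have g1 := (Measure.quasiMeasurePreserving_fst (μ := noiseLaw d) (ν := noiseLaw d)).ae
      (ae_good d)
    have g2 := (Measure.quasiMeasurePreserving_snd (μ := noiseLaw d) (ν := noiseLaw d)).ae
      (ae_good d)
    filter_upwards [g1, g2] with z z1 z2
    rw [Set.indicator_apply, Set.indicator_apply]
    have e : ((cat n w₁ z.1, cat n w₂ z.2) ∈ meet_S n i j) ↔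
        (z ∈ {z : Noise d × Noise d | i + walk w₁ n + walk z.1 1 = 0 ∧
          norm1 (i + walk w₁ n - (j + walk w₂ n)) ≤ jumps z.1 1 + jumps z.2 1}) := by
      change (i + walk (cat n w₁ z.1) ((n : ℝ) + 1) = 0 ∧
        norm1 ((i + walk (cat n w₁ z.1) n) - (j + walk (cat n w₂ z.2) n)) ≤
        (jumps (cat n w₁ z.1) ((n : ℝ) + 1) - jumps (cat n w₁ z.1) n) +
        (jumps (cat n w₂ z.2) ((n : ℝ) + 1) - jumps (cat n w₂ z.2) n)) ↔
        (i + walk w₁ n + walk z.1 1 = 0 ∧
          norm1 (i + walk w₁ n - (j + walk w₂ n)) ≤ jumps z.1 1 + jumps z.2 1)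
      rw [walk_cat_add hw₁ z1 hn zero_le_one, jumps_cat_add hw₁ z1 hn zero_le_one,
        jumps_cat_add hw₂ z2 hn zero_le_one, walk_cat_le hw₁ z1 hn le_rfl,
        walk_cat_le hw₂ z2 hn le_rfl, jumps_cat_le hw₁ z1 hn le_rfl,
        jumps_cat_le hw₂ z2 hn le_rfl, add_assoc, Nat.add_sub_cancel_left,
        Nat.add_sub_cancel_left]
    simp only [e]
    rfl

omit [NeZero d] in
theorem meet_tsum_single (f : Site d × Site d → ENNReal) (a b : Site d) :
    f (a, b) = ∑' p : Site d × Site d,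
      f p * ({v : Site d | v = p.1}.indicator 1 a * {v : Site d | v = p.2}.indicator 1 b) := by
  rw [tsum_eq_single (a, b)]
  · simp
  · rintro ⟨x, y⟩ hxy
    by_cases hx : a = x
    · by_cases hy : b = y
      · exact absurd (by rw [hx, hy]) hxy
      · have : b ∉ {v : Site d | v = y} := hy
        rw [Set.indicator_of_notMem this]; simp
    · have : a ∉ {v : Site d | v = x} := hx
      rw [Set.indicator_of_notMem this]; simp

theorem meet_step3 {Λ : Finset (Site d)} {m n : ℕ} (hmn : m ≤ n)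
    {A : Sample d → Finset (Site d)} (hA : MeetVersion d Λ m A) {i j : Site d} (hij : i ≠ j) :
    ∫⁻ ω in {ω | i ∈ A ω} ∩ {ω | j ∈ A ω},
        meet_kap d (i + walk (ω.2 i) n) (j + walk (ω.2 j) n) ∂(law d (1 / 2)) =
      ∫⁻ ω in {ω | i ∈ A ω} ∩ {ω | j ∈ A ω},
        (∑' p : Site d × Site d, meet_kap d p.1 p.2 *
          (ENNReal.ofReal (ker d ((n - m : ℕ) : ℝ) (p.1 - (i + walk (ω.2 i) m))) *
          ENNReal.ofReal (ker d ((n - m : ℕ) : ℝ) (p.2 - (j + walk (ω.2 j) m)))))
        ∂(law d (1 / 2)) := by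
  classical
  have := prob_noiseLaw d
  have hm : (0 : ℝ) ≤ (m : ℝ) := Nat.cast_nonneg m
  have hr : (0 : ℝ) ≤ ((n - m : ℕ) : ℝ) := Nat.cast_nonneg _
  have hnm : (n : ℝ) = (m : ℝ) + ((n - m : ℕ) : ℝ) := by
    rw [Nat.cast_sub hmn]; ring
  refine meet_two hA hij (fun z => meet_kap d (i + walk z.1 n) (j + walk z.2 n))
    (fun z => ∑' p : Site d × Site d, meet_kap d p.1 p.2 *
          (ENNReal.ofReal (ker d ((n - m : ℕ) : ℝ) (p.1 - (i + walk z.1 m))) *
          ENNReal.ofReal (ker d ((n - m : ℕ) : ℝ) (p.2 - (j + walk z.2 m))))) ?_ ?_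
  · exact (measurable_of_countable fun p : Site d × Site d =>
      meet_kap d (i + p.1) (j + p.2)).comp
      (((measurable_walk _).comp measurable_fst).prodMk ((measurable_walk _).comp measurable_snd))
  · intro w₁ w₂ hw₁ hw₂
    have g1 := (Measure.quasiMeasurePreserving_fst (μ := noiseLaw d) (ν := noiseLaw d)).ae
      (ae_good d)
    have g2 := (Measure.quasiMeasurePreserving_snd (μ := noiseLaw d) (ν := noiseLaw d)).ae
      (ae_good d)
    set r : ℝ := ((n - m : ℕ) : ℝ) with hrdef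
    set a := i + walk w₁ m with ha
    set b := j + walk w₂ m with hb
    have hma : ∀ x : Site d, MeasurableSet {v : Noise d | walk v r = x} := fun x =>
      (measurable_walk r) (MeasurableSet.of_discrete (s := {x}))
    have e1 : ∫⁻ z, meet_kap d (i + walk (cat m w₁ z.1) n) (j + walk (cat m w₂ z.2) n)
        ∂((noiseLaw d).prod (noiseLaw d)) =
        ∫⁻ z, ∑' p : Site d × Site d, meet_kap d p.1 p.2 *
          ({v : Noise d | walk v r = p.1 - a}.indicator 1 z.1 *
            {v : Noise d | walk v r = p.2 - b}.indicator 1 z.2)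
        ∂((noiseLaw d).prod (noiseLaw d)) := by
      apply lintegral_congr_ae
      filter_upwards [g1, g2] with z z1 z2
      rw [hnm, walk_cat_add hw₁ z1 hm hr, walk_cat_add hw₂ z2 hm hr, ← add_assoc, ← add_assoc,
        ← ha, ← hb]
      rw [meet_tsum_single (fun p => meet_kap d p.1 p.2) (a + walk z.1 r) (b + walk z.2 r)]
      apply tsum_congr
      intro p
      congr 2
      · rw [Set.indicator_apply, Set.indicator_apply]
        have e : (a + walk z.1 r ∈ {v : Site d | v = p.1}) ↔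
            (z.1 ∈ {v : Noise d | walk v r = p.1 - a}) := by
          change a + walk z.1 r = p.1 ↔ walk z.1 r = p.1 - a
          rw [eq_sub_iff_add_eq, add_comm]
        simp only [e]
        rfl
      · rw [Set.indicator_apply, Set.indicator_apply]
        have e : (b + walk z.2 r ∈ {v : Site d | v = p.2}) ↔
            (z.2 ∈ {v : Noise d | walk v r = p.2 - b}) := by
          change b + walk z.2 r = p.2 ↔ walk z.2 r = p.2 - b
          rw [eq_sub_iff_add_eq, add_comm]
        simp only [e]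
        rfl
    change _ = ∫⁻ z, meet_kap d (i + walk (cat m w₁ z.1) n) (j + walk (cat m w₂ z.2) n)
        ∂((noiseLaw d).prod (noiseLaw d))
    rw [e1, lintegral_tsum]
    · apply tsum_congr
      intro p
      have k1 : Measurable fun v : Noise d => {v : Noise d | walk v r = p.1 - a}.indicator
          (1 : Noise d → ENNReal) v := measurable_one.indicator (hma _)
      have k2 : Measurable fun v : Noise d => {v : Noise d | walk v r = p.2 - b}.indicator
          (1 : Noise d → ENNReal) v := measurable_one.indicator (hma _)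
      have k3 : Measurable fun z : Noise d × Noise d =>
          {v : Noise d | walk v r = p.1 - a}.indicator (1 : Noise d → ENNReal) z.1 *
          {v : Noise d | walk v r = p.2 - b}.indicator (1 : Noise d → ENNReal) z.2 :=
        (k1.comp measurable_fst).mul (k2.comp measurable_snd)
      rw [lintegral_const_mul _ k3,
        lintegral_prod_mul k1.aemeasurable k2.aemeasurable, lintegral_indicator_one (hma _),
        lintegral_indicator_one (hma _)]
      change _ * (ENNReal.ofReal (ker d r (p.1 - a)) * ENNReal.ofReal (ker d r (p.2 - b))) = _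
      rw [ker, ker, ofReal_measureReal (measure_ne_top _ _),
        ofReal_measureReal (measure_ne_top _ _)]
    · intro p
      have k1 : Measurable fun v : Noise d => {v : Noise d | walk v r = p.1 - a}.indicator
          (1 : Noise d → ENNReal) v := measurable_one.indicator (hma _)
      have k2 : Measurable fun v : Noise d => {v : Noise d | walk v r = p.2 - b}.indicator
          (1 : Noise d → ENNReal) v := measurable_one.indicator (hma _)
      exact (((k1.comp measurable_fst).mul (k2.comp measurable_snd)).const_mul _).aemeasurable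

end meet_steps

section meet_combine

variable {d : ℕ} [NeZero d]

/-- the field of kernels -/
noncomputable def meet_F (Λ : Finset (Site d)) (A : Sample d → Finset (Site d)) (m r : ℕ)
    (x : Site d) (ω : Sample d) : ENNReal :=
  ∑ i ∈ Λ, {ω | i ∈ A ω}.indicator
    (fun ω : Sample d => ENNReal.ofReal (ker d (r : ℝ) (x - (i + walk (ω.2 i) m)))) ω

omit [NeZero d] in
theorem meet_F_meas {Λ : Finset (Site d)} {m : ℕ} {A : Sample d → Finset (Site d)}
    (hA : MeetVersion d Λ m A) (r : ℕ) (x : Site d) : Measurable (meet_F Λ A m r x) := by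
  unfold meet_F
  apply Finset.measurable_fun_sum
  intro i _
  exact (meet_meas_term (fun y => ker d (r : ℝ) (x - y)) i m).ennreal_ofReal.indicator (hA.meas i)

omit [NeZero d] in
/-- pointwise comparison -/
theorem meet_pointwise (Λ : Finset (Site d)) (n : ℕ) (ω : Sample d) (hω : ∀ i, Good (ω.2 i))
    {i : Site d} (hi : i ∈ alive ω.1 ω.2 Λ n) (hi' : i ∉ alive ω.1 ω.2 Λ ((n + 1 : ℕ) : ℝ))
    (hpos : i + walk (ω.2 i) ((n : ℝ) + 1) = 0) :
    ∃ j ∈ alive ω.1 ω.2 Λ n, i ≠ j ∧ (ω.2 i, ω.2 j) ∈ meet_S n i j := by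
  have hn : (0 : ℝ) ≤ (n : ℝ) := Nat.cast_nonneg n
  obtain ⟨j, hj, hji, r, hr1, hr2, hr3⟩ := alive_removed ω.1 ω.2 Λ (fun i _ => hω i) hn
    (by push_cast; linarith) hi hi'
  refine ⟨j, hj, hji.symm, hpos, ?_⟩
  have hr2' : r ≤ (n : ℝ) + 1 := by push_cast at hr2; exact hr2
  have e : (i + walk (ω.2 i) n) - (j + walk (ω.2 j) n) =
      -(walk (ω.2 i) r - walk (ω.2 i) n) + (walk (ω.2 j) r - walk (ω.2 j) n) := by
    have h3 : i + walk (ω.2 i) r = j + walk (ω.2 j) r := hr3
    have h4 : j + walk (ω.2 j) r - (i + walk (ω.2 i) r) = 0 := by rw [h3, sub_self]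
    calc (i + walk (ω.2 i) n) - (j + walk (ω.2 j) n)
        = -(walk (ω.2 i) r - walk (ω.2 i) n) + (walk (ω.2 j) r - walk (ω.2 j) n) -
          (j + walk (ω.2 j) r - (i + walk (ω.2 i) r)) := by abel
      _ = _ := by rw [h4, sub_zero]
  change norm1 ((i + walk (ω.2 i) n) - (j + walk (ω.2 j) n)) ≤ _
  rw [e]
  refine (meet_norm1_add _ _).trans ?_
  rw [meet_norm1_neg]
  exact Nat.add_le_add (meet_walk_dist (hω i) hn hr1.le hr2')
    (meet_walk_dist (hω j) hn hr1.le hr2')

theorem meet_PP_nonneg (t : ℝ) (x y : Site d) : 0 ≤ PP t (ind x) y := by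
  rw [PP_ind]; exact measureReal_nonneg

theorem meet_PP_abs (t : ℝ) (x y : Site d) : |PP t (ind x) y| ≤ 1 := by
  have := prob_noiseLaw d
  rw [abs_of_nonneg (meet_PP_nonneg t x y), PP_ind, ker]
  exact measureReal_le_one

omit [NeZero d] in
theorem meet_ind_nonneg (x y : Site d) : 0 ≤ ind x y := by
  unfold ind
  split_ifs <;> norm_num

omit [NeZero d] in
theorem meet_ind_abs (x y : Site d) : |ind x y| ≤ 1 := by
  unfold ind
  split_ifs <;> norm_num

theorem meet_main_ineq {Λ : Finset (Site d)} {m n : ℕ} (hmn : m ≤ n)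
    {A : Sample d → Finset (Site d)} (hA : MeetVersion d Λ m A) :
    ENNReal.ofReal (∫ ω, field ω.1 ω.2 Λ n (PP 1 (ind 0)) ∂(law d (1 / 2))) ≤
      ENNReal.ofReal (∫ ω, field ω.1 ω.2 Λ ((n + 1 : ℕ) : ℝ) (ind 0) ∂(law d (1 / 2))) +
      ∑' p : Site d × Site d, meet_kap d p.1 p.2 *
        ∫⁻ ω, meet_F Λ A m (n - m) p.1 ω * meet_F Λ A m (n - m) p.2 ω ∂(law d (1 / 2)) := by
  classical
  have := prob_noiseLaw d
  have := prob_law d (meet_half_mem)
  obtain ⟨B, hB⟩ := meet_exists_version d Λ n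
  obtain ⟨B', hB'⟩ := meet_exists_version d Λ (n + 1)
  -- measurability
  have hq : ∀ i : Site d, Measurable fun ω : Sample d =>
      (if i + walk (ω.2 i) ((n : ℝ) + 1) = 0 then (1 : ENNReal) else 0) := by
    intro i
    exact (measurable_of_countable fun v : Site d => if i + v = 0 then (1 : ENNReal) else 0).comp
      ((measurable_walk _).comp ((measurable_pi_apply i).comp measurable_snd))
  have hSm : ∀ i j : Site d, Measurable fun ω : Sample d =>
      (meet_S n i j).indicator (1 : Noise d × Noise d → ENNReal) (ω.2 i, ω.2 j) := by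
    intro i j
    exact (measurable_one.indicator (meet_S_meas n i j)).comp
      (((measurable_pi_apply i).comp measurable_snd).prodMk
        ((measurable_pi_apply j).comp measurable_snd))
  -- the left side
  have eL : ENNReal.ofReal (∫ ω, field ω.1 ω.2 Λ n (PP 1 (ind 0)) ∂(law d (1 / 2))) =
      ∫⁻ ω, ∑ i ∈ Λ, {ω | i ∈ B ω}.indicator
        (fun ω : Sample d => if i + walk (ω.2 i) ((n : ℝ) + 1) = 0 then (1 : ENNReal) else 0) ω
        ∂(law d (1 / 2)) := by
    rw [meet_ofReal_integral hB (meet_PP_nonneg 1 0) 1 (meet_PP_abs 1 0),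
      lintegral_finsetSum _ fun i _ => (hq i).indicator (hB.meas i)]
    apply Finset.sum_congr rfl
    intro i _
    rw [lintegral_indicator (hB.meas i), ← meet_step1 hB i]
  have eR : ENNReal.ofReal (∫ ω, field ω.1 ω.2 Λ ((n + 1 : ℕ) : ℝ) (ind 0) ∂(law d (1 / 2))) =
      ∫⁻ ω, ∑ i ∈ Λ, {ω | i ∈ B' ω}.indicator
        (fun ω : Sample d => if i + walk (ω.2 i) ((n : ℝ) + 1) = 0 then (1 : ENNReal) else 0) ω
        ∂(law d (1 / 2)) := by
    rw [meet_ofReal_integral hB' (meet_ind_nonneg 0) 1 (meet_ind_abs 0),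
      lintegral_finsetSum _ fun i _ => (hq i).indicator (hB'.meas i)]
    apply Finset.sum_congr rfl
    intro i _
    rw [lintegral_indicator (hB'.meas i)]
    apply lintegral_congr
    intro ω
    unfold ind
    push_cast
    split_ifs <;> simp
  -- comparison
  have hcmp : ∫⁻ ω, ∑ i ∈ Λ, {ω | i ∈ B ω}.indicator
        (fun ω : Sample d => if i + walk (ω.2 i) ((n : ℝ) + 1) = 0 then (1 : ENNReal) else 0) ω
        ∂(law d (1 / 2)) ≤
      ∫⁻ ω, (∑ i ∈ Λ, {ω | i ∈ B' ω}.indicator
        (fun ω : Sample d => if i + walk (ω.2 i) ((n : ℝ) + 1) = 0 then (1 : ENNReal) else 0) ω +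
        ∑ i ∈ Λ, ∑ j ∈ Λ.erase i, ({ω | i ∈ B ω} ∩ {ω | j ∈ B ω}).indicator
          (fun ω : Sample d => (meet_S n i j).indicator 1 (ω.2 i, ω.2 j)) ω)
        ∂(law d (1 / 2)) := by
    apply lintegral_mono_ae
    filter_upwards [hB.ae, hB'.ae, meet_ae_law d (meet_ae_good_noises d)] with ω h1 h2 h3
    rw [← Finset.sum_add_distrib]
    apply Finset.sum_le_sum
    intro i hi
    by_cases hiB : i ∈ B ω
    · by_cases hp : i + walk (ω.2 i) ((n : ℝ) + 1) = 0
      · by_cases hiB' : i ∈ B' ω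
        · rw [Set.indicator_of_mem (show ω ∈ {ω | i ∈ B ω} from hiB),
            Set.indicator_of_mem (show ω ∈ {ω | i ∈ B' ω} from hiB')]
          exact le_self_add
        · rw [← h1] at hiB
          rw [← h2] at hiB'
          obtain ⟨j, hj, hij, hS⟩ := meet_pointwise Λ n ω h3 hiB hiB' hp
          rw [h1] at hiB hj
          have hjΛ : j ∈ Λ.erase i := Finset.mem_erase.2 ⟨hij.symm, hB.sub ω hj⟩
          rw [Set.indicator_of_mem (show ω ∈ {ω | i ∈ B ω} from hiB), if_pos hp]
          refine le_trans ?_ le_add_self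
          refine le_trans ?_ (Finset.single_le_sum (f := fun j =>
            ({ω | i ∈ B ω} ∩ {ω | j ∈ B ω}).indicator
            (fun ω : Sample d => (meet_S n i j).indicator (1 : Noise d × Noise d → ENNReal)
              (ω.2 i, ω.2 j)) ω) (fun _ _ => zero_le) hjΛ)
          have hmem : ω ∈ ({ω | i ∈ B ω} ∩ {ω | j ∈ B ω} : Set (Sample d)) := ⟨hiB, hj⟩
          rw [Set.indicator_of_mem hmem, Set.indicator_of_mem hS]
          exact le_rfl
      · have h0 : {ω | i ∈ B ω}.indicator (fun ω : Sample d =>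
            if i + walk (ω.2 i) ((n : ℝ) + 1) = 0 then (1 : ENNReal) else 0) ω = 0 := by
          rw [Set.indicator_apply]
          simp [hp]
        rw [h0]
        exact zero_le
    · rw [Set.indicator_of_notMem (show ω ∉ {ω | i ∈ B ω} from hiB)]
      exact zero_le
  rw [eL, eR]
  refine hcmp.trans ?_
  rw [lintegral_add_left (Finset.measurable_fun_sum _ fun i _ => (hq i).indicator (hB'.meas i))]
  gcongr
  -- the pair sum
  rw [lintegral_finsetSum _ fun i _ => Finset.measurable_fun_sum _ fun j _ =>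
    (hSm i j).indicator ((hB.meas i).inter (hB.meas j))]
  have hstep : ∀ i ∈ Λ, ∫⁻ ω, ∑ j ∈ Λ.erase i, ({ω | i ∈ B ω} ∩ {ω | j ∈ B ω}).indicator
          (fun ω : Sample d => (meet_S n i j).indicator (1 : Noise d × Noise d → ENNReal)
            (ω.2 i, ω.2 j)) ω ∂(law d (1 / 2)) ≤
      ∑ j ∈ Λ, ∫⁻ ω in {ω | i ∈ A ω} ∩ {ω | j ∈ A ω},
        (∑' p : Site d × Site d, meet_kap d p.1 p.2 *
          (ENNReal.ofReal (ker d ((n - m : ℕ) : ℝ) (p.1 - (i + walk (ω.2 i) m))) *
          ENNReal.ofReal (ker d ((n - m : ℕ) : ℝ) (p.2 - (j + walk (ω.2 j) m)))))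
        ∂(law d (1 / 2)) := by
    intro i _
    rw [lintegral_finsetSum _ fun j _ => (hSm i j).indicator ((hB.meas i).inter (hB.meas j))]
    refine le_trans ?_ (Finset.sum_le_sum_of_subset (Finset.erase_subset i Λ))
    apply Finset.sum_le_sum
    intro j hj
    have hij : i ≠ j := (Finset.ne_of_mem_erase hj).symm
    rw [lintegral_indicator ((hB.meas i).inter (hB.meas j)), meet_step2 hB hij,
      ← meet_step3 hmn hA hij]
    apply lintegral_mono_set'
    filter_upwards [hB.ae, hA.ae, meet_ae_law d (meet_ae_good_noises d)] with ω h1 h2 h3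
    intro hω
    have hsub := alive_mono_time ω.1 ω.2 Λ (fun i _ => h3 i) (s := (m : ℝ)) (t := (n : ℝ))
      (Nat.cast_nonneg m) (by exact_mod_cast hmn)
    rw [h1, h2] at hsub
    exact ⟨hsub hω.1, hsub hω.2⟩
  refine (Finset.sum_le_sum hstep).trans ?_
  -- exchange of sums
  have hterm : ∀ (p : Site d × Site d) (i j : Site d), Measurable fun ω : Sample d =>
      meet_kap d p.1 p.2 *
          (ENNReal.ofReal (ker d ((n - m : ℕ) : ℝ) (p.1 - (i + walk (ω.2 i) m))) *
          ENNReal.ofReal (ker d ((n - m : ℕ) : ℝ) (p.2 - (j + walk (ω.2 j) m)))) := by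
    intro p i j
    exact ((meet_meas_term (fun y => ker d ((n - m : ℕ) : ℝ) (p.1 - y)) i m).ennreal_ofReal.mul
      (meet_meas_term (fun y => ker d ((n - m : ℕ) : ℝ) (p.2 - y)) j m).ennreal_ofReal).const_mul _
  have e5 : ∀ i j : Site d, ∫⁻ ω in {ω | i ∈ A ω} ∩ {ω | j ∈ A ω},
        (∑' p : Site d × Site d, meet_kap d p.1 p.2 *
          (ENNReal.ofReal (ker d ((n - m : ℕ) : ℝ) (p.1 - (i + walk (ω.2 i) m))) *
          ENNReal.ofReal (ker d ((n - m : ℕ) : ℝ) (p.2 - (j + walk (ω.2 j) m)))))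
        ∂(law d (1 / 2)) =
      ∑' p : Site d × Site d, meet_kap d p.1 p.2 * ∫⁻ ω, ({ω | i ∈ A ω}.indicator
        (fun ω : Sample d => ENNReal.ofReal (ker d ((n - m : ℕ) : ℝ) (p.1 - (i + walk (ω.2 i) m))))
          ω) * ({ω | j ∈ A ω}.indicator
        (fun ω : Sample d => ENNReal.ofReal (ker d ((n - m : ℕ) : ℝ) (p.2 - (j + walk (ω.2 j) m))))
          ω) ∂(law d (1 / 2)) := by
    intro i j
    rw [lintegral_tsum fun p => (hterm p i j).aemeasurable]
    apply tsum_congr
    intro p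
    have k1 := (meet_meas_term (fun y => ker d ((n - m : ℕ) : ℝ) (p.1 - y)) i m).ennreal_ofReal
    have k2 := (meet_meas_term (fun y => ker d ((n - m : ℕ) : ℝ) (p.2 - y)) j m).ennreal_ofReal
    have k3 : Measurable fun ω : Sample d =>
        (ENNReal.ofReal (ker d ((n - m : ℕ) : ℝ) (p.1 - (i + walk (ω.2 i) m))) *
          ENNReal.ofReal (ker d ((n - m : ℕ) : ℝ) (p.2 - (j + walk (ω.2 j) m)))) := k1.mul k2
    rw [lintegral_const_mul _ k3, ← lintegral_indicator ((hA.meas i).inter (hA.meas j))]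
    congr 1
    apply lintegral_congr
    intro ω
    rw [← Set.inter_indicator_mul]
  rw [Finset.sum_congr rfl fun i _ => Finset.sum_congr rfl fun j _ => e5 i j]
  have e6 : ∀ i ∈ Λ, ∑ j ∈ Λ, ∑' p : Site d × Site d, meet_kap d p.1 p.2 *
      ∫⁻ ω, ({ω | i ∈ A ω}.indicator
        (fun ω : Sample d => ENNReal.ofReal (ker d ((n - m : ℕ) : ℝ) (p.1 - (i + walk (ω.2 i) m))))
          ω) * ({ω | j ∈ A ω}.indicator
        (fun ω : Sample d => ENNReal.ofReal (ker d ((n - m : ℕ) : ℝ) (p.2 - (j + walk (ω.2 j) m))))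
          ω) ∂(law d (1 / 2)) =
      ∑' p : Site d × Site d, ∑ j ∈ Λ, meet_kap d p.1 p.2 *
      ∫⁻ ω, ({ω | i ∈ A ω}.indicator
        (fun ω : Sample d => ENNReal.ofReal (ker d ((n - m : ℕ) : ℝ) (p.1 - (i + walk (ω.2 i) m))))
          ω) * ({ω | j ∈ A ω}.indicator
        (fun ω : Sample d => ENNReal.ofReal (ker d ((n - m : ℕ) : ℝ) (p.2 - (j + walk (ω.2 j) m))))
          ω) ∂(law d (1 / 2)) := fun i _ => (Summable.tsum_finsetSum fun _ _ => ENNReal.summable).symm
  rw [Finset.sum_congr rfl e6, ← Summable.tsum_finsetSum fun _ _ => ENNReal.summable]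
  apply ENNReal.tsum_le_tsum
  intro p
  have e7 : ∀ ω : Sample d, meet_F Λ A m (n - m) p.1 ω * meet_F Λ A m (n - m) p.2 ω =
      ∑ i ∈ Λ, ∑ j ∈ Λ, ({ω | i ∈ A ω}.indicator
        (fun ω : Sample d => ENNReal.ofReal (ker d ((n - m : ℕ) : ℝ) (p.1 - (i + walk (ω.2 i) m))))
          ω) * ({ω | j ∈ A ω}.indicator
        (fun ω : Sample d => ENNReal.ofReal (ker d ((n - m : ℕ) : ℝ) (p.2 - (j + walk (ω.2 j) m))))
          ω) := by
    intro ω
    unfold meet_F
    rw [Finset.sum_mul_sum]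
  have m1 : ∀ i : Site d, Measurable ({ω | i ∈ A ω}.indicator
        (fun ω : Sample d => ENNReal.ofReal (ker d ((n - m : ℕ) : ℝ)
          (p.1 - (i + walk (ω.2 i) m))))) := fun i =>
    (meet_meas_term (fun y => ker d ((n - m : ℕ) : ℝ) (p.1 - y)) i m).ennreal_ofReal.indicator
      (hA.meas i)
  have m2 : ∀ i : Site d, Measurable ({ω | i ∈ A ω}.indicator
        (fun ω : Sample d => ENNReal.ofReal (ker d ((n - m : ℕ) : ℝ)
          (p.2 - (i + walk (ω.2 i) m))))) := fun i =>
    (meet_meas_term (fun y => ker d ((n - m : ℕ) : ℝ) (p.2 - y)) i m).ennreal_ofReal.indicator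
      (hA.meas i)
  have m12 : ∀ i j : Site d, Measurable fun ω : Sample d => ({ω | i ∈ A ω}.indicator
        (fun ω : Sample d => ENNReal.ofReal (ker d ((n - m : ℕ) : ℝ) (p.1 - (i + walk (ω.2 i) m))))
          ω) * ({ω | j ∈ A ω}.indicator
        (fun ω : Sample d => ENNReal.ofReal (ker d ((n - m : ℕ) : ℝ) (p.2 - (j + walk (ω.2 j) m))))
          ω) := fun i j => (m1 i).mul (m2 j)
  rw [lintegral_congr e7, lintegral_finsetSum _ fun i _ => Finset.measurable_fun_sum _ fun j _ =>
    m12 i j, Finset.mul_sum]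
  apply Finset.sum_le_sum
  intro i _
  rw [lintegral_finsetSum _ fun j _ => m12 i j, Finset.mul_sum]

end meet_combine

section meet_final

variable {d : ℕ} [NeZero d]

/-- the expected field of kernels -/
noncomputable def meet_e (Λ : Finset (Site d)) (m r : ℕ) (x : Site d) : ℝ :=
  ∫ ω, field ω.1 ω.2 Λ m (PP (r : ℝ) (ind x)) ∂(law d (1 / 2))

theorem meet_e_nonneg (Λ : Finset (Site d)) (m r : ℕ) (x : Site d) : 0 ≤ meet_e Λ m r x := by
  unfold meet_e
  apply integral_nonneg
  intro ω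
  exact Finset.sum_nonneg fun i _ => meet_PP_nonneg _ _ _

theorem meet_hasSum_shift (t : ℝ) (x : Site d) : HasSum (fun y => ker d t (x - y)) 1 := by
  have h := hasSum_ker d t
  exact (Equiv.subLeft x).hasSum_iff.2 h

theorem meet_dens_le_one (Λ : Finset (Site d)) (n : ℕ) (x : Site d) : dens d Λ n x ≤ 1 := by
  have := prob_noiseLaw d
  refine (dens_le d Λ n x).trans ?_
  exact sum_le_hasSum Λ (fun i _ => measureReal_nonneg) (meet_hasSum_shift (n : ℝ) x)

theorem meet_e_le_one (Λ : Finset (Site d)) (m r : ℕ) (x : Site d) : meet_e Λ m r x ≤ 1 := by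
  have h1 := integral_field_eq d (PP (r : ℝ) (ind x)) 1 (meet_PP_abs _ x) Λ m
  have h2 : HasSum (fun y => PP (r : ℝ) (ind x) y) 1 := by
    have := meet_hasSum_shift (d := d) (r : ℝ) x
    refine this.congr_fun ?_
    intro y
    exact PP_ind d (r : ℝ) x y
  refine hasSum_le ?_ h1 h2
  intro y
  exact mul_le_of_le_one_right (meet_PP_nonneg _ _ _) (meet_dens_le_one Λ m y)

theorem meet_sum_sq (r : ℕ) (x : Site d) :
    (Summable fun z => PP (r : ℝ) (ind x) z ^ 2) ∧
      ∑' z, PP (r : ℝ) (ind x) z ^ 2 = ker d ((2 * r : ℕ) : ℝ) 0 := by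
  obtain ⟨h1, h2⟩ := summable_sq_ker d (t := (r : ℝ)) (Nat.cast_nonneg r)
  have e : (fun z => PP (r : ℝ) (ind x) z ^ 2) =
      (fun z => ker d (r : ℝ) z ^ 2) ∘ (Equiv.subLeft x) := by
    funext z
    simp only [Function.comp_apply, Equiv.subLeft_apply]
    rw [PP_ind]
  rw [e]
  constructor
  · exact (Equiv.subLeft x).summable_iff.2 h1
  · have h3 := (Equiv.subLeft x).tsum_eq (fun z => ker d (r : ℝ) z ^ 2)
    have h4 : ((2 * r : ℕ) : ℝ) = 2 * (r : ℝ) := by push_cast; ring
    rw [h4, ← h2, ← h3]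
    rfl

theorem meet_FF {Λ : Finset (Site d)} {m r : ℕ} {A : Sample d → Finset (Site d)}
    (hA : MeetVersion d Λ m A) (x y : Site d) :
    ∫⁻ ω, meet_F Λ A m r x ω * meet_F Λ A m r y ω ∂(law d (1 / 2)) ≤
      ENNReal.ofReal ((meet_e Λ m r x ^ 2 + meet_e Λ m r y ^ 2) / 2 +
        2 * ker d ((2 * r : ℕ) : ℝ) 0) := by
  have := prob_law d (meet_half_mem)
  have hF : ∀ x : Site d, ∀ ω : Sample d, alive ω.1 ω.2 Λ m = A ω →
      meet_F Λ A m r x ω = ENNReal.ofReal (field ω.1 ω.2 Λ m (PP (r : ℝ) (ind x))) := by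
    intro x ω hω
    rw [meet_ofReal_field hA (meet_PP_nonneg _ x) hω, meet_F]
    apply Finset.sum_congr rfl
    intro i _
    rw [Set.indicator_apply, Set.indicator_apply, PP_ind]
  have hx2 := meet_integrable_field_sq hA (PP (r : ℝ) (ind x)) 1 (meet_PP_abs _ x)
  have hy2 := meet_integrable_field_sq hA (PP (r : ℝ) (ind y)) 1 (meet_PP_abs _ y)
  have hint : Integrable (fun ω : Sample d => (field ω.1 ω.2 Λ m (PP (r : ℝ) (ind x)) ^ 2 +
      field ω.1 ω.2 Λ m (PP (r : ℝ) (ind y)) ^ 2) / 2) (law d (1 / 2)) :=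
    (hx2.add hy2).div_const 2
  have h1 : ∫⁻ ω, meet_F Λ A m r x ω * meet_F Λ A m r y ω ∂(law d (1 / 2)) ≤
      ∫⁻ ω, ENNReal.ofReal ((field ω.1 ω.2 Λ m (PP (r : ℝ) (ind x)) ^ 2 +
      field ω.1 ω.2 Λ m (PP (r : ℝ) (ind y)) ^ 2) / 2) ∂(law d (1 / 2)) := by
    apply lintegral_mono_ae
    filter_upwards [hA.ae] with ω hω
    have h0 : 0 ≤ field ω.1 ω.2 Λ m (PP (r : ℝ) (ind x)) :=
      Finset.sum_nonneg fun i _ => meet_PP_nonneg _ _ _
    rw [hF x ω hω, hF y ω hω, ← ENNReal.ofReal_mul h0]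
    apply ENNReal.ofReal_le_ofReal
    nlinarith [sq_nonneg (field ω.1 ω.2 Λ m (PP (r : ℝ) (ind x)) -
      field ω.1 ω.2 Λ m (PP (r : ℝ) (ind y)))]
  refine h1.trans ?_
  rw [← ofReal_integral_eq_lintegral_ofReal hint (Filter.Eventually.of_forall fun ω => by
    simp only [Pi.zero_apply]; positivity)]
  apply ENNReal.ofReal_le_ofReal
  rw [integral_div, integral_add hx2 hy2]
  have v1 := variance_field d meet_half_mem (PP (r : ℝ) (ind x)) (meet_PP_nonneg _ x)
    (meet_sum_sq r x).1 m Λ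
  have v2 := variance_field d meet_half_mem (PP (r : ℝ) (ind y)) (meet_PP_nonneg _ y)
    (meet_sum_sq r y).1 m Λ
  rw [(meet_sum_sq r x).2] at v1
  rw [(meet_sum_sq r y).2] at v2
  unfold meet_e
  linarith

/-- the kernel as a real number -/
noncomputable def meet_kapR (d : ℕ) (p : Site d × Site d) : ℝ := (meet_kap d p.1 p.2).toReal

omit [NeZero d] in
theorem meet_kapR_nonneg (p : Site d × Site d) : 0 ≤ meet_kapR d p := ENNReal.toReal_nonneg

theorem meet_kapR_summable : Summable (meet_kapR d) := ENNReal.summable_toReal (meet_kap_sum d)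

theorem meet_real_ineq (Λ : Finset (Site d)) {m n : ℕ} (hmn : m ≤ n) :
    ∫ ω, field ω.1 ω.2 Λ n (PP 1 (ind 0)) ∂(law d (1 / 2)) ≤
      dens d Λ (n + 1) 0 + ∑' p : Site d × Site d, meet_kapR d p *
        ((meet_e Λ m (n - m) p.1 ^ 2 + meet_e Λ m (n - m) p.2 ^ 2) / 2 +
          2 * ker d ((2 * (n - m) : ℕ) : ℝ) 0) := by
  have := prob_noiseLaw d
  have := prob_law d (meet_half_mem)
  obtain ⟨A, hA⟩ := meet_exists_version d Λ m
  have h1 := meet_main_ineq hmn hA
  have hker : 0 ≤ ker d ((2 * (n - m) : ℕ) : ℝ) 0 := measureReal_nonneg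
  have hg0 : ∀ p : Site d × Site d, 0 ≤ (meet_e Λ m (n - m) p.1 ^ 2 +
      meet_e Λ m (n - m) p.2 ^ 2) / 2 + 2 * ker d ((2 * (n - m) : ℕ) : ℝ) 0 := by
    intro p; positivity
  have hsum : Summable fun p : Site d × Site d => meet_kapR d p *
        ((meet_e Λ m (n - m) p.1 ^ 2 + meet_e Λ m (n - m) p.2 ^ 2) / 2 +
          2 * ker d ((2 * (n - m) : ℕ) : ℝ) 0) := by
    refine Summable.of_nonneg_of_le (fun p => mul_nonneg (meet_kapR_nonneg p) (hg0 p)) ?_
      ((meet_kapR_summable (d := d)).mul_right (1 + 2 * ker d ((2 * (n - m) : ℕ) : ℝ) 0))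
    intro p
    apply mul_le_mul_of_nonneg_left _ (meet_kapR_nonneg p)
    have a1 := pow_le_one₀ (n := 2) (meet_e_nonneg Λ m (n - m) p.1) (meet_e_le_one Λ m (n - m) p.1)
    have a2 := pow_le_one₀ (n := 2) (meet_e_nonneg Λ m (n - m) p.2) (meet_e_le_one Λ m (n - m) p.2)
    linarith
  have h2 : ∑' p : Site d × Site d, meet_kap d p.1 p.2 *
        ∫⁻ ω, meet_F Λ A m (n - m) p.1 ω * meet_F Λ A m (n - m) p.2 ω ∂(law d (1 / 2)) ≤
      ENNReal.ofReal (∑' p : Site d × Site d, meet_kapR d p *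
        ((meet_e Λ m (n - m) p.1 ^ 2 + meet_e Λ m (n - m) p.2 ^ 2) / 2 +
          2 * ker d ((2 * (n - m) : ℕ) : ℝ) 0)) := by
    rw [ENNReal.ofReal_tsum_of_nonneg (fun p => mul_nonneg (meet_kapR_nonneg p) (hg0 p)) hsum]
    apply ENNReal.tsum_le_tsum
    intro p
    have hk : meet_kap d p.1 p.2 ≠ ⊤ := by
      rw [meet_kap]; exact measure_ne_top _ _
    rw [ENNReal.ofReal_mul (meet_kapR_nonneg p), meet_kapR, ENNReal.ofReal_toReal hk]
    gcongr
    exact meet_FF hA p.1 p.2
  have hd0 : 0 ≤ dens d Λ (n + 1) 0 := dens_nonneg d Λ (n + 1) 0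
  have ht0 : 0 ≤ ∑' p : Site d × Site d, meet_kapR d p *
        ((meet_e Λ m (n - m) p.1 ^ 2 + meet_e Λ m (n - m) p.2 ^ 2) / 2 +
          2 * ker d ((2 * (n - m) : ℕ) : ℝ) 0) :=
    tsum_nonneg fun p => mul_nonneg (meet_kapR_nonneg p) (hg0 p)
  have h3 := h1.trans (add_le_add le_rfl h2)
  have e : ∫ ω, field ω.1 ω.2 Λ ((n + 1 : ℕ) : ℝ) (ind 0) ∂(law d (1 / 2)) =
      dens d Λ (n + 1) 0 := rfl
  rw [e, ← ENNReal.ofReal_add hd0 ht0] at h3
  exact (ENNReal.ofReal_le_ofReal_iff (add_nonneg hd0 ht0)).1 h3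

end meet_final

theorem rho_meet (d : ℕ) [NeZero d] : ∃ K : ℝ, 0 < K ∧ ∀ m n : ℕ, m < n →
    rho d n - rho d (n + 1) ≤ K * (rho d m ^ 2 + ker d ((2 * (n - m) : ℕ) : ℝ) 0) := by
  have := prob_noiseLaw d
  have hK0 : 0 ≤ ∑' p, meet_kapR d p := tsum_nonneg meet_kapR_nonneg
  refine ⟨2 * (∑' p, meet_kapR d p) + 1, by linarith, ?_⟩
  intro m n hmn
  have hker : 0 ≤ ker d ((2 * (n - m) : ℕ) : ℝ) 0 := measureReal_nonneg
  have hPP : ∀ (r : ℝ) (x : Site d), HasSum (fun y => PP r (ind x) y) 1 := by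
    intro r x
    refine (meet_hasSum_shift (d := d) r x).congr_fun ?_
    intro y
    exact PP_ind d r x y
  -- limits
  have l1 : Tendsto (fun M : ℕ => ∫ ω, field ω.1 ω.2 (box d M) n (PP 1 (ind 0))
      ∂(law d (1 / 2))) atTop (𝓝 (rho d n)) := by
    have h := tendsto_field d n (PP 1 (ind 0)) (meet_PP_nonneg 1 0) (hPP 1 0).summable
    rw [(hPP 1 0).tsum_eq, one_mul] at h
    exact h
  have l2 : Tendsto (fun M : ℕ => dens d (box d M) (n + 1) 0) atTop (𝓝 (rho d (n + 1))) :=
    tendsto_dens d (n + 1) 0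
  have l3 : ∀ x : Site d, Tendsto (fun M : ℕ => meet_e (box d M) m (n - m) x) atTop
      (𝓝 (rho d m)) := by
    intro x
    have h := tendsto_field d m (PP ((n - m : ℕ) : ℝ) (ind x)) (meet_PP_nonneg _ x)
      (hPP _ x).summable
    rw [(hPP _ x).tsum_eq, one_mul] at h
    exact h
  have l4 : Tendsto (fun M : ℕ => ∑' p : Site d × Site d, meet_kapR d p *
        ((meet_e (box d M) m (n - m) p.1 ^ 2 + meet_e (box d M) m (n - m) p.2 ^ 2) / 2 +
          2 * ker d ((2 * (n - m) : ℕ) : ℝ) 0)) atTop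
      (𝓝 (∑' p : Site d × Site d, meet_kapR d p *
        ((rho d m ^ 2 + rho d m ^ 2) / 2 + 2 * ker d ((2 * (n - m) : ℕ) : ℝ) 0))) := by
    apply tendsto_tsum_of_dominated_convergence
      (bound := fun p => meet_kapR d p * (1 + 2 * ker d ((2 * (n - m) : ℕ) : ℝ) 0))
    · exact (meet_kapR_summable (d := d)).mul_right _
    · intro p
      exact ((((l3 p.1).pow 2).add ((l3 p.2).pow 2)).div_const 2 |>.add_const _).const_mul _
    · filter_upwards with M p
      rw [Real.norm_eq_abs, abs_of_nonneg (mul_nonneg (meet_kapR_nonneg p) (by positivity))]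
      apply mul_le_mul_of_nonneg_left _ (meet_kapR_nonneg p)
      have a1 := pow_le_one₀ (n := 2) (meet_e_nonneg (box d M) m (n - m) p.1)
        (meet_e_le_one (box d M) m (n - m) p.1)
      have a2 := pow_le_one₀ (n := 2) (meet_e_nonneg (box d M) m (n - m) p.2)
        (meet_e_le_one (box d M) m (n - m) p.2)
      linarith
  have l5 := le_of_tendsto_of_tendsto' l1 (l2.add l4) fun M =>
    meet_real_ineq (box d M) hmn.le
  rw [tsum_mul_right] at l5
  have hr : 0 ≤ rho d m ^ 2 := sq_nonneg _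
  nlinarith [mul_nonneg hK0 hr, mul_nonneg hK0 hker]

end Pool.Agent.H285
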