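import Pool.Agent.H285.Base2
import Pool.Agent.H285.AW27
import Pool.Agent.H285.AW19
import Pool.Agent.H285.AW08
import Pool.Agent.H285.AW16
import Pool.Agent.H285.AW29

/-!
# AW28 (MP_0e9fac_pr)
-/



open MeasureTheory ProbabilityTheory Filter Topology

namespace Pool.Agent.H285


/- ======== TARGETS ======== -/

theorem aw28_ind_nonneg {d : ℕ} (x y : Site d) : 0 ≤ ind x y := by
  unfold ind; split_ifs <;> norm_num

theorem aw28_ind_le {d : ℕ} (x y : Site d) : ind x y ≤ 1 := by
  unfold ind; split_ifs <;> norm_num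

theorem aw28_ind_meas {d : ℕ} (x : Site d) : Measurable (ind x) := measurable_of_countable _

/-- The expectation of the indicator of the position of one particle. -/
theorem aw28_int_ind (d : ℕ) [NeZero d] (n : ℕ) (i : Site d) :
    ∫ v, ind (0 : Site d) (i + walk v n) ∂(noiseLaw d) = ker d n (-i) := by
  have hm : MeasurableSet {w : Noise d | walk w (n : ℝ) = -i} :=
    (measurable_walk (n : ℝ)) (measurableSet_singleton (-i))
  have e : (fun v : Noise d => ind (0 : Site d) (i + walk v n)) =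
      ({w : Noise d | walk w (n : ℝ) = -i}).indicator 1 := by
    funext v
    by_cases hv : walk v (n : ℝ) = -i
    · rw [Set.indicator_of_mem (by exact hv)]
      simp [ind, hv]
    · rw [Set.indicator_of_notMem (by exact hv)]
      unfold ind
      rw [if_neg]
      intro h
      apply hv
      exact (neg_eq_of_add_eq_zero_right h).symm
  rw [e]
  unfold ker
  exact integral_indicator_one hm

theorem aw28_version (d : ℕ) [NeZero d] (Λ : Finset (Site d)) (n : ℕ) :
    ∃ (g : (Site d → Bool) × (Site d → Noise d) → ℝ) (N : Set (Site d → Noise d)),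
      Measurable g ∧ (∀ ω, 0 ≤ g ω) ∧ (∀ ω, g ω ≤ Λ.card) ∧ noises d N = 0 ∧
      ∀ c w, w ∉ N → field c w Λ n (ind 0) = g (c, w) := by
  obtain ⟨A, N, hA, hsub, -, hN, hal⟩ := exists_version d Λ n
  refine ⟨fun ω => ∑ i ∈ Λ, ({ω | i ∈ A ω}).indicator (fun ω => ind 0 (pos ω.2 n i)) ω, N,
    ?_, ?_, ?_, hN, ?_⟩
  · apply Finset.measurable_sum
    intro i _
    apply Measurable.indicator
    · have hp : Measurable (fun ω : (Site d → Bool) × (Site d → Noise d) => pos ω.2 (n : ℝ) i) := by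
        unfold pos
        have h1 : Measurable (fun ω : (Site d → Bool) × (Site d → Noise d) =>
            walk (ω.2 i) (n : ℝ)) := (measurable_walk (n : ℝ)).comp
              ((measurable_pi_apply i).comp measurable_snd)
        exact (measurable_of_countable (fun z : Site d => i + z)).comp h1
      exact (aw28_ind_meas 0).comp hp
    · have e : {ω | i ∈ A ω} = ⋃ B ∈ (Λ.powerset.filter fun B => i ∈ B), {ω | A ω = B} := by
        ext ω
        simp only [Set.mem_ofPred_eq, Set.mem_iUnion, Finset.mem_filter, Finset.mem_powerset,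
          exists_prop]
        constructor
        · intro h
          exact ⟨A ω, ⟨hsub ω, h⟩, rfl⟩
        · rintro ⟨B, ⟨_, hB⟩, hω⟩
          rw [hω]; exact hB
      rw [e]
      exact Finset.measurableSet_biUnion _ fun B _ => hA B
  · intro ω
    apply Finset.sum_nonneg
    intro i _
    exact Set.indicator_nonneg (fun _ _ => aw28_ind_nonneg _ _) _
  · intro ω
    calc ∑ i ∈ Λ, ({ω | i ∈ A ω}).indicator (fun ω => ind 0 (pos ω.2 n i)) ω
        ≤ ∑ i ∈ Λ, (1 : ℝ) := by
          apply Finset.sum_le_sum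
          intro i _
          exact Set.indicator_le' (fun _ _ => aw28_ind_le _ _) (fun _ _ => zero_le_one) _
      _ = Λ.card := by simp
  · intro c w hw
    show field c w Λ n (ind 0) = ∑ i ∈ Λ, ({ω | i ∈ A ω}).indicator
      (fun ω => ind 0 (pos ω.2 n i)) (c, w)
    unfold field
    rw [hal c w hw]
    have e1 : ∀ i ∈ Λ, ({ω | i ∈ A ω}).indicator
        (fun ω : (Site d → Bool) × (Site d → Noise d) => ind 0 (pos ω.2 n i)) (c, w) =
        if i ∈ A (c, w) then ind 0 (pos w n i) else 0 := by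
      intro i _
      by_cases hi : i ∈ A (c, w)
      · rw [if_pos hi, Set.indicator_of_mem (by exact hi)]
      · rw [if_neg hi, Set.indicator_of_notMem (by exact hi)]
    rw [Finset.sum_congr rfl e1, ← Finset.sum_filter]
    apply Finset.sum_congr _ (fun _ _ => rfl)
    ext i
    simp only [Finset.mem_filter]
    exact ⟨fun h => ⟨hsub _ h, h⟩, fun h => h.2⟩

theorem aw28_half : (1 / 2 : ℝ) ∈ Set.Icc (0 : ℝ) 1 := ⟨by norm_num, by norm_num⟩

theorem aw28_dens (d : ℕ) [NeZero d] (Λ : Finset (Site d)) (n : ℕ) :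
    Integrable (fun c => ∫ w, field c w Λ n (ind 0) ∂(noises d)) (colours d (1 / 2)) ∧
    dens d Λ n 0 = ∫ c, ∫ w, field c w Λ n (ind 0) ∂(noises d) ∂(colours d (1 / 2)) ∧
    ∀ c, Integrable (fun w => field c w Λ n (ind 0)) (noises d) := by
  have := prob_noises d
  have := prob_colours d aw28_half
  obtain ⟨g, N, hg, hg0, hg1, hN, hfg⟩ := aw28_version d Λ n
  have hNae : ∀ᵐ w ∂(noises d), w ∉ N := by
    rw [ae_iff]; simpa using hN
  have hgi : Integrable g ((colours d (1 / 2)).prod (noises d)) := by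
    apply Integrable.of_bound hg.aestronglyMeasurable (C := (Λ.card : ℝ))
    filter_upwards with ω
    rw [Real.norm_eq_abs, abs_of_nonneg (hg0 ω)]
    exact hg1 ω
  have hI : ∀ c, ∫ w, field c w Λ n (ind 0) ∂(noises d) = ∫ w, g (c, w) ∂(noises d) := by
    intro c
    apply integral_congr_ae
    filter_upwards [hNae] with w hw
    exact hfg c w hw
  have hgc : ∀ c, Integrable (fun w => g (c, w)) (noises d) := by
    intro c
    apply Integrable.of_bound (hg.comp measurable_prodMk_left).aestronglyMeasurable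
      (C := (Λ.card : ℝ))
    filter_upwards with w
    show ‖g (c, w)‖ ≤ _
    rw [Real.norm_eq_abs, abs_of_nonneg (hg0 _)]
    exact hg1 _
  refine ⟨?_, ?_, ?_⟩
  · have := hgi.integral_prod_left
    refine this.congr ?_
    filter_upwards with c
    exact (hI c).symm
  · have hprod : ∀ᵐ ω ∂((colours d (1 / 2)).prod (noises d)), ω.2 ∉ N := by
      have h1 := (Measure.quasiMeasurePreserving_snd (μ := colours d (1 / 2))
        (ν := noises d)).ae hNae
      exact h1
    have e1 : dens d Λ n 0 = ∫ ω, g ω ∂((colours d (1 / 2)).prod (noises d)) := by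
      unfold dens
      apply integral_congr_ae
      have hprod' : ∀ᵐ ω ∂(law d (1 / 2)), ω.2 ∉ N := hprod
      filter_upwards [hprod'] with ω hω
      exact hfg ω.1 ω.2 hω
    rw [e1, integral_prod _ hgi]
    apply integral_congr_ae
    filter_upwards with c
    exact (hI c).symm
  · intro c
    refine (hgc c).congr ?_
    filter_upwards [hNae] with w hw
    exact (hfg c w hw).symm

theorem aw28_field_nonneg {d : ℕ} (c : Site d → Bool) (w : Site d → Noise d)
    (Λ : Finset (Site d)) (t : ℝ) (x : Site d) : 0 ≤ field c w Λ t (ind x) :=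
  Finset.sum_nonneg fun _ _ => aw28_ind_nonneg _ _

theorem aw28_dens_nonneg (d : ℕ) (Λ : Finset (Site d)) (n : ℕ) (x : Site d) :
    0 ≤ dens d Λ n x := integral_nonneg fun _ => aw28_field_nonneg _ _ _ _ _

theorem aw28_charge (d : ℕ) [NeZero d] (Λ : Finset (Site d)) (n : ℕ) (c : Site d → Bool) :
    |∑ i ∈ Λ, sgn (c i) * ker d n (-i)| ≤ ∫ w, field c w Λ n (ind 0) ∂(noises d) := by
  have h1 := charge_alive d c (ind 0) 1 (fun x => by
    rw [abs_of_nonneg (aw28_ind_nonneg _ _)]; exact aw28_ind_le _ _) n Λ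
  simp only [aw28_int_ind] at h1
  rw [← h1]
  have h2 : |∫ w, ∑ i ∈ alive c w Λ n, sgn (c i) * ind 0 (pos w n i) ∂(noises d)| ≤
      ∫ w, |∑ i ∈ alive c w Λ n, sgn (c i) * ind 0 (pos w n i)| ∂(noises d) :=
    abs_integral_le_integral_abs
  refine h2.trans ?_
  apply integral_mono_of_nonneg
  · filter_upwards with w
    exact abs_nonneg _
  · exact (aw28_dens d Λ n).2.2 c
  · filter_upwards with w
    refine (Finset.abs_sum_le_sum_abs _ _).trans ?_
    unfold field
    apply Finset.sum_le_sum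
    intro i _
    rw [abs_mul, abs_of_nonneg (aw28_ind_nonneg _ _)]
    have : |sgn (c i)| = 1 := by unfold sgn; split_ifs <;> simp
    rw [this, one_mul]

theorem aw28_fin (d : ℕ) [NeZero d] (Λ : Finset (Site d)) (n : ℕ) :
    ∑ i ∈ Λ, ker d n (-i) ^ 2 ≤ 3 * dens d Λ n 0 ^ 2 := by
  have h1 := khinchine_colours d Λ (fun i => ker d n (-i))
  obtain ⟨hint, hdens, -⟩ := aw28_dens d Λ n
  have h2 : ∫ c, |∑ i ∈ Λ, sgn (c i) * ker d n (-i)| ∂(colours d (1 / 2)) ≤ dens d Λ n 0 := by
    rw [hdens]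
    apply integral_mono_of_nonneg
    · filter_upwards with c
      exact abs_nonneg _
    · exact hint
    · filter_upwards with c
      exact aw28_charge d Λ n c
  have h3 : Real.sqrt (∑ i ∈ Λ, ker d n (-i) ^ 2) ≤ Real.sqrt 3 * dens d Λ n 0 :=
    h1.trans (mul_le_mul_of_nonneg_left h2 (Real.sqrt_nonneg 3))
  have h4 : 0 ≤ ∑ i ∈ Λ, ker d n (-i) ^ 2 := Finset.sum_nonneg fun _ _ => sq_nonneg _
  calc ∑ i ∈ Λ, ker d n (-i) ^ 2 = Real.sqrt (∑ i ∈ Λ, ker d n (-i) ^ 2) ^ 2 :=
        (Real.sq_sqrt h4).symm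
    _ ≤ (Real.sqrt 3 * dens d Λ n 0) ^ 2 := pow_le_pow_left₀ (Real.sqrt_nonneg _) h3 2
    _ = 3 * dens d Λ n 0 ^ 2 := by
        rw [mul_pow, Real.sq_sqrt (by norm_num)]

theorem aw28_box (d : ℕ) : Tendsto (fun M : ℕ => box d M) atTop atTop := by
  apply tendsto_atTop_finset_of_monotone
  · intro a b hab x hx
    unfold box at hx ⊢
    rw [Finset.mem_Icc] at hx ⊢
    have : (a : ℤ) ≤ b := by exact_mod_cast hab
    constructor
    · intro k
      have := hx.1 k
      simp only at this ⊢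
      linarith
    · intro k
      have := hx.2 k
      simp only at this ⊢
      linarith
  · intro x
    refine ⟨∑ k, (x k).natAbs, ?_⟩
    unfold box
    rw [Finset.mem_Icc]
    have h : ∀ k, |x k| ≤ ((∑ k, (x k).natAbs : ℕ) : ℤ) := by
      intro k
      have h1 : (x k).natAbs ≤ ∑ k, (x k).natAbs :=
        Finset.single_le_sum (f := fun k => (x k).natAbs) (fun _ _ => Nat.zero_le _)
          (Finset.mem_univ k)
      rw [Int.abs_eq_natAbs]
      exact_mod_cast h1
    exact ⟨fun k => (abs_le.mp (h k)).1, fun k => (abs_le.mp (h k)).2⟩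

theorem rho_lower (d : ℕ) [NeZero d] (n : ℕ) : ker d (2 * n) 0 ≤ 3 * rho d n ^ 2 := by
  have hn : (0 : ℝ) ≤ (n : ℝ) := Nat.cast_nonneg n
  obtain ⟨hs, ht⟩ := summable_sq_ker d hn
  have e : (fun x : Site d => ker d n (-x) ^ 2) = fun x => ker d n x ^ 2 := by
    funext x
    rw [ker_neg d hn x]
  have h1 : Tendsto (fun M : ℕ => ∑ i ∈ box d M, ker d n (-i) ^ 2) atTop
      (𝓝 (ker d (2 * n) 0)) := by
    have h2 : HasSum (fun x : Site d => ker d n (-x) ^ 2) (ker d (2 * n) 0) := by
      rw [e, ← ht]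
      exact hs.hasSum
    exact h2.comp (aw28_box d)
  have h3 : Tendsto (fun M : ℕ => 3 * dens d (box d M) n 0 ^ 2) atTop
      (𝓝 (3 * rho d n ^ 2)) := ((tendsto_dens d n 0).pow 2).const_mul 3
  exact le_of_tendsto_of_tendsto' h1 h3 fun M => aw28_fin d (box d M) n

theorem aw28_rho_nonneg (d : ℕ) [NeZero d] (n : ℕ) : 0 ≤ rho d n :=
  ge_of_tendsto' (tendsto_dens d n 0) fun M => aw28_dens_nonneg d (box d M) n 0

theorem aw28_ker_zero (d : ℕ) [NeZero d] : ker d 0 0 = 1 := by
  have := prob_noiseLaw d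
  unfold ker
  have h : ∀ᵐ w ∂(noiseLaw d), walk w 0 = 0 := by
    filter_upwards [ae_good d] with w hw
    unfold walk
    rw [jumps_zero hw]
    simp
  have h2 : noiseLaw d {w | walk w 0 = 0} = 1 := (prob_compl_eq_zero_iff
    ((measurable_walk (0 : ℝ)) (measurableSet_singleton (0 : Site d)))).mp h
  rw [measureReal_def, h2]
  rfl

theorem rho_pos (d : ℕ) [NeZero d] (n : ℕ) : 0 < rho d n := by
  have h0 := aw28_rho_nonneg d n
  have h1 := rho_lower d n
  have hk : 0 < ker d (2 * n) 0 := by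
    rcases Nat.eq_zero_or_pos n with h | h
    · subst h
      have : ((2 : ℝ) * ((0 : ℕ) : ℝ)) = 0 := by simp
      rw [this, aw28_ker_zero]
      exact one_pos
    · obtain ⟨c, hc, hl⟩ := ker_lower d
      have hn : (1 : ℝ) ≤ n := by exact_mod_cast h
      have h2n : (1 : ℝ) ≤ 2 * n := by linarith
      refine lt_of_lt_of_le ?_ (hl (2 * n) h2n)
      positivity
  rcases h0.lt_or_eq with h | h
  · exact h
  · rw [← h] at h1
    exfalso
    norm_num at h1
    linarith

/-- good scales -/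
theorem good_scales (d : ℕ) [NeZero d] : ∃ a : ℝ, 0 < a ∧ ∃ᶠ N : ℕ in atTop,
    a * rho d N ≤ rho d (3 * N) ∧ a * green d N ≤ N * rho d N := by
  have := prob_noiseLaw d
  obtain ⟨c0, hc0, hl⟩ := ker_lower d
  obtain ⟨C, hC, hu⟩ := ker_upper d
  obtain ⟨K, hK, hM⟩ := rho_meet d
  have hb : 0 < c0 * (2 : ℝ) ^ (-(d : ℝ) / 2) / 3 := by positivity
  exact scale d (Nat.one_le_iff_ne_zero.mpr (NeZero.ne d)) (rho d) (fun k => ker d k 0)
    (Real.sqrt (c0 * (2 : ℝ) ^ (-(d : ℝ) / 2) / 3)) C K (Real.sqrt_pos.mpr hb) hC hK (rho_pos d)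
    (rho_le_one d) (rho_antitone d) (fun _ => measureReal_nonneg) (fun _ => measureReal_le_one)
    (fun n hn => hu n (by exact_mod_cast hn))
    (by
      intro n hn
      have hn1 : (1 : ℝ) ≤ n := by exact_mod_cast hn
      have hn0 : (0 : ℝ) ≤ n := by linarith
      have h1 := rho_lower d n
      have h2 := hl (2 * n) (by linarith)
      have h3 : (2 * (n : ℝ)) ^ (-(d : ℝ) / 2) = 2 ^ (-(d : ℝ) / 2) * (n : ℝ) ^ (-(d : ℝ) / 2) :=
        Real.mul_rpow (by norm_num) hn0
      rw [h3] at h2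
      have h4 : ((n : ℝ) ^ (-(d : ℝ) / 4)) ^ 2 = (n : ℝ) ^ (-(d : ℝ) / 2) := by
        rw [← Real.rpow_natCast, ← Real.rpow_mul hn0]
        congr 1
        push_cast
        ring
      apply le_of_sq_le_sq _ (rho_pos d n).le
      rw [mul_pow, Real.sq_sqrt hb.le, h4]
      linarith)
    (fun m n hmn => hM m n hmn)

end Pool.Agent.H285
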