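import Pool.Agent.H285.Base2
import Pool.Agent.H285.AW27
import Pool.Agent.H285.AW25
import Pool.Agent.H285.AW18
import Pool.Agent.H285.AW28

/-!
# AW30 (MP_0e9fac_pr)
-/



open MeasureTheory ProbabilityTheory Filter Topology

namespace Pool.Agent.H285


/- ======== TARGETS ======== -/

/-- general version of `field` and `fieldc` -/
noncomputable def aw30_gf {d : ℕ} (ψ : Bool → Site d → ℝ) (c : Site d → Bool)
    (w : Site d → Noise d) (Λ : Finset (Site d)) (t : ℝ) : ℝ :=
  ∑ i ∈ alive c w Λ t, ψ (c i) (pos w t i)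

/-- functions with a bounded measurable version which depends on the coordinates in `Λ` -/
def aw30_Nice (d : ℕ) (Λ : Finset (Site d)) (g : Sample d → ℝ) : Prop :=
  ∃ (g' : Sample d → ℝ) (N : Set (Site d → Noise d)) (C : ℝ), Measurable g' ∧ (∀ ω, |g' ω| ≤ C) ∧
    (∀ x y : Sample d, (∀ i ∈ Λ, x.1 i = y.1 i ∧ x.2 i = y.2 i) → g' x = g' y) ∧
    noises d N = 0 ∧ ∀ c w, w ∉ N → g (c, w) = g' (c, w)

theorem aw30_nice_gf (d : ℕ) [NeZero d] (ψ : Bool → Site d → ℝ) (C : ℝ)
    (hψ : ∀ b x, |ψ b x| ≤ C) (Λ : Finset (Site d)) (n : ℕ) :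
    aw30_Nice d Λ (fun ω => aw30_gf ψ ω.1 ω.2 Λ n) := by
  classical
  obtain ⟨A, N, hA, hAΛ, hAc, hN, hAN⟩ := exists_version d Λ n
  have hC : 0 ≤ C := le_trans (abs_nonneg _) (hψ true 0)
  refine ⟨fun ω => ∑ i ∈ Λ, if i ∈ A ω then ψ (ω.1 i) (pos ω.2 n i) else 0, N, ∑ _i ∈ Λ, C,
    ?_, ?_, ?_, hN, ?_⟩
  · refine Finset.measurable_sum _ fun i _ => ?_
    refine Measurable.ite ?_ ?_ measurable_const
    · have : {ω | i ∈ A ω} = ⋃ B ∈ Λ.powerset.filter (fun B => i ∈ B), {ω | A ω = B} := by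
        ext ω
        simp only [Set.mem_ofPred_eq, Finset.mem_filter, Finset.mem_powerset, Set.mem_iUnion,
          exists_prop]
        constructor
        · intro h
          exact ⟨A ω, ⟨hAΛ ω, h⟩, rfl⟩
        · rintro ⟨B, ⟨_, hB⟩, rfl⟩
          exact hB
      rw [this]
      exact Finset.measurableSet_biUnion _ fun B _ => hA B
    · have h1 : Measurable (fun ω : Sample d => (ω.1 i, pos ω.2 n i)) := by
        refine Measurable.prodMk ?_ ?_
        · exact (measurable_pi_apply i).comp measurable_fst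
        · unfold pos
          refine Measurable.const_add ?_ _
          exact (measurable_walk (n : ℝ)).comp ((measurable_pi_apply i).comp measurable_snd)
      have h2 : Measurable (fun q : Bool × Site d => ψ q.1 q.2) := Measurable.of_discrete
      exact h2.comp h1
  · intro ω
    refine le_trans (Finset.abs_sum_le_sum_abs _ _) (Finset.sum_le_sum fun i _ => ?_)
    split_ifs
    · exact hψ _ _
    · rw [abs_zero]; exact hC
  · intro x y hxy
    simp only
    rw [hAc x y hxy]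
    refine Finset.sum_congr rfl fun i hi => ?_
    obtain ⟨h1, h2⟩ := hxy i hi
    unfold pos
    rw [h1, h2]
  · intro c w hw
    have h1 : alive c w Λ n = A (c, w) := hAN c w hw
    simp only [aw30_gf]
    rw [h1, ← Finset.sum_filter]
    congr 1
    ext i
    rw [Finset.mem_filter]
    exact ⟨fun h => ⟨hAΛ _ h, h⟩, fun h => h.2⟩

theorem aw30_Nice.mono {d : ℕ} {Λ Λ' : Finset (Site d)} {g : Sample d → ℝ}
    (h : aw30_Nice d Λ g) (hΛ : Λ ⊆ Λ') : aw30_Nice d Λ' g := by
  obtain ⟨g', N, C, h1, h2, h3, h4, h5⟩ := h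
  exact ⟨g', N, C, h1, h2, fun x y hxy => h3 x y fun i hi => hxy i (hΛ hi), h4, h5⟩

theorem aw30_Nice.mul {d : ℕ} {Λ : Finset (Site d)} {g h : Sample d → ℝ}
    (hg : aw30_Nice d Λ g) (hh : aw30_Nice d Λ h) : aw30_Nice d Λ (fun ω => g ω * h ω) := by
  obtain ⟨g', N, C, h1, h2, h3, h4, h5⟩ := hg
  obtain ⟨h', N', C', k1, k2, k3, k4, k5⟩ := hh
  refine ⟨fun ω => g' ω * h' ω, N ∪ N', C * C', h1.mul k1, ?_, ?_, ?_, ?_⟩
  · intro ω
    rw [abs_mul]
    exact mul_le_mul (h2 ω) (k2 ω) (abs_nonneg _) (le_trans (abs_nonneg _) (h2 ω))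
  · intro x y hxy
    simp only
    rw [h3 x y hxy, k3 x y hxy]
  · exact measure_union_null h4 k4
  · intro c w hw
    simp only [Set.mem_union, not_or] at hw
    simp only
    rw [h5 c w hw.1, k5 c w hw.2]

theorem aw30_Nice.add {d : ℕ} {Λ : Finset (Site d)} {g h : Sample d → ℝ}
    (hg : aw30_Nice d Λ g) (hh : aw30_Nice d Λ h) : aw30_Nice d Λ (fun ω => g ω + h ω) := by
  obtain ⟨g', N, C, h1, h2, h3, h4, h5⟩ := hg
  obtain ⟨h', N', C', k1, k2, k3, k4, k5⟩ := hh
  refine ⟨fun ω => g' ω + h' ω, N ∪ N', C + C', h1.add k1, ?_, ?_, ?_, ?_⟩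
  · intro ω
    exact le_trans (abs_add_le _ _) (add_le_add (h2 ω) (k2 ω))
  · intro x y hxy
    simp only
    rw [h3 x y hxy, k3 x y hxy]
  · exact measure_union_null h4 k4
  · intro c w hw
    simp only [Set.mem_union, not_or] at hw
    simp only
    rw [h5 c w hw.1, k5 c w hw.2]

theorem aw30_Nice.const {d : ℕ} (Λ : Finset (Site d)) (a : ℝ) : aw30_Nice d Λ (fun _ => a) :=
  ⟨fun _ => a, ∅, |a|, measurable_const, fun _ => le_rfl, fun _ _ _ => rfl, measure_empty,
    fun _ _ _ => rfl⟩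

theorem aw30_Nice.const_mul {d : ℕ} {Λ : Finset (Site d)} {g : Sample d → ℝ}
    (hg : aw30_Nice d Λ g) (a : ℝ) : aw30_Nice d Λ (fun ω => a * g ω) :=
  (aw30_Nice.const Λ a).mul hg

theorem aw30_Nice.sub {d : ℕ} {Λ : Finset (Site d)} {g h : Sample d → ℝ}
    (hg : aw30_Nice d Λ g) (hh : aw30_Nice d Λ h) : aw30_Nice d Λ (fun ω => g ω - h ω) := by
  have := hg.add (hh.const_mul (-1))
  refine (iff_of_eq ?_).mp this
  congr 1
  funext ω
  ring

theorem aw30_Nice.abs {d : ℕ} {Λ : Finset (Site d)} {g : Sample d → ℝ}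
    (hg : aw30_Nice d Λ g) : aw30_Nice d Λ (fun ω => |g ω|) := by
  obtain ⟨g', N, C, h1, h2, h3, h4, h5⟩ := hg
  refine ⟨fun ω => |g' ω|, N, C, measurable_norm.comp h1, ?_, ?_, h4, ?_⟩
  · intro ω
    rw [abs_abs]
    exact h2 ω
  · intro x y hxy
    simp only
    rw [h3 x y hxy]
  · intro c w hw
    simp only
    rw [h5 c w hw]

theorem aw30_Nice.sum {d : ℕ} {Λ : Finset (Site d)} {ι : Type*} (s : Finset ι)
    {g : ι → Sample d → ℝ} (hg : ∀ i ∈ s, aw30_Nice d Λ (g i)) :
    aw30_Nice d Λ (fun ω => ∑ i ∈ s, g i ω) := by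
  classical
  induction s using Finset.induction_on with
  | empty => simpa using aw30_Nice.const Λ 0
  | insert a s ha ih =>
    have h1 := (hg a (Finset.mem_insert_self _ _)).add
      (ih fun i hi => hg i (Finset.mem_insert_of_mem hi))
    refine (iff_of_eq ?_).mp h1
    congr 1
    funext ω
    rw [Finset.sum_insert ha]

theorem aw30_half : (1 / 2 : ℝ) ∈ Set.Icc (0 : ℝ) 1 := ⟨by norm_num, by norm_num⟩

theorem aw30_ae {d : ℕ} [NeZero d] {g g' : Sample d → ℝ} {N : Set (Site d → Noise d)}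
    (h4 : noises d N = 0) (h5 : ∀ c w, w ∉ N → g (c, w) = g' (c, w)) :
    g =ᵐ[law d (1 / 2)] g' := by
  have := prob_noises d
  have := prob_colours d aw30_half
  have h1 : ((colours d (1 / 2)).prod (noises d)) (Prod.snd ⁻¹' N) = 0 :=
    Measure.quasiMeasurePreserving_snd.preimage_null h4
  change g =ᵐ[(colours d (1 / 2)).prod (noises d)] g'
  rw [Filter.EventuallyEq, ae_iff]
  refine measure_mono_null ?_ h1
  intro ω hω
  by_contra hne
  exact hω (h5 ω.1 ω.2 hne)

theorem aw30_Nice.integrable {d : ℕ} [NeZero d] {Λ : Finset (Site d)} {g : Sample d → ℝ}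
    (hg : aw30_Nice d Λ g) : Integrable g (law d (1 / 2)) := by
  obtain ⟨g', N, C, h1, h2, h3, h4, h5⟩ := hg
  have := prob_law d aw30_half
  have h6 : Integrable g' (law d (1 / 2)) :=
    Integrable.of_bound h1.aestronglyMeasurable C (Filter.Eventually.of_forall fun ω => h2 ω)
  exact h6.congr (aw30_ae h4 h5).symm

theorem aw30_Nice.integrable_slice {d : ℕ} [NeZero d] {Λ : Finset (Site d)} {g : Sample d → ℝ}
    (hg : aw30_Nice d Λ g) (c : Site d → Bool) : Integrable (fun w => g (c, w)) (noises d) := by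
  obtain ⟨g', N, C, h1, h2, h3, h4, h5⟩ := hg
  have := prob_noises d
  have h6 : Integrable (fun w => g' (c, w)) (noises d) :=
    Integrable.of_bound (h1.comp measurable_prodMk_left).aestronglyMeasurable C
      (Filter.Eventually.of_forall fun w => h2 (c, w))
  refine h6.congr ?_
  rw [Filter.EventuallyEq, ae_iff]
  refine measure_mono_null ?_ h4
  intro w hw
  by_contra hne
  exact hw (h5 c w hne).symm

theorem aw30_Nice.fubini {d : ℕ} [NeZero d] {Λ : Finset (Site d)} {g : Sample d → ℝ}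
    (hg : aw30_Nice d Λ g) :
    ∫ ω, g ω ∂(law d (1 / 2)) = ∫ c, ∫ w, g (c, w) ∂(noises d) ∂(colours d (1 / 2)) := by
  have := prob_noises d
  have := prob_colours d aw30_half
  exact integral_prod (μ := colours d (1 / 2)) (ν := noises d) g hg.integrable

theorem aw30_Nice.integrable_left {d : ℕ} [NeZero d] {Λ : Finset (Site d)} {g : Sample d → ℝ}
    (hg : aw30_Nice d Λ g) :
    Integrable (fun c => ∫ w, g (c, w) ∂(noises d)) (colours d (1 / 2)) := by
  have := prob_noises d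
  have := prob_colours d aw30_half
  exact Integrable.integral_prod_left (μ := colours d (1 / 2)) (ν := noises d) hg.integrable

theorem aw30_Nice.le {d : ℕ} [NeZero d] {Λ : Finset (Site d)} {g h : Sample d → ℝ}
    (hg : aw30_Nice d Λ g) (hh : aw30_Nice d Λ h)
    (hle : ∀ c, ∫ w, g (c, w) ∂(noises d) ≤ ∫ w, h (c, w) ∂(noises d)) :
    ∫ ω, g ω ∂(law d (1 / 2)) ≤ ∫ ω, h ω ∂(law d (1 / 2)) := by
  rw [hg.fubini, hh.fubini]
  exact integral_mono hg.integrable_left hh.integrable_left hle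

theorem aw30_field_eq {d : ℕ} (c : Site d → Bool) (w : Site d → Noise d) (Λ : Finset (Site d))
    (t : ℝ) (φ : Site d → ℝ) : field c w Λ t φ = aw30_gf (fun _ => φ) c w Λ t := rfl

theorem aw30_fieldc_eq {d : ℕ} (c : Site d → Bool) (w : Site d → Noise d) (Λ : Finset (Site d))
    (b : Bool) (t : ℝ) (φ : Site d → ℝ) :
    fieldc c w Λ b t φ = aw30_gf (fun b' x => if b' = b then φ x else 0) c w Λ t := rfl

theorem aw30_nice_field (d : ℕ) [NeZero d] (φ : Site d → ℝ) (C : ℝ) (h0 : ∀ x, 0 ≤ φ x)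
    (h : ∀ x, φ x ≤ C) (Λ : Finset (Site d)) (n : ℕ) :
    aw30_Nice d Λ (fun ω => field ω.1 ω.2 Λ n φ) :=
  aw30_nice_gf d (fun _ => φ) C (fun _ x => by rw [abs_of_nonneg (h0 x)]; exact h x) Λ n

theorem aw30_nice_fieldc (d : ℕ) [NeZero d] (φ : Site d → ℝ) (C : ℝ) (h0 : ∀ x, 0 ≤ φ x)
    (h : ∀ x, φ x ≤ C) (b : Bool) (Λ : Finset (Site d)) (n : ℕ) :
    aw30_Nice d Λ (fun ω => fieldc ω.1 ω.2 Λ b n φ) :=
  aw30_nice_gf d (fun b' x => if b' = b then φ x else 0) C (fun b' x => by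
    split_ifs
    · rw [abs_of_nonneg (h0 x)]; exact h x
    · rw [abs_zero]; exact le_trans (h0 x) (h x)) Λ n

theorem aw30_ind_nonneg {d : ℕ} (x y : Site d) : 0 ≤ ind x y := by
  unfold ind; split_ifs <;> norm_num

theorem aw30_ind_le {d : ℕ} (x y : Site d) : ind x y ≤ 1 := by
  unfold ind; split_ifs <;> norm_num

theorem aw30_ker_nonneg (d : ℕ) (t : ℝ) (x : Site d) : 0 ≤ ker d t x := measureReal_nonneg

theorem aw30_ker_le_one (d : ℕ) [NeZero d] (t : ℝ) (x : Site d) : ker d t x ≤ 1 := by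
  have := prob_noiseLaw d
  exact measureReal_le_one

/-- the transition operator applied to the indicator of the origin -/
theorem aw30_PP (d : ℕ) [NeZero d] {t : ℝ} (ht : 0 ≤ t) :
    PP t (ind (0 : Site d)) = fun y => ker d t y := by
  funext y
  rw [PP_ind, zero_sub, ker_neg d ht]

/-- the expectation of the field of the heat kernel at time `N` -/
noncomputable def aw30_e (d N l M : ℕ) : ℝ :=
  ∫ ω, field ω.1 ω.2 (box d M) N (PP (l : ℝ) (ind 0)) ∂(law d (1 / 2))

theorem aw30_tendsto_e (d : ℕ) [NeZero d] (N l : ℕ) :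
    Tendsto (fun M => aw30_e d N l M) atTop (𝓝 (rho d N)) := by
  have h1 : ∀ x : Site d, 0 ≤ PP (l : ℝ) (ind 0) x := by
    intro x
    rw [aw30_PP d (Nat.cast_nonneg l)]
    exact aw30_ker_nonneg _ _ _
  have h2 : HasSum (PP (l : ℝ) (ind (0 : Site d))) 1 := by
    rw [aw30_PP d (Nat.cast_nonneg l)]
    exact hasSum_ker d l
  have h3 := tendsto_field d N (PP (l : ℝ) (ind 0)) h1 h2.summable
  rw [h2.tsum_eq, one_mul] at h3
  exact h3

/-- the second moment of the field of the heat kernel -/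
theorem aw30_sq (d : ℕ) [NeZero d] (N l M : ℕ) (hl : N ≤ l) :
    ∫ ω, field ω.1 ω.2 (box d M) N (PP (l : ℝ) (ind 0)) ^ 2 ∂(law d (1 / 2)) ≤
      aw30_e d N l M ^ 2 + 6 * rho d N ^ 2 := by
  have h1 : ∀ x : Site d, 0 ≤ PP (l : ℝ) (ind 0) x := by
    intro x
    rw [aw30_PP d (Nat.cast_nonneg l)]
    exact aw30_ker_nonneg _ _ _
  obtain ⟨h2, h3⟩ := summable_sq_ker d (t := (l : ℝ)) (Nat.cast_nonneg l)
  have h4 := variance_field d aw30_half (PP (l : ℝ) (ind 0)) h1
    (by rw [aw30_PP d (Nat.cast_nonneg l)]; exact h2) N (box d M)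
  have h5 : ∑' x, PP (l : ℝ) (ind (0 : Site d)) x ^ 2 = ker d (2 * l) 0 := by
    rw [aw30_PP d (Nat.cast_nonneg l)]; exact h3
  rw [h5] at h4
  have h6 : ker d (2 * l) 0 ≤ ker d (2 * N) 0 := by
    apply ker_zero_anti d (by positivity)
    have : (N : ℝ) ≤ l := by exact_mod_cast hl
    linarith
  have h7 := rho_lower d N
  unfold aw30_e
  linarith

/-- the correlation at two times -/
theorem aw30_pair (d : ℕ) [NeZero d] (N n m M : ℕ) (hn : 2 * N < n) (hm : n ≤ m) :
    ∫ ω, field ω.1 ω.2 (box d M) n (ind 0) * field ω.1 ω.2 (box d M) m (ind 0)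
        ∂(law d (1 / 2)) ≤
      (aw30_e d N (n - N) M ^ 2 + aw30_e d N (m - N) M ^ 2) / 2 + 6 * rho d N ^ 2 +
        ker d ((m - n : ℕ) : ℝ) 0 * aw30_e d N (n - N) M := by
  have hk0 : ∀ (l : ℕ) (x : Site d), 0 ≤ PP (l : ℝ) (ind 0) x := by
    intro l x
    rw [aw30_PP d (Nat.cast_nonneg l)]
    exact aw30_ker_nonneg _ _ _
  have hk1 : ∀ (l : ℕ) (x : Site d), PP (l : ℝ) (ind 0) x ≤ 1 := by
    intro l x
    rw [aw30_PP d (Nat.cast_nonneg l)]
    exact aw30_ker_le_one _ _ _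
  have hD : ∀ x : Site d, PP ((m - n : ℕ) : ℝ) (ind 0) x ≤ ker d ((m - n : ℕ) : ℝ) 0 := by
    intro x
    rw [aw30_PP d (Nat.cast_nonneg _)]
    exact ker_le_ker_zero d (Nat.cast_nonneg _) _
  have nf : ∀ t : ℕ, aw30_Nice d (box d M) (fun ω => field ω.1 ω.2 (box d M) t (ind 0)) :=
    fun t => aw30_nice_field d (ind 0) 1 (aw30_ind_nonneg 0) (aw30_ind_le 0) (box d M) t
  have nF : ∀ l : ℕ, aw30_Nice d (box d M)
      (fun ω => field ω.1 ω.2 (box d M) N (PP (l : ℝ) (ind 0))) :=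
    fun l => aw30_nice_field d _ 1 (hk0 l) (hk1 l) (box d M) N
  have step1 : ∫ ω, field ω.1 ω.2 (box d M) n (ind 0) * field ω.1 ω.2 (box d M) m (ind 0)
        ∂(law d (1 / 2)) ≤
      ∫ ω, (field ω.1 ω.2 (box d M) N (PP ((n - N : ℕ) : ℝ) (ind 0)) *
        field ω.1 ω.2 (box d M) N (PP ((m - N : ℕ) : ℝ) (ind 0)) +
        ker d ((m - n : ℕ) : ℝ) 0 * field ω.1 ω.2 (box d M) N (PP ((n - N : ℕ) : ℝ) (ind 0)))
        ∂(law d (1 / 2)) := by
    refine aw30_Nice.le ((nf n).mul (nf m))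
      (((nF (n - N)).mul (nF (m - N))).add ((nF (n - N)).const_mul _)) fun c => ?_
    have h1 := pair_field d c (ind 0) (ind 0) 1 (ker d ((m - n : ℕ) : ℝ) 0) (aw30_ind_nonneg 0)
      (aw30_ind_le 0) (aw30_ind_nonneg 0) (aw30_ind_le 0) (N := N) (n := n) (m := m) (by omega) hm
      hD (box d M)
    refine le_trans h1 (le_of_eq ?_)
    simp only
    rw [integral_add ((nF (n - N)).mul (nF (m - N)) |>.integrable_slice c)
      (((nF (n - N)).const_mul _).integrable_slice c), integral_const_mul]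
  have step2 : ∫ ω, (field ω.1 ω.2 (box d M) N (PP ((n - N : ℕ) : ℝ) (ind 0)) *
        field ω.1 ω.2 (box d M) N (PP ((m - N : ℕ) : ℝ) (ind 0)) +
        ker d ((m - n : ℕ) : ℝ) 0 * field ω.1 ω.2 (box d M) N (PP ((n - N : ℕ) : ℝ) (ind 0)))
        ∂(law d (1 / 2)) ≤
      ∫ ω, ((1 / 2) * field ω.1 ω.2 (box d M) N (PP ((n - N : ℕ) : ℝ) (ind 0)) ^ 2 +
        (1 / 2) * field ω.1 ω.2 (box d M) N (PP ((m - N : ℕ) : ℝ) (ind 0)) ^ 2 +
        ker d ((m - n : ℕ) : ℝ) 0 * field ω.1 ω.2 (box d M) N (PP ((n - N : ℕ) : ℝ) (ind 0)))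
        ∂(law d (1 / 2)) := by
    have n2 : ∀ l : ℕ, aw30_Nice d (box d M)
        (fun ω => (1 / 2) * field ω.1 ω.2 (box d M) N (PP (l : ℝ) (ind 0)) ^ 2) := by
      intro l
      have := ((nF l).mul (nF l)).const_mul (1 / 2)
      refine (iff_of_eq ?_).mp this
      congr 1
      funext ω
      ring
    refine integral_mono (((nF (n - N)).mul (nF (m - N))).add ((nF (n - N)).const_mul _)).integrable
      (((n2 (n - N)).add (n2 (m - N))).add ((nF (n - N)).const_mul _)).integrable fun ω => ?_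
    simp only
    nlinarith [sq_nonneg (field ω.1 ω.2 (box d M) N (PP ((n - N : ℕ) : ℝ) (ind 0)) -
      field ω.1 ω.2 (box d M) N (PP ((m - N : ℕ) : ℝ) (ind 0)))]
  refine le_trans step1 (le_trans step2 ?_)
  have n2 : ∀ l : ℕ, aw30_Nice d (box d M)
      (fun ω => (1 / 2) * field ω.1 ω.2 (box d M) N (PP (l : ℝ) (ind 0)) ^ 2) := by
    intro l
    have := ((nF l).mul (nF l)).const_mul (1 / 2)
    refine (iff_of_eq ?_).mp this
    congr 1
    funext ω
    ring
  rw [integral_add ((n2 (n - N)).add (n2 (m - N))).integrable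
    ((nF (n - N)).const_mul _).integrable, integral_add (n2 (n - N)).integrable
    (n2 (m - N)).integrable, integral_const_mul, integral_const_mul, integral_const_mul]
  have h1 := aw30_sq d N (n - N) M (by omega)
  have h2 := aw30_sq d N (m - N) M (by omega)
  have h3 : ∫ ω, field ω.1 ω.2 (box d M) N (PP ((n - N : ℕ) : ℝ) (ind 0)) ∂(law d (1 / 2)) =
    aw30_e d N (n - N) M := rfl
  rw [h3]
  linarith

theorem aw30_green_nonneg (d n : ℕ) : 0 ≤ green d n :=
  Finset.sum_nonneg fun _ _ => aw30_ker_nonneg _ _ _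

/-- sum of the kernel over the differences -/
theorem aw30_sum_ker (d N n : ℕ) (hn : n ∈ Finset.Ioc (2 * N) (3 * N)) :
    ∑ m ∈ Finset.Ioc (2 * N) (3 * N), ker d ((max n m - min n m : ℕ) : ℝ) 0 ≤ 2 * green d N := by
  rw [Finset.mem_Ioc] at hn
  have h1 : ∀ s : Finset ℕ, (∀ m ∈ s, m ∈ Finset.Ioc (2 * N) (3 * N)) →
      Set.InjOn (fun m : ℕ => max n m - min n m) s →
      ∑ m ∈ s, ker d ((max n m - min n m : ℕ) : ℝ) 0 ≤ green d N := by
    intro s hs hinj
    rw [← Finset.sum_image (f := fun j : ℕ => ker d (j : ℝ) 0) (g := fun m => max n m - min n m)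
      hinj]
    refine Finset.sum_le_sum_of_subset_of_nonneg ?_ fun _ _ _ => aw30_ker_nonneg _ _ _
    intro j hj
    rw [Finset.mem_image] at hj
    obtain ⟨m, hm, rfl⟩ := hj
    have := hs m hm
    rw [Finset.mem_Ioc] at this
    rw [Finset.mem_range]
    omega
  rw [← Finset.sum_filter_add_sum_filter_not (Finset.Ioc (2 * N) (3 * N)) (fun m : ℕ => m ≤ n)]
  rw [two_mul (green d N)]
  refine add_le_add
    (h1 ((Finset.Ioc (2 * N) (3 * N)).filter fun m => m ≤ n)
      (fun m hm => (Finset.mem_filter.1 hm).1) ?_)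
    (h1 ((Finset.Ioc (2 * N) (3 * N)).filter fun m => ¬ m ≤ n)
      (fun m hm => (Finset.mem_filter.1 hm).1) ?_)
  · intro a ha b hb hab
    have ha' := (Finset.mem_filter.1 (Finset.mem_coe.1 ha)).2
    have hb' := (Finset.mem_filter.1 (Finset.mem_coe.1 hb)).2
    simp only at hab
    omega
  · intro a ha b hb hab
    have ha' := (Finset.mem_filter.1 (Finset.mem_coe.1 ha)).2
    have hb' := (Finset.mem_filter.1 (Finset.mem_coe.1 hb)).2
    simp only at hab
    omega

/-- the second moment of the number of particles at the origin at the times `2N < n ≤ 3N` -/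
theorem second_moment (d : ℕ) [NeZero d] (N : ℕ) :
    ∀ᶠ M : ℕ in atTop,
      ∫ ω, (∑ n ∈ Finset.Ioc (2 * N) (3 * N), field ω.1 ω.2 (box d M) n (ind 0)) ^ 2
        ∂(law d (1 / 2)) ≤ 8 * (N * rho d N) ^ 2 + 3 * N * green d N * rho d N := by
  have hrho := rho_pos d N
  have hg := aw30_green_nonneg d N
  have hev : ∀ᶠ M : ℕ in atTop, ∀ l ∈ Finset.Ioc N (2 * N), |aw30_e d N l M| < 5 / 4 * rho d N := by
    rw [Filter.eventually_all_finset]
    intro l _
    have h1 := (aw30_tendsto_e d N l).abs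
    rw [abs_of_pos hrho] at h1
    exact h1.eventually_lt_const (by linarith)
  filter_upwards [hev] with M hM
  have nf : ∀ t : ℕ, aw30_Nice d (box d M) (fun ω => field ω.1 ω.2 (box d M) t (ind 0)) :=
    fun t => aw30_nice_field d (ind 0) 1 (aw30_ind_nonneg 0) (aw30_ind_le 0) (box d M) t
  have hpair : ∀ n ∈ Finset.Ioc (2 * N) (3 * N), ∀ m ∈ Finset.Ioc (2 * N) (3 * N), n ≤ m →
      ∫ ω, field ω.1 ω.2 (box d M) n (ind 0) * field ω.1 ω.2 (box d M) m (ind 0)
        ∂(law d (1 / 2)) ≤ 8 * rho d N ^ 2 +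
          5 / 4 * rho d N * ker d ((m - n : ℕ) : ℝ) 0 := by
    intro n hn m hm hnm
    rw [Finset.mem_Ioc] at hn hm
    have h1 := aw30_pair d N n m M hn.1 hnm
    have h2 := hM (n - N) (Finset.mem_Ioc.2 ⟨by omega, by omega⟩)
    have h3 := hM (m - N) (Finset.mem_Ioc.2 ⟨by omega, by omega⟩)
    have h4 : aw30_e d N (n - N) M ^ 2 ≤ (5 / 4 * rho d N) ^ 2 := by
      rw [← sq_abs]
      exact pow_le_pow_left₀ (abs_nonneg _) h2.le 2
    have h5 : aw30_e d N (m - N) M ^ 2 ≤ (5 / 4 * rho d N) ^ 2 := by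
      rw [← sq_abs]
      exact pow_le_pow_left₀ (abs_nonneg _) h3.le 2
    have h6 : ker d ((m - n : ℕ) : ℝ) 0 * aw30_e d N (n - N) M ≤
        ker d ((m - n : ℕ) : ℝ) 0 * (5 / 4 * rho d N) :=
      mul_le_mul_of_nonneg_left (le_trans (le_abs_self _) h2.le) (aw30_ker_nonneg _ _ _)
    nlinarith [sq_nonneg (rho d N)]
  have hpair' : ∀ n ∈ Finset.Ioc (2 * N) (3 * N), ∀ m ∈ Finset.Ioc (2 * N) (3 * N),
      ∫ ω, field ω.1 ω.2 (box d M) n (ind 0) * field ω.1 ω.2 (box d M) m (ind 0)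
        ∂(law d (1 / 2)) ≤ 8 * rho d N ^ 2 +
          5 / 4 * rho d N * ker d ((max n m - min n m : ℕ) : ℝ) 0 := by
    intro n hn m hm
    rcases le_total n m with h | h
    · rw [max_eq_right h, min_eq_left h]
      exact hpair n hn m hm h
    · rw [max_eq_left h, min_eq_right h]
      refine le_trans (le_of_eq ?_) (hpair m hm n hn h)
      congr 1
      funext ω
      ring
  have e1 : ∫ ω, (∑ n ∈ Finset.Ioc (2 * N) (3 * N), field ω.1 ω.2 (box d M) n (ind 0)) ^ 2
        ∂(law d (1 / 2)) = ∑ n ∈ Finset.Ioc (2 * N) (3 * N), ∑ m ∈ Finset.Ioc (2 * N) (3 * N),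
      ∫ ω, field ω.1 ω.2 (box d M) n (ind 0) * field ω.1 ω.2 (box d M) m (ind 0)
        ∂(law d (1 / 2)) := by
    simp only [sq, Finset.sum_mul_sum]
    rw [integral_finsetSum _ fun n _ =>
      (aw30_Nice.sum _ fun m _ => (nf n).mul (nf m)).integrable]
    refine Finset.sum_congr rfl fun n _ => ?_
    rw [integral_finsetSum _ fun m _ => ((nf n).mul (nf m)).integrable]
  rw [e1]
  have e2 : ∑ n ∈ Finset.Ioc (2 * N) (3 * N), ∑ m ∈ Finset.Ioc (2 * N) (3 * N),
      ∫ ω, field ω.1 ω.2 (box d M) n (ind 0) * field ω.1 ω.2 (box d M) m (ind 0)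
        ∂(law d (1 / 2)) ≤ ∑ n ∈ Finset.Ioc (2 * N) (3 * N),
          (N * (8 * rho d N ^ 2) + 5 / 4 * rho d N * (2 * green d N)) := by
    refine Finset.sum_le_sum fun n hn => ?_
    refine le_trans (Finset.sum_le_sum fun m hm => hpair' n hn m hm) ?_
    rw [Finset.sum_add_distrib, Finset.sum_const, ← Finset.mul_sum, Nat.card_Ioc, nsmul_eq_mul]
    have h1 := mul_le_mul_of_nonneg_left (aw30_sum_ker d N n hn)
      (by positivity : 0 ≤ 5 / 4 * rho d N)
    have h2 : 3 * N - 2 * N = N := by omega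
    rw [h2]
    linarith
  refine le_trans e2 ?_
  rw [Finset.sum_const, Nat.card_Ioc, nsmul_eq_mul, show 3 * N - 2 * N = N by omega]
  have h1 : 0 ≤ (N : ℝ) * green d N * rho d N := by positivity
  nlinarith

theorem aw30_prob_colourLaw {p : ℝ} (hp : p ∈ Set.Icc (0 : ℝ) 1) :
    IsProbabilityMeasure (colourLaw p) := by
  constructor
  unfold colourLaw
  rw [Measure.add_apply, Measure.smul_apply, Measure.smul_apply, measure_univ, measure_univ,
    smul_eq_mul, smul_eq_mul, mul_one, mul_one, ← ENNReal.ofReal_add hp.1 (by linarith [hp.2])]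
  simp

theorem aw30_flip_colourLaw : (colourLaw (1 / 2)).map not = colourLaw (1 / 2) := by
  have h : Measurable not := Measurable.of_discrete
  unfold colourLaw
  rw [Measure.map_add _ _ h, Measure.map_smul, Measure.map_smul, Measure.map_dirac' h,
    Measure.map_dirac' h]
  norm_num
  rw [add_comm]

theorem aw30_flip_colours (d : ℕ) :
    MeasurePreserving (fun (c : Site d → Bool) i => !(c i)) (colours d (1 / 2))
      (colours d (1 / 2)) := by
  have := aw30_prob_colourLaw aw30_half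
  refine ⟨?_, ?_⟩
  · exact measurable_pi_lambda _ fun i =>
      (Measurable.of_discrete (f := not)).comp (measurable_pi_apply i)
  · unfold colours
    rw [Measure.infinitePi_map_pi (fun _ : Site d => colourLaw (1 / 2)) (f := fun _ => not)
      (fun _ => Measurable.of_discrete)]
    congr 1
    funext _
    exact aw30_flip_colourLaw

theorem aw30_fieldc_flip {d : ℕ} (c : Site d → Bool) (w : Site d → Noise d)
    (Λ : Finset (Site d)) (b : Bool) (t : ℝ) (φ : Site d → ℝ) :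
    fieldc (fun i => !(c i)) w Λ b t φ = fieldc c w Λ (!b) t φ := by
  unfold fieldc
  rw [alive_flip]
  refine Finset.sum_congr rfl fun i _ => ?_
  change (if (!(c i)) = b then φ (pos w t i) else 0) = (if c i = !b then φ (pos w t i) else 0)
  generalize c i = e
  cases e <;> cases b <;> simp

theorem aw30_fieldc_add {d : ℕ} (c : Site d → Bool) (w : Site d → Noise d)
    (Λ : Finset (Site d)) (b : Bool) (t : ℝ) (φ : Site d → ℝ) :
    field c w Λ t φ = fieldc c w Λ b t φ + fieldc c w Λ (!b) t φ := by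
  unfold fieldc field
  rw [← Finset.sum_add_distrib]
  refine Finset.sum_congr rfl fun i _ => ?_
  cases c i <;> cases b <;> simp

theorem aw30_half_dens (d : ℕ) [NeZero d] (Λ : Finset (Site d)) (b : Bool) (n : ℕ) :
    ∫ ω, fieldc ω.1 ω.2 Λ b n (ind 0) ∂(law d (1 / 2)) = dens d Λ n 0 / 2 := by
  have nc : ∀ b, aw30_Nice d Λ (fun ω => fieldc ω.1 ω.2 Λ b n (ind 0)) :=
    fun b => aw30_nice_fieldc d (ind 0) 1 (aw30_ind_nonneg 0) (aw30_ind_le 0) b Λ n
  have := prob_noises d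
  have := prob_colours d aw30_half
  have h1 : ∫ ω, fieldc ω.1 ω.2 Λ (!b) n (ind 0) ∂(law d (1 / 2)) =
      ∫ ω, fieldc ω.1 ω.2 Λ b n (ind 0) ∂(law d (1 / 2)) := by
    rw [(nc (!b)).fubini, (nc b).fubini]
    have h2 : ∀ c : Site d → Bool, ∫ w, fieldc c w Λ (!b) n (ind 0) ∂(noises d) =
        ∫ w, fieldc (fun i => !(c i)) w Λ b n (ind 0) ∂(noises d) := by
      intro c
      refine integral_congr_ae (Filter.Eventually.of_forall fun w => ?_)
      exact (aw30_fieldc_flip c w Λ b n (ind 0)).symm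
    simp only [h2]
    have h3 := (aw30_flip_colours d).integral_comp'
      (f := MeasurableEquiv.piCongrRight fun _ : Site d =>
        (⟨Equiv.boolNot, Measurable.of_discrete, Measurable.of_discrete⟩ : Bool ≃ᵐ Bool))
      (fun c => ∫ w, fieldc c w Λ b n (ind 0) ∂(noises d))
    exact h3
  unfold dens
  have h4 : ∫ ω, field ω.1 ω.2 Λ n (ind 0) ∂(law d (1 / 2)) =
      ∫ ω, (fieldc ω.1 ω.2 Λ b n (ind 0) + fieldc ω.1 ω.2 Λ (!b) n (ind 0)) ∂(law d (1 / 2)) := by
    refine integral_congr_ae (Filter.Eventually.of_forall fun ω => ?_)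
    exact aw30_fieldc_add _ _ _ _ _ _
  rw [h4, integral_add (nc b).integrable (nc (!b)).integrable, h1]
  ring

/-- the first moment on an event that depends on finitely many coordinates -/
theorem first_moment (d : ℕ) [NeZero d] (N : ℕ) (b : Bool) (F : Finset (Site d))
    (A : Set (Sample d)) (hA : MeasurableSet A)
    (hAF : ∀ x y : Sample d, (∀ i ∈ F, x.1 i = y.1 i ∧ x.2 i = y.2 i) → (x ∈ A ↔ y ∈ A)) (M : ℕ)
    (hM : F ⊆ box d M) :
    (law d (1 / 2)).real A * (∑ n ∈ Finset.Ioc (2 * N) (3 * N), dens d (box d M) n 0 / 2) -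
        2 * F.card * N * ker d (2 * N) 0 ≤
      ∫ ω in A, (∑ n ∈ Finset.Ioc (2 * N) (3 * N), fieldc ω.1 ω.2 (box d M) b n (ind 0))
        ∂(law d (1 / 2)) := by
  have := prob_law d aw30_half
  have := prob_noiseLaw d
  have := aw30_prob_colourLaw aw30_half
  set Λ' := box d M \ F with hΛ'
  have hU : Λ' ∪ F = box d M := Finset.sdiff_union_of_subset hM
  have hD : F \ Λ' = F := by
    rw [hΛ']
    ext i
    simp only [Finset.mem_sdiff, not_and, not_not]
    exact ⟨fun h => h.1, fun h => ⟨h, fun _ => h⟩⟩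
  have hsub : Λ' ⊆ box d M := Finset.sdiff_subset
  have nc : ∀ n : ℕ, aw30_Nice d (box d M) (fun ω => fieldc ω.1 ω.2 (box d M) b n (ind 0)) :=
    fun n => aw30_nice_fieldc d (ind 0) 1 (aw30_ind_nonneg 0) (aw30_ind_le 0) b _ n
  have nc' : ∀ n : ℕ, aw30_Nice d Λ' (fun ω => fieldc ω.1 ω.2 Λ' b n (ind 0)) :=
    fun n => aw30_nice_fieldc d (ind 0) 1 (aw30_ind_nonneg 0) (aw30_ind_le 0) b _ n
  have nR := aw30_Nice.sum (Finset.Ioc (2 * N) (3 * N)) (fun n _ => nc n)
  have nR' := aw30_Nice.sum (Finset.Ioc (2 * N) (3 * N)) (fun n _ => nc' n)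
  set R : Sample d → ℝ := fun ω =>
    ∑ n ∈ Finset.Ioc (2 * N) (3 * N), fieldc ω.1 ω.2 (box d M) b n (ind 0) with hR
  set R' : Sample d → ℝ := fun ω =>
    ∑ n ∈ Finset.Ioc (2 * N) (3 * N), fieldc ω.1 ω.2 Λ' b n (ind 0) with hR'
  -- the expected difference
  have hdiff1 : ∀ n ∈ Finset.Ioc (2 * N) (3 * N),
      ∫ ω, |fieldc ω.1 ω.2 (box d M) b n (ind 0) - fieldc ω.1 ω.2 Λ' b n (ind 0)|
        ∂(law d (1 / 2)) ≤ F.card * ker d (2 * N) 0 := by
    intro n hn
    rw [Finset.mem_Ioc] at hn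
    have h1 := aw30_Nice.le ((nc n).sub ((nc' n).mono hsub)).abs
      (aw30_Nice.const (box d M) (F.card * ker d (2 * N) 0)) (fun c => by
        have h2 := fieldc_union d c (ind 0) 1 (aw30_ind_nonneg 0) (aw30_ind_le 0) n b Λ' F
        rw [hU, hD] at h2
        refine le_trans h2 ?_
        have := prob_noises d
        rw [integral_const, probReal_univ, one_smul, ← nsmul_eq_mul]
        refine Finset.sum_le_card_nsmul _ _ _ fun i _ => ?_
        have h3 : ∫ v, ind 0 (i + walk v n) ∂(noiseLaw d) = ker d n (0 - i) := PP_ind d n 0 i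
        rw [h3]
        refine le_trans (ker_le_ker_zero d (Nat.cast_nonneg n) _) ?_
        apply ker_zero_anti d (by positivity)
        exact_mod_cast hn.1.le)
    refine le_trans h1 ?_
    rw [integral_const, probReal_univ, one_smul]
  have hdiff : ∫ ω, |R ω - R' ω| ∂(law d (1 / 2)) ≤ N * (F.card * ker d (2 * N) 0) := by
    have h1 : ∫ ω, |R ω - R' ω| ∂(law d (1 / 2)) ≤
        ∫ ω, ∑ n ∈ Finset.Ioc (2 * N) (3 * N),
          |fieldc ω.1 ω.2 (box d M) b n (ind 0) - fieldc ω.1 ω.2 Λ' b n (ind 0)|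
          ∂(law d (1 / 2)) := by
      refine integral_mono (nR.sub (nR'.mono hsub)).abs.integrable
        (aw30_Nice.sum (Finset.Ioc (2 * N) (3 * N))
          (fun n _ => ((nc n).sub ((nc' n).mono hsub)).abs)).integrable fun ω => ?_
      simp only [hR, hR']
      rw [← Finset.sum_sub_distrib]
      exact Finset.abs_sum_le_sum_abs _ _
    refine le_trans h1 ?_
    rw [integral_finsetSum _ fun n _ => ((nc n).sub ((nc' n).mono hsub)).abs.integrable]
    refine le_trans (Finset.sum_le_card_nsmul _ _ _ hdiff1) (le_of_eq ?_)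
    rw [Nat.card_Ioc, nsmul_eq_mul, show 3 * N - 2 * N = N by omega]
  -- independence
  have hind : ∫ ω in A, R' ω ∂(law d (1 / 2)) =
      (∫ ω, R' ω ∂(law d (1 / 2))) * (law d (1 / 2)).real A := by
    obtain ⟨g', N', C, h1, h2, h3, h4, h5⟩ := nR'
    have hae := aw30_ae h4 h5
    have h6 : Integrable g' (law d (1 / 2)) :=
      Integrable.of_bound h1.aestronglyMeasurable C (Filter.Eventually.of_forall fun ω => h2 ω)
    have h7 := indep_coord (colourLaw (1 / 2)) (noiseLaw d) F g' A h1 h6 hA (by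
      intro x y hxy
      refine h3 x y fun i hi => hxy i ?_
      rw [hΛ', Finset.mem_sdiff] at hi
      exact hi.2) hAF
    have h8 : ∫ ω in A, R' ω ∂(law d (1 / 2)) = ∫ ω in A, g' ω ∂(law d (1 / 2)) :=
      integral_congr_ae (ae_restrict_of_ae hae)
    have h9 : ∫ ω, R' ω ∂(law d (1 / 2)) = ∫ ω, g' ω ∂(law d (1 / 2)) := integral_congr_ae hae
    rw [h8, h9]
    exact h7
  have hRe : ∫ ω, R ω ∂(law d (1 / 2)) =
      ∑ n ∈ Finset.Ioc (2 * N) (3 * N), dens d (box d M) n 0 / 2 := by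
    simp only [hR]
    rw [integral_finsetSum _ fun n _ => (nc n).integrable]
    exact Finset.sum_congr rfl fun n _ => aw30_half_dens d _ b n
  have nR'' := nR'.mono hsub
  have k1 : ∫ ω in A, R' ω ∂(law d (1 / 2)) - ∫ ω in A, R ω ∂(law d (1 / 2)) ≤
      ∫ ω, |R ω - R' ω| ∂(law d (1 / 2)) := by
    rw [← integral_sub nR''.integrable.integrableOn nR.integrable.integrableOn]
    refine le_trans (integral_mono (g := fun ω => |R ω - R' ω|)
      (nR''.integrable.sub nR.integrable).integrableOn (nR.sub nR'').abs.integrable.integrableOn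
      fun ω => ?_) ?_
    · simp only
      rw [abs_sub_comm]
      exact le_abs_self _
    · exact setIntegral_le_integral (nR.sub nR'').abs.integrable
        (Filter.Eventually.of_forall fun ω => abs_nonneg _)
  have k2 : ∫ ω, R ω ∂(law d (1 / 2)) - ∫ ω, R' ω ∂(law d (1 / 2)) ≤
      ∫ ω, |R ω - R' ω| ∂(law d (1 / 2)) := by
    rw [← integral_sub nR.integrable nR''.integrable]
    refine integral_mono (nR.integrable.sub nR''.integrable) (nR.sub nR'').abs.integrable fun ω => ?_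
    exact le_abs_self _
  have k3 : (law d (1 / 2)).real A ≤ 1 := measureReal_le_one
  have k4 : 0 ≤ (law d (1 / 2)).real A := measureReal_nonneg
  have k5 : 0 ≤ ∫ ω, |R ω - R' ω| ∂(law d (1 / 2)) := integral_nonneg fun ω => abs_nonneg _
  rw [← hRe]
  rw [hind] at k1
  nlinarith [mul_le_mul_of_nonneg_left k2 k4, mul_le_mul_of_nonneg_right k3 k5]

end Pool.Agent.H285
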