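import Pool.Agent.H285.Base2
import Pool.Agent.H285.AW24
import Pool.Agent.H285.AW20

/-!
# AW31 (MP_0e9fac_pr)
-/



open MeasureTheory ProbabilityTheory Filter Topology

namespace Pool.Agent.H285


/- ======== TARGETS ======== -/

lemma aw31_meas_jumps {d : ℕ} (t : ℝ) : Measurable (fun w : Noise d => jumps w t) := by
  have hS : ∀ n : ℕ, MeasurableSet {w : Noise d | t < ∑ k ∈ Finset.range (n + 1), w.1 k} := by
    intro n
    refine measurableSet_lt measurable_const ?_
    refine Finset.measurable_sum _ fun k _ => ?_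
    exact (measurable_pi_apply k).comp measurable_fst
  refine measurable_to_countable' fun m => ?_
  have hEq : (fun w : Noise d => jumps w t) ⁻¹' {m} =
      ({w : Noise d | t < ∑ k ∈ Finset.range (m + 1), w.1 k} ∩
        ⋂ n ∈ Finset.range m, {w : Noise d | t < ∑ k ∈ Finset.range (n + 1), w.1 k}ᶜ) ∪
      (if m = 0 then ⋂ n : ℕ, {w : Noise d | t < ∑ k ∈ Finset.range (n + 1), w.1 k}ᶜ else ∅) := by
    ext w
    simp only [Set.mem_preimage, Set.mem_singleton_iff, Set.mem_union, Set.mem_inter_iff]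
    set E : Set ℕ := {n : ℕ | t < ∑ k ∈ Finset.range (n + 1), w.1 k} with hE
    have hj : jumps w t = sInf E := rfl
    rw [hj]
    constructor
    · intro h
      rcases Set.eq_empty_or_nonempty E with h0 | h0
      · right
        rw [h0, Nat.sInf_empty] at h
        rw [if_pos h.symm]
        refine Set.mem_iInter.2 fun n hn => ?_
        have : n ∈ E := hn
        rw [h0] at this
        exact this
      · left
        have hm : sInf E ∈ E := Nat.sInf_mem h0
        rw [h] at hm
        refine ⟨hm, ?_⟩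
        simp only [Set.mem_iInter]
        intro n hn hn2
        rw [Finset.mem_range, ← h] at hn
        exact Nat.notMem_of_lt_sInf hn hn2
    · rintro (⟨h1, h2⟩ | h1)
      · simp only [Set.mem_iInter] at h2
        apply le_antisymm
        · exact Nat.sInf_le h1
        · by_contra hcon
          rw [not_le] at hcon
          have hm : sInf E ∈ E := Nat.sInf_mem ⟨m, h1⟩
          exact h2 _ (Finset.mem_range.2 hcon) hm
      · by_cases hm : m = 0
        · rw [if_pos hm] at h1
          have h0 : E = ∅ := by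
            rw [Set.eq_empty_iff_forall_notMem]
            intro n hn
            exact (Set.mem_iInter.1 h1 n) hn
          rw [h0, Nat.sInf_empty, hm]
        · rw [if_neg hm] at h1
          exact absurd h1 (Set.notMem_empty _)
  rw [hEq]
  refine MeasurableSet.union ((hS m).inter ?_) ?_
  · exact Finset.measurableSet_biInter _ fun n _ => (hS n).compl
  · by_cases hm : m = 0
    · rw [if_pos hm]
      exact MeasurableSet.iInter fun n => (hS n).compl
    · rw [if_neg hm]
      exact MeasurableSet.empty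

lemma aw31_meas_walk {d : ℕ} (t : ℝ) : Measurable (fun w : Noise d => walk w t) := by
  refine measurable_to_countable' fun y => ?_
  have hEq : (fun w : Noise d => walk w t) ⁻¹' {y} =
      ⋃ m : ℕ, ((fun w : Noise d => jumps w t) ⁻¹' {m}) ∩
        ((fun w : Noise d => ∑ k ∈ Finset.range m, unitVec (w.2 k)) ⁻¹' {y}) := by
    ext w
    simp only [Set.mem_preimage, Set.mem_singleton_iff, Set.mem_iUnion, Set.mem_inter_iff]
    constructor
    · intro h
      exact ⟨jumps w t, rfl, h⟩
    · rintro ⟨m, h1, h2⟩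
      unfold walk
      rw [h1]
      exact h2
  rw [hEq]
  refine MeasurableSet.iUnion fun m => ?_
  refine (aw31_meas_jumps t (MeasurableSet.singleton m)).inter ?_
  have hm : Measurable (fun w : Noise d => ∑ k ∈ Finset.range m, unitVec (w.2 k)) := by
    refine Finset.measurable_sum _ fun k _ => ?_
    exact (Measurable.of_discrete (f := fun u : Dir d => unitVec u)).comp
      ((measurable_pi_apply k).comp measurable_snd)
  exact hm (MeasurableSet.singleton y)

/-- the version of the field -/
noncomputable def aw31_G {d : ℕ} (A : (Site d → Bool) × (Site d → Noise d) → Finset (Site d))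
    (b : Bool) (n : ℕ) (x : Site d) (ω : (Site d → Bool) × (Site d → Noise d)) : ℝ :=
  ∑ i ∈ A ω, if ω.1 i = b then ind x (pos ω.2 n i) else 0

lemma aw31_meas_G {d : ℕ} {A : (Site d → Bool) × (Site d → Noise d) → Finset (Site d)}
    {Λ : Finset (Site d)} (hA : ∀ B : Finset (Site d), MeasurableSet {ω | A ω = B})
    (hsub : ∀ ω, A ω ⊆ Λ) (b : Bool) (n : ℕ) (x : Site d) : Measurable (aw31_G A b n x) := by
  classical
  have hterm : ∀ i : Site d, Measurable (fun ω : (Site d → Bool) × (Site d → Noise d) =>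
      if ω.1 i = b then ind x (pos ω.2 n i) else 0) := by
    intro i
    have h1 : Measurable (fun ω : (Site d → Bool) × (Site d → Noise d) => ω.1 i) :=
      (measurable_pi_apply i).comp measurable_fst
    have h2 : Measurable (fun ω : (Site d → Bool) × (Site d → Noise d) => walk (ω.2 i) n) :=
      (aw31_meas_walk _).comp ((measurable_pi_apply i).comp measurable_snd)
    have h3 : Measurable (fun ω : (Site d → Bool) × (Site d → Noise d) =>
        ind x (pos ω.2 n i)) :=
      (Measurable.of_discrete (f := fun y : Site d => ind x (i + y))).comp h2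
    exact Measurable.ite (h1 (MeasurableSet.singleton b)) h3 measurable_const
  have hEq : aw31_G A b n x = fun ω => ∑ B ∈ Λ.powerset,
      Set.indicator {ω | A ω = B} (fun ω : (Site d → Bool) × (Site d → Noise d) =>
        ∑ i ∈ B, if ω.1 i = b then ind x (pos ω.2 n i) else 0) ω := by
    funext ω
    rw [Finset.sum_eq_single (A ω)]
    · rw [Set.indicator_of_mem (by exact rfl)]
      rfl
    · intro B _ hB
      rw [Set.indicator_of_notMem]
      exact fun h => hB h.symm
    · intro h
      exact absurd (Finset.mem_powerset.2 (hsub ω)) h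
  rw [hEq]
  refine Finset.measurable_sum _ fun B _ => ?_
  exact (Finset.measurable_sum _ fun i _ => hterm i).indicator (hA B)

lemma aw31_ind_nonneg {d : ℕ} (x y : Site d) : 0 ≤ ind x y := by
  unfold ind; split_ifs <;> norm_num

lemma aw31_ind_le {d : ℕ} (x y : Site d) : ind x y ≤ 1 := by
  unfold ind; split_ifs <;> norm_num

lemma aw31_G_bound {d : ℕ} {A : (Site d → Bool) × (Site d → Noise d) → Finset (Site d)}
    {Λ : Finset (Site d)} (hsub : ∀ ω, A ω ⊆ Λ) (b : Bool) (n : ℕ) (x : Site d)
    (ω : (Site d → Bool) × (Site d → Noise d)) : |aw31_G A b n x ω| ≤ Λ.card := by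
  unfold aw31_G
  refine (Finset.abs_sum_le_sum_abs _ _).trans ?_
  have h1 : ∀ i ∈ A ω, |if ω.1 i = b then ind x (pos ω.2 n i) else 0| ≤ (1 : ℝ) := by
    intro i _
    split_ifs
    · rw [abs_of_nonneg (aw31_ind_nonneg _ _)]
      exact aw31_ind_le _ _
    · simp
  refine (Finset.sum_le_card_nsmul _ _ _ h1).trans ?_
  rw [nsmul_eq_mul, mul_one]
  exact_mod_cast Finset.card_le_card (hsub ω)

lemma aw31_int {d : ℕ} (c : Site d → Bool) (w : Site d → Noise d) (Λ : Finset (Site d))
    (b : Bool) (n : ℕ) (x : Site d) : ∃ k : ℤ, fieldc c w Λ b n (ind x) = k := by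
  classical
  refine ⟨∑ i ∈ alive c w Λ n, if c i = b then (if pos w n i = x then 1 else 0) else 0, ?_⟩
  unfold fieldc ind
  push_cast
  rfl

lemma aw31_box_mono (d M : ℕ) : box d M ⊆ box d (M + 1) := by
  unfold box
  refine Finset.Icc_subset_Icc ?_ ?_ <;> intro k <;> push_cast <;> omega

lemma aw31_ker (d : ℕ) [NeZero d] (n : ℕ) (x i : Site d) :
    ∫ v, ind x (i + walk v n) ∂(noiseLaw d) = ker d n (x - i) := by
  have h1 : ∀ v : Noise d, ind x (i + walk v n) =
      Set.indicator {v : Noise d | walk v n = x - i} (fun _ => (1 : ℝ)) v := by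
    intro v
    unfold ind
    by_cases h : i + walk v n = x
    · rw [if_pos h, Set.indicator_of_mem]
      show walk v n = x - i
      rw [← h]; simp
    · rw [if_neg h, Set.indicator_of_notMem]
      intro h'
      have h'' : walk v n = x - i := h'
      exact h (by rw [h'']; simp)
  simp_rw [h1]
  have hms : MeasurableSet {v : Noise d | walk v n = x - i} :=
    aw31_meas_walk n (MeasurableSet.singleton _)
  rw [integral_indicator_const _ hms, smul_eq_mul, mul_one]
  rfl

lemma aw31_ker_nonneg (d : ℕ) (n : ℕ) (x : Site d) : 0 ≤ ker d n x := measureReal_nonneg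

lemma aw31_sum_ker (d : ℕ) [NeZero d] (n : ℕ) (x : Site d) (B : Finset (Site d)) :
    ∑ i ∈ B, ker d n (x - i) ≤ 1 := by
  have h0 : HasSum (fun y => ker d (n : ℝ) y) 1 := hasSum_ker d n
  have h1 : HasSum ((fun y => ker d (n : ℝ) y) ∘ (Equiv.subLeft x)) 1 :=
    (Equiv.subLeft x).hasSum_iff.2 h0
  have h3 : ∀ i ∉ B, 0 ≤ ((fun y => ker d (n : ℝ) y) ∘ (Equiv.subLeft x)) i := fun i _ =>
    aw31_ker_nonneg d n (x - i)
  exact sum_le_hasSum B h3 h1

lemma aw31_step (d : ℕ) [NeZero d] {p : ℝ} (hp : p ∈ Set.Icc (0 : ℝ) 1) (n : ℕ) (x : Site d)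
    (b : Bool) (M : ℕ) :
    AEMeasurable (fun ω : Sample d => ENNReal.ofReal
      |fieldc ω.1 ω.2 (box d (M + 1)) b n (ind x) - fieldc ω.1 ω.2 (box d M) b n (ind x)|)
      (law d p) ∧
    ∫⁻ ω, ENNReal.ofReal
      |fieldc ω.1 ω.2 (box d (M + 1)) b n (ind x) - fieldc ω.1 ω.2 (box d M) b n (ind x)|
      ∂(law d p) ≤ ENNReal.ofReal (∑ i ∈ box d (M + 1) \ box d M, ker d n (x - i)) := by
  have i1 := prob_noises d
  have i2 := prob_colours d hp
  have hlaw : law d p = (colours d p).prod (noises d) := rfl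
  obtain ⟨A, N, hA, hAs, -, hN, hAe⟩ := exists_version d (box d M) n
  obtain ⟨A', N', hA', hAs', -, hN', hAe'⟩ := exists_version d (box d (M + 1)) n
  have hG := aw31_meas_G hA hAs b n x
  have hG' := aw31_meas_G hA' hAs' b n x
  have e1 : ∀ c w, w ∉ N → fieldc c w (box d M) b n (ind x) = aw31_G A b n x (c, w) := by
    intro c w hw
    unfold fieldc aw31_G
    rw [hAe c w hw]
  have e2 : ∀ c w, w ∉ N' → fieldc c w (box d (M + 1)) b n (ind x) =
      aw31_G A' b n x (c, w) := by
    intro c w hw
    unfold fieldc aw31_G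
    rw [hAe' c w hw]
  have hNN : ∀ᵐ w ∂(noises d), w ∉ N ∧ w ∉ N' :=
    (measure_eq_zero_iff_ae_notMem.1 hN).and (measure_eq_zero_iff_ae_notMem.1 hN')
  have hNNp : ∀ᵐ ω ∂(law d p), ω.2 ∉ N ∧ ω.2 ∉ N' := by
    rw [hlaw]
    exact Measure.quasiMeasurePreserving_snd.ae hNN
  have hae : (fun ω : Sample d => ENNReal.ofReal
      |fieldc ω.1 ω.2 (box d (M + 1)) b n (ind x) - fieldc ω.1 ω.2 (box d M) b n (ind x)|)
      =ᵐ[law d p] (fun ω => ENNReal.ofReal |aw31_G A' b n x ω - aw31_G A b n x ω|) := by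
    filter_upwards [hNNp] with ω hω
    rw [e1 _ _ hω.1, e2 _ _ hω.2]
  have hmeas : Measurable (fun ω : Sample d =>
      ENNReal.ofReal |aw31_G A' b n x ω - aw31_G A b n x ω|) :=
    ENNReal.measurable_ofReal.comp (continuous_abs.measurable.comp (hG'.sub hG))
  have haem := hmeas.aemeasurable.congr hae.symm
  refine ⟨haem, ?_⟩
  rw [hlaw] at haem ⊢
  rw [lintegral_prod _ haem]
  have hc : ∀ c, ∫⁻ w, ENNReal.ofReal
      |fieldc c w (box d (M + 1)) b n (ind x) - fieldc c w (box d M) b n (ind x)| ∂(noises d) ≤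
      ENNReal.ofReal (∑ i ∈ box d (M + 1) \ box d M, ker d n (x - i)) := by
    intro c
    have haec : (fun w => |fieldc c w (box d (M + 1)) b n (ind x) -
        fieldc c w (box d M) b n (ind x)|) =ᵐ[noises d]
        (fun w => |aw31_G A' b n x (c, w) - aw31_G A b n x (c, w)|) := by
      filter_upwards [hNN] with w hw
      rw [e1 _ _ hw.1, e2 _ _ hw.2]
    have hmc : Measurable (fun w => |aw31_G A' b n x (c, w) - aw31_G A b n x (c, w)|) := by
      have hpair : Measurable (fun w : Site d → Noise d => ((c, w) : Sample d)) :=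
        measurable_const.prodMk measurable_id
      exact continuous_abs.measurable.comp ((hG'.comp hpair).sub (hG.comp hpair))
    have hint : Integrable (fun w => |fieldc c w (box d (M + 1)) b n (ind x) -
        fieldc c w (box d M) b n (ind x)|) (noises d) := by
      refine Integrable.congr ?_ haec.symm
      refine Integrable.of_bound hmc.aestronglyMeasurable
        (((box d (M + 1)).card : ℝ) + ((box d M).card : ℝ)) ?_
      filter_upwards with w
      rw [Real.norm_eq_abs, abs_abs]
      refine (abs_sub _ _).trans ?_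
      exact add_le_add (aw31_G_bound hAs' b n x _) (aw31_G_bound hAs b n x _)
    rw [← ofReal_integral_eq_lintegral_ofReal hint (Eventually.of_forall fun w => abs_nonneg _)]
    apply ENNReal.ofReal_le_ofReal
    have h1 := fieldc_union d c (ind x) 1 (aw31_ind_nonneg x) (aw31_ind_le x) n b (box d M)
      (box d (M + 1))
    rw [Finset.union_eq_right.2 (aw31_box_mono d M)] at h1
    refine h1.trans (le_of_eq ?_)
    exact Finset.sum_congr rfl fun i _ => aw31_ker d n x i
  refine (lintegral_mono hc).trans ?_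
  rw [lintegral_const, measure_univ, mul_one]

theorem ae_const (d : ℕ) [NeZero d] {p : ℝ} (hp : p ∈ Set.Icc (0 : ℝ) 1) :
    ∀ᵐ ω ∂(law d p), ∀ (n : ℕ) (x : Site d) (b : Bool), ∃ M0 : ℕ, ∀ M, M0 ≤ M →
      fieldc ω.1 ω.2 (box d M) b n (ind x) = fieldc ω.1 ω.2 (box d M0) b n (ind x) := by
  rw [ae_all_iff]
  intro n
  rw [ae_all_iff]
  intro x
  rw [ae_all_iff]
  intro b
  set D : ℕ → Sample d → ENNReal := fun M ω => ENNReal.ofReal
      |fieldc ω.1 ω.2 (box d (M + 1)) b n (ind x) - fieldc ω.1 ω.2 (box d M) b n (ind x)| with hD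
  have hDm : ∀ M, AEMeasurable (D M) (law d p) := fun M => (aw31_step d hp n x b M).1
  have hDi : ∀ M, ∫⁻ ω, D M ω ∂(law d p) ≤
      ENNReal.ofReal (∑ i ∈ box d (M + 1) \ box d M, ker d n (x - i)) := fun M =>
    (aw31_step d hp n x b M).2
  have hsum : ∫⁻ ω, ∑' M, D M ω ∂(law d p) ≤ 1 := by
    rw [lintegral_tsum hDm]
    refine ENNReal.tsum_le_of_sum_range_le fun N => ?_
    refine (Finset.sum_le_sum fun M _ => hDi M).trans ?_
    rw [← ENNReal.ofReal_sum_of_nonneg fun M _ =>
      Finset.sum_nonneg fun i _ => aw31_ker_nonneg d n (x - i)]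
    rw [← ENNReal.ofReal_one]
    apply ENNReal.ofReal_le_ofReal
    have h1 : ∀ M, ∑ i ∈ box d (M + 1) \ box d M, ker d n (x - i) =
        ∑ i ∈ box d (M + 1), ker d n (x - i) - ∑ i ∈ box d M, ker d n (x - i) := by
      intro M
      rw [← Finset.sum_sdiff (aw31_box_mono d M)]
      ring
    simp_rw [h1]
    rw [Finset.sum_range_sub (fun M => ∑ i ∈ box d M, ker d n (x - i))]
    have h2 : 0 ≤ ∑ i ∈ box d 0, ker d n (x - i) :=
      Finset.sum_nonneg fun i _ => aw31_ker_nonneg d n (x - i)
    have h3 := aw31_sum_ker d n x (box d N)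
    linarith
  have hfin : ∀ᵐ ω ∂(law d p), ∑' M, D M ω < ⊤ := by
    refine ae_lt_top' (AEMeasurable.tsum hDm) ?_
    exact (hsum.trans_lt ENNReal.one_lt_top).ne
  filter_upwards [hfin] with ω hω
  have ht := ENNReal.tendsto_atTop_zero_of_tsum_ne_top hω.ne
  obtain ⟨M0, hM0⟩ := eventually_atTop.1 (ht.eventually (gt_mem_nhds (zero_lt_one (α := ENNReal))))
  have hstep : ∀ M, M0 ≤ M → fieldc ω.1 ω.2 (box d (M + 1)) b n (ind x) =
      fieldc ω.1 ω.2 (box d M) b n (ind x) := by
    intro M hM
    have h1 : D M ω < 1 := hM0 M hM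
    simp only [hD] at h1
    rw [ENNReal.ofReal_lt_one] at h1
    obtain ⟨k1, hk1⟩ := aw31_int ω.1 ω.2 (box d (M + 1)) b n x
    obtain ⟨k2, hk2⟩ := aw31_int ω.1 ω.2 (box d M) b n x
    rw [hk1, hk2] at h1 ⊢
    have h2 : |k1 - k2| < 1 := by exact_mod_cast h1
    rw [Int.abs_lt_one_iff] at h2
    have h3 : k1 = k2 := by omega
    rw [h3]
  refine ⟨M0, fun M hM => ?_⟩
  induction M, hM using Nat.le_induction with
  | base => rfl
  | succ M hM ih => rw [hstep M hM, ih]

end Pool.Agent.H285
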