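import Pool.Agent.H285.Base2
import Pool.Agent.H285.AW30
import Pool.Agent.H285.AW31
import Pool.Agent.H285.AW28

/-!
# AW32 (MP_0e9fac_pr)
-/



open MeasureTheory ProbabilityTheory Filter Topology

namespace Pool.Agent.H285


/- ======== TARGETS ======== -/


/-! auxiliary lemmas -/

theorem aw32_cs {Ω : Type*} [MeasurableSpace Ω] (μ : Measure Ω) [IsProbabilityMeasure μ]
    (R W : Ω → ℝ) (A : Set Ω) (hA : MeasurableSet A) (hR : Measurable R) (C : ℝ)
    (hRb : ∀ᵐ ω ∂μ, |R ω| ≤ C) (hW : AEStronglyMeasurable W μ) (hWb : ∀ᵐ ω ∂μ, |W ω| ≤ C)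
    (h0 : ∀ᵐ ω ∂μ, 0 ≤ R ω) (hRW : ∀ᵐ ω ∂μ, R ω ≤ W ω) :
    (∫ ω in A, R ω ∂μ) ^ 2 ≤ (∫ ω, W ω ^ 2 ∂μ) * μ.real ({ω | 0 < R ω} ∩ A) := by
  set V : Set Ω := {ω | 0 < R ω} ∩ A with hV
  have hVm : MeasurableSet V := (measurableSet_lt measurable_const hR).inter hA
  set I : Ω → ℝ := V.indicator 1 with hI
  have hIm : Measurable I := measurable_one.indicator hVm
  have hIb : ∀ ω, |I ω| ≤ 1 := by
    intro ω
    by_cases hω : ω ∈ V <;> simp [hI, hω]
  have iR : Integrable R μ := Integrable.of_bound hR.aestronglyMeasurable C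
    (hRb.mono fun ω h => h)
  have iR2 : Integrable (fun ω => R ω ^ 2) μ := by
    refine Integrable.of_bound (hR.pow_const 2).aestronglyMeasurable (C ^ 2) ?_
    filter_upwards [hRb] with ω h
    rw [Real.norm_eq_abs, abs_pow]
    gcongr
  have iW2 : Integrable (fun ω => W ω ^ 2) μ := by
    refine Integrable.of_bound (hW.pow 2) (C ^ 2) ?_
    filter_upwards [hWb] with ω h
    rw [Real.norm_eq_abs, abs_pow]
    gcongr
  have iI : Integrable I μ := Integrable.of_bound hIm.aestronglyMeasurable 1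
    (Eventually.of_forall hIb)
  have iRI : Integrable (fun ω => R ω * I ω) μ := by
    refine Integrable.of_bound (hR.mul hIm).aestronglyMeasurable (C * 1) ?_
    filter_upwards [hRb] with ω h
    rw [Real.norm_eq_abs, abs_mul]
    exact mul_le_mul h (hIb ω) (abs_nonneg _) ((abs_nonneg _).trans h)
  have eRI : ∫ ω, R ω * I ω ∂μ = ∫ ω in A, R ω ∂μ := by
    rw [← integral_indicator hA]
    apply integral_congr_ae
    filter_upwards [h0] with ω h
    by_cases h1 : ω ∈ A
    · rw [Set.indicator_of_mem h1]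
      by_cases h2 : 0 < R ω
      · have : ω ∈ V := ⟨h2, h1⟩
        simp [hI, this]
      · have : R ω = 0 := le_antisymm (not_lt.mp h2) h
        simp [this]
    · rw [Set.indicator_of_notMem h1]
      have : ω ∉ V := fun h => h1 h.2
      simp [hI, this]
  have eI : ∫ ω, I ω ∂μ = μ.real V := by
    rw [hI, integral_indicator_one hVm]
  have eI2 : ∀ ω, I ω ^ 2 = I ω := by
    intro ω
    by_cases hω : ω ∈ V <;> simp [hI, hω]
  have hquad : ∀ t : ℝ, 0 ≤ (∫ ω, R ω ^ 2 ∂μ) * (t * t) + (-2 * ∫ ω in A, R ω ∂μ) * t +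
      μ.real V := by
    intro t
    have h1 : 0 ≤ ∫ ω, (t * R ω - I ω) ^ 2 ∂μ := integral_nonneg fun ω => sq_nonneg _
    have h2 : ∫ ω, (t * R ω - I ω) ^ 2 ∂μ =
        t * t * (∫ ω, R ω ^ 2 ∂μ) - 2 * t * (∫ ω, R ω * I ω ∂μ) + ∫ ω, I ω ∂μ := by
      have i3 : Integrable (fun ω => t * t * R ω ^ 2 - 2 * t * (R ω * I ω)) μ :=
        (iR2.const_mul (t * t)).sub (iRI.const_mul (2 * t))
      rw [← integral_const_mul, ← integral_const_mul, ← integral_sub (iR2.const_mul (t * t))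
        (iRI.const_mul (2 * t)), ← integral_add i3 iI]
      apply integral_congr_ae
      refine Eventually.of_forall fun ω => ?_
      show (t * R ω - I ω) ^ 2 = t * t * R ω ^ 2 - 2 * t * (R ω * I ω) + I ω
      have := eI2 ω
      linear_combination this
    rw [h2, eRI, eI] at h1
    linarith
  have hd := discrim_le_zero hquad
  unfold discrim at hd
  have hle : ∫ ω, R ω ^ 2 ∂μ ≤ ∫ ω, W ω ^ 2 ∂μ := by
    apply integral_mono_ae iR2 iW2
    filter_upwards [h0, hRW] with ω h1 h2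
    show R ω ^ 2 ≤ W ω ^ 2
    gcongr
  have hV0 : 0 ≤ μ.real V := measureReal_nonneg
  nlinarith [mul_le_mul_of_nonneg_right hle hV0]

theorem aw32_alive_sub {d : ℕ} (c : Site d → Bool) (w : Site d → Noise d) (Λ : Finset (Site d))
    (t : ℝ) : alive c w Λ t ⊆ Λ := by
  unfold alive
  generalize jumpCount w Λ t = n
  induction n with
  | zero => exact subset_refl _
  | succ n ih =>
    unfold aliveSeq annihilate
    exact (Finset.filter_subset _ _).trans ih

theorem aw32_version (d : ℕ) [NeZero d] (Λ : Finset (Site d)) (n : ℕ)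
    (g : Site d → Sample d → ℝ) (hg : ∀ i, Measurable (g i)) :
    ∃ R : Sample d → ℝ, Measurable R ∧
      ∀ᵐ ω ∂(law d (1 / 2)), (∑ i ∈ alive ω.1 ω.2 Λ n, g i ω) = R ω := by
  classical
  obtain ⟨A, N, hA, hsub, -, hN, hal⟩ := exists_version d Λ n
  refine ⟨fun ω => ∑ B ∈ Λ.powerset, if A ω = B then ∑ i ∈ B, g i ω else 0, ?_, ?_⟩
  · apply Finset.measurable_sum
    intro B _
    exact Measurable.ite (hA B) (Finset.measurable_sum _ fun i _ => hg i) measurable_const
  · have := prob_colours d (p := 1 / 2) ⟨by norm_num, by norm_num⟩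
    have := prob_noises d
    have hq : Measure.QuasiMeasurePreserving Prod.snd (law d (1 / 2)) (noises d) :=
      Measure.quasiMeasurePreserving_snd (μ := colours d (1 / 2)) (ν := noises d)
    have hae : ∀ᵐ w ∂(noises d), w ∉ N := by
      rw [ae_iff]
      simpa using hN
    have h2 := hq.ae hae
    filter_upwards [h2] with ω hω
    rw [hal ω.1 ω.2 hω]
    rw [Finset.sum_ite_eq, if_pos (Finset.mem_powerset.2 (hsub _))]

theorem aw32_meas_ind {d : ℕ} (x : Site d) : Measurable (ind x) := measurable_of_countable _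

theorem aw32_meas_pos {d : ℕ} (t : ℝ) (i : Site d) :
    Measurable (fun ω : Sample d => pos ω.2 t i) := by
  unfold pos
  have h1 : Measurable (fun ω : Sample d => walk (ω.2 i) t) :=
    (measurable_walk t).comp ((measurable_pi_apply i).comp measurable_snd)
  exact (measurable_of_countable (fun y : Site d => i + y)).comp h1

theorem aw32_vc (d : ℕ) [NeZero d] (Λ : Finset (Site d)) (n : ℕ) (b : Bool) :
    ∃ R : Sample d → ℝ, Measurable R ∧
      ∀ᵐ ω ∂(law d (1 / 2)), fieldc ω.1 ω.2 Λ b n (ind 0) = R ω := by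
  refine aw32_version d Λ n (fun i ω => if ω.1 i = b then ind 0 (pos ω.2 n i) else 0) ?_
  intro i
  apply Measurable.ite
  · have h1 : Measurable (fun ω : Sample d => ω.1 i) :=
      (measurable_pi_apply i).comp measurable_fst
    exact h1 (measurableSet_singleton b)
  · exact (aw32_meas_ind 0).comp (aw32_meas_pos n i)
  · exact measurable_const

theorem aw32_vf (d : ℕ) [NeZero d] (Λ : Finset (Site d)) (n : ℕ) :
    ∃ R : Sample d → ℝ, Measurable R ∧
      ∀ᵐ ω ∂(law d (1 / 2)), field ω.1 ω.2 Λ n (ind 0) = R ω :=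
  aw32_version d Λ n (fun i ω => ind 0 (pos ω.2 n i))
    (fun i => (aw32_meas_ind 0).comp (aw32_meas_pos n i))

theorem aw32_ind_nonneg {d : ℕ} (x y : Site d) : 0 ≤ ind x y := by
  unfold ind; split_ifs <;> norm_num

theorem aw32_ind_le {d : ℕ} (x y : Site d) : ind x y ≤ 1 := by
  unfold ind; split_ifs <;> norm_num

theorem aw32_fc_nonneg {d : ℕ} (c : Site d → Bool) (w : Site d → Noise d) (Λ : Finset (Site d))
    (b : Bool) (t : ℝ) : 0 ≤ fieldc c w Λ b t (ind 0) := by
  unfold fieldc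
  apply Finset.sum_nonneg
  intro i _
  split_ifs
  · exact aw32_ind_nonneg _ _
  · exact le_rfl

theorem aw32_fc_le {d : ℕ} (c : Site d → Bool) (w : Site d → Noise d) (Λ : Finset (Site d))
    (b : Bool) (t : ℝ) : fieldc c w Λ b t (ind 0) ≤ field c w Λ t (ind 0) := by
  unfold fieldc field
  apply Finset.sum_le_sum
  intro i _
  split_ifs
  · exact le_rfl
  · exact aw32_ind_nonneg _ _

theorem aw32_f_le {d : ℕ} (c : Site d → Bool) (w : Site d → Noise d) (Λ : Finset (Site d))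
    (t : ℝ) : field c w Λ t (ind 0) ≤ Λ.card := by
  unfold field
  calc ∑ i ∈ alive c w Λ t, ind 0 (pos w t i) ≤ ∑ _i ∈ alive c w Λ t, (1:ℝ) :=
        Finset.sum_le_sum fun i _ => aw32_ind_le _ _
    _ = ((alive c w Λ t).card : ℝ) := by simp
    _ ≤ Λ.card := by exact_mod_cast Finset.card_le_card (aw32_alive_sub c w Λ t)

theorem aw32_pos {d : ℕ} (c : Site d → Bool) (w : Site d → Noise d) (Λ : Finset (Site d))
    (b : Bool) (t : ℝ) (h : 0 < fieldc c w Λ b t (ind 0)) :
    ∃ i ∈ alive c w Λ t, c i = b ∧ pos w t i = 0 := by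
  by_contra hcon
  push Not at hcon
  have : fieldc c w Λ b t (ind 0) = 0 := by
    unfold fieldc
    apply Finset.sum_eq_zero
    intro i hi
    split_ifs with hc
    · unfold ind
      rw [if_neg (hcon i hi hc)]
    · rfl
  linarith

/-- the probability bound for one finite system -/
theorem aw32_fin (d : ℕ) [NeZero d] (b : Bool) {a : ℝ} (ha : 0 < a) (F : Finset (Site d))
    (A : Set (Sample d)) (hA : MeasurableSet A)
    (hAF : ∀ x y : Sample d, (∀ i ∈ F, x.1 i = y.1 i ∧ x.2 i = y.2 i) → (x ∈ A ↔ y ∈ A))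
    (N : ℕ) (hN : 0 < N) (h1 : a * rho d N ≤ rho d (3 * N)) (h2 : a * green d N ≤ N * rho d N)
    (hPA : 0 < (law d (1 / 2)).real A)
    (h3 : 2 * F.card * ker d (2 * N) 0 ≤ a / 8 * (law d (1 / 2)).real A * rho d N) :
    ∀ᶠ M : ℕ in atTop, ∀ R : Sample d → ℝ, Measurable R →
      (∀ᵐ ω ∂(law d (1 / 2)), (∑ n ∈ Finset.Ioc (2 * N) (3 * N),
        fieldc ω.1 ω.2 (box d M) b n (ind 0)) = R ω) →
      (a ^ 2 / 16) / (8 + 3 / a) * (law d (1 / 2)).real A ^ 2 ≤
        (law d (1 / 2)).real ({ω | 0 < R ω} ∩ A) := by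
  have hprob := prob_law d (p := 1 / 2) ⟨by norm_num, by norm_num⟩
  set μ := law d (1 / 2) with hμ
  have hrho := rho_pos d N
  have hNR : (0:ℝ) < N := by exact_mod_cast hN
  -- limit of the densities
  have hT : Tendsto (fun M : ℕ => ∑ n ∈ Finset.Ioc (2 * N) (3 * N), dens d (box d M) n 0) atTop
      (𝓝 (∑ n ∈ Finset.Ioc (2 * N) (3 * N), rho d n)) :=
    tendsto_finsetSum _ fun n _ => tendsto_dens d n 0
  have hsum : a * (N * rho d N) ≤ ∑ n ∈ Finset.Ioc (2 * N) (3 * N), rho d n := by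
    calc a * (N * rho d N) ≤ N * rho d (3 * N) := by nlinarith
      _ = ∑ _n ∈ Finset.Ioc (2 * N) (3 * N), rho d (3 * N) := by
          rw [Finset.sum_const, Nat.card_Ioc, nsmul_eq_mul]
          have : 3 * N - 2 * N = N := by omega
          rw [this]
      _ ≤ _ := by
          apply Finset.sum_le_sum
          intro n hn
          rw [Finset.mem_Ioc] at hn
          exact rho_antitone d hn.2
  have hev1 : ∀ᶠ M : ℕ in atTop, 3 / 4 * (a * (N * rho d N)) <
      ∑ n ∈ Finset.Ioc (2 * N) (3 * N), dens d (box d M) n 0 := by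
    apply hT.eventually_const_lt
    have : 0 < a * (N * rho d N) := by positivity
    linarith
  have hev2 : ∀ᶠ M : ℕ in atTop, F ⊆ box d M := by
    have hex : ∃ M0 : ℕ, ∀ i ∈ F, ∀ k, (i k).natAbs ≤ M0 := by
      refine ⟨∑ i ∈ F, ∑ k, (i k).natAbs, ?_⟩
      intro i hi k
      calc (i k).natAbs ≤ ∑ k, (i k).natAbs :=
            Finset.single_le_sum (f := fun k => (i k).natAbs) (fun _ _ => Nat.zero_le _)
              (Finset.mem_univ k)
        _ ≤ _ := Finset.single_le_sum (f := fun i : Site d => ∑ k, (i k).natAbs)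
              (fun _ _ => Nat.zero_le _) hi
    obtain ⟨M0, hM0⟩ := hex
    filter_upwards [eventually_ge_atTop M0] with M hM i hi
    unfold box
    rw [Finset.mem_Icc]
    constructor
    · intro k
      have := hM0 i hi k
      show -(M:ℤ) ≤ i k
      omega
    · intro k
      have := hM0 i hi k
      show i k ≤ (M:ℤ)
      omega
  filter_upwards [hev1, hev2, second_moment d N] with M e1 e2 e3 R hR hRe
  -- first moment
  have f1 := first_moment d N b F A hA hAF M e2
  have f2 : a / 4 * μ.real A * (N * rho d N) ≤ ∫ ω in A, R ω ∂μ := by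
    have f3 : ∫ ω in A, (∑ n ∈ Finset.Ioc (2 * N) (3 * N),
        fieldc ω.1 ω.2 (box d M) b n (ind 0)) ∂μ = ∫ ω in A, R ω ∂μ :=
      integral_congr_ae (ae_restrict_of_ae hRe)
    rw [← f3]
    refine le_trans ?_ f1
    have f4 : ∑ n ∈ Finset.Ioc (2 * N) (3 * N), dens d (box d M) n 0 / 2 =
        (∑ n ∈ Finset.Ioc (2 * N) (3 * N), dens d (box d M) n 0) / 2 := by
      rw [Finset.sum_div]
    rw [f4]
    have f5 : μ.real A * (3 / 8 * (a * (N * rho d N))) ≤
        μ.real A * ((∑ n ∈ Finset.Ioc (2 * N) (3 * N), dens d (box d M) n 0) / 2) := by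
      apply mul_le_mul_of_nonneg_left _ hPA.le
      linarith
    have f6 : 2 * F.card * N * ker d (2 * N) 0 ≤ a / 8 * μ.real A * (N * rho d N) := by
      calc 2 * F.card * N * ker d (2 * N) 0 = N * (2 * F.card * ker d (2 * N) 0) := by ring
        _ ≤ N * (a / 8 * μ.real A * rho d N) := by gcongr
        _ = _ := by ring
    linarith
  -- second moment
  set C : ℝ := ∑ _n ∈ Finset.Ioc (2 * N) (3 * N), ((box d M).card : ℝ) with hC
  have hRb : ∀ᵐ ω ∂μ, |R ω| ≤ C := by
    filter_upwards [hRe] with ω hω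
    rw [← hω, abs_of_nonneg (Finset.sum_nonneg fun n _ => aw32_fc_nonneg _ _ _ _ _)]
    exact Finset.sum_le_sum fun n _ => (aw32_fc_le _ _ _ _ _).trans (aw32_f_le _ _ _ _)
  have h0 : ∀ᵐ ω ∂μ, 0 ≤ R ω := by
    filter_upwards [hRe] with ω hω
    rw [← hω]
    exact Finset.sum_nonneg fun n _ => aw32_fc_nonneg _ _ _ _ _
  have hRW : ∀ᵐ ω ∂μ, R ω ≤ ∑ n ∈ Finset.Ioc (2 * N) (3 * N),
      field ω.1 ω.2 (box d M) n (ind 0) := by
    filter_upwards [hRe] with ω hω
    rw [← hω]
    exact Finset.sum_le_sum fun n _ => aw32_fc_le _ _ _ _ _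
  have hWm : AEStronglyMeasurable (fun ω : Sample d => ∑ n ∈ Finset.Ioc (2 * N) (3 * N),
      field ω.1 ω.2 (box d M) n (ind 0)) μ := by
    have : ∀ n : ℕ, AEStronglyMeasurable (fun ω : Sample d =>
        field ω.1 ω.2 (box d M) n (ind 0)) μ := by
      intro n
      obtain ⟨W, hWm, hWe⟩ := aw32_vf d (box d M) n
      exact ⟨W, hWm.stronglyMeasurable, hWe⟩
    exact Finset.aestronglyMeasurable_fun_sum _ fun n _ => this n
  have hWb : ∀ᵐ ω ∂μ, |∑ n ∈ Finset.Ioc (2 * N) (3 * N),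
      field ω.1 ω.2 (box d M) n (ind 0)| ≤ C := by
    refine Eventually.of_forall fun ω => ?_
    rw [abs_of_nonneg]
    · exact Finset.sum_le_sum fun n _ => aw32_f_le _ _ _ _
    · exact Finset.sum_nonneg fun n _ => (aw32_fc_nonneg _ _ _ b _).trans (aw32_fc_le _ _ _ _ _)
  have key := aw32_cs μ R _ A hA hR C hRb hWm hWb h0 hRW
  have g1 : 3 * N * green d N * rho d N ≤ 3 / a * (N * rho d N) ^ 2 := by
    have : green d N ≤ N * rho d N / a := by
      rw [le_div_iff₀ ha]
      linarith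
    calc 3 * N * green d N * rho d N = (3 * N * rho d N) * green d N := by ring
      _ ≤ (3 * N * rho d N) * (N * rho d N / a) := by gcongr
      _ = _ := by ring
  have g2 : ∫ ω, (∑ n ∈ Finset.Ioc (2 * N) (3 * N), field ω.1 ω.2 (box d M) n (ind 0)) ^ 2 ∂μ ≤
      (8 + 3 / a) * (N * rho d N) ^ 2 := by linarith
  set p := μ.real ({ω | 0 < R ω} ∩ A) with hp
  have hp0 : 0 ≤ p := measureReal_nonneg
  have hX : 0 < N * rho d N := by positivity
  have g3 : (a / 4 * μ.real A * (N * rho d N)) ^ 2 ≤ (8 + 3 / a) * (N * rho d N) ^ 2 * p := by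
    have k1 : (a / 4 * μ.real A * (N * rho d N)) ^ 2 ≤ (∫ ω in A, R ω ∂μ) ^ 2 :=
      pow_le_pow_left₀ (by positivity) f2 2
    have k2 := mul_le_mul_of_nonneg_right g2 hp0
    exact k1.trans (key.trans k2)
  have g4 : (a ^ 2 / 16 * μ.real A ^ 2) * (N * rho d N) ^ 2 ≤
      ((8 + 3 / a) * p) * (N * rho d N) ^ 2 := by
    calc _ = (a / 4 * μ.real A * (N * rho d N)) ^ 2 := by ring
      _ ≤ _ := g3
      _ = _ := by ring
  have g5 := le_of_mul_le_mul_right g4 (by positivity)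
  have g6 : 0 < 8 + 3 / a := by positivity
  rw [div_mul_eq_mul_div, div_le_iff₀ g6]
  linarith

/-- the return probability tends to zero along the even integers -/
theorem aw32_ker (d : ℕ) [NeZero d] {η : ℝ} (hη : 0 < η) :
    ∀ᶠ N : ℕ in atTop, ker d (2 * N) 0 ≤ η := by
  obtain ⟨C, hC, hk⟩ := ker_upper d
  have hd : (0:ℝ) < d := by exact_mod_cast Nat.pos_of_ne_zero (NeZero.ne d)
  have h1 : Tendsto (fun N : ℕ => C * ((2 * N : ℝ)) ^ (-(d : ℝ) / 2)) atTop (𝓝 0) := by
    have h2 : Tendsto (fun N : ℕ => (2 * N : ℝ)) atTop atTop :=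
      tendsto_natCast_atTop_atTop.const_mul_atTop (by norm_num)
    have h3 := (tendsto_rpow_neg_atTop (y := (d:ℝ) / 2) (by positivity)).comp h2
    have h4 := h3.const_mul C
    rw [mul_zero] at h4
    refine h4.congr fun N => ?_
    simp only [Function.comp_apply]
    congr 2
    ring
  filter_upwards [h1.eventually_le_const hη, eventually_ge_atTop 1] with N h2 h3
  refine le_trans (hk _ ?_) h2
  have : (1:ℝ) ≤ N := by exact_mod_cast h3
  linarith

theorem aw32_ker_rho (d : ℕ) [NeZero d] {η : ℝ} (hη : 0 < η) :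
    ∀ᶠ N : ℕ in atTop, ker d (2 * N) 0 ≤ η * rho d N := by
  filter_upwards [aw32_ker d (η := η ^ 2 / 3) (by positivity)] with N hN
  have h1 := rho_lower d N
  have h2 := rho_pos d N
  have h0 : 0 ≤ ker d (2 * N) 0 := by
    unfold ker
    exact measureReal_nonneg
  -- ker ^ 2 ≤ η ^ 2 rho ^ 2
  have h3 : ker d (2 * N) 0 ^ 2 ≤ (η * rho d N) ^ 2 := by
    calc ker d (2 * N) 0 ^ 2 = ker d (2 * N) 0 * ker d (2 * N) 0 := sq _
      _ ≤ (η ^ 2 / 3) * (3 * rho d N ^ 2) := mul_le_mul hN h1 h0 (by positivity)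
      _ = (η * rho d N) ^ 2 := by ring
  exact le_of_sq_le_sq h3 (by positivity)

theorem half_window (d : ℕ) [NeZero d] (b : Bool) : ∃ κ : ℝ, 0 < κ ∧
    ∀ (F : Finset (Site d)) (A : Set (Sample d)), MeasurableSet A →
    (∀ x y : Sample d, (∀ i ∈ F, x.1 i = y.1 i ∧ x.2 i = y.2 i) → (x ∈ A ↔ y ∈ A)) →
    ∃ᶠ N : ℕ in atTop, κ * (law d (1 / 2)).real A ^ 2 ≤
      (law d (1 / 2)).real ({ω | ∃ n ∈ Finset.Ioc (2 * N) (3 * N), Holds ω b n 0} ∩ A) := by
  obtain ⟨a, ha, hgood⟩ := good_scales d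
  refine ⟨(a ^ 2 / 16) / (8 + 3 / a), by positivity, ?_⟩
  intro F A hA hAF
  have hprob := prob_law d (p := 1 / 2) ⟨by norm_num, by norm_num⟩
  rcases (measureReal_nonneg (μ := law d (1 / 2)) (s := A)).eq_or_lt with h0 | hPA
  · refine hgood.mono fun N _ => ?_
    rw [← h0]
    simp only [ne_eq, OfNat.ofNat_ne_zero, not_false_eq_true, zero_pow, mul_zero]
    exact measureReal_nonneg
  have hη : 0 < a / 8 * (law d (1 / 2)).real A / (2 * F.card + 1) := by positivity
  refine (hgood.and_eventually ((aw32_ker_rho d hη).and (eventually_gt_atTop 0))).mono ?_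
  rintro N ⟨⟨h1, h2⟩, h3, hN⟩
  have h3' : 2 * F.card * ker d (2 * N) 0 ≤ a / 8 * (law d (1 / 2)).real A * rho d N := by
    have hk0 : 0 ≤ ker d (2 * N) 0 := by
      unfold ker
      exact measureReal_nonneg
    have hF : (0:ℝ) < 2 * F.card + 1 := by positivity
    calc 2 * F.card * ker d (2 * N) 0 ≤ (2 * F.card + 1) * ker d (2 * N) 0 := by nlinarith
      _ ≤ (2 * F.card + 1) * (a / 8 * (law d (1 / 2)).real A / (2 * F.card + 1) * rho d N) := by
          gcongr
      _ = _ := by field_simp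
  have hfin := aw32_fin d b ha F A hA hAF N hN h1 h2 hPA h3'
  -- measurable versions
  have hver : ∀ M : ℕ, ∃ R : Sample d → ℝ, Measurable R ∧
      ∀ᵐ ω ∂(law d (1 / 2)), (∑ n ∈ Finset.Ioc (2 * N) (3 * N),
        fieldc ω.1 ω.2 (box d M) b n (ind 0)) = R ω := by
    intro M
    choose g hgm hge using fun n : ℕ => aw32_vc d (box d M) n b
    refine ⟨fun ω => ∑ n ∈ Finset.Ioc (2 * N) (3 * N), g n ω,
      Finset.measurable_sum _ fun n _ => hgm n, ?_⟩
    have hall : ∀ᵐ ω ∂(law d (1 / 2)), ∀ n : ℕ,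
        fieldc ω.1 ω.2 (box d M) b n (ind 0) = g n ω := ae_all_iff.2 hge
    filter_upwards [hall] with ω hω
    exact Finset.sum_congr rfl fun n _ => hω n
  choose R hRm hRe using hver
  obtain ⟨M1, hM1⟩ := eventually_atTop.1 hfin
  set q : ℝ := (a ^ 2 / 16) / (8 + 3 / a) * (law d (1 / 2)).real A ^ 2 with hq
  set V : ℕ → Set (Sample d) := fun M => {ω | 0 < R M ω} ∩ A with hV
  have hVm : ∀ M, MeasurableSet (V M) := fun M =>
    (measurableSet_lt measurable_const (hRm M)).inter hA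
  set B : ℕ → Set (Sample d) := fun m => ⋃ M, ⋃ (_ : m ≤ M), V M with hB
  have hBm : ∀ m, MeasurableSet (B m) := fun m =>
    MeasurableSet.iUnion fun M => MeasurableSet.iUnion fun _ => hVm M
  have hBanti : Antitone B := by
    intro m m' hmm ω hω
    simp only [hB, Set.mem_iUnion] at hω ⊢
    obtain ⟨M, hM, hx⟩ := hω
    exact ⟨M, hmm.trans hM, hx⟩
  have hBq : ∀ m, ENNReal.ofReal q ≤ law d (1 / 2) (B m) := by
    intro m
    have h4 := hM1 (max m M1) (le_max_right _ _) (R _) (hRm _) (hRe _)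
    have h5 : V (max m M1) ⊆ B m := by
      intro ω hω
      simp only [hB, Set.mem_iUnion]
      exact ⟨_, le_max_left _ _, hω⟩
    calc ENNReal.ofReal q ≤ ENNReal.ofReal ((law d (1 / 2)).real (V (max m M1))) :=
          ENNReal.ofReal_le_ofReal h4
      _ = law d (1 / 2) (V (max m M1)) := by
          rw [ofReal_measureReal]
      _ ≤ _ := measure_mono h5
  have hlim : ENNReal.ofReal q ≤ law d (1 / 2) (⋂ m, B m) := by
    have h6 := tendsto_measure_iInter_atTop (μ := law d (1 / 2)) (s := B)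
      (fun m => (hBm m).nullMeasurableSet) hBanti ⟨0, measure_ne_top _ _⟩
    exact ge_of_tendsto' h6 hBq
  have hsub : ∀ᵐ ω ∂(law d (1 / 2)), ω ∈ (⋂ m, B m) →
      ω ∈ ({ω | ∃ n ∈ Finset.Ioc (2 * N) (3 * N), Holds ω b n 0} ∩ A) := by
    have hall : ∀ᵐ ω ∂(law d (1 / 2)), ∀ M : ℕ, (∑ n ∈ Finset.Ioc (2 * N) (3 * N),
        fieldc ω.1 ω.2 (box d M) b n (ind 0)) = R M ω := ae_all_iff.2 hRe
    filter_upwards [hall, ae_const d (p := 1 / 2) ⟨by norm_num, by norm_num⟩] with ω hω hcon hin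
    choose m0 hm0 using fun n : ℕ => hcon n 0 b
    rw [Set.mem_iInter] at hin
    have h7 := hin (∑ n ∈ Finset.Ioc (2 * N) (3 * N), m0 n)
    simp only [hB, Set.mem_iUnion] at h7
    obtain ⟨M, hM, h8, h9⟩ := h7
    refine ⟨?_, h9⟩
    have h8' : 0 < R M ω := h8
    rw [← hω M] at h8'
    obtain ⟨n, hn, h10⟩ := Finset.exists_lt_of_sum_lt
      (show ∑ _n ∈ Finset.Ioc (2 * N) (3 * N), (0:ℝ) < ∑ n ∈ Finset.Ioc (2 * N) (3 * N),
        fieldc ω.1 ω.2 (box d M) b n (ind 0) by simpa using h8')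
    refine ⟨n, hn, ?_⟩
    have h11 : m0 n ≤ M := le_trans (Finset.single_le_sum (f := m0)
      (fun _ _ => Nat.zero_le _) hn) hM
    have h12 := hm0 n M h11
    unfold Holds
    filter_upwards [eventually_ge_atTop (m0 n)] with M' hM'
    apply aw32_pos
    rw [hm0 n M' hM', ← h12]
    exact h10
  have h13 : law d (1 / 2) (⋂ m, B m) ≤
      law d (1 / 2) ({ω | ∃ n ∈ Finset.Ioc (2 * N) (3 * N), Holds ω b n 0} ∩ A) :=
    measure_mono_ae hsub
  have h14 := hlim.trans h13
  rw [Measure.real]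
  exact (ENNReal.ofReal_le_iff_le_toReal (measure_ne_top _ _)).1 h14

end Pool.Agent.H285
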