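import Pool.Agent.H285.Base2
import Pool.Agent.H285.AW32
import Pool.Agent.H285.AW17

/-!
# AW33 (MP_0e9fac_pr)
-/



open MeasureTheory ProbabilityTheory Filter Topology

namespace Pool.Agent.H285


/- ======== TARGETS ======== -/

lemma aw33_jumps_set {d : ℕ} (t : ℝ) (m : ℕ) :
    MeasurableSet {w : Noise d | jumps w t = m} := by
  have hS : ∀ n : ℕ, MeasurableSet {w : Noise d | t < ∑ k ∈ Finset.range (n + 1), w.1 k} :=
    fun n => measurableSet_lt measurable_const (by fun_prop)
  have h1 : {w : Noise d | jumps w t = m} =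
      ({w | t < ∑ k ∈ Finset.range (m + 1), w.1 k} ∩
        ⋂ n ∈ Finset.range m, {w | t < ∑ k ∈ Finset.range (n + 1), w.1 k}ᶜ) ∪
      ({w | m = 0} ∩ ⋂ n : ℕ, {w | t < ∑ k ∈ Finset.range (n + 1), w.1 k}ᶜ) := by
    ext w
    simp only [Set.mem_union, Set.mem_inter_iff, Set.mem_iInter, Finset.mem_range,
      Set.mem_compl_iff, Set.mem_ofPred_eq]
    unfold jumps
    constructor
    · intro h
      by_cases hne : {n : ℕ | t < ∑ k ∈ Finset.range (n + 1), w.1 k}.Nonempty
      · left
        have h2 := Nat.sInf_mem hne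
        rw [h] at h2
        refine ⟨h2, fun n hn => ?_⟩
        rw [← h] at hn
        exact Nat.notMem_of_lt_sInf hn
      · right
        rw [Set.not_nonempty_iff_eq_empty] at hne
        rw [hne, Nat.sInf_empty] at h
        refine ⟨h.symm, fun n hn => ?_⟩
        have : n ∈ {n : ℕ | t < ∑ k ∈ Finset.range (n + 1), w.1 k} := hn
        rw [hne] at this
        exact this
    · rintro (⟨h2, h3⟩ | ⟨h2, h3⟩)
      · apply le_antisymm
        · exact Nat.sInf_le h2
        · by_contra hcon
          push Not at hcon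
          exact h3 _ hcon (Nat.sInf_mem (s := {n : ℕ | t < ∑ k ∈ Finset.range (n + 1), w.1 k})
            ⟨m, h2⟩)
      · have h4 : {n : ℕ | t < ∑ k ∈ Finset.range (n + 1), w.1 k} = ∅ := by
          ext n
          simp only [Set.mem_empty_iff_false, iff_false]
          exact h3 n
        rw [h4, Nat.sInf_empty, h2]
  rw [h1]
  refine MeasurableSet.union ?_ ?_
  · exact (hS m).inter (Finset.measurableSet_biInter _ fun n _ => (hS n).compl)
  · refine MeasurableSet.inter ?_ (MeasurableSet.iInter fun n => (hS n).compl)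
    by_cases hm : m = 0
    · simp [hm]
    · simp [hm]

lemma aw33_walk_set {d : ℕ} (t : ℝ) (x : Site d) :
    MeasurableSet {w : Noise d | walk w t = x} := by
  have h1 : {w : Noise d | walk w t = x} =
      ⋃ m : ℕ, {w : Noise d | jumps w t = m} ∩
        {w : Noise d | ∑ k ∈ Finset.range m, unitVec (w.2 k) = x} := by
    ext w
    simp only [Set.mem_iUnion, Set.mem_inter_iff, Set.mem_ofPred_eq]
    unfold walk
    constructor
    · intro h
      exact ⟨jumps w t, rfl, h⟩
    · rintro ⟨m, h2, h3⟩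
      rw [h2]; exact h3
  rw [h1]
  refine MeasurableSet.iUnion fun m => (aw33_jumps_set t m).inter ?_
  have hu : Measurable (unitVec (d := d)) := Measurable.of_discrete
  have h2 : Measurable fun w : Noise d => ∑ k ∈ Finset.range m, unitVec (w.2 k) := by
    refine Finset.measurable_sum _ fun k _ => ?_
    exact hu.comp ((measurable_pi_apply k).comp measurable_snd)
  exact h2 (measurableSet_singleton x)

lemma aw33_holds (d : ℕ) [NeZero d] (b : Bool) (n : ℕ) :
    NullMeasurableSet {ω : Sample d | Holds ω b n 0} (law d (1 / 2)) := by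
  have hp : (1 / 2 : ℝ) ∈ Set.Icc (0 : ℝ) 1 := by constructor <;> norm_num
  have := prob_noises d
  have := prob_colours d hp
  have := prob_law d hp
  choose A N hA1 hA2 hA3 hN hA4 using fun M : ℕ => exists_version d (box d M) n
  set G : ℕ → Set (Sample d) := fun M => {ω | ∃ i ∈ A M ω, ω.1 i = b ∧ pos ω.2 n i = 0} with hG
  have hGm : ∀ M, MeasurableSet (G M) := by
    intro M
    have h1 : G M = ⋃ B ∈ (box d M).powerset, ({ω | A M ω = B} ∩
        ⋃ i ∈ B, ({ω : Sample d | ω.1 i = b} ∩ {ω : Sample d | pos ω.2 n i = 0})) := by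
      ext ω
      simp only [hG, Set.mem_iUnion, Set.mem_inter_iff, Set.mem_ofPred_eq, exists_prop,
        Finset.mem_powerset]
      constructor
      · rintro ⟨i, hi, h2⟩
        exact ⟨A M ω, hA2 M ω, rfl, i, hi, h2⟩
      · rintro ⟨B, -, hB, i, hi, h2⟩
        exact ⟨i, hB ▸ hi, h2⟩
    rw [h1]
    refine Finset.measurableSet_biUnion _ fun B _ => (hA1 M B).inter
      (Finset.measurableSet_biUnion _ fun i _ => MeasurableSet.inter ?_ ?_)
    · have hc : Measurable fun ω : Sample d => ω.1 i :=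
        (measurable_pi_apply i).comp measurable_fst
      exact hc (measurableSet_singleton b)
    · have h2 : {ω : Sample d | pos ω.2 n i = 0} =
          (fun ω : Sample d => ω.2 i) ⁻¹' {w | walk w n = -i} := by
        ext ω
        simp only [Set.mem_ofPred_eq, Set.mem_preimage]
        unfold pos
        rw [add_comm, add_eq_zero_iff_eq_neg]
      rw [h2]
      exact ((measurable_pi_apply i).comp measurable_snd) (aw33_walk_set _ _)
  have hGm' : MeasurableSet {ω | ∀ᶠ M in atTop, ω ∈ G M} := by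
    have h1 : {ω | ∀ᶠ M in atTop, ω ∈ G M} = ⋃ M0 : ℕ, ⋂ M : ℕ, ⋂ (_ : M0 ≤ M), G M := by
      ext ω
      simp only [Set.mem_ofPred_eq, eventually_atTop, Set.mem_iUnion, Set.mem_iInter]
    rw [h1]
    exact MeasurableSet.iUnion fun M0 => MeasurableSet.iInter fun M =>
      MeasurableSet.iInter fun _ => hGm M
  refine hGm'.nullMeasurableSet.congr ?_
  have hlaw : law d (1 / 2) = (colours d (1 / 2)).prod (noises d) := rfl
  have hae : ∀ᵐ ω ∂(law d (1 / 2)), ∀ M, ω.2 ∉ N M := by
    rw [ae_all_iff]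
    intro M
    rw [hlaw]
    have h1 : ∀ᵐ w ∂(noises d), w ∉ N M := measure_eq_zero_iff_ae_notMem.mp (hN M)
    exact (Measure.quasiMeasurePreserving_snd (μ := colours d (1 / 2)) (ν := noises d)).ae h1
  filter_upwards [hae] with ω hω
  apply propext
  change (∀ᶠ M in atTop, ω ∈ G M) ↔ Holds ω b n 0
  unfold Holds
  refine eventually_congr (Eventually.of_forall fun M => ?_)
  change (∃ i ∈ A M ω, ω.1 i = b ∧ pos ω.2 n i = 0) ↔ _
  rw [hA4 M ω.1 ω.2 (hω M)]

theorem final_half (d : ℕ) [NeZero d] (b : Bool) :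
    ∀ᵐ ω ∂(law d (1 / 2)), InfOften ω b := by
  have hp : (1 / 2 : ℝ) ∈ Set.Icc (0 : ℝ) 1 := by constructor <;> norm_num
  have := prob_law d hp
  set P := law d (1 / 2) with hP
  set E : ℕ → Set (Sample d) := fun N => {ω | ∃ n ∈ Finset.Ioc (2 * N) (3 * N), Holds ω b n 0}
    with hE
  have hEm : ∀ N, NullMeasurableSet (E N) P := by
    intro N
    have h1 : E N = ⋃ n ∈ Finset.Ioc (2 * N) (3 * N), {ω : Sample d | Holds ω b n 0} := by
      ext ω
      simp only [hE, Set.mem_iUnion, Set.mem_ofPred_eq, exists_prop]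
    rw [h1]
    exact Finset.nullMeasurableSet_biUnion _ fun n _ => aw33_holds d b n
  set R : Set (Sample d) := ⋂ N0 : ℕ, ⋃ N : ℕ, ⋃ (_ : N0 ≤ N), E N with hR
  have hRm : NullMeasurableSet R P :=
    NullMeasurableSet.iInter fun N0 => NullMeasurableSet.iUnion fun N =>
      NullMeasurableSet.iUnion fun _ => hEm N
  have hRI : ∀ ω ∈ R, InfOften ω b := by
    intro ω hω T
    rw [hR] at hω
    have h1 := Set.mem_iInter.mp hω (⌈T⌉₊)
    simp only [Set.mem_iUnion, exists_prop] at h1
    obtain ⟨N, hN, n, hn, hh⟩ := h1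
    refine ⟨(n : ℝ), ?_, hh⟩
    rw [Finset.mem_Ioc] at hn
    have h2 : T ≤ ⌈T⌉₊ := Nat.le_ceil T
    have h3 : (⌈T⌉₊ : ℝ) ≤ n := by exact_mod_cast (by omega : ⌈T⌉₊ ≤ n)
    linarith
  obtain ⟨κ, hκ, hw⟩ := half_window d b
  have hkey : ∀ (F : Finset (Site d)) (A : Set (Sample d)), MeasurableSet A →
      (∀ x y : Sample d, (∀ i ∈ F, x.1 i = y.1 i ∧ x.2 i = y.2 i) → (x ∈ A ↔ y ∈ A)) →
      κ * P.real A ^ 2 ≤ P.real (R ∩ A) := by
    intro F A hA hAF
    have hf := hw F A hA hAF
    set S : ℕ → Set (Sample d) := fun N0 => (⋃ N : ℕ, ⋃ (_ : N0 ≤ N), E N) ∩ A with hS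
    have hSm : ∀ N0, NullMeasurableSet (S N0) P := fun N0 =>
      (NullMeasurableSet.iUnion fun N => NullMeasurableSet.iUnion fun _ => hEm N).inter
        hA.nullMeasurableSet
    have hSa : Antitone S := by
      intro a c hac
      refine Set.inter_subset_inter_left _ ?_
      refine Set.iUnion_mono fun N => ?_
      intro ω hω
      simp only [Set.mem_iUnion, exists_prop] at hω ⊢
      exact ⟨hac.trans hω.1, hω.2⟩
    have h1 := tendsto_measure_iInter_atTop hSm hSa ⟨0, measure_ne_top P _⟩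
    have h2 : ⋂ n, S n = R ∩ A := by
      rw [hS, hR, Set.iInter_inter]
    rw [h2] at h1
    have h3 : Tendsto (fun N0 => P.real (S N0)) atTop (𝓝 (P.real (R ∩ A))) :=
      (ENNReal.tendsto_toReal (measure_ne_top P _)).comp h1
    refine ge_of_tendsto' h3 fun N0 => ?_
    obtain ⟨N, hN, h4⟩ := frequently_atTop.mp hf N0
    refine h4.trans ?_
    refine measureReal_mono ?_
    refine Set.inter_subset_inter_left _ ?_
    exact Set.subset_iUnion_of_subset N (Set.subset_iUnion_of_subset hN (fun ω hω => hω))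
  have hRc : P Rᶜ = 0 := by
    obtain ⟨B, hB1, hB2, hB3⟩ := hRm.compl.exists_measurable_superset_ae_eq
    rw [← measure_congr hB3]
    by_contra hne
    have hβ : 0 < P.real B := by
      rw [measureReal_def]
      exact ENNReal.toReal_pos hne (measure_ne_top P _)
    set β := P.real B with hβdef
    set ε : ℝ := min (β / 2) (κ * β ^ 2 / 8) with hε
    have hε0 : 0 < ε := by
      rw [hε]
      exact lt_min (by positivity) (by positivity)
    obtain ⟨F, A, hA, hAF, hd⟩ := dense_cyl P B hB2 hε0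
    have h1 := hkey F A hA hAF
    have hRB : P.real (R ∩ B) = 0 := by
      rw [measureReal_def]
      have h2 : (R ∩ B : Set (Sample d)) =ᵐ[P] (R ∩ Rᶜ : Set (Sample d)) :=
        (ae_eq_refl R).inter hB3
      rw [measure_congr h2, Set.inter_compl_self, measure_empty, ENNReal.toReal_zero]
    have h2 : P.real (R ∩ A) ≤ ε := by
      have h3 : R ∩ A ⊆ (R ∩ B) ∪ symmDiff B A := by
        rintro ω ⟨hω1, hω2⟩
        by_cases h : ω ∈ B
        · exact Or.inl ⟨hω1, h⟩
        · exact Or.inr (Or.inr ⟨hω2, h⟩)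
      have h4 := (measureReal_mono (μ := P) h3).trans (measureReal_union_le _ _)
      linarith
    have h3 : β ≤ P.real A + ε := by
      have h4 : B ⊆ A ∪ symmDiff B A := by
        intro ω hω
        by_cases h : ω ∈ A
        · exact Or.inl h
        · exact Or.inr (Or.inl ⟨hω, h⟩)
      have h5 := (measureReal_mono (μ := P) h4).trans (measureReal_union_le _ _)
      linarith
    have h4 : ε ≤ β / 2 := min_le_left _ _
    have h5 : ε ≤ κ * β ^ 2 / 8 := min_le_right _ _
    have h6 : β / 2 ≤ P.real A := by linarith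
    have h7 : κ * (β / 2) ^ 2 ≤ κ * P.real A ^ 2 :=
      mul_le_mul_of_nonneg_left (pow_le_pow_left₀ (by positivity) h6 2) hκ.le
    have h8 : 0 < κ * β ^ 2 := by positivity
    nlinarith
  have h9 : ∀ᵐ ω ∂P, ω ∈ R := by
    rw [ae_iff]
    exact hRc
  filter_upwards [h9] with ω hω using hRI ω hω

end Pool.Agent.H285
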