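import Pool.Agent.H285.Base2
import Pool.Agent.H285.AW22
import Pool.Agent.H285.AW15
import Pool.Agent.H285.AW12
import Pool.Agent.H285.AW08
import Pool.Agent.H285.AW20

/-!
# AW34 (MP_0e9fac_pr)
-/



open MeasureTheory ProbabilityTheory Filter Topology

namespace Pool.Agent.H285


/- ======== TARGETS ======== -/

/- deterministic part -/

lemma blue_evol_congr {d : ℕ} {c c' : Site d → Bool} {q q' : ℕ → Site d → Site d}
    {A : Finset (Site d)} (k : ℕ) (hc : ∀ i ∈ A, c i = c' i)
    (hq : ∀ l, 1 ≤ l → l ≤ k → ∀ i ∈ A, q l i = q' l i) :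
    evol c q A k = evol c' q' A k := by
  have hsub : ∀ l, evol c q A l ⊆ A := by
    intro l
    induction l with
    | zero => exact subset_rfl
    | succ l ih => exact (ann_subset c (q (l + 1)) (evol c q A l)).trans ih
  have key : ∀ l, l ≤ k → evol c q A l = evol c' q' A l := by
    intro l
    induction l with
    | zero => intro _; rfl
    | succ l ih =>
      intro hl
      have ih' := ih (by omega)
      show annihilate c (q (l + 1)) (evol c q A l) = annihilate c' (q' (l + 1)) (evol c' q' A l)
      rw [← ih']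
      exact ann_congr (fun i hi => hc i (hsub l hi))
        (fun i hi => hq (l + 1) (by omega) hl i (hsub l hi))
  exact key k le_rfl

lemma blue_evol_subset {d : ℕ} (c : Site d → Bool) (q : ℕ → Site d → Site d)
    (A : Finset (Site d)) (k : ℕ) : evol c q A k ⊆ A := by
  induction k with
  | zero => exact subset_rfl
  | succ l ih => exact (ann_subset c (q (l + 1)) (evol c q A l)).trans ih

lemma blue_evol_anti {d : ℕ} (c : Site d → Bool) (q : ℕ → Site d → Site d)
    (A : Finset (Site d)) {l k : ℕ} (h : l ≤ k) : evol c q A k ⊆ evol c q A l := by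
  induction k, h using Nat.le_induction with
  | base => exact subset_rfl
  | succ k _ ih => exact (ann_subset c (q (k + 1)) (evol c q A k)).trans ih

lemma blue_evol_erase {d : ℕ} (c : Site d → Bool) (q : ℕ → Site d → Site d)
    (A : Finset (Site d)) (k : ℕ) {j : Site d} (hj : j ∈ evol c q A k) :
    ∀ l, l ≤ k → evol c q (A.erase j) l = (evol c q A l).erase j := by
  intro l
  induction l with
  | zero => intro _; rfl
  | succ l ih =>
    intro hl
    have ih' := ih (by omega)
    show annihilate c (q (l + 1)) (evol c q (A.erase j) l) =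
      (annihilate c (q (l + 1)) (evol c q A l)).erase j
    rw [ih']
    exact ann_erase (blue_evol_anti c q A hl hj)

lemma blue_avoid {d : ℕ} (c : Site d → Bool) (q : ℕ → Site d → Site d)
    (A : Finset (Site d)) (k : ℕ) {j : Site d} (hj : j ∈ evol c q A k) (hcj : c j = false)
    {l : ℕ} (h1 : 1 ≤ l) (hl : l ≤ k) {i : Site d} (hi : i ∈ evol c q (A.erase j) l)
    (hci : c i = true) : q l i ≠ q l j := by
  intro h
  rw [blue_evol_erase c q A k hj l hl] at hi
  have hi' := Finset.mem_of_mem_erase hi
  have hj' := blue_evol_anti c q A hl hj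
  obtain ⟨l', rfl⟩ : ∃ l', l = l' + 1 := ⟨l - 1, by omega⟩
  have := ann_reduced c (q (l' + 1)) (evol c q A l') hi' hj' h
  rw [hci, hcj] at this
  exact absurd this (by decide)

/- measurability of the grid system -/

lemma blue_meas_evol {d : ℕ} (Λ : Finset (Site d)) (h : ℝ) (K : ℕ) (j : Site d) :
    MeasurableSet {ω : Sample d | j ∈ evol ω.1 (fun l => pos ω.2 (l * h)) Λ K} := by
  classical
  let G : Sample d → (Λ → Bool) × (Fin (K + 1) → Λ → Site d) := fun ω =>
    (fun i => ω.1 i, fun l i => pos ω.2 ((l : ℕ) * h) i)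
  have hG : Measurable G := by
    apply Measurable.prodMk
    · apply measurable_pi_lambda
      intro i
      exact (measurable_pi_apply (i : Site d)).comp measurable_fst
    · apply measurable_pi_lambda
      intro l
      apply measurable_pi_lambda
      intro i
      have : Measurable fun ω : Sample d => walk (ω.2 i) ((l : ℕ) * h) :=
        (measurable_walk _).comp ((measurable_pi_apply (i : Site d)).comp measurable_snd)
      exact measurable_const.add this
  let cx : (Λ → Bool) → Site d → Bool := fun a i => if hi : i ∈ Λ then a ⟨i, hi⟩ else false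
  let qx : (Fin (K + 1) → Λ → Site d) → ℕ → Site d → Site d := fun b l i =>
    if hl : l < K + 1 then (if hi : i ∈ Λ then b ⟨l, hl⟩ ⟨i, hi⟩ else 0) else 0
  have heq : {ω : Sample d | j ∈ evol ω.1 (fun l => pos ω.2 (l * h)) Λ K} =
      G ⁻¹' {z | j ∈ evol (cx z.1) (qx z.2) Λ K} := by
    ext ω
    simp only [Set.mem_ofPred_eq, Set.mem_preimage]
    rw [blue_evol_congr (c := ω.1) (c' := cx (G ω).1) (q' := qx (G ω).2) K]
    · intro i hi
      simp only [cx, G, dif_pos hi]
    · intro l _ hl i hi
      simp only [qx, G, dif_pos hi, dif_pos (Nat.lt_succ_of_le hl)]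
  rw [heq]
  exact hG (MeasurableSet.of_discrete)

/- integral of a product -/

lemma blue_prod_integral {ι X : Type*} [MeasurableSpace X] (μ : Measure X)
    [IsProbabilityMeasure μ] (S : Finset ι) (f : ι → X → ℝ) (hf : ∀ i, Measurable (f i)) :
    ∫ c, ∏ i ∈ S, f i (c i) ∂(Measure.infinitePi fun _ : ι => μ) = ∏ i ∈ S, ∫ x, f i x ∂μ := by
  have h1 : ∀ c : ι → X, ∏ i ∈ S, f i (c i) =
      (fun y : S → X => ∏ i : S, f i (y i)) (S.restrict c) := by
    intro c
    simp only [Finset.restrict]
    exact (Finset.prod_coe_sort S (fun i => f i (c i))).symm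
  simp_rw [h1]
  rw [integral_restrict_infinitePi (μ := fun _ : ι => μ) (s := S)
    (f := fun y : S → X => ∏ i : S, f i (y i))]
  · rw [integral_fintype_prod_eq_prod (μ := fun _ : S => μ) (fun i : S => f i)]
    exact Finset.prod_coe_sort S (fun i => ∫ x, f i x ∂μ)
  · apply Measurable.aestronglyMeasurable
    apply Finset.measurable_prod
    intro i _
    exact (hf i).comp (measurable_pi_apply i)

lemma blue_colour_integral {p : ℝ} (hp : p ∈ Set.Icc (0 : ℝ) 1) (f : Bool → ℝ) :
    ∫ x, f x ∂(colourLaw p) = p * f true + (1 - p) * f false := by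
  rw [colourLaw, integral_add_measure, integral_smul_measure, integral_smul_measure,
    integral_dirac, integral_dirac, ENNReal.toReal_ofReal hp.1,
    ENNReal.toReal_ofReal (sub_nonneg.mpr hp.2)]
  · simp
  · exact (integrable_dirac (by simp)).smul_measure ENNReal.ofReal_ne_top
  · exact (integrable_dirac (by simp)).smul_measure ENNReal.ofReal_ne_top

lemma blue_prob_colourLaw {p : ℝ} (hp : p ∈ Set.Icc (0 : ℝ) 1) :
    IsProbabilityMeasure (colourLaw p) := by
  constructor
  rw [colourLaw]
  simp only [Measure.coe_add, Measure.coe_smul, Pi.add_apply, Pi.smul_apply, measure_univ,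
    smul_eq_mul, mul_one]
  rw [← ENNReal.ofReal_add hp.1 (sub_nonneg.mpr hp.2)]
  simp

lemma blue_colour_prod (d : ℕ) {p : ℝ} (hp : p ∈ Set.Icc (0 : ℝ) 1) (S : Finset (Site d))
    (a b : Site d → ℝ) :
    ∫ c, ∏ i ∈ S, (if c i then a i else b i) ∂(colours d p) =
      ∏ i ∈ S, (p * a i + (1 - p) * b i) := by
  have := blue_prob_colourLaw hp
  have h := blue_prod_integral (colourLaw p) S (fun (i : Site d) (x : Bool) => if x then a i else b i)
    (fun i => measurable_of_countable _)
  rw [colours, h]
  apply Finset.prod_congr rfl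
  intro i _
  rw [blue_colour_integral hp]
  simp

lemma blue_colour_integrable (d : ℕ) {p : ℝ} (hp : p ∈ Set.Icc (0 : ℝ) 1) (S : Finset (Site d))
    (a b : Site d → ℝ) :
    Integrable (fun c : Site d → Bool => ∏ i ∈ S, (if c i then a i else b i)) (colours d p) := by
  have := prob_colours d hp
  apply Integrable.of_bound (C := ∏ i ∈ S, (|a i| + |b i|))
  · apply Measurable.aestronglyMeasurable
    apply Finset.measurable_prod
    intro i _
    exact (measurable_of_countable (fun x : Bool => if x then a i else b i)).comp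
      (measurable_pi_apply i)
  · apply ae_of_all
    intro c
    rw [Real.norm_eq_abs, Finset.abs_prod]
    apply Finset.prod_le_prod
    · intro i _; exact abs_nonneg _
    · intro i _
      split_ifs
      · linarith [abs_nonneg (b i)]
      · linarith [abs_nonneg (a i)]

/- the Markov property -/

lemma blue_markov (d : ℕ) [NeZero d] {s t : ℝ} (hs : 0 ≤ s) (hst : s ≤ t) (x y : Site d) :
    (noiseLaw d).real {w | walk w s = x ∧ walk w t = y} ≤ ker d s x * ker d (t - s) 0 := by
  have := prob_noiseLaw d
  have hmp := measurePreserving_cat d hs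
  have hmeas : MeasurableSet {w : Noise d | walk w s = x ∧ walk w t = y} :=
    (measurable_walk s (measurableSet_singleton x)).inter
      (measurable_walk t (measurableSet_singleton y))
  rw [← hmp.measureReal_preimage hmeas.nullMeasurableSet]
  have hgood : ∀ᵐ z ∂((noiseLaw d).prod (noiseLaw d)), Good z.1 ∧ Good z.2 := by
    have h1 : ∀ᵐ z ∂((noiseLaw d).prod (noiseLaw d)), Good z.1 :=
      Measure.quasiMeasurePreserving_fst.ae (ae_good d)
    have h2 : ∀ᵐ z ∂((noiseLaw d).prod (noiseLaw d)), Good z.2 :=
      Measure.quasiMeasurePreserving_snd.ae (ae_good d)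
    exact h1.and h2
  calc ((noiseLaw d).prod (noiseLaw d)).real
        ((fun z : Noise d × Noise d => cat s z.1 z.2) ⁻¹' {w | walk w s = x ∧ walk w t = y})
      ≤ ((noiseLaw d).prod (noiseLaw d)).real
        ({w | walk w s = x} ×ˢ {w | walk w (t - s) = y - x}) := by
        apply ENNReal.toReal_mono (measure_ne_top _ _)
        apply measure_mono_ae
        filter_upwards [hgood] with z hz hzm
        obtain ⟨h1, h2⟩ := hzm
        simp only at h1 h2
        rw [walk_cat_le hz.1 hz.2 hs le_rfl] at h1
        have h3 := walk_cat_add hz.1 hz.2 hs (sub_nonneg.mpr hst)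
        rw [add_sub_cancel] at h3
        refine ⟨h1, ?_⟩
        show walk z.2 (t - s) = y - x
        rw [← h2, ← h1, h3]
        abel
    _ = ker d s x * ker d (t - s) (y - x) := by
        rw [measureReal_prod_prod]
        rfl
    _ ≤ ker d s x * ker d (t - s) 0 := by
        apply mul_le_mul_of_nonneg_left (ker_le_ker_zero d (sub_nonneg.mpr hst) _)
        exact measureReal_nonneg

lemma blue_ker_nonneg (d : ℕ) (t : ℝ) (x : Site d) : 0 ≤ ker d t x := measureReal_nonneg

lemma blue_green_one_le (d : ℕ) [NeZero d] (n : ℕ) : 1 ≤ green d n := by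
  have := prob_noiseLaw d
  have h0 : ker d ((0 : ℕ) : ℝ) 0 = 1 := by
    rw [ker]
    have : (noiseLaw d).real {w | walk w ((0 : ℕ) : ℝ) = 0} = (noiseLaw d).real Set.univ := by
      apply congrArg ENNReal.toReal
      apply measure_congr
      filter_upwards [ae_good d] with w hw
      apply propext
      constructor
      · intro _; trivial
      · intro _
        show walk w ((0 : ℕ) : ℝ) = 0
        rw [Nat.cast_zero, walk, jumps_zero hw]
        simp
    rw [this]
    simp
  rw [green, Finset.sum_range_succ']
  rw [h0]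
  have : 0 ≤ ∑ k ∈ Finset.range n, ker d ((k + 1 : ℕ) : ℝ) 0 :=
    Finset.sum_nonneg fun k _ => blue_ker_nonneg _ _ _
  linarith

/-- the number of hits -/
noncomputable def blueV {d : ℕ} (n : ℕ) (g : ℕ → Site d) (v : Noise d) : ℝ :=
  ∑ k ∈ Finset.Icc 1 n, if walk v k = g k then 1 else 0

lemma blue_ind_meas {d : ℕ} (k : ℝ) (g : Site d) :
    Measurable fun v : Noise d => if walk v k = g then (1 : ℝ) else 0 :=
  Measurable.ite (measurable_walk k (measurableSet_singleton g)) measurable_const measurable_const

lemma blue_ind_integral {d : ℕ} (P : Noise d → Prop) [DecidablePred P] (hP : MeasurableSet {v | P v}) :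
    ∫ v, (if P v then (1 : ℝ) else 0) ∂(noiseLaw d) = (noiseLaw d).real {v | P v} := by
  have : (fun v : Noise d => if P v then (1 : ℝ) else 0) = Set.indicator {v | P v} 1 := by
    ext v
    by_cases h : P v
    · rw [if_pos h, Set.indicator_of_mem (show v ∈ {v | P v} from h)]; rfl
    · rw [if_neg h, Set.indicator_of_notMem (show v ∉ {v | P v} from h)]
  rw [this, integral_indicator_one hP]

lemma blue_integrable_ind {d : ℕ} [NeZero d] (P : Noise d → Prop) [DecidablePred P]
    (hP : MeasurableSet {v | P v}) :
    Integrable (fun v : Noise d => if P v then (1 : ℝ) else 0) (noiseLaw d) := by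
  have := prob_noiseLaw d
  apply Integrable.of_bound (C := 1)
  · exact (Measurable.ite hP measurable_const measurable_const).aestronglyMeasurable
  · apply ae_of_all
    intro v
    split_ifs <;> simp

lemma blueV_integral (d : ℕ) [NeZero d] (n : ℕ) (g : ℕ → Site d) :
    ∫ v, blueV n g v ∂(noiseLaw d) = ∑ k ∈ Finset.Icc 1 n, ker d k (g k) := by
  have := prob_noiseLaw d
  simp only [blueV]
  rw [integral_finsetSum]
  · apply Finset.sum_congr rfl
    intro k _
    exact blue_ind_integral (fun v => walk v k = g k) (measurable_walk k (measurableSet_singleton _))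
  · intro k _
    exact blue_integrable_ind (fun v => walk v k = g k)
      (measurable_walk k (measurableSet_singleton _))

lemma blueV_sq_integral (d : ℕ) [NeZero d] (n : ℕ) (g : ℕ → Site d) :
    ∫ v, blueV n g v ^ 2 ∂(noiseLaw d) ≤
      2 * green d n * ∑ k ∈ Finset.Icc 1 n, ker d k (g k) := by
  classical
  have := prob_noiseLaw d
  let M : ℕ → ℕ → ℝ := fun k l => (noiseLaw d).real {v | walk v k = g k ∧ walk v l = g l}
  have hM0 : ∀ k l, 0 ≤ M k l := fun k l => measureReal_nonneg
  have hMs : ∀ k l, M k l = M l k := by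
    intro k l
    simp only [M]
    congr 1
    ext v
    exact and_comm
  have h1 : ∫ v, blueV n g v ^ 2 ∂(noiseLaw d) =
      ∑ k ∈ Finset.Icc 1 n, ∑ l ∈ Finset.Icc 1 n, M k l := by
    have h2 : ∀ v : Noise d, blueV n g v ^ 2 = ∑ k ∈ Finset.Icc 1 n, ∑ l ∈ Finset.Icc 1 n,
        if walk v k = g k ∧ walk v l = g l then (1 : ℝ) else 0 := by
      intro v
      rw [blueV, pow_two, Finset.sum_mul_sum]
      apply Finset.sum_congr rfl
      intro k _
      apply Finset.sum_congr rfl
      intro l _
      by_cases h : walk v k = g k <;> by_cases h' : walk v l = g l <;> simp [h, h']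
    simp_rw [h2]
    have hint : ∀ k l : ℕ, Integrable (fun v : Noise d =>
        if walk v k = g k ∧ walk v l = g l then (1 : ℝ) else 0) (noiseLaw d) := fun k l =>
      blue_integrable_ind (fun v => walk v k = g k ∧ walk v l = g l)
        ((measurable_walk k (measurableSet_singleton _)).inter
          (measurable_walk l (measurableSet_singleton _)))
    rw [integral_finsetSum]
    · apply Finset.sum_congr rfl
      intro k _
      rw [integral_finsetSum]
      · apply Finset.sum_congr rfl
        intro l _
        exact blue_ind_integral (fun v => walk v k = g k ∧ walk v l = g l)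
          ((measurable_walk k (measurableSet_singleton _)).inter
            (measurable_walk l (measurableSet_singleton _)))
      · intro l _
        exact hint k l
    · intro k _
      exact integrable_finsetSum _ fun l _ => hint k l
  rw [h1]
  have h3 : ∑ k ∈ Finset.Icc 1 n, ∑ l ∈ Finset.Icc 1 n, M k l ≤
      ∑ k ∈ Finset.Icc 1 n, ∑ l ∈ Finset.Icc 1 n, ((if k ≤ l then M k l else 0) +
        (if l ≤ k then M l k else 0)) := by
    apply Finset.sum_le_sum
    intro k _
    apply Finset.sum_le_sum
    intro l _
    rcases le_total k l with h | h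
    · rw [if_pos h]
      split_ifs
      · linarith [hM0 l k]
      · linarith
    · rw [if_pos h, ← hMs k l]
      split_ifs
      · linarith [hM0 k l]
      · linarith
  have h4 : ∑ k ∈ Finset.Icc 1 n, ∑ l ∈ Finset.Icc 1 n, ((if k ≤ l then M k l else 0) +
        (if l ≤ k then M l k else 0)) =
      2 * ∑ k ∈ Finset.Icc 1 n, ∑ l ∈ Finset.Icc 1 n, (if k ≤ l then M k l else 0) := by
    simp_rw [Finset.sum_add_distrib]
    rw [two_mul]
    congr 1
    rw [Finset.sum_comm]
  have h5 : ∀ k ∈ Finset.Icc 1 n, ∑ l ∈ Finset.Icc 1 n, (if k ≤ l then M k l else 0) ≤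
      ker d k (g k) * green d n := by
    intro k _
    rw [← Finset.sum_filter]
    calc ∑ l ∈ (Finset.Icc 1 n).filter (fun l => k ≤ l), M k l
        ≤ ∑ l ∈ (Finset.Icc 1 n).filter (fun l => k ≤ l), ker d k (g k) * ker d ((l - k : ℕ) : ℝ) 0 := by
          apply Finset.sum_le_sum
          intro l hl
          rw [Finset.mem_filter] at hl
          have hkl : (k : ℝ) ≤ l := by exact_mod_cast hl.2
          have := blue_markov d (Nat.cast_nonneg k) hkl (g k) (g l)
          rwa [← Nat.cast_sub hl.2] at this
      _ = ker d k (g k) * ∑ l ∈ (Finset.Icc 1 n).filter (fun l => k ≤ l), ker d ((l - k : ℕ) : ℝ) 0 := by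
          rw [Finset.mul_sum]
      _ ≤ ker d k (g k) * green d n := by
          apply mul_le_mul_of_nonneg_left _ (blue_ker_nonneg _ _ _)
          rw [green]
          have hinj : Set.InjOn (fun l => l - k) ((Finset.Icc 1 n).filter (fun l => k ≤ l) : Set ℕ) := by
            intro a ha b hb hab
            rw [Finset.mem_coe, Finset.mem_filter] at ha hb
            have ha' := ha.2
            have hb' := hb.2
            simp only at hab
            omega
          rw [← Finset.sum_image (f := fun r : ℕ => ker d (r : ℝ) 0) hinj]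
          apply Finset.sum_le_sum_of_subset_of_nonneg
          · intro r hr
            rw [Finset.mem_image] at hr
            obtain ⟨l, hl, rfl⟩ := hr
            rw [Finset.mem_filter, Finset.mem_Icc] at hl
            rw [Finset.mem_range]
            omega
          · intro r _ _
            exact blue_ker_nonneg _ _ _
  calc ∑ k ∈ Finset.Icc 1 n, ∑ l ∈ Finset.Icc 1 n, M k l ≤ _ := h3
    _ = _ := h4
    _ ≤ 2 * ∑ k ∈ Finset.Icc 1 n, ker d k (g k) * green d n := by
      apply mul_le_mul_of_nonneg_left _ (by norm_num)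
      exact Finset.sum_le_sum h5
    _ = _ := by
      rw [← Finset.sum_mul]
      ring

lemma blueV_le_green (d : ℕ) [NeZero d] (n : ℕ) (g : ℕ → Site d) :
    ∑ k ∈ Finset.Icc 1 n, ker d k (g k) ≤ green d n := by
  rw [green]
  calc ∑ k ∈ Finset.Icc 1 n, ker d k (g k) ≤ ∑ k ∈ Finset.Icc 1 n, ker d k 0 :=
        Finset.sum_le_sum fun k _ => ker_le_ker_zero d (Nat.cast_nonneg k) _
    _ ≤ ∑ k ∈ Finset.range (n + 1), ker d k 0 := by
        apply Finset.sum_le_sum_of_subset_of_nonneg
        · intro r hr
          rw [Finset.mem_Icc] at hr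
          rw [Finset.mem_range]
          omega
        · intro r _ _
          exact blue_ker_nonneg _ _ _

lemma blue_sum_grid (M : ℕ) (hM : 0 < M) (n : ℕ) (F : ℕ → ℝ) :
    ∑ l ∈ Finset.range (n * M), (if M ∣ l + 1 then F (l + 1) else 0) =
      ∑ k ∈ Finset.Icc 1 n, F (k * M) := by
  induction n with
  | zero => simp
  | succ n ih =>
    rw [Nat.succ_mul, Finset.sum_range_add, ih, Finset.sum_Icc_succ_top (by omega)]
    congr 1
    obtain ⟨r, rfl⟩ : ∃ r, M = r + 1 := ⟨M - 1, by omega⟩
    rw [Finset.sum_range_succ]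
    have h0 : ∑ x ∈ Finset.range r, (if r + 1 ∣ n * (r + 1) + x + 1 then
        F (n * (r + 1) + x + 1) else 0) = 0 := by
      apply Finset.sum_eq_zero
      intro x hx
      rw [Finset.mem_range] at hx
      rw [if_neg]
      intro hd
      have h1 : r + 1 ∣ x + 1 := by
        have : n * (r + 1) + x + 1 = (n * (r + 1)) + (x + 1) := by ring
        rw [this] at hd
        exact (Nat.dvd_add_right (Dvd.intro_left n rfl)).mp hd
      have := Nat.le_of_dvd (by omega) h1
      omega
    rw [h0, zero_add, if_pos]
    · congr 1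
      ring
    · exact ⟨n + 1, by ring⟩

/-- the checked sites -/
noncomputable def blueG {d : ℕ} (m : ℕ) (j : Site d) (v : Noise d) (l : ℕ) : Option (Site d) :=
  if 2 ^ m ∣ l then some (j + walk v (l * (1 / 2 ^ m : ℝ))) else none

lemma blue_visits {d : ℕ} (m n : ℕ) (j x : Site d) (v v' : Noise d) :
    visits (blueG m j v) x (1 / 2 ^ m : ℝ) (n * 2 ^ m) v' =
      blueV n (fun k => j + walk v k - x) v' := by
  have hM : 0 < 2 ^ m := by positivity
  have h := blue_sum_grid (2 ^ m) hM n
    (fun l => if j + walk v (l * (1 / 2 ^ m : ℝ)) = x + walk v' (l * (1 / 2 ^ m : ℝ)) then 1 else 0)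
  rw [visits]
  calc ∑ l ∈ Finset.range (n * 2 ^ m), (if blueG m j v (l + 1) =
          some (x + walk v' ((l + 1 : ℕ) * (1 / 2 ^ m : ℝ))) then (1 : ℝ) else 0)
      = ∑ l ∈ Finset.range (n * 2 ^ m), (if 2 ^ m ∣ l + 1 then
          (if j + walk v ((l + 1 : ℕ) * (1 / 2 ^ m : ℝ)) =
            x + walk v' ((l + 1 : ℕ) * (1 / 2 ^ m : ℝ)) then (1 : ℝ) else 0) else 0) := by
        apply Finset.sum_congr rfl
        intro l _
        rw [blueG]
        by_cases hd : 2 ^ m ∣ l + 1
        · rw [if_pos hd, if_pos hd]
          simp only [Option.some.injEq]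
        · rw [if_neg hd, if_neg hd]
          simp
    _ = _ := h
    _ = blueV n (fun k => j + walk v k - x) v' := by
        rw [blueV]
        apply Finset.sum_congr rfl
        intro k _
        have hk : (((k * 2 ^ m : ℕ) : ℝ)) * (1 / 2 ^ m : ℝ) = k := by
          push_cast
          field_simp
        simp only [hk]
        congr 1
        apply propext
        rw [eq_sub_iff_add_eq, add_comm (walk v' k) x]
        exact eq_comm

/-- the mean number of visits -/
noncomputable def blueH {d : ℕ} (n : ℕ) (j : Site d) (v : Noise d) (i : Site d) : ℝ :=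
  ∑ k ∈ Finset.Icc 1 n, ker d k (j + walk v k - i)

lemma blueH_nonneg {d : ℕ} (n : ℕ) (j : Site d) (v : Noise d) (i : Site d) :
    0 ≤ blueH n j v i := Finset.sum_nonneg fun _ _ => blue_ker_nonneg _ _ _

/-- the inner bound -/
lemma blue_inner (d : ℕ) [NeZero d] {p : ℝ} (hp : 1 / 2 < p) (hp1 : p < 1)
    (S : Finset (Site d)) (n m : ℕ) (j : Site d) (v : Noise d)
    (E : Set ((Site d → Bool) × (Site d → Noise d))) (hE : MeasurableSet E)
    (hEs : ∀ c w, (c, w) ∈ E → ∀ l, 1 ≤ l → l ≤ n * 2 ^ m →
      ∀ i ∈ evol c (fun l i => i + walk (w i) (l * (1 / 2 ^ m : ℝ))) S l, c i = true →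
        blueG m j v l ≠ some (i + walk (w i) (l * (1 / 2 ^ m : ℝ)))) :
    ((colours d p).prod (noises d)) E ≤ ENNReal.ofReal
      (Real.exp (-((2 * p - 1) ^ 2 / (8 * p * green d n)) * ∑ i ∈ S, blueH n j v i)) := by
  have hpI : p ∈ Set.Icc (0 : ℝ) 1 := ⟨by linarith, hp1.le⟩
  have hP1 := prob_colours d hpI
  have hP2 := prob_noises d
  have hP3 := prob_noiseLaw d
  have hG := blue_green_one_le d n
  set G := green d n with hGdef
  have hp0 : 0 < p := by linarith
  have hG0 : 0 < G := by linarith
  set lam := (2 * p - 1) / (4 * p * G) with hlam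
  have hlam0 : 0 ≤ lam := by
    rw [hlam]
    apply div_nonneg (by linarith)
    positivity
  let a : Site d → ℝ := fun i => 1 - lam * (∫ v', visits (blueG m j v) i (1 / 2 ^ m : ℝ) (n * 2 ^ m) v'
      ∂(noiseLaw d)) + lam ^ 2 * ∫ v', visits (blueG m j v) i (1 / 2 ^ m : ℝ) (n * 2 ^ m) v' ^ 2
      ∂(noiseLaw d)
  let b : Site d → ℝ := fun i => 1 + lam * ∫ v', visits (blueG m j v) i (1 / 2 ^ m : ℝ)
      (n * 2 ^ m) v' ∂(noiseLaw d)
  have hsec : ∀ c : Site d → Bool, noises d (Prod.mk c ⁻¹' E) ≤
      ENNReal.ofReal (∏ i ∈ S, if c i then a i else b i) := by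
    intro c
    have h1 := avoid_grid d c (h := (1 / 2 ^ m : ℝ)) (by positivity) hlam0 (n * 2 ^ m)
      (blueG m j v) S id
    have h2 : (noises d).real (Prod.mk c ⁻¹' E) ≤ ∏ i ∈ S, if c i then a i else b i := by
      refine le_trans ?_ h1
      apply measureReal_mono
      · intro w hw
        exact hEs c w hw
      · exact measure_ne_top _ _
    rw [← ENNReal.ofReal_toReal (measure_ne_top (noises d) (Prod.mk c ⁻¹' E))]
    exact ENNReal.ofReal_le_ofReal h2
  have hnn : ∀ c : Site d → Bool, 0 ≤ ∏ i ∈ S, if c i then a i else b i := by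
    intro c
    have h1 := avoid_grid d c (h := (1 / 2 ^ m : ℝ)) (by positivity) hlam0 (n * 2 ^ m)
      (blueG m j v) S id
    exact le_trans measureReal_nonneg h1
  rw [Measure.prod_apply hE]
  calc ∫⁻ c, noises d (Prod.mk c ⁻¹' E) ∂(colours d p)
      ≤ ∫⁻ c, ENNReal.ofReal (∏ i ∈ S, if c i then a i else b i) ∂(colours d p) :=
        lintegral_mono hsec
    _ = ENNReal.ofReal (∫ c, ∏ i ∈ S, (if c i then a i else b i) ∂(colours d p)) := by
        rw [ofReal_integral_eq_lintegral_ofReal (blue_colour_integrable d hpI S a b)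
          (ae_of_all _ hnn)]
    _ = ENNReal.ofReal (∏ i ∈ S, (p * a i + (1 - p) * b i)) := by
        rw [blue_colour_prod d hpI S a b]
    _ ≤ _ := by
        apply ENNReal.ofReal_le_ofReal
        rw [Finset.mul_sum, Real.exp_sum]
        have hH1 : ∀ i, ∫ v', visits (blueG m j v) i (1 / 2 ^ m : ℝ) (n * 2 ^ m) v' ∂(noiseLaw d) =
            blueH n j v i := by
          intro i
          simp_rw [blue_visits]
          exact blueV_integral d n _
        have hH2 : ∀ i, ∫ v', visits (blueG m j v) i (1 / 2 ^ m : ℝ) (n * 2 ^ m) v' ^ 2 ∂(noiseLaw d) ≤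
            2 * G * blueH n j v i := by
          intro i
          simp_rw [blue_visits]
          exact blueV_sq_integral d n _
        have hH3 : ∀ i, blueH n j v i ≤ G := fun i => blueV_le_green d n _
        have hH4 : ∀ i, 0 ≤ ∫ v', visits (blueG m j v) i (1 / 2 ^ m : ℝ) (n * 2 ^ m) v' ^ 2
            ∂(noiseLaw d) := fun i => integral_nonneg fun v' => sq_nonneg _
        have hlamG : lam * (4 * p * G) = 2 * p - 1 := by
          rw [hlam]; field_simp
        apply Finset.prod_le_prod
        · intro i _
          simp only [a, b]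
          rw [hH1 i]
          have e1 : p * (1 - lam * blueH n j v i + lam ^ 2 * ∫ v', visits (blueG m j v) i
              (1 / 2 ^ m : ℝ) (n * 2 ^ m) v' ^ 2 ∂(noiseLaw d)) + (1 - p) * (1 + lam * blueH n j v i)
              = 1 - (2 * p - 1) * (lam * blueH n j v i) + p * lam ^ 2 * ∫ v', visits (blueG m j v) i
              (1 / 2 ^ m : ℝ) (n * 2 ^ m) v' ^ 2 ∂(noiseLaw d) := by ring
          rw [e1]
          have e2 : 0 ≤ p * lam ^ 2 * ∫ v', visits (blueG m j v) i
              (1 / 2 ^ m : ℝ) (n * 2 ^ m) v' ^ 2 ∂(noiseLaw d) := by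
            have := hH4 i
            positivity
          have e3 : lam * blueH n j v i ≤ 1 := by
            have h1 : lam * blueH n j v i ≤ lam * G := mul_le_mul_of_nonneg_left (hH3 i) hlam0
            have h2 : lam * G * (4 * p) = 2 * p - 1 := by rw [← hlamG]; ring
            have h3 : lam * G ≤ 1 := by
              by_contra hcon
              push Not at hcon
              have : 1 * (4 * p) < lam * G * (4 * p) := by
                apply mul_lt_mul_of_pos_right hcon
                linarith
              linarith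
            linarith
          have e4 : 0 ≤ lam * blueH n j v i := mul_nonneg hlam0 (blueH_nonneg _ _ _ _)
          have e5 : (2 * p - 1) * (lam * blueH n j v i) ≤ 1 := by
            calc (2 * p - 1) * (lam * blueH n j v i) ≤ 1 * 1 := by
                  apply mul_le_mul (by linarith) e3 e4 (by norm_num)
              _ = 1 := by norm_num
          linarith
        · intro i _
          simp only [a, b]
          rw [hH1 i]
          have e1 : p * (1 - lam * blueH n j v i + lam ^ 2 * ∫ v', visits (blueG m j v) i
              (1 / 2 ^ m : ℝ) (n * 2 ^ m) v' ^ 2 ∂(noiseLaw d)) + (1 - p) * (1 + lam * blueH n j v i)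
              = 1 - (2 * p - 1) * (lam * blueH n j v i) + p * lam ^ 2 * ∫ v', visits (blueG m j v) i
              (1 / 2 ^ m : ℝ) (n * 2 ^ m) v' ^ 2 ∂(noiseLaw d) := by ring
          rw [e1]
          have e2 : p * lam ^ 2 * ∫ v', visits (blueG m j v) i
              (1 / 2 ^ m : ℝ) (n * 2 ^ m) v' ^ 2 ∂(noiseLaw d) ≤
              p * lam ^ 2 * (2 * G * blueH n j v i) :=
            mul_le_mul_of_nonneg_left (hH2 i) (by positivity)
          have e3 : p * lam ^ 2 * (2 * G * blueH n j v i) =
              (2 * p - 1) / 2 * (lam * blueH n j v i) := by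
            calc p * lam ^ 2 * (2 * G * blueH n j v i) =
                (lam * (4 * p * G)) / 2 * (lam * blueH n j v i) := by ring
              _ = _ := by rw [hlamG]
          have e4 : -((2 * p - 1) ^ 2 / (8 * p * G)) * blueH n j v i =
              -((2 * p - 1) / 2 * (lam * blueH n j v i)) := by
            rw [hlam]
            field_simp
            ring
          have e5 := Real.add_one_le_exp (-((2 * p - 1) ^ 2 / (8 * p * G)) * blueH n j v i)
          rw [e4] at e5 ⊢
          linarith

/-- exchange of one coordinate -/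
noncomputable def bluePhi {d : ℕ} (j : Site d) (z : (Site d → Noise d) × (Site d → Noise d)) :
    Site d → Noise d :=
  open Classical in
  fun i => (if i = j then Prod.fst else Prod.snd) (z.1 i, z.2 i)

lemma bluePhi_self {d : ℕ} (j : Site d) (z : (Site d → Noise d) × (Site d → Noise d)) :
    bluePhi j z j = z.1 j := by
  simp [bluePhi]

lemma bluePhi_ne {d : ℕ} (j : Site d) (z : (Site d → Noise d) × (Site d → Noise d)) {i : Site d}
    (h : i ≠ j) : bluePhi j z i = z.2 i := by
  simp [bluePhi, h]

lemma bluePhi_mp (d : ℕ) [NeZero d] (j : Site d) :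
    MeasurePreserving (bluePhi j) ((noises d).prod (noises d)) (noises d) := by
  classical
  have := prob_noiseLaw d
  have h := measurePreserving_coord (noiseLaw d)
    (fun i : Site d => (if i = j then Prod.fst else Prod.snd : Noise d × Noise d → Noise d)) (by
      intro i
      by_cases hi : i = j
      · simp only [if_pos hi]; exact measurePreserving_fst
      · simp only [if_neg hi]; exact measurePreserving_snd)
  have h2 : (bluePhi j : (Site d → Noise d) × (Site d → Noise d) → Site d → Noise d) =
      fun z => fun i => (if i = j then Prod.fst else Prod.snd : Noise d × Noise d → Noise d)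
        (z.1 i, z.2 i) := by
    funext z i
    by_cases hi : i = j
    · simp [bluePhi, hi]
    · simp [bluePhi, hi]
  rw [h2]
  exact h

/-- the noise of the particle `j` first -/
noncomputable def bluePsi {d : ℕ} (j : Site d)
    (z : (Site d → Noise d) × ((Site d → Bool) × (Site d → Noise d))) : Sample d :=
  (z.2.1, bluePhi j (z.1, z.2.2))

lemma bluePsi_mp (d : ℕ) [NeZero d] {p : ℝ} (hp : p ∈ Set.Icc (0 : ℝ) 1) (j : Site d) :
    MeasurePreserving (bluePsi j) ((noises d).prod ((colours d p).prod (noises d)))
      (law d p) := by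
  have hP1 := prob_colours d hp
  have hP2 := prob_noises d
  have h1 : MeasurePreserving (Prod.map id (bluePhi j))
      ((colours d p).prod ((noises d).prod (noises d))) ((colours d p).prod (noises d)) :=
    (MeasurePreserving.id _).prod (bluePhi_mp d j)
  have h2 := measurePreserving_prodAssoc (colours d p) (noises d) (noises d)
  have h3 : MeasurePreserving (Prod.map Prod.swap id)
      (((noises d).prod (colours d p)).prod (noises d))
      (((colours d p).prod (noises d)).prod (noises d)) :=
    Measure.measurePreserving_swap.prod (MeasurePreserving.id _)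
  have h4 := (measurePreserving_prodAssoc (noises d) (colours d p) (noises d)).symm
  have h5 := h1.comp (h2.comp (h3.comp h4))
  exact h5

/-- the grid event for the particle `j` -/
def blueE (d : ℕ) (Λ : Finset (Site d)) (n m : ℕ) (j : Site d) : Set (Sample d) :=
  {ω | j ∈ evol ω.1 (fun l => pos ω.2 (l * (1 / 2 ^ m : ℝ))) Λ (n * 2 ^ m)} ∩
    ({ω | ω.1 j = false} ∩ {ω | norm1 j ≤ jumps (ω.2 j) (n + 1)})

lemma blueE_meas (d : ℕ) (Λ : Finset (Site d)) (n m : ℕ) (j : Site d) :
    MeasurableSet (blueE d Λ n m j) := by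
  apply (blue_meas_evol Λ (1 / 2 ^ m : ℝ) (n * 2 ^ m) j).inter
  apply MeasurableSet.inter
  · have : Measurable fun ω : Sample d => ω.1 j := (measurable_pi_apply j).comp measurable_fst
    exact this (measurableSet_singleton false)
  · have : Measurable fun ω : Sample d => jumps (ω.2 j) (n + 1) :=
      (measurable_jumps _).comp ((measurable_pi_apply j).comp measurable_snd)
    exact this (measurableSet_Ici)

lemma blueE_le (d : ℕ) [NeZero d] {p : ℝ} (hp : 1 / 2 < p) (hp1 : p < 1)
    (Λ : Finset (Site d)) (n m : ℕ) (j : Site d) :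
    law d p (blueE d Λ n m j) ≤ ENNReal.ofReal
      (∫ v in {v : Noise d | norm1 j ≤ jumps v (n + 1)},
        Real.exp (-((2 * p - 1) ^ 2 / (8 * p * green d n)) *
          ∑ i ∈ Λ.erase j, blueH n j v i) ∂(noiseLaw d)) := by
  classical
  have hpI : p ∈ Set.Icc (0 : ℝ) 1 := ⟨by linarith, hp1.le⟩
  have hP1 := prob_colours d hpI
  have hP2 := prob_noises d
  have hP3 := prob_noiseLaw d
  have hmp := bluePsi_mp d hpI j
  have hE := blueE_meas d Λ n m j
  rw [← hmp.measure_preimage hE.nullMeasurableSet, Measure.prod_apply (hmp.measurable hE)]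
  let F : Noise d → ENNReal := Set.indicator {v : Noise d | norm1 j ≤ jumps v (n + 1)}
    (fun v => ENNReal.ofReal (Real.exp (-((2 * p - 1) ^ 2 / (8 * p * green d n)) *
          ∑ i ∈ Λ.erase j, blueH n j v i)))
  have hset : MeasurableSet {v : Noise d | norm1 j ≤ jumps v (n + 1)} :=
    (measurable_jumps (d := d) ((n : ℝ) + 1)) measurableSet_Ici
  have hHmeas : ∀ i, Measurable fun v : Noise d => blueH n j v i := by
    intro i
    apply Finset.measurable_sum
    intro k _
    exact (measurable_of_countable (fun x : Site d => ker d k (j + x - i))).comp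
      (measurable_walk k)
  have hemeas : Measurable fun v : Noise d =>
      Real.exp (-((2 * p - 1) ^ 2 / (8 * p * green d n)) * ∑ i ∈ Λ.erase j, blueH n j v i) := by
    apply Real.measurable_exp.comp
    apply Measurable.const_mul
    exact Finset.measurable_sum _ fun i _ => hHmeas i
  have hF : Measurable F := hemeas.ennreal_ofReal.indicator hset
  calc ∫⁻ z1, ((colours d p).prod (noises d))
        (Prod.mk z1 ⁻¹' (bluePsi j ⁻¹' (blueE d Λ n m j))) ∂(noises d)
      ≤ ∫⁻ z1, F (z1 j) ∂(noises d) := by
        apply lintegral_mono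
        intro z1
        by_cases hz : norm1 j ≤ jumps (z1 j) (n + 1)
        · have hFz : F (z1 j) = ENNReal.ofReal (Real.exp (-((2 * p - 1) ^ 2 /
              (8 * p * green d n)) * ∑ i ∈ Λ.erase j, blueH n j (z1 j) i)) :=
            Set.indicator_of_mem (s := {v : Noise d | norm1 j ≤ jumps v (n + 1)}) hz _
          simp only
          rw [hFz]
          apply blue_inner d hp hp1 (Λ.erase j) n m j (z1 j)
          · exact measurable_prodMk_left (hmp.measurable hE)
          · intro c w hcw l hl1 hl2 i hi hci hg
            have hcw' : (c, bluePhi j (z1, w)) ∈ blueE d Λ n m j := hcw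
            obtain ⟨h1, h2, -⟩ := hcw'
            have h1' : j ∈ evol c (fun l => pos (bluePhi j (z1, w)) (l * (1 / 2 ^ m : ℝ))) Λ
              (n * 2 ^ m) := h1
            have h2' : c j = false := h2
            have hcong : evol c (fun l i => i + walk (w i) (l * (1 / 2 ^ m : ℝ))) (Λ.erase j) l =
                evol c (fun l => pos (bluePhi j (z1, w)) (l * (1 / 2 ^ m : ℝ))) (Λ.erase j) l := by
              apply blue_evol_congr l (fun _ _ => rfl)
              intro l' _ _ i' hi'
              have hne : i' ≠ j := Finset.ne_of_mem_erase hi'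
              simp only [pos]
              rw [bluePhi_ne j (z1, w) hne]
            rw [hcong] at hi
            have hne := blue_avoid c _ Λ (n * 2 ^ m) h1' h2' hl1 hl2 hi hci
            apply hne
            have hij : i ≠ j := by
              rintro rfl
              rw [hci] at h2'
              exact absurd h2' (by decide)
            simp only [pos]
            rw [bluePhi_ne j (z1, w) hij, bluePhi_self]
            rw [blueG] at hg
            split_ifs at hg with hd
            exact (Option.some.inj hg).symm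
        · have : Prod.mk z1 ⁻¹' (bluePsi j ⁻¹' (blueE d Λ n m j)) = ∅ := by
            rw [Set.eq_empty_iff_forall_notMem]
            rintro ⟨c, w⟩ hcw
            have hcw' : (c, bluePhi j (z1, w)) ∈ blueE d Λ n m j := hcw
            obtain ⟨-, -, h3⟩ := hcw'
            apply hz
            have h3' : norm1 j ≤ jumps (bluePhi j (z1, w) j) (n + 1) := h3
            rwa [bluePhi_self] at h3'
          simp only
          rw [this, measure_empty]
          exact zero_le
    _ = ∫⁻ v, F v ∂(noiseLaw d) := by
        have := (measurePreserving_eval_infinitePi (fun _ : Site d => noiseLaw d) j)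
        exact this.lintegral_comp hF
    _ = ∫⁻ v in {v : Noise d | norm1 j ≤ jumps v (n + 1)},
          ENNReal.ofReal (Real.exp (-((2 * p - 1) ^ 2 / (8 * p * green d n)) *
          ∑ i ∈ Λ.erase j, blueH n j v i)) ∂(noiseLaw d) := by
        rw [lintegral_indicator hset]
    _ = _ := by
        rw [ofReal_integral_eq_lintegral_ofReal]
        · apply Integrable.of_bound (C := 1)
          · exact hemeas.aestronglyMeasurable
          · apply ae_of_all
            intro v
            rw [Real.norm_eq_abs, Real.abs_exp, Real.exp_le_one_iff]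
            have h1 : 0 ≤ ∑ i ∈ Λ.erase j, blueH n j v i :=
              Finset.sum_nonneg fun i _ => blueH_nonneg _ _ _ _
            have h2 : 0 ≤ (2 * p - 1) ^ 2 / (8 * p * green d n) := by
              have := blue_green_one_le d n
              have hp0 : 0 < p := by linarith
              positivity
            rw [neg_mul]
            exact neg_nonpos.mpr (mul_nonneg h2 h1)
        · exact ae_of_all _ fun v => (Real.exp_pos _).le

theorem blue_event (d : ℕ) [NeZero d] {p : ℝ} (hp : 1 / 2 < p) (hp1 : p < 1)
    (Λ : Finset (Site d)) (n : ℕ) :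
    (law d p).real {ω | ∃ j ∈ alive ω.1 ω.2 Λ n, ω.1 j = false ∧
        norm1 j ≤ jumps (ω.2 j) (n + 1)} ≤
      ∑ j ∈ Λ, ∫ v in {v : Noise d | norm1 j ≤ jumps v (n + 1)},
        Real.exp (-((2 * p - 1) ^ 2 / (8 * p * green d n)) *
          ∑ i ∈ Λ.erase j, ∑ k ∈ Finset.Icc 1 n, ker d k (j + walk v k - i)) ∂(noiseLaw d) := by
  have hpI : p ∈ Set.Icc (0 : ℝ) 1 := ⟨by linarith, hp1.le⟩
  have hP0 := prob_law d hpI
  have hP1 := prob_colours d hpI
  have hP2 := prob_noises d
  have hP3 := prob_noiseLaw d
  let R : Site d → ℝ := fun j => ∫ v in {v : Noise d | norm1 j ≤ jumps v (n + 1)},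
        Real.exp (-((2 * p - 1) ^ 2 / (8 * p * green d n)) *
          ∑ i ∈ Λ.erase j, blueH n j v i) ∂(noiseLaw d)
  have hR : ∀ j, 0 ≤ R j := fun j => setIntegral_nonneg_of_ae_restrict
    (ae_of_all _ fun v => (Real.exp_pos _).le)
  have hgoal : law d p {ω | ∃ j ∈ alive ω.1 ω.2 Λ n, ω.1 j = false ∧
        norm1 j ≤ jumps (ω.2 j) (n + 1)} ≤ ENNReal.ofReal (∑ j ∈ Λ, R j) := by
    let A : ℕ → Set (Sample d) := fun m => ⋃ j ∈ Λ, blueE d Λ n m j
    have hA : ∀ m, law d p (A m) ≤ ENNReal.ofReal (∑ j ∈ Λ, R j) := by
      intro m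
      calc law d p (A m) ≤ ∑ j ∈ Λ, law d p (blueE d Λ n m j) :=
            measure_biUnion_finset_le _ _
        _ ≤ ∑ j ∈ Λ, ENNReal.ofReal (R j) :=
            Finset.sum_le_sum fun j _ => blueE_le d hp hp1 Λ n m j
        _ = ENNReal.ofReal (∑ j ∈ Λ, R j) := by
            rw [ENNReal.ofReal_sum_of_nonneg fun j _ => hR j]
    have hae : ∀ᵐ ω ∂(law d p), ∀ (Λ' : Finset (Site d)) (n' : ℕ), ∀ᶠ m : ℕ in atTop,
        ∀ (c : Site d → Bool), alive c ω.2 Λ' n' =
          evol c (fun l => pos ω.2 (l * (1 / 2 ^ m : ℝ))) Λ' (n' * 2 ^ m) := by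
      have hq : Measure.QuasiMeasurePreserving Prod.snd ((colours d p).prod (noises d))
        (noises d) := Measure.quasiMeasurePreserving_snd
      exact hq.ae (ae_alive_eq_evol d)
    calc law d p {ω | ∃ j ∈ alive ω.1 ω.2 Λ n, ω.1 j = false ∧
          norm1 j ≤ jumps (ω.2 j) (n + 1)}
        ≤ law d p (⋃ N : ℕ, ⋂ m : ℕ, ⋂ _ : N ≤ m, A m) := by
          apply measure_mono_ae
          filter_upwards [hae] with ω hω hmem
          obtain ⟨j, hj, hcj, hnj⟩ := hmem
          obtain ⟨N, hN⟩ := eventually_atTop.mp (hω Λ n)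
          show ω ∈ ⋃ N : ℕ, ⋂ m : ℕ, ⋂ _ : N ≤ m, A m
          rw [Set.mem_iUnion]
          refine ⟨N, ?_⟩
          rw [Set.mem_iInter₂]
          intro m hm
          have heq := hN m hm ω.1
          rw [heq] at hj
          show ω ∈ ⋃ j ∈ Λ, blueE d Λ n m j
          rw [Set.mem_iUnion₂]
          exact ⟨j, blue_evol_subset _ _ _ _ hj, hj, hcj, hnj⟩
      _ = ⨆ N : ℕ, law d p (⋂ m : ℕ, ⋂ _ : N ≤ m, A m) := by
          apply Directed.measure_iUnion
          apply Monotone.directed_le
          intro N N' hNN'
          exact Set.iInter_mono fun m => Set.iInter_mono' fun h => ⟨hNN'.trans h, subset_rfl⟩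
      _ ≤ ENNReal.ofReal (∑ j ∈ Λ, R j) := by
          apply iSup_le
          intro N
          exact (measure_mono (Set.iInter₂_subset N le_rfl)).trans (hA N)
  have h1 := ENNReal.toReal_mono ENNReal.ofReal_ne_top hgoal
  rw [ENNReal.toReal_ofReal (Finset.sum_nonneg fun j _ => hR j)] at h1
  exact h1

end Pool.Agent.H285
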