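import Pool.Agent.H285.Base2
import Pool.Agent.H285.AW34

/-!
# AW35 (MP_0e9fac_pr)
-/



open MeasureTheory ProbabilityTheory Filter Topology

namespace Pool.Agent.H285


/- ======== TARGETS ======== -/

/-! ### Geometric sums over `ℤ^d` -/

theorem aw35_norm1_nonneg {d : ℕ} (j : Site d) (k : Fin d) : (j k).natAbs ≤ norm1 j :=
  Finset.single_le_sum (f := fun k => (j k).natAbs) (fun _ _ => Nat.zero_le _) (Finset.mem_univ k)

theorem aw35_summable_int {r : ℝ} (hr0 : 0 ≤ r) (hr : r < 1) :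
    Summable (fun a : ℤ => r ^ a.natAbs) := by
  refine Summable.of_nat_of_neg ?_ ?_
  · simpa using summable_geometric_of_lt_one hr0 hr
  · simpa using summable_geometric_of_lt_one hr0 hr

theorem aw35_summable_norm {r : ℝ} (hr0 : 0 ≤ r) (hr : r < 1) (d : ℕ) :
    Summable (fun j : Site d => r ^ norm1 j) := by
  induction d with
  | zero => exact Summable.of_finite
  | succ d ih =>
    rw [← (Fin.consEquiv (fun _ : Fin (d + 1) => ℤ)).summable_iff]
    have h := (aw35_summable_int hr0 hr).mul_of_nonneg ih (fun a => by positivity)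
      (fun a => by positivity)
    refine h.congr fun x => ?_
    simp only [Function.comp_apply, norm1, Fin.consEquiv_apply, Fin.sum_univ_succ, Fin.cons_zero,
      Fin.cons_succ, pow_add]

theorem aw35_mem_box {d : ℕ} (R : ℕ) (j : Site d) :
    j ∈ box d R ↔ ∀ k, (j k).natAbs ≤ R := by
  unfold box
  rw [Finset.mem_Icc, Pi.le_def, Pi.le_def]
  constructor
  · rintro ⟨h1, h2⟩ k
    have := h1 k
    have := h2 k
    omega
  · intro h
    exact ⟨fun k => by have := h k; omega, fun k => by have := h k; omega⟩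

theorem aw35_card_box (d R : ℕ) : (box d R).card = (2 * R + 1) ^ d := by
  unfold box
  rw [Pi.card_Icc]
  simp only [Int.card_Icc]
  rw [Finset.prod_const, Finset.card_univ, Fintype.card_fin]
  congr 1
  omega

theorem aw35_box_mono {d : ℕ} : Monotone (fun M : ℕ => box d M) := by
  intro a b hab j hj
  rw [aw35_mem_box] at hj ⊢
  exact fun k => (hj k).trans hab

theorem aw35_box_tendsto (d : ℕ) : Tendsto (fun M : ℕ => box d M) atTop atTop := by
  refine tendsto_atTop_finset_of_monotone aw35_box_mono fun j => ⟨norm1 j, ?_⟩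
  rw [aw35_mem_box]
  exact aw35_norm1_nonneg j

/-! ### The kernel and the Green function -/

theorem aw35_ker_nonneg (d : ℕ) (t : ℝ) (x : Site d) : 0 ≤ ker d t x := measureReal_nonneg

theorem aw35_ker_zero (d : ℕ) [NeZero d] : ker d 0 0 = 1 := by
  have := prob_noiseLaw d
  unfold ker
  have h : (noiseLaw d) {w | walk w 0 = 0} = 1 := by
    have hm : MeasurableSet {w : Noise d | walk w 0 = 0} :=
      measurable_walk (d := d) 0 (measurableSet_singleton 0)
    rw [← mem_ae_iff_prob_eq_one hm]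
    filter_upwards [ae_good d] with w hg
    unfold walk
    rw [jumps_zero hg]
    simp
  rw [measureReal_def, h, ENNReal.toReal_one]

theorem aw35_green_one_le (d : ℕ) [NeZero d] (n : ℕ) : 1 ≤ green d n := by
  unfold green
  rw [← aw35_ker_zero d]
  have := Finset.single_le_sum (f := fun k : ℕ => ker d k 0) (fun k _ => aw35_ker_nonneg d k 0)
    (Finset.mem_range.2 (Nat.succ_pos n) : 0 ∈ Finset.range (n + 1))
  simpa using this

theorem aw35_green_le (d : ℕ) [NeZero d] : ∃ C : ℝ, 0 < C ∧ ∀ n : ℕ,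
    green d n ≤ C * Real.sqrt (n + 1) := by
  obtain ⟨C, hC, h⟩ := ker_upper d
  refine ⟨3 * C + 1, by positivity, fun n => ?_⟩
  induction n with
  | zero =>
    unfold green
    rw [zero_add, Finset.sum_range_one, Nat.cast_zero, aw35_ker_zero]
    norm_num
    linarith
  | succ n ih =>
    have e1 : green d (n + 1) = green d n + ker d ((n + 1 : ℕ) : ℝ) 0 := by
      unfold green
      rw [Finset.sum_range_succ]
    have hn : (1 : ℝ) ≤ ((n + 1 : ℕ) : ℝ) := by exact_mod_cast Nat.succ_le_succ (Nat.zero_le n)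
    have h1 := h ((n + 1 : ℕ) : ℝ) hn
    set s := Real.sqrt ((n : ℝ) + 1) with hs
    have hs2 : s ^ 2 = (n : ℝ) + 1 := Real.sq_sqrt (by positivity)
    have hs1 : 1 ≤ s := by
      rw [hs]; exact Real.one_le_sqrt.2 (by have : (0 : ℝ) ≤ n := Nat.cast_nonneg n; linarith)
    set t := Real.sqrt (((n + 1 : ℕ) : ℝ) + 1) with ht
    have ht2 : t ^ 2 = s ^ 2 + 1 := by
      rw [ht, Real.sq_sqrt (by positivity), hs2]; push_cast; ring
    have ht0 : 0 ≤ t := Real.sqrt_nonneg _
    have hst : s ≤ t := by nlinarith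
    have h2 : ((n + 1 : ℕ) : ℝ) ^ (-(d : ℝ) / 2) ≤ 1 / s := by
      have hd : (1 : ℝ) ≤ d := by exact_mod_cast Nat.one_le_iff_ne_zero.2 (NeZero.ne d)
      calc ((n + 1 : ℕ) : ℝ) ^ (-(d : ℝ) / 2) ≤ ((n + 1 : ℕ) : ℝ) ^ (-(1 / 2) : ℝ) :=
            Real.rpow_le_rpow_of_exponent_le hn (by linarith)
        _ = 1 / s := by
          rw [Real.rpow_neg (by positivity), ← Real.sqrt_eq_rpow, hs, one_div]
          push_cast
          rfl
    have h3 : ker d ((n + 1 : ℕ) : ℝ) 0 ≤ C / s := by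
      calc _ ≤ C * ((n + 1 : ℕ) : ℝ) ^ (-(d : ℝ) / 2) := h1
        _ ≤ C * (1 / s) := mul_le_mul_of_nonneg_left h2 hC.le
        _ = C / s := by ring
    -- `1 / s ≤ 3 (t - s)`
    have h4 : 1 / s ≤ 3 * (t - s) := by
      rw [div_le_iff₀ (by linarith)]
      have h5 : (t - s) * (t + s) = 1 := by nlinarith
      have h6 : t + s ≤ 3 * s := by nlinarith
      have h7 : 0 ≤ t - s := by linarith
      nlinarith [mul_le_mul_of_nonneg_left h6 h7]
    rw [e1]
    have h8 : C / s ≤ C * (3 * (t - s)) := by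
      calc C / s = C * (1 / s) := by ring
        _ ≤ _ := mul_le_mul_of_nonneg_left h4 hC.le
    have h9 : 0 ≤ t - s := by linarith
    nlinarith

/-! ### The sums of the jump probabilities -/

/-- the probability of at least `norm1 j` jumps up to time `n + 1` -/
noncomputable def aw35_g (d n : ℕ) (j : Site d) : ℝ :=
  (noiseLaw d).real {v : Noise d | norm1 j ≤ jumps v ((n : ℝ) + 1)}

theorem aw35_g_le (d : ℕ) [NeZero d] (n : ℕ) (j : Site d) :
    aw35_g d n j ≤ (if j ∈ box d (4 * (n + 1)) then 1 else 0) + (Real.exp (1 / 4) / 2) ^ norm1 j := by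
  have := prob_noiseLaw d
  have hpos : 0 ≤ (Real.exp (1 / 4) / 2) ^ norm1 j := by positivity
  by_cases hj : j ∈ box d (4 * (n + 1))
  · rw [if_pos hj]
    have : aw35_g d n j ≤ 1 := measureReal_le_one
    linarith
  · rw [if_neg hj, zero_add]
    have h1 : 4 * (n + 1) < norm1 j := by
      by_contra hcon
      apply hj
      rw [aw35_mem_box]
      exact fun k => (aw35_norm1_nonneg j k).trans (by omega)
    have h2 := jumps_tail d (t := (n : ℝ) + 1) (θ := 1) (by positivity) zero_le_one (norm1 j)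
    refine le_trans h2 ?_
    rw [div_pow, ← Real.exp_nat_mul]
    have h3 : (1 : ℝ) + 1 = 2 := by norm_num
    rw [h3]
    refine div_le_div_of_nonneg_right (Real.exp_le_exp.2 ?_) (by positivity)
    have h4 : (4 : ℝ) * (n + 1) ≤ norm1 j := by exact_mod_cast h1.le
    linarith

theorem aw35_ratio : Real.exp (1 / 4) / 2 < 1 := by
  have h1 : Real.exp (1 / 4) ^ 4 = Real.exp 1 := by
    rw [← Real.exp_nat_mul]; norm_num
  have h2 := Real.exp_one_lt_d9
  have h3 : 0 < Real.exp (1 / 4) := Real.exp_pos _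
  by_contra hcon
  have h4 : 2 ≤ Real.exp (1 / 4) := by linarith
  have h5 : (2 : ℝ) ^ 4 ≤ Real.exp (1 / 4) ^ 4 := pow_le_pow_left₀ (by norm_num) h4 4
  rw [h1] at h5
  norm_num at h5
  linarith

theorem aw35_bound_summable (d n : ℕ) : Summable (fun j : Site d =>
    (if j ∈ box d (4 * (n + 1)) then (1 : ℝ) else 0) + (Real.exp (1 / 4) / 2) ^ norm1 j) := by
  refine Summable.add ?_ (aw35_summable_norm (by positivity) aw35_ratio d)
  exact summable_of_ne_finset_zero (s := box d (4 * (n + 1))) fun j hj => if_neg hj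

theorem aw35_g_nonneg (d n : ℕ) (j : Site d) : 0 ≤ aw35_g d n j := measureReal_nonneg

theorem aw35_g_summable (d : ℕ) [NeZero d] (n : ℕ) : Summable (aw35_g d n) :=
  Summable.of_nonneg_of_le (aw35_g_nonneg d n) (aw35_g_le d n) (aw35_bound_summable d n)

theorem aw35_g_tsum (d : ℕ) [NeZero d] : ∃ B : ℝ, 0 < B ∧ ∀ n : ℕ,
    ∑' j, aw35_g d n j ≤ B * ((n : ℝ) + 1) ^ d := by
  have hs := aw35_summable_norm (r := Real.exp (1 / 4) / 2) (by positivity) aw35_ratio d
  set T := ∑' j : Site d, (Real.exp (1 / 4) / 2) ^ norm1 j with hT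
  have hT0 : 0 ≤ T := tsum_nonneg fun j => by positivity
  refine ⟨9 ^ d + T, by positivity, fun n => ?_⟩
  have h1 : ∑' j, aw35_g d n j ≤ ∑' j : Site d, ((if j ∈ box d (4 * (n + 1)) then (1 : ℝ) else 0) +
      (Real.exp (1 / 4) / 2) ^ norm1 j) :=
    (aw35_g_summable d n).tsum_le_tsum (aw35_g_le d n) (aw35_bound_summable d n)
  have h2 : Summable (fun j : Site d => if j ∈ box d (4 * (n + 1)) then (1 : ℝ) else 0) :=
    summable_of_ne_finset_zero (s := box d (4 * (n + 1))) fun j hj => if_neg hj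
  have h3 : ∑' j : Site d, (if j ∈ box d (4 * (n + 1)) then (1 : ℝ) else 0) =
      (2 * (4 * ((n : ℝ) + 1)) + 1) ^ d := by
    rw [tsum_eq_sum (s := box d (4 * (n + 1))) fun j hj => if_neg hj,
      Finset.sum_congr rfl fun j hj => if_pos hj, Finset.sum_const, aw35_card_box, nsmul_eq_mul,
      mul_one]
    push_cast
    ring
  rw [h2.tsum_add hs, h3, ← hT] at h1
  have h4 : (2 * (4 * ((n : ℝ) + 1)) + 1) ^ d ≤ (9 * ((n : ℝ) + 1)) ^ d := by
    refine pow_le_pow_left₀ (by positivity) ?_ d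
    have : (0 : ℝ) ≤ n := Nat.cast_nonneg n
    linarith
  rw [mul_pow] at h4
  have h5 : (1 : ℝ) ≤ ((n : ℝ) + 1) ^ d := one_le_pow₀ (by
    have : (0 : ℝ) ≤ n := Nat.cast_nonneg n
    linarith)
  nlinarith [mul_le_mul_of_nonneg_left h5 hT0]

/-! ### The limit of large boxes -/

/-- the integrand -/
noncomputable def aw35_f (d : ℕ) (c : ℝ) (n : ℕ) (j : Site d) (Λ : Finset (Site d)) (v : Noise d) : ℝ :=
  Real.exp (-c * ∑ i ∈ Λ.erase j, ∑ k ∈ Finset.Icc 1 n, ker d k (j + walk v k - i))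

theorem aw35_f_meas (d : ℕ) (c : ℝ) (n : ℕ) (j : Site d) (Λ : Finset (Site d)) :
    Measurable (aw35_f d c n j Λ) := by
  unfold aw35_f
  refine Real.measurable_exp.comp (Measurable.const_mul ?_ _)
  refine Finset.measurable_fun_sum _ fun i _ => Finset.measurable_fun_sum _ fun k _ => ?_
  have h1 : Measurable (fun x : Site d => ker d k (j + x - i)) := Measurable.of_discrete
  exact h1.comp (measurable_walk (d := d) k)

theorem aw35_f_bound (d : ℕ) {c : ℝ} (hc : 0 ≤ c) (n : ℕ) (j : Site d) (Λ : Finset (Site d))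
    (v : Noise d) : ‖aw35_f d c n j Λ v‖ ≤ 1 := by
  unfold aw35_f
  rw [Real.norm_eq_abs, abs_of_pos (Real.exp_pos _), Real.exp_le_one_iff]
  have : 0 ≤ ∑ i ∈ Λ.erase j, ∑ k ∈ Finset.Icc 1 n, ker d k (j + walk v k - i) :=
    Finset.sum_nonneg fun i _ => Finset.sum_nonneg fun k _ => aw35_ker_nonneg _ _ _
  nlinarith [mul_nonneg hc this]

/-- the limit of the integrand -/
noncomputable def aw35_F (d : ℕ) (c : ℝ) (n : ℕ) (v : Noise d) : ℝ :=
  Real.exp (-c * ∑ k ∈ Finset.Icc 1 n, (1 - ker d k (walk v k)))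

theorem aw35_tendsto_erase (d : ℕ) {f : Site d → ℝ} {a : ℝ} (hf : HasSum f a) (j : Site d) :
    Tendsto (fun M : ℕ => ∑ i ∈ (box d M).erase j, f i) atTop (𝓝 (a - f j)) := by
  have h1 : Tendsto (fun M : ℕ => ∑ i ∈ box d M, f i - f j) atTop (𝓝 (a - f j)) :=
    (Tendsto.comp hf (aw35_box_tendsto d)).sub_const _
  refine h1.congr' ?_
  filter_upwards [eventually_ge_atTop (norm1 j)] with M hM
  have hj : j ∈ box d M := by
    rw [aw35_mem_box]
    exact fun k => (aw35_norm1_nonneg j k).trans hM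
  rw [← Finset.add_sum_erase _ _ hj]
  ring

theorem aw35_hasSum (d : ℕ) [NeZero d] (t : ℝ) (a : Site d) :
    HasSum (fun i : Site d => ker d t (a - i)) 1 := by
  have h := hasSum_ker d t
  rw [← (Equiv.subLeft a).hasSum_iff] at h
  exact h

theorem aw35_inner (d : ℕ) [NeZero d] (n : ℕ) (j : Site d) (v : Noise d) :
    Tendsto (fun M : ℕ => ∑ i ∈ (box d M).erase j, ∑ k ∈ Finset.Icc 1 n,
      ker d (k : ℝ) (j + walk v (k : ℝ) - i)) atTop
      (𝓝 (∑ k ∈ Finset.Icc 1 n, (1 - ker d (k : ℝ) (walk v (k : ℝ))))) := by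
  have h1 : ∀ M : ℕ, ∑ k ∈ Finset.Icc 1 n, ∑ i ∈ (box d M).erase j,
      ker d (k : ℝ) (j + walk v (k : ℝ) - i) = ∑ i ∈ (box d M).erase j, ∑ k ∈ Finset.Icc 1 n,
      ker d (k : ℝ) (j + walk v (k : ℝ) - i) :=
    fun M => Finset.sum_comm
  refine Tendsto.congr h1 ?_
  refine tendsto_finsetSum _ fun k _ => ?_
  have h3 := aw35_tendsto_erase d (aw35_hasSum d (k : ℝ) (j + walk v (k : ℝ))) j
  have e : j + walk v (k : ℝ) - j = walk v (k : ℝ) := add_sub_cancel_left _ _
  rw [e] at h3
  exact h3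

theorem aw35_f_tendsto (d : ℕ) [NeZero d] (c : ℝ) (n : ℕ) (j : Site d) (v : Noise d) :
    Tendsto (fun M : ℕ => aw35_f d c n j (box d M) v) atTop (𝓝 (aw35_F d c n v)) := by
  have h := ((aw35_inner d n j v).const_mul (-c)).rexp
  exact h

theorem aw35_F_le (d : ℕ) [NeZero d] {c : ℝ} (hc : 0 ≤ c) (n : ℕ) (v : Noise d) :
    aw35_F d c n v ≤ Real.exp (-c * (n - green d n)) := by
  unfold aw35_F
  rw [Real.exp_le_exp]
  have h1 : (n : ℝ) - green d n ≤ ∑ k ∈ Finset.Icc 1 n, (1 - ker d k (walk v k)) := by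
    rw [Finset.sum_sub_distrib, Finset.sum_const, Nat.card_Icc, Nat.add_sub_cancel, nsmul_eq_mul,
      mul_one]
    have h2 : ∑ k ∈ Finset.Icc 1 n, ker d k (walk v k) ≤ ∑ k ∈ Finset.Icc 1 n, ker d k 0 :=
      Finset.sum_le_sum fun k _ => ker_le_ker_zero d (Nat.cast_nonneg k) _
    have h3 : ∑ k ∈ Finset.Icc 1 n, ker d k 0 ≤ green d n := by
      unfold green
      refine Finset.sum_le_sum_of_subset_of_nonneg ?_ fun k _ _ => aw35_ker_nonneg _ _ _
      intro k hk
      rw [Finset.mem_Icc] at hk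
      rw [Finset.mem_range]
      omega
    linarith
  nlinarith [mul_le_mul_of_nonneg_left h1 hc]

theorem aw35_lim (d : ℕ) [NeZero d] {c : ℝ} (hc : 0 ≤ c) (n : ℕ) : ∃ L : ℝ,
    L ≤ Real.exp (-c * (n - green d n)) * ∑' j, aw35_g d n j ∧
    Tendsto (fun M : ℕ => ∑ j ∈ box d M,
      ∫ v in {v : Noise d | norm1 j ≤ jumps v ((n : ℝ) + 1)}, aw35_f d c n j (box d M) v
        ∂(noiseLaw d)) atTop (𝓝 L) := by
  have := prob_noiseLaw d
  set A : Site d → Set (Noise d) := fun j => {v | norm1 j ≤ jumps v ((n : ℝ) + 1)} with hA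
  refine ⟨∑' j, ∫ v in A j, aw35_F d c n v ∂(noiseLaw d), ?_, ?_⟩
  · have hmeas : Measurable (aw35_F d c n) := by
      unfold aw35_F
      refine Real.measurable_exp.comp (Measurable.const_mul ?_ _)
      refine Finset.measurable_fun_sum _ fun k _ => ?_
      have h1 : Measurable (fun x : Site d => 1 - ker d k x) := Measurable.of_discrete
      exact h1.comp (measurable_walk (d := d) k)
    have h1 : ∀ j, ∫ v in A j, aw35_F d c n v ∂(noiseLaw d) ≤
        Real.exp (-c * (n - green d n)) * aw35_g d n j := by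
      intro j
      calc ∫ v in A j, aw35_F d c n v ∂(noiseLaw d)
          ≤ ∫ v in A j, Real.exp (-c * (n - green d n)) ∂(noiseLaw d) := by
            refine integral_mono_of_nonneg (ae_of_all _ fun v => (Real.exp_pos _).le)
              (integrable_const _) (ae_of_all _ fun v => aw35_F_le d hc n v)
        _ = _ := by
          rw [setIntegral_const, smul_eq_mul, mul_comm]
          rfl
    have h2 : ∀ j, 0 ≤ ∫ v in A j, aw35_F d c n v ∂(noiseLaw d) := fun j =>
      integral_nonneg fun v => (Real.exp_pos _).le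
    rw [← tsum_mul_left]
    have h3 := (aw35_g_summable d n).mul_left (Real.exp (-c * (n - green d n)))
    exact (Summable.of_nonneg_of_le h2 h1 h3).tsum_le_tsum h1 h3
  · have h1 : ∀ M : ℕ, ∑ j ∈ box d M, ∫ v in A j, aw35_f d c n j (box d M) v ∂(noiseLaw d) =
        ∑' j, if j ∈ box d M then ∫ v in A j, aw35_f d c n j (box d M) v ∂(noiseLaw d) else 0 := by
      intro M
      rw [tsum_eq_sum (s := box d M) fun j hj => if_neg hj]
      exact Finset.sum_congr rfl fun j hj => (if_pos hj).symm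
    refine Tendsto.congr (fun M => (h1 M).symm) ?_
    refine tendsto_tsum_of_dominated_convergence (bound := aw35_g d n) (aw35_g_summable d n) ?_ ?_
    · intro j
      have h2 : Tendsto (fun M : ℕ => ∫ v in A j, aw35_f d c n j (box d M) v ∂(noiseLaw d)) atTop
          (𝓝 (∫ v in A j, aw35_F d c n v ∂(noiseLaw d))) := by
        refine tendsto_integral_of_dominated_convergence (fun _ => (1 : ℝ)) ?_
          (integrable_const _) ?_ ?_
        · exact fun M => (aw35_f_meas d c n j (box d M)).aestronglyMeasurable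
        · exact fun M => ae_of_all _ fun v => aw35_f_bound d hc n j (box d M) v
        · exact ae_of_all _ fun v => aw35_f_tendsto d c n j v
      refine h2.congr' ?_
      filter_upwards [eventually_ge_atTop (norm1 j)] with M hM
      have hj : j ∈ box d M := by
        rw [aw35_mem_box]
        exact fun k => (aw35_norm1_nonneg j k).trans hM
      rw [if_pos hj]
    · refine Eventually.of_forall fun M j => ?_
      split_ifs with hj
      · have h3 := norm_setIntegral_le_of_norm_le_const (μ := noiseLaw d) (s := A j) (C := 1)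
          (f := aw35_f d c n j (box d M)) (measure_lt_top _ _)
          (fun v _ => aw35_f_bound d hc n j (box d M) v)
        rw [one_mul] at h3
        exact h3
      · rw [norm_zero]
        exact aw35_g_nonneg d n j

/-- numerical bound -/
theorem aw35_num (d : ℕ) {κ C B G : ℝ} (hκ : 0 < κ) (hC : 0 < C) (hB : 0 < B) (n : ℕ)
    (hG1 : 1 ≤ G) (hG : G ≤ C * Real.sqrt (n + 1)) {S : ℝ} (hS : S ≤ B * ((n : ℝ) + 1) ^ d) :
    Real.exp (-(κ / G) * (n - G)) * S ≤
      (Real.exp (κ + κ / C) * B * ((2 * d + 4).factorial / (κ / C) ^ (2 * d + 4))) *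
        (1 / ((n : ℝ) + 1) ^ 2) := by
  set s := Real.sqrt ((n : ℝ) + 1) with hs
  have hn : (0 : ℝ) ≤ n := Nat.cast_nonneg n
  have hs2 : s ^ 2 = (n : ℝ) + 1 := Real.sq_sqrt (by positivity)
  have hs1 : 1 ≤ s := by
    rw [hs]; exact Real.one_le_sqrt.2 (by linarith)
  have hG0 : 0 < G := by linarith
  have h1 : -(κ / G) * (n - G) ≤ (κ + κ / C) - (κ / C) * s := by
    have e1 : -(κ / G) * (n - G) = κ - κ * (n / G) := by field_simp; ring
    have h2 : (s - 1) / C ≤ n / G := by
      rw [div_le_div_iff₀ hC hG0]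
      calc (s - 1) * G ≤ (s - 1) * (C * s) := mul_le_mul_of_nonneg_left hG (by linarith)
        _ = C * (s ^ 2 - s) := by ring
        _ ≤ C * n := mul_le_mul_of_nonneg_left (by rw [hs2]; linarith) hC.le
        _ = n * C := by ring
    have h3 : κ * ((s - 1) / C) ≤ κ * (n / G) := mul_le_mul_of_nonneg_left h2 hκ.le
    have e2 : κ * ((s - 1) / C) = (κ / C) * s - κ / C := by ring
    rw [e1]
    linarith
  have h4 : Real.exp (-(κ / G) * (n - G)) ≤ Real.exp (κ + κ / C) * (1 / Real.exp ((κ / C) * s)) := by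
    rw [one_div, ← Real.exp_neg, ← Real.exp_add]
    exact Real.exp_le_exp.2 (by linarith)
  set c := κ / C with hc
  have hc0 : 0 < c := by positivity
  have h5 := Real.pow_div_factorial_le_exp (c * s) (by positivity) (2 * d + 4)
  have hfac : (0 : ℝ) < (2 * d + 4).factorial := by exact_mod_cast Nat.factorial_pos _
  have e3 : (c * s) ^ (2 * d + 4) = c ^ (2 * d + 4) * ((n : ℝ) + 1) ^ (d + 2) := by
    rw [mul_pow, ← hs2, ← pow_mul]
    congr 2
  have h6 : 1 / Real.exp (c * s) ≤
      (2 * d + 4).factorial / (c ^ (2 * d + 4) * ((n : ℝ) + 1) ^ (d + 2)) := by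
    rw [e3] at h5
    have h7 : 0 < c ^ (2 * d + 4) * ((n : ℝ) + 1) ^ (d + 2) := by positivity
    rw [div_le_div_iff₀ (Real.exp_pos _) h7, one_mul]
    rw [div_le_iff₀ hfac] at h5
    linarith
  by_cases hS0 : S ≤ 0
  · refine le_trans (mul_nonpos_of_nonneg_of_nonpos (Real.exp_pos _).le hS0) (by positivity)
  · push Not at hS0
    calc Real.exp (-(κ / G) * (n - G)) * S
        ≤ (Real.exp (κ + c) * ((2 * d + 4).factorial / (c ^ (2 * d + 4) * ((n : ℝ) + 1) ^ (d + 2)))) *
          (B * ((n : ℝ) + 1) ^ d) := by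
          refine mul_le_mul (le_trans h4 ?_) hS hS0.le (by positivity)
          exact mul_le_mul_of_nonneg_left h6 (Real.exp_pos _).le
      _ = (Real.exp (κ + c) * B * ((2 * d + 4).factorial / c ^ (2 * d + 4))) *
        (1 / ((n : ℝ) + 1) ^ 2) := by
          have : ((n : ℝ) + 1) ^ (d + 2) = ((n : ℝ) + 1) ^ d * ((n : ℝ) + 1) ^ 2 := pow_add _ _ _
          rw [this]
          field_simp

theorem blue_summable (d : ℕ) [NeZero d] {p : ℝ} (hp : 1 / 2 < p) (hp1 : p < 1) :
    ∃ u : ℕ → ℝ, Summable u ∧ ∀ n, 0 ≤ u n ∧ ∀ ε : ℝ, 0 < ε → ∀ᶠ M : ℕ in atTop,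
      (law d p).real {ω | ∃ j ∈ alive ω.1 ω.2 (box d M) n, ω.1 j = false ∧
        norm1 j ≤ jumps (ω.2 j) (n + 1)} ≤ u n + ε := by
  obtain ⟨C, hC, hG⟩ := aw35_green_le d
  obtain ⟨B, hB, hS⟩ := aw35_g_tsum d
  set κ : ℝ := (2 * p - 1) ^ 2 / (8 * p) with hκ
  have hκ0 : 0 < κ := by
    have h1 : 0 < 2 * p - 1 := by linarith
    have h2 : 0 < p := by linarith
    positivity
  set K : ℝ := Real.exp (κ + κ / C) * B * ((2 * d + 4).factorial / (κ / C) ^ (2 * d + 4)) with hK
  have hK0 : 0 ≤ K := by positivity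
  refine ⟨fun n => K * (1 / ((n : ℝ) + 1) ^ 2), ?_, fun n => ⟨by positivity, ?_⟩⟩
  · refine Summable.mul_left _ ?_
    have h1 := (summable_nat_add_iff 1).2 (Real.summable_one_div_nat_pow.2 (by norm_num : 1 < 2))
    refine h1.congr fun n => ?_
    push_cast
    rfl
  · intro ε hε
    have hG1 := aw35_green_one_le d n
    have hG0 : 0 < green d n := by linarith
    obtain ⟨L, hL, hlim⟩ := aw35_lim d (c := κ / green d n) (by positivity) n
    have h1 := aw35_num d hκ0 hC hB n hG1 (hG n) (hS n)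
    have h2 : L < K * (1 / ((n : ℝ) + 1) ^ 2) + ε := by linarith
    filter_upwards [hlim.eventually_lt_const h2] with M hM
    refine le_trans (blue_event d hp hp1 (box d M) n) (le_trans (le_of_eq ?_) hM.le)
    refine Finset.sum_congr rfl fun j _ => ?_
    have e1 : (2 * p - 1) ^ 2 / (8 * p * green d n) = κ / green d n := by
      rw [hκ, div_div]
    rw [e1]
    rfl

end Pool.Agent.H285
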