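import Pool.Agent.H285.Base2
import Pool.Agent.H285.AW35
import Pool.Agent.H285.AW12

/-!
# AW36 (MP_0e9fac_pr)
-/



open MeasureTheory ProbabilityTheory Filter Topology

namespace Pool.Agent.H285


/- ======== TARGETS ======== -/

theorem aw36_norm1_add {d : ℕ} (x y : Site d) : norm1 (x + y) ≤ norm1 x + norm1 y := by
  unfold norm1
  rw [← Finset.sum_add_distrib]
  exact Finset.sum_le_sum fun k _ => Int.natAbs_add_le _ _

theorem aw36_norm1_zero {d : ℕ} : norm1 (0 : Site d) = 0 := by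
  unfold norm1
  simp

theorem aw36_norm1_neg {d : ℕ} (x : Site d) : norm1 (-x) = norm1 x := by
  unfold norm1
  simp

theorem aw36_norm1_unit {d : ℕ} (u : Dir d) : norm1 (unitVec u) = 1 := by
  unfold norm1 unitVec
  rw [Finset.sum_eq_single u.1]
  · rw [Pi.single_eq_same]
    split_ifs <;> simp
  · intro k _ hk
    rw [Pi.single_eq_of_ne hk]
    simp
  · intro h
    exact absurd (Finset.mem_univ _) h

theorem aw36_norm1_walk {d : ℕ} (w : Noise d) (t : ℝ) : norm1 (walk w t) ≤ jumps w t := by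
  unfold walk
  generalize jumps w t = m
  induction m with
  | zero => simp [aw36_norm1_zero]
  | succ m ih =>
    rw [Finset.sum_range_succ]
    refine le_trans (aw36_norm1_add _ _) ?_
    rw [aw36_norm1_unit]
    omega

theorem aw36_ae_good (d : ℕ) [NeZero d] {p : ℝ} (hp : p ∈ Set.Icc (0 : ℝ) 1) :
    ∀ᵐ ω ∂(law d p), ∀ i, Good (ω.2 i) := by
  have := prob_noiseLaw d
  have := prob_noises d
  have := prob_colours d hp
  have h1 : ∀ᵐ w ∂(noises d), ∀ i, Good (w i) := by
    rw [ae_all_iff]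
    intro i
    have h2 : MeasurePreserving (Function.eval i) (noises d) (noiseLaw d) :=
      measurePreserving_eval_infinitePi (fun _ : Site d => noiseLaw d) i
    exact h2.quasiMeasurePreserving.ae (ae_good d)
  have h3 : Measure.QuasiMeasurePreserving Prod.snd (law d p) (noises d) := by
    have : law d p = (colours d p).prod (noises d) := rfl
    rw [this]
    exact Measure.quasiMeasurePreserving_snd
  exact h3.ae h1

theorem final_blue (d : ℕ) [NeZero d] {p : ℝ} (hp : 1 / 2 < p) (hp1 : p < 1) :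
    ∀ᵐ ω ∂(law d p), ¬ InfOften ω false := by
  have hpI : p ∈ Set.Icc (0 : ℝ) 1 := ⟨by linarith, hp1.le⟩
  have := prob_law d hpI
  obtain ⟨u, hus, hu⟩ := blue_summable d hp hp1
  set G : Set (Sample d) := {ω | ∀ i, Good (ω.2 i)} with hG
  set Eb : ℕ → Set (Sample d) := fun n => {ω | ∃ t : ℝ, (n : ℝ) ≤ t ∧ t ≤ n + 1 ∧
    Holds ω false t 0} with hEb
  set E : ℕ → ℕ → Set (Sample d) := fun n M => {ω | ∃ j ∈ alive ω.1 ω.2 (box d M) n,
    ω.1 j = false ∧ norm1 j ≤ jumps (ω.2 j) (n + 1)} with hE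
  have hsub : ∀ n, Eb n ∩ G ⊆ ⋃ M0 : ℕ, ⋂ M ∈ Set.Ici M0, E n M := by
    intro n ω hω
    obtain ⟨⟨t, ht1, ht2, hH⟩, hgood⟩ := hω
    obtain ⟨M0, hM0⟩ := eventually_atTop.mp hH
    rw [Set.mem_iUnion]
    refine ⟨M0, ?_⟩
    rw [Set.mem_iInter₂]
    intro M hM
    obtain ⟨j, hj1, hj2, hj3⟩ := hM0 M hM
    have hn0 : (0 : ℝ) ≤ n := Nat.cast_nonneg n
    refine ⟨j, alive_mono_time ω.1 ω.2 (box d M) (fun i _ => hgood i) hn0 ht1 hj1, hj2, ?_⟩
    have h1 : j = - walk (ω.2 j) t := by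
      unfold pos at hj3
      exact eq_neg_of_add_eq_zero_left hj3
    have h2 : norm1 j = norm1 (walk (ω.2 j) t) := by
      conv_lhs => rw [h1]
      exact aw36_norm1_neg _
    rw [h2]
    exact le_trans (aw36_norm1_walk _ _) (jumps_mono (hgood j) (le_trans hn0 ht1) ht2)
  have hG0 : law d p Gᶜ = 0 := by
    have h := aw36_ae_good d hpI
    rw [ae_iff] at h
    exact h
  have hbound : ∀ n, law d p (Eb n) ≤ ENNReal.ofReal (u n) := by
    intro n
    have h1 : law d p (Eb n) ≤ law d p (Eb n ∩ G) + law d p Gᶜ := by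
      refine le_trans (measure_mono ?_) (measure_union_le _ _)
      intro ω hω
      by_cases hg : ω ∈ G
      · exact Or.inl ⟨hω, hg⟩
      · exact Or.inr hg
    rw [hG0, add_zero] at h1
    refine le_trans h1 (le_trans (measure_mono (hsub n)) ?_)
    have hmono : Monotone (fun M0 : ℕ => ⋂ M ∈ Set.Ici M0, E n M) := by
      intro a b hab
      apply Set.biInter_subset_biInter_left
      exact Set.Ici_subset_Ici.mpr hab
    rw [hmono.measure_iUnion]
    apply iSup_le
    intro M0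
    rw [← ofReal_measureReal]
    apply ENNReal.ofReal_le_ofReal
    apply le_of_forall_pos_le_add
    intro ε hε
    obtain ⟨M, hM1, hM2⟩ := ((hu n).2 ε hε).and (eventually_ge_atTop M0) |>.exists
    refine le_trans (measureReal_mono ?_) hM1
    exact Set.biInter_subset_of_mem (show M ∈ Set.Ici M0 from hM2)
  have hsum : ∑' n, law d p (Eb n) ≠ ⊤ := by
    refine ne_top_of_le_ne_top ?_ (ENNReal.tsum_le_tsum hbound)
    rw [← ENNReal.ofReal_tsum_of_nonneg (fun n => (hu n).1) hus]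
    exact ENNReal.ofReal_ne_top
  filter_upwards [ae_eventually_notMem hsum] with ω hω hinf
  obtain ⟨n0, hn0⟩ := eventually_atTop.mp hω
  obtain ⟨t, ht1, ht2⟩ := hinf n0
  have ht0 : (0 : ℝ) ≤ t := le_trans (Nat.cast_nonneg _) ht1
  have hfl : n0 ≤ ⌊t⌋₊ := Nat.le_floor ht1
  apply hn0 ⌊t⌋₊ hfl
  exact ⟨t, Nat.floor_le ht0, (Nat.lt_floor_add_one t).le, ht2⟩

end Pool.Agent.H285
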