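import Pool.Agent.H285.Base2
import Pool.Agent.H285.AW22
import Pool.Agent.H285.AW05
import Pool.Agent.H285.AW09
import Pool.Agent.H285.AW02

/-!
# AW40 (MP_0e9fac_pr)
-/



open MeasureTheory ProbabilityTheory Filter Topology

namespace Pool.Agent.H285


/- ======== TARGETS ======== -/

section aw40

variable {d : ℕ}

theorem aw40_meas_of_dep {Ω α : Type*} [MeasurableSpace Ω] [Countable α] [MeasurableSpace α]
    [MeasurableSingletonClass α] (π : Ω → α) (hπ : Measurable π) (E : Set Ω)
    (h : ∀ w w', π w = π w' → w ∈ E → w' ∈ E) : MeasurableSet E := by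
  have h1 : E = π ⁻¹' (π '' E) := by
    ext w
    constructor
    · intro hw
      exact ⟨w, hw, rfl⟩
    · rintro ⟨w', hw', he⟩
      exact h w' w he hw'
  rw [h1]
  exact hπ ((π '' E).to_countable.measurableSet)

theorem aw40_evol_subset (c : Site d → Bool) (q : ℕ → Site d → Site d) (A : Finset (Site d))
    (k : ℕ) : evol c q A k ⊆ A := by
  induction k with
  | zero => exact Finset.Subset.refl _
  | succ k ih => exact (ann_subset c _ _).trans ih

theorem aw40_evol_congr (c : Site d → Bool) (q q' : ℕ → Site d → Site d) (A : Finset (Site d))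
    (k : ℕ) (h : ∀ l, 1 ≤ l → l ≤ k → ∀ j ∈ A, q l j = q' l j) :
    evol c q A k = evol c q' A k := by
  induction k with
  | zero => rfl
  | succ k ih =>
    have h1 := ih fun l h1 h2 => h l h1 (by omega)
    show annihilate c (q (k + 1)) (evol c q A k) = annihilate c (q' (k + 1)) (evol c q' A k)
    rw [← h1]
    exact ann_congr (fun _ _ => rfl) fun j hj =>
      h (k + 1) (by omega) le_rfl j (aw40_evol_subset c q A k hj)

theorem aw40_evol_succ' (c : Site d → Bool) (q : ℕ → Site d → Site d) (A : Finset (Site d))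
    (k : ℕ) : evol c q A (k + 1) = evol c (fun l => q (l + 1)) (annihilate c (q 1) A) k := by
  induction k with
  | zero => rfl
  | succ k ih =>
    show annihilate c (q (k + 1 + 1)) (evol c q A (k + 1)) = _
    rw [ih]
    rfl

/-- difference of charges -/
theorem aw40_charge {c : Site d → Bool} {A A' : Finset (Site d)} (h : Dom c A A')
    (φ : Site d → ℝ) :
    ∑ i ∈ A', sgn (c i) * φ i - ∑ i ∈ A, sgn (c i) * φ i = ∑ i ∈ symmDiff A A', φ i := by
  classical
  have h1 : ∑ i ∈ A' \ A, sgn (c i) * φ i = ∑ i ∈ A' \ A, φ i := by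
    refine Finset.sum_congr rfl fun i hi => ?_
    rw [Finset.mem_sdiff] at hi
    have : c i = true := by
      by_contra hc
      exact hi.2 (h.2 i hi.1 (by simpa using hc))
    rw [this, sgn, if_pos rfl, one_mul]
  have h2 : ∑ i ∈ A \ A', sgn (c i) * φ i = -∑ i ∈ A \ A', φ i := by
    rw [← Finset.sum_neg_distrib]
    refine Finset.sum_congr rfl fun i hi => ?_
    rw [Finset.mem_sdiff] at hi
    have : c i = false := by
      by_contra hc
      exact hi.2 (h.1 i hi.1 (by simpa using hc))
    rw [this, sgn]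
    simp
  have h3 : ∑ i ∈ symmDiff A A', φ i = ∑ i ∈ A \ A', φ i + ∑ i ∈ A' \ A, φ i := by
    rw [symmDiff_def, Finset.sup_eq_union, Finset.sum_union]
    exact disjoint_sdiff_sdiff
  have h4 := Finset.sum_sdiff_sub_sum_sdiff (s₁ := A) (s₂ := A') (f := fun i => sgn (c i) * φ i)
  rw [h1, h2] at h4
  rw [h3]
  linarith

/-- `A'` is one charge above `A`, and they differ exactly in `κ` -/
def Aw40Pair (c : Site d → Bool) (A A' : Finset (Site d)) (κ : Site d) : Prop :=
  Dom c A A' ∧ symmDiff A A' = {κ}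

theorem aw40_step {c : Site d → Bool} {A A' : Finset (Site d)} {κ : Site d}
    (h : Aw40Pair c A A' κ) (y : Site d → Site d) :
    ∃ κ₁, Aw40Pair c (annihilate c y A) (annihilate c y A') κ₁ ∧ y κ₁ = y κ := by
  classical
  have hD : Dom c (annihilate c y A) (annihilate c y A') := ann_mono h.1
  have key : ∀ φ : Site d → ℝ,
      ∑ i ∈ symmDiff (annihilate c y A) (annihilate c y A'), φ (y i) = φ (y κ) := by
    intro φ
    rw [← aw40_charge hD (fun i => φ (y i)), ann_charge, ann_charge,
      aw40_charge h.1 (fun i => φ (y i)), h.2, Finset.sum_singleton]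
  have h1 := key (fun _ => 1)
  simp only [Finset.sum_const, nsmul_eq_mul, mul_one] at h1
  have h2 : (symmDiff (annihilate c y A) (annihilate c y A')).card = 1 := by exact_mod_cast h1
  obtain ⟨κ₁, hκ₁⟩ := Finset.card_eq_one.1 h2
  refine ⟨κ₁, ⟨hD, hκ₁⟩, ?_⟩
  have h3 := key (fun z => if z = y κ then 1 else 0)
  rw [hκ₁, Finset.sum_singleton, if_pos rfl] at h3
  by_contra hne
  rw [if_neg hne] at h3
  exact zero_ne_one h3

/-- the event that the two systems differ at `x` at some time of the grid -/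
def Aw40E (c : Site d → Bool) (h : ℝ) (k : ℕ) (A A' : Finset (Site d))
    (q0 : Site d → Site d) (x : Site d) : Set (Site d → Noise d) :=
  {w | ∃ l : ℕ, 1 ≤ l ∧ l ≤ k ∧ ∃ κ : Site d,
    κ ∈ symmDiff (evol c (fun l j => q0 j + walk (w j) (l * h)) A l)
      (evol c (fun l j => q0 j + walk (w j) (l * h)) A' l) ∧ q0 κ + walk (w κ) (l * h) = x}

/-- the event that the walk hits `x` -/
def Aw40R (h : ℝ) (k : ℕ) (y x : Site d) : Set (Noise d) :=
  {v | ∃ l : ℕ, 1 ≤ l ∧ l ≤ k ∧ y + walk v (l * h) = x}

theorem aw40_measR (h : ℝ) (k : ℕ) (y x : Site d) : MeasurableSet (Aw40R h k y x) := by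
  have h1 : Aw40R h k y x = ⋃ l : ℕ, ⋃ _ : 1 ≤ l ∧ l ≤ k, {v | y + walk v (l * h) = x} := by
    ext v
    simp only [Aw40R, Set.mem_ofPred_eq, Set.mem_iUnion, exists_prop]
    exact ⟨fun ⟨l, a, b, e⟩ => ⟨l, ⟨a, b⟩, e⟩, fun ⟨l, ⟨a, b⟩, e⟩ => ⟨l, a, b, e⟩⟩
  rw [h1]
  refine MeasurableSet.iUnion fun l => MeasurableSet.iUnion fun _ => ?_
  have h2 : Measurable (fun v : Noise d => y + walk v (l * h)) :=
    (measurable_of_countable (fun z : Site d => y + z)).comp (measurable_walk _)
  exact h2 (measurableSet_singleton x)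

theorem aw40_measE (c : Site d → Bool) (h : ℝ) (k : ℕ) (A A' : Finset (Site d))
    (q0 : Site d → Site d) (x : Site d) : MeasurableSet (Aw40E c h k A A' q0 x) := by
  classical
  refine aw40_meas_of_dep (α := Fin (k + 1) → (A ∪ A' : Finset (Site d)) → Site d)
    (fun w l j => walk (w j) ((l : ℕ) * h)) ?_ _ ?_
  · refine measurable_pi_lambda _ fun l => measurable_pi_lambda _ fun j => ?_
    exact (measurable_walk _).comp (measurable_pi_apply _)
  · intro w w' he hw
    have he' : ∀ l : ℕ, l ≤ k → ∀ j ∈ A ∪ A', walk (w j) (l * h) = walk (w' j) (l * h) := by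
      intro l hl j hj
      exact congrFun (congrFun he ⟨l, by omega⟩) ⟨j, hj⟩
    obtain ⟨l, h1, h2, κ, hκ, hx⟩ := hw
    have e1 : evol c (fun l j => q0 j + walk (w j) (l * h)) A l =
        evol c (fun l j => q0 j + walk (w' j) (l * h)) A l :=
      aw40_evol_congr _ _ _ _ _ fun m _ hm2 j hj => by
        rw [he' m (hm2.trans h2) j (Finset.mem_union_left _ hj)]
    have e2 : evol c (fun l j => q0 j + walk (w j) (l * h)) A' l =
        evol c (fun l j => q0 j + walk (w' j) (l * h)) A' l :=
      aw40_evol_congr _ _ _ _ _ fun m _ hm2 j hj => by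
        rw [he' m (hm2.trans h2) j (Finset.mem_union_right _ hj)]
    have hκ' : κ ∈ A ∪ A' := by
      rw [Finset.mem_symmDiff] at hκ
      rcases hκ with hκ | hκ
      · exact Finset.mem_union_left _ (aw40_evol_subset _ _ _ _ hκ.1)
      · exact Finset.mem_union_right _ (aw40_evol_subset _ _ _ _ hκ.1)
    refine ⟨l, h1, h2, κ, ?_, ?_⟩
    · rw [← e1, ← e2]; exact hκ
    · rw [← he' l h2 κ hκ']; exact hx

theorem aw40_walk_zero {w : Noise d} (hw : Good w) : walk w 0 = 0 := by
  unfold walk
  rw [jumps_zero hw]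
  simp

theorem aw40_cat {w w' : Noise d} (hw : Good w) (hw' : Good w') {h : ℝ} (hh : 0 ≤ h) (l : ℕ) :
    walk (cat h w w') (((l + 1 : ℕ) : ℝ) * h) = walk w h + walk w' (l * h) := by
  have h1 : ((l + 1 : ℕ) : ℝ) * h = h + l * h := by push_cast; ring
  rw [h1, walk_cat_add hw hw' hh (by positivity)]

/-- decomposition of the event at the first step -/
theorem aw40_split (c : Site d → Bool) {h : ℝ} (hh : 0 ≤ h) (k : ℕ) (A A' : Finset (Site d))
    (q0 : Site d → Site d) (x : Site d) {w w' : Site d → Noise d} (hw : ∀ j, Good (w j))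
    (hw' : ∀ j, Good (w' j)) (y : Site d → Site d) (hy : ∀ j, y j = q0 j + walk (w j) h)
    (hE : catAll h w w' ∈ Aw40E c h (k + 1) A A' q0 x) :
    (∃ κ' ∈ symmDiff (annihilate c y A) (annihilate c y A'), y κ' = x) ∨
      w' ∈ Aw40E c h k (annihilate c y A) (annihilate c y A') y x := by
  obtain ⟨l, h1, h2, κ, hκ, hx⟩ := hE
  obtain ⟨l, rfl⟩ : ∃ m, l = m + 1 := ⟨l - 1, by omega⟩
  have hQ : ∀ m j, q0 j + walk (catAll h w w' j) (((m + 1 : ℕ) : ℝ) * h) =
      y j + walk (w' j) (m * h) := by
    intro m j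
    unfold catAll
    rw [aw40_cat (hw j) (hw' j) hh, hy, add_assoc]
  have hQ1 : (fun j => q0 j + walk (catAll h w w' j) (((1 : ℕ) : ℝ) * h)) = y := by
    funext j
    have := hQ 0 j
    rw [Nat.cast_zero, zero_mul, aw40_walk_zero (hw' j), add_zero] at this
    exact this
  have hev : ∀ B : Finset (Site d),
      evol c (fun l j => q0 j + walk (catAll h w w' j) (l * h)) B (l + 1) =
        evol c (fun l j => y j + walk (w' j) (l * h)) (annihilate c y B) l := by
    intro B
    rw [aw40_evol_succ']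
    have e0 : (fun j => q0 j + walk (catAll h w w' j) (((1 : ℕ) : ℝ) * h)) = y := hQ1
    simp only [e0]
    simp only [hQ]
  rw [hev, hev] at hκ
  rw [hQ] at hx
  rcases Nat.eq_zero_or_pos l with rfl | hl
  · left
    refine ⟨κ, hκ, ?_⟩
    rw [Nat.cast_zero, zero_mul, aw40_walk_zero (hw' κ), add_zero] at hx
    exact hx
  · right
    exact ⟨l, hl, by omega, κ, hκ, hx⟩

theorem aw40_ae [NeZero d] : ∀ᵐ w ∂(noises d), ∀ j, Good (w j) := by
  have := prob_noiseLaw d
  rw [ae_all_iff]
  intro j
  exact (measurePreserving_eval_infinitePi (fun _ : Site d => noiseLaw d)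
    j).quasiMeasurePreserving.ae (ae_good d)

theorem aw40_catAll [NeZero d] {h : ℝ} (hh : 0 ≤ h) :
    MeasurePreserving (fun z : (Site d → Noise d) × (Site d → Noise d) => catAll h z.1 z.2)
      ((noises d).prod (noises d)) (noises d) := by
  have := prob_noiseLaw d
  exact measurePreserving_coord (noiseLaw d) (fun _ : Site d => fun z => cat h z.1 z.2)
    fun _ => measurePreserving_cat d hh

theorem aw40_main [NeZero d] (c : Site d → Bool) {h : ℝ} (hh : 0 ≤ h) (x : Site d) (k : ℕ) :
    ∀ (A A' : Finset (Site d)) (κ : Site d) (q0 : Site d → Site d), Aw40Pair c A A' κ →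
      noises d (Aw40E c h k A A' q0 x) ≤ noiseLaw d (Aw40R h k (q0 κ) x) := by
  classical
  have := prob_noiseLaw d
  have := prob_noises d
  induction k with
  | zero =>
    intro A A' κ q0 _
    have : Aw40E c h 0 A A' q0 x = ∅ := by
      ext w
      simp only [Aw40E, Set.mem_ofPred_eq, Set.mem_empty_iff_false, iff_false]
      rintro ⟨l, h1, h2, -⟩
      omega
    rw [this, measure_empty]
    exact bot_le
  | succ k ih =>
    intro A A' κ q0 hP
    set g : Noise d → ENNReal := fun u => if q0 κ + walk u h = x then 1 else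
      noiseLaw d (Aw40R h k (q0 κ + walk u h) x) with hg
    have hgm : Measurable g :=
      (measurable_of_countable (fun z : Site d => if q0 κ + z = x then (1 : ENNReal) else
        noiseLaw d (Aw40R h k (q0 κ + z) x))).comp (measurable_walk h)
    -- upper bound
    have hup : noises d (Aw40E c h (k + 1) A A' q0 x) ≤ ∫⁻ u, g u ∂(noiseLaw d) := by
      have hm := aw40_measE c h (k + 1) A A' q0 x
      have hmp := aw40_catAll (d := d) hh
      rw [← hmp.measure_preimage hm.nullMeasurableSet,
        Measure.prod_apply (hmp.measurable hm)]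
      have hev : MeasurePreserving (fun w : Site d → Noise d => w κ) (noises d) (noiseLaw d) :=
        measurePreserving_eval_infinitePi (fun _ : Site d => noiseLaw d) κ
      rw [← hev.lintegral_comp hgm]
      refine lintegral_mono_ae ?_
      filter_upwards [aw40_ae (d := d)] with w hw
      obtain ⟨κ₁, hκ₁, hyκ⟩ := aw40_step hP (fun j => q0 j + walk (w j) h)
      show _ ≤ if q0 κ + walk (w κ) h = x then 1 else
        noiseLaw d (Aw40R h k (q0 κ + walk (w κ) h) x)
      by_cases hx : q0 κ + walk (w κ) h = x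
      · rw [if_pos hx]
        exact prob_le_one
      · rw [if_neg hx, ← hyκ]
        refine le_trans (measure_mono_ae ?_) (ih _ _ κ₁ (fun j => q0 j + walk (w j) h) hκ₁)
        filter_upwards [aw40_ae (d := d)] with w' hw' hmem
        rcases aw40_split c hh k A A' q0 x hw hw' (fun j => q0 j + walk (w j) h)
          (fun _ => rfl) hmem with ⟨κ', h1, h2⟩ | h1
        · exfalso
          rw [hκ₁.2, Finset.mem_singleton] at h1
          rw [h1, hyκ] at h2
          exact hx h2
        · exact h1
    refine hup.trans ?_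
    -- lower bound
    have hm := aw40_measR h (k + 1) (q0 κ) x
    have hmp := measurePreserving_cat d hh
    rw [← hmp.measure_preimage hm.nullMeasurableSet, Measure.prod_apply (hmp.measurable hm)]
    refine lintegral_mono_ae ?_
    filter_upwards [ae_good d] with u hu
    show (if q0 κ + walk u h = x then 1 else
        noiseLaw d (Aw40R h k (q0 κ + walk u h) x)) ≤ _
    by_cases hx : q0 κ + walk u h = x
    · rw [if_pos hx, ← measure_univ (μ := noiseLaw d)]
      refine measure_mono_ae ?_
      filter_upwards [ae_good d] with v hv _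
      refine ⟨1, le_rfl, by omega, ?_⟩
      have := aw40_cat hu hv hh 0
      rw [Nat.cast_zero, zero_mul, aw40_walk_zero hv, add_zero] at this
      show q0 κ + walk (cat h u v) (((0 + 1 : ℕ) : ℝ) * h) = x
      rw [this]
      exact hx
    · rw [if_neg hx]
      refine measure_mono_ae ?_
      filter_upwards [ae_good d] with v hv hmem
      obtain ⟨l, h1, h2, h3⟩ := hmem
      refine ⟨l + 1, by omega, by omega, ?_⟩
      show q0 κ + walk (cat h u v) (((l + 1 : ℕ) : ℝ) * h) = x
      rw [aw40_cat hu hv hh, ← add_assoc]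
      exact h3

end aw40

theorem hit_grid (d : ℕ) [NeZero d] (c : Site d → Bool) {h : ℝ} (hh : 0 ≤ h) (k : ℕ)
    (A : Finset (Site d)) {i : Site d} (hi : i ∉ A) (q0 : Site d → Site d) (x : Site d) :
    (noises d).real {w | ∃ l, 1 ≤ l ∧ l ≤ k ∧ ∃ κ : Site d,
        ((κ ∈ evol c (fun l j => q0 j + walk (w j) (l * h)) A l ∧
            κ ∉ evol c (fun l j => q0 j + walk (w j) (l * h)) (insert i A) l) ∨
          (κ ∉ evol c (fun l j => q0 j + walk (w j) (l * h)) A l ∧
            κ ∈ evol c (fun l j => q0 j + walk (w j) (l * h)) (insert i A) l)) ∧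
        q0 κ + walk (w κ) (l * h) = x} ≤
      (noiseLaw d).real {v | ∃ l : ℕ, 1 ≤ l ∧ l ≤ k ∧ q0 i + walk v (l * h) = x} := by
  classical
  have := prob_noiseLaw d
  have := prob_noises d
  have hset : {w : Site d → Noise d | ∃ l, 1 ≤ l ∧ l ≤ k ∧ ∃ κ : Site d,
        ((κ ∈ evol c (fun l j => q0 j + walk (w j) (l * h)) A l ∧
            κ ∉ evol c (fun l j => q0 j + walk (w j) (l * h)) (insert i A) l) ∨
          (κ ∉ evol c (fun l j => q0 j + walk (w j) (l * h)) A l ∧
            κ ∈ evol c (fun l j => q0 j + walk (w j) (l * h)) (insert i A) l)) ∧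
        q0 κ + walk (w κ) (l * h) = x} = Aw40E c h k A (insert i A) q0 x := by
    ext w
    simp only [Aw40E, Set.mem_ofPred_eq, Finset.mem_symmDiff]
    constructor
    · rintro ⟨l, h1, h2, κ, h3, h4⟩
      exact ⟨l, h1, h2, κ, h3.imp id And.symm, h4⟩
    · rintro ⟨l, h1, h2, κ, h3, h4⟩
      exact ⟨l, h1, h2, κ, h3.imp id And.symm, h4⟩
  rw [hset]
  have hsymm : Aw40E c h k A (insert i A) q0 x = Aw40E c h k (insert i A) A q0 x := by
    ext w
    simp only [Aw40E, Set.mem_ofPred_eq]
    constructor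
    · rintro ⟨l, h1, h2, κ, h3, h4⟩
      exact ⟨l, h1, h2, κ, by rw [symmDiff_comm]; exact h3, h4⟩
    · rintro ⟨l, h1, h2, κ, h3, h4⟩
      exact ⟨l, h1, h2, κ, by rw [symmDiff_comm]; exact h3, h4⟩
  have hsd : symmDiff A (insert i A) = {i} := by
    ext j
    rw [Finset.mem_symmDiff, Finset.mem_singleton, Finset.mem_insert]
    constructor
    · rintro (⟨h1, h2⟩ | ⟨h1, h2⟩)
      · exact absurd (Or.inr h1) h2
      · exact h1.resolve_right h2
    · rintro rfl
      exact Or.inr ⟨Or.inl rfl, hi⟩
  have key : noises d (Aw40E c h k A (insert i A) q0 x) ≤ noiseLaw d (Aw40R h k (q0 i) x) := by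
    by_cases hc : c i = true
    · refine aw40_main c hh x k A (insert i A) i q0 ⟨⟨fun j hj _ => Finset.mem_insert_of_mem hj,
        fun j hj hcj => ?_⟩, hsd⟩
      rcases Finset.mem_insert.1 hj with rfl | hj
      · rw [hc] at hcj; exact absurd hcj (by simp)
      · exact hj
    · rw [hsymm]
      refine aw40_main c hh x k (insert i A) A i q0 ⟨⟨fun j hj hcj => ?_,
        fun j hj _ => Finset.mem_insert_of_mem hj⟩, by rw [symmDiff_comm]; exact hsd⟩
      rcases Finset.mem_insert.1 hj with rfl | hj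
      · exact absurd hcj hc
      · exact hj
  exact ENNReal.toReal_mono (measure_ne_top _ _) key

end Pool.Agent.H285
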