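import Pool.Agent.H285.Base2
import Pool.Agent.H285.AW13

/-!
# Regular grids (MP_0e9fac_pr)
-/

open MeasureTheory ProbabilityTheory Filter Topology

namespace Pool.Agent.H285

theorem ae_regular_all (d : ℕ) [NeZero d] : ∀ᵐ w ∂(noises d),
    ∀ (Λ : Finset (Site d)) (n : ℕ), ∀ᶠ m : ℕ in atTop, ∀ k < n * 2 ^ m,
      jumpCount w Λ ((k + 1 : ℕ) * (1 / 2 ^ m : ℝ)) ≤ jumpCount w Λ (k * (1 / 2 ^ m : ℝ)) + 1 := by
  rw [ae_all_iff]
  intro Λ
  rw [ae_all_iff]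
  intro n
  exact ae_regular d Λ n

end Pool.Agent.H285
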