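import Pool.Agent.H285.Base2
import Pool.Agent.H285.AW40
import Pool.Agent.H285.AW12
import Pool.Agent.H285.AW13
import Pool.Agent.H285.Reg

/-!
# AW41 (MP_0e9fac_pr)
-/



open MeasureTheory ProbabilityTheory Filter Topology

namespace Pool.Agent.H285


/- ======== TARGETS ======== -/

theorem aw41_evol_subset {d : ℕ} (c : Site d → Bool) (q : ℕ → Site d → Site d)
    (A : Finset (Site d)) (l : ℕ) : evol c q A l ⊆ A := by
  induction l with
  | zero => exact Finset.Subset.refl _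
  | succ k ih => exact (ann_subset _ _ _).trans ih

theorem aw41_evol_congr {d : ℕ} {c c' : Site d → Bool} {q q' : ℕ → Site d → Site d}
    {A : Finset (Site d)} (l : ℕ) (hc : ∀ j ∈ A, c j = c' j)
    (hq : ∀ k ≤ l, ∀ j ∈ A, q k j = q' k j) : evol c q A l = evol c' q' A l := by
  induction l with
  | zero => rfl
  | succ k ih =>
    have h1 := ih (fun m hm j hj => hq m (by omega) j hj)
    show annihilate c (q (k + 1)) (evol c q A k) = annihilate c' (q' (k + 1)) (evol c' q' A k)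
    rw [h1]
    refine ann_congr (fun j hj => hc j (aw41_evol_subset _ _ _ _ hj))
      (fun j hj => hq (k + 1) le_rfl j (aw41_evol_subset _ _ _ _ hj))

/-- The discrepancy event on the grid with mesh `h`. -/
def aw41_D {d : ℕ} (Λ : Finset (Site d)) (i x : Site d) (K : ℕ) (h : ℝ) : Set (Sample d) :=
  {ω | ∃ l, 1 ≤ l ∧ l ≤ K ∧ ∃ κ : Site d,
        ((κ ∈ evol ω.1 (fun l j => j + walk (ω.2 j) (l * h)) Λ l ∧
            κ ∉ evol ω.1 (fun l j => j + walk (ω.2 j) (l * h)) (insert i Λ) l) ∨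
          (κ ∉ evol ω.1 (fun l j => j + walk (ω.2 j) (l * h)) Λ l ∧
            κ ∈ evol ω.1 (fun l j => j + walk (ω.2 j) (l * h)) (insert i Λ) l)) ∧
        κ + walk (ω.2 κ) (l * h) = x}

theorem aw41_measD {d : ℕ} (Λ : Finset (Site d)) (i x : Site d) (K : ℕ) (h : ℝ) :
    MeasurableSet (aw41_D Λ i x K h) := by
  classical
  let A0 : Finset (Site d) := insert i Λ
  let ρ : Sample d → (A0 → Bool) × (Fin (K + 1) → A0 → Site d) := fun ω =>
    (fun κ => ω.1 κ, fun k κ => (κ : Site d) + walk (ω.2 κ) ((k : ℕ) * h))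
  have hρ : Measurable ρ := by
    refine Measurable.prodMk ?_ ?_
    · refine measurable_pi_lambda _ fun κ => ?_
      exact (measurable_pi_apply _).comp measurable_fst
    · refine measurable_pi_lambda _ fun k => measurable_pi_lambda _ fun κ => ?_
      have h1 : Measurable (fun ω : Sample d => walk (ω.2 κ) ((k : ℕ) * h)) :=
        (measurable_walk _).comp ((measurable_pi_apply _).comp measurable_snd)
      exact measurable_const.add h1
  have hsat : ∀ ω ω' : Sample d, ρ ω = ρ ω' → ω ∈ aw41_D Λ i x K h → ω' ∈ aw41_D Λ i x K h := by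
    intro ω ω' he hω
    obtain ⟨l, h1, h2, κ, h3, h4⟩ := hω
    have e1 : ∀ j ∈ A0, ω.1 j = ω'.1 j := fun j hj =>
      congrFun (congrArg Prod.fst he) ⟨j, hj⟩
    have e2 : ∀ k ≤ K, ∀ j ∈ A0, j + walk (ω.2 j) (k * h) = j + walk (ω'.2 j) (k * h) := by
      intro k hk j hj
      exact congrFun (congrFun (congrArg Prod.snd he) ⟨k, by omega⟩) ⟨j, hj⟩
    have hΛ : Λ ⊆ A0 := Finset.subset_insert _ _
    have e3 : evol ω.1 (fun l j => j + walk (ω.2 j) (l * h)) Λ l =
        evol ω'.1 (fun l j => j + walk (ω'.2 j) (l * h)) Λ l :=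
      aw41_evol_congr l (fun j hj => e1 j (hΛ hj)) (fun k hk j hj => e2 k (hk.trans h2) j (hΛ hj))
    have e4 : evol ω.1 (fun l j => j + walk (ω.2 j) (l * h)) (insert i Λ) l =
        evol ω'.1 (fun l j => j + walk (ω'.2 j) (l * h)) (insert i Λ) l :=
      aw41_evol_congr l (fun j hj => e1 j hj) (fun k hk j hj => e2 k (hk.trans h2) j hj)
    have hκ : κ ∈ A0 := by
      rcases h3 with ⟨h5, -⟩ | ⟨-, h5⟩
      · exact hΛ (aw41_evol_subset _ _ _ _ h5)
      · exact aw41_evol_subset _ _ _ _ h5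
    refine ⟨l, h1, h2, κ, ?_, ?_⟩
    · rw [← e3, ← e4]; exact h3
    · rw [← e2 l h2 κ hκ]; exact h4
  have he : aw41_D Λ i x K h = ρ ⁻¹' (ρ '' aw41_D Λ i x K h) := by
    refine Set.Subset.antisymm (Set.subset_preimage_image _ _) ?_
    rintro ω ⟨ω', h1, h2⟩
    exact hsat ω' ω h2 h1
  rw [he]
  exact hρ (MeasurableSet.of_discrete)

theorem aw41_norm1_walk {d : ℕ} (v : Noise d) (t : ℝ) : norm1 (walk v t) ≤ jumps v t := by
  have key : ∀ n : ℕ, norm1 (∑ k ∈ Finset.range n, unitVec (v.2 k)) ≤ n := by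
    intro n
    induction n with
    | zero => simp [norm1]
    | succ n ih =>
      rw [Finset.sum_range_succ]
      have h1 : ∀ a b : Site d, norm1 (a + b) ≤ norm1 a + norm1 b := by
        intro a b
        unfold norm1
        rw [← Finset.sum_add_distrib]
        exact Finset.sum_le_sum fun k _ => Int.natAbs_add_le _ _
      have h2 : ∀ u : Dir d, norm1 (unitVec u) ≤ 1 := by
        intro u
        unfold norm1 unitVec
        rw [Finset.sum_eq_single u.1]
        · rw [Pi.single_eq_same]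
          split_ifs <;> simp
        · intro b _ hb
          rw [Pi.single_eq_of_ne hb]; rfl
        · intro h; exact absurd (Finset.mem_univ _) h
      exact (h1 _ _).trans (Nat.add_le_add ih (h2 _))
  exact key _

theorem aw41_prob_D (d : ℕ) [NeZero d] {p : ℝ} (hp : p ∈ Set.Icc (0 : ℝ) 1)
    (Λ : Finset (Site d)) {i : Site d} (hi : i ∉ Λ) (n : ℕ) (x : Site d) (m : ℕ) :
    law d p (aw41_D Λ i x (n * 2 ^ m) (1 / 2 ^ m)) ≤
      noiseLaw d {v | norm1 (x - i) ≤ jumps v n} := by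
  have := prob_noiseLaw d
  have := prob_noises d
  have := prob_colours d hp
  have hlaw : law d p = (colours d p).prod (noises d) := rfl
  rw [hlaw, Measure.prod_apply (aw41_measD _ _ _ _ _)]
  have hB : noiseLaw d {v | ∃ l : ℕ, 1 ≤ l ∧ l ≤ n * 2 ^ m ∧
      i + walk v (l * (1 / 2 ^ m : ℝ)) = x} ≤ noiseLaw d {v | norm1 (x - i) ≤ jumps v n} := by
    refine measure_mono_ae ?_
    filter_upwards [ae_good d] with v hv
    rintro ⟨l, h1, h2, h3⟩
    show norm1 (x - i) ≤ jumps v n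
    have h4 : x - i = walk v (l * (1 / 2 ^ m : ℝ)) := by rw [← h3]; abel
    rw [h4]
    refine (aw41_norm1_walk _ _).trans (jumps_mono hv (by positivity) ?_)
    have h5 : (l : ℝ) ≤ n * 2 ^ m := by exact_mod_cast h2
    have h6 : (0 : ℝ) < 2 ^ m := by positivity
    rw [mul_one_div, div_le_iff₀ h6]
    exact h5
  calc ∫⁻ c, noises d (Prod.mk c ⁻¹' aw41_D Λ i x (n * 2 ^ m) (1 / 2 ^ m)) ∂(colours d p)
      ≤ ∫⁻ c, noiseLaw d {v | norm1 (x - i) ≤ jumps v n} ∂(colours d p) := by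
        refine lintegral_mono fun c => ?_
        refine le_trans ?_ hB
        have h1 := hit_grid d c (h := (1 / 2 ^ m : ℝ)) (by positivity) (n * 2 ^ m) Λ hi
          (fun j => j) x
        have h2 := ENNReal.ofReal_le_ofReal h1
        rw [ofReal_measureReal, ofReal_measureReal] at h2
        exact h2
    _ = noiseLaw d {v | norm1 (x - i) ≤ jumps v n} := by
        rw [lintegral_const, measure_univ, mul_one]

theorem aw41_alive_congr {d : ℕ} (c : Site d → Bool) (w : Site d → Noise d)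
    (Λ : Finset (Site d)) {s t : ℝ} (h : ∀ j ∈ Λ, jumps (w j) s = jumps (w j) t) :
    alive c w Λ s = alive c w Λ t := by
  unfold alive
  have : jumpCount w Λ s = jumpCount w Λ t := Finset.sum_congr rfl h
  rw [this]

theorem aw41_pos_congr {d : ℕ} (w : Site d → Noise d) {s t : ℝ} {j : Site d}
    (h : jumps (w j) s = jumps (w j) t) : pos w s j = pos w t j := by
  unfold pos walk
  rw [h]

theorem aw41_right {d : ℕ} (w : Site d → Noise d) (A : Finset (Site d))
    (hw : ∀ j, Good (w j)) {t : ℝ} (ht : 0 ≤ t) :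
    ∃ ε : ℝ, 0 < ε ∧ ∀ s, t ≤ s → s < t + ε → ∀ j ∈ A, jumps (w j) s = jumps (w j) t := by
  classical
  induction A using Finset.induction_on with
  | empty => exact ⟨1, one_pos, fun _ _ _ j hj => absurd hj (Finset.notMem_empty _)⟩
  | insert a A _ ih =>
    obtain ⟨e1, he1, h1⟩ := ih
    obtain ⟨e2, he2, h2⟩ := jumps_right (hw a) ht
    refine ⟨min e1 e2, lt_min he1 he2, fun s hs1 hs2 j hj => ?_⟩
    rcases Finset.mem_insert.1 hj with rfl | hj
    · exact h2 s hs1 (hs2.trans_le (by gcongr; exact min_le_right _ _))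
    · exact h1 s hs1 (hs2.trans_le (by gcongr; exact min_le_left _ _)) j hj

theorem aw41_label {d : ℕ} (c : Site d → Bool) (w : Site d → Noise d) (Λ Λ' : Finset (Site d))
    (b : Bool) (t : ℝ) (x : Site d) (h : fieldc c w Λ' b t (ind x) ≠ fieldc c w Λ b t (ind x)) :
    ∃ κ, ((κ ∈ alive c w Λ t ∧ κ ∉ alive c w Λ' t) ∨ (κ ∉ alive c w Λ t ∧ κ ∈ alive c w Λ' t)) ∧
      pos w t κ = x := by
  classical
  by_contra hcon
  push Not at hcon
  apply h
  have key : ∀ B : Finset (Site d), fieldc c w B b t (ind x) =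
      ∑ κ ∈ (alive c w B t).filter (fun κ => pos w t κ = x), if c κ = b then (1 : ℝ) else 0 := by
    intro B
    unfold fieldc ind
    rw [Finset.sum_filter]
    refine Finset.sum_congr rfl fun κ _ => ?_
    split_ifs <;> rfl
  rw [key, key]
  congr 1
  ext κ
  rw [Finset.mem_filter, Finset.mem_filter]
  constructor
  · rintro ⟨h1, h2⟩
    refine ⟨?_, h2⟩
    by_contra h3
    exact hcon κ (Or.inr ⟨h3, h1⟩) h2
  · rintro ⟨h1, h2⟩
    refine ⟨?_, h2⟩
    by_contra h3
    exact hcon κ (Or.inl ⟨h1, h3⟩) h2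

theorem aw41_path {d : ℕ} (c : Site d → Bool) (w : Site d → Noise d) (Λ : Finset (Site d))
    (i x : Site d) (hxi : x ≠ i) (n : ℕ) (hw : ∀ j, Good (w j))
    (hreg : ∀ (Λ : Finset (Site d)) (n : ℕ), ∀ᶠ m : ℕ in atTop, ∀ k < n * 2 ^ m,
      jumpCount w Λ ((k + 1 : ℕ) * (1 / 2 ^ m : ℝ)) ≤ jumpCount w Λ (k * (1 / 2 ^ m : ℝ)) + 1)
    (b : Bool) (t : ℝ) (ht0 : 0 ≤ t) (htn : t ≤ n)
    (h : fieldc c w (insert i Λ) b t (ind x) ≠ fieldc c w Λ b t (ind x)) :
    ∀ᶠ m : ℕ in atTop, (c, w) ∈ aw41_D Λ i x (n * 2 ^ m) (1 / 2 ^ m) := by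
  classical
  obtain ⟨κ, hκ, hx⟩ := aw41_label c w Λ (insert i Λ) b t x h
  have hκA : κ ∈ insert i Λ := by
    rcases hκ with ⟨h1, -⟩ | ⟨-, h1⟩
    · exact Finset.mem_insert_of_mem (alive_subset _ _ _ _ h1)
    · exact alive_subset _ _ _ _ h1
  -- the discrepancy at a grid time
  have grid : ∀ m l : ℕ, 1 ≤ l → l ≤ n * 2 ^ m →
      (∀ k < n * 2 ^ m, jumpCount w Λ ((k + 1 : ℕ) * (1 / 2 ^ m : ℝ)) ≤
        jumpCount w Λ (k * (1 / 2 ^ m : ℝ)) + 1) →
      (∀ k < n * 2 ^ m, jumpCount w (insert i Λ) ((k + 1 : ℕ) * (1 / 2 ^ m : ℝ)) ≤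
        jumpCount w (insert i Λ) (k * (1 / 2 ^ m : ℝ)) + 1) →
      (∀ j ∈ insert i Λ, jumps (w j) (l * (1 / 2 ^ m : ℝ)) = jumps (w j) t) →
      (c, w) ∈ aw41_D Λ i x (n * 2 ^ m) (1 / 2 ^ m) := by
    intro m l h1 h2 r1 r2 hj
    refine ⟨l, h1, h2, κ, ?_, ?_⟩
    · have e1 := alive_eq_evol c w Λ (fun j _ => hw j) (1 / 2 ^ m : ℝ) (by positivity) l
        (fun k hk => r1 k (hk.trans_le h2))
      have e2 := alive_eq_evol c w (insert i Λ) (fun j _ => hw j) (1 / 2 ^ m : ℝ)
        (by positivity) l (fun k hk => r2 k (hk.trans_le h2))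
      have e3 := aw41_alive_congr c w Λ (fun j hj' => hj j (Finset.mem_insert_of_mem hj'))
      have e4 := aw41_alive_congr c w (insert i Λ) hj
      show (κ ∈ evol c (fun l => pos w (l * (1 / 2 ^ m : ℝ))) Λ l ∧
          κ ∉ evol c (fun l => pos w (l * (1 / 2 ^ m : ℝ))) (insert i Λ) l) ∨
          (κ ∉ evol c (fun l => pos w (l * (1 / 2 ^ m : ℝ))) Λ l ∧
          κ ∈ evol c (fun l => pos w (l * (1 / 2 ^ m : ℝ))) (insert i Λ) l)
      rw [← e1, ← e2, e3, e4]
      exact hκ
    · show pos w (l * (1 / 2 ^ m : ℝ)) κ = x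
      rw [aw41_pos_congr w (hj κ hκA)]
      exact hx
  rcases htn.lt_or_eq with hlt | heq
  · obtain ⟨ε, hε, hr⟩ := aw41_right w (insert i Λ) hw ht0
    have hsmall : ∀ᶠ m : ℕ in atTop, (1 / 2 ^ m : ℝ) < min ε (n - t) := by
      have h1 : Tendsto (fun m : ℕ => (1 / 2 ^ m : ℝ)) atTop (𝓝 0) := by
        have := tendsto_pow_atTop_nhds_zero_of_lt_one (r := (1 / 2 : ℝ)) (by norm_num) (by norm_num)
        simpa [one_div, inv_pow] using this
      exact h1.eventually_lt_const (lt_min hε (by linarith))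
    filter_upwards [hsmall, hreg Λ n, hreg (insert i Λ) n] with m hm r1 r2
    have hm1 : (1 / 2 ^ m : ℝ) < ε := hm.trans_le (min_le_left _ _)
    have hm2 : (1 / 2 ^ m : ℝ) < n - t := hm.trans_le (min_le_right _ _)
    have h2m : (0 : ℝ) < 2 ^ m := by positivity
    set l : ℕ := ⌊t * 2 ^ m⌋₊ + 1 with hl
    have hl1 : t * 2 ^ m < l := by
      rw [hl]; push_cast; exact Nat.lt_floor_add_one _
    have hl2 : (l : ℝ) ≤ t * 2 ^ m + 1 := by
      rw [hl]; push_cast
      have := Nat.floor_le (show 0 ≤ t * 2 ^ m by positivity)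
      linarith
    have hl3 : t ≤ l * (1 / 2 ^ m : ℝ) := by
      rw [mul_one_div, le_div_iff₀ h2m]; exact hl1.le
    have hl4 : (l : ℝ) * (1 / 2 ^ m : ℝ) ≤ t + 1 / 2 ^ m := by
      rw [mul_one_div, div_le_iff₀ h2m, add_mul, one_div, inv_mul_cancel₀ h2m.ne']
      exact hl2
    have hl5 : l ≤ n * 2 ^ m := by
      have h1 : (l : ℝ) * (1 / 2 ^ m : ℝ) ≤ n := by linarith
      rw [mul_one_div, div_le_iff₀ h2m] at h1
      exact_mod_cast h1
    exact grid m l (by omega) hl5 r1 r2 (hr _ hl3 (by linarith))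
  · rcases Nat.eq_zero_or_pos n with h0 | hpos
    · exfalso
      subst h0
      have ht : t = 0 := by rw [heq]; simp
      subst ht
      have z : ∀ A : Finset (Site d), alive c w A 0 = A := by
        intro A
        have : jumpCount w A 0 = 0 := Finset.sum_eq_zero fun j _ => jumps_zero (hw j)
        unfold alive
        rw [this]
        rfl
      rw [z, z] at hκ
      have hκi : κ = i := by
        rcases hκ with ⟨h1, h2⟩ | ⟨h1, h2⟩
        · exact absurd (Finset.mem_insert_of_mem h1) h2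
        · rcases Finset.mem_insert.1 h2 with h3 | h3
          · exact h3
          · exact absurd h3 h1
      apply hxi
      rw [← hx, ← hκi]
      unfold pos walk
      rw [jumps_zero (hw κ)]
      simp
    · filter_upwards [hreg Λ n, hreg (insert i Λ) n] with m r1 r2
      have h2m : (0 : ℝ) < 2 ^ m := by positivity
      have e : ((n * 2 ^ m : ℕ) : ℝ) * (1 / 2 ^ m : ℝ) = t := by
        rw [heq]; push_cast; field_simp
      refine grid m (n * 2 ^ m) ?_ le_rfl r1 r2 (fun j _ => by rw [e])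
      exact Nat.mul_pos hpos (by positivity)

theorem hit_real (d : ℕ) [NeZero d] {p : ℝ} (hp : p ∈ Set.Icc (0 : ℝ) 1) (Λ : Finset (Site d))
    {i : Site d} (hi : i ∉ Λ) (n : ℕ) (x : Site d) :
    law d p {ω | ∃ t : ℝ, 0 ≤ t ∧ t ≤ n ∧ ∃ b : Bool,
        fieldc ω.1 ω.2 (insert i Λ) b t (ind x) ≠ fieldc ω.1 ω.2 Λ b t (ind x)} ≤
      noiseLaw d {v | norm1 (x - i) ≤ jumps v n} := by
  classical
  have := prob_noiseLaw d
  have := prob_noises d
  have := prob_colours d hp
  have := prob_law d hp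
  by_cases hxi : x = i
  · have h1 : {v : Noise d | norm1 (x - i) ≤ jumps v n} = Set.univ := by
      ext v
      simp [hxi, norm1]
    rw [h1, measure_univ]
    exact prob_le_one
  have hlaw : law d p = (colours d p).prod (noises d) := rfl
  have hgood : ∀ᵐ w ∂(noises d), ∀ j, Good (w j) := by
    rw [ae_all_iff]
    intro j
    have hmp : MeasurePreserving (Function.eval j) (noises d) (noiseLaw d) :=
      measurePreserving_eval_infinitePi _ j
    exact hmp.quasiMeasurePreserving.ae (ae_good d)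
  have hae : ∀ᵐ ω ∂(law d p), (∀ j, Good (ω.2 j)) ∧
      ∀ (Λ : Finset (Site d)) (n : ℕ), ∀ᶠ m : ℕ in atTop, ∀ k < n * 2 ^ m,
      jumpCount ω.2 Λ ((k + 1 : ℕ) * (1 / 2 ^ m : ℝ)) ≤
        jumpCount ω.2 Λ (k * (1 / 2 ^ m : ℝ)) + 1 := by
    rw [hlaw]
    exact Measure.quasiMeasurePreserving_snd.ae (hgood.and (ae_regular_all d))
  set E : ℕ → Set (Sample d) := fun M => ⋂ m ≥ M, aw41_D Λ i x (n * 2 ^ m) (1 / 2 ^ m) with hE
  have hmono : Monotone E := by
    intro a b hab ω hω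
    simp only [hE, Set.mem_iInter] at hω ⊢
    exact fun m hm => hω m (hab.trans hm)
  calc law d p {ω | ∃ t : ℝ, 0 ≤ t ∧ t ≤ n ∧ ∃ b : Bool,
        fieldc ω.1 ω.2 (insert i Λ) b t (ind x) ≠ fieldc ω.1 ω.2 Λ b t (ind x)}
      ≤ law d p (⋃ M, E M) := by
        refine measure_mono_ae ?_
        filter_upwards [hae] with ω hω
        rintro ⟨t, ht0, htn, b, hb⟩
        have h1 := aw41_path ω.1 ω.2 Λ i x hxi n hω.1 hω.2 b t ht0 htn hb
        obtain ⟨M, hM⟩ := eventually_atTop.1 h1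
        refine Set.mem_iUnion.2 ⟨M, ?_⟩
        simp only [hE, Set.mem_iInter]
        exact fun m hm => hM m hm
    _ = ⨆ M, law d p (E M) := hmono.measure_iUnion
    _ ≤ noiseLaw d {v | norm1 (x - i) ≤ jumps v n} := by
        refine iSup_le fun M => ?_
        refine (measure_mono ?_).trans (aw41_prob_D d hp Λ hi n x M)
        intro ω hω
        simp only [hE, Set.mem_iInter] at hω
        exact hω M le_rfl

end Pool.Agent.H285
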