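import Pool.Agent.H285.Base2
import Pool.Agent.H285.AW41
import Pool.Agent.H285.AW06

/-!
# AW42 (MP_0e9fac_pr)
-/



open MeasureTheory ProbabilityTheory Filter Topology

namespace Pool.Agent.H285


/- ======== TARGETS ======== -/

/-- product formula for sums over `Fin d → ℤ` -/
theorem aw42_tsum_pi (h : ℤ → ENNReal) (d : ℕ) :
    ∑' j : Fin d → ℤ, ∏ k, h (j k) = (∑' m : ℤ, h m) ^ d := by
  induction d with
  | zero =>
    rw [tsum_eq_single (fun i : Fin 0 => i.elim0)]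
    · simp
    · intro b hb
      exact absurd (Subsingleton.elim b _) hb
  | succ d ih =>
    rw [← Equiv.tsum_eq (Fin.consEquiv (fun _ : Fin (d + 1) => ℤ))]
    have h1 : ∀ p : ℤ × (Fin d → ℤ), ∏ k, h (Fin.consEquiv (fun _ : Fin (d + 1) => ℤ) p k) =
        h p.1 * ∏ k, h (p.2 k) := by
      intro p
      rw [Fin.prod_univ_succ]
      rfl
    calc ∑' p : ℤ × (Fin d → ℤ), ∏ k, h (Fin.consEquiv (fun _ : Fin (d + 1) => ℤ) p k)
        = ∑' p : ℤ × (Fin d → ℤ), h p.1 * ∏ k, h (p.2 k) := tsum_congr h1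
      _ = ∑' (a : ℤ) (b : Fin d → ℤ), h a * ∏ k, h (b k) :=
          ENNReal.tsum_prod (f := fun (a : ℤ) (b : Fin d → ℤ) => h a * ∏ k, h (b k))
      _ = ∑' a : ℤ, h a * (∑' m : ℤ, h m) ^ d := by
          refine tsum_congr fun a => ?_
          rw [ENNReal.tsum_mul_left, ih]
      _ = (∑' m : ℤ, h m) ^ (d + 1) := by
          rw [ENNReal.tsum_mul_right, pow_succ, mul_comm]

theorem aw42_int_sum : ∑' m : ℤ, ENNReal.ofReal ((1 / 2 : ℝ) ^ m.natAbs) < ⊤ := by
  apply Summable.tsum_ofReal_lt_top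
  rw [summable_int_iff_summable_nat_and_neg]
  have h := summable_geometric_of_lt_one (r := (1 / 2 : ℝ)) (by norm_num) (by norm_num)
  constructor
  · simpa using h
  · simpa using h

/-- the sum over all starting points is finite -/
theorem aw42_sum (d : ℕ) [NeZero d] (n : ℕ) (x : Site d) :
    ∑' i : Site d, noiseLaw d {v | norm1 (x - i) ≤ jumps v n} ≠ ⊤ := by
  have hprob := prob_noiseLaw d
  have h1 : ∀ i : Site d, noiseLaw d {v | norm1 (x - i) ≤ jumps v n} ≤
      ENNReal.ofReal (Real.exp n) *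
        ∏ k, ENNReal.ofReal ((1 / 2 : ℝ) ^ ((x - i) k).natAbs) := by
    intro i
    have h2 := jumps_tail d (t := n) (θ := 1) (by positivity) (by norm_num) (norm1 (x - i))
    have h3 : noiseLaw d {v | norm1 (x - i) ≤ jumps v n} =
        ENNReal.ofReal ((noiseLaw d).real {v | norm1 (x - i) ≤ jumps v n}) := by
      rw [Measure.real, ENNReal.ofReal_toReal (measure_ne_top _ _)]
    rw [h3, ← ENNReal.ofReal_prod_of_nonneg (fun _ _ => by positivity),
      ← ENNReal.ofReal_mul (by positivity)]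
    apply ENNReal.ofReal_le_ofReal
    refine h2.trans (le_of_eq ?_)
    rw [Finset.prod_pow_eq_pow_sum, one_mul, div_eq_mul_inv]
    congr 1
    rw [one_div, inv_pow]
    norm_num [norm1]
  refine ne_top_of_le_ne_top ?_ (ENNReal.tsum_le_tsum h1)
  rw [ENNReal.tsum_mul_left]
  apply ENNReal.mul_ne_top ENNReal.ofReal_ne_top
  have h2 : ∑' i : Site d, ∏ k, ENNReal.ofReal ((1 / 2 : ℝ) ^ ((x - i) k).natAbs) =
      (∑' m : ℤ, ENNReal.ofReal ((1 / 2 : ℝ) ^ m.natAbs)) ^ d := by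
    rw [← aw42_tsum_pi (fun m : ℤ => ENNReal.ofReal ((1 / 2 : ℝ) ^ m.natAbs)) d,
      ← Equiv.tsum_eq (Equiv.subLeft x) (fun j : Site d =>
        ∏ k, ENNReal.ofReal ((1 / 2 : ℝ) ^ (j k).natAbs))]
    rfl
  rw [h2]
  exact ENNReal.pow_ne_top aw42_int_sum.ne

/-- the event that two systems differ at `x` up to time `n` -/
def aw42E {d : ℕ} (n : ℕ) (x : Site d) (Λ Λ' : Finset (Site d)) : Set (Sample d) :=
  {ω | ∃ t : ℝ, 0 ≤ t ∧ t ≤ n ∧ ∃ b : Bool,
    fieldc ω.1 ω.2 Λ' b t (ind x) ≠ fieldc ω.1 ω.2 Λ b t (ind x)}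

theorem aw42_union (d : ℕ) [NeZero d] {p : ℝ} (hp : p ∈ Set.Icc (0 : ℝ) 1) (n : ℕ) (x : Site d)
    (Λ F : Finset (Site d)) (hF : Disjoint F Λ) :
    law d p (aw42E n x Λ (F ∪ Λ)) ≤
      ∑ i ∈ F, noiseLaw d {v | norm1 (x - i) ≤ jumps v n} := by
  induction F using Finset.induction_on with
  | empty =>
    have : aw42E n x Λ (∅ ∪ Λ) = ∅ := by
      rw [Finset.empty_union]
      ext ω
      simp [aw42E]
    rw [this]
    simp
  | insert i F hi ih =>
    rw [Finset.disjoint_insert_left] at hF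
    have hi2 : i ∉ F ∪ Λ := by
      rw [Finset.mem_union]
      push Not
      exact ⟨hi, hF.1⟩
    rw [Finset.sum_insert hi, Finset.insert_union]
    have hsub : aw42E n x Λ (insert i (F ∪ Λ)) ⊆
        aw42E n x (F ∪ Λ) (insert i (F ∪ Λ)) ∪ aw42E n x Λ (F ∪ Λ) := by
      rintro ω ⟨t, h0, h1, b, hb⟩
      by_cases h : fieldc ω.1 ω.2 (insert i (F ∪ Λ)) b t (ind x) =
          fieldc ω.1 ω.2 (F ∪ Λ) b t (ind x)
      · right
        refine ⟨t, h0, h1, b, ?_⟩
        rw [← h]; exact hb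
      · left
        exact ⟨t, h0, h1, b, h⟩
    calc law d p (aw42E n x Λ (insert i (F ∪ Λ)))
        ≤ law d p (aw42E n x (F ∪ Λ) (insert i (F ∪ Λ)) ∪ aw42E n x Λ (F ∪ Λ)) :=
          measure_mono hsub
      _ ≤ law d p (aw42E n x (F ∪ Λ) (insert i (F ∪ Λ))) + law d p (aw42E n x Λ (F ∪ Λ)) :=
          measure_union_le _ _
      _ ≤ _ := add_le_add (hit_real d hp (F ∪ Λ) hi2 n x) (ih hF.2)

theorem aw42_box_mono (d M : ℕ) : box d M ⊆ box d (M + 1) := by
  unfold box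
  apply Finset.Icc_subset_Icc
  · intro k
    push_cast
    linarith
  · intro k
    push_cast
    linarith

theorem aw42_bc (d : ℕ) [NeZero d] {p : ℝ} (hp : p ∈ Set.Icc (0 : ℝ) 1) (n : ℕ) (x : Site d) :
    ∀ᵐ ω ∂(law d p), ∀ᶠ M : ℕ in atTop, ω ∉ aw42E n x (box d M) (box d (M + 1)) := by
  apply ae_eventually_notMem
  refine ne_top_of_le_ne_top (aw42_sum d n x) ?_
  have h1 : ∀ M : ℕ, law d p (aw42E n x (box d M) (box d (M + 1))) ≤
      ∑ i ∈ box d (M + 1) \ box d M, noiseLaw d {v | norm1 (x - i) ≤ jumps v n} := by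
    intro M
    have h2 := aw42_union d hp n x (box d M) (box d (M + 1) \ box d M) Finset.sdiff_disjoint
    rwa [Finset.sdiff_union_of_subset (aw42_box_mono d M)] at h2
  refine (ENNReal.tsum_le_tsum h1).trans ?_
  apply ENNReal.tsum_le_of_sum_range_le
  intro K
  have h2 : ∑ M ∈ Finset.range K, ∑ i ∈ box d (M + 1) \ box d M,
      noiseLaw d {v | norm1 (x - i) ≤ jumps v n} ≤
      ∑ i ∈ box d K, noiseLaw d {v | norm1 (x - i) ≤ jumps v n} := by
    induction K with
    | zero => simp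
    | succ K ih =>
      rw [Finset.sum_range_succ, ← Finset.sum_sdiff (aw42_box_mono d K), add_comm]
      gcongr
  exact h2.trans (ENNReal.sum_le_tsum _)

/-- **The infinite system is well defined**: almost surely, for each time interval `[0, T]` and each
site, the numbers of the particles of both colours at the site during `[0, T]` are the same in all
large boxes. -/
theorem stable (d : ℕ) [NeZero d] {p : ℝ} (hp : p ∈ Set.Icc (0 : ℝ) 1) :
    ∀ᵐ ω ∂(law d p), ∀ (T : ℝ) (x : Site d), ∃ M0 : ℕ, ∀ M, M0 ≤ M → ∀ t : ℝ, 0 ≤ t → t ≤ T →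
      ∀ b : Bool, fieldc ω.1 ω.2 (box d M) b t (ind x) =
        fieldc ω.1 ω.2 (box d M0) b t (ind x) := by
  have h1 : ∀ᵐ ω ∂(law d p), ∀ (n : ℕ) (x : Site d), ∀ᶠ M : ℕ in atTop,
      ω ∉ aw42E n x (box d M) (box d (M + 1)) := by
    rw [ae_all_iff]
    intro n
    rw [ae_all_iff]
    intro x
    exact aw42_bc d hp n x
  filter_upwards [h1] with ω hω T x
  obtain ⟨M0, hM0⟩ := eventually_atTop.1 (hω ⌈T⌉₊ x)
  refine ⟨M0, fun M hM => ?_⟩
  induction M, hM using Nat.le_induction with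
  | base => intro t _ _ b; rfl
  | succ M hM ih =>
    intro t h0 hT b
    rw [← ih t h0 hT b]
    by_contra hne
    exact hM0 M hM ⟨t, h0, hT.trans (Nat.le_ceil T), b, hne⟩

end Pool.Agent.H285
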