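import Pool.Agent.H285.Defs

/-!
# Auxiliary definitions for the proof
-/

open MeasureTheory ProbabilityTheory Filter Topology

namespace Pool.Agent.H285

/-- The sign of a colour. -/
def sgn (b : Bool) : ℝ := if b then 1 else -1

/-- Regular noise: positive holding times with infinite sum. -/
def Good {d : ℕ} (w : Noise d) : Prop :=
  (∀ k, 0 < w.1 k) ∧ Tendsto (fun n => ∑ k ∈ Finset.range n, w.1 k) atTop atTop

/-- The noise whose walk follows `w` up to time `s` and then `w'`. -/
noncomputable def cat {d : ℕ} (s : ℝ) (w w' : Noise d) : Noise d :=
  (fun k => if k < jumps w s then w.1 k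
      else if k = jumps w s then (s - ∑ l ∈ Finset.range (jumps w s), w.1 l) + w'.1 0
      else w'.1 (k - jumps w s),
    fun k => if k < jumps w s then w.2 k else w'.2 (k - jumps w s))

/-- Concatenation for all particles. -/
noncomputable def catAll {d : ℕ} (s : ℝ) (w w' : Site d → Noise d) : Site d → Noise d :=
  fun i => cat s (w i) (w' i)

/-- The law of all the noises. -/
noncomputable def noises (d : ℕ) : Measure (Site d → Noise d) :=
  Measure.infinitePi fun _ : Site d => noiseLaw d

/-- The law of all the colours. -/
noncomputable def colours (d : ℕ) (p : ℝ) : Measure (Site d → Bool) :=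
  Measure.infinitePi fun _ : Site d => colourLaw p

/-- The evolution in discrete time: at step `k + 1` the particles are at the positions `q (k + 1)`
and pairs are removed. -/
noncomputable def evol {d : ℕ} (c : Site d → Bool) (q : ℕ → Site d → Site d)
    (A : Finset (Site d)) : ℕ → Finset (Site d)
  | 0 => A
  | k + 1 => annihilate c (q (k + 1)) (evol c q A k)

/-- `Dom c A A'`: every red particle of `A` is in `A'` and every blue particle of `A'` is in `A`. -/
def Dom {d : ℕ} (c : Site d → Bool) (A A' : Finset (Site d)) : Prop :=
  (∀ i ∈ A, c i = true → i ∈ A') ∧ (∀ i ∈ A', c i = false → i ∈ A)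

/-- The kernel of the walk. -/
noncomputable def ker (d : ℕ) (t : ℝ) (x : Site d) : ℝ := (noiseLaw d).real {w | walk w t = x}

end Pool.Agent.H285
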