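import Pool.Agent.H285.Base

/-!
# Auxiliary definitions for the proof, second part
-/

open MeasureTheory ProbabilityTheory Filter Topology

namespace Pool.Agent.H285

/-- The indicator of a site. -/
noncomputable def ind {d : ℕ} (x : Site d) : Site d → ℝ := fun y => if y = x then 1 else 0

/-- Sum of `φ` over the positions of the alive particles at time `t`. -/
noncomputable def field {d : ℕ} (c : Site d → Bool) (w : Site d → Noise d) (Λ : Finset (Site d))
    (t : ℝ) (φ : Site d → ℝ) : ℝ :=
  ∑ i ∈ alive c w Λ t, φ (pos w t i)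

/-- Sum of `φ` over the positions of the alive particles of colour `b` at time `t`. -/
noncomputable def fieldc {d : ℕ} (c : Site d → Bool) (w : Site d → Noise d) (Λ : Finset (Site d))
    (b : Bool) (t : ℝ) (φ : Site d → ℝ) : ℝ :=
  ∑ i ∈ alive c w Λ t, if c i = b then φ (pos w t i) else 0

/-- The transition operator of the walk. -/
noncomputable def PP {d : ℕ} (t : ℝ) (φ : Site d → ℝ) : Site d → ℝ :=
  fun y => ∫ v, φ (y + walk v t) ∂(noiseLaw d)

/-- The density at time `n` and site `x` in the finite system `Λ` at `p = 1/2`. -/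
noncomputable def dens (d : ℕ) (Λ : Finset (Site d)) (n : ℕ) (x : Site d) : ℝ :=
  ∫ ω, field ω.1 ω.2 Λ n (ind x) ∂(law d (1 / 2))

/-- The density of the infinite system at time `n` at `p = 1/2`. -/
noncomputable def rho (d : ℕ) (n : ℕ) : ℝ :=
  limsup (fun M : ℕ => dens d (box d M) n 0) atTop

/-- The expected number of visits (up to time `n`, integer times) of the origin. -/
noncomputable def green (d : ℕ) (n : ℕ) : ℝ := ∑ k ∈ Finset.range (n + 1), ker d k 0

/-- The `ℓ¹`-norm of a site. -/
def norm1 {d : ℕ} (x : Site d) : ℕ := ∑ k, (x k).natAbs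

end Pool.Agent.H285
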