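import Mathlib

/-!
# The Bramson-Lebowitz two-type annihilation model on `ℤ^d` (MP_0e9fac_pr)

Explicit construction of the model on a product space.
-/

open MeasureTheory ProbabilityTheory Filter Topology

namespace Pool.Agent.H285

/-- The sites of `ℤ^d`. -/
abbrev Site (d : ℕ) := Fin d → ℤ

/-- A direction: a coordinate axis and a sign. -/
abbrev Dir (d : ℕ) := Fin d × Bool

/-- The unit vector of a direction. -/
def unitVec {d : ℕ} (u : Dir d) : Site d := Pi.single u.1 (if u.2 then 1 else -1)

/-- The randomness that drives the walk of one particle: the holding times and the directions of
the jumps. -/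
abbrev Noise (d : ℕ) := (ℕ → ℝ) × (ℕ → Dir d)

/-- The number of jumps up to time `t`: jump number `n + 1` takes place at the sum of the first
`n + 1` holding times. -/
noncomputable def jumps {d : ℕ} (w : Noise d) (t : ℝ) : ℕ :=
  sInf {n : ℕ | t < ∑ k ∈ Finset.range (n + 1), w.1 k}

/-- The displacement of the walk up to time `t`. -/
noncomputable def walk {d : ℕ} (w : Noise d) (t : ℝ) : Site d :=
  ∑ k ∈ Finset.range (jumps w t), unitVec (w.2 k)

/-- The law of the noise of one particle: independent exponential holding times with rate `1` and,
independently, independent uniform directions. -/
noncomputable def noiseLaw (d : ℕ) : Measure (Noise d) :=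
  (Measure.infinitePi fun _ : ℕ => expMeasure 1).prod
    (Measure.infinitePi fun _ : ℕ => uniformOn (Set.univ : Set (Dir d)))

/-- The law of one colour: `true` (red) with probability `p`, `false` (blue) otherwise. -/
noncomputable def colourLaw (p : ℝ) : Measure Bool :=
  ENNReal.ofReal p • Measure.dirac true + ENNReal.ofReal (1 - p) • Measure.dirac false

/-- A realisation: the colour and the noise of the particle that starts at each site. -/
abbrev Sample (d : ℕ) := (Site d → Bool) × (Site d → Noise d)

/-- The law of the realisation: everything independent. -/
noncomputable def law (d : ℕ) (p : ℝ) : Measure (Sample d) :=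
  (Measure.infinitePi fun _ : Site d => colourLaw p).prod
    (Measure.infinitePi fun _ : Site d => noiseLaw d)

/-- The set of particles which remain when, at each site, as many pairs of opposite colours as
possible are removed from the set `A` of particles, where `q i` is the position and `c i` the colour
of particle `i`. Among the particles of one colour at a site those with the smallest labels (in the
lexicographic order) go first: a particle remains if and only if the number of particles of the
opposite colour at its site is at most the number of particles of its own colour and with a smaller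
label at its site. -/
noncomputable def annihilate {d : ℕ} (c : Site d → Bool) (q : Site d → Site d)
    (A : Finset (Site d)) : Finset (Site d) :=
  open Classical in
  A.filter fun i => (A.filter fun j => q j = q i ∧ c j ≠ c i).card ≤
    (A.filter fun j => q j = q i ∧ c j = c i ∧ toLex j < toLex i).card

/-- The position at time `t` of the particle that starts at `i`. -/
noncomputable def pos {d : ℕ} (w : Site d → Noise d) (t : ℝ) (i : Site d) : Site d :=
  i + walk (w i) t

/-- The total number of jumps up to time `t` of the walks that start in the finite set `Λ`. -/
noncomputable def jumpCount {d : ℕ} (w : Site d → Noise d) (Λ : Finset (Site d)) (t : ℝ) : ℕ :=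
  ∑ i ∈ Λ, jumps (w i) t

/-- The time of the `n`-th jump of the walks that start in the finite set `Λ`. -/
noncomputable def jumpTime {d : ℕ} (w : Site d → Noise d) (Λ : Finset (Site d)) (n : ℕ) : ℝ :=
  sInf {t : ℝ | 0 ≤ t ∧ n ≤ jumpCount w Λ t}

/-- The set of the particles that are alive after the `n`-th jump, in the system that consists only
of the particles that start in the finite set `Λ`. -/
noncomputable def aliveSeq {d : ℕ} (c : Site d → Bool) (w : Site d → Noise d)
    (Λ : Finset (Site d)) : ℕ → Finset (Site d)
  | 0 => Λ
  | n + 1 => annihilate c (pos w (jumpTime w Λ (n + 1))) (aliveSeq c w Λ n)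

/-- The set of the particles that are alive at time `t`, in the system that consists only of the
particles that start in the finite set `Λ`. -/
noncomputable def alive {d : ℕ} (c : Site d → Bool) (w : Site d → Noise d)
    (Λ : Finset (Site d)) (t : ℝ) : Finset (Site d) :=
  aliveSeq c w Λ (jumpCount w Λ t)

/-- The box `[-n, n]^d`. -/
noncomputable def box (d n : ℕ) : Finset (Site d) := Finset.Icc (fun _ => -(n : ℤ)) (fun _ => (n : ℤ))

/-- In the infinite system, at time `t` the site `x` holds at least one particle of colour `b`: this
is so in the system of the particles that start in the box `[-n, n]^d`, for all large `n`. -/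
def Holds {d : ℕ} (ω : Sample d) (b : Bool) (t : ℝ) (x : Site d) : Prop :=
  ∀ᶠ n : ℕ in atTop, ∃ i ∈ alive ω.1 ω.2 (box d n) t, ω.1 i = b ∧ pos ω.2 t i = x

/-- The origin is visited by the colour `b` infinitely many times: there are arbitrarily large times
at which it holds at least one particle of colour `b`. -/
def InfOften {d : ℕ} (ω : Sample d) (b : Bool) : Prop :=
  ∀ T : ℝ, ∃ t : ℝ, T ≤ t ∧ Holds ω b t 0

end Pool.Agent.H285
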